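import Pool.Agent.Lib_MP_6b5565_dg.B1

/-! [DG-A1] angles: almost parallel vectors, three vectors -/

namespace QGd

open EuclideanGeometry

noncomputable section

/-- [DG-A1a] almost equal vectors have a small angle -/
theorem angle_small {a b : E3} {t : ℝ} (ht : t ≤ 1 / 2) (hb : b ≠ 0) (h : ‖a - b‖ ≤ t * ‖b‖) :
    InnerProductGeometry.angle a b ≤ 2 * t := by
  have hbp : 0 < ‖b‖ := norm_pos_iff.mpr hb
  have ht0 : 0 ≤ t := by
    by_contra hneg
    push Not at hneg
    have h1 : t * ‖b‖ < 0 := mul_neg_of_neg_of_pos hneg hbp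
    have h2 := norm_nonneg (a - b)
    linarith
  have hap : 0 < ‖a‖ := by
    have h1 : ‖b‖ ≤ ‖a‖ + ‖a - b‖ := by
      have h2 : b = a - (a - b) := by abel
      calc ‖b‖ = ‖a - (a - b)‖ := by rw [← h2]
        _ ≤ ‖a‖ + ‖a - b‖ := norm_sub_le _ _
    nlinarith
  set θ := InnerProductGeometry.angle a b with hθ
  have hcos : ‖a‖ * ‖b‖ * Real.cos θ = inner ℝ a b := by
    rw [hθ, mul_comm (‖a‖ * ‖b‖)]
    exact InnerProductGeometry.cos_angle_mul_norm_mul_norm a b
  have hsq : ‖a - b‖ ^ 2 = ‖a‖ ^ 2 - 2 * (‖a‖ * ‖b‖ * Real.cos θ) + ‖b‖ ^ 2 := by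
    rw [hcos]
    exact norm_sub_sq_real a b
  have hle : ‖a - b‖ ^ 2 ≤ (t * ‖b‖) ^ 2 := by
    have h2 := norm_nonneg (a - b)
    gcongr
  have hcp : 0 < Real.cos θ := by
    have h1 : 0 < ‖a‖ * ‖b‖ := mul_pos hap hbp
    by_contra hneg
    push Not at hneg
    have h2 : ‖a‖ * ‖b‖ * Real.cos θ ≤ 0 := mul_nonpos_of_nonneg_of_nonpos h1.le hneg
    have h3 : (t * ‖b‖) ^ 2 ≤ (1 / 2 * ‖b‖) ^ 2 := by gcongr
    nlinarith
  have hθ0 : 0 ≤ θ := InnerProductGeometry.angle_nonneg a b
  have hθp : θ ≤ Real.pi / 2 := by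
    by_contra hneg
    push Not at hneg
    have h1 : Real.cos θ ≤ 0 :=
      Real.cos_nonpos_of_pi_div_two_le_of_le hneg.le (by
        have := InnerProductGeometry.angle_le_pi a b
        rw [← hθ] at this
        linarith [Real.pi_pos])
    linarith
  have hsin0 : 0 ≤ Real.sin θ := Real.sin_nonneg_of_nonneg_of_le_pi hθ0 (by linarith [Real.pi_pos])
  have hsc := Real.sin_sq_add_cos_sq θ
  have hsin : Real.sin θ ≤ t := by
    have h1 : (‖b‖ * Real.sin θ) ^ 2 ≤ (t * ‖b‖) ^ 2 := by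
      have h2 : ‖a - b‖ ^ 2 = (‖a‖ - ‖b‖ * Real.cos θ) ^ 2 + (‖b‖ * Real.sin θ) ^ 2 := by
        rw [hsq]
        have h3 : ‖b‖ ^ 2 = ‖b‖ ^ 2 * (Real.sin θ ^ 2 + Real.cos θ ^ 2) := by rw [hsc]; ring
        nlinarith
      have h4 := sq_nonneg (‖a‖ - ‖b‖ * Real.cos θ)
      linarith
    have h5 : ‖b‖ * Real.sin θ ≤ t * ‖b‖ := by
      have h6 : 0 ≤ t * ‖b‖ := mul_nonneg ht0 hbp.le
      exact le_of_sq_le_sq h1 h6
    have h7 : ‖b‖ * Real.sin θ ≤ ‖b‖ * t := by linarith [mul_comm t ‖b‖]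
    exact le_of_mul_le_mul_left h7 hbp
  have h8 : 2 / Real.pi * θ ≤ Real.sin θ := Real.mul_le_sin hθ0 hθp
  have h9 : 2 / Real.pi * θ ≤ t := h8.trans hsin
  have hpi := Real.pi_pos
  have h10 : 2 * θ ≤ t * Real.pi := by
    have h11 : 2 / Real.pi * θ = 2 * θ / Real.pi := by ring
    rw [h11, div_le_iff₀ hpi] at h9
    exact h9
  have h12 := Real.pi_le_four
  nlinarith

/-- [DG-A1b] almost opposite vectors: for every third vector the two angles have a sum near `π`
(`angle a b ≥ π - 2t`; triangle inequality `angle a b ≤ angle a c + angle c b` and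
`angle a b + angle b c + angle c a ≤ 2π`) -/
theorem angle_opp {a b c : E3} {t : ℝ} (ht : t ≤ 1 / 2) (hb : b ≠ 0) (h : ‖a + b‖ ≤ t * ‖b‖) :
    |InnerProductGeometry.angle a c + InnerProductGeometry.angle c b - Real.pi| ≤ 2 * t := by
  have h1 : InnerProductGeometry.angle (-a) b ≤ 2 * t := by
    refine angle_small ht hb ?_
    have h2 : -a - b = -(a + b) := by abel
    rw [h2, norm_neg]
    exact h
  have h3 : InnerProductGeometry.angle (-a) c = Real.pi - InnerProductGeometry.angle a c :=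
    InnerProductGeometry.angle_neg_left a c
  have h4 := InnerProductGeometry.angle_le_angle_add_angle (-a) b c
  have h5 := InnerProductGeometry.angle_le_angle_add_angle c (-a) b
  rw [InnerProductGeometry.angle_comm b c] at h4
  rw [InnerProductGeometry.angle_comm c (-a)] at h5
  rw [h3] at h4 h5
  rw [abs_le]
  constructor <;> linarith

/-- [DG-A1c] replacing both vectors of an angle -/
theorem angle_replace (a b a' b' : E3) : InnerProductGeometry.angle a b ≤
    InnerProductGeometry.angle a a' + InnerProductGeometry.angle a' b' +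
      InnerProductGeometry.angle b' b := by
  have h1 := InnerProductGeometry.angle_le_angle_add_angle a a' b
  have h2 := InnerProductGeometry.angle_le_angle_add_angle a' b' b
  linarith

/-- [DG-A1g] angles do not change by scaling -/
theorem angle_scale {a b c : E3} {s : ℝ} (hs : 0 < s) : ∠ (s • a) (s • b) (s • c) = ∠ a b c := by
  unfold EuclideanGeometry.angle
  rw [vsub_eq_sub, vsub_eq_sub, vsub_eq_sub, vsub_eq_sub, ← smul_sub, ← smul_sub,
    InnerProductGeometry.angle_smul_left_of_pos _ _ hs,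
    InnerProductGeometry.angle_smul_right_of_pos _ _ hs]

end

end QGd
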