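import Pool.Agent.Lib_MP_6b5565_dg.A1

/-! [DG-A1b] angles: almost parallel vectors, three vectors -/

namespace QGd

open EuclideanGeometry

noncomputable section

/-- [DG-A1d] a point `m` of the segment splits the angle at `z` -/
theorem angle_split {z a b m : E3} (h : m ∈ segment ℝ a b) (hz : z ∉ segment ℝ a b) (hm : m ≠ z)
    (ha : a ≠ z) (hb : b ≠ z) : ∠ a z m + ∠ m z b = ∠ a z b :=
  angle_add_of_ne_of_ne ha.symm hb.symm (mem_segment_iff_wbtw.mp h)

private theorem indep3 {a b c : E3} (hab : AffineIndependent ℝ ![a, b, c]) {x y w : ℝ}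
    (h0 : x + y + w = 0) (h1 : x • a + y • b + w • c = 0) : x = 0 ∧ y = 0 ∧ w = 0 := by
  rw [affineIndependent_iff] at hab
  have h := hab Finset.univ ![x, y, w] (by
    rw [Fin.sum_univ_three]
    exact h0) (by
    rw [Fin.sum_univ_three]
    exact h1)
  exact ⟨h 0 (Finset.mem_univ _), h 1 (Finset.mem_univ _), h 2 (Finset.mem_univ _)⟩

/-- [DG-A1e] the angles at an inner point `z` of a nondegenerate triangle have the sum `2π` -/
theorem angle_inner {z a b c : E3} {α β γ : ℝ} (h0 : 0 < α) (h1 : 0 < β) (h2 : 0 < γ)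
    (h3 : α + β + γ = 1) (hz : z = α • a + β • b + γ • c) (hab : AffineIndependent ℝ ![a, b, c]) :
    ∠ a z b + ∠ b z c + ∠ c z a = 2 * Real.pi := by
  have hs : 0 < β + γ := by linarith
  have hs0 : β + γ ≠ 0 := hs.ne'
  obtain ⟨m, hm⟩ : ∃ m : E3, m = (β / (β + γ)) • b + (γ / (β + γ)) • c := ⟨_, rfl⟩
  have hzm : z = α • a + (β + γ) • m := by
    rw [hm, smul_add, smul_smul, smul_smul, mul_div_cancel₀ _ hs0, mul_div_cancel₀ _ hs0, hz,
      add_assoc]
  have hbz : b ≠ z := by
    intro h
    have h4 : α • a + (β - 1) • b + γ • c = 0 := by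
      have h5 : α • a + (β - 1) • b + γ • c = (α • a + β • b + γ • c) - b := by
        rw [sub_smul, one_smul]
        abel
      rw [h5, ← hz, h, sub_self]
    have h6 := (indep3 hab (by linarith) h4).1
    linarith
  have hcz : c ≠ z := by
    intro h
    have h4 : α • a + β • b + (γ - 1) • c = 0 := by
      have h5 : α • a + β • b + (γ - 1) • c = (α • a + β • b + γ • c) - c := by
        rw [sub_smul, one_smul]
        abel
      rw [h5, ← hz, h, sub_self]
    have h6 := (indep3 hab (by linarith) h4).1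
    linarith
  have ham : a ≠ m := by
    intro h
    have h4 : (-1 : ℝ) • a + (β / (β + γ)) • b + (γ / (β + γ)) • c = 0 := by
      rw [neg_smul, one_smul, add_assoc, ← hm, h]
      exact neg_add_cancel m
    have h5 : -1 + β / (β + γ) + γ / (β + γ) = 0 := by
      field_simp
      ring
    have h6 := (indep3 hab h5 h4).1
    linarith
  have hα1 : α < 1 := by linarith
  have haz : z ≠ a := by
    intro h
    have h4 : (β + γ) • (m - a) = 0 := by
      have h5 : (β + γ) • (m - a) = (α • a + (β + γ) • m) - (α + β + γ) • a := by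
        rw [smul_sub, add_assoc α, add_smul α]
        abel
      rw [h5, ← hzm, h3, one_smul, h, sub_self]
    rcases smul_eq_zero.mp h4 with h6 | h6
    · exact hs0 h6
    · exact ham (sub_eq_zero.mp h6).symm
  have hmz : z ≠ m := by
    intro h
    have h4 : α • (a - m) = 0 := by
      have h5 : α • (a - m) = (α • a + (β + γ) • m) - (α + β + γ) • m := by
        rw [smul_sub, add_assoc α, add_smul α]
        abel
      rw [h5, ← hzm, h3, one_smul, h, sub_self]
    rcases smul_eq_zero.mp h4 with h6 | h6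
    · exact h0.ne' h6
    · exact ham (sub_eq_zero.mp h6)
  have hw : z ∈ segment ℝ a m := ⟨α, β + γ, h0.le, hs.le, by linarith, hzm.symm⟩
  have hsb : Sbtw ℝ a z m := ⟨mem_segment_iff_wbtw.mp hw, haz, hmz⟩
  have hpi : ∠ a z m = Real.pi := hsb.angle₁₂₃_eq_pi
  have hmb : m ∈ segment ℝ b c := by
    refine ⟨β / (β + γ), γ / (β + γ), by positivity, by positivity, ?_, hm.symm⟩
    field_simp
  have e1 := angle_add_of_ne_of_ne hbz.symm hcz.symm (mem_segment_iff_wbtw.mp hmb)
  have e2 := angle_add_angle_eq_pi_of_angle_eq_pi b hpi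
  have e3 := angle_add_angle_eq_pi_of_angle_eq_pi c hpi
  rw [angle_comm a z b]
  rw [angle_comm m z c] at e1
  linarith

end

end QGd
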