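import Pool.Agent.Lib_MP_6b5565_dg.A1b

/-! [DG-A1c] angles: almost parallel vectors, three vectors -/

namespace QGd

open EuclideanGeometry

noncomputable section

/-- [DG-A1f] ordered points of a segment: the angles seen from `z` add up -/
theorem angle_fan {z a b : E3} (hz : ∀ m ∈ segment ℝ a b, m ≠ z) (hz' : ∠ a z b < Real.pi) (n : ℕ)
    (t : ℕ → ℝ) (h0 : t 0 = 0) (hn : t n = 1) (ht : ∀ i < n, t i ≤ t (i + 1)) :
    ∑ i ∈ Finset.range n, ∠ (AffineMap.lineMap a b (t i)) z (AffineMap.lineMap a b (t (i + 1))) =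
      ∠ a z b := by
  have hmono : ∀ j ≤ n, ∀ i ≤ j, t i ≤ t j := by
    intro j hj
    induction j with
    | zero =>
      intro i hi
      have : i = 0 := by omega
      rw [this]
    | succ j ih =>
      intro i hi
      rcases Nat.eq_or_lt_of_le hi with h | h
      · rw [h]
      · exact (ih (by omega) i (by omega)).trans (ht j (by omega))
  have h01 : ∀ i ≤ n, 0 ≤ t i ∧ t i ≤ 1 := by
    intro i hi
    refine ⟨?_, ?_⟩
    · rw [← h0]; exact hmono i hi 0 (Nat.zero_le _)
    · rw [← hn]; exact hmono n le_rfl i hi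
  have hseg : ∀ s : ℝ, 0 ≤ s → s ≤ 1 → AffineMap.lineMap a b s ∈ segment ℝ a b := by
    intro s hs0 hs1
    rw [segment_eq_image_lineMap]
    exact ⟨s, ⟨hs0, hs1⟩, rfl⟩
  have hne : ∀ i ≤ n, AffineMap.lineMap a b (t i) ≠ z := fun i hi =>
    hz _ (hseg _ (h01 i hi).1 (h01 i hi).2)
  have ha0 : AffineMap.lineMap a b (t 0) = a := by rw [h0, AffineMap.lineMap_apply_zero]
  have hbn : AffineMap.lineMap a b (t n) = b := by rw [hn, AffineMap.lineMap_apply_one]
  have key : ∀ k ≤ n, ∑ i ∈ Finset.range k,
      ∠ (AffineMap.lineMap a b (t i)) z (AffineMap.lineMap a b (t (i + 1))) =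
      ∠ a z (AffineMap.lineMap a b (t k)) := by
    intro k
    induction k with
    | zero =>
      intro _
      rw [Finset.range_zero, Finset.sum_empty, ha0]
      exact (angle_self_of_ne (hz a (left_mem_segment ℝ a b))).symm
    | succ k ih =>
      intro hk
      rw [Finset.sum_range_succ, ih (by omega)]
      have htk := ht k (by omega)
      have hk0 := h01 k (by omega)
      have hk1 := h01 (k + 1) hk
      refine angle_split ?_ ?_ (hne k (by omega)) (hz a (left_mem_segment ℝ a b)) (hne (k + 1) hk)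
      · -- `m k` lies on the segment from `a` to `m (k+1)`
        rw [segment_eq_image_lineMap]
        by_cases hz0 : t (k + 1) = 0
        · have hk00 : t k = 0 := le_antisymm (by rw [← hz0]; exact htk) hk0.1
          refine ⟨0, ⟨le_rfl, zero_le_one⟩, ?_⟩
          rw [AffineMap.lineMap_apply_zero, hk00, AffineMap.lineMap_apply_zero]
        · have hpos : 0 < t (k + 1) := lt_of_le_of_ne hk1.1 (Ne.symm hz0)
          refine ⟨t k / t (k + 1), ⟨div_nonneg hk0.1 hk1.1, (div_le_one hpos).2 htk⟩, ?_⟩
          simp only [AffineMap.lineMap_apply, vsub_eq_sub, vadd_eq_add, add_sub_cancel_right]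
          rw [smul_smul, div_mul_cancel₀ _ hz0]
      · intro hmem
        have hsub : segment ℝ a (AffineMap.lineMap a b (t (k + 1))) ⊆ segment ℝ a b :=
          (convex_segment a b).segment_subset (left_mem_segment ℝ a b)
            (hseg _ hk1.1 hk1.2)
        exact hz z (hsub hmem) rfl
  rw [key n le_rfl, hbn]

end

end QGd
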