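import Pool.Agent.Lib_MP_6b5565_dg.F4b
import Pool.Agent.Lib_MP_6b5565_dg.A1c

/-! [DG-A2] the curvature of the mesh vertices -/

namespace QGd

open EuclideanGeometry Vx Dx

noncomputable section

private theorem fin_sub_iff_a2 {K : ℕ} (i i' : Fin (K + 1)) :
    (i' ≠ 0 ∧ i' - 1 = i) ↔ (i ≠ Fin.last K ∧ i' = i + 1) := by
  constructor
  · rintro ⟨h1, h2⟩
    have h3 : i' = i + 1 := by rw [← h2]; abel
    refine ⟨?_, h3⟩
    intro h4
    apply h1
    rw [h3, h4, Fin.last_add_one]
  · rintro ⟨h1, h2⟩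
    refine ⟨?_, ?_⟩
    · intro h3
      apply h1
      have h4 : i + 1 = Fin.last K + 1 := by rw [← h2, h3, Fin.last_add_one]
      exact add_right_cancel h4
    · rw [h2]; abel

private theorem pre_eq_leg_a2 {K : ℕ} (T T' : Fin 6) (e e' : Fin 3) (i i' : Fin (K + 1)) :
    pre T' e' i' = leg T e i ↔ i ≠ Fin.last K ∧ T' = T ∧ e' = e ∧ i' = i + 1 := by
  unfold pre
  by_cases h : i' = 0
  · rw [if_pos h]
    constructor
    · intro h1; cases h1
    · rintro ⟨h1, -, -, h2⟩
      exact absurd h ((fin_sub_iff_a2 i i').2 ⟨h1, h2⟩).1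
  · rw [if_neg h]
    constructor
    · intro h1
      injection h1 with h2 h3 h4
      have h5 := (fin_sub_iff_a2 i i').1 ⟨h, h4⟩
      exact ⟨h5.1, h2, h3, h5.2⟩
    · rintro ⟨h1, rfl, rfl, h2⟩
      rw [((fin_sub_iff_a2 i i').2 ⟨h1, h2⟩).2]

private theorem tl_eq_leg_a2 {K : ℕ} (T : Fin 6) (e : Fin 3) (i : Fin (K + 1)) (d : Dx K) :
    tl d = leg T e i ↔ d = L T e i 1 ∨ d = R T e i 2 ∨
      (i = Fin.last K ∧ d = E T e 2) ∨
      (i ≠ Fin.last K ∧ (d = L T e (i + 1) 2 ∨ d = R T e (i + 1) 1)) := by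
  rcases d with ⟨T', e', i', k⟩ | ⟨T', e', i', k⟩ | ⟨T', e', k⟩
  · fin_cases k
    · simp [tl]
    · simp [tl]
    · change pre T' e' i' = leg T e i ↔ _
      rw [pre_eq_leg_a2]
      simp
  · fin_cases k
    · simp [tl]
    · change pre T' e' i' = leg T e i ↔ _
      rw [pre_eq_leg_a2]
      simp
    · simp [tl]
  · fin_cases k
    · simp [tl]
    · simp [tl]
    · simp [tl]
      constructor
      · rintro ⟨h1, h2, h3⟩
        exact ⟨h3.symm, h1, h2⟩
      · rintro ⟨h1, h2, h3⟩
        exact ⟨h2, h3, h1.symm⟩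

private theorem filter_leg_a2 {K : ℕ} (T : Fin 6) (e : Fin 3) (i : Fin (K + 1)) :
    (Finset.univ.filter (fun d : Dx K => tl d = leg T e i)) =
      if i = Fin.last K then ({L T e i 1, R T e i 2, E T e 2} : Finset (Dx K))
      else ({L T e i 1, R T e i 2, L T e (i + 1) 2, R T e (i + 1) 1} : Finset (Dx K)) := by
  ext d
  rw [Finset.mem_filter, tl_eq_leg_a2 T e i d]
  by_cases hi : i = Fin.last K
  · rw [if_pos hi]
    simp only [Finset.mem_univ, true_and, Finset.mem_insert, Finset.mem_singleton]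
    constructor
    · rintro (h1 | h1 | h1 | h1)
      · exact Or.inl h1
      · exact Or.inr (Or.inl h1)
      · exact Or.inr (Or.inr h1.2)
      · exact absurd hi h1.1
    · rintro (h1 | h1 | h1)
      · exact Or.inl h1
      · exact Or.inr (Or.inl h1)
      · exact Or.inr (Or.inr (Or.inl ⟨hi, h1⟩))
  · rw [if_neg hi]
    simp only [Finset.mem_univ, true_and, Finset.mem_insert, Finset.mem_singleton]
    constructor
    · rintro (h1 | h1 | h1 | h1)
      · exact Or.inl h1
      · exact Or.inr (Or.inl h1)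
      · exact absurd h1.1 hi
      · exact Or.inr (Or.inr h1.2)
    · rintro (h1 | h1 | h1)
      · exact Or.inl h1
      · exact Or.inr (Or.inl h1)
      · exact Or.inr (Or.inr (Or.inr ⟨hi, h1⟩))

private theorem sum_leg_a2 {K : ℕ} (f : Dx K → ℝ) (T : Fin 6) (e : Fin 3) (i : Fin (K + 1)) :
    ∑ d ∈ Finset.univ.filter (fun d : Dx K => tl d = leg T e i), f d =
      if i = Fin.last K then f (L T e i 1) + f (R T e i 2) + f (E T e 2)
      else f (L T e i 1) + f (R T e i 2) + f (L T e (i + 1) 2) + f (R T e (i + 1) 1) := by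
  rw [filter_leg_a2]
  by_cases hi : i = Fin.last K
  · rw [if_pos hi, if_pos hi]
    rw [Finset.sum_insert, Finset.sum_insert, Finset.sum_singleton, add_assoc]
    · simp
    · simp
  · rw [if_neg hi, if_neg hi]
    rw [Finset.sum_insert, Finset.sum_insert, Finset.sum_insert, Finset.sum_singleton]
    · ring
    · simp
    · simp
    · simp

private theorem card_leg_a2 {K : ℕ} (T : Fin 6) (e : Fin 3) (i : Fin (K + 1)) :
    (Finset.univ.filter (fun d : Dx K => tl d = leg T e i)).card ≤ 6 := by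
  rw [filter_leg_a2]
  by_cases hi : i = Fin.last K
  · rw [if_pos hi]
    exact (Finset.card_le_three).trans (by norm_num)
  · rw [if_neg hi]
    exact (Finset.card_le_four).trans (by norm_num)

namespace Msh

variable {K : ℕ} (M : Msh K)

/-- [DG-A2a] the sum over the half-edges at a leg vertex -/
theorem tot_leg (T : Fin 6) (e : Fin 3) (i : Fin (K + 1)) : M.P.tot (leg T e i) =
    if i = Fin.last K then M.P.ang (L T e i 1) + M.P.ang (R T e i 2) + M.P.ang (E T e 2)
    else M.P.ang (L T e i 1) + M.P.ang (R T e i 2) + M.P.ang (L T e (i + 1) 2) +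
      M.P.ang (R T e (i + 1) 1) :=
  sum_leg_a2 (fun d => M.P.ang d) T e i

/-- [DG-A2e] degree -/
theorem deg_leg (T : Fin 6) (e : Fin 3) (i : Fin (K + 1)) : M.P.deg (leg T e i) ≤ 6 :=
  card_leg_a2 T e i

end Msh

end

end QGd
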