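import Pool.Agent.Lib_MP_6b5565_dg.A2

/-! [DG-A2b] the curvature of the mesh vertices -/

namespace QGd

open EuclideanGeometry Vx Dx

noncomputable section

private theorem nsq_a2b (x : E3) : ‖x‖ ^ 2 = x 0 ^ 2 + x 1 ^ 2 + x 2 ^ 2 := by
  rw [EuclideanSpace.real_norm_sq_eq, Fin.sum_univ_three]

private theorem nrm_le_a2b (T : Fin 6) : ‖nrm T‖ ≤ 39 := by
  have h2 : ‖nrm T‖ ^ 2 ≤ 39 ^ 2 := (nrm_sq T).2.trans (by norm_num)
  exact abs_le_of_sq_le_sq' h2 (by norm_num) |>.2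

private theorem wv_a2b : ∀ (T : Fin 6) (e : Fin 3),
    1 ≤ (-5 * BV (CT T e) 0 + BV (CT T (e + 1)) 0 + 4 * BV (CT T (e + 2)) 0) ^ 2 +
      (-5 * BV (CT T e) 1 + BV (CT T (e + 1)) 1 + 4 * BV (CT T (e + 2)) 1) ^ 2 +
      (-5 * BV (CT T e) 2 + BV (CT T (e + 1)) 2 + 4 * BV (CT T (e + 2)) 2) ^ 2 := by
  decide

private theorem w_norm_a2b (T : Fin 6) (e : Fin 3) :
    1 ≤ ‖(-5 : ℝ) • cor T e + cor T (e + 1) + (4 : ℝ) • cor T (e + 2)‖ := by
  have h := wv_a2b T e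
  have h1 : (1 : ℝ) ^ 2 ≤
      ‖(-5 : ℝ) • cor T e + cor T (e + 1) + (4 : ℝ) • cor T (e + 2)‖ ^ 2 := by
    rw [nsq_a2b]
    have h2 : ((1 : ℤ) : ℝ) ≤
      (((-5 * BV (CT T e) 0 + BV (CT T (e + 1)) 0 + 4 * BV (CT T (e + 2)) 0) ^ 2 +
      (-5 * BV (CT T e) 1 + BV (CT T (e + 1)) 1 + 4 * BV (CT T (e + 2)) 1) ^ 2 +
      (-5 * BV (CT T e) 2 + BV (CT T (e + 1)) 2 + 4 * BV (CT T (e + 2)) 2) ^ 2 : ℤ) : ℝ) := by
      exact_mod_cast h
    refine le_trans (le_of_eq (by norm_num)) (h2.trans (le_of_eq ?_))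
    simp [cor, bpt, pt]
  exact abs_le_of_sq_le_sq' h1 (norm_nonneg _) |>.2

private theorem second_a2b (K : ℕ) (T : Fin 6) (e : Fin 3) (s D : ℝ) :
    (idl K T e s - idl K T e (s + D)) + (idl K T e (s + 2 * D) - idl K T e (s + D)) =
      (-2 * eps K ^ 2 * D ^ 2) • nrm T := by
  unfold idl hgt
  module

private theorem first_a2b (K : ℕ) (T : Fin 6) (e : Fin 3) (s D : ℝ) :
    idl K T e (s + 2 * D) - idl K T e (s + D) =
      (D / 15) • ((-5 : ℝ) • cor T e + cor T (e + 1) + (4 : ℝ) • cor T (e + 2)) -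
        (eps K * D - eps K ^ 2 * D * (1 - 2 * s - 3 * D)) • nrm T := by
  unfold idl hgt
  module

private theorem eps_a2b (K : ℕ) : eps K = (1 / 2) ^ (2 * K) * (1 / 2) ^ 100 := by
  unfold eps
  rw [pow_add]

private theorem del_a2b (K : ℕ) : del K = ((1 / 2) ^ (2 * K)) ^ 8 * (1 / 2) ^ 1000 := by
  unfold del
  rw [← pow_mul, ← pow_add]
  congr 1
  ring

private theorem two_pow_a2b (K : ℕ) : K + 2 ≤ 2 ^ (2 * K + 1) := by
  induction K with
  | zero => norm_num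
  | succ n ih =>
    have h : 2 ^ (2 * (n + 1) + 1) = 4 * 2 ^ (2 * n + 1) := by ring
    rw [h]
    omega

private theorem x_le_a2b (K : ℕ) : ((1 : ℝ) / 2) ^ (2 * K) ≤ 2 * (1 / ((K : ℝ) + 2)) := by
  have h : ((K + 2 : ℕ) : ℝ) ≤ ((2 ^ (2 * K + 1) : ℕ) : ℝ) := by exact_mod_cast two_pow_a2b K
  push_cast at h
  have h2 : (0 : ℝ) < (K : ℝ) + 2 := by positivity
  rw [mul_one_div, le_div_iff₀ h2]
  have h3 : ((1 : ℝ) / 2) ^ (2 * K) * 2 ^ (2 * K + 1) = 2 := by
    rw [pow_succ, ← mul_assoc, ← mul_pow]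
    norm_num
  have h4 : (0 : ℝ) ≤ ((1 : ℝ) / 2) ^ (2 * K) := by positivity
  calc ((1 : ℝ) / 2) ^ (2 * K) * ((K : ℝ) + 2) ≤ ((1 : ℝ) / 2) ^ (2 * K) * 2 ^ (2 * K + 1) :=
        mul_le_mul_of_nonneg_left h h4
    _ = 2 := h3

/-- numerical facts -/
private theorem num_a2b (K : ℕ) (D : ℝ) (hD : D = 1 / ((K : ℝ) + 2)) :
    0 < D ∧ D ≤ 1 ∧ 0 < eps K ∧ 78 * eps K ≤ 1 / 30 ∧ eps K ^ 2 ≤ eps K ∧
      78 * eps K ^ 2 * D ^ 2 + 4 * del K ≤ (1 / 2) ^ (2 * K + 70) * (D / 30 - 2 * del K) := by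
  have hx1 := x_le_a2b K
  rw [← hD] at hx1
  have hK : (0 : ℝ) ≤ (K : ℝ) := Nat.cast_nonneg K
  have hD0 : 0 < D := by rw [hD]; positivity
  have hD1 : D ≤ 1 := by
    rw [hD, div_le_one (by linarith)]
    linarith
  rw [eps_a2b, del_a2b, pow_add]
  have hx0 : (0 : ℝ) < (1 / 2) ^ (2 * K) := by positivity
  have hx2 : ((1 : ℝ) / 2) ^ (2 * K) ≤ 1 := pow_le_one₀ (by norm_num) (by norm_num)
  generalize ((1 : ℝ) / 2) ^ (2 * K) = x at hx0 hx1 hx2 ⊢
  have hz0 : (0 : ℝ) < (1 / 2) ^ 1000 := by positivity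
  have hz1 : ((1 : ℝ) / 2) ^ 1000 ≤ (1 / 2) ^ 200 :=
    pow_le_pow_of_le_one (by norm_num) (by norm_num) (by norm_num)
  generalize ((1 : ℝ) / 2) ^ 1000 = z at hz0 hz1 ⊢
  have c0 : (0 : ℝ) < (1 / 2) ^ 100 := by positivity
  have c1 : ((1 : ℝ) / 2) ^ 100 ≤ 1 / 10000 := by norm_num
  have e1 : x * (1 / 2) ^ 100 ≤ (1 / 2) ^ 100 := by
    have := mul_le_mul_of_nonneg_right hx2 c0.le
    linarith
  have e0 : 0 < x * (1 / 2) ^ 100 := mul_pos hx0 c0
  refine ⟨hD0, hD1, e0, by linarith, ?_, ?_⟩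
  · have h : x * (1 / 2) ^ 100 ≤ 1 := by linarith
    calc (x * (1 / 2) ^ 100) ^ 2 = (x * (1 / 2) ^ 100) * (x * (1 / 2) ^ 100) := by ring
      _ ≤ (x * (1 / 2) ^ 100) * 1 := mul_le_mul_of_nonneg_left h e0.le
      _ = x * (1 / 2) ^ 100 := mul_one _
  · have hxD : 0 < x * D := mul_pos hx0 hD0
    have hx8 : x ^ 8 ≤ x * (2 * D) := by
      have h7 : x ^ 7 ≤ x := by
        calc x ^ 7 = x * x ^ 6 := by ring
          _ ≤ x * 1 := mul_le_mul_of_nonneg_left (pow_le_one₀ hx0.le hx2) hx0.le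
          _ = x := mul_one _
      calc x ^ 8 = x * x ^ 7 := by ring
        _ ≤ x * (2 * D) := mul_le_mul_of_nonneg_left (h7.trans hx1) hx0.le
    have hdel : x ^ 8 * z ≤ (x * D) * (2 * z) := by
      have := mul_le_mul_of_nonneg_right hx8 (by positivity : (0 : ℝ) ≤ z)
      linarith
    have hdel0 : 0 ≤ x ^ 8 * z := by positivity
    have heps : 78 * (x * (1 / 2) ^ 100) ^ 2 * D ^ 2 ≤ (x * D) * (78 * (1 / 2) ^ 200) := by
      have h : x * D ≤ 1 := by
        calc x * D ≤ 1 * 1 := mul_le_mul hx2 hD1 hD0.le zero_le_one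
          _ = 1 := one_mul 1
      have h2 : (x * D) * (x * D) ≤ (x * D) * 1 := mul_le_mul_of_nonneg_left h hxD.le
      have h3 := mul_le_mul_of_nonneg_right h2 (by positivity : (0 : ℝ) ≤ 78 * (1 / 2) ^ 200)
      calc 78 * (x * (1 / 2) ^ 100) ^ 2 * D ^ 2 = (x * D) * (x * D) * (78 * (1 / 2) ^ 200) := by
            ring
        _ ≤ _ := h3
        _ = _ := by ring
    have hR : x * (1 / 2) ^ 70 * (D / 30 - 2 * (x ^ 8 * z)) ≥
        (x * D) * ((1 / 2) ^ 70 / 30) - 2 * (x ^ 8 * z) := by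
      have h1 : x * (1 / 2) ^ 70 ≤ 1 := by
        calc x * (1 / 2) ^ 70 ≤ 1 * 1 :=
              mul_le_mul hx2 (by norm_num) (by positivity) zero_le_one
          _ = 1 := one_mul 1
      have h2 := mul_le_mul_of_nonneg_right h1
        (mul_nonneg (by norm_num : (0 : ℝ) ≤ 2) hdel0)
      have h3 : x * (1 / 2) ^ 70 * (D / 30 - 2 * (x ^ 8 * z)) =
        (x * D) * ((1 / 2) ^ 70 / 30) - x * (1 / 2) ^ 70 * (2 * (x ^ 8 * z)) := by
        ring
      rw [h3]
      linarith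
    have hc : 78 * ((1 : ℝ) / 2) ^ 200 + 12 * z ≤ (1 / 2) ^ 70 / 30 := by
      have h1 : 90 * ((1 : ℝ) / 2) ^ 200 ≤ (1 / 2) ^ 70 / 30 := by norm_num
      linarith
    have hfin := mul_le_mul_of_nonneg_left hc hxD.le
    have hsum : (x * D) * (78 * ((1 : ℝ) / 2) ^ 200 + 12 * z) =
      (x * D) * (78 * (1 / 2) ^ 200) + 6 * ((x * D) * (2 * z)) := by ring
    rw [hsum] at hfin
    linarith

private theorem core_a2b (K : ℕ) (T : Fin 6) (e : Fin 3) (j : ℕ) (hj : j ≤ K) (a b c : E3)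
    (ha : ‖a - idl K T e (sj K j)‖ ≤ del K) (hb : ‖b - idl K T e (sj K (j + 1))‖ ≤ del K)
    (hc : ‖c - idl K T e (sj K (j + 2))‖ ≤ del K) :
    ‖(a - b) + (c - b)‖ ≤ (1 / 2) ^ (2 * K + 70) * ‖c - b‖ := by
  obtain ⟨D, hD⟩ : ∃ D : ℝ, D = 1 / ((K : ℝ) + 2) := ⟨_, rfl⟩
  obtain ⟨hD0, hD1, he0, he1, he2, hfin⟩ := num_a2b K D hD
  have hK2 : (0 : ℝ) < (K : ℝ) + 2 := by positivity
  have hs1 : sj K (j + 1) = sj K j + D := by
    rw [hD]; unfold sj; push_cast; ring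
  have hs2 : sj K (j + 2) = sj K j + 2 * D := by
    rw [hD]; unfold sj; push_cast; ring
  have hs0 : 0 ≤ sj K j := by unfold sj; positivity
  have hs3 : sj K j + 2 * D ≤ 1 := by
    rw [← hs2]
    unfold sj
    rw [div_le_one hK2]
    have : ((j : ℕ) : ℝ) ≤ (K : ℝ) := by exact_mod_cast hj
    push_cast
    linarith
  rw [hs1] at hb
  rw [hs2] at hc
  generalize hs : sj K j = s at ha hb hc hs0 hs3
  have hsec := second_a2b K T e s D
  have hfst := first_a2b K T e s D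
  have hn := nrm_le_a2b T
  have hw := w_norm_a2b T e
  -- upper bound of the second difference
  have hup : ‖(a - b) + (c - b)‖ ≤ 78 * eps K ^ 2 * D ^ 2 + 4 * del K := by
    have h1 : (a - b) + (c - b) = (-2 * eps K ^ 2 * D ^ 2) • nrm T +
        ((a - idl K T e s) + (c - idl K T e (s + 2 * D)) -
          ((b - idl K T e (s + D)) + (b - idl K T e (s + D)))) := by
      rw [← hsec]
      abel
    rw [h1]
    have h2 : ‖(-2 * eps K ^ 2 * D ^ 2) • nrm T‖ ≤ 78 * eps K ^ 2 * D ^ 2 := by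
      rw [norm_smul, Real.norm_eq_abs]
      have h3 : |-2 * eps K ^ 2 * D ^ 2| = 2 * eps K ^ 2 * D ^ 2 := by
        rw [show -2 * eps K ^ 2 * D ^ 2 = -(2 * eps K ^ 2 * D ^ 2) by ring, abs_neg, abs_of_nonneg]
        positivity
      rw [h3]
      have h4 := mul_le_mul_of_nonneg_left hn (by positivity : 0 ≤ 2 * eps K ^ 2 * D ^ 2)
      linarith
    have h5 := norm_add_le ((-2 * eps K ^ 2 * D ^ 2) • nrm T)
      ((a - idl K T e s) + (c - idl K T e (s + 2 * D)) -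
          ((b - idl K T e (s + D)) + (b - idl K T e (s + D))))
    have h6 := norm_sub_le ((a - idl K T e s) + (c - idl K T e (s + 2 * D)))
      ((b - idl K T e (s + D)) + (b - idl K T e (s + D)))
    have h7 := norm_add_le (a - idl K T e s) (c - idl K T e (s + 2 * D))
    have h8 := norm_add_le (b - idl K T e (s + D)) (b - idl K T e (s + D))
    linarith
  -- lower bound of the first difference
  have hlo : D / 30 - 2 * del K ≤ ‖c - b‖ := by
    have h1 : ‖(D / 15) • ((-5 : ℝ) • cor T e + cor T (e + 1) + (4 : ℝ) • cor T (e + 2))‖ ≥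
        D / 15 := by
      rw [norm_smul, Real.norm_eq_abs, abs_of_nonneg (by positivity)]
      have := mul_le_mul_of_nonneg_left hw (by positivity : 0 ≤ D / 15)
      linarith
    have h2 : ‖(eps K * D - eps K ^ 2 * D * (1 - 2 * s - 3 * D)) • nrm T‖ ≤
        (78 * eps K) * D := by
      rw [norm_smul, Real.norm_eq_abs]
      have h3 : |eps K * D - eps K ^ 2 * D * (1 - 2 * s - 3 * D)| ≤ 2 * (eps K * D) := by
        have h4 : |eps K ^ 2 * D * (1 - 2 * s - 3 * D)| ≤ eps K * D := by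
          rw [abs_mul, abs_of_nonneg (by positivity : 0 ≤ eps K ^ 2 * D)]
          have h5 : |1 - 2 * s - 3 * D| ≤ 1 := by
            rw [abs_le]
            constructor <;> linarith
          calc eps K ^ 2 * D * |1 - 2 * s - 3 * D| ≤ eps K * D * 1 :=
                mul_le_mul (mul_le_mul_of_nonneg_right he2 hD0.le) h5 (abs_nonneg _)
                  (by positivity)
            _ = eps K * D := mul_one _
        have h6 := abs_le.mp h4
        have h7 : 0 ≤ eps K * D := by positivity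
        rw [abs_le]
        constructor <;> linarith [h6.1, h6.2]
      calc |eps K * D - eps K ^ 2 * D * (1 - 2 * s - 3 * D)| * ‖nrm T‖ ≤
            2 * (eps K * D) * 39 := mul_le_mul h3 hn (norm_nonneg _) (by positivity)
        _ = (78 * eps K) * D := by ring
    have h3 : (78 * eps K) * D ≤ (1 / 30) * D := mul_le_mul_of_nonneg_right he1 hD0.le
    have h4 := norm_sub_norm_le
      ((D / 15) • ((-5 : ℝ) • cor T e + cor T (e + 1) + (4 : ℝ) • cor T (e + 2)))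
      ((eps K * D - eps K ^ 2 * D * (1 - 2 * s - 3 * D)) • nrm T)
    rw [← hfst] at h4
    have h5 : idl K T e (s + 2 * D) - idl K T e (s + D) =
        (c - b) - ((c - idl K T e (s + 2 * D)) - (b - idl K T e (s + D))) := by abel
    have h6 := norm_sub_le (c - b) ((c - idl K T e (s + 2 * D)) - (b - idl K T e (s + D)))
    rw [← h5] at h6
    have h7 := norm_sub_le (c - idl K T e (s + 2 * D)) (b - idl K T e (s + D))
    linarith
  exact hup.trans (hfin.trans (mul_le_mul_of_nonneg_left hlo (by positivity)))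

namespace Msh

variable {K : ℕ} (M : Msh K)

/-- [DG-A2b] the leg is almost straight: `Y j - Y (j+1) ≈ Y (j+1) - Y (j+2)` -/
theorem leg_straight (T : Fin 6) (e : Fin 3) (j : ℕ) (hj : j + 2 ≤ K + 1) :
    ‖(M.u (Y K T e j) - M.u (Y K T e (j + 1))) + (M.u (Y K T e (j + 2)) - M.u (Y K T e (j + 1)))‖ ≤
      (1 / 2) ^ (2 * K + 70) * ‖M.u (Y K T e (j + 2)) - M.u (Y K T e (j + 1))‖ := by
  refine core_a2b K T e j (by omega) _ _ _ ?_ ?_ ?_
  · rw [← ideal_Y K T e j (by omega)]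
    exact M.u_close _
  · rw [← ideal_Y K T e (j + 1) (by omega)]
    exact M.u_close _
  · rw [← ideal_Y K T e (j + 2) (by omega)]
    exact M.u_close _

/-- [DG-A2c] the last vertex: with the point `m = (2 q + 3 r) / 5` of the side -/
theorem leg_straight_last (T : Fin 6) (e : Fin 3) :
    ‖(M.u (Y K T e K) - M.u (Y K T e (K + 1))) +
      (((2 / 5 : ℝ) • cor T (e + 1) + (3 / 5 : ℝ) • cor T (e + 2)) - M.u (Y K T e (K + 1)))‖ ≤
      (1 / 2) ^ (2 * K + 70) *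
        ‖((2 / 5 : ℝ) • cor T (e + 1) + (3 / 5 : ℝ) • cor T (e + 2)) - M.u (Y K T e (K + 1))‖ := by
  refine core_a2b K T e K le_rfl _ _ _ ?_ ?_ ?_
  · rw [← ideal_Y K T e K (by omega)]
    exact M.u_close _
  · rw [← ideal_Y K T e (K + 1) (by omega)]
    exact M.u_close _
  · have h1 : sj K (K + 2) = 1 := by
      unfold sj
      push_cast
      exact div_self (by positivity)
    have h2 : ((2 / 5 : ℝ) • cor T (e + 1) + (3 / 5 : ℝ) • cor T (e + 2)) -
        idl K T e (sj K (K + 2)) = 0 := by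
      rw [h1]
      unfold idl hgt
      module
    rw [h2, norm_zero]
    unfold del
    positivity

end Msh

end

end QGd
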