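import Pool.Agent.Lib_MP_6b5565_dg.A2b

/-! [DG-A2c] the curvature of the mesh vertices -/

namespace QGd

open EuclideanGeometry Vx Dx

noncomputable section

namespace Msh

variable {K : ℕ} (M : Msh K)

private theorem ang_u (d : Dx K) :
    M.P.ang d = ∠ (M.u (tl (nx d))) (M.u (tl d)) (M.u (tl (nx (nx d)))) := by
  have h1 : M.P.ang d = ∠ (M.pos (tl (nx d))) (M.pos (tl d)) (M.pos (tl (nx (nx d)))) := rfl
  rw [h1, M.pos_smul, M.pos_smul, M.pos_smul, angle_scale M.Spos]

private theorem u_ne (d : Dx K) : M.u (tl d) ≠ M.u (tl (nx d)) := by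
  intro h
  have h1 := (M.P.indep d).injective.ne (show (0 : Fin 3) ≠ 1 by decide)
  apply h1
  have h2 : M.pos (tl d) = M.pos (tl (nx d)) := by rw [M.pos_smul, M.pos_smul, h]
  exact h2

private theorem u_ne' (d : Dx K) : M.u (tl (nx (nx d))) ≠ M.u (tl d) := by
  intro h
  have h1 := (M.P.indep d).injective.ne (show (2 : Fin 3) ≠ 0 by decide)
  apply h1
  have h2 : M.pos (tl (nx (nx d))) = M.pos (tl d) := by rw [M.pos_smul, M.pos_smul, h]
  exact h2

private theorem notMem_seg {p q r : E3} (h : AffineIndependent ℝ ![p, q, r]) :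
    r ∉ segment ℝ p q := by
  rw [affineIndependent_iff_not_collinear_set] at h
  intro hr
  apply h
  have h1 : Wbtw ℝ p r q := mem_segment_iff_wbtw.mp hr
  have h2 := h1.collinear
  rwa [show ({p, q, r} : Set E3) = {p, r, q} by rw [Set.pair_comm]]

private theorem last_notMem (T : Fin 6) (e : Fin 3) :
    M.pos (leg T e (Fin.last K)) ∉
      segment ℝ (M.pos (base (CT T (e + 1)))) (M.pos (base (CT T (e + 2)))) :=
  notMem_seg (M.P.indep (E T e 0))

private theorem two_opp {z a b q r : E3} {t : ℝ} (ht : t ≤ 1 / 2) (hb : b ≠ z)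
    (h : ‖(a - z) + (b - z)‖ ≤ t * ‖b - z‖) :
    |∠ a z q + ∠ q z b + (∠ b z r + ∠ r z a) - 2 * Real.pi| ≤ 4 * t := by
  have hb' : b - z ≠ 0 := sub_ne_zero.mpr hb
  have h1 := angle_opp (c := q - z) ht hb' h
  have h2 := angle_opp (c := r - z) ht hb' h
  have e1 : ∠ a z q = InnerProductGeometry.angle (a - z) (q - z) := rfl
  have e2 : ∠ q z b = InnerProductGeometry.angle (q - z) (b - z) := rfl
  have e3 : ∠ b z r = InnerProductGeometry.angle (r - z) (b - z) := by
    rw [InnerProductGeometry.angle_comm]; rfl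
  have e4 : ∠ r z a = InnerProductGeometry.angle (a - z) (r - z) := by
    rw [InnerProductGeometry.angle_comm]; rfl
  rw [e1, e2, e3, e4]
  rw [abs_le] at h1 h2 ⊢
  constructor <;> linarith [h1.1, h1.2, h2.1, h2.2]

private theorem t_half (K : ℕ) : ((1 : ℝ) / 2) ^ (2 * K + 70) ≤ 1 / 2 := by
  calc ((1 : ℝ) / 2) ^ (2 * K + 70) ≤ (1 / 2) ^ 1 :=
        pow_le_pow_of_le_one (by norm_num) (by norm_num) (by omega)
    _ = 1 / 2 := by norm_num

private theorem t_eta (K : ℕ) : 4 * ((1 : ℝ) / 2) ^ (2 * K + 70) ≤ eta K := by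
  unfold eta
  have h : ((1 : ℝ) / 2) ^ (2 * K + 70) = (1 / 2) ^ (2 * K + 60) * (1 / 2) ^ 10 := by
    rw [← pow_add]
  rw [h]
  have h2 : (0 : ℝ) < (1 / 2) ^ (2 * K + 60) := by positivity
  nlinarith

private theorem Y_pre (T : Fin 6) (e : Fin 3) (i : Fin (K + 1)) :
    Y K T e i.val = pre T e i := by
  obtain ⟨i, hi⟩ := i
  cases i with
  | zero => rfl
  | succ j =>
    have h0 : (⟨j + 1, hi⟩ : Fin (K + 1)) ≠ 0 := by
      intro h
      have := congrArg Fin.val h
      simp at this
    show leg T e (Fin.ofNat (K + 1) j) = pre T e ⟨j + 1, hi⟩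
    unfold pre
    rw [if_neg h0]
    congr 1
    apply Fin.ext
    rw [Fin.val_sub_one_of_ne_zero h0]
    show j % (K + 1) = j + 1 - 1
    rw [Nat.mod_eq_of_lt (by omega)]
    omega

private theorem Y_leg (T : Fin 6) (e : Fin 3) (i : Fin (K + 1)) :
    Y K T e (i.val + 1) = leg T e i := by
  show leg T e (Fin.ofNat (K + 1) i.val) = leg T e i
  congr 1
  apply Fin.ext
  show i.val % (K + 1) = i.val
  exact Nat.mod_eq_of_lt i.isLt

/-- [DG-A2d] leg vertices are almost flat (`angle_opp` twice; at the last vertex `angle_split` at the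
point `m`) -/
theorem tot_leg_near (T : Fin 6) (e : Fin 3) (i : Fin (K + 1)) :
    |M.P.tot (leg T e i) - 2 * Real.pi| ≤ eta K := by
  rw [M.tot_leg T e i]
  refine le_trans ?_ (t_eta K)
  have a1 : M.P.ang (L T e i 1) =
      ∠ (M.u (pre T e i)) (M.u (leg T e i)) (M.u (base (CT T (e + 1)))) := M.ang_u _
  have a2 : M.P.ang (R T e i 2) =
      ∠ (M.u (base (CT T (e + 2)))) (M.u (leg T e i)) (M.u (pre T e i)) := M.ang_u _
  by_cases hi : i = Fin.last K
  · rw [if_pos hi, a1, a2]
    subst hi
    have a3 : M.P.ang (E T e 2) = ∠ (M.u (base (CT T (e + 1)))) (M.u (leg T e (Fin.last K)))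
        (M.u (base (CT T (e + 2)))) := M.ang_u _
    set z := M.u (leg T e (Fin.last K)) with hz
    set q := M.u (base (CT T (e + 1))) with hq
    set r := M.u (base (CT T (e + 2))) with hr
    set a := M.u (pre T e (Fin.last K)) with ha
    have hq' : q = cor T (e + 1) := M.u_base _
    have hr' : r = cor T (e + 2) := M.u_base _
    set m : E3 := (2 / 5 : ℝ) • cor T (e + 1) + (3 / 5 : ℝ) • cor T (e + 2) with hm
    have hstr := M.leg_straight_last T e
    have y1 : Y K T e K = pre T e (Fin.last K) := Y_pre T e (Fin.last K)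
    have y2 : Y K T e (K + 1) = leg T e (Fin.last K) := Y_leg T e (Fin.last K)
    rw [y1, y2, ← hm, ← hz, ← ha] at hstr
    -- the segment in scaled coordinates
    have hS := M.Spos
    have hpz : M.pos (leg T e (Fin.last K)) = (M.S : ℝ) • z := M.pos_smul _
    have hpq : M.pos (base (CT T (e + 1))) = (M.S : ℝ) • q := M.pos_smul _
    have hpr : M.pos (base (CT T (e + 2))) = (M.S : ℝ) • r := M.pos_smul _
    have hnot : z ∉ segment ℝ q r := by
      intro hmem
      apply M.last_notMem T e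
      rw [hpz, hpq, hpr]
      obtain ⟨x, y, hx, hy, hxy, h⟩ := hmem
      refine ⟨x, y, hx, hy, hxy, ?_⟩
      rw [← h, smul_add, smul_comm x, smul_comm y]
    have hmseg : m ∈ segment ℝ q r := by
      refine ⟨2 / 5, 3 / 5, by norm_num, by norm_num, by norm_num, ?_⟩
      rw [hm, hq', hr']
    have hmz : m ≠ z := fun h => hnot (h ▸ hmseg)
    have hqz : q ≠ z := fun h => hnot (h ▸ left_mem_segment ℝ q r)
    have hrz : r ≠ z := fun h => hnot (h ▸ right_mem_segment ℝ q r)
    have hsplit := angle_split hmseg hnot hmz hqz hrz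
    rw [a3, ← hsplit]
    have h := two_opp (q := q) (r := r) (t_half K) hmz hstr
    have e1 : ∠ a z q + ∠ r z a + (∠ q z m + ∠ m z r) - 2 * Real.pi =
        ∠ a z q + ∠ q z m + (∠ m z r + ∠ r z a) - 2 * Real.pi := by ring
    rw [e1]
    exact h
  · rw [if_neg hi, a1, a2]
    have hlt : i.val < K := by
      have h1 := i.isLt
      have h2 : i.val ≠ K := fun h => hi (Fin.ext h)
      omega
    have hval : (i + 1).val = i.val + 1 := by
      rw [Fin.val_add_one, if_neg hi]
    have hne : i + 1 ≠ 0 := by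
      intro h
      have := congrArg Fin.val h
      rw [hval] at this
      simp at this
    have hpre : pre T e (i + 1) = leg T e i := by
      unfold pre
      rw [if_neg hne, add_sub_cancel_right]
    have a3 : M.P.ang (L T e (i + 1) 2) =
        ∠ (M.u (base (CT T (e + 1)))) (M.u (pre T e (i + 1))) (M.u (leg T e (i + 1))) := M.ang_u _
    have a4 : M.P.ang (R T e (i + 1) 1) =
        ∠ (M.u (leg T e (i + 1))) (M.u (pre T e (i + 1))) (M.u (base (CT T (e + 2)))) := M.ang_u _
    rw [hpre] at a3 a4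
    rw [a3, a4]
    have hstr := M.leg_straight T e i.val (by omega)
    have y1 : Y K T e i.val = pre T e i := Y_pre T e i
    have y2 : Y K T e (i.val + 1) = leg T e i := Y_leg T e i
    have y3 : Y K T e (i.val + 2) = leg T e (i + 1) := by
      have := Y_leg T e (i + 1)
      rw [hval] at this
      exact this
    rw [y1, y2, y3] at hstr
    have hb : M.u (leg T e (i + 1)) ≠ M.u (leg T e i) := by
      have h1 : M.u (pre T e (i + 1)) ≠ M.u (leg T e (i + 1)) := M.u_ne (R T e (i + 1) 1)
      rw [hpre] at h1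
      exact h1.symm
    have h := two_opp (q := M.u (base (CT T (e + 1)))) (r := M.u (base (CT T (e + 2))))
      (t_half K) hb hstr
    have e1 : ∀ x1 x2 x3 x4 : ℝ, x1 + x4 + x2 + x3 - 2 * Real.pi =
        x1 + x2 + (x3 + x4) - 2 * Real.pi := by intros; ring
    rw [e1]
    exact h

end Msh

end

end QGd
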