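import Pool.Agent.Lib_MP_6b5565_dg.F4b
import Pool.Agent.Lib_MP_6b5565_dg.A1c

/-! [DG-A3] the curvature of the centres -/

namespace QGd

open EuclideanGeometry Vx Dx

noncomputable section

private theorem pre_ctr_a3 {K : ℕ} {T T' : Fin 6} {e : Fin 3} {i : Fin (K + 1)} :
    pre T' e i = ctr T ↔ T' = T ∧ i = 0 := by
  unfold pre
  split_ifs with h
  · simp [h]
  · simp [h]

private theorem mem_ctr_a3 {K : ℕ} (T : Fin 6) (d : Dx K) :
    tl d = ctr T ↔ (∃ e : Fin 3, d = L T e 0 2) ∨ (∃ e : Fin 3, d = R T e 0 1) := by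
  constructor
  · intro h
    match d, h with
    | L T' e i 0, h => simp [tl] at h
    | L T' e i 1, h => simp [tl] at h
    | L T' e i 2, h =>
      have h' : pre T' e i = ctr T := h
      rw [pre_ctr_a3] at h'
      obtain ⟨h1, h2⟩ := h'
      subst h1 h2
      exact Or.inl ⟨e, rfl⟩
    | R T' e i 0, h => simp [tl] at h
    | R T' e i 1, h =>
      have h' : pre T' e i = ctr T := h
      rw [pre_ctr_a3] at h'
      obtain ⟨h1, h2⟩ := h'
      subst h1 h2
      exact Or.inr ⟨e, rfl⟩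
    | R T' e i 2, h => simp [tl] at h
    | E T' e 0, h => simp [tl] at h
    | E T' e 1, h => simp [tl] at h
    | E T' e 2, h => simp [tl] at h
  · rintro (⟨e, rfl⟩ | ⟨e, rfl⟩)
    · show pre T e 0 = ctr T
      rw [pre_ctr_a3]; exact ⟨rfl, rfl⟩
    · show pre T e 0 = ctr T
      rw [pre_ctr_a3]; exact ⟨rfl, rfl⟩

private theorem filter_ctr_a3 {K : ℕ} (T : Fin 6) :
    (Finset.univ.filter (fun d : Dx K => tl d = ctr T)) =
      (Finset.univ.image (fun e : Fin 3 => (L T e 0 2 : Dx K))) ∪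
      (Finset.univ.image (fun e : Fin 3 => (R T e 0 1 : Dx K))) := by
  ext d
  simp only [Finset.mem_filter, Finset.mem_univ, true_and, Finset.mem_union, Finset.mem_image,
    mem_ctr_a3]
  constructor
  · rintro (⟨e, rfl⟩ | ⟨e, rfl⟩)
    · exact Or.inl ⟨e, rfl⟩
    · exact Or.inr ⟨e, rfl⟩
  · rintro (⟨e, rfl⟩ | ⟨e, rfl⟩)
    · exact Or.inl ⟨e, rfl⟩
    · exact Or.inr ⟨e, rfl⟩

private theorem sum_ctr_a3 {K : ℕ} (g : Dx K → ℝ) (T : Fin 6) :
    ∑ d ∈ (Finset.univ.filter (fun d : Dx K => tl d = ctr T)), g d =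
      ∑ e : Fin 3, (g (L T e 0 2) + g (R T e 0 1)) := by
  rw [filter_ctr_a3, Finset.sum_union, Finset.sum_image, Finset.sum_image,
    ← Finset.sum_add_distrib]
  · intro a _ b _ h
    simpa using h
  · intro a _ b _ h
    simpa using h
  · rw [Finset.disjoint_left]
    intro d h1 h2
    simp only [Finset.mem_image, Finset.mem_univ, true_and] at h1 h2
    obtain ⟨e, rfl⟩ := h1
    obtain ⟨e', h2⟩ := h2
    cases h2

namespace Msh

variable {K : ℕ} (M : Msh K)

/-- [DG-A3a] the sum over the half-edges at the centre -/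
theorem tot_ctr (T : Fin 6) : M.P.tot (ctr T) =
    ∑ e : Fin 3, (M.P.ang (L T e 0 2) + M.P.ang (R T e 0 1)) := by
  exact sum_ctr_a3 (fun d : Dx K => M.P.ang d) T

/-- [DG-A3d] -/
theorem deg_ctr (T : Fin 6) : M.P.deg (ctr T) ≤ 6 := by
  have h0 : M.P.deg (ctr T) = (Finset.univ.filter (fun d : Dx K => tl d = ctr T)).card := rfl
  rw [h0, filter_ctr_a3]
  refine (Finset.card_union_le _ _).trans ?_
  have h1 := Finset.card_image_le (s := (Finset.univ : Finset (Fin 3)))
    (f := fun e : Fin 3 => (L T e 0 2 : Dx K))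
  have h2 := Finset.card_image_le (s := (Finset.univ : Finset (Fin 3)))
    (f := fun e : Fin 3 => (R T e 0 1 : Dx K))
  simp only [Finset.card_univ, Fintype.card_fin] at h1 h2
  omega

end Msh

end

end QGd
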