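import Pool.Agent.Lib_MP_6b5565_dg.A3

/-! [DG-A3b] the curvature of the centres -/

namespace QGd

open EuclideanGeometry Vx Dx

noncomputable section

namespace Msh

variable {K : ℕ} (M : Msh K)

private theorem cor_coord_a3b (T : Fin 6) (e j : Fin 3) : cor T e j = (BV (CT T e) j : ℝ) := by
  fin_cases j <;> rfl

/-- the normal, in integers -/
private def zn_a3b (T : Fin 6) (i j : Fin 3) : ℤ :=
  (BV (CT T 1) i - BV (CT T 0) i) * (BV (CT T 2) j - BV (CT T 0) j) -
    (BV (CT T 1) j - BV (CT T 0) j) * (BV (CT T 2) i - BV (CT T 0) i)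

private theorem zn_le_a3b (T : Fin 6) :
    zn_a3b T 1 2 ^ 2 + zn_a3b T 2 0 ^ 2 + zn_a3b T 0 1 ^ 2 ≤ 64 ^ 2 := by
  revert T; decide

private theorem zn_ne_a3b (T : Fin 6) : ∃ i j : Fin 3, zn_a3b T i j ≠ 0 := by
  revert T; decide

private theorem zn_cast_a3b (T : Fin 6) (i j : Fin 3) :
    (cor T 1 - cor T 0) i * (cor T 2 - cor T 0) j - (cor T 1 - cor T 0) j * (cor T 2 - cor T 0) i =
      (zn_a3b T i j : ℝ) := by
  simp only [PiLp.sub_apply, cor_coord_a3b, zn_a3b]
  push_cast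
  ring

/-- the normal is not too long -/
private theorem nrm_le_a3b (T : Fin 6) : ‖nrm T‖ ≤ 64 := by
  have h : ‖nrm T‖ ^ 2 ≤ 64 ^ 2 := by
    rw [EuclideanSpace.norm_sq_eq, Fin.sum_univ_three]
    simp only [Real.norm_eq_abs, sq_abs]
    have e0 : nrm T 0 = (zn_a3b T 1 2 : ℝ) := zn_cast_a3b T 1 2
    have e1 : nrm T 1 = (zn_a3b T 2 0 : ℝ) := zn_cast_a3b T 2 0
    have e2 : nrm T 2 = (zn_a3b T 0 1 : ℝ) := zn_cast_a3b T 0 1
    rw [e0, e1, e2]
    exact_mod_cast zn_le_a3b T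
  exact le_of_sq_le_sq h (by norm_num)

private theorem cor_indep_a3b (T : Fin 6) :
    AffineIndependent ℝ ![cor T 0, cor T 1, cor T 2] := by
  obtain ⟨i, j, hij⟩ := zn_ne_a3b T
  have hz : (zn_a3b T i j : ℝ) ≠ 0 := by exact_mod_cast hij
  have hli : LinearIndependent ℝ ![cor T 1 - cor T 0, cor T 2 - cor T 0] := by
    rw [LinearIndependent.pair_iff]
    intro s t h
    have hi : s * (cor T 1 - cor T 0) i + t * (cor T 2 - cor T 0) i = 0 := by
      have h1 := congrArg (fun x : E3 => x i) h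
      simpa using h1
    have hj : s * (cor T 1 - cor T 0) j + t * (cor T 2 - cor T 0) j = 0 := by
      have h1 := congrArg (fun x : E3 => x j) h
      simpa using h1
    have hc := zn_cast_a3b T i j
    have h1 : s * (zn_a3b T i j : ℝ) = 0 := by
      rw [← hc]
      linear_combination (cor T 2 - cor T 0) j * hi - (cor T 2 - cor T 0) i * hj
    have h2 : t * (zn_a3b T i j : ℝ) = 0 := by
      rw [← hc]
      linear_combination (cor T 1 - cor T 0) i * hj - (cor T 1 - cor T 0) j * hi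
    exact ⟨(mul_eq_zero.mp h1).resolve_right hz, (mul_eq_zero.mp h2).resolve_right hz⟩
  rw [affineIndependent_iff_linearIndependent_vsub ℝ _ (0 : Fin 3)]
  rw [← linearIndependent_equiv (finSuccAboveEquiv (0 : Fin 3))]
  have e : (fun x : {x : Fin 3 // x ≠ 0} =>
      (![cor T 0, cor T 1, cor T 2] x -ᵥ ![cor T 0, cor T 1, cor T 2] 0 : E3)) ∘
      (finSuccAboveEquiv (0 : Fin 3)) = ![cor T 1 - cor T 0, cor T 2 - cor T 0] := by
    funext k
    fin_cases k <;> rfl
  rw [e]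
  exact hli

/-- the centroid of a base face -/
private def cen_a3b (T : Fin 6) : E3 :=
  (1 / 3 : ℝ) • cor T 0 + (1 / 3 : ℝ) • cor T 1 + (1 / 3 : ℝ) • cor T 2

private theorem zc_a3b (T : Fin 6) (e : Fin 3) : 1 ≤
    (3 * BV (CT T e) 0 - BV (CT T 0) 0 - BV (CT T 1) 0 - BV (CT T 2) 0) ^ 2 +
    (3 * BV (CT T e) 1 - BV (CT T 0) 1 - BV (CT T 1) 1 - BV (CT T 2) 1) ^ 2 +
    (3 * BV (CT T e) 2 - BV (CT T 0) 2 - BV (CT T 1) 2 - BV (CT T 2) 2) ^ 2 := by
  revert T e; decide

private theorem cen_far_a3b (T : Fin 6) (e : Fin 3) : 1 / 3 ≤ ‖cor T e - cen_a3b T‖ := by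
  have h : (1 / 3 : ℝ) ^ 2 ≤ ‖cor T e - cen_a3b T‖ ^ 2 := by
    rw [EuclideanSpace.norm_sq_eq, Fin.sum_univ_three]
    simp only [Real.norm_eq_abs, sq_abs, cen_a3b, PiLp.sub_apply, PiLp.add_apply, PiLp.smul_apply,
      smul_eq_mul, cor_coord_a3b]
    have h1 : (1 : ℝ) ≤
        (3 * BV (CT T e) 0 - BV (CT T 0) 0 - BV (CT T 1) 0 - BV (CT T 2) 0) ^ 2 +
        (3 * BV (CT T e) 1 - BV (CT T 0) 1 - BV (CT T 1) 1 - BV (CT T 2) 1) ^ 2 +
        (3 * BV (CT T e) 2 - BV (CT T 0) 2 - BV (CT T 1) 2 - BV (CT T 2) 2) ^ 2 := by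
      exact_mod_cast zc_a3b T e
    nlinarith
  exact le_of_sq_le_sq h (norm_nonneg _)

private theorem cen_near_a3b (T : Fin 6) : ‖cen_a3b T - M.u (ctr T)‖ ≤ 65 * eps K := by
  have h1 := M.u_close (ctr T)
  have h2 : cen_a3b T - M.u (ctr T) = -(M.u (ctr T) - ideal K (ctr T)) - eps K • nrm T := by
    have e1 : ideal K (ctr T) = cen_a3b T + eps K • nrm T := by
      simp only [ideal, idl, cen_a3b, hgt, zero_add]
      norm_num
    rw [e1]
    abel
  rw [h2]
  refine le_trans (norm_sub_le _ _) ?_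
  rw [norm_neg, norm_smul]
  have h3 : 0 < eps K := by unfold eps; positivity
  rw [Real.norm_eq_abs, abs_of_pos h3]
  have h4 : del K ≤ eps K := by
    unfold del eps
    exact pow_le_pow_of_le_one (by norm_num) (by norm_num) (by omega)
  have h5 := mul_le_mul_of_nonneg_left (nrm_le_a3b T) h3.le
  linarith

private theorem small_a3b (T : Fin 6) (e : Fin 3) :
    InnerProductGeometry.angle (cor T e - M.u (ctr T)) (cor T e - cen_a3b T) ≤ 390 * eps K := by
  have h1 := cen_far_a3b T e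
  have h2 := M.cen_near_a3b T
  have h3 : 0 < eps K := by unfold eps; positivity
  have h4 : eps K ≤ 1 / 1000 := by
    unfold eps
    calc ((1 : ℝ) / 2) ^ (2 * K + 100) ≤ (1 / 2) ^ 10 :=
          pow_le_pow_of_le_one (by norm_num) (by norm_num) (by omega)
      _ ≤ 1 / 1000 := by norm_num
  have h5 : cor T e - cen_a3b T ≠ 0 := by
    intro h
    rw [h, norm_zero] at h1
    norm_num at h1
  have h6 := angle_small (a := cor T e - M.u (ctr T)) (b := cor T e - cen_a3b T) (t := 195 * eps K)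
    (by linarith) h5 (by
      have e1 : cor T e - M.u (ctr T) - (cor T e - cen_a3b T) = cen_a3b T - M.u (ctr T) := by abel
      rw [e1]
      nlinarith)
  linarith

private theorem big_a3b (T : Fin 6) (e f : Fin 3) :
    ∠ (cor T e) (cen_a3b T) (cor T f) - 780 * eps K ≤ ∠ (cor T e) (M.u (ctr T)) (cor T f) := by
  have h1 := angle_replace (cor T e - cen_a3b T) (cor T f - cen_a3b T) (cor T e - M.u (ctr T))
    (cor T f - M.u (ctr T))
  have h2 := M.small_a3b T e
  have h3 := M.small_a3b T f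
  rw [InnerProductGeometry.angle_comm] at h2
  unfold EuclideanGeometry.angle
  simp only [vsub_eq_sub]
  linarith

private theorem leg_a3b (T : Fin 6) (e : Fin 3) :
    ∠ (cor T (e + 1)) (M.u (ctr T)) (cor T (e + 2)) ≤
      M.P.ang (L T e 0 2) + M.P.ang (R T e 0 1) := by
  have e1 : M.P.ang (L T e 0 2) =
      ∠ (M.pos (base (CT T (e + 1)))) (M.pos (ctr T)) (M.pos (leg T e 0)) := rfl
  have e2 : M.P.ang (R T e 0 1) =
      ∠ (M.pos (leg T e 0)) (M.pos (ctr T)) (M.pos (base (CT T (e + 2)))) := rfl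
  rw [e1, e2]
  have e3 : ∠ (cor T (e + 1)) (M.u (ctr T)) (cor T (e + 2)) =
      ∠ (M.pos (base (CT T (e + 1)))) (M.pos (ctr T)) (M.pos (base (CT T (e + 2)))) := by
    rw [M.pos_smul (base (CT T (e + 1))), M.pos_smul (ctr T), M.pos_smul (base (CT T (e + 2))),
      angle_scale M.Spos, M.u_base, M.u_base]
    rfl
  rw [e3]
  exact EuclideanGeometry.angle_le_angle_add_angle _ _ _ _

/-- [DG-A3b] lower bound: `ang (L T e 0 2) + ang (R T e 0 1) ≥ ∠ q o r` for the leg `e`
(`L T e 0 2`: angle between `q` and `Y 1`, `R T e 0 1`: between `Y 1` and `r`), and the three angles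
`∠ p o q, ∠ q o r, ∠ r o p` have almost the sum `2π` (`angle_inner` for the projection of `o`, the
centroid of the triangle; `angle_small`). -/
theorem tot_ctr_lower (T : Fin 6) : 2 * Real.pi - eta K ≤ M.P.tot (ctr T) := by
  rw [M.tot_ctr T, Fin.sum_univ_three]
  have h0 := M.leg_a3b T 0
  have h1 := M.leg_a3b T 1
  have h2 := M.leg_a3b T 2
  have b0 := M.big_a3b T 1 2
  have b1 := M.big_a3b T 2 0
  have b2 := M.big_a3b T 0 1
  have hs := angle_inner (z := cen_a3b T) (a := cor T 0) (b := cor T 1) (c := cor T 2)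
    (α := 1 / 3) (β := 1 / 3) (γ := 1 / 3) (by norm_num) (by norm_num) (by norm_num)
    (by norm_num) rfl (cor_indep_a3b T)
  have e0 : (0 : Fin 3) + 1 = 1 := rfl
  have e1 : (0 : Fin 3) + 2 = 2 := rfl
  have e2 : (1 : Fin 3) + 1 = 2 := rfl
  have e3 : (1 : Fin 3) + 2 = 0 := rfl
  have e4 : (2 : Fin 3) + 1 = 0 := rfl
  have e5 : (2 : Fin 3) + 2 = 1 := rfl
  rw [e0, e1] at h0
  rw [e2, e3] at h1
  rw [e4, e5] at h2
  have h3 : 2340 * eps K ≤ eta K := by
    have h4 : eta K = 2 ^ 40 * eps K := by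
      unfold eta eps
      rw [show 2 * K + 100 = (2 * K + 60) + 40 by ring, pow_add ((1 : ℝ) / 2) (2 * K + 60) 40]
      norm_num
      ring
    have h5 : 0 < eps K := by unfold eps; positivity
    rw [h4]
    nlinarith
  linarith

end Msh

end

end QGd
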