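import Pool.Agent.Lib_MP_6b5565_dg.A3b

/-! [DG-A3c] the curvature of the centres -/

namespace QGd

open EuclideanGeometry Vx Dx

noncomputable section

private theorem crs_norm_a3c (a b : E3) : ‖crs a b‖ ≤ ‖a‖ * ‖b‖ := by
  have h0 : 0 ≤ ‖a‖ * ‖b‖ := mul_nonneg (norm_nonneg _) (norm_nonneg _)
  refine abs_le_of_sq_le_sq' ?_ h0 |>.2
  rw [mul_pow, EuclideanSpace.norm_sq_eq, EuclideanSpace.norm_sq_eq, EuclideanSpace.norm_sq_eq]
  simp only [Fin.sum_univ_three, Real.norm_eq_abs, sq_abs, crs]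
  simp only [PiLp.toLp_apply, Matrix.cons_val_zero, Matrix.cons_val_one, Matrix.cons_val]
  nlinarith [sq_nonneg (a 0 * b 0 + a 1 * b 1 + a 2 * b 2)]

private theorem nrm_le_a3c (T : Fin 6) : ‖nrm T‖ ≤ 39 := by
  have h := (nrm_sq T).2
  nlinarith [norm_nonneg (nrm T)]

private theorem nrm_ge_a3c (T : Fin 6) : 1 ≤ ‖nrm T‖ := by
  have h := (nrm_sq T).1
  nlinarith [norm_nonneg (nrm T)]

/-- the centroid of a base face -/
private def cen_a3c (T : Fin 6) (e : Fin 3) : E3 :=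
  (1 / 3 : ℝ) • cor T e + (1 / 3 : ℝ) • cor T (e + 1) + (1 / 3 : ℝ) • cor T (e + 2)

private theorem ctr_a3c (K : ℕ) (T : Fin 6) (e : Fin 3) :
    ideal K (ctr T) = cen_a3c T e + eps K • nrm T := by
  have e1 : ideal K (ctr T) = (1 / 3 : ℝ) • cor T 0 + (1 / 3 : ℝ) • cor T 1 +
      (1 / 3 : ℝ) • cor T 2 + eps K • nrm T := by
    simp only [ideal, idl, hgt, zero_add]
    norm_num
  rw [e1, cen_a3c]
  fin_cases e
  · rfl
  · show _ = (1 / 3 : ℝ) • cor T 1 + (1 / 3 : ℝ) • cor T 2 + (1 / 3 : ℝ) • cor T 0 + eps K • nrm T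
    abel
  · show _ = (1 / 3 : ℝ) • cor T 2 + (1 / 3 : ℝ) • cor T 0 + (1 / 3 : ℝ) • cor T 1 + eps K • nrm T
    abel

private theorem crs_seg_a3c (p q r : E3) (t : ℝ) :
    crs ((1 / 3 : ℝ) • p + (1 / 3 : ℝ) • q + (1 / 3 : ℝ) • r - ((1 - t) • q + t • r)) (r - q) =
      (-1 / 3 : ℝ) • crs (q - p) (r - p) := by
  ext j
  fin_cases j <;> simp [crs] <;> ring

/-- the centroid is far from the sides -/
private theorem far_cen_a3c (T : Fin 6) (e : Fin 3) {x : E3}
    (hx : x ∈ segment ℝ (cor T (e + 1)) (cor T (e + 2))) : 1 / 30 ≤ ‖cen_a3c T e - x‖ := by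
  rw [segment_eq_image] at hx
  obtain ⟨t, -, rfl⟩ := hx
  have h1 := crs_norm_a3c (cen_a3c T e - ((1 - t) • cor T (e + 1) + t • cor T (e + 2)))
    (cor T (e + 2) - cor T (e + 1))
  have h2 := crs_seg_a3c (cor T e) (cor T (e + 1)) (cor T (e + 2)) t
  rw [← nrm_eq] at h2
  rw [cen_a3c] at h1
  rw [h2, norm_smul] at h1
  have h3 := (side_le T (e + 2) (e + 1)).1
  have h4 := nrm_ge_a3c T
  have h5 : ‖(-1 / 3 : ℝ)‖ = 1 / 3 := by
    rw [Real.norm_eq_abs]
    norm_num
  rw [h5] at h1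
  rw [cen_a3c]
  have h6 := norm_nonneg ((1 / 3 : ℝ) • cor T e + (1 / 3 : ℝ) • cor T (e + 1) +
    (1 / 3 : ℝ) • cor T (e + 2) - ((1 - t) • cor T (e + 1) + t • cor T (e + 2)))
  nlinarith

private theorem eps_a3c (K : ℕ) : 0 < eps K ∧ eps K ≤ 1 / 10 ^ 6 := by
  unfold eps
  refine ⟨by positivity, ?_⟩
  calc ((1 : ℝ) / 2) ^ (2 * K + 100) ≤ (1 / 2) ^ 100 :=
        pow_le_pow_of_le_one (by norm_num) (by norm_num) (by omega)
    _ ≤ 1 / 10 ^ 6 := by norm_num

private theorem del_a3c (K : ℕ) : del K ≤ eps K / (1000 * ((K : ℝ) + 2)) ∧ 0 < del K := by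
  have h1 : K + 2 ≤ 2 ^ (K + 1) := Nat.lt_two_pow_self
  have h2 : ((K : ℝ) + 2) ≤ 2 ^ (K + 1) := by exact_mod_cast h1
  have hK : (0 : ℝ) < (K : ℝ) + 2 := by positivity
  refine ⟨?_, by unfold del; positivity⟩
  rw [le_div_iff₀ (by positivity)]
  have h3 : del K ≤ eps K * ((1 / 2) ^ (K + 1) * (1 / 2) ^ 10) := by
    unfold del eps
    rw [← pow_add, ← pow_add]
    exact pow_le_pow_of_le_one (by norm_num) (by norm_num) (by omega)
  have h4 : (0 : ℝ) < eps K := (eps_a3c K).1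
  have h5 : ((1 : ℝ) / 2) ^ (K + 1) * 2 ^ (K + 1) = 1 := by
    rw [← mul_pow]
    norm_num
  have h6 : ((1 : ℝ) / 2) ^ 10 ≤ 1 / 1000 := by norm_num
  have ha : (0 : ℝ) < (1 / 2) ^ (K + 1) := by positivity
  have hb : (0 : ℝ) < 2 ^ (K + 1) := by positivity
  have hc : (0 : ℝ) < (1 / 2) ^ 10 := by positivity
  generalize ((1 : ℝ) / 2) ^ (K + 1) = a at *
  generalize (2 : ℝ) ^ (K + 1) = b at *
  generalize ((1 : ℝ) / 2) ^ 10 = c at *
  have h7 : del K * (1000 * ((K : ℝ) + 2)) ≤ eps K * (a * c) * (1000 * b) :=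
    mul_le_mul h3 (by linarith) (by positivity) (by positivity)
  have h8 : eps K * (a * c) * (1000 * b) = eps K * (a * b) * (1000 * c) := by ring
  rw [h8, h5, mul_one] at h7
  refine h7.trans ?_
  have h9 : eps K * (1000 * c) ≤ eps K * 1 := mul_le_mul_of_nonneg_left (by linarith) h4.le
  linarith

namespace Msh

variable {K : ℕ} (M : Msh K)

private theorem near_a3c (T : Fin 6) (e : Fin 3) : ‖cen_a3c T e - M.u (ctr T)‖ ≤ 40 * eps K := by
  have h1 := M.u_close (ctr T)
  have h2 : cen_a3c T e - M.u (ctr T) = -(M.u (ctr T) - ideal K (ctr T)) - eps K • nrm T := by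
    rw [ctr_a3c K T e]
    abel
  rw [h2]
  refine le_trans (norm_sub_le _ _) ?_
  rw [norm_neg, norm_smul]
  have h3 := (eps_a3c K).1
  rw [Real.norm_eq_abs, abs_of_pos h3]
  have h4 : del K ≤ eps K := by
    unfold del eps
    exact pow_le_pow_of_le_one (by norm_num) (by norm_num) (by omega)
  have h5 := mul_le_mul_of_nonneg_left (nrm_le_a3c T) h3.le
  linarith

/-- the centre is far from the sides -/
private theorem far_a3c (T : Fin 6) (e : Fin 3) {x : E3}
    (hx : x ∈ segment ℝ (cor T (e + 1)) (cor T (e + 2))) : 1 / 40 ≤ ‖x - M.u (ctr T)‖ := by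
  have h1 := far_cen_a3c T e hx
  have h2 := M.near_a3c T e
  have h3 := (eps_a3c K).2
  have h4 : ‖cen_a3c T e - x‖ ≤ ‖cen_a3c T e - M.u (ctr T)‖ + ‖x - M.u (ctr T)‖ := by
    have h5 : cen_a3c T e - x = (cen_a3c T e - M.u (ctr T)) - (x - M.u (ctr T)) := by abel
    rw [h5]
    exact norm_sub_le _ _
  norm_num at h3
  linarith

/-- the point of the side in the direction of the leg -/
private def mp_a3c (T : Fin 6) (e : Fin 3) : E3 :=
  (2 / 5 : ℝ) • cor T (e + 1) + (3 / 5 : ℝ) • cor T (e + 2)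

private theorem mp_mem_a3c (T : Fin 6) (e : Fin 3) :
    mp_a3c T e ∈ segment ℝ (cor T (e + 1)) (cor T (e + 2)) :=
  ⟨2 / 5, 3 / 5, by norm_num, by norm_num, by norm_num, rfl⟩

/-- the first vertex of the leg is almost in the direction of `mp` -/
private theorem dir_a3c (T : Fin 6) (e : Fin 3) :
    InnerProductGeometry.angle (M.u (leg T e 0) - M.u (ctr T)) (mp_a3c T e - M.u (ctr T)) ≤
      2 * eps K := by
  obtain ⟨he0, he1⟩ := eps_a3c K
  obtain ⟨hd1, hd0⟩ := del_a3c K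
  have hK : (0 : ℝ) < (K : ℝ) + 2 := by positivity
  obtain ⟨s, hs⟩ : ∃ s, s = 1 / ((K : ℝ) + 2) := ⟨_, rfl⟩
  have hs0 : 0 < s := by rw [hs]; positivity
  have hs1 : s ≤ 1 := by
    rw [hs, div_le_one hK]
    have : (0 : ℝ) ≤ K := by positivity
    linarith
  have hd2 : del K ≤ eps K * s / 1000 := by
    refine hd1.trans (le_of_eq ?_)
    rw [hs]
    field_simp
  have hidl : ideal K (leg T e 0) = idl K T e s := by
    have h1 : sj K (((0 : Fin (K + 1)) : ℕ) + 1) = s := by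
      rw [hs, sj]
      norm_num
    show idl K T e (sj K (((0 : Fin (K + 1)) : ℕ) + 1)) = _
    rw [h1]
  have hfar := M.far_a3c T e (mp_mem_a3c T e)
  have hmne : mp_a3c T e - M.u (ctr T) ≠ 0 := by
    intro h0
    rw [h0, norm_zero] at hfar
    norm_num at hfar
  have hb : s • (mp_a3c T e - M.u (ctr T)) ≠ 0 := smul_ne_zero hs0.ne' hmne
  have key := angle_small (a := M.u (leg T e 0) - M.u (ctr T))
    (b := s • (mp_a3c T e - M.u (ctr T))) (t := eps K) (by norm_num at he1; linarith) hb (by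
      have e1 : M.u (leg T e 0) - M.u (ctr T) - s • (mp_a3c T e - M.u (ctr T)) =
          (M.u (leg T e 0) - ideal K (leg T e 0)) - (1 - s) • (M.u (ctr T) - ideal K (ctr T)) +
            (eps K ^ 2 * (s * (1 - s))) • nrm T := by
        rw [hidl, ctr_a3c K T e, idl, mp_a3c, cen_a3c, hgt]
        module
      rw [e1, norm_smul, Real.norm_eq_abs, abs_of_pos hs0]
      refine (norm_add_le _ _).trans ?_
      have n1 : ‖(M.u (leg T e 0) - ideal K (leg T e 0)) -
          (1 - s) • (M.u (ctr T) - ideal K (ctr T))‖ ≤ 2 * del K := by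
        refine (norm_sub_le _ _).trans ?_
        rw [norm_smul, Real.norm_eq_abs, abs_of_nonneg (by linarith : 0 ≤ 1 - s)]
        have k1 := M.u_close (leg T e 0)
        have k2 := M.u_close (ctr T)
        have k3 := mul_le_mul (by linarith : 1 - s ≤ 1) k2 (norm_nonneg _) zero_le_one
        linarith
      have n2 : ‖(eps K ^ 2 * (s * (1 - s))) • nrm T‖ ≤ eps K * s / 1000 := by
        have h5 : 0 ≤ eps K ^ 2 * (s * (1 - s)) :=
          mul_nonneg (sq_nonneg _) (mul_nonneg hs0.le (by linarith))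
        rw [norm_smul, Real.norm_eq_abs, abs_of_nonneg h5]
        have h6 := nrm_le_a3c T
        have h7 : eps K ^ 2 * (s * (1 - s)) ≤ eps K * s * (1 / 10 ^ 6) := by
          have h8 : eps K ^ 2 * (s * (1 - s)) = eps K * s * (eps K * (1 - s)) := by ring
          rw [h8]
          apply mul_le_mul_of_nonneg_left _ (mul_nonneg he0.le hs0.le)
          nlinarith
        have h9 := mul_le_mul h7 h6 (norm_nonneg _) (by positivity)
        have h10 : 0 ≤ eps K * s := mul_nonneg he0.le hs0.le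
        norm_num at h9
        linarith
      have n3 : eps K * (s * (1 / 40)) ≤ eps K * (s * ‖mp_a3c T e - M.u (ctr T)‖) := by
        gcongr
      have h10 : 0 ≤ eps K * s := mul_nonneg he0.le hs0.le
      linarith)
  rwa [InnerProductGeometry.angle_smul_right_of_pos _ _ hs0] at key

private theorem leg_a3c (T : Fin 6) (e : Fin 3) :
    M.P.ang (L T e 0 2) + M.P.ang (R T e 0 1) ≤
      ∠ (cor T (e + 1)) (M.u (ctr T)) (cor T (e + 2)) + 4 * eps K := by
  have e1 : M.P.ang (L T e 0 2) =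
      ∠ (M.pos (base (CT T (e + 1)))) (M.pos (ctr T)) (M.pos (leg T e 0)) := rfl
  have e2 : M.P.ang (R T e 0 1) =
      ∠ (M.pos (leg T e 0)) (M.pos (ctr T)) (M.pos (base (CT T (e + 2)))) := rfl
  rw [e1, e2, M.pos_smul (base (CT T (e + 1))), M.pos_smul (ctr T), M.pos_smul (leg T e 0),
    M.pos_smul (base (CT T (e + 2))), angle_scale M.Spos, angle_scale M.Spos, M.u_base, M.u_base]
  have hne : ∀ x ∈ segment ℝ (cor T (e + 1)) (cor T (e + 2)), x ≠ M.u (ctr T) := by
    intro x hx h0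
    have := M.far_a3c T e hx
    rw [h0, sub_self, norm_zero] at this
    norm_num at this
  have h1 := angle_split (mp_mem_a3c T e) (fun h0 => hne _ h0 rfl) (hne _ (mp_mem_a3c T e))
    (hne _ (left_mem_segment ℝ _ _)) (hne _ (right_mem_segment ℝ _ _))
  have h2 := M.dir_a3c T e
  have h3 := InnerProductGeometry.angle_le_angle_add_angle (cor T (e + 1) - M.u (ctr T))
    (mp_a3c T e - M.u (ctr T)) (M.u (leg T e 0) - M.u (ctr T))
  have h4 := InnerProductGeometry.angle_le_angle_add_angle (M.u (leg T e 0) - M.u (ctr T))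
    (mp_a3c T e - M.u (ctr T)) (cor T (e + 2) - M.u (ctr T))
  rw [InnerProductGeometry.angle_comm (mp_a3c T e - M.u (ctr T)) (M.u (leg T e 0) - M.u (ctr T))]
    at h3
  unfold EuclideanGeometry.angle at h1 ⊢
  simp only [vsub_eq_sub] at h1 ⊢
  have e3 : bpt (CT T (e + 1)) = cor T (e + 1) := rfl
  have e4 : bpt (CT T (e + 2)) = cor T (e + 2) := rfl
  rw [e3, e4]
  linarith

private theorem sum3_a3c (a b c : E3) : InnerProductGeometry.angle a b +
    InnerProductGeometry.angle b c + InnerProductGeometry.angle c a ≤ 2 * Real.pi := by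
  have h1 := InnerProductGeometry.angle_le_angle_add_angle b (-a) c
  have h2 : InnerProductGeometry.angle b (-a) = Real.pi - InnerProductGeometry.angle b a :=
    InnerProductGeometry.angle_neg_right b a
  have h3 : InnerProductGeometry.angle (-a) c = Real.pi - InnerProductGeometry.angle a c :=
    InnerProductGeometry.angle_neg_left a c
  rw [h2, h3, InnerProductGeometry.angle_comm b a, InnerProductGeometry.angle_comm a c] at h1
  linarith

/-- [DG-A3c] upper bound: the direction of `Y 1` from `o` is almost the direction of the point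
`m = (2 q + 3 r) / 5`, which splits `∠ q o r` (`angle_split`), and
`∠ p o q + ∠ q o r + ∠ r o p ≤ 2π`. -/
theorem tot_ctr_upper (T : Fin 6) : M.P.tot (ctr T) ≤ 2 * Real.pi + eta K := by
  rw [M.tot_ctr T, Fin.sum_univ_three]
  have h0 := M.leg_a3c T 0
  have h1 := M.leg_a3c T 1
  have h2 := M.leg_a3c T 2
  have hs := sum3_a3c (cor T 1 - M.u (ctr T)) (cor T 2 - M.u (ctr T)) (cor T 0 - M.u (ctr T))
  unfold EuclideanGeometry.angle at h0 h1 h2
  simp only [vsub_eq_sub] at h0 h1 h2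
  have e0 : (0 : Fin 3) + 1 = 1 := rfl
  have e1 : (0 : Fin 3) + 2 = 2 := rfl
  have e2 : (1 : Fin 3) + 1 = 2 := rfl
  have e3 : (1 : Fin 3) + 2 = 0 := rfl
  have e4 : (2 : Fin 3) + 1 = 0 := rfl
  have e5 : (2 : Fin 3) + 2 = 1 := rfl
  rw [e0, e1] at h0
  rw [e2, e3] at h1
  rw [e4, e5] at h2
  have h3 : 12 * eps K ≤ eta K := by
    have h4 : eta K = 2 ^ 40 * eps K := by
      unfold eta eps
      rw [show 2 * K + 100 = (2 * K + 60) + 40 by ring, pow_add ((1 : ℝ) / 2) (2 * K + 60) 40]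
      norm_num
      ring
    have h5 := (eps_a3c K).1
    rw [h4]
    nlinarith
  linarith

end Msh

end

end QGd
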