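import Pool.Agent.Lib_MP_6b5565_dg.Geo

/-! angles of the base polyhedron -/

namespace QGd

open EuclideanGeometry Vx Dx

noncomputable section

/-- angle of the base face `T` at the corner `e` -/
def bang (T : Fin 6) (e : Fin 3) : ℝ := ∠ (cor T (e + 1)) (cor T e) (cor T (e + 2))

end

end QGd
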