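import Pool.Agent.Lib_MP_6b5565_dg.F4b
import Pool.Agent.Lib_MP_6b5565_dg.A1c
import Pool.Agent.Lib_MP_6b5565_dg.Bang

/-! [DG-A4] the sectors at the base vertices -/

namespace QGd

open EuclideanGeometry Vx Dx

noncomputable section

namespace Msh

variable {K : ℕ} (M : Msh K)

/-- total angle of the sector at the corner `(T, e)` : the half-edges at `base (CT T e)` in the base
face `T` -/
def sec (T : Fin 6) (e : Fin 3) : ℝ :=
  M.P.ang (E T (e + 2) 0) + ∑ i : Fin (K + 1), M.P.ang (L T (e + 2) i 0) +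
    ∑ i : Fin (K + 1), M.P.ang (R T (e + 1) i 0) + M.P.ang (E T (e + 1) 1)

/-- [DG-A4a] the vertices of the fan of the corner `(T, e)`, from `q` to `r`: `q`, the leg `e+2` from
outside to the centre, the leg `e+1` from the centre to outside, `r` -/
def fanv (K : ℕ) (T : Fin 6) (e : Fin 3) (j : ℕ) : Vx K :=
  if j = 0 then base (CT T (e + 1))
  else if j ≤ K + 1 then Y K T (e + 2) (K + 2 - j)
  else if j ≤ 2 * K + 3 then Y K T (e + 1) (j - (K + 2))
  else base (CT T (e + 2))

private theorem leg_eq (T : Fin 6) (e : Fin 3) (i : Fin (K + 1)) :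
    leg T e i = Y K T e (i + 1) := by
  show leg T e i = leg T e (Fin.ofNat (K + 1) (i : ℕ))
  congr 1
  ext
  simp [Fin.ofNat, Nat.mod_eq_of_lt i.2]

private theorem pre_eq (T : Fin 6) (e : Fin 3) (i : Fin (K + 1)) :
    pre T e i = Y K T e i := by
  obtain ⟨i, hi⟩ := i
  cases i with
  | zero => simp [pre, Y]
  | succ n =>
    have h0 : (⟨n + 1, hi⟩ : Fin (K + 1)) ≠ 0 := by
      intro h
      have := congrArg Fin.val h
      simp at this
    rw [pre, if_neg h0]
    show leg T e _ = leg T e (Fin.ofNat (K + 1) n)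
    congr 1
    have h1 : (⟨n + 1, hi⟩ : Fin (K + 1)) = Fin.ofNat (K + 1) n + 1 := by
      ext
      rw [Fin.val_add]
      have h2 : n % (K + 1) = n := Nat.mod_eq_of_lt (by omega)
      rcases Nat.eq_zero_or_pos K with hK | hK
      · omega
      · have h3 : (1 : Fin (K + 1)).val = 1 := by
          rw [Fin.val_one']
          exact Nat.mod_eq_of_lt (by omega)
        simp only [Fin.ofNat, h3, h2]
        exact (Nat.mod_eq_of_lt hi).symm
    rw [h1, add_sub_cancel_right]

private theorem fin3_a (e : Fin 3) : e + 2 + 1 = e := by revert e; decide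
private theorem fin3_b (e : Fin 3) : e + 2 + 2 = e + 1 := by revert e; decide
private theorem fin3_c (e : Fin 3) : e + 1 + 2 = e := by revert e; decide
private theorem fin3_d (e : Fin 3) : e + 1 + 1 = e + 2 := by revert e; decide

private theorem ang_def' (d : Dx K) :
    M.P.ang d = ∠ (M.pos (tl (nx d))) (M.pos (tl d)) (M.pos (tl (nx (nx d)))) := rfl

private theorem fanv_zero (T : Fin 6) (e : Fin 3) : fanv K T e 0 = base (CT T (e + 1)) := by
  simp [fanv]

private theorem fanv_low (T : Fin 6) (e : Fin 3) (j : ℕ) (h1 : 1 ≤ j) (h2 : j ≤ K + 2) :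
    fanv K T e j = Y K T (e + 2) (K + 2 - j) := by
  unfold fanv
  rw [if_neg (by omega)]
  rcases Nat.lt_or_ge (K + 1) j with h | h
  · have h3 : j = K + 2 := by omega
    subst h3
    rw [if_neg (by omega), if_pos (by omega)]
    simp [Y]
  · rw [if_pos h]

private theorem fanv_high (T : Fin 6) (e : Fin 3) (i : ℕ) (h2 : i ≤ K + 1) :
    fanv K T e (K + 2 + i) = Y K T (e + 1) i := by
  unfold fanv
  rw [if_neg (by omega), if_neg (by omega), if_pos (by omega)]
  congr 1
  omega

private theorem fanv_last (T : Fin 6) (e : Fin 3) :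
    fanv K T e (2 * K + 4) = base (CT T (e + 2)) := by
  unfold fanv
  rw [if_neg (by omega), if_neg (by omega), if_neg (by omega)]

/-- [DG-A4b] the sector as a chain of `2K+4` angles -/
theorem sec_eq (T : Fin 6) (e : Fin 3) : M.sec T e = ∑ j ∈ Finset.range (2 * K + 4),
    ∠ (M.pos (fanv K T e j)) (M.pos (base (CT T e))) (M.pos (fanv K T e (j + 1))) := by
  set g : ℕ → ℝ := fun j =>
    ∠ (M.pos (fanv K T e j)) (M.pos (base (CT T e))) (M.pos (fanv K T e (j + 1))) with hg
  have hsplit : ∑ j ∈ Finset.range (2 * K + 4), g j =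
      (∑ i ∈ Finset.range (K + 1), g (i + 1) + g 0) +
        ∑ i ∈ Finset.range (K + 1), g (K + 2 + i) + g (2 * K + 3) := by
    have h1 : 2 * K + 4 = 2 * K + 3 + 1 := by ring
    rw [h1, Finset.sum_range_succ]
    have h2 : 2 * K + 3 = (K + 2) + (K + 1) := by ring
    rw [h2, Finset.sum_range_add]
    have h3 : K + 2 = K + 1 + 1 := by ring
    rw [h3, Finset.sum_range_succ']
  rw [hsplit]
  have e0 : M.P.ang (E T (e + 2) 0) = g 0 := by
    rw [ang_def', hg]
    simp only [fanv_zero]
    rw [fanv_low T e (0 + 1) (by omega) (by omega)]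
    show ∠ (M.pos (base (CT T (e + 2 + 2)))) (M.pos (base (CT T (e + 2 + 1))))
      (M.pos (leg T (e + 2) (Fin.last K))) = _
    rw [fin3_a, fin3_b, leg_eq]
    rfl
  have e3 : M.P.ang (E T (e + 1) 1) = g (2 * K + 3) := by
    rw [ang_def', hg]
    have h1 : 2 * K + 3 = K + 2 + (K + 1) := by ring
    have h2 : 2 * K + 3 + 1 = 2 * K + 4 := by ring
    simp only []
    rw [h2, fanv_last, h1, fanv_high T e (K + 1) le_rfl]
    show ∠ (M.pos (leg T (e + 1) (Fin.last K))) (M.pos (base (CT T (e + 1 + 2))))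
      (M.pos (base (CT T (e + 1 + 1)))) = _
    rw [fin3_c, fin3_d, leg_eq]
    rfl
  have e1 : ∑ i : Fin (K + 1), M.P.ang (L T (e + 2) i 0) =
      ∑ i ∈ Finset.range (K + 1), g (i + 1) := by
    rw [← Finset.sum_range_reflect (fun i => g (i + 1)) (K + 1), Finset.sum_range]
    refine Finset.sum_congr rfl fun i _ => ?_
    rw [ang_def', hg]
    have hi := i.2
    simp only []
    rw [fanv_low T e (K + 1 - 1 - (i : ℕ) + 1) (by omega) (by omega),
      fanv_low T e (K + 1 - 1 - (i : ℕ) + 1 + 1) (by omega) (by omega)]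
    show ∠ (M.pos (leg T (e + 2) i)) (M.pos (base (CT T (e + 2 + 1))))
      (M.pos (pre T (e + 2) i)) = _
    rw [fin3_a, leg_eq, pre_eq]
    have h1 : K + 2 - (K + 1 - 1 - (i : ℕ) + 1) = i + 1 := by omega
    have h2 : K + 2 - (K + 1 - 1 - (i : ℕ) + 1 + 1) = i := by omega
    rw [h1, h2]
  have e2 : ∑ i : Fin (K + 1), M.P.ang (R T (e + 1) i 0) =
      ∑ i ∈ Finset.range (K + 1), g (K + 2 + i) := by
    rw [Finset.sum_range]
    refine Finset.sum_congr rfl fun i _ => ?_
    rw [ang_def', hg]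
    have hi := i.2
    simp only []
    rw [fanv_high T e i (by omega), add_assoc (K + 2) (i : ℕ) 1,
      fanv_high T e ((i : ℕ) + 1) (by omega)]
    show ∠ (M.pos (pre T (e + 1) i)) (M.pos (base (CT T (e + 1 + 2))))
      (M.pos (leg T (e + 1) i)) = _
    rw [fin3_c, leg_eq, pre_eq]
  rw [sec, e0, e1, e2, e3]
  ring

private theorem angle_chain (p : E3) (x : ℕ → E3) (n : ℕ) :
    ∠ (x 0) p (x (n + 1)) ≤ ∑ j ∈ Finset.range (n + 1), ∠ (x j) p (x (j + 1)) := by
  induction n with
  | zero => simp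
  | succ n ih =>
    rw [Finset.sum_range_succ]
    have h := EuclideanGeometry.angle_le_angle_add_angle p (x 0) (x (n + 1)) (x (n + 1 + 1))
    linarith

/-- [DG-A4c] lower bound (triangle inequality for angles) -/
theorem sec_lower (T : Fin 6) (e : Fin 3) : bang T e ≤ M.sec T e := by
  rw [sec_eq]
  have h := angle_chain (M.pos (base (CT T e))) (fun j => M.pos (fanv K T e j)) (2 * K + 3)
  have h1 : 2 * K + 3 + 1 = 2 * K + 4 := by ring
  rw [h1] at h
  change ∠ (M.pos (fanv K T e 0)) (M.pos (base (CT T e))) (M.pos (fanv K T e (2 * K + 4))) ≤ _ at h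
  rw [fanv_zero, fanv_last] at h
  refine le_trans (le_of_eq ?_) h
  rw [M.pos_smul, M.pos_smul, M.pos_smul, M.u_base, M.u_base, M.u_base, angle_scale M.Spos]
  rfl

end Msh

end

end QGd
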