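import Pool.Agent.Lib_MP_6b5565_dg.A4

/-! [DG-A4b] the sectors at the base vertices -/

namespace QGd

open EuclideanGeometry Vx Dx

noncomputable section

namespace Msh

variable {K : ℕ} (M : Msh K)

private theorem a4b_crs_norm_sq_le (a b : E3) : ‖crs a b‖ ^ 2 ≤ ‖a‖ ^ 2 * ‖b‖ ^ 2 := by
  have h : ∀ x : E3, ‖x‖ ^ 2 = x 0 ^ 2 + x 1 ^ 2 + x 2 ^ 2 := by
    intro x
    rw [EuclideanSpace.norm_sq_eq, Fin.sum_univ_three]
    simp only [Real.norm_eq_abs, sq_abs]
  rw [h a, h b, h (crs a b)]
  have e0 : crs a b 0 = a 1 * b 2 - a 2 * b 1 := rfl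
  have e1 : crs a b 1 = a 2 * b 0 - a 0 * b 2 := rfl
  have e2 : crs a b 2 = a 0 * b 1 - a 1 * b 0 := rfl
  rw [e0, e1, e2]
  nlinarith [sq_nonneg (a 0 * b 0 + a 1 * b 1 + a 2 * b 2)]

private theorem a4b_crs_line (p q r : E3) (t : ℝ) :
    crs (AffineMap.lineMap q r t - p) (r - q) = crs (q - p) (r - p) := by
  have e0 : ∀ a b : E3, crs a b 0 = a 1 * b 2 - a 2 * b 1 := fun _ _ => rfl
  have e1 : ∀ a b : E3, crs a b 1 = a 2 * b 0 - a 0 * b 2 := fun _ _ => rfl
  have e2 : ∀ a b : E3, crs a b 2 = a 0 * b 1 - a 1 * b 0 := fun _ _ => rfl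
  have hl : ∀ i, (AffineMap.lineMap q r t - p : E3) i = t * (r i - q i) + q i - p i := by
    intro i
    simp [AffineMap.lineMap_apply]
  ext i
  fin_cases i
  · show crs (AffineMap.lineMap q r t - p) (r - q) 0 = crs (q - p) (r - p) 0
    rw [e0, e0, hl, hl]
    simp only [PiLp.sub_apply]
    ring
  · show crs (AffineMap.lineMap q r t - p) (r - q) 1 = crs (q - p) (r - p) 1
    rw [e1, e1, hl, hl]
    simp only [PiLp.sub_apply]
    ring
  · show crs (AffineMap.lineMap q r t - p) (r - q) 2 = crs (q - p) (r - p) 2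
    rw [e2, e2, hl, hl]
    simp only [PiLp.sub_apply]
    ring

private theorem a4b_line_far (T : Fin 6) (e : Fin 3) (t : ℝ) :
    1 / 10 ≤ ‖(AffineMap.lineMap (cor T (e + 1)) (cor T (e + 2)) t - cor T e : E3)‖ := by
  set w : E3 := AffineMap.lineMap (cor T (e + 1)) (cor T (e + 2)) t - cor T e with hw
  have h1 := a4b_crs_norm_sq_le w (cor T (e + 2) - cor T (e + 1))
  rw [hw, a4b_crs_line, ← nrm_eq, ← hw] at h1
  have h2 := (nrm_sq T).1
  have h3 := (side_le T (e + 2) (e + 1)).1
  have h4 : ‖cor T (e + 2) - cor T (e + 1)‖ ^ 2 ≤ 100 := by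
    nlinarith [norm_nonneg (cor T (e + 2) - cor T (e + 1))]
  have h5 : 1 ≤ ‖w‖ ^ 2 * 100 := by
    nlinarith [sq_nonneg ‖w‖]
  nlinarith [norm_nonneg w]

private theorem a4b_dir (T : Fin 6) (e : Fin 3) {u : E3} {α β γ h t : ℝ} (h1 : α + β + γ = 1)
    (h2 : 1 / 3 ≤ β + γ) (h3 : (β + γ) * t = γ) (hh : |h| ≤ 2 * eps K)
    (hu : ‖u - fp T e α β γ h‖ ≤ del K) :
    InnerProductGeometry.angle (u - cor T e)
      (AffineMap.lineMap (cor T (e + 1)) (cor T (e + 2)) t - cor T e) ≤
        (1 / 2) ^ (2 * K + 70) := by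
  set w : E3 := AffineMap.lineMap (cor T (e + 1)) (cor T (e + 2)) t - cor T e with hw
  have hw1 : 1 / 10 ≤ ‖w‖ := a4b_line_far T e t
  have hpos : 0 < β + γ := by linarith
  have hfp : fp T e α β γ h - cor T e = (β + γ) • w + h • nrm T := by
    have hα : α = 1 - (β + γ) := by linarith
    have hβ : β = (β + γ) * (1 - t) := by linarith
    rw [hw]
    have : (AffineMap.lineMap (cor T (e + 1)) (cor T (e + 2)) t : E3) =
        (1 - t) • cor T (e + 1) + t • cor T (e + 2) := by
      rw [AffineMap.lineMap_apply_module]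
    rw [this, smul_sub, smul_add, smul_smul, smul_smul, h3, ← hβ, fp, hα]
    module
  have hε : 0 < eps K := by unfold eps; positivity
  have hδ : del K ≤ eps K := by
    unfold del eps
    exact pow_le_pow_of_le_one (by norm_num) (by norm_num) (by omega)
  have hn : ‖nrm T‖ ≤ 39 := by
    have := (nrm_sq T).2
    nlinarith [norm_nonneg (nrm T)]
  have hdiff : ‖(u - cor T e) - (β + γ) • w‖ ≤ 79 * eps K := by
    have e1 : (u - cor T e) - (β + γ) • w = (u - fp T e α β γ h) + h • nrm T := by
      have : u - cor T e = (u - fp T e α β γ h) + (fp T e α β γ h - cor T e) := by abel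
      rw [this, hfp]
      abel
    rw [e1]
    refine (norm_add_le _ _).trans ?_
    rw [norm_smul, Real.norm_eq_abs]
    have : |h| * ‖nrm T‖ ≤ 2 * eps K * 39 :=
      mul_le_mul hh hn (norm_nonneg _) (by linarith)
    linarith
  have hb : 1 / 30 ≤ ‖(β + γ) • w‖ := by
    rw [norm_smul, Real.norm_eq_abs, abs_of_pos hpos]
    nlinarith
  have hb0 : (β + γ) • w ≠ 0 := by
    intro h0
    rw [h0, norm_zero] at hb
    norm_num at hb
  have hεs : eps K ≤ (1 / 2) ^ 100 := by
    unfold eps
    exact pow_le_pow_of_le_one (by norm_num) (by norm_num) (by omega)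
  have hε2 : eps K = (1 / 2) ^ (2 * K + 70) * (1 / 2) ^ 30 := by
    unfold eps
    rw [← pow_add]
  have hang := angle_small (a := u - cor T e) (b := (β + γ) • w) (t := 30 * (79 * eps K))
    (by
      refine le_trans (mul_le_mul_of_nonneg_left (mul_le_mul_of_nonneg_left hεs (by norm_num))
        (by norm_num)) ?_
      norm_num) hb0
    (hdiff.trans (by nlinarith))
  rw [InnerProductGeometry.angle_smul_right_of_pos _ _ hpos] at hang
  refine hang.trans ?_
  rw [hε2]
  have : (0 : ℝ) < (1 / 2) ^ (2 * K + 70) := by positivity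
  nlinarith

private theorem a4b_hgt {s : ℝ} (h0 : 0 ≤ s) (h1 : s ≤ 1) : |hgt K s| ≤ 2 * eps K := by
  have hε : 0 < eps K := by unfold eps; positivity
  have hε1 : eps K ≤ 1 := by
    unfold eps
    exact pow_le_one₀ (by norm_num) (by norm_num)
  have hs : 0 ≤ s * (1 - s) := mul_nonneg h0 (by linarith)
  have hs1 : s * (1 - s) ≤ 1 := by nlinarith
  unfold hgt
  rw [abs_of_nonneg]
  · have : eps K ^ 2 * (s * (1 - s)) ≤ eps K * 1 := by
      have : eps K ^ 2 ≤ eps K := by nlinarith
      calc eps K ^ 2 * (s * (1 - s)) ≤ eps K ^ 2 * 1 :=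
            mul_le_mul_of_nonneg_left hs1 (by positivity)
        _ ≤ eps K * 1 := by linarith
    nlinarith
  · have : 0 ≤ eps K * (1 - s) := mul_nonneg hε.le (by linarith)
    exact add_nonneg this (mul_nonneg (sq_nonneg _) hs)

/-- [DG-A4d] the direction from `p` to `fanv j` is almost the direction to the point
`lineMap q r (t j)` of the opposite side, `t j = γ/(β+γ)` for the coordinates `(α, β, γ)` of
`fanv j`: on the leg `e+2` at `s`: `γ = (1-s)/3, β = (5+4s)/15`; on the leg `e+1` at `s`:
`β = (1-s)/3, γ = (5+s)/15`; `t` is nondecreasing. -/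
theorem fanv_dir (T : Fin 6) (e : Fin 3) : ∃ t : ℕ → ℝ, t 0 = 0 ∧ t (2 * K + 4) = 1 ∧
    (∀ j < 2 * K + 4, t j ≤ t (j + 1)) ∧
    ∀ j ≤ 2 * K + 4, InnerProductGeometry.angle (M.u (fanv K T e j) - cor T e)
      (AffineMap.lineMap (cor T (e + 1)) (cor T (e + 2)) (t j) - cor T e) ≤
        (1 / 2) ^ (2 * K + 70) := by
  have hK : (0 : ℝ) < (K : ℝ) + 2 := by positivity
  have hε : 0 < eps K := by unfold eps; positivity
  have hd : 0 ≤ del K := by unfold del; positivity
  let x : ℕ → ℝ := fun j => (j : ℝ) / ((K : ℝ) + 2)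
  have hx0 : ∀ j, 0 ≤ x j := fun j => by positivity
  have hxm : ∀ j, x j ≤ x (j + 1) := by
    intro j
    show (j : ℝ) / ((K : ℝ) + 2) ≤ ((j + 1 : ℕ) : ℝ) / ((K : ℝ) + 2)
    push_cast
    gcongr
    linarith
  have hx1 : x (K + 2) = 1 := by
    show ((K + 2 : ℕ) : ℝ) / ((K : ℝ) + 2) = 1
    push_cast
    exact div_self hK.ne'
  have hx2 : x (2 * K + 4) = 2 := by
    show ((2 * K + 4 : ℕ) : ℝ) / ((K : ℝ) + 2) = 2
    push_cast
    rw [div_eq_iff hK.ne']
    ring
  have hx2' : ∀ j ≤ 2 * K + 4, x j ≤ 2 := by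
    intro j hj
    rw [← hx2]
    show (j : ℝ) / ((K : ℝ) + 2) ≤ ((2 * K + 4 : ℕ) : ℝ) / ((K : ℝ) + 2)
    have : (j : ℝ) ≤ ((2 * K + 4 : ℕ) : ℝ) := by exact_mod_cast hj
    gcongr
  refine ⟨fun j => if j ≤ K + 2 then 5 * x j / (9 + x j) else (4 + x j) / (14 - 4 * x j),
    ?_, ?_, ?_, ?_⟩
  · simp [x]
  · have : ¬ (2 * K + 4 ≤ K + 2) := by omega
    simp only [this, if_false, hx2]
    norm_num
  · intro j hj
    have hj0 := hx0 j
    have hj1 := hx0 (j + 1)
    have hm := hxm j
    have hj2 := hx2' (j + 1) (by omega)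
    by_cases h1 : j + 1 ≤ K + 2
    · have h2 : j ≤ K + 2 := by omega
      simp only [h1, h2, if_true]
      rw [div_le_div_iff₀ (by linarith) (by linarith)]
      nlinarith
    · have h3 : (if j ≤ K + 2 then 5 * x j / (9 + x j) else (4 + x j) / (14 - 4 * x j)) =
          (4 + x j) / (14 - 4 * x j) := by
        by_cases h2 : j ≤ K + 2
        · have : j = K + 2 := by omega
          subst this
          simp only [le_refl, if_true, hx1]
          norm_num
        · simp only [h2, if_false]
      simp only [h1, if_false]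
      rw [h3, div_le_div_iff₀ (by linarith) (by linarith)]
      nlinarith
  · intro j hj
    have hj0 := hx0 j
    have hj2 := hx2' j hj
    by_cases h0 : j = 0
    · subst h0
      have hu : M.u (fanv K T e 0) = cor T (e + 1) := by
        simp [fanv, u_base, cor]
      rw [hu]
      refine a4b_dir (α := 0) (β := 1) (γ := 0) (h := 0) T e (by norm_num) (by norm_num) ?_ ?_ ?_
      · simp [x]
      · simp [hε.le]
      · have : cor T (e + 1) - fp T e 0 1 0 0 = 0 := by simp [fp]
        rw [this, norm_zero]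
        exact hd
    · by_cases h1 : j ≤ K + 1
      · have hf : fanv K T e j = Y K T (e + 2) (K + 2 - j) := by simp [fanv, h0, h1]
        have h2 : j ≤ K + 2 := by omega
        have hs : sj K (K + 2 - j) = 1 - x j := by
          show ((K + 2 - j : ℕ) : ℝ) / ((K : ℝ) + 2) = 1 - (j : ℝ) / ((K : ℝ) + 2)
          rw [Nat.cast_sub h2]
          push_cast
          field_simp
        have hx1' : x j ≤ 1 := by
          rw [← hx1]
          show (j : ℝ) / ((K : ℝ) + 2) ≤ ((K + 2 : ℕ) : ℝ) / ((K : ℝ) + 2)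
          have : (j : ℝ) ≤ ((K + 2 : ℕ) : ℝ) := by exact_mod_cast h2
          gcongr
        have hid : ideal K (Y K T (e + 2) (K + 2 - j)) =
            fp T e ((5 + (1 - x j)) / 15) ((5 + 4 * (1 - x j)) / 15) ((1 - (1 - x j)) / 3)
              (hgt K (1 - x j)) := by
          rw [ideal_Y K T (e + 2) (K + 2 - j) (by omega), idl_fp, hs, fp_rot]
          congr 1
          fin_cases e <;> rfl
        simp only [h2, if_true]
        rw [hf]
        refine a4b_dir (α := (5 + (1 - x j)) / 15) (β := (5 + 4 * (1 - x j)) / 15)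
          (γ := (1 - (1 - x j)) / 3) (h := hgt K (1 - x j)) T e (by ring) ?_ ?_
          (a4b_hgt (by linarith) (by linarith)) ?_
        · linarith
        · have : (9 + x j) ≠ 0 := by linarith
          field_simp
          ring
        · rw [← hid]
          exact M.u_close _
      · by_cases h2 : j ≤ 2 * K + 3
        · have hf : fanv K T e j = Y K T (e + 1) (j - (K + 2)) := by simp [fanv, h0, h1, h2]
          have h2' : K + 2 ≤ j := by omega
          have hs : sj K (j - (K + 2)) = x j - 1 := by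
            show ((j - (K + 2) : ℕ) : ℝ) / ((K : ℝ) + 2) = (j : ℝ) / ((K : ℝ) + 2) - 1
            rw [Nat.cast_sub h2']
            push_cast
            field_simp
          have hx1' : 1 ≤ x j := by
            rw [← hx1]
            show ((K + 2 : ℕ) : ℝ) / ((K : ℝ) + 2) ≤ (j : ℝ) / ((K : ℝ) + 2)
            have : ((K + 2 : ℕ) : ℝ) ≤ (j : ℝ) := by exact_mod_cast h2'
            gcongr
          have hid : ideal K (Y K T (e + 1) (j - (K + 2))) =
              fp T e ((5 + 4 * (x j - 1)) / 15) ((1 - (x j - 1)) / 3) ((5 + (x j - 1)) / 15)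
                (hgt K (x j - 1)) := by
            rw [ideal_Y K T (e + 1) (j - (K + 2)) (by omega), idl_fp, hs, fp_rot T e]
          have h3 : (if j ≤ K + 2 then 5 * x j / (9 + x j) else (4 + x j) / (14 - 4 * x j)) =
              (4 + x j) / (14 - 4 * x j) := by
            by_cases h2 : j ≤ K + 2
            · have : j = K + 2 := by omega
              subst this
              simp only [le_refl, if_true, hx1]
              norm_num
            · simp only [h2, if_false]
          rw [hf]
          show InnerProductGeometry.angle _ (AffineMap.lineMap (cor T (e + 1)) (cor T (e + 2))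
            (if j ≤ K + 2 then 5 * x j / (9 + x j) else (4 + x j) / (14 - 4 * x j)) - cor T e) ≤ _
          rw [h3]
          refine a4b_dir (α := (5 + 4 * (x j - 1)) / 15) (β := (1 - (x j - 1)) / 3)
            (γ := (5 + (x j - 1)) / 15) (h := hgt K (x j - 1)) T e (by ring) ?_ ?_
            (a4b_hgt (by linarith) (by linarith)) ?_
          · linarith
          · have : (14 - 4 * x j) ≠ 0 := by linarith
            rw [mul_div_assoc', div_eq_iff this]
            ring
          · rw [← hid]
            exact M.u_close _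
        · have hj' : j = 2 * K + 4 := by omega
          subst hj'
          have h4 : ¬ (2 * K + 4 ≤ K + 1) := by omega
          have h5 : ¬ (2 * K + 4 ≤ 2 * K + 3) := by omega
          have h6 : ¬ (2 * K + 4 ≤ K + 2) := by omega
          have hu : M.u (fanv K T e (2 * K + 4)) = cor T (e + 2) := by
            simp [fanv, u_base, cor, h4]
          simp only [h6, if_false, hx2]
          rw [hu]
          refine a4b_dir (α := 0) (β := 0) (γ := 1) (h := 0) T e (by norm_num) (by norm_num)
            ?_ ?_ ?_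
          · norm_num
          · simp [hε.le]
          · have : cor T (e + 2) - fp T e 0 0 1 0 = 0 := by simp [fp]
            rw [this, norm_zero]
            exact hd

end Msh

end

end QGd
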