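import Pool.Agent.Lib_MP_6b5565_dg.A4b

/-! [DG-A4c] the sectors at the base vertices -/

namespace QGd

open EuclideanGeometry Vx Dx

noncomputable section

private theorem nd_a4c (T : Fin 6) (e : Fin 3) : ∃ i j : Fin 3,
    (BV (CT T (e + 1)) i - BV (CT T e) i) * (BV (CT T (e + 2)) j - BV (CT T e) j) -
      (BV (CT T (e + 1)) j - BV (CT T e) j) * (BV (CT T (e + 2)) i - BV (CT T e) i) ≠ 0 := by
  revert T e
  decide

private theorem cor_apply_a4c (T : Fin 6) (e : Fin 3) (i : Fin 3) :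
    cor T e i = (BV (CT T e) i : ℝ) := by
  unfold cor bpt pt
  fin_cases i <;> rfl

private theorem nd_real_a4c (T : Fin 6) (e : Fin 3) : ∃ i j : Fin 3,
    (cor T (e + 1) i - cor T e i) * (cor T (e + 2) j - cor T e j) -
      (cor T (e + 1) j - cor T e j) * (cor T (e + 2) i - cor T e i) ≠ 0 := by
  obtain ⟨i, j, h⟩ := nd_a4c T e
  refine ⟨i, j, ?_⟩
  simp only [cor_apply_a4c]
  exact_mod_cast h

private theorem seg_ne_a4c (T : Fin 6) (e : Fin 3) :
    ∀ m ∈ segment ℝ (cor T (e + 1)) (cor T (e + 2)), m ≠ cor T e := by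
  rintro m ⟨a, b, -, -, hab, hm⟩ h0
  obtain ⟨i, j, h⟩ := nd_real_a4c T e
  rw [h0] at hm
  have h1 : ∀ l : Fin 3, a * (cor T (e + 1) l - cor T e l) + b * (cor T (e + 2) l - cor T e l) = 0 := by
    intro l
    have h2 := congrArg (fun v : E3 => v l) hm
    simp only [PiLp.add_apply, PiLp.smul_apply, smul_eq_mul] at h2
    have h3 : (a + b) * cor T e l = cor T e l := by rw [hab, one_mul]
    linear_combination h2 - h3
  have hi := h1 i
  have hj := h1 j
  have hb : b = 0 := by
    have h2 : b * ((cor T (e + 1) i - cor T e i) * (cor T (e + 2) j - cor T e j) -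
      (cor T (e + 1) j - cor T e j) * (cor T (e + 2) i - cor T e i)) = 0 := by
      linear_combination (cor T (e + 1) i - cor T e i) * hj - (cor T (e + 1) j - cor T e j) * hi
    exact (mul_eq_zero.1 h2).resolve_right h
  have ha : a = 0 := by
    have h2 : a * ((cor T (e + 1) i - cor T e i) * (cor T (e + 2) j - cor T e j) -
      (cor T (e + 1) j - cor T e j) * (cor T (e + 2) i - cor T e i)) = 0 := by
      linear_combination (cor T (e + 2) j - cor T e j) * hi - (cor T (e + 2) i - cor T e i) * hj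
    exact (mul_eq_zero.1 h2).resolve_right h
  rw [ha, hb] at hab
  norm_num at hab

private theorem bang_lt_a4c (T : Fin 6) (e : Fin 3) :
    ∠ (cor T (e + 1)) (cor T e) (cor T (e + 2)) < Real.pi := by
  refine lt_of_le_of_ne (EuclideanGeometry.angle_le_pi _ _ _) fun h0 => ?_
  obtain ⟨-, c, -, hc⟩ := InnerProductGeometry.angle_eq_pi_iff.1 h0
  obtain ⟨i, j, h⟩ := nd_real_a4c T e
  have h1 : ∀ l : Fin 3, cor T (e + 2) l - cor T e l = c * (cor T (e + 1) l - cor T e l) := by
    intro l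
    have h2 := congrArg (fun v : E3 => v l) hc
    simpa using h2
  apply h
  rw [h1 i, h1 j]
  ring

private theorem small_a4c (K : ℕ) :
    ((2 * K + 4 : ℕ) : ℝ) * (2 * (1 / 2) ^ (2 * K + 70)) ≤ (1 / 2) ^ 50 := by
  have h1 : ((2 * K + 4 : ℕ) : ℝ) ≤ 2 ^ (2 * K + 4) := by
    exact_mod_cast (Nat.lt_two_pow_self (n := 2 * K + 4)).le
  calc ((2 * K + 4 : ℕ) : ℝ) * (2 * (1 / 2) ^ (2 * K + 70))
      ≤ 2 ^ (2 * K + 4) * (2 * (1 / 2) ^ (2 * K + 70)) :=
        mul_le_mul_of_nonneg_right h1 (by positivity)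
    _ = (2 ^ (2 * K + 4) * (1 / 2) ^ (2 * K + 4)) * (2 * (1 / 2) ^ 66) := by
        rw [show 2 * K + 70 = (2 * K + 4) + 66 by ring, pow_add]
        ring
    _ = 2 * (1 / 2) ^ 66 := by
        rw [← mul_pow]
        norm_num
    _ ≤ (1 / 2) ^ 50 := by norm_num

namespace Msh

variable {K : ℕ} (M : Msh K)

/-- [DG-A4e] upper bound (`angle_replace`, `angle_fan`) -/
theorem sec_upper (T : Fin 6) (e : Fin 3) : M.sec T e ≤ bang T e + (1 / 2) ^ 50 := by
  obtain ⟨t, h0, h1, hmono, hdir⟩ := M.fanv_dir T e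
  have hfan := angle_fan (seg_ne_a4c T e) (bang_lt_a4c T e) (2 * K + 4) t h0 h1 hmono
  have hterm : ∀ j ∈ Finset.range (2 * K + 4),
      ∠ (M.pos (fanv K T e j)) (M.pos (base (CT T e))) (M.pos (fanv K T e (j + 1))) ≤
        ∠ (AffineMap.lineMap (cor T (e + 1)) (cor T (e + 2)) (t j)) (cor T e)
          (AffineMap.lineMap (cor T (e + 1)) (cor T (e + 2)) (t (j + 1))) +
            2 * (1 / 2) ^ (2 * K + 70) := by
    intro j hj
    have hj' := Finset.mem_range.1 hj
    rw [M.pos_smul, M.pos_smul, M.pos_smul, angle_scale M.Spos, M.u_base]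
    have e1 := angle_replace (M.u (fanv K T e j) - cor T e) (M.u (fanv K T e (j + 1)) - cor T e)
      (AffineMap.lineMap (cor T (e + 1)) (cor T (e + 2)) (t j) - cor T e)
      (AffineMap.lineMap (cor T (e + 1)) (cor T (e + 2)) (t (j + 1)) - cor T e)
    have e2 := hdir j (by omega)
    have e3 := hdir (j + 1) (by omega)
    rw [InnerProductGeometry.angle_comm] at e3
    have e4 : ∠ (M.u (fanv K T e j)) (bpt (CT T e)) (M.u (fanv K T e (j + 1))) =
      InnerProductGeometry.angle (M.u (fanv K T e j) - cor T e)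
        (M.u (fanv K T e (j + 1)) - cor T e) := rfl
    have e5 : ∠ (AffineMap.lineMap (cor T (e + 1)) (cor T (e + 2)) (t j)) (cor T e)
          (AffineMap.lineMap (cor T (e + 1)) (cor T (e + 2)) (t (j + 1))) =
      InnerProductGeometry.angle
        (AffineMap.lineMap (cor T (e + 1)) (cor T (e + 2)) (t j) - cor T e)
        (AffineMap.lineMap (cor T (e + 1)) (cor T (e + 2)) (t (j + 1)) - cor T e) := rfl
    rw [e4, e5]
    linarith
  rw [M.sec_eq]
  refine (Finset.sum_le_sum hterm).trans ?_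
  rw [Finset.sum_add_distrib, hfan, Finset.sum_const, Finset.card_range, nsmul_eq_mul]
  have h2 := small_a4c K
  unfold bang
  linarith

end Msh

end

end QGd
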