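import Pool.Agent.Lib_MP_6b5565_dg.A4c

/-! [DG-A4d] the sectors at the base vertices -/

namespace QGd

open EuclideanGeometry Vx Dx

noncomputable section

namespace Msh

variable {K : ℕ} (M : Msh K)

/-- sum over the half-edges -/
private theorem sum_dx_a4d (f : Dx K → ℝ) : ∑ d, f d =
    ∑ s : Fin 6 × Fin 3, ((∑ i : Fin (K + 1), ∑ k : Fin 3, f (L s.1 s.2 i k)) +
      (∑ i : Fin (K + 1), ∑ k : Fin 3, f (R s.1 s.2 i k)) + ∑ k : Fin 3, f (E s.1 s.2 k)) := by
  rw [← (Dx.equiv K).symm.sum_comp f, Fintype.sum_sum_type, Fintype.sum_sum_type,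
    Finset.sum_add_distrib, Finset.sum_add_distrib, add_assoc]
  simp only [Fintype.sum_prod_type]
  rfl

private theorem pre_ne_a4d (T : Fin 6) (e : Fin 3) (i : Fin (K + 1)) (v : Fin 5) :
    pre T e i ≠ base v := by
  unfold pre
  split_ifs <;> exact fun h => by cases h

/-- shift of the sides of the faces -/
private theorem shift_a4d (k l : Fin 3) (hkl : l + k = 0) (v : Fin 5) (g : Fin 6 → Fin 3 → ℝ) :
    ∑ s : Fin 6 × Fin 3, (if CT s.1 (s.2 + k) = v then g s.1 s.2 else 0) =
      ∑ s : Fin 6 × Fin 3, (if CT s.1 s.2 = v then g s.1 (s.2 + l) else 0) := by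
  rw [Fintype.sum_prod_type, Fintype.sum_prod_type]
  refine Finset.sum_congr rfl fun T _ => ?_
  rw [← Equiv.sum_comp (Equiv.addRight l)]
  refine Finset.sum_congr rfl fun e _ => ?_
  simp only [Equiv.coe_addRight]
  rw [add_assoc, hkl, add_zero]

private theorem gen_a4d (f : Dx K → ℝ) (v : Fin 5) :
    (∑ d : Dx K, if tl d = base v then f d else 0) =
      ∑ s ∈ (Finset.univ : Finset (Fin 6 × Fin 3)).filter (fun s => CT s.1 s.2 = v),
        (f (E s.1 (s.2 + 2) 0) + ∑ i : Fin (K + 1), f (L s.1 (s.2 + 2) i 0) +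
          ∑ i : Fin (K + 1), f (R s.1 (s.2 + 1) i 0) + f (E s.1 (s.2 + 1) 1)) := by
  have hb : ∀ a b : Fin 5, (base a : Vx K) = base b ↔ a = b := fun a b =>
    ⟨fun h => by cases h; rfl, fun h => by rw [h]⟩
  have hl : ∀ (T : Fin 6) (e : Fin 3) (i : Fin (K + 1)), leg T e i ≠ base v :=
    fun T e i h => by cases h
  have hL : ∀ (T : Fin 6) (e : Fin 3) (i : Fin (K + 1)),
      (∑ k : Fin 3, if tl (L T e i k) = base v then f (L T e i k) else 0) =
        if CT T (e + 1) = v then f (L T e i 0) else 0 := by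
    intro T e i
    rw [Fin.sum_univ_three]
    have h1 : tl (L T e i 0) = base (CT T (e + 1)) := rfl
    have h2 : tl (L T e i 1) = leg T e i := rfl
    have h3 : tl (L T e i 2) = pre T e i := rfl
    rw [h1, h2, h3, if_neg (pre_ne_a4d T e i v), if_neg (hl T e i), add_zero, add_zero]
    simp only [hb]
  have hR : ∀ (T : Fin 6) (e : Fin 3) (i : Fin (K + 1)),
      (∑ k : Fin 3, if tl (R T e i k) = base v then f (R T e i k) else 0) =
        if CT T (e + 2) = v then f (R T e i 0) else 0 := by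
    intro T e i
    rw [Fin.sum_univ_three]
    have h1 : tl (R T e i 0) = base (CT T (e + 2)) := rfl
    have h2 : tl (R T e i 1) = pre T e i := rfl
    have h3 : tl (R T e i 2) = leg T e i := rfl
    rw [h1, h2, h3, if_neg (pre_ne_a4d T e i v), if_neg (hl T e i), add_zero, add_zero]
    simp only [hb]
  have hE : ∀ (T : Fin 6) (e : Fin 3),
      (∑ k : Fin 3, if tl (E T e k : Dx K) = base v then f (E T e k) else 0) =
        (if CT T (e + 1) = v then f (E T e 0) else 0) +
          if CT T (e + 2) = v then f (E T e 1) else 0 := by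
    intro T e
    rw [Fin.sum_univ_three]
    have h1 : tl (E T e 0 : Dx K) = base (CT T (e + 1)) := rfl
    have h2 : tl (E T e 1 : Dx K) = base (CT T (e + 2)) := rfl
    have h3 : tl (E T e 2 : Dx K) = leg T e (Fin.last K) := rfl
    rw [h1, h2, h3, if_neg (hl T e (Fin.last K)), add_zero]
    simp only [hb]
  rw [sum_dx_a4d]
  simp only [hL, hR, hE]
  have h4 : ∀ (p : Prop) [Decidable p] (g : Fin (K + 1) → ℝ),
      (∑ i : Fin (K + 1), if p then g i else 0) = if p then ∑ i, g i else 0 := by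
    intro p _ g
    split_ifs
    · rfl
    · simp
  simp only [h4]
  rw [Finset.sum_add_distrib, Finset.sum_add_distrib, Finset.sum_add_distrib,
    shift_a4d 1 2 rfl v (fun T e => ∑ i : Fin (K + 1), f (L T e i 0)),
    shift_a4d 2 1 rfl v (fun T e => ∑ i : Fin (K + 1), f (R T e i 0)),
    shift_a4d 1 2 rfl v (fun T e => f (E T e 0)),
    shift_a4d 2 1 rfl v (fun T e => f (E T e 1)), Finset.sum_filter,
    ← Finset.sum_add_distrib, ← Finset.sum_add_distrib, ← Finset.sum_add_distrib]
  refine Finset.sum_congr rfl fun s _ => ?_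
  split_ifs
  · ring
  · ring

/-- [DG-A4f] the total angle at a base vertex is the sum of its sectors -/
theorem tot_base (v : Fin 5) : M.P.tot (base v) =
    ∑ s ∈ (Finset.univ : Finset (Fin 6 × Fin 3)).filter (fun s => CT s.1 s.2 = v),
      M.sec s.1 s.2 := by
  have h0 : M.P.tot (base v) = ∑ d : Dx K, if tl d = base v then M.P.ang d else 0 := by
    unfold Poly.tot
    rw [Finset.sum_filter]
    rfl
  rw [h0]
  exact gen_a4d (fun d => M.P.ang d) v

end Msh

end

end QGd
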