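import Pool.Agent.Lib_MP_6b5565_dg.Bang

/-! [DG-A5] numerical facts on the angles of the base polyhedron

Faces: `T0 = (O,P,Q)`: 90, 45, 45 degrees; `T1 = (O,G,P)`: 99.34, 8.86, 71.80; `T2 = (O,Q,G)`:
99.34, 71.80, 8.86; `T3 = (P,F,Q)`: 90, 13.83, 76.17; `T4 = (P,G,F)`: 99.39, 37.67, 42.94;
`T5 = (Q,F,G)`: 97.58, 43.19, 39.22. -/

namespace QGd

open EuclideanGeometry Real

noncomputable section

private theorem inn3 (a b c : Fin 3 → ℤ) : inner ℝ (pt a - pt b) (pt c - pt b) =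
    (((a 0 - b 0) * (c 0 - b 0) + (a 1 - b 1) * (c 1 - b 1) + (a 2 - b 2) * (c 2 - b 2) : ℤ) : ℝ) := by
  simp [pt, PiLp.inner_apply, Fin.sum_univ_three]
  ring

private theorem bangEq (T : Fin 6) (e : Fin 3) (a b c : Fin 3 → ℤ) (x n m : ℤ)
    (ha : BV (CT T (e + 1)) = a) (hb : BV (CT T e) = b) (hc : BV (CT T (e + 2)) = c)
    (hx : (a 0 - b 0) * (c 0 - b 0) + (a 1 - b 1) * (c 1 - b 1) + (a 2 - b 2) * (c 2 - b 2) = x)
    (hn : (a 0 - b 0) * (a 0 - b 0) + (a 1 - b 1) * (a 1 - b 1) + (a 2 - b 2) * (a 2 - b 2) = n)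
    (hm : (c 0 - b 0) * (c 0 - b 0) + (c 1 - b 1) * (c 1 - b 1) + (c 2 - b 2) * (c 2 - b 2) = m) :
    bang T e = arccos ((x : ℝ) / (√(n : ℝ) * √(m : ℝ))) := by
  unfold bang cor bpt EuclideanGeometry.angle InnerProductGeometry.angle
  rw [ha, hb, hc]
  simp only [vsub_eq_sub]
  rw [inn3, norm_eq_sqrt_real_inner (pt a - pt b), norm_eq_sqrt_real_inner (pt c - pt b), inn3,
    inn3, hx, hn, hm]

private theorem e00 : bang 0 0 = arccos (((0 : ℤ) : ℝ) / (√((1 : ℤ) : ℝ) * √((1 : ℤ) : ℝ))) :=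
  bangEq 0 0 ![1, 0, 0] ![0, 0, 0] ![0, 1, 0] 0 1 1 (by decide) (by decide) (by decide)
    (by decide) (by decide) (by decide)

private theorem e01 : bang 0 1 = arccos (((1 : ℤ) : ℝ) / (√((2 : ℤ) : ℝ) * √((1 : ℤ) : ℝ))) :=
  bangEq 0 1 ![0, 1, 0] ![1, 0, 0] ![0, 0, 0] 1 2 1 (by decide) (by decide) (by decide)
    (by decide) (by decide) (by decide)

private theorem e02 : bang 0 2 = arccos (((1 : ℤ) : ℝ) / (√((1 : ℤ) : ℝ) * √((2 : ℤ) : ℝ))) :=
  bangEq 0 2 ![0, 0, 0] ![0, 1, 0] ![1, 0, 0] 1 1 2 (by decide) (by decide) (by decide)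
    (by decide) (by decide) (by decide)

private theorem e30 : bang 3 0 = arccos (((0 : ℤ) : ℝ) / (√((33 : ℤ) : ℝ) * √((2 : ℤ) : ℝ))) :=
  bangEq 3 0 ![5, 4, -1] ![1, 0, 0] ![0, 1, 0] 0 33 2 (by decide) (by decide) (by decide)
    (by decide) (by decide) (by decide)

private theorem e10 : bang 1 0 = arccos (((-1 : ℤ) : ℝ) / (√((38 : ℤ) : ℝ) * √((1 : ℤ) : ℝ))) :=
  bangEq 1 0 ![-1, -1, -6] ![0, 0, 0] ![1, 0, 0] (-1) 38 1 (by decide) (by decide) (by decide)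
    (by decide) (by decide) (by decide)

private theorem e20 : bang 2 0 = arccos (((-1 : ℤ) : ℝ) / (√((1 : ℤ) : ℝ) * √((38 : ℤ) : ℝ))) :=
  bangEq 2 0 ![0, 1, 0] ![0, 0, 0] ![-1, -1, -6] (-1) 1 38 (by decide) (by decide) (by decide)
    (by decide) (by decide) (by decide)

private theorem e40 : bang 4 0 = arccos (((-6 : ℤ) : ℝ) / (√((41 : ℤ) : ℝ) * √((33 : ℤ) : ℝ))) :=
  bangEq 4 0 ![-1, -1, -6] ![1, 0, 0] ![5, 4, -1] (-6) 41 33 (by decide) (by decide) (by decide)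
    (by decide) (by decide) (by decide)

private theorem e50 : bang 5 0 = arccos (((-5 : ℤ) : ℝ) / (√((35 : ℤ) : ℝ) * √((41 : ℤ) : ℝ))) :=
  bangEq 5 0 ![5, 4, -1] ![0, 1, 0] ![-1, -1, -6] (-5) 35 41 (by decide) (by decide) (by decide)
    (by decide) (by decide) (by decide)

private theorem e12 : bang 1 2 = arccos (((2 : ℤ) : ℝ) / (√((1 : ℤ) : ℝ) * √((41 : ℤ) : ℝ))) :=
  bangEq 1 2 ![0, 0, 0] ![1, 0, 0] ![-1, -1, -6] 2 1 41 (by decide) (by decide) (by decide)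
    (by decide) (by decide) (by decide)

private theorem e21 : bang 2 1 = arccos (((2 : ℤ) : ℝ) / (√((41 : ℤ) : ℝ) * √((1 : ℤ) : ℝ))) :=
  bangEq 2 1 ![-1, -1, -6] ![0, 1, 0] ![0, 0, 0] 2 41 1 (by decide) (by decide) (by decide)
    (by decide) (by decide) (by decide)

private theorem e32 : bang 3 2 = arccos (((2 : ℤ) : ℝ) / (√((2 : ℤ) : ℝ) * √((35 : ℤ) : ℝ))) :=
  bangEq 3 2 ![1, 0, 0] ![0, 1, 0] ![5, 4, -1] 2 2 35 (by decide) (by decide) (by decide)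
    (by decide) (by decide) (by decide)

/-- [DG-A5a] exact angles -/
theorem bang_exact : bang 0 0 = π / 2 ∧ bang 0 1 = π / 4 ∧ bang 0 2 = π / 4 ∧ bang 3 0 = π / 2 := by
  have h4 : arccos (√2 / 2) = π / 4 := by
    rw [← cos_pi_div_four]
    exact arccos_cos (by positivity) (by linarith [pi_pos])
  have h2 : (1 : ℝ) / √2 = √2 / 2 := by
    rw [div_eq_div_iff (by positivity) (by norm_num), one_mul, mul_self_sqrt (by norm_num)]
  refine ⟨?_, ?_, ?_, ?_⟩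
  · rw [e00]; simp
  · rw [e01]; push_cast; rw [sqrt_one, mul_one, h2, h4]
  · rw [e02]; push_cast; rw [sqrt_one, one_mul, h2, h4]
  · rw [e30]; simp

/-- lower bound for an obtuse angle -/
private theorem obt (x : ℝ) (y : ℝ) (hy : 0 ≤ y) (hy1 : y ≤ 1) (hx : x ≤ -y) :
    π / 2 + y ≤ arccos x := by
  have h1 : cos (π / 2 + y) = -sin y := by rw [add_comm, cos_add_pi_div_two]
  have h2 : sin y ≤ y := sin_le hy
  have h3 : arccos (cos (π / 2 + y)) = π / 2 + y :=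
    arccos_cos (by positivity) (by linarith [pi_gt_three])
  rw [← h3]
  exact arccos_le_arccos (by rw [h1]; linarith)

private theorem up34 (x : ℝ) (hx : -(1 / 2) ≤ x) : arccos x ≤ 3 * π / 4 := by
  have h1 : cos (3 * π / 4) = -(√2 / 2) := by
    have : 3 * π / 4 = π - π / 4 := by ring
    rw [this, cos_pi_sub, cos_pi_div_four]
  have h2 : (1 : ℝ) ≤ √2 := by
    rw [show (1 : ℝ) = √1 by simp]; exact sqrt_le_sqrt (by norm_num)
  have h3 : arccos (cos (3 * π / 4)) = 3 * π / 4 :=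
    arccos_cos (by positivity) (by linarith [pi_pos])
  rw [← h3]
  exact arccos_le_arccos (by rw [h1]; linarith)

private theorem up2 (x : ℝ) (hx : 0 ≤ x) : arccos x ≤ π / 2 := arccos_le_pi_div_two.2 hx

/-- bounds of `-x / (√n √m)` -/
private theorem fr_le (x n m y : ℝ) (hx : 0 ≤ x) (hn : 0 < n) (hm : 0 < m) (hy : 0 < y)
    (h : n * m * (y * y) ≤ x * x) : -x / (√n * √m) ≤ -y := by
  rw [neg_div, neg_le_neg_iff, le_div_iff₀ (by positivity), ← sqrt_mul hn.le]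
  have h1 : y * √(n * m) = √(n * m * (y * y)) := by
    rw [sqrt_mul (by positivity) (y * y), sqrt_mul_self hy.le, mul_comm]
  rw [h1]
  calc √(n * m * (y * y)) ≤ √(x * x) := sqrt_le_sqrt h
    _ = x := sqrt_mul_self hx

private theorem fr_ge (x n m : ℝ) (hx : 0 ≤ x) (hn : 0 < n) (hm : 0 < m)
    (h : x * x ≤ n * m * (1 / 4)) : -(1 / 2) ≤ -x / (√n * √m) := by
  rw [neg_div, neg_le_neg_iff, div_le_iff₀ (by positivity), ← sqrt_mul hn.le]
  have h1 : 1 / 2 * √(n * m) = √(n * m * (1 / 2 * (1 / 2))) := by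
    rw [sqrt_mul (by positivity) (1 / 2 * (1 / 2)), sqrt_mul_self (by norm_num), mul_comm]
  rw [h1]
  calc x = √(x * x) := (sqrt_mul_self hx).symm
    _ ≤ √(n * m * (1 / 2 * (1 / 2))) := sqrt_le_sqrt (by linarith)

/-- [DG-A5b] obtuse angles (radians: 1.7338, 1.7338, 1.7347, 1.7031) -/
theorem bang_obtuse : π / 2 + 3 / 20 ≤ bang 1 0 ∧ π / 2 + 3 / 20 ≤ bang 2 0 ∧
    π / 2 + 3 / 20 ≤ bang 4 0 ∧ π / 2 + 3 / 25 ≤ bang 5 0 := by
  refine ⟨?_, ?_, ?_, ?_⟩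
  · rw [e10]; push_cast
    exact obt _ _ (by norm_num) (by norm_num)
      (fr_le 1 38 1 (3 / 20) (by norm_num) (by norm_num) (by norm_num) (by norm_num) (by norm_num))
  · rw [e20]; push_cast
    exact obt _ _ (by norm_num) (by norm_num)
      (fr_le 1 1 38 (3 / 20) (by norm_num) (by norm_num) (by norm_num) (by norm_num) (by norm_num))
  · rw [e40]; push_cast
    exact obt _ _ (by norm_num) (by norm_num)
      (fr_le 6 41 33 (3 / 20) (by norm_num) (by norm_num) (by norm_num) (by norm_num) (by norm_num))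
  · rw [e50]; push_cast
    exact obt _ _ (by norm_num) (by norm_num)
      (fr_le 5 35 41 (3 / 25) (by norm_num) (by norm_num) (by norm_num) (by norm_num) (by norm_num))

/-- [DG-A5f] crude upper bounds at `O, P, Q` (degrees 99.34, 99.34, 71.80, 99.39, 71.80, 97.58,
76.17) -/
theorem bang_upper2 : bang 1 0 ≤ 3 * π / 4 ∧ bang 2 0 ≤ 3 * π / 4 ∧ bang 1 2 ≤ π / 2 ∧
    bang 4 0 ≤ 3 * π / 4 ∧ bang 2 1 ≤ π / 2 ∧ bang 5 0 ≤ 3 * π / 4 ∧ bang 3 2 ≤ π / 2 := by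
  refine ⟨?_, ?_, ?_, ?_, ?_, ?_, ?_⟩
  · rw [e10]; push_cast
    exact up34 _ (fr_ge 1 38 1 (by norm_num) (by norm_num) (by norm_num) (by norm_num))
  · rw [e20]; push_cast
    exact up34 _ (fr_ge 1 1 38 (by norm_num) (by norm_num) (by norm_num) (by norm_num))
  · rw [e12]; exact up2 _ (by positivity)
  · rw [e40]; push_cast
    exact up34 _ (fr_ge 6 41 33 (by norm_num) (by norm_num) (by norm_num) (by norm_num))
  · rw [e21]; exact up2 _ (by positivity)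
  · rw [e50]; push_cast
    exact up34 _ (fr_ge 5 35 41 (by norm_num) (by norm_num) (by norm_num) (by norm_num))
  · rw [e32]; exact up2 _ (by positivity)

end

end QGd
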