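import Pool.Agent.Lib_MP_6b5565_dg.A5

/-! [DG-A5b] numerical facts on the angles of the base polyhedron

Faces: `T0 = (O,P,Q)`: 90, 45, 45 degrees; `T1 = (O,G,P)`: 99.34, 8.86, 71.80; `T2 = (O,Q,G)`:
99.34, 71.80, 8.86; `T3 = (P,F,Q)`: 90, 13.83, 76.17; `T4 = (P,G,F)`: 99.39, 37.67, 42.94;
`T5 = (Q,F,G)`: 97.58, 43.19, 39.22. -/

namespace QGd

open EuclideanGeometry Real

noncomputable section

private theorem inn_a5b (a b c : Fin 3 → ℤ) : inner ℝ (pt b - pt a) (pt c - pt a) =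
    ((b 0 : ℝ) - a 0) * (c 0 - a 0) + ((b 1 : ℝ) - a 1) * (c 1 - a 1) +
      ((b 2 : ℝ) - a 2) * (c 2 - a 2) := by
  rw [PiLp.inner_apply, Fin.sum_univ_three]
  simp only [pt, PiLp.sub_apply, RCLike.inner_apply, conj_trivial, Matrix.cons_val_zero,
    Matrix.cons_val_one, Matrix.cons_val]
  ring

private theorem nsq_a5b (a b : Fin 3 → ℤ) : ‖pt b - pt a‖ ^ 2 =
    ((b 0 : ℝ) - a 0) ^ 2 + ((b 1 : ℝ) - a 1) ^ 2 + ((b 2 : ℝ) - a 2) ^ 2 := by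
  rw [← real_inner_self_eq_norm_sq, inn_a5b]
  ring

private theorem ge_a5b (a b c : Fin 3 → ℤ) {x C : ℝ} (hx0 : 0 ≤ x) (hxp : x ≤ π) (hC : 0 ≤ C)
    (hcos : C ≤ Real.cos x)
    (h : (((b 0 : ℝ) - a 0) * (c 0 - a 0) + ((b 1 : ℝ) - a 1) * (c 1 - a 1) +
      ((b 2 : ℝ) - a 2) * (c 2 - a 2)) ^ 2 ≤
      C ^ 2 * ((((b 0 : ℝ) - a 0) ^ 2 + ((b 1 : ℝ) - a 1) ^ 2 + ((b 2 : ℝ) - a 2) ^ 2) *
        (((c 0 : ℝ) - a 0) ^ 2 + ((c 1 : ℝ) - a 1) ^ 2 + ((c 2 : ℝ) - a 2) ^ 2))) :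
    x ≤ ∠ (pt b) (pt a) (pt c) := by
  rw [← inn_a5b, ← nsq_a5b, ← nsq_a5b] at h
  have h1 : inner ℝ (pt b - pt a) (pt c - pt a) ≤ C * (‖pt b - pt a‖ * ‖pt c - pt a‖) := by
    refine (le_abs_self _).trans (abs_le_of_sq_le_sq ?_ (by positivity))
    calc inner ℝ (pt b - pt a) (pt c - pt a) ^ 2 ≤ _ := h
      _ = _ := by ring
  unfold EuclideanGeometry.angle InnerProductGeometry.angle
  rw [vsub_eq_sub, vsub_eq_sub, ← Real.arccos_cos hx0 hxp]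
  apply Real.arccos_le_arccos
  refine le_trans ?_ hcos
  exact div_le_of_le_mul₀ (by positivity) hC h1

private theorem le_a5b (a b c : Fin 3 → ℤ) {x C : ℝ} (hx0 : 0 ≤ x) (hxp : x ≤ π) (hC : 0 ≤ C)
    (hcos : Real.cos x ≤ C)
    (hD : 0 ≤ ((b 0 : ℝ) - a 0) * (c 0 - a 0) + ((b 1 : ℝ) - a 1) * (c 1 - a 1) +
      ((b 2 : ℝ) - a 2) * (c 2 - a 2))
    (hb : 0 < ((b 0 : ℝ) - a 0) ^ 2 + ((b 1 : ℝ) - a 1) ^ 2 + ((b 2 : ℝ) - a 2) ^ 2)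
    (hc : 0 < ((c 0 : ℝ) - a 0) ^ 2 + ((c 1 : ℝ) - a 1) ^ 2 + ((c 2 : ℝ) - a 2) ^ 2)
    (h : C ^ 2 * ((((b 0 : ℝ) - a 0) ^ 2 + ((b 1 : ℝ) - a 1) ^ 2 + ((b 2 : ℝ) - a 2) ^ 2) *
        (((c 0 : ℝ) - a 0) ^ 2 + ((c 1 : ℝ) - a 1) ^ 2 + ((c 2 : ℝ) - a 2) ^ 2)) ≤
      (((b 0 : ℝ) - a 0) * (c 0 - a 0) + ((b 1 : ℝ) - a 1) * (c 1 - a 1) +
      ((b 2 : ℝ) - a 2) * (c 2 - a 2)) ^ 2) :
    ∠ (pt b) (pt a) (pt c) ≤ x := by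
  rw [← inn_a5b, ← nsq_a5b, ← nsq_a5b] at h
  rw [← inn_a5b] at hD
  rw [← nsq_a5b] at hb hc
  have hb' : 0 < ‖pt b - pt a‖ := by
    rcases (norm_nonneg (pt b - pt a)).eq_or_lt with h0 | h0
    · rw [← h0] at hb
      norm_num at hb
    · exact h0
  have hc' : 0 < ‖pt c - pt a‖ := by
    rcases (norm_nonneg (pt c - pt a)).eq_or_lt with h0 | h0
    · rw [← h0] at hc
      norm_num at hc
    · exact h0
  have h1 : C * (‖pt b - pt a‖ * ‖pt c - pt a‖) ≤ inner ℝ (pt b - pt a) (pt c - pt a) := by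
    refine (le_abs_self _).trans (abs_le_of_sq_le_sq ?_ hD)
    calc (C * (‖pt b - pt a‖ * ‖pt c - pt a‖)) ^ 2 =
        C ^ 2 * (‖pt b - pt a‖ ^ 2 * ‖pt c - pt a‖ ^ 2) := by ring
      _ ≤ _ := h
  unfold EuclideanGeometry.angle InnerProductGeometry.angle
  rw [vsub_eq_sub, vsub_eq_sub, ← Real.arccos_cos hx0 hxp]
  apply Real.arccos_le_arccos
  refine le_trans hcos ?_
  rw [le_div_iff₀ (by positivity)]
  exact h1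

private theorem bv00_a5b : BV 0 0 = 0 := rfl
private theorem bv01_a5b : BV 0 1 = 0 := rfl
private theorem bv02_a5b : BV 0 2 = 0 := rfl
private theorem bv10_a5b : BV 1 0 = 1 := rfl
private theorem bv11_a5b : BV 1 1 = 0 := rfl
private theorem bv12_a5b : BV 1 2 = 0 := rfl
private theorem bv20_a5b : BV 2 0 = 0 := rfl
private theorem bv21_a5b : BV 2 1 = 1 := rfl
private theorem bv22_a5b : BV 2 2 = 0 := rfl
private theorem bv30_a5b : BV 3 0 = 5 := rfl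
private theorem bv31_a5b : BV 3 1 = 4 := rfl
private theorem bv32_a5b : BV 3 2 = -1 := rfl
private theorem bv40_a5b : BV 4 0 = -1 := rfl
private theorem bv41_a5b : BV 4 1 = -1 := rfl
private theorem bv42_a5b : BV 4 2 = -6 := rfl

private theorem cos_dbl_a5b {x c : ℝ} (h0 : 0 ≤ c) (h : c ≤ Real.cos x) :
    2 * c ^ 2 - 1 ≤ Real.cos (2 * x) := by
  rw [Real.cos_two_mul]
  have : c ^ 2 ≤ Real.cos x ^ 2 := pow_le_pow_left₀ h0 h 2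
  linarith

private theorem cos_up_a5b {x : ℝ} (h : |x| ≤ 1) : Real.cos x ≤ 1 - x ^ 2 / 2 + |x| ^ 4 * (5 / 96) := by
  have := (abs_le.1 (Real.cos_bound h)).2
  linarith

private theorem ge12_a5b : (6 / 5 : ℝ) ≤ bang 1 2 := by
  show (6 / 5 : ℝ) ≤ ∠ (pt (BV 0)) (pt (BV 1)) (pt (BV 4))
  refine ge_a5b (BV 1) (BV 0) (BV 4) (C := 3448 / 10000) (by norm_num) (by linarith [Real.pi_gt_three])
    (by norm_num) ?_ (by simp only [bv00_a5b, bv01_a5b, bv02_a5b, bv10_a5b, bv11_a5b, bv12_a5b, bv20_a5b, bv21_a5b, bv22_a5b, bv30_a5b, bv31_a5b, bv32_a5b, bv40_a5b, bv41_a5b, bv42_a5b]; norm_num)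
  have h := cos_dbl_a5b (x := 3 / 5) (c := 41 / 50) (by norm_num)
    (le_trans (by norm_num) (Real.one_sub_sq_div_two_le_cos (x := 3 / 5)))
  have e : (2 : ℝ) * (3 / 5) = 6 / 5 := by norm_num
  rw [e] at h
  refine le_trans ?_ h
  norm_num

private theorem ge21_a5b : (6 / 5 : ℝ) ≤ bang 2 1 := by
  show (6 / 5 : ℝ) ≤ ∠ (pt (BV 4)) (pt (BV 2)) (pt (BV 0))
  refine ge_a5b (BV 2) (BV 4) (BV 0) (C := 3448 / 10000) (by norm_num) (by linarith [Real.pi_gt_three])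
    (by norm_num) ?_ (by simp only [bv00_a5b, bv01_a5b, bv02_a5b, bv10_a5b, bv11_a5b, bv12_a5b, bv20_a5b, bv21_a5b, bv22_a5b, bv30_a5b, bv31_a5b, bv32_a5b, bv40_a5b, bv41_a5b, bv42_a5b]; norm_num)
  have h := cos_dbl_a5b (x := 3 / 5) (c := 41 / 50) (by norm_num)
    (le_trans (by norm_num) (Real.one_sub_sq_div_two_le_cos (x := 3 / 5)))
  have e : (2 : ℝ) * (3 / 5) = 6 / 5 := by norm_num
  rw [e] at h
  refine le_trans ?_ h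
  norm_num

private theorem ge32_a5b : (13 / 10 : ℝ) ≤ bang 3 2 := by
  show (13 / 10 : ℝ) ≤ ∠ (pt (BV 1)) (pt (BV 2)) (pt (BV 3))
  refine ge_a5b (BV 2) (BV 1) (BV 3) (C := 244 / 1000) (by norm_num) (by linarith [Real.pi_gt_three])
    (by norm_num) ?_ (by simp only [bv00_a5b, bv01_a5b, bv02_a5b, bv10_a5b, bv11_a5b, bv12_a5b, bv20_a5b, bv21_a5b, bv22_a5b, bv30_a5b, bv31_a5b, bv32_a5b, bv40_a5b, bv41_a5b, bv42_a5b]; norm_num)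
  have h := cos_dbl_a5b (x := 13 / 20) (c := 631 / 800) (by norm_num)
    (le_trans (by norm_num) (Real.one_sub_sq_div_two_le_cos (x := 13 / 20)))
  have e : (2 : ℝ) * (13 / 20) = 13 / 10 := by norm_num
  rw [e] at h
  refine le_trans ?_ h
  norm_num

private theorem ge11_a5b : (3 / 20 : ℝ) ≤ bang 1 1 := by
  show (3 / 20 : ℝ) ≤ ∠ (pt (BV 1)) (pt (BV 4)) (pt (BV 0))
  refine ge_a5b (BV 4) (BV 1) (BV 0) (C := 98875 / 100000) (by norm_num) (by linarith [Real.pi_gt_three])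
    (by norm_num) ?_ (by simp only [bv00_a5b, bv01_a5b, bv02_a5b, bv10_a5b, bv11_a5b, bv12_a5b, bv20_a5b, bv21_a5b, bv22_a5b, bv30_a5b, bv31_a5b, bv32_a5b, bv40_a5b, bv41_a5b, bv42_a5b]; norm_num)
  refine le_trans ?_ (Real.one_sub_sq_div_two_le_cos (x := 3 / 20))
  norm_num

private theorem ge22_a5b : (3 / 20 : ℝ) ≤ bang 2 2 := by
  show (3 / 20 : ℝ) ≤ ∠ (pt (BV 0)) (pt (BV 4)) (pt (BV 2))
  refine ge_a5b (BV 4) (BV 0) (BV 2) (C := 98875 / 100000) (by norm_num) (by linarith [Real.pi_gt_three])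
    (by norm_num) ?_ (by simp only [bv00_a5b, bv01_a5b, bv02_a5b, bv10_a5b, bv11_a5b, bv12_a5b, bv20_a5b, bv21_a5b, bv22_a5b, bv30_a5b, bv31_a5b, bv32_a5b, bv40_a5b, bv41_a5b, bv42_a5b]; norm_num)
  refine le_trans ?_ (Real.one_sub_sq_div_two_le_cos (x := 3 / 20))
  norm_num

private theorem ge41_a5b : (3 / 5 : ℝ) ≤ bang 4 1 := by
  show (3 / 5 : ℝ) ≤ ∠ (pt (BV 3)) (pt (BV 4)) (pt (BV 1))
  refine ge_a5b (BV 4) (BV 3) (BV 1) (C := 82 / 100) (by norm_num) (by linarith [Real.pi_gt_three])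
    (by norm_num) ?_ (by simp only [bv00_a5b, bv01_a5b, bv02_a5b, bv10_a5b, bv11_a5b, bv12_a5b, bv20_a5b, bv21_a5b, bv22_a5b, bv30_a5b, bv31_a5b, bv32_a5b, bv40_a5b, bv41_a5b, bv42_a5b]; norm_num)
  refine le_trans ?_ (Real.one_sub_sq_div_two_le_cos (x := 3 / 5))
  norm_num

private theorem ge52_a5b : (31 / 50 : ℝ) ≤ bang 5 2 := by
  show (31 / 50 : ℝ) ≤ ∠ (pt (BV 2)) (pt (BV 4)) (pt (BV 3))
  refine ge_a5b (BV 4) (BV 2) (BV 3) (C := 8078 / 10000) (by norm_num) (by linarith [Real.pi_gt_three])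
    (by norm_num) ?_ (by simp only [bv00_a5b, bv01_a5b, bv02_a5b, bv10_a5b, bv11_a5b, bv12_a5b, bv20_a5b, bv21_a5b, bv22_a5b, bv30_a5b, bv31_a5b, bv32_a5b, bv40_a5b, bv41_a5b, bv42_a5b]; norm_num)
  refine le_trans ?_ (Real.one_sub_sq_div_two_le_cos (x := 31 / 50))
  norm_num

private theorem ge31_a5b : (23 / 100 : ℝ) ≤ bang 3 1 := by
  show (23 / 100 : ℝ) ≤ ∠ (pt (BV 2)) (pt (BV 3)) (pt (BV 1))
  refine ge_a5b (BV 3) (BV 2) (BV 1) (C := 97355 / 100000) (by norm_num) (by linarith [Real.pi_gt_three])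
    (by norm_num) ?_ (by simp only [bv00_a5b, bv01_a5b, bv02_a5b, bv10_a5b, bv11_a5b, bv12_a5b, bv20_a5b, bv21_a5b, bv22_a5b, bv30_a5b, bv31_a5b, bv32_a5b, bv40_a5b, bv41_a5b, bv42_a5b]; norm_num)
  refine le_trans ?_ (Real.one_sub_sq_div_two_le_cos (x := 23 / 100))
  norm_num

private theorem ge42_a5b : (67 / 100 : ℝ) ≤ bang 4 2 := by
  show (67 / 100 : ℝ) ≤ ∠ (pt (BV 1)) (pt (BV 3)) (pt (BV 4))
  refine ge_a5b (BV 3) (BV 1) (BV 4) (C := 7755 / 10000) (by norm_num) (by linarith [Real.pi_gt_three])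
    (by norm_num) ?_ (by simp only [bv00_a5b, bv01_a5b, bv02_a5b, bv10_a5b, bv11_a5b, bv12_a5b, bv20_a5b, bv21_a5b, bv22_a5b, bv30_a5b, bv31_a5b, bv32_a5b, bv40_a5b, bv41_a5b, bv42_a5b]; norm_num)
  refine le_trans ?_ (Real.one_sub_sq_div_two_le_cos (x := 67 / 100))
  norm_num

private theorem ge51_a5b : (17 / 25 : ℝ) ≤ bang 5 1 := by
  show (17 / 25 : ℝ) ≤ ∠ (pt (BV 4)) (pt (BV 3)) (pt (BV 2))
  refine ge_a5b (BV 3) (BV 4) (BV 2) (C := 7688 / 10000) (by norm_num) (by linarith [Real.pi_gt_three])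
    (by norm_num) ?_ (by simp only [bv00_a5b, bv01_a5b, bv02_a5b, bv10_a5b, bv11_a5b, bv12_a5b, bv20_a5b, bv21_a5b, bv22_a5b, bv30_a5b, bv31_a5b, bv32_a5b, bv40_a5b, bv41_a5b, bv42_a5b]; norm_num)
  refine le_trans ?_ (Real.one_sub_sq_div_two_le_cos (x := 17 / 25))
  norm_num

private theorem le11_a5b : bang 1 1 ≤ (1 / 4 : ℝ) := by
  show ∠ (pt (BV 1)) (pt (BV 4)) (pt (BV 0)) ≤ (1 / 4 : ℝ)
  refine le_a5b (BV 4) (BV 1) (BV 0) (C := 97 / 100) (by norm_num) (by linarith [Real.pi_gt_three])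
    (by norm_num) ?_ (by simp only [bv00_a5b, bv01_a5b, bv02_a5b, bv10_a5b, bv11_a5b, bv12_a5b, bv20_a5b, bv21_a5b, bv22_a5b, bv30_a5b, bv31_a5b, bv32_a5b, bv40_a5b, bv41_a5b, bv42_a5b]; norm_num) (by simp only [bv00_a5b, bv01_a5b, bv02_a5b, bv10_a5b, bv11_a5b, bv12_a5b, bv20_a5b, bv21_a5b, bv22_a5b, bv30_a5b, bv31_a5b, bv32_a5b, bv40_a5b, bv41_a5b, bv42_a5b]; norm_num) (by simp only [bv00_a5b, bv01_a5b, bv02_a5b, bv10_a5b, bv11_a5b, bv12_a5b, bv20_a5b, bv21_a5b, bv22_a5b, bv30_a5b, bv31_a5b, bv32_a5b, bv40_a5b, bv41_a5b, bv42_a5b]; norm_num) (by simp only [bv00_a5b, bv01_a5b, bv02_a5b, bv10_a5b, bv11_a5b, bv12_a5b, bv20_a5b, bv21_a5b, bv22_a5b, bv30_a5b, bv31_a5b, bv32_a5b, bv40_a5b, bv41_a5b, bv42_a5b]; norm_num)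
  refine (cos_up_a5b (by rw [abs_of_nonneg] <;> norm_num)).trans ?_
  rw [abs_of_nonneg (by norm_num : (0 : ℝ) ≤ 1 / 4)]
  norm_num

private theorem le22_a5b : bang 2 2 ≤ (1 / 4 : ℝ) := by
  show ∠ (pt (BV 0)) (pt (BV 4)) (pt (BV 2)) ≤ (1 / 4 : ℝ)
  refine le_a5b (BV 4) (BV 0) (BV 2) (C := 97 / 100) (by norm_num) (by linarith [Real.pi_gt_three])
    (by norm_num) ?_ (by simp only [bv00_a5b, bv01_a5b, bv02_a5b, bv10_a5b, bv11_a5b, bv12_a5b, bv20_a5b, bv21_a5b, bv22_a5b, bv30_a5b, bv31_a5b, bv32_a5b, bv40_a5b, bv41_a5b, bv42_a5b]; norm_num) (by simp only [bv00_a5b, bv01_a5b, bv02_a5b, bv10_a5b, bv11_a5b, bv12_a5b, bv20_a5b, bv21_a5b, bv22_a5b, bv30_a5b, bv31_a5b, bv32_a5b, bv40_a5b, bv41_a5b, bv42_a5b]; norm_num) (by simp only [bv00_a5b, bv01_a5b, bv02_a5b, bv10_a5b, bv11_a5b, bv12_a5b, bv20_a5b, bv21_a5b, bv22_a5b, bv30_a5b,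 bv31_a5b, bv32_a5b, bv40_a5b, bv41_a5b, bv42_a5b]; norm_num) (by simp only [bv00_a5b, bv01_a5b, bv02_a5b, bv10_a5b, bv11_a5b, bv12_a5b, bv20_a5b, bv21_a5b, bv22_a5b, bv30_a5b, bv31_a5b, bv32_a5b, bv40_a5b, bv41_a5b, bv42_a5b]; norm_num)
  refine (cos_up_a5b (by rw [abs_of_nonneg] <;> norm_num)).trans ?_
  rw [abs_of_nonneg (by norm_num : (0 : ℝ) ≤ 1 / 4)]
  norm_num

private theorem le41_a5b : bang 4 1 ≤ (4 / 5 : ℝ) := by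
  show ∠ (pt (BV 3)) (pt (BV 4)) (pt (BV 1)) ≤ (4 / 5 : ℝ)
  refine le_a5b (BV 4) (BV 3) (BV 1) (C := 71 / 100) (by norm_num) (by linarith [Real.pi_gt_three])
    (by norm_num) ?_ (by simp only [bv00_a5b, bv01_a5b, bv02_a5b, bv10_a5b, bv11_a5b, bv12_a5b, bv20_a5b, bv21_a5b, bv22_a5b, bv30_a5b, bv31_a5b, bv32_a5b, bv40_a5b, bv41_a5b, bv42_a5b]; norm_num) (by simp only [bv00_a5b, bv01_a5b, bv02_a5b, bv10_a5b, bv11_a5b, bv12_a5b, bv20_a5b, bv21_a5b, bv22_a5b, bv30_a5b, bv31_a5b, bv32_a5b, bv40_a5b, bv41_a5b, bv42_a5b]; norm_num) (by simp only [bv00_a5b, bv01_a5b, bv02_a5b, bv10_a5b, bv11_a5b, bv12_a5b, bv20_a5b, bv21_a5b, bv22_a5b, bv30_a5b, bv31_a5b, bv32_a5b, bv40_a5b, bv41_a5b, bv42_a5b]; norm_num) (by simp only [bv00_a5b, bv01_a5b, bv02_a5b, bv10_a5b, bv11_a5b, bv12_a5b, bv20_a5b, bv21_a5b, bv22_a5b, bv30_a5b, bv31_a5b, bv32_a5b,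 bv40_a5b, bv41_a5b, bv42_a5b]; norm_num)
  refine (cos_up_a5b (by rw [abs_of_nonneg] <;> norm_num)).trans ?_
  rw [abs_of_nonneg (by norm_num : (0 : ℝ) ≤ 4 / 5)]
  norm_num

private theorem le52_a5b : bang 5 2 ≤ (4 / 5 : ℝ) := by
  show ∠ (pt (BV 2)) (pt (BV 4)) (pt (BV 3)) ≤ (4 / 5 : ℝ)
  refine le_a5b (BV 4) (BV 2) (BV 3) (C := 71 / 100) (by norm_num) (by linarith [Real.pi_gt_three])
    (by norm_num) ?_ (by simp only [bv00_a5b, bv01_a5b, bv02_a5b, bv10_a5b, bv11_a5b, bv12_a5b, bv20_a5b, bv21_a5b, bv22_a5b, bv30_a5b, bv31_a5b, bv32_a5b, bv40_a5b, bv41_a5b, bv42_a5b]; norm_num) (by simp only [bv00_a5b, bv01_a5b, bv02_a5b, bv10_a5b, bv11_a5b, bv12_a5b, bv20_a5b, bv21_a5b, bv22_a5b, bv30_a5b, bv31_a5b, bv32_a5b, bv40_a5b, bv41_a5b, bv42_a5b]; norm_num) (by simp only [bv00_a5b, bv01_a5b, bv02_a5b, bv10_a5b, bv11_a5b, bv12_a5b,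 bv20_a5b, bv21_a5b, bv22_a5b, bv30_a5b, bv31_a5b, bv32_a5b, bv40_a5b, bv41_a5b, bv42_a5b]; norm_num) (by simp only [bv00_a5b, bv01_a5b, bv02_a5b, bv10_a5b, bv11_a5b, bv12_a5b, bv20_a5b, bv21_a5b, bv22_a5b, bv30_a5b, bv31_a5b, bv32_a5b, bv40_a5b, bv41_a5b, bv42_a5b]; norm_num)
  refine (cos_up_a5b (by rw [abs_of_nonneg] <;> norm_num)).trans ?_
  rw [abs_of_nonneg (by norm_num : (0 : ℝ) ≤ 4 / 5)]
  norm_num

private theorem le31_a5b : bang 3 1 ≤ (2 / 5 : ℝ) := by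
  show ∠ (pt (BV 2)) (pt (BV 3)) (pt (BV 1)) ≤ (2 / 5 : ℝ)
  refine le_a5b (BV 3) (BV 2) (BV 1) (C := 925 / 1000) (by norm_num) (by linarith [Real.pi_gt_three])
    (by norm_num) ?_ (by simp only [bv00_a5b, bv01_a5b, bv02_a5b, bv10_a5b, bv11_a5b, bv12_a5b, bv20_a5b, bv21_a5b, bv22_a5b, bv30_a5b, bv31_a5b, bv32_a5b, bv40_a5b, bv41_a5b, bv42_a5b]; norm_num) (by simp only [bv00_a5b, bv01_a5b, bv02_a5b, bv10_a5b, bv11_a5b, bv12_a5b, bv20_a5b, bv21_a5b, bv22_a5b, bv30_a5b, bv31_a5b, bv32_a5b, bv40_a5b, bv41_a5b, bv42_a5b]; norm_num) (by simp only [bv00_a5b, bv01_a5b, bv02_a5b, bv10_a5b, bv11_a5b, bv12_a5b, bv20_a5b, bv21_a5b, bv22_a5b, bv30_a5b, bv31_a5b, bv32_a5b, bv40_a5b, bv41_a5b, bv42_a5b]; norm_num) (by simp only [bv00_a5b, bv01_a5b, bv02_a5b, bv10_a5b, bv11_a5b, bv12_a5b, bv20_a5b, bv21_a5b, bv22_a5b, bv30_a5b, bv31_a5b, bv32_a5b,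 bv40_a5b, bv41_a5b, bv42_a5b]; norm_num)
  refine (cos_up_a5b (by rw [abs_of_nonneg] <;> norm_num)).trans ?_
  rw [abs_of_nonneg (by norm_num : (0 : ℝ) ≤ 2 / 5)]
  norm_num

private theorem le42_a5b : bang 4 2 ≤ (1 : ℝ) := by
  show ∠ (pt (BV 1)) (pt (BV 3)) (pt (BV 4)) ≤ (1 : ℝ)
  refine le_a5b (BV 3) (BV 1) (BV 4) (C := 56 / 100) (by norm_num) (by linarith [Real.pi_gt_three])
    (by norm_num) ?_ (by simp only [bv00_a5b, bv01_a5b, bv02_a5b, bv10_a5b, bv11_a5b, bv12_a5b, bv20_a5b, bv21_a5b, bv22_a5b, bv30_a5b, bv31_a5b, bv32_a5b, bv40_a5b, bv41_a5b, bv42_a5b]; norm_num) (by simp only [bv00_a5b, bv01_a5b, bv02_a5b, bv10_a5b, bv11_a5b, bv12_a5b, bv20_a5b, bv21_a5b, bv22_a5b, bv30_a5b, bv31_a5b, bv32_a5b, bv40_a5b, bv41_a5b, bv42_a5b]; norm_num) (by simp only [bv00_a5b, bv01_a5b, bv02_a5b, bv10_a5b, bv11_a5b, bv12_a5b, bv20_a5b,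 bv21_a5b, bv22_a5b, bv30_a5b, bv31_a5b, bv32_a5b, bv40_a5b, bv41_a5b, bv42_a5b]; norm_num) (by simp only [bv00_a5b, bv01_a5b, bv02_a5b, bv10_a5b, bv11_a5b, bv12_a5b, bv20_a5b, bv21_a5b, bv22_a5b, bv30_a5b, bv31_a5b, bv32_a5b, bv40_a5b, bv41_a5b, bv42_a5b]; norm_num)
  refine (cos_up_a5b (by rw [abs_of_nonneg] <;> norm_num)).trans ?_
  rw [abs_of_nonneg (by norm_num : (0 : ℝ) ≤ 1)]
  norm_num

private theorem le51_a5b : bang 5 1 ≤ (1 : ℝ) := by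
  show ∠ (pt (BV 4)) (pt (BV 3)) (pt (BV 2)) ≤ (1 : ℝ)
  refine le_a5b (BV 3) (BV 4) (BV 2) (C := 56 / 100) (by norm_num) (by linarith [Real.pi_gt_three])
    (by norm_num) ?_ (by simp only [bv00_a5b, bv01_a5b, bv02_a5b, bv10_a5b, bv11_a5b, bv12_a5b, bv20_a5b, bv21_a5b, bv22_a5b, bv30_a5b, bv31_a5b, bv32_a5b, bv40_a5b, bv41_a5b, bv42_a5b]; norm_num) (by simp only [bv00_a5b, bv01_a5b, bv02_a5b, bv10_a5b, bv11_a5b, bv12_a5b, bv20_a5b, bv21_a5b, bv22_a5b, bv30_a5b, bv31_a5b, bv32_a5b, bv40_a5b, bv41_a5b, bv42_a5b]; norm_num) (by simp only [bv00_a5b, bv01_a5b, bv02_a5b, bv10_a5b, bv11_a5b, bv12_a5b, bv20_a5b, bv21_a5b, bv22_a5b, bv30_a5b, bv31_a5b, bv32_a5b, bv40_a5b, bv41_a5b, bv42_a5b]; norm_num) (by simp only [bv00_a5b, bv01_a5b, bv02_a5b, bv10_a5b, bv11_a5b, bv12_a5b, bv20_a5b, bv21_a5b, bv22_a5b, bv30_a5b, bv31_a5b, bv32_a5b,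 bv40_a5b, bv41_a5b, bv42_a5b]; norm_num)
  refine (cos_up_a5b (by rw [abs_of_nonneg] <;> norm_num)).trans ?_
  rw [abs_of_nonneg (by norm_num : (0 : ℝ) ≤ 1)]
  norm_num

/-- [DG-A5c] middle angles (radians: 1.2532, 1.2532, 1.3294) -/
theorem bang_mid : 6 / 5 ≤ bang 1 2 ∧ 6 / 5 ≤ bang 2 1 ∧ 13 / 10 ≤ bang 3 2 :=
  ⟨ge12_a5b, ge21_a5b, ge32_a5b⟩

/-- [DG-A5d] angles at `G` and `F` (radians: `G`: 0.1546, 0.1546, 0.6575, 0.6845; `F`: 0.2414,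
0.7494, 0.7538; lower bounds by `sin x ≤ x`) -/
theorem bang_small : 3 / 20 ≤ bang 1 1 ∧ 3 / 20 ≤ bang 2 2 ∧ 3 / 5 ≤ bang 4 1 ∧ 31 / 50 ≤ bang 5 2 ∧
    23 / 100 ≤ bang 3 1 ∧ 67 / 100 ≤ bang 4 2 ∧ 17 / 25 ≤ bang 5 1 :=
  ⟨ge11_a5b, ge22_a5b, ge41_a5b, ge52_a5b, ge31_a5b, ge42_a5b, ge51_a5b⟩

/-- [DG-A5e] upper bounds at `F` and `G` -/
theorem bang_upper : bang 1 1 ≤ 1 / 4 ∧ bang 2 2 ≤ 1 / 4 ∧ bang 4 1 ≤ 4 / 5 ∧ bang 5 2 ≤ 4 / 5 ∧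
    bang 3 1 ≤ 2 / 5 ∧ bang 4 2 ≤ 1 ∧ bang 5 1 ≤ 1 :=
  ⟨le11_a5b, le22_a5b, le41_a5b, le52_a5b, le31_a5b, le42_a5b, le51_a5b⟩

end

end QGd
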