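import Mathlib

/-! [DG-TM] the length of the output of a Turing machine (Mathlib's `FinTM2`) is at most the length of
the input plus a constant times the number of steps -/

namespace QGd

open Turing StateTransition

section

variable {K : Type} [DecidableEq K] {Γ : K → Type} {Λ σ : Type}

/-- number of pushes of a statement (upper bound) -/
def pushes : TM2.Stmt Γ Λ σ → ℕ
  | .push _ _ q => pushes q + 1
  | .peek _ _ q => pushes q
  | .pop _ _ q => pushes q
  | .load _ q => pushes q
  | .branch _ q₁ q₂ => pushes q₁ + pushes q₂
  | .goto _ => 0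
  | .halt => 0

private theorem stepAux_len (q : TM2.Stmt Γ Λ σ) (v : σ) (S : ∀ k, List (Γ k)) (k : K) :
    ((TM2.stepAux q v S).stk k).length ≤ (S k).length + pushes q := by
  induction q generalizing v S with
  | push k' f q ih =>
    simp only [TM2.stepAux, pushes]
    refine (ih v _).trans ?_
    by_cases h : k = k'
    · subst h; simp; omega
    · rw [Function.update_of_ne h]; omega
  | peek k' f q ih =>
    simp only [TM2.stepAux, pushes]
    exact ih _ _
  | pop k' f q ih =>
    simp only [TM2.stepAux, pushes]
    refine (ih _ _).trans ?_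
    by_cases h : k = k'
    · subst h; simp
    · rw [Function.update_of_ne h]
  | load a q ih =>
    simp only [TM2.stepAux, pushes]
    exact ih _ _
  | branch f q₁ q₂ ih₁ ih₂ =>
    simp only [TM2.stepAux, pushes]
    cases f v
    · simpa using (ih₂ v S).trans (by omega)
    · simpa using (ih₁ v S).trans (by omega)
  | goto f => simp [TM2.stepAux, pushes]
  | halt => simp [TM2.stepAux, pushes]

private theorem iter_none {α : Type} (f : α → Option α) (n : ℕ) :
    (flip bind f)^[n] (none : Option α) = none := by
  induction n with
  | zero => rfl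
  | succ n ih => rw [Function.iterate_succ_apply]; exact ih

private theorem steps_len (M : Λ → TM2.Stmt Γ Λ σ) (c : ℕ) (hc : ∀ l, pushes (M l) ≤ c) (k : K)
    (n : ℕ) : ∀ a b : TM2.Cfg Γ Λ σ, (flip bind (TM2.step M))^[n] (some a) = some b →
      (b.stk k).length ≤ (a.stk k).length + n * c := by
  induction n with
  | zero =>
    intro a b h
    simp only [Function.iterate_zero, id, Option.some.injEq] at h
    subst h; simp
  | succ n ih =>
    intro a b h
    rw [Function.iterate_succ_apply] at h
    rcases a with ⟨l, v, S⟩
    cases l with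
    | none =>
      have h1 : flip bind (TM2.step M) (some (⟨none, v, S⟩ : TM2.Cfg Γ Λ σ)) = none := rfl
      rw [h1, iter_none] at h
      cases h
    | some l =>
      have h1 : flip bind (TM2.step M) (some (⟨some l, v, S⟩ : TM2.Cfg Γ Λ σ)) =
        some (TM2.stepAux (M l) v S) := rfl
      rw [h1] at h
      have h2 := ih _ _ h
      have h3 := stepAux_len (M l) v S k
      have h4 := hc l
      have h5 : (n + 1) * c = n * c + c := by ring
      simp only at *
      omega

end

/-- The output of a machine which halts after at most `m` steps has at most `|input| + C m` symbols,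
with a constant `C` of the machine. -/
theorem exists_len (tm : FinTM2) : ∃ C : ℕ, ∀ (s : List (tm.Γ tm.k₀)) (w : List (tm.Γ tm.k₁))
    (m : ℕ), Nonempty (TM2OutputsInTime tm s (some w) m) → w.length ≤ s.length + C * m := by
  have := tm.ΛFin
  refine ⟨∑ l, pushes (tm.m l), ?_⟩
  rintro s w m ⟨⟨⟨n, hn⟩, hm⟩⟩
  have h := steps_len tm.m (∑ l, pushes (tm.m l))
    (fun l => Finset.single_le_sum (f := fun l => pushes (tm.m l)) (fun _ _ => Nat.zero_le _)
      (Finset.mem_univ l)) tm.k₁ n (initList tm s) (haltList tm w) hn
  have h1 : ((haltList tm w).stk tm.k₁).length = w.length := by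
    simp [haltList]
  have h2 : ((initList tm s).stk tm.k₁).length ≤ s.length := by
    unfold initList
    simp only
    by_cases hk : tm.k₁ = tm.k₀
    · rw [dif_pos hk]
      have : ∀ (k : tm.K) (hk : k = tm.k₀) (e : List (tm.Γ tm.k₀) = List (tm.Γ k)),
          (e.mp s : List (tm.Γ k)).length ≤ s.length := by
        intro k hk e
        subst hk
        exact le_rfl
      exact this _ hk _
    · rw [dif_neg hk]; simp
  have h3 : n * (∑ l, pushes (tm.m l)) ≤ (∑ l, pushes (tm.m l)) * m := by
    rw [mul_comm]; exact Nat.mul_le_mul_left _ hm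
  rw [h1] at h
  omega

end QGd
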