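import Pool.Agent.Lib_MP_6b5565_dg.R4

/-! [DG-R4b] the degree of the parameters of a run -/

namespace QGd

open EuclideanGeometry Polynomial

noncomputable section

private theorem DD_pos_r4b {h a b : Fin 3 → ℤ} (hD : DD h a b ≠ 0) : 0 < DD h a b := by
  have h1 : (0 : ℤ) ≤ DD h a b := by
    unfold DD
    positivity
  exact lt_of_le_of_ne h1 (Ne.symm hD)

private theorem IP_ne_r4b {h a b : Fin 3 → ℤ} (hD : DD h a b ≠ 0) :
    IP h a a ≠ 0 ∧ IP h b b ≠ 0 := by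
  have h1 := DD_pos_r4b hD
  rw [DD_eq] at h1
  constructor
  · intro h0
    rw [h0] at h1
    nlinarith [sq_nonneg (IP h a b)]
  · intro h0
    rw [h0] at h1
    nlinarith [sq_nonneg (IP h a b)]

/-- [DG-R4b] DEGREE OF A RUN. One of the parameters `lam 0, lam 1, lam n` is transcendental, or has
degree `m` with `2^|J| ≤ 4 m³`. -/
theorem run_degree (n : ℕ) (hn : 1 ≤ n) (h : Fin 3 → ℤ) (Y : ℕ → Fin 3 → ℤ) (x : ℕ → E3)
    (lam : ℕ → ℝ) (hlam : ∀ j ≤ n, 0 < lam j) (hx : ∀ j ≤ n, x j = pt h + lam j • (pt (Y j) - pt h))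
    (hD : ∀ j < n, DD h (Y j) (Y (j + 1)) ≠ 0)
    (hstr : ∀ j, 1 ≤ j → j < n → ∠ (x (j - 1)) (x j) (pt h) + ∠ (pt h) (x j) (x (j + 1)) = Real.pi)
    (J : Finset ℕ) (hJ : ∀ j ∈ J, j < n) (hc : ∀ j ∈ J, IP h (Y j) (Y (j + 1)) ≠ 0)
    (hp : ∀ j ∈ J, ∃ ℓ : ℕ, ℓ.Prime ∧ Odd (padicValInt ℓ (DD h (Y j) (Y (j + 1)))) ∧
      ∀ i < n, i ≠ j → ¬ (ℓ : ℤ) ∣ DD h (Y i) (Y (i + 1))) :
    ∃ j, (j = 0 ∨ j = 1 ∨ j = n) ∧
      (IsAlgebraic ℚ (lam j) → 2 ^ J.card ≤ 4 * (minpoly ℚ (lam j)).natDegree ^ 3) := by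
  by_cases a0 : IsAlgebraic ℚ (lam 0)
  swap
  · exact ⟨0, Or.inl rfl, fun h => absurd h a0⟩
  by_cases a1 : IsAlgebraic ℚ (lam 1)
  swap
  · exact ⟨1, Or.inr (Or.inl rfl), fun h => absurd h a1⟩
  by_cases an : IsAlgebraic ℚ (lam n)
  swap
  · exact ⟨n, Or.inr (Or.inr rfl), fun h => absurd h an⟩
  obtain ⟨w, hw, hl⟩ := run_linear n hn h Y x lam hlam hx hD hstr
  have Dpos : ∀ j < n, 0 < DD h (Y j) (Y (j + 1)) := fun j hj => DD_pos_r4b (hD j hj)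
  have IPn : ∀ j ≤ n, IP h (Y j) (Y j) ≠ 0 := by
    intro j hj
    rcases Nat.lt_or_ge j n with h1 | h1
    · exact (IP_ne_r4b (hD j h1)).1
    · have h2 := (IP_ne_r4b (hD (n - 1) (by omega))).2
      rw [Nat.sub_add_cancel hn] at h2
      rw [le_antisymm hj h1]
      exact h2
  obtain ⟨q, hq, hz⟩ := zz_prod h Y n IPn
  have low := degree_lower n (fun i => IP h (Y i) (Y (i + 1))) (fun i => DD h (Y i) (Y (i + 1)))
    Dpos J hJ hc hp q hq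
  have hz' := hz.symm
  change (q : ℂ) * ∏ i ∈ Finset.range n,
    (((fun i => IP h (Y i) (Y (i + 1))) i : ℂ) + isq ((fun i => DD h (Y i) (Y (i + 1))) i)) =
    zz h Y n at hz'
  rw [hz'] at low
  have l0 : 0 < lam 0 := hlam 0 (Nat.zero_le n)
  have l1 : 0 < lam 1 := hlam 1 hn
  have ln : 0 < lam n := hlam n le_rfl
  have inv : ∀ t : ℝ, IsAlgebraic ℚ t → IsAlgebraic ℚ (1 / t) := by
    intro t ht
    rw [one_div]
    exact ht.inv
  have r0 := hl 0 (Nat.zero_le n)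
  have r1 := hl 1 hn
  have rn := hl n le_rfl
  have z1 : zz h Y 1 = 1 * (((IP h (Y 0) (Y (0 + 1)) : ℤ) : ℂ) +
      (Real.sqrt (DD h (Y 0) (Y (0 + 1)) : ℤ) : ℂ) * Complex.I) /
        ((IP h (Y 0) (Y 0) : ℤ) : ℂ) := rfl
  have z0 : zz h Y 0 = 1 := rfl
  have up := degree_upper w (zz h Y n) (1 / lam 0) (1 / lam 1) (1 / lam n)
    ((IP h (Y 0) (Y (0 + 1)) : ℤ) : ℚ) ((IP h (Y 0) (Y 0) : ℤ) : ℚ)
    ((DD h (Y 0) (Y (0 + 1)) : ℤ) : ℚ)
    (((IP h (Y n) (Y n) : ℤ) : ℚ) / ((IP h (Y 0) (Y 0) : ℤ) : ℚ)) hw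
    (by exact_mod_cast IPn 0 (Nat.zero_le n)) (by exact_mod_cast Dpos 0 hn)
    (inv _ a0) (inv _ a1) (inv _ an)
    (by rw [r0, z0, one_mul])
    (by
      rw [r1, z1]
      push_cast
      rw [one_mul]) rn
    (by
      rw [zz_norm h Y n IPn]
      push_cast
      rfl)
  rw [degree_inv _ l0.ne' a0, degree_inv _ l1.ne' a1, degree_inv _ ln.ne' an] at up
  have key := low.trans up.2
  set d0 := (minpoly ℚ (lam 0)).natDegree with hd0
  set d1 := (minpoly ℚ (lam 1)).natDegree with hd1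
  set dn := (minpoly ℚ (lam n)).natDegree with hdn
  have bound : ∀ m : ℕ, d0 ≤ m → d1 ≤ m → dn ≤ m → 2 ^ J.card ≤ 4 * m ^ 3 := by
    intro m h1 h2 h3
    refine key.trans (Nat.mul_le_mul_left 4 ?_)
    calc d0 * d1 * dn ≤ m * m * m := Nat.mul_le_mul (Nat.mul_le_mul h1 h2) h3
      _ = m ^ 3 := by ring
  by_cases h01 : d1 ≤ d0
  · by_cases h0n : dn ≤ d0
    · exact ⟨0, Or.inl rfl, fun _ => bound d0 le_rfl h01 h0n⟩
    · exact ⟨n, Or.inr (Or.inr rfl), fun _ => bound dn (by omega) (by omega) le_rfl⟩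
  · by_cases h1n : dn ≤ d1
    · exact ⟨1, Or.inr (Or.inl rfl), fun _ => bound d1 (by omega) le_rfl h1n⟩
    · exact ⟨n, Or.inr (Or.inr rfl), fun _ => bound dn (by omega) (by omega) le_rfl⟩

end

end QGd
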