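import Pool.Agent.Lib_MP_6b5565_dg.Y2c

/-! [DG-Y2d] development of an arc between two vertices -/

namespace QGd

open EuclideanGeometry Polynomial ComplexConjugate

noncomputable section

/-- the number `DD` of a face is positive -/
private theorem DD_face_pos (I : IPoly) (d : I.D) :
    0 < DD (I.c (I.tail d)) (I.c (I.tail (I.nxt d))) (I.c (I.tail (I.nxt (I.nxt d)))) := by
  obtain ⟨v, h1, h2, h3⟩ := I.exists_off d
  have h := I.strict d v h1 h2 h3
  simp only [det3] at h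
  simp only [DD, icrs, Matrix.cons_val_zero, Matrix.cons_val_one, Matrix.cons_val_two,
    Matrix.head_cons, Matrix.tail_cons]
  generalize hx : (I.c (I.tail (I.nxt d)) 0 - I.c (I.tail d) 0) = x0 at h ⊢
  generalize hx : (I.c (I.tail (I.nxt d)) 1 - I.c (I.tail d) 1) = x1 at h ⊢
  generalize hx : (I.c (I.tail (I.nxt d)) 2 - I.c (I.tail d) 2) = x2 at h ⊢
  generalize hx : (I.c (I.tail (I.nxt (I.nxt d))) 0 - I.c (I.tail d) 0) = y0 at h ⊢
  generalize hx : (I.c (I.tail (I.nxt (I.nxt d))) 1 - I.c (I.tail d) 1) = y1 at h ⊢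
  generalize hx : (I.c (I.tail (I.nxt (I.nxt d))) 2 - I.c (I.tail d) 2) = y2 at h ⊢
  generalize hx : (I.c v 0 - I.c (I.tail d) 0) = z0 at h
  generalize hx : (I.c v 1 - I.c (I.tail d) 1) = z1 at h
  generalize hx : (I.c v 2 - I.c (I.tail d) 2) = z2 at h
  by_contra hc
  have e0 : 0 ≤ (x1 * y2 - x2 * y1) ^ 2 := sq_nonneg _
  have e1 : 0 ≤ (x2 * y0 - x0 * y2) ^ 2 := sq_nonneg _
  have e2 : 0 ≤ (x0 * y1 - x1 * y0) ^ 2 := sq_nonneg _
  have f0 : x1 * y2 - x2 * y1 = 0 := pow_eq_zero_iff (two_ne_zero) |>.1 (by linarith)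
  have f1 : x2 * y0 - x0 * y2 = 0 := pow_eq_zero_iff (two_ne_zero) |>.1 (by linarith)
  have f2 : x0 * y1 - x1 * y0 = 0 := pow_eq_zero_iff (two_ne_zero) |>.1 (by linarith)
  have h4 : x0 * (y1 * z2 - y2 * z1) - x1 * (y0 * z2 - y2 * z0) + x2 * (y0 * z1 - y1 * z0) =
      (x1 * y2 - x2 * y1) * z0 + (x2 * y0 - x0 * y2) * z1 + (x0 * y1 - x1 * y0) * z2 := by ring
  rw [h4, f0, f1, f2] at h
  simp at h

/-- a number in the field of the faces has real conjugates -/
private theorem fld_real (I : IPoly) (lam : ℝ) (h : (lam : ℂ) ∈ I.fld) :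
    IsAlgebraic ℚ lam ∧ ∀ z : ℂ, aeval z (minpoly ℚ lam) = 0 → z.im = 0 := by
  classical
  let e := Fintype.equivFin I.D
  let g : I.D → ℤ := fun d =>
    DD (I.c (I.tail d)) (I.c (I.tail (I.nxt d))) (I.c (I.tail (I.nxt (I.nxt d))))
  refine cm_real (Fintype.card I.D)
    (fun k => if hk : k < Fintype.card I.D then g (e.symm ⟨k, hk⟩) else 1) ?_ lam ?_
  · intro k hk
    simp only [hk, dif_pos]
    exact DD_face_pos I _
  · refine IntermediateField.adjoin.mono ℚ _ _ ?_ h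
    rintro _ ⟨d, rfl⟩
    refine ⟨(e d : ℕ), (e d).2, ?_⟩
    simp only [(e d).2, dif_pos, Fin.eta, Equiv.symm_apply_apply]
    rfl

/-- [DG-Y2e] REALITY. On a simple closed quasigeodesic which visits a vertex every crossing parameter
is algebraic, with real conjugates. -/
theorem IPoly.real_conj (I : IPoly) {N : ℕ} [NeZero N] (γ : SCQ I.poly N)
    (hv : ∃ i v, γ.x i = I.poly.pos v) (i : ZMod N) (d : I.D) (lam : ℝ)
    (hc : I.poly.CrossAt (γ.x (i - 1)) (γ.x i) (γ.x (i + 1)) d)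
    (hx : γ.x i = AffineMap.lineMap (I.poly.A d) (I.poly.B d) lam) :
    IsAlgebraic ℚ lam ∧ ∀ z : ℂ, aeval z (minpoly ℚ lam) = 0 → z.im = 0 := by
  classical
  refine fld_real I lam ?_
  obtain ⟨i0, v0, h0⟩ := hv
  have E1 : ∃ k : ℕ, ∃ v, γ.x (i + (k : ZMod N)) = I.poly.pos v := by
    refine ⟨(i0 - i).val, v0, ?_⟩
    rw [ZMod.natCast_val, ZMod.cast_id', id, add_sub_cancel, h0]
  have E2 : ∃ k : ℕ, ∃ v, γ.x (i - (k : ZMod N)) = I.poly.pos v := by
    refine ⟨(i - i0).val, v0, ?_⟩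
    rw [ZMod.natCast_val, ZMod.cast_id', id, sub_sub_cancel, h0]
  have hnv : I.poly.NV (γ.x i) := I.poly.NV_of_oseg hc.1
  obtain ⟨m2, hm2, min2⟩ : ∃ m2 : ℕ, (∃ v, γ.x (i + (m2 : ZMod N)) = I.poly.pos v) ∧
      ∀ k < m2, ¬ ∃ v, γ.x (i + (k : ZMod N)) = I.poly.pos v :=
    ⟨Nat.find E1, Nat.find_spec E1, fun k hk => Nat.find_min E1 hk⟩
  obtain ⟨m1, hm1, min1⟩ : ∃ m1 : ℕ, (∃ v, γ.x (i - (m1 : ZMod N)) = I.poly.pos v) ∧
      ∀ k < m1, ¬ ∃ v, γ.x (i - (k : ZMod N)) = I.poly.pos v :=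
    ⟨Nat.find E2, Nat.find_spec E2, fun k hk => Nat.find_min E2 hk⟩
  have p2 : 0 < m2 := by
    rcases Nat.eq_zero_or_pos m2 with h | h
    · obtain ⟨v, hv⟩ := hm2
      rw [h, Nat.cast_zero, add_zero] at hv
      exact absurd hv (hnv v)
    · exact h
  have p1 : 0 < m1 := by
    rcases Nat.eq_zero_or_pos m1 with h | h
    · obtain ⟨v, hv⟩ := hm1
      rw [h, Nat.cast_zero, sub_zero] at hv
      exact absurd hv (hnv v)
    · exact h
  set y : ℕ → E3 := fun j => γ.x (i - (m1 : ZMod N) + (j : ZMod N)) with hy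
  have hym : y m1 = γ.x i := by
    show γ.x _ = γ.x i
    rw [sub_add_cancel]
  have hnvj : ∀ j, 0 < j → j < m1 + m2 → ∀ v, y j ≠ I.poly.pos v := by
    intro j hj hj' v hv
    rcases lt_or_ge j m1 with h | h
    · refine min1 (m1 - j) (by omega) ⟨v, ?_⟩
      rw [← hv]
      show γ.x _ = γ.x _
      rw [Nat.cast_sub h.le]
      congr 1
      ring
    · refine min2 (j - m1) (by omega) ⟨v, ?_⟩
      rw [← hv]
      show γ.x _ = γ.x _
      rw [Nat.cast_sub h]
      congr 1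
      ring
  have key : ∀ j, ∃ (e : I.D) (l : ℝ), (0 < j → j < m1 + m2 →
      I.poly.CrossAt (y (j - 1)) (y j) (y (j + 1)) e ∧
      y j = AffineMap.lineMap (I.poly.A e) (I.poly.B e) l) ∧ (j = m1 → l = lam) := by
    intro j
    have q1 : ∀ hj : 0 < j, y (j - 1) = γ.x (i - (m1 : ZMod N) + (j : ZMod N) - 1) := by
      intro hj
      show γ.x _ = γ.x _
      rw [Nat.cast_sub hj, Nat.cast_one]
      congr 1
      ring
    have q2 : y (j + 1) = γ.x (i - (m1 : ZMod N) + (j : ZMod N) + 1) := by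
      show γ.x _ = γ.x _
      rw [Nat.cast_add, Nat.cast_one]
      congr 1
      ring
    by_cases hjm : j = m1
    · subst hjm
      refine ⟨d, lam, fun hj _ => ⟨?_, ?_⟩, fun _ => rfl⟩
      · rw [q1 hj, q2, hym, sub_add_cancel]
        exact hc
      · rw [hym]
        exact hx
    · by_cases hj : 0 < j ∧ j < m1 + m2
      · rcases γ.node (i - (m1 : ZMod N) + (j : ZMod N)) with ⟨e, he⟩ | ⟨v, α, hv, -⟩
        · have h5 := he.1
          unfold Poly.oseg at h5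
          rw [openSegment_eq_image_lineMap] at h5
          obtain ⟨l, -, hl⟩ := h5
          refine ⟨e, l, fun hj _ => ⟨?_, ?_⟩, fun h => absurd h hjm⟩
          · rw [q1 hj, q2]
            exact he
          · exact hl.symm
        · exact absurd hv (hnvj j hj.1 hj.2 v)
      · exact ⟨d, lam, fun h1 h2 => absurd ⟨h1, h2⟩ hj, fun _ => rfl⟩
  choose e l hel hl using key
  have h0' : ∃ v, y 0 = I.poly.pos v := by
    obtain ⟨v, hv⟩ := hm1
    refine ⟨v, ?_⟩
    show γ.x _ = _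
    rw [Nat.cast_zero, add_zero, hv]
  have h1' : ∃ v, y (m1 + m2) = I.poly.pos v := by
    obtain ⟨v, hv⟩ := hm2
    refine ⟨v, ?_⟩
    show γ.x _ = _
    rw [← hv, Nat.cast_add]
    congr 1
    ring
  have hfin := I.lam_mem (m1 + m2) (by omega) y e l h0' h1' (fun j hj hj' => hel j hj hj') m1 p1
    (by omega)
  rw [hl m1 rfl] at hfin
  exact hfin

end

end QGd
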