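import Pool.Agent.Lib_MP_6b5565_dg.V2c
import Pool.Agent.Lib_MP_6b5565_dg.R4b
import Pool.Agent.Lib_MP_6b5565_dg.Y2d

/-! [DG-V3] from the edge parameter to the coordinates of the endpoint -/

namespace QGd

open EuclideanGeometry Polynomial

noncomputable section

private theorem pt_coord_v3 (a : Fin 3 → ℤ) (j : Fin 3) : pt a j = (a j : ℝ) := by
  fin_cases j <;> rfl

/-- [DG-V3a] some coordinate of the two ends is different; then the coordinate of the crossing point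
is `a + m * lam` with integers `a`, `m ≠ 0` -/
theorem exists_coord (I : IPoly) (d : I.D) (lam : ℝ) : ∃ (j : Fin 3) (a m : ℤ), m ≠ 0 ∧
    (AffineMap.lineMap (pt (I.c (I.tail d))) (pt (I.c (I.tail (I.nxt d)))) lam : E3) j =
      a + m * lam := by
  have h1 : I.c (I.tail d) ≠ I.c (I.tail (I.nxt d)) := by
    intro h
    have h2 := (I.indep d).injective
    have h3 : (0 : Fin 3) = 1 := by
      apply h2
      show I.rp (I.tail d) = I.rp (I.tail (I.nxt d))
      unfold IPoly.rp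
      rw [h]
    exact absurd h3 (by decide)
  obtain ⟨j, hj⟩ := Function.ne_iff.mp h1
  refine ⟨j, I.c (I.tail d) j, I.c (I.tail (I.nxt d)) j - I.c (I.tail d) j,
    sub_ne_zero.mpr (Ne.symm hj), ?_⟩
  rw [AffineMap.lineMap_apply]
  simp only [vsub_eq_sub, vadd_eq_add, PiLp.add_apply, PiLp.smul_apply, PiLp.sub_apply,
    smul_eq_mul, pt_coord_v3]
  push_cast
  ring

/-- [DG-V3b] degree form -/
theorem hardDeg_of_hardS (I : IPoly) (b : ℕ) (h : I.HardS (b + 1)) : I.HardDeg b := by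
  intro N hN γ
  obtain ⟨N', hN', γ', hγ⟩ := γ.reduce
  obtain ⟨i, d, lam, hc, hx, halg⟩ := h N' γ'
  obtain ⟨j, a, m, hm, hco⟩ := exists_coord I d lam
  obtain ⟨k, hk⟩ := hγ i
  refine ⟨k, j, ?_⟩
  intro r s hs F hF hr
  rw [← hk, hx, hco] at hr
  have e : ((r : ℝ) + (s : ℝ) * ((a : ℝ) + (m : ℝ) * lam)) =
      ((r + s * a : ℚ) : ℝ) + ((s * m : ℚ) : ℝ) * lam := by
    push_cast
    ring
  rw [e] at hr
  have hsm : (s * m : ℚ) ≠ 0 := mul_ne_zero hs (by exact_mod_cast hm)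
  obtain ⟨h1, h2⟩ := natDegree_ge lam _ _ hsm F hF hr
  exact lt_of_lt_of_le (Nat.lt_of_succ_le (halg h1)) h2

/-- [DG-V3c] number of nonzero coefficients; `γ` visits a vertex -/
theorem hard_of_hardS (I : IPoly) (b : ℕ) (h : I.HardS (2 * b + 1))
    (hv : ∀ (N : ℕ) [NeZero N] (γ : SCQ I.poly N), ∃ i v, γ.x i = I.poly.pos v) : I.Hard b := by
  intro N hN γ
  obtain ⟨N', hN', γ', hγ⟩ := γ.reduce
  obtain ⟨i, d, lam, hc, hx, halg⟩ := h N' γ'
  obtain ⟨j, a, m, hm, hco⟩ := exists_coord I d lam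
  obtain ⟨k, hk⟩ := hγ i
  refine ⟨k, j, ?_⟩
  intro r s hs F hF hr
  have hx' : γ'.x i = AffineMap.lineMap (I.poly.A d) (I.poly.B d) lam := by
    have e1 : I.poly.B d = pt (I.c (I.tail (I.nxt d))) := by
      show pt (I.c (I.tail (I.inv d))) = _
      rw [I.tail_inv]
    rw [e1]
    exact hx
  obtain ⟨ha, hreal⟩ := I.real_conj γ' (hv N' γ') i d lam hc hx'
  rw [← hk, hx, hco] at hr
  have e : ((r : ℝ) + (s : ℝ) * ((a : ℝ) + (m : ℝ) * lam)) =
      ((r + s * a : ℚ) : ℝ) + ((s * m : ℚ) : ℝ) * lam := by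
    push_cast
    ring
  rw [e] at hr
  have hsm : (s * m : ℚ) ≠ 0 := mul_ne_zero hs (by exact_mod_cast hm)
  obtain ⟨h1, h2, h3⟩ := real_affine lam (r + s * a : ℚ) (s * m : ℚ) hsm ha hreal
  have h4 := support_card_ge _ h1 h3 F hF hr
  rw [h2] at h4
  have h5 := halg ha
  omega

end

end QGd
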