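import Pool.Agent.Lib_MP_6b5565_dg.Z1c
import Pool.Agent.Lib_MP_6b5565_dg.V3

/-! [DG-Z2] the theorem -/

namespace QGd

private theorem HardS_mono_z2 {I : IPoly} {b b' : ℕ} (hb : b' ≤ b) (h : I.HardS b) :
    I.HardS b' := by
  intro N _ γ
  obtain ⟨i, d, lam, h1, h2, h3⟩ := h N γ
  exact ⟨i, d, lam, h1, h2, fun ha => hb.trans (h3 ha)⟩

/-- [DG-Z2a] degree form -/
theorem main_deg (k : ℕ) : ∃ I : IPoly, I.HardDeg (I.bits ^ k) := by
  obtain ⟨K, M, hM⟩ := main_S k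
  exact ⟨M.I, hardDeg_of_hardS M.I _ (HardS_mono_z2 (by omega) hM)⟩

/-- [DG-Z2b] MAIN THEOREM: number of nonzero coefficients -/
theorem main (k : ℕ) : ∃ I : IPoly, I.Hard (I.bits ^ k) := by
  obtain ⟨K, M, hM⟩ := main_S k
  refine ⟨M.I, hard_of_hardS M.I _ hM ?_⟩
  intro N _ γ
  obtain ⟨i, b, hb⟩ := visits_base (M := M) γ
  exact ⟨i, _, hb⟩

end QGd
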