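import Pool.Agent.Lib_MP_6b5565_dg.Z3
import Pool.Agent.Lib_MP_6b5565_dg.Z2
import Pool.Agent.Lib_MP_6b5565_dg.TM

/-! [DG-Alg] no Turing machine constructs a simple closed quasigeodesic in polynomial time -/

namespace QGd

open Polynomial Turing

/-- The word `w`, read with the output convention `read` (`read w i j` is the integer polynomial given
for the coordinate `j` of the endpoint number `i`), is correct for the polyhedron `I`: there is a
simple closed quasigeodesic with segment endpoints `x 0, ..., x (N-1)` such that for every endpoint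
`x i` and every coordinate the polynomial is nonzero and vanishes at this coordinate, or at
`r + s * x i j` for some rationals `r` and `s ≠ 0` (for example at the parameter of the point on its
edge). -/
def Correct (I : IPoly) {Γ : Type} (read : List Γ → ℕ → Fin 3 → ℤ[X]) (w : List Γ) : Prop :=
  ∃ (N : ℕ) (_ : NeZero N) (γ : Desc I.poly N), ∀ (i : ZMod N) (j : Fin 3),
    read w i.val j ≠ 0 ∧
      ∃ r s : ℚ, s ≠ 0 ∧ aeval ((r : ℝ) + (s : ℝ) * γ.x i j) (read w i.val j) = 0

private theorem poly_le (p : ℕ[X]) : ∃ m : ℕ, ∀ x y : ℕ, x ≤ y → 2 ≤ y → p.eval x ≤ y ^ m := by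
  induction p using Polynomial.induction_on' with
  | add p q hp hq =>
    obtain ⟨m, hm⟩ := hp
    obtain ⟨m', hm'⟩ := hq
    refine ⟨max m m' + 1, fun x y hxy hy => ?_⟩
    have h1 := hm x y hxy hy
    have h2 := hm' x y hxy hy
    have h3 : y ^ m ≤ y ^ max m m' := Nat.pow_le_pow_right (by omega) (le_max_left _ _)
    have h4 : y ^ m' ≤ y ^ max m m' := Nat.pow_le_pow_right (by omega) (le_max_right _ _)
    rw [eval_add, pow_succ]
    nlinarith
  | monomial n a =>
    refine ⟨a + n, fun x y hxy hy => ?_⟩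
    rw [eval_monomial, pow_add]
    have h1 : a ≤ y ^ a := (Nat.lt_two_pow_self).le.trans (Nat.pow_le_pow_left hy a)
    exact Nat.mul_le_mul h1 (Nat.pow_le_pow_left hxy n)

private theorem two_le_bits (I : IPoly) : 2 ≤ I.bits := by
  have h1 : ∀ v : I.V, 1 ≤ ∑ j : Fin 3, (1 + (I.c v j).natAbs.size) := by
    intro v
    rw [Fin.sum_univ_three]; omega
  have h2 : Fintype.card I.V ≤ ∑ v, ∑ j : Fin 3, (1 + (I.c v j).natAbs.size) := by
    calc Fintype.card I.V = ∑ _v : I.V, 1 := by simp
      _ ≤ _ := Finset.sum_le_sum fun v _ => h1 v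
  have h3 := I.four
  unfold IPoly.bits
  omega

/-- NO POLYNOMIAL TIME MACHINE. -/
theorem no_machine (tm : FinTM2) (p : ℕ[X]) (enc : IPoly → List (tm.Γ tm.k₀)) (c : ℕ)
    (henc : ∀ I, (enc I).length ≤ (I.bits + 2) ^ c)
    (read : List (tm.Γ tm.k₁) → ℕ → Fin 3 → ℤ[X])
    (hread : ∀ w i j, (read w i j).support.card ≤ w.length) :
    ¬ ∀ I : IPoly, ∃ w, Nonempty (TM2OutputsInTime tm (enc I) (some w) (p.eval (enc I).length)) ∧
      Correct I read w := by
  intro hall
  obtain ⟨C, hC⟩ := exists_len tm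
  obtain ⟨m, hm⟩ := poly_le p
  obtain ⟨I, hI⟩ := main (2 * (c + 1) * (C + m + 2))
  obtain ⟨w, hw, N, _, γ, hγ⟩ := hall I
  have h1 := hC _ _ _ hw
  have hb := two_le_bits I
  have hX : (enc I).length ≤ (I.bits + 2) ^ (c + 1) :=
    (henc I).trans (Nat.pow_le_pow_right (by omega) (by omega))
  have hX2 : 2 ≤ (I.bits + 2) ^ (c + 1) := by
    calc 2 ≤ (I.bits + 2) ^ 1 := by rw [pow_one]; omega
      _ ≤ _ := Nat.pow_le_pow_right (by omega) (by omega)
  have h2 := hm _ _ hX hX2
  set X := (I.bits + 2) ^ (c + 1) with hXd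
  have h3 : w.length ≤ X ^ (C + m + 2) := by
    have a1 : C ≤ X ^ C := (Nat.lt_two_pow_self).le.trans (Nat.pow_le_pow_left hX2 C)
    have a2 : C * p.eval (enc I).length ≤ X ^ (C + m) := by
      rw [pow_add]; exact Nat.mul_le_mul a1 h2
    have a3 : X ≤ X ^ (C + m + 1) := by
      calc X = X ^ 1 := (pow_one X).symm
        _ ≤ _ := Nat.pow_le_pow_right (by omega) (by omega)
    have a4 : X ^ (C + m) ≤ X ^ (C + m + 1) := Nat.pow_le_pow_right (by omega) (by omega)
    have a5 : X ^ (C + m + 2) = X ^ (C + m + 1) * X := pow_succ _ _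
    rw [a5]
    nlinarith
  have h4 : X ≤ I.bits ^ (2 * (c + 1)) := by
    rw [hXd, pow_mul]
    refine Nat.pow_le_pow_left ?_ _
    rw [pow_two]; nlinarith
  have h5 : w.length ≤ I.bits ^ (2 * (c + 1) * (C + m + 2)) := by
    rw [pow_mul]
    exact h3.trans (Nat.pow_le_pow_left h4 _)
  obtain ⟨i, j, hij⟩ := hI N γ
  obtain ⟨h6, r, s, hs, h7⟩ := hγ i j
  have h8 := hij r s hs (read w i.val j) h6 h7
  have h9 := hread w i.val j
  omega

end QGd
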