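import Pool.Agent.Lib_MP_6b5565_dg.Stmt

/-! # Integer quantities of a triangle -/

namespace QGd

/-- cross product of integer vectors -/
def icrs (a b : Fin 3 → ℤ) : Fin 3 → ℤ :=
  ![a 1 * b 2 - a 2 * b 1, a 2 * b 0 - a 0 * b 2, a 0 * b 1 - a 1 * b 0]

/-- `|(a - h) × (b - h)|²` -/
def DD (h a b : Fin 3 → ℤ) : ℤ :=
  let v := icrs (fun j => a j - h j) (fun j => b j - h j)
  v 0 ^ 2 + v 1 ^ 2 + v 2 ^ 2

/-- `⟨a - h, b - h⟩` -/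
def IP (h a b : Fin 3 → ℤ) : ℤ :=
  (a 0 - h 0) * (b 0 - h 0) + (a 1 - h 1) * (b 1 - h 1) + (a 2 - h 2) * (b 2 - h 2)

end QGd
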