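import Pool.Agent.Lib_MP_6b5565_dg.Defs

/-! [DG-B1] combinatorial and affine consequences of `IPoly.strict` -/

namespace QGd

open scoped BigOperators
open EuclideanGeometry

noncomputable section

/-- determinant of three real vectors of `ℝ³` -/
def rdet (a b c : E3) : ℝ :=
  a 0 * (b 1 * c 2 - b 2 * c 1) - a 1 * (b 0 * c 2 - b 2 * c 0) + a 2 * (b 0 * c 1 - b 1 * c 0)

/-- cross product of `ℝ³` -/
def crs (a b : E3) : E3 := !₂[a 1 * b 2 - a 2 * b 1, a 2 * b 0 - a 0 * b 2, a 0 * b 1 - a 1 * b 0]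

theorem rdet_eq_inner (a b c : E3) : rdet a b c = inner ℝ (crs a b) c := by
  simp only [rdet, crs, PiLp.inner_apply, Fin.sum_univ_three]
  simp
  ring

namespace IPoly

variable (I : IPoly)

/-- real position of a vertex -/
def rp (v : I.V) : E3 := pt (I.c v)

/-- [DG-B1a] real form of `strict` -/
theorem rstrict (d : I.D) (v : I.V) (h1 : v ≠ I.tail d) (h2 : v ≠ I.tail (I.nxt d))
    (h3 : v ≠ I.tail (I.nxt (I.nxt d))) :
    rdet (I.rp (I.tail (I.nxt d)) - I.rp (I.tail d))
      (I.rp (I.tail (I.nxt (I.nxt d))) - I.rp (I.tail d)) (I.rp v - I.rp (I.tail d)) < 0 := by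
  have h := I.strict d v h1 h2 h3
  have h' : ((det3 (fun j => I.c (I.tail (I.nxt d)) j - I.c (I.tail d) j)
      (fun j => I.c (I.tail (I.nxt (I.nxt d))) j - I.c (I.tail d) j)
      (fun j => I.c v j - I.c (I.tail d) j) : ℤ) : ℝ) < 0 := by exact_mod_cast h
  have e : rdet (I.rp (I.tail (I.nxt d)) - I.rp (I.tail d))
      (I.rp (I.tail (I.nxt (I.nxt d))) - I.rp (I.tail d)) (I.rp v - I.rp (I.tail d)) =
      ((det3 (fun j => I.c (I.tail (I.nxt d)) j - I.c (I.tail d) j)
      (fun j => I.c (I.tail (I.nxt (I.nxt d))) j - I.c (I.tail d) j)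
      (fun j => I.c v j - I.c (I.tail d) j) : ℤ) : ℝ) := by
    simp [rdet, det3, rp, pt]
  rw [e]
  exact h'

/-- [DG-B1b] there is a vertex outside the face (`four`) -/
theorem exists_off (d : I.D) : ∃ v, v ≠ I.tail d ∧ v ≠ I.tail (I.nxt d) ∧
    v ≠ I.tail (I.nxt (I.nxt d)) := by
  by_contra hcon
  push Not at hcon
  have h1 : (Finset.univ : Finset I.V) ⊆
      {I.tail d, I.tail (I.nxt d), I.tail (I.nxt (I.nxt d))} := by
    intro v _
    simp only [Finset.mem_insert, Finset.mem_singleton]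
    by_cases ha : v = I.tail d
    · exact Or.inl ha
    · by_cases hb : v = I.tail (I.nxt d)
      · exact Or.inr (Or.inl hb)
      · exact Or.inr (Or.inr (hcon v ha hb))
  have h2 := Finset.card_le_card h1
  have h3 : ({I.tail d, I.tail (I.nxt d), I.tail (I.nxt (I.nxt d))} : Finset I.V).card ≤ 3 :=
    Finset.card_le_three
  have h4 := I.four
  rw [Finset.card_univ] at h2
  omega

private theorem b1_ne (d : I.D) : I.tail d ≠ I.tail (I.nxt d) ∧
    I.tail d ≠ I.tail (I.nxt (I.nxt d)) ∧ I.tail (I.nxt d) ≠ I.tail (I.nxt (I.nxt d)) := by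
  obtain ⟨v, h1, h2, h3⟩ := I.exists_off d
  have h := I.rstrict d v h1 h2 h3
  refine ⟨fun e => ?_, fun e => ?_, fun e => ?_⟩
  · rw [← e] at h
    simp [rdet] at h
  · rw [← e] at h
    simp [rdet] at h
  · rw [← e] at h
    have : rdet (I.rp (I.tail (I.nxt d)) - I.rp (I.tail d))
      (I.rp (I.tail (I.nxt d)) - I.rp (I.tail d)) (I.rp v - I.rp (I.tail d)) = 0 := by
      unfold rdet
      ring
    linarith

private theorem b1_same (d e : I.D) (h1 : I.tail e = I.tail d)
    (h2 : ({I.tail (I.nxt e), I.tail (I.nxt (I.nxt e))} : Finset I.V) =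
      {I.tail (I.nxt d), I.tail (I.nxt (I.nxt d))}) : e = d := by
  have hm : I.tail (I.nxt e) ∈ ({I.tail (I.nxt d), I.tail (I.nxt (I.nxt d))} : Finset I.V) := by
    rw [← h2]
    simp
  simp only [Finset.mem_insert, Finset.mem_singleton] at hm
  rcases hm with h3 | h3
  · exact I.edge_inj e d h1 (by rw [I.tail_inv, I.tail_inv, h3])
  · -- opposite order
    have hm2 : I.tail (I.nxt d) ∈ ({I.tail (I.nxt e), I.tail (I.nxt (I.nxt e))} : Finset I.V) := by
      rw [h2]
      simp
    simp only [Finset.mem_insert, Finset.mem_singleton] at hm2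
    have h4 : I.tail (I.nxt (I.nxt e)) = I.tail (I.nxt d) := by
      rcases hm2 with h5 | h5
      · exact absurd (h5.trans h3) (I.b1_ne d).2.2
      · exact h5.symm
    obtain ⟨v, g1, g2, g3⟩ := I.exists_off d
    have k1 := I.rstrict d v g1 g2 g3
    have k2 := I.rstrict e v (by rw [h1]; exact g1) (by rw [h3]; exact g3) (by rw [h4]; exact g2)
    rw [h1, h3, h4] at k2
    have k3 : rdet (I.rp (I.tail (I.nxt (I.nxt d))) - I.rp (I.tail d))
        (I.rp (I.tail (I.nxt d)) - I.rp (I.tail d)) (I.rp v - I.rp (I.tail d)) =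
        -rdet (I.rp (I.tail (I.nxt d)) - I.rp (I.tail d))
        (I.rp (I.tail (I.nxt (I.nxt d))) - I.rp (I.tail d)) (I.rp v - I.rp (I.tail d)) := by
      unfold rdet
      ring
    linarith

/-- [DG-B1c] equal vertex sets: after rotating `d'` they start at the same vertex; same order gives
`d = d'` by `edge_inj`, opposite order contradicts `rstrict` at a vertex off the face (the two
determinants have opposite signs). -/
theorem face_inj (d d' : I.D) (h : ({I.tail d, I.tail (I.nxt d), I.tail (I.nxt (I.nxt d))} :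
      Finset I.V) = {I.tail d', I.tail (I.nxt d'), I.tail (I.nxt (I.nxt d'))}) :
    d' = d ∨ d' = I.nxt d ∨ d' = I.nxt (I.nxt d) := by
  classical
  -- the two other vertices, after deleting the first one
  have er : ∀ a b c : I.V, a ≠ b → a ≠ c → ({a, b, c} : Finset I.V).erase a = {b, c} := by
    intro a b c h1 h2
    refine Finset.erase_insert ?_
    simp only [Finset.mem_insert, Finset.mem_singleton, not_or]
    exact ⟨h1, h2⟩
  have key : ∀ e : I.D, I.tail e = I.tail d →
      ({I.tail e, I.tail (I.nxt e), I.tail (I.nxt (I.nxt e))} : Finset I.V) =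
        {I.tail d, I.tail (I.nxt d), I.tail (I.nxt (I.nxt d))} → e = d := by
    intro e h1 h2
    refine I.b1_same d e h1 ?_
    have h3 := er (I.tail e) (I.tail (I.nxt e)) (I.tail (I.nxt (I.nxt e))) (I.b1_ne e).1
      (I.b1_ne e).2.1
    have h4 := er (I.tail d) (I.tail (I.nxt d)) (I.tail (I.nxt (I.nxt d))) (I.b1_ne d).1
      (I.b1_ne d).2.1
    rw [← h3, ← h4, h2, h1]
  have rot : ∀ e : I.D, ({I.tail (I.nxt e), I.tail (I.nxt (I.nxt e)),
      I.tail (I.nxt (I.nxt (I.nxt e)))} : Finset I.V) =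
      {I.tail e, I.tail (I.nxt e), I.tail (I.nxt (I.nxt e))} := by
    intro e
    rw [I.nxt3]
    ext v
    simp only [Finset.mem_insert, Finset.mem_singleton]
    tauto
  have hm : I.tail d ∈ ({I.tail d', I.tail (I.nxt d'), I.tail (I.nxt (I.nxt d'))} :
      Finset I.V) := by
    rw [← h]
    simp
  simp only [Finset.mem_insert, Finset.mem_singleton] at hm
  rcases hm with h1 | h1 | h1
  · left
    exact key d' h1.symm h.symm
  · have h2 := key (I.nxt d') h1.symm ((rot d').trans h.symm)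
    right; right
    rw [← h2, I.nxt3]
  · have h2 := key (I.nxt (I.nxt d')) h1.symm ((rot (I.nxt d')).trans ((rot d').trans h.symm))
    right; left
    rw [← h2, I.nxt3]

/-- [DG-B1d] the corners of a face are affinely independent (`rdet ≠ 0` for a vertex off the face) -/
theorem indep (d : I.D) : AffineIndependent ℝ ![I.rp (I.tail d), I.rp (I.tail (I.nxt d)),
    I.rp (I.tail (I.nxt (I.nxt d)))] := by
  rw [affineIndependent_iff_not_collinear_set]
  intro hcol
  rw [collinear_iff_of_mem (p₀ := I.rp (I.tail d)) (by simp)] at hcol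
  obtain ⟨w, hw⟩ := hcol
  obtain ⟨r, hr⟩ := hw (I.rp (I.tail (I.nxt d))) (by simp)
  obtain ⟨t, ht⟩ := hw (I.rp (I.tail (I.nxt (I.nxt d)))) (by simp)
  obtain ⟨v, h1, h2, h3⟩ := I.exists_off d
  have h := I.rstrict d v h1 h2 h3
  have e1 : I.rp (I.tail (I.nxt d)) - I.rp (I.tail d) = r • w := by
    rw [hr]
    simp
  have e2 : I.rp (I.tail (I.nxt (I.nxt d))) - I.rp (I.tail d) = t • w := by
    rw [ht]
    simp
  rw [e1, e2] at h
  have : rdet (r • w) (t • w) (I.rp v - I.rp (I.tail d)) = 0 := by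
    simp only [rdet, PiLp.smul_apply, smul_eq_mul]
    ring
  linarith

private theorem b1_inner (d : I.D) (v : I.V) :
    inner ℝ (crs (I.rp (I.tail (I.nxt d)) - I.rp (I.tail d))
      (I.rp (I.tail (I.nxt (I.nxt d))) - I.rp (I.tail d))) (I.rp v) -
    inner ℝ (crs (I.rp (I.tail (I.nxt d)) - I.rp (I.tail d))
      (I.rp (I.tail (I.nxt (I.nxt d))) - I.rp (I.tail d))) (I.rp (I.tail d)) =
    rdet (I.rp (I.tail (I.nxt d)) - I.rp (I.tail d))
      (I.rp (I.tail (I.nxt (I.nxt d))) - I.rp (I.tail d)) (I.rp v - I.rp (I.tail d)) := by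
  rw [rdet_eq_inner, inner_sub_right]

/-- [DG-B1e] the normal `n = crs (B - A) (C - A)` is nonzero, maximal exactly on the face -/
theorem support (d : I.D) : ∃ n : E3, n ≠ 0 ∧
      (∀ v, inner ℝ n (I.rp v) ≤ inner ℝ n (I.rp (I.tail d))) ∧
      inner ℝ n (I.rp (I.tail (I.nxt d))) = inner ℝ n (I.rp (I.tail d)) ∧
      inner ℝ n (I.rp (I.tail (I.nxt (I.nxt d)))) = inner ℝ n (I.rp (I.tail d)) := by
  have hB : inner ℝ (crs (I.rp (I.tail (I.nxt d)) - I.rp (I.tail d))
      (I.rp (I.tail (I.nxt (I.nxt d))) - I.rp (I.tail d))) (I.rp (I.tail (I.nxt d))) =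
      inner ℝ (crs (I.rp (I.tail (I.nxt d)) - I.rp (I.tail d))
      (I.rp (I.tail (I.nxt (I.nxt d))) - I.rp (I.tail d))) (I.rp (I.tail d)) := by
    have h := I.b1_inner d (I.tail (I.nxt d))
    have h2 : rdet (I.rp (I.tail (I.nxt d)) - I.rp (I.tail d))
      (I.rp (I.tail (I.nxt (I.nxt d))) - I.rp (I.tail d))
      (I.rp (I.tail (I.nxt d)) - I.rp (I.tail d)) = 0 := by
      unfold rdet
      ring
    linarith
  have hC : inner ℝ (crs (I.rp (I.tail (I.nxt d)) - I.rp (I.tail d))
      (I.rp (I.tail (I.nxt (I.nxt d))) - I.rp (I.tail d))) (I.rp (I.tail (I.nxt (I.nxt d)))) =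
      inner ℝ (crs (I.rp (I.tail (I.nxt d)) - I.rp (I.tail d))
      (I.rp (I.tail (I.nxt (I.nxt d))) - I.rp (I.tail d))) (I.rp (I.tail d)) := by
    have h := I.b1_inner d (I.tail (I.nxt (I.nxt d)))
    have h2 : rdet (I.rp (I.tail (I.nxt d)) - I.rp (I.tail d))
      (I.rp (I.tail (I.nxt (I.nxt d))) - I.rp (I.tail d))
      (I.rp (I.tail (I.nxt (I.nxt d))) - I.rp (I.tail d)) = 0 := by
      unfold rdet
      ring
    linarith
  refine ⟨crs (I.rp (I.tail (I.nxt d)) - I.rp (I.tail d))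
      (I.rp (I.tail (I.nxt (I.nxt d))) - I.rp (I.tail d)), ?_, ?_, hB, hC⟩
  · intro h0
    obtain ⟨v, h1, h2, h3⟩ := I.exists_off d
    have h := I.rstrict d v h1 h2 h3
    rw [rdet_eq_inner, h0, inner_zero_left] at h
    exact lt_irrefl _ h
  · intro v
    by_cases h1 : v = I.tail d
    · rw [h1]
    · by_cases h2 : v = I.tail (I.nxt d)
      · rw [h2]
        exact hB.le
      · by_cases h3 : v = I.tail (I.nxt (I.nxt d))
        · rw [h3]
          exact hC.le
        · have h := I.rstrict d v h1 h2 h3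
          have h4 := I.b1_inner d v
          linarith

/-- [DG-B1f] the vertices do not lie in a plane -/
theorem full (n : E3) (h : ∀ u v, inner ℝ n (I.rp u) = inner ℝ n (I.rp v)) : n = 0 := by
  obtain ⟨v0⟩ : Nonempty I.V := by
    have := I.four
    exact Fintype.card_pos_iff.mp (by omega)
  obtain ⟨d, _⟩ := I.surj v0
  obtain ⟨v, h1, h2, h3⟩ := I.exists_off d
  have hs := I.rstrict d v h1 h2 h3
  have ha : inner ℝ n (I.rp (I.tail (I.nxt d)) - I.rp (I.tail d)) = 0 := by
    rw [inner_sub_right, h (I.tail (I.nxt d)) (I.tail d), sub_self]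
  have hb : inner ℝ n (I.rp (I.tail (I.nxt (I.nxt d))) - I.rp (I.tail d)) = 0 := by
    rw [inner_sub_right, h (I.tail (I.nxt (I.nxt d))) (I.tail d), sub_self]
  have hc : inner ℝ n (I.rp v - I.rp (I.tail d)) = 0 := by
    rw [inner_sub_right, h v (I.tail d), sub_self]
  generalize I.rp (I.tail (I.nxt d)) - I.rp (I.tail d) = a at hs ha
  generalize I.rp (I.tail (I.nxt (I.nxt d))) - I.rp (I.tail d) = b at hs hb
  generalize I.rp v - I.rp (I.tail d) = c at hs hc
  have hne : rdet a b c ≠ 0 := hs.ne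
  simp only [PiLp.inner_apply, Fin.sum_univ_three, RCLike.inner_apply, conj_trivial] at ha hb hc
  have k0 : n 0 * rdet a b c = 0 := by
    unfold rdet
    linear_combination (b 1 * c 2 - b 2 * c 1) * ha + (c 1 * a 2 - c 2 * a 1) * hb +
      (a 1 * b 2 - a 2 * b 1) * hc
  have k1 : n 1 * rdet a b c = 0 := by
    unfold rdet
    linear_combination (b 2 * c 0 - b 0 * c 2) * ha + (c 2 * a 0 - c 0 * a 2) * hb +
      (a 2 * b 0 - a 0 * b 2) * hc
  have k2 : n 2 * rdet a b c = 0 := by
    unfold rdet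
    linear_combination (b 0 * c 1 - b 1 * c 0) * ha + (c 0 * a 1 - c 1 * a 0) * hb +
      (a 0 * b 1 - a 1 * b 0) * hc
  ext j
  fin_cases j
  · exact (mul_eq_zero.mp k0).resolve_right hne
  · exact (mul_eq_zero.mp k1).resolve_right hne
  · exact (mul_eq_zero.mp k2).resolve_right hne

end IPoly

end

end QGd
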