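import Pool.Agent.Lib_MP_6b5565_dg.B1

/-! [DG-B2] faces meet only in common faces -/

namespace QGd

open scoped BigOperators
open EuclideanGeometry

noncomputable section

private theorem rdet_zero_b2 (a b : E3) {x : E3} : rdet a b (x - x) = 0 := by
  unfold rdet
  simp

private theorem rdet_left_b2 (a b : E3) : rdet a b a = 0 := by
  unfold rdet
  ring

private theorem rdet_right_b2 (a b : E3) : rdet a b b = 0 := by
  unfold rdet
  ring

namespace IPoly

variable (I : IPoly)

/-- [DG-B2] A point which is a convex combination `a` of the corners of the face of `d` and a convex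
combination `b` of the corners of the face of `d'`: with the normal `n` of the face of `d`
(`inner n` is strictly smaller at all vertices off the face, `rstrict`), `inner n x` is maximal, so
`b` is supported on the face of `d`; likewise `a` on the face of `d'`; so both are supported on the
face of `d`, and affine independence (`indep`) gives `a = b`. -/
theorem geom (d d' : I.D) (a b : I.V → ℝ) (ha : ∀ v, 0 ≤ a v) (hb : ∀ v, 0 ≤ b v)
    (ha' : ∀ v, a v ≠ 0 → v ∈ ({I.tail d, I.tail (I.nxt d), I.tail (I.nxt (I.nxt d))} :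
      Finset I.V))
    (hb' : ∀ v, b v ≠ 0 → v ∈ ({I.tail d', I.tail (I.nxt d'), I.tail (I.nxt (I.nxt d'))} :
      Finset I.V))
    (h1 : ∑ v, a v = 1) (h2 : ∑ v, b v = 1) (h3 : ∑ v, a v • I.rp v = ∑ v, b v • I.rp v) :
    a = b := by
  set A := I.rp (I.tail d) with hA
  set B := I.rp (I.tail (I.nxt d)) with hB
  set C := I.rp (I.tail (I.nxt (I.nxt d))) with hC
  set f : I.V → ℝ := fun v => rdet (B - A) (C - A) (I.rp v - A) with hf
  have hsum : ∀ w : I.V → ℝ, ∑ v, w v = 1 →
      ∑ v, w v * f v = inner ℝ (crs (B - A) (C - A)) (∑ v, w v • I.rp v - A) := by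
    intro w hw
    have e1 : ∑ v, w v • I.rp v - A = ∑ v, w v • (I.rp v - A) := by
      simp only [smul_sub, Finset.sum_sub_distrib]
      rw [← Finset.sum_smul, hw, one_smul]
    rw [e1, inner_sum]
    refine Finset.sum_congr rfl fun v _ => ?_
    show w v * rdet (B - A) (C - A) (I.rp v - A) = _
    rw [inner_smul_right, rdet_eq_inner]
  have hz : ∀ v, (v = I.tail d ∨ v = I.tail (I.nxt d) ∨ v = I.tail (I.nxt (I.nxt d))) → f v = 0 := by
    intro v hv
    rcases hv with hv | hv | hv
    · rw [hf, hv]
      exact rdet_zero_b2 _ _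
    · rw [hf, hv]
      exact rdet_left_b2 _ _
    · rw [hf, hv]
      exact rdet_right_b2 _ _
  have hneg : ∀ v, ¬ (v = I.tail d ∨ v = I.tail (I.nxt d) ∨ v = I.tail (I.nxt (I.nxt d))) →
      f v < 0 := by
    intro v hv
    push Not at hv
    exact I.rstrict d v hv.1 hv.2.1 hv.2.2
  have hle : ∀ v, f v ≤ 0 := by
    intro v
    by_cases hv : v = I.tail d ∨ v = I.tail (I.nxt d) ∨ v = I.tail (I.nxt (I.nxt d))
    · exact (hz v hv).le
    · exact (hneg v hv).le
  have hmem : ∀ v, v ∈ ({I.tail d, I.tail (I.nxt d), I.tail (I.nxt (I.nxt d))} : Finset I.V) ↔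
      (v = I.tail d ∨ v = I.tail (I.nxt d) ∨ v = I.tail (I.nxt (I.nxt d))) := by
    intro v
    simp
  have hsa : ∑ v, a v * f v = 0 := by
    refine Finset.sum_eq_zero fun v _ => ?_
    by_cases hv : a v = 0
    · rw [hv, zero_mul]
    · rw [hz v ((hmem v).1 (ha' v hv)), mul_zero]
  have hsb : ∑ v, b v * f v = 0 := by
    rw [hsum b h2, ← h3, ← hsum a h1, hsa]
  have hb0 : ∀ v, b v * f v = 0 := by
    have h5 : ∀ v ∈ Finset.univ, b v * f v ≤ 0 := fun v _ =>
      mul_nonpos_of_nonneg_of_nonpos (hb v) (hle v)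
    intro v
    exact (Finset.sum_eq_zero_iff_of_nonpos h5).1 hsb v (Finset.mem_univ v)
  have hbs : ∀ v, b v ≠ 0 → (v = I.tail d ∨ v = I.tail (I.nxt d) ∨ v = I.tail (I.nxt (I.nxt d))) := by
    intro v hv
    by_contra hc
    have h6 := hneg v hc
    rcases mul_eq_zero.1 (hb0 v) with h7 | h7
    · exact hv h7
    · exact h6.ne h7
  have hI := I.indep d
  have hinj := hI.injective
  have n01 : I.tail d ≠ I.tail (I.nxt d) := by
    intro h
    have h7 : (0 : Fin 3) = 1 := hinj (by
      show A = B
      rw [hA, hB, h])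
    exact absurd h7 (by decide)
  have n02 : I.tail d ≠ I.tail (I.nxt (I.nxt d)) := by
    intro h
    have h7 : (0 : Fin 3) = 2 := hinj (by
      show A = C
      rw [hA, hC, h])
    exact absurd h7 (by decide)
  have n12 : I.tail (I.nxt d) ≠ I.tail (I.nxt (I.nxt d)) := by
    intro h
    have h7 : (1 : Fin 3) = 2 := hinj (by
      show B = C
      rw [hB, hC, h])
    exact absurd h7 (by decide)
  have hsub : ∀ v, v ∉ ({I.tail d, I.tail (I.nxt d), I.tail (I.nxt (I.nxt d))} : Finset I.V) →
      a v = 0 ∧ b v = 0 := by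
    intro v hv
    refine ⟨?_, ?_⟩
    · by_contra h
      exact hv (ha' v h)
    · by_contra h
      exact hv ((hmem v).2 (hbs v h))
  have hg1 : ∑ v ∈ ({I.tail d, I.tail (I.nxt d), I.tail (I.nxt (I.nxt d))} : Finset I.V),
      (a v - b v) = 0 := by
    rw [Finset.sum_subset (Finset.subset_univ _) (fun v _ hv => by
      rw [(hsub v hv).1, (hsub v hv).2, sub_zero]), Finset.sum_sub_distrib, h1, h2, sub_self]
  have hg2 : ∑ v ∈ ({I.tail d, I.tail (I.nxt d), I.tail (I.nxt (I.nxt d))} : Finset I.V),
      (a v - b v) • I.rp v = 0 := by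
    rw [Finset.sum_subset (Finset.subset_univ _) (fun v _ hv => by
      rw [(hsub v hv).1, (hsub v hv).2, sub_zero, zero_smul])]
    simp only [sub_smul, Finset.sum_sub_distrib]
    rw [h3, sub_self]
  rw [Finset.sum_insert (by simp [n01, n02]), Finset.sum_insert (by simp [n12]),
    Finset.sum_singleton] at hg1 hg2
  have hk := affineIndependent_iff.1 hI Finset.univ
    ![a (I.tail d) - b (I.tail d), a (I.tail (I.nxt d)) - b (I.tail (I.nxt d)),
      a (I.tail (I.nxt (I.nxt d))) - b (I.tail (I.nxt (I.nxt d)))] (by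
      rw [Fin.sum_univ_three]
      simp only [Matrix.cons_val_zero, Matrix.cons_val_one, Matrix.cons_val_two, Matrix.head_cons,
        Matrix.tail_cons]
      linarith) (by
      rw [Fin.sum_univ_three]
      simp only [Matrix.cons_val_zero, Matrix.cons_val_one, Matrix.cons_val_two, Matrix.head_cons,
        Matrix.tail_cons]
      rw [add_assoc]
      exact hg2)
  have k0 := hk 0 (Finset.mem_univ _)
  have k1 := hk 1 (Finset.mem_univ _)
  have k2 := hk 2 (Finset.mem_univ _)
  simp only [Matrix.cons_val_zero, Matrix.cons_val_one, Matrix.cons_val_two, Matrix.head_cons,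
        Matrix.tail_cons] at k0 k1 k2
  funext v
  by_cases hv : v ∈ ({I.tail d, I.tail (I.nxt d), I.tail (I.nxt (I.nxt d))} : Finset I.V)
  · rcases (hmem v).1 hv with h | h | h
    · rw [h]; linarith
    · rw [h]; linarith
    · rw [h]; linarith
  · rw [(hsub v hv).1, (hsub v hv).2]

/-- the real polyhedron -/
def poly : Poly where
  V := I.V
  D := I.D
  inv := I.inv
  nxt := I.nxt
  tail := I.tail
  pos := I.rp
  inv_inv := I.inv_inv
  nxt3 := I.nxt3
  tail_inv := I.tail_inv
  orbit := I.orbit
  surj := I.surj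
  conn := I.conn
  euler := I.euler
  edge_inj := I.edge_inj
  face_inj := I.face_inj
  indep := I.indep
  geom := I.geom
  support := I.support
  full := I.full

end IPoly

end

end QGd
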