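import Pool.Agent.Lib_MP_6b5565_dg.Mesh

/-! [DG-C1] the mesh: finiteness, elementary identities -/

namespace QGd

open Vx Dx

variable {K : ℕ}

/-- [DG-C1a] -/
def Vx.equiv (K : ℕ) : Vx K ≃ (Fin 5 ⊕ Fin 6) ⊕ (Fin 6 × Fin 3 × Fin (K + 1)) where
  toFun := fun v => match v with
    | base a => Sum.inl (Sum.inl a)
    | ctr T => Sum.inl (Sum.inr T)
    | leg T e i => Sum.inr (T, e, i)
  invFun := fun v => match v with
    | Sum.inl (Sum.inl a) => base a
    | Sum.inl (Sum.inr T) => ctr T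
    | Sum.inr (T, e, i) => leg T e i
  left_inv := by rintro (a | T | ⟨T, e, i⟩) <;> rfl
  right_inv := by rintro ((a | T) | ⟨T, e, i⟩) <;> rfl

/-- [DG-C1b] -/
def Dx.equiv (K : ℕ) : Dx K ≃ (Fin 6 × Fin 3 × Fin (K + 1) × Fin 3) ⊕
    ((Fin 6 × Fin 3 × Fin (K + 1) × Fin 3) ⊕ (Fin 6 × Fin 3 × Fin 3)) where
  toFun := fun v => match v with
    | L T e i k => Sum.inl (T, e, i, k)
    | R T e i k => Sum.inr (Sum.inl (T, e, i, k))
    | E T e k => Sum.inr (Sum.inr (T, e, k))
  invFun := fun v => match v with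
    | Sum.inl (T, e, i, k) => L T e i k
    | Sum.inr (Sum.inl (T, e, i, k)) => R T e i k
    | Sum.inr (Sum.inr (T, e, k)) => E T e k
  left_inv := by rintro (⟨T, e, i, k⟩ | ⟨T, e, i, k⟩ | ⟨T, e, k⟩) <;> rfl
  right_inv := by rintro (⟨T, e, i, k⟩ | ⟨T, e, i, k⟩ | ⟨T, e, k⟩) <;> rfl

instance : Fintype (Vx K) := Fintype.ofEquiv _ (Vx.equiv K).symm
instance : Fintype (Dx K) := Fintype.ofEquiv _ (Dx.equiv K).symm

private theorem add_ne_zero_c1 {i : Fin (K + 1)} (h : i ≠ Fin.last K) : i + 1 ≠ 0 := by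
  intro h0
  apply h
  have h1 : i = 0 - 1 := by
    rw [← h0]
    exact (add_sub_cancel_right i 1).symm
  rw [h1, zero_sub]
  have h2 : Fin.last K + 1 = 0 := Fin.last_add_one K
  exact (eq_neg_of_add_eq_zero_left h2).symm

private theorem sub_ne_last_c1 {i : Fin (K + 1)} (h : i ≠ 0) : i - 1 ≠ Fin.last K := by
  intro h0
  apply h
  have h2 : Fin.last K + 1 = 0 := Fin.last_add_one K
  rw [← h2, ← h0, sub_add_cancel]

theorem card_Vx : Fintype.card (Vx K) = 11 + 18 * (K + 1) := by
  rw [Fintype.card_congr (Vx.equiv K)]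
  simp only [Fintype.card_sum, Fintype.card_prod, Fintype.card_fin]
  ring

theorem card_Dx : Fintype.card (Dx K) = 108 * (K + 1) + 54 := by
  rw [Fintype.card_congr (Dx.equiv K)]
  simp only [Fintype.card_sum, Fintype.card_prod, Fintype.card_fin]
  ring

theorem nx3 (d : Dx K) : nx (nx (nx d)) = d := by
  have h : ∀ k : Fin 3, k + 1 + 1 + 1 = k := by decide
  rcases d with ⟨T, e, i, k⟩ | ⟨T, e, i, k⟩ | ⟨T, e, k⟩
  · show L T e i (k + 1 + 1 + 1) = L T e i k
    rw [h]
  · show R T e i (k + 1 + 1 + 1) = R T e i k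
    rw [h]
  · show E T e (k + 1 + 1 + 1) = E T e k
    rw [h]

/-- [DG-C1c] -/
theorem iv_iv (d : Dx K) : iv (iv d) = d := by
  have h12 : ∀ e : Fin 3, e + 1 + 2 = e := by decide
  have h21 : ∀ e : Fin 3, e + 2 + 1 = e := by decide
  rcases d with ⟨T, e, i, k⟩ | ⟨T, e, i, k⟩ | ⟨T, e, k⟩
  · fin_cases k
    · show iv (if i = Fin.last K then E T e 2 else L T e (i + 1) 2) = L T e i 0
      by_cases h : i = Fin.last K
      · rw [if_pos h, h]
        rfl
      · rw [if_neg h]
        show (if i + 1 = 0 then R T (e + 2) 0 0 else L T e (i + 1 - 1) 0) = L T e i 0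
        rw [if_neg (add_ne_zero_c1 h), add_sub_cancel_right]
    · rfl
    · show iv (if i = 0 then R T (e + 2) 0 0 else L T e (i - 1) 0) = L T e i 2
      by_cases h : i = 0
      · rw [if_pos h, h]
        show (if (0 : Fin (K + 1)) = 0 then L T (e + 2 + 1) 0 2 else R T (e + 2) (0 - 1) 2) = L T e 0 2
        rw [if_pos rfl, h21]
      · rw [if_neg h]
        show (if i - 1 = Fin.last K then E T e 2 else L T e (i - 1 + 1) 2) = L T e i 2
        rw [if_neg (sub_ne_last_c1 h), sub_add_cancel]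
  · fin_cases k
    · show iv (if i = 0 then L T (e + 1) 0 2 else R T e (i - 1) 2) = R T e i 0
      by_cases h : i = 0
      · rw [if_pos h, h]
        show (if (0 : Fin (K + 1)) = 0 then R T (e + 1 + 2) 0 0 else L T (e + 1) (0 - 1) 0) = R T e 0 0
        rw [if_pos rfl, h12]
      · rw [if_neg h]
        show (if i - 1 = Fin.last K then E T e 1 else R T e (i - 1 + 1) 0) = R T e i 0
        rw [if_neg (sub_ne_last_c1 h), sub_add_cancel]
    · rfl
    · show iv (if i = Fin.last K then E T e 1 else R T e (i + 1) 0) = R T e i 2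
      by_cases h : i = Fin.last K
      · rw [if_pos h, h]
        rfl
      · rw [if_neg h]
        show (if i + 1 = 0 then L T (e + 1) 0 2 else R T e (i + 1 - 1) 2) = R T e i 2
        rw [if_neg (add_ne_zero_c1 h), add_sub_cancel_right]
  · fin_cases k
    · show E (adj (adj T e).1 (adj T e).2).1 (adj (adj T e).1 (adj T e).2).2 0 = E T e 0
      rw [adj_adj]
    · show (if Fin.last K = Fin.last K then E T e 1 else R T e (Fin.last K + 1) 0) = E T e 1
      rw [if_pos rfl]
    · show (if Fin.last K = Fin.last K then E T e 2 else L T e (Fin.last K + 1) 2) = E T e 2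
      rw [if_pos rfl]

/-- [DG-C1d] -/
theorem tl_iv (d : Dx K) : tl (iv d) = tl (nx d) := by
  have h22 : ∀ e : Fin 3, e + 2 + 2 = e + 1 := by decide
  rcases d with ⟨T, e, i, k⟩ | ⟨T, e, i, k⟩ | ⟨T, e, k⟩
  · fin_cases k
    · show tl (if i = Fin.last K then E T e 2 else L T e (i + 1) 2) = leg T e i
      by_cases h : i = Fin.last K
      · rw [if_pos h, h]
        rfl
      · rw [if_neg h]
        show (if i + 1 = 0 then ctr T else leg T e (i + 1 - 1)) = leg T e i
        rw [if_neg (add_ne_zero_c1 h), add_sub_cancel_right]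
    · rfl
    · show tl (if i = 0 then R T (e + 2) 0 0 else L T e (i - 1) 0) = base (CT T (e + 1))
      by_cases h : i = 0
      · rw [if_pos h]
        show base (CT T (e + 2 + 2)) = (base (CT T (e + 1)) : Vx K)
        rw [h22]
      · rw [if_neg h]
        rfl
  · fin_cases k
    · show tl (if i = 0 then L T (e + 1) 0 2 else R T e (i - 1) 2) = pre T e i
      by_cases h : i = 0
      · rw [if_pos h, h]
        rfl
      · rw [if_neg h]
        show leg T e (i - 1) = if i = 0 then ctr T else leg T e (i - 1)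
        rw [if_neg h]
    · rfl
    · show tl (if i = Fin.last K then E T e 1 else R T e (i + 1) 0) = base (CT T (e + 2))
      by_cases h : i = Fin.last K
      · rw [if_pos h]
        rfl
      · rw [if_neg h]
        rfl
  · fin_cases k
    · show base (CT (adj T e).1 ((adj T e).2 + 1)) = (base (CT T (e + 2)) : Vx K)
      rw [(adj_corner T e).1]
    · rfl
    · rfl

theorem pre_eq_Y (T : Fin 6) (e : Fin 3) (i : Fin (K + 1)) : pre T e i = Y K T e i := by
  unfold pre
  by_cases h : i = 0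
  · rw [if_pos h, h]
    rfl
  · rw [if_neg h]
    obtain ⟨j, hj⟩ : ∃ j, (i : ℕ) = j + 1 := by
      refine ⟨(i : ℕ) - 1, ?_⟩
      have h1 : (i : ℕ) ≠ 0 := fun h2 => h (Fin.ext h2)
      omega
    rw [hj]
    show leg T e (i - 1) = leg T e (Fin.ofNat (K + 1) j)
    congr 1
    have h2 : i = Fin.ofNat (K + 1) j + 1 := by
      apply Fin.ext
      rw [Fin.val_add_one_of_lt', hj]
      · show j + 1 = j % (K + 1) + 1
        rw [Nat.mod_eq_of_lt (by omega)]
      · show j % (K + 1) + 1 < K + 1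
        rw [Nat.mod_eq_of_lt (by omega)]
        omega
    rw [h2, add_sub_cancel_right]

theorem leg_eq_Y (T : Fin 6) (e : Fin 3) (i : Fin (K + 1)) : leg T e i = Y K T e (i + 1) := by
  show leg T e i = leg T e (Fin.ofNat (K + 1) (i : ℕ))
  congr 1
  apply Fin.ext
  show (i : ℕ) = (i : ℕ) % (K + 1)
  rw [Nat.mod_eq_of_lt i.2]

end QGd
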