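import Pool.Agent.Lib_MP_6b5565_dg.C1

/-! [DG-C2] surjectivity, edges are determined by their ends -/

namespace QGd

open Vx Dx

variable {K : ℕ}

theorem tl_surj (v : Vx K) : ∃ d : Dx K, tl d = v := by
  rcases v with a | T | ⟨T, e, i⟩
  · have h : ∀ a : Fin 5, ∃ (T : Fin 6) (e : Fin 3), CT T (e + 1) = a := by decide
    obtain ⟨T, e, h⟩ := h a
    exact ⟨E T e 0, congrArg base h⟩
  · exact ⟨L T 0 0 2, by
      show (if (0 : Fin (K + 1)) = 0 then ctr T else leg T 0 (0 - 1)) = ctr T
      exact if_pos rfl⟩
  · exact ⟨L T e i 1, rfl⟩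

private theorem sub_ne_last_c2 {i : Fin (K + 1)} (h : i ≠ 0) : i - 1 ≠ Fin.last K := by
  intro h0
  apply h
  have h2 : Fin.last K + 1 = 0 := Fin.last_add_one K
  rw [← h2, ← h0, sub_add_cancel]

private theorem CT_ne_c2 (T : Fin 6) (e : Fin 3) : CT T (e + 1) ≠ CT T (e + 2) := by
  revert T e; decide

/-- the side of a face with given corners -/
private def side_c2 (a b : Fin 5) : Option (Fin 6 × Fin 3) :=
  (List.finRange 6 ×ˢ List.finRange 3).find? fun p => CT p.1 (p.2 + 1) = a ∧ CT p.1 (p.2 + 2) = b

private theorem side_eq_c2 (T : Fin 6) (e : Fin 3) :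
    side_c2 (CT T (e + 1)) (CT T (e + 2)) = some (T, e) := by
  revert T e; decide

private def corn_c2 (k : Fin 3) (T : Fin 6) (a : Fin 5) : Option (Fin 3) :=
  (List.finRange 3).find? fun e => CT T (e + k) = a

private theorem corn_eq_c2 (k : Fin 3) (T : Fin 6) (e : Fin 3) :
    corn_c2 k T (CT T (e + k)) = some e := by
  revert k T e; decide

/-- the half-edge with given ends -/
private def back_c2 : Vx K → Vx K → Option (Dx K)
  | base a, base b => (side_c2 a b).map fun p => E p.1 p.2 0
  | base a, ctr T => (corn_c2 2 T a).map fun e => R T e 0 0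
  | ctr T, base a => (corn_c2 1 T a).map fun e => L T e 0 2
  | ctr _, leg T e _ => some (R T e 0 1)
  | leg T e _, ctr _ => some (L T e 0 1)
  | base a, leg T e i => if CT T (e + 1) = a then some (L T e i 0) else
      if i = Fin.last K then some (E T e 1) else some (R T e (i + 1) 0)
  | leg T e i, base a => if CT T (e + 2) = a then some (R T e i 2) else
      if i = Fin.last K then some (E T e 2) else some (L T e (i + 1) 2)
  | leg T e i, leg T' e' j => if j < i then some (L T e i 1) else some (R T' e' j 1)
  | ctr _, ctr _ => none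

private theorem back_eq_c2 (d : Dx K) : back_c2 (tl d) (tl (nx d)) = some d := by
  rcases d with ⟨T, e, i, k⟩ | ⟨T, e, i, k⟩ | ⟨T, e, k⟩
  · fin_cases k
    · exact if_pos rfl
    · show back_c2 (leg T e i) (pre T e i) = some (L T e i 1)
      unfold pre
      by_cases h : i = 0
      · rw [if_pos h, h]
        rfl
      · rw [if_neg h]
        exact if_pos (Fin.sub_one_lt_iff.2 (Fin.pos_iff_ne_zero.2 h))
    · show back_c2 (pre T e i) (base (CT T (e + 1))) = some (L T e i 2)
      unfold pre
      by_cases h : i = 0
      · rw [if_pos h, h]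
        show (corn_c2 1 T (CT T (e + 1))).map (fun e => (L T e 0 2 : Dx K)) = some (L T e 0 2)
        rw [corn_eq_c2]
        rfl
      · rw [if_neg h]
        show (if CT T (e + 2) = CT T (e + 1) then some (R T e (i - 1) 2) else
          if i - 1 = Fin.last K then some (E T e 2) else some (L T e (i - 1 + 1) 2)) = some (L T e i 2)
        rw [if_neg (CT_ne_c2 T e).symm, if_neg (sub_ne_last_c2 h), sub_add_cancel]
  · fin_cases k
    · show back_c2 (base (CT T (e + 2))) (pre T e i) = some (R T e i 0)
      unfold pre
      by_cases h : i = 0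
      · rw [if_pos h, h]
        show (corn_c2 2 T (CT T (e + 2))).map (fun e => (R T e 0 0 : Dx K)) = some (R T e 0 0)
        rw [corn_eq_c2]
        rfl
      · rw [if_neg h]
        show (if CT T (e + 1) = CT T (e + 2) then some (L T e (i - 1) 0) else
          if i - 1 = Fin.last K then some (E T e 1) else some (R T e (i - 1 + 1) 0)) = some (R T e i 0)
        rw [if_neg (CT_ne_c2 T e), if_neg (sub_ne_last_c2 h), sub_add_cancel]
    · show back_c2 (pre T e i) (leg T e i) = some (R T e i 1)
      unfold pre
      by_cases h : i = 0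
      · rw [if_pos h, h]
        rfl
      · rw [if_neg h]
        exact if_neg (not_lt.2 (Fin.sub_one_lt_iff.2 (Fin.pos_iff_ne_zero.2 h)).le)
    · exact if_pos rfl
  · fin_cases k
    · show (side_c2 (CT T (e + 1)) (CT T (e + 2))).map (fun p => (E p.1 p.2 0 : Dx K)) = some (E T e 0)
      rw [side_eq_c2]
      rfl
    · show (if CT T (e + 1) = CT T (e + 2) then some (L T e (Fin.last K) 0) else
        if Fin.last K = Fin.last K then some (E T e 1) else some (R T e (Fin.last K + 1) 0)) =
          some (E T e 1)
      rw [if_neg (CT_ne_c2 T e), if_pos rfl]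
    · show (if CT T (e + 2) = CT T (e + 1) then some (R T e (Fin.last K) 2) else
        if Fin.last K = Fin.last K then some (E T e 2) else some (L T e (Fin.last K + 1) 2)) =
          some (E T e 2)
      rw [if_neg (CT_ne_c2 T e).symm, if_pos rfl]

/-- [DG-C2] no double edges. (Define a map `back : Vx K → Vx K → Option (Dx K)` by cases on the two
ends such that `back (tl d) (tl (iv d)) = some d` for all `d`: e.g. `base a, base b` : the unique
`(T, e)` with `CT T (e+1) = a`, `CT T (e+2) = b`; `base a, leg T e i`: `CT T (e+1) = a` gives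
`L T e i 0`, `CT T (e+2) = a` gives `R T e (i+1) 0` or `E T e 1` for `i = last`; etc. Or any other
proof by cases.) -/
theorem edge_unique (d d' : Dx K) (h : tl d = tl d') (h' : tl (iv d) = tl (iv d')) : d = d' := by
  rw [tl_iv, tl_iv] at h'
  have h1 := back_eq_c2 d
  rw [h, h', back_eq_c2] at h1
  exact (Option.some.inj h1).symm

end QGd
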