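import Pool.Agent.Lib_MP_6b5565_dg.C1

/-! [DG-C3] connectedness -/

namespace QGd

open Vx Dx

variable {K : ℕ}

private theorem step_c3 (d : Dx K) :
    Relation.ReflTransGen (fun a b => ∃ d : Dx K, tl d = a ∧ tl (iv d) = b) (tl d) (tl (nx d)) :=
  Relation.ReflTransGen.single ⟨d, rfl, tl_iv d⟩

private theorem back_c3 (d : Dx K) :
    Relation.ReflTransGen (fun a b => ∃ d : Dx K, tl d = a ∧ tl (iv d) = b) (tl (nx d)) (tl d) :=
  Relation.ReflTransGen.single ⟨iv d, tl_iv d, by rw [iv_iv]⟩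

private theorem path_c3 : ∀ a b : Fin 5, ∃ c : Fin 5,
    (a = c ∨ ∃ T : Fin 6, ∃ e : Fin 3, CT T (e + 1) = a ∧ CT T (e + 2) = c) ∧
    (c = b ∨ ∃ T : Fin 6, ∃ e : Fin 3, CT T (e + 1) = c ∧ CT T (e + 2) = b) := by
  decide

private theorem edge_c3 {a b : Fin 5}
    (h : a = b ∨ ∃ T : Fin 6, ∃ e : Fin 3, CT T (e + 1) = a ∧ CT T (e + 2) = b) :
    Relation.ReflTransGen (fun a b => ∃ d : Dx K, tl d = a ∧ tl (iv d) = b) (base a) (base b) := by
  rcases h with rfl | ⟨T, e, rfl, rfl⟩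
  · exact Relation.ReflTransGen.refl
  · exact step_c3 (E T e 0)

private theorem base_c3 (a b : Fin 5) :
    Relation.ReflTransGen (fun a b => ∃ d : Dx K, tl d = a ∧ tl (iv d) = b) (base a) (base b) := by
  obtain ⟨c, h1, h2⟩ := path_c3 a b
  exact (edge_c3 h1).trans (edge_c3 h2)

private theorem to_base_c3 (u : Vx K) : ∃ a : Fin 5,
    Relation.ReflTransGen (fun a b => ∃ d : Dx K, tl d = a ∧ tl (iv d) = b) u (base a) ∧
    Relation.ReflTransGen (fun a b => ∃ d : Dx K, tl d = a ∧ tl (iv d) = b) (base a) u := by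
  rcases u with a | T | ⟨T, e, i⟩
  · exact ⟨a, Relation.ReflTransGen.refl, Relation.ReflTransGen.refl⟩
  · exact ⟨CT T (0 + 1), step_c3 (L T 0 0 2), back_c3 (L T 0 0 2)⟩
  · exact ⟨CT T (e + 1), back_c3 (L T e i 0), step_c3 (L T e i 0)⟩

/-- [DG-C3] the mesh is connected: every vertex is joined to a base vertex by an edge
(`ctr T` - `base (CT T e)`: half-edge `L T e 0 2` from `ctr T`, `leg T e i` - `base (CT T (e+1))`:
half-edge `iv (L T e i 0)`), and the base vertices are joined by the half-edges `E T e 0`. -/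
theorem mesh_conn (u v : Vx K) :
    Relation.ReflTransGen (fun a b => ∃ d : Dx K, tl d = a ∧ tl (iv d) = b) u v := by
  obtain ⟨a, h1, -⟩ := to_base_c3 u
  obtain ⟨b, -, h2⟩ := to_base_c3 v
  exact h1.trans ((base_c3 a b).trans h2)

end QGd
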