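import Pool.Agent.Lib_MP_6b5565_dg.C1

/-! [DG-C4] the rotation around the vertices -/

namespace QGd

open Vx Dx

variable {K : ℕ}

/-- rotation -/
def rt (d : Dx K) : Dx K := iv (nx (nx d))

/-- `d` and `d'` are in the same orbit -/
def Orb (d d' : Dx K) : Prop := ∃ k : ℕ, rt^[k] d = d'

theorem Orb.refl (d : Dx K) : Orb d d := ⟨0, rfl⟩

theorem Orb.trans {a b c : Dx K} (h : Orb a b) (h' : Orb b c) : Orb a c := by
  obtain ⟨k, hk⟩ := h
  obtain ⟨l, hl⟩ := h'
  refine ⟨l + k, ?_⟩
  rw [Function.iterate_add_apply, hk, hl]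

/-- `rt` as a permutation -/
private def rtE_c4 (K : ℕ) : Equiv.Perm (Dx K) where
  toFun := rt
  invFun := fun d => nx (iv d)
  left_inv := fun d => by
    show nx (iv (iv (nx (nx d)))) = d
    rw [iv_iv, nx3]
  right_inv := fun d => by
    show iv (nx (nx (nx (iv d)))) = d
    rw [nx3, iv_iv]

private theorem rtE_pow_c4 (k : ℕ) (d : Dx K) : (rtE_c4 K ^ k) d = rt^[k] d := by
  rw [Equiv.Perm.iterate_eq_pow (rtE_c4 K) k |>.symm]
  rfl

/-- `rt` is a permutation of a finite set -/
theorem Orb.symm {a b : Dx K} (h : Orb a b) : Orb b a := by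
  obtain ⟨k, hk⟩ := h
  have hn : 0 < orderOf (rtE_c4 K) := orderOf_pos _
  refine ⟨k * (orderOf (rtE_c4 K) - 1), ?_⟩
  rw [← hk, ← rtE_pow_c4, ← rtE_pow_c4, ← Equiv.Perm.mul_apply, ← pow_add]
  have h1 : k * (orderOf (rtE_c4 K) - 1) + k = orderOf (rtE_c4 K) * k := by
    obtain ⟨n, hn'⟩ : ∃ n, orderOf (rtE_c4 K) = n + 1 := ⟨orderOf (rtE_c4 K) - 1, by omega⟩
    rw [hn', Nat.add_sub_cancel]
    ring
  rw [h1, pow_mul, pow_orderOf_eq_one, one_pow]
  rfl

private theorem sub_ne_last_c4 {i : Fin (K + 1)} (h : i ≠ 0) : i - 1 ≠ Fin.last K := by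
  intro h0
  apply h
  have h2 : Fin.last K + 1 = 0 := Fin.last_add_one K
  rw [← h2, ← h0, sub_add_cancel]

private theorem orb1_c4 {d d' : Dx K} (h : rt d = d') : Orb d d' := ⟨1, h⟩

private theorem rt_L1_c4 (T : Fin 6) (e : Fin 3) {i : Fin (K + 1)} (h : i ≠ 0) :
    rt (L T e (i - 1) 1) = L T e i 2 := by
  show (if i - 1 = Fin.last K then E T e 2 else L T e (i - 1 + 1) 2) = L T e i 2
  rw [if_neg (sub_ne_last_c4 h), sub_add_cancel]

theorem orb_step (d : Dx K) : Orb d (rt d) := ⟨1, rfl⟩

/-- [DG-C4a] the half-edges at `leg T e i`: all are in the orbit of `L T e i 1`: `L T e i 1`,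
`R T e i 2`, and (`i` not last) `L T e (i+1) 2`, `R T e (i+1) 1`, or (`i` last) `E T e 2`.
(The rotation at `leg T e i` : `L T e i 1 → L T e (i+1) 2` or `E T e 2`, `L T e (i+1) 2 →
R T e (i+1) 1 → R T e i 2 → L T e i 1`, `E T e 2 → R T e i 2`.) -/
theorem orb_leg (T : Fin 6) (e : Fin 3) (i : Fin (K + 1)) (d : Dx K) (h : tl d = leg T e i) :
    Orb (L T e i 1) d := by
  rcases d with ⟨T', e', i', k⟩ | ⟨T', e', i', k⟩ | ⟨T', e', k⟩
  · fin_cases k
    · exact absurd h (by
        show base (CT T' (e' + 1)) ≠ leg T e i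
        simp)
    · have h1 : (leg T' e' i' : Vx K) = leg T e i := h
      injection h1 with h2 h3 h4
      subst h2 h3 h4
      exact Orb.refl _
    · have h1 : pre T' e' i' = leg T e i := h
      unfold pre at h1
      by_cases h0 : i' = 0
      · rw [if_pos h0] at h1
        exact absurd h1 (by simp)
      · rw [if_neg h0] at h1
        injection h1 with h2 h3 h4
        subst h2 h3 h4
        exact orb1_c4 (rt_L1_c4 T' e' h0)
  · fin_cases k
    · exact absurd h (by
        show base (CT T' (e' + 2)) ≠ leg T e i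
        simp)
    · have h1 : pre T' e' i' = leg T e i := h
      unfold pre at h1
      by_cases h0 : i' = 0
      · rw [if_pos h0] at h1
        exact absurd h1 (by simp)
      · rw [if_neg h0] at h1
        injection h1 with h2 h3 h4
        subst h2 h3 h4
        exact (orb1_c4 (rt_L1_c4 T' e' h0)).trans (orb1_c4 rfl)
    · have h1 : (leg T' e' i' : Vx K) = leg T e i := h
      injection h1 with h2 h3 h4
      subst h2 h3 h4
      exact Orb.symm (orb1_c4 rfl)
  · fin_cases k
    · exact absurd h (by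
        show base (CT T' (e' + 1)) ≠ leg T e i
        simp)
    · exact absurd h (by
        show base (CT T' (e' + 2)) ≠ leg T e i
        simp)
    · have h1 : (leg T' e' (Fin.last K) : Vx K) = leg T e i := h
      injection h1 with h2 h3 h4
      subst h2 h3 h4
      refine orb1_c4 ?_
      show (if Fin.last K = Fin.last K then E T' e' 2 else L T' e' (Fin.last K + 1) 2) = E T' e' 2
      exact if_pos rfl

private theorem orb_next_c4 (T : Fin 6) (e : Fin 3) :
    Orb (L T e 0 2 : Dx K) (L T (e + 1) 0 2) := by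
  have h1 : Orb (L T e 0 2 : Dx K) (R T e 0 1) := orb1_c4 rfl
  refine h1.trans (orb1_c4 ?_)
  show (if (0 : Fin (K + 1)) = 0 then L T (e + 1) 0 2 else R T e (0 - 1) 2) = L T (e + 1) 0 2
  exact if_pos rfl

private theorem orb_all_c4 (T : Fin 6) (e : Fin 3) : Orb (L T 0 0 2 : Dx K) (L T e 0 2) := by
  have h0 : Orb (L T 0 0 2 : Dx K) (L T 1 0 2) := orb_next_c4 T 0
  have h1 : Orb (L T 1 0 2 : Dx K) (L T 2 0 2) := orb_next_c4 T 1
  fin_cases e
  · exact Orb.refl _
  · exact h0
  · exact h0.trans h1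

/-- [DG-C4b] the half-edges at `ctr T`: `L T e 0 2`, `R T e 0 1`. Rotation: `L T e 0 2 → R T e 0 1 →
L T (e+1) 0 2 → ...` -/
theorem orb_ctr (T : Fin 6) (d : Dx K) (h : tl d = ctr T) : Orb (L T 0 0 2) d := by
  rcases d with ⟨T', e', i', k⟩ | ⟨T', e', i', k⟩ | ⟨T', e', k⟩
  · fin_cases k
    · exact absurd h (by
        show base (CT T' (e' + 1)) ≠ ctr T
        simp)
    · exact absurd h (by
        show leg T' e' i' ≠ ctr T
        simp)
    · have h1 : pre T' e' i' = ctr T := h
      unfold pre at h1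
      by_cases h0 : i' = 0
      · rw [if_pos h0] at h1
        injection h1 with h2
        subst h2 h0
        exact orb_all_c4 T' e'
      · rw [if_neg h0] at h1
        exact absurd h1 (by simp)
  · fin_cases k
    · exact absurd h (by
        show base (CT T' (e' + 2)) ≠ ctr T
        simp)
    · have h1 : pre T' e' i' = ctr T := h
      unfold pre at h1
      by_cases h0 : i' = 0
      · rw [if_pos h0] at h1
        injection h1 with h2
        subst h2 h0
        exact (orb_all_c4 T' e').trans (orb1_c4 rfl)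
      · rw [if_neg h0] at h1
        exact absurd h1 (by simp)
    · exact absurd h (by
        show leg T' e' i' ≠ ctr T
        simp)
  · fin_cases k
    · exact absurd h (by
        show base (CT T' (e' + 1)) ≠ ctr T
        simp)
    · exact absurd h (by
        show base (CT T' (e' + 2)) ≠ ctr T
        simp)
    · exact absurd h (by
        show leg T' e' (Fin.last K) ≠ ctr T
        simp)

end QGd
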