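import Pool.Agent.Lib_MP_6b5565_dg.C4

/-! [DG-C5] the rotation around the vertices -/

namespace QGd

open Vx Dx

variable {K : ℕ}

private theorem c5_e (e : Fin 3) : e + 2 + 2 = e + 1 := by
  revert e; decide

private theorem c5_s1 (T : Fin 6) (e : Fin 3) (j : ℕ) (hj : j ≤ K) :
    rt^[j + 1] (E T (e + 2) 0 : Dx K) = L T (e + 2) ⟨K - j, by omega⟩ 0 := by
  induction j with
  | zero => rfl
  | succ j ih =>
    rw [Function.iterate_succ_apply', ih (by omega)]
    have h0 : (⟨K - j, by omega⟩ : Fin (K + 1)) ≠ 0 := by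
      intro h
      have := congrArg Fin.val h
      simp only [Fin.val_zero] at this
      omega
    have h1 : (⟨K - j, by omega⟩ : Fin (K + 1)) - 1 = ⟨K - (j + 1), by omega⟩ := by
      apply Fin.ext
      rw [Fin.val_sub_one_of_ne_zero h0]
      simp only []
      omega
    have h2 : rt (L T (e + 2) ⟨K - j, by omega⟩ 0 : Dx K) =
        if (⟨K - j, by omega⟩ : Fin (K + 1)) = 0 then R T (e + 2 + 2) 0 0
        else L T (e + 2) ((⟨K - j, by omega⟩ : Fin (K + 1)) - 1) 0 := rfl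
    rw [h2, if_neg h0, h1]

private theorem c5_s2 (T : Fin 6) (e : Fin 3) (j : ℕ) (hj : j ≤ K) :
    rt^[K + 2 + j] (E T (e + 2) 0 : Dx K) = R T (e + 1) ⟨j, by omega⟩ 0 := by
  induction j with
  | zero =>
    rw [Nat.add_zero, Function.iterate_succ_apply', c5_s1 T e K le_rfl]
    have h0 : (⟨K - K, by omega⟩ : Fin (K + 1)) = 0 := by
      apply Fin.ext
      simp
    rw [h0]
    have h2 : rt (L T (e + 2) 0 0 : Dx K) =
        if (0 : Fin (K + 1)) = 0 then R T (e + 2 + 2) 0 0 else L T (e + 2) (0 - 1) 0 := rfl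
    rw [h2, if_pos rfl, c5_e]
    rfl
  | succ j ih =>
    have e1 : K + 2 + (j + 1) = (K + 2 + j) + 1 := by omega
    rw [e1, Function.iterate_succ_apply', ih (by omega)]
    have h0 : (⟨j, by omega⟩ : Fin (K + 1)) ≠ Fin.last K := by
      intro h
      have := congrArg Fin.val h
      simp only [Fin.val_last] at this
      omega
    have h1 : (⟨j, by omega⟩ : Fin (K + 1)) + 1 = ⟨j + 1, by omega⟩ := by
      apply Fin.ext
      rw [Fin.val_add_one_of_lt (Fin.lt_last_iff_ne_last.mpr h0)]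
    have h2 : rt (R T (e + 1) ⟨j, by omega⟩ 0 : Dx K) =
        if (⟨j, by omega⟩ : Fin (K + 1)) = Fin.last K then E T (e + 1) 1
        else R T (e + 1) ((⟨j, by omega⟩ : Fin (K + 1)) + 1) 0 := rfl
    rw [h2, if_neg h0, h1]

/-- [DG-C4c] THE SECTOR. Let `p = CT T e`. The half-edges at `base p` in the face `T`, in the order
of the rotation: `E T (e+2) 0`, `L T (e+2) K 0, ..., L T (e+2) 0 0`, `R T (e+1) 0 0, ...,
R T (e+1) K 0`, `E T (e+1) 1`; then comes the first half-edge of the next sector,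
`iv (E T (e+1) 0)`. `2K+4` steps in all. -/
theorem sector_1 (T : Fin 6) (e : Fin 3) (j : Fin (K + 1)) :
    rt^[j + 1] (E T (e + 2) 0 : Dx K) = L T (e + 2) (Fin.last K - j) 0 := by
  rw [c5_s1 T e j (Nat.lt_succ_iff.mp j.2)]
  congr 1
  apply Fin.ext
  rw [Fin.sub_val_of_le (Fin.le_last j), Fin.val_last]

theorem sector_2 (T : Fin 6) (e : Fin 3) (j : Fin (K + 1)) :
    rt^[K + 2 + j] (E T (e + 2) 0 : Dx K) = R T (e + 1) j 0 :=
  c5_s2 T e j (Nat.lt_succ_iff.mp j.2)

theorem sector_3 (T : Fin 6) (e : Fin 3) :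
    rt^[2 * K + 3] (E T (e + 2) 0 : Dx K) = E T (e + 1) 1 := by
  have e1 : 2 * K + 3 = (K + 2 + K) + 1 := by omega
  rw [e1, Function.iterate_succ_apply', c5_s2 T e K le_rfl]
  have h2 : rt (R T (e + 1) ⟨K, by omega⟩ 0 : Dx K) =
      if (⟨K, by omega⟩ : Fin (K + 1)) = Fin.last K then E T (e + 1) 1
      else R T (e + 1) ((⟨K, by omega⟩ : Fin (K + 1)) + 1) 0 := rfl
  have h3 : (⟨K, by omega⟩ : Fin (K + 1)) = Fin.last K := rfl
  rw [h2, if_pos h3]

theorem sector_4 (T : Fin 6) (e : Fin 3) :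
    rt^[2 * K + 4] (E T (e + 2) 0 : Dx K) = E (adj T (e + 1)).1 (adj T (e + 1)).2 0 := by
  have e1 : 2 * K + 4 = (2 * K + 3) + 1 := by omega
  rw [e1, Function.iterate_succ_apply', sector_3]
  rfl

end QGd
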