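import Pool.Agent.Lib_MP_6b5565_dg.C5

/-! [DG-C6] the rotation around the vertices -/

namespace QGd

open Vx Dx

variable {K : ℕ}

/-- the next sector at the corner `(T, e)`, counterclockwise: `(T', e')` with
`CT T' e' = CT T e` and `E T' (e'+2) 0 = E (adj T (e+1)).1 (adj T (e+1)).2 0` -/
def nsec (s : Fin 6 × Fin 3) : Fin 6 × Fin 3 :=
  ((adj s.1 (s.2 + 1)).1, (adj s.1 (s.2 + 1)).2 + 1)

theorem nsec_corner (s : Fin 6 × Fin 3) : CT (nsec s).1 (nsec s).2 = CT s.1 s.2 := by
  revert s; decide

/-- all sectors at a base vertex are in one cycle of `nsec` -/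
theorem nsec_trans (s s' : Fin 6 × Fin 3) (h : CT s.1 s.2 = CT s'.1 s'.2) :
    ∃ k : Fin 4, nsec^[(k : ℕ)] s = s' := by
  revert s s'; decide

/-- [DG-C4d] the half-edges at a base vertex are in one orbit: by `sector_*` every half-edge at
`base p` is in the orbit of some `E T (e+2) 0` with `CT T e = p`, and these are in one orbit by
`sector_4` and `nsec_trans`. -/
theorem orb_base (s : Fin 6 × Fin 3) (d : Dx K) (h : tl d = base (CT s.1 s.2)) :
    Orb (E s.1 (s.2 + 2) 0) d := by
  have h3 : ∀ e : Fin 3, e + 1 + 2 = e := by decide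
  have h3' : ∀ e : Fin 3, e + 2 + 1 = e := by decide
  have key : ∃ s' : Fin 6 × Fin 3, CT s'.1 s'.2 = CT s.1 s.2 ∧
      Orb (E s'.1 (s'.2 + 2) 0 : Dx K) d := by
    rcases d with ⟨T, e, i, k⟩ | ⟨T, e, i, k⟩ | ⟨T, e, k⟩
    · fin_cases k
      · refine ⟨(T, e + 1), ?_, ((Fin.last K - i : Fin (K + 1)) : ℕ) + 1, ?_⟩
        · have h' : (base (CT T (e + 1)) : Vx K) = base (CT s.1 s.2) := h
          exact Vx.base.inj h'
        · have h1 := sector_1 (K := K) T (e + 1) (Fin.last K - i)
          rw [sub_sub_cancel] at h1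
          show rt^[((Fin.last K - i : Fin (K + 1)) : ℕ) + 1] (E T (e + 1 + 2) 0 : Dx K) = L T e i 0
          rw [h1, h3]
      · exact absurd (show (leg T e i : Vx K) = base (CT s.1 s.2) from h) (by simp)
      · have h' : pre T e i = base (CT s.1 s.2) := h
        unfold pre at h'
        split_ifs at h'
    · fin_cases k
      · refine ⟨(T, e + 2), ?_, K + 2 + (i : ℕ), ?_⟩
        · have h' : (base (CT T (e + 2)) : Vx K) = base (CT s.1 s.2) := h
          exact Vx.base.inj h'
        · have h1 := sector_2 (K := K) T (e + 2) i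
          show rt^[K + 2 + (i : ℕ)] (E T (e + 2 + 2) 0 : Dx K) = R T e i 0
          rw [h1, h3']
      · have h' : pre T e i = base (CT s.1 s.2) := h
        unfold pre at h'
        split_ifs at h'
      · exact absurd (show (leg T e i : Vx K) = base (CT s.1 s.2) from h) (by simp)
    · fin_cases k
      · refine ⟨(T, e + 1), ?_, 0, ?_⟩
        · have h' : (base (CT T (e + 1)) : Vx K) = base (CT s.1 s.2) := h
          exact Vx.base.inj h'
        · show (E T (e + 1 + 2) 0 : Dx K) = E T e 0
          rw [h3]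
      · refine ⟨(T, e + 2), ?_, 2 * K + 3, ?_⟩
        · have h' : (base (CT T (e + 2)) : Vx K) = base (CT s.1 s.2) := h
          exact Vx.base.inj h'
        · have h1 := sector_3 (K := K) T (e + 2)
          show rt^[2 * K + 3] (E T (e + 2 + 2) 0 : Dx K) = E T e 1
          rw [h1, h3']
      · exact absurd (show (leg T e (Fin.last K) : Vx K) = base (CT s.1 s.2) from h) (by simp)
  obtain ⟨s', hs', ho⟩ := key
  obtain ⟨k, hk⟩ := nsec_trans s s' hs'.symm
  have hstep : ∀ t : Fin 6 × Fin 3,
      Orb (E t.1 (t.2 + 2) 0 : Dx K) (E (nsec t).1 ((nsec t).2 + 2) 0) := by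
    intro t
    refine ⟨2 * K + 4, ?_⟩
    rw [sector_4 (K := K) t.1 t.2]
    show (E (adj t.1 (t.2 + 1)).1 (adj t.1 (t.2 + 1)).2 0 : Dx K) =
      E (adj t.1 (t.2 + 1)).1 ((adj t.1 (t.2 + 1)).2 + 1 + 2) 0
    rw [h3]
  have hall : ∀ n : ℕ, Orb (E s.1 (s.2 + 2) 0 : Dx K)
      (E (nsec^[n] s).1 ((nsec^[n] s).2 + 2) 0) := by
    intro n
    induction n with
    | zero => exact Orb.refl _
    | succ n ih =>
      rw [Function.iterate_succ_apply']
      exact ih.trans (hstep _)
  have h1 := hall k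
  rw [hk] at h1
  exact h1.trans ho

/-- [DG-C4e] -/
theorem orbit (d d' : Dx K) (h : tl d = tl d') : ∃ k : ℕ, (fun a => iv (nx (nx a)))^[k] d = d' := by
  have key : Orb d d' := by
    rcases hv : tl d with p | T | ⟨T, e, i⟩
    · have hs : ∀ p : Fin 5, ∃ s : Fin 6 × Fin 3, CT s.1 s.2 = p := by decide
      obtain ⟨s, hs⟩ := hs p
      have h1 := orb_base s d (by rw [hv, hs])
      have h2 := orb_base s d' (by rw [← h, hv, hs])
      exact h1.symm.trans h2
    · have h1 := orb_ctr T d hv
      have h2 := orb_ctr T d' (by rw [← h, hv])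
      exact h1.symm.trans h2
    · have h1 := orb_leg T e i d hv
      have h2 := orb_leg T e i d' (by rw [← h, hv])
      exact h1.symm.trans h2
  exact key

end QGd
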