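import Pool.Agent.Lib_MP_6b5565_dg.Geo

/-! [DG-D1] determinants in the frame of a face -/

namespace QGd

open EuclideanGeometry Vx Dx

noncomputable section

/-- [DG-D1a] the normal computed from the corner `e` (cyclic invariance) -/
theorem nrm_eq (T : Fin 6) (e : Fin 3) :
    nrm T = crs (cor T (e + 1) - cor T e) (cor T (e + 2) - cor T e) := by
  have h : ∀ a b c : E3, crs (b - a) (c - a) = crs (c - b) (a - b) := by
    intro a b c
    ext j
    fin_cases j <;> simp [crs] <;> ring
  unfold nrm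
  fin_cases e
  · rfl
  · exact h _ _ _
  · exact (h _ _ _).trans (h _ _ _)

/-- [DG-D1d] `fp` from the next corner -/
theorem fp_rot (T : Fin 6) (e : Fin 3) (a b g h : ℝ) : fp T e a b g h = fp T (e + 1) b g a h := by
  have h1 : e + 1 + 1 = e + 2 := by revert e; decide
  have h2 : e + 1 + 2 = e := by revert e; decide
  unfold fp
  rw [h1, h2]
  abel

/-- [DG-D1h] the ideal point in terms of `fp` -/
theorem idl_fp (K : ℕ) (T : Fin 6) (e : Fin 3) (s : ℝ) :
    idl K T e s = fp T e ((1 - s) / 3) ((5 + s) / 15) ((5 + 4 * s) / 15) (hgt K s) := rfl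

/-- [DG-D1i] the centre does not depend on the leg -/
theorem idl_zero (K : ℕ) (T : Fin 6) (e : Fin 3) : idl K T e 0 = idl K T 0 0 := by
  have h : ∀ e : Fin 3, idl K T e 0 = idl K T (e + 1) 0 := by
    intro e
    rw [idl_fp, idl_fp, fp_rot]
    norm_num
  fin_cases e
  · rfl
  · exact (h 0).symm
  · exact (h 2)

/-- [DG-D1j] the ideal position of `Y j` -/
theorem ideal_Y (K : ℕ) (T : Fin 6) (e : Fin 3) (j : ℕ) (hj : j ≤ K + 1) :
    ideal K (Y K T e j) = idl K T e (sj K j) := by
  cases j with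
  | zero =>
    have h : sj K 0 = 0 := by simp [sj]
    rw [h, idl_zero]
    rfl
  | succ j =>
    have h : ((Fin.ofNat (K + 1) j : Fin (K + 1)) : ℕ) = j := by
      rw [Fin.val_ofNat]
      exact Nat.mod_eq_of_lt (by omega)
    show idl K T e (sj K (((Fin.ofNat (K + 1) j : Fin (K + 1)) : ℕ) + 1)) = _
    rw [h]

end

end QGd
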