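import Pool.Agent.Lib_MP_6b5565_dg.D1

/-! [DG-D1b] determinants in the frame of a face -/

namespace QGd

open EuclideanGeometry Vx Dx

noncomputable section

private theorem rdet_comb_d1b (e1 e2 e3 : E3) (a1 b1 c1 a2 b2 c2 a3 b3 c3 : ℝ) :
    rdet (a1 • e1 + b1 • e2 + c1 • e3) (a2 • e1 + b2 • e2 + c2 • e3)
      (a3 • e1 + b3 • e2 + c3 • e3) =
    (a1 * (b2 * c3 - c2 * b3) - b1 * (a2 * c3 - c2 * a3) + c1 * (a2 * b3 - b2 * a3)) *
      rdet e1 e2 e3 := by
  simp only [rdet, PiLp.add_apply, PiLp.smul_apply, smul_eq_mul]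
  ring

private theorem fp_q_d1b (T : Fin 6) (e : Fin 3) (a b g h : ℝ) (h1 : a + b + g = 1) :
    fp T e a b g h - cor T (e + 1) =
      a • (cor T e - cor T (e + 1)) + g • (cor T (e + 2) - cor T (e + 1)) + h • nrm T := by
  have hb : b = 1 - a - g := by linarith
  subst hb
  unfold fp
  module

private theorem fp_r_d1b (T : Fin 6) (e : Fin 3) (a b g h : ℝ) (h1 : a + b + g = 1) :
    fp T e a b g h - cor T (e + 2) =
      a • (cor T e - cor T (e + 2)) + b • (cor T (e + 1) - cor T (e + 2)) + h • nrm T := by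
  have hg : g = 1 - a - b := by linarith
  subst hg
  unfold fp
  module

private theorem crs_q_d1b (p q r : E3) : crs (p - q) (r - q) = -crs (q - p) (r - p) := by
  ext j
  fin_cases j <;> simp [crs] <;> ring

private theorem crs_r_d1b (p q r : E3) : crs (p - r) (q - r) = crs (q - p) (r - p) := by
  ext j
  fin_cases j <;> simp [crs] <;> ring

private theorem base_q_d1b (T : Fin 6) (e : Fin 3) :
    rdet (cor T e - cor T (e + 1)) (cor T (e + 2) - cor T (e + 1)) (nrm T) = -‖nrm T‖ ^ 2 := by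
  rw [rdet_eq_inner, crs_q_d1b, ← nrm_eq, inner_neg_left, real_inner_self_eq_norm_sq]

private theorem base_r_d1b (T : Fin 6) (e : Fin 3) :
    rdet (cor T e - cor T (e + 2)) (cor T (e + 1) - cor T (e + 2)) (nrm T) = ‖nrm T‖ ^ 2 := by
  rw [rdet_eq_inner, crs_r_d1b, ← nrm_eq, real_inner_self_eq_norm_sq]

/-- [DG-D1e] determinant for a face with the hub `q = cor T (e+1)` -/
theorem det_L (T : Fin 6) (e : Fin 3) (a b g h a' b' g' h' x y z w : ℝ) (h1 : a + b + g = 1)
    (h2 : a' + b' + g' = 1) (h3 : x + y + z = 1) :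
    rdet (fp T e a' b' g' h' - cor T (e + 1)) (fp T e a b g h - cor T (e + 1))
      (fp T e x y z w - cor T (e + 1)) =
    -‖nrm T‖ ^ 2 * (w * (a' * g - a * g') + z * (a * h' - a' * h) + x * (g' * h - g * h')) := by
  rw [fp_q_d1b T e a b g h h1, fp_q_d1b T e a' b' g' h' h2, fp_q_d1b T e x y z w h3,
    rdet_comb_d1b, base_q_d1b]
  ring

/-- [DG-D1f] determinant for a face with the hub `r = cor T (e+2)` -/
theorem det_R (T : Fin 6) (e : Fin 3) (a b g h a' b' g' h' x y z w : ℝ) (h1 : a + b + g = 1)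
    (h2 : a' + b' + g' = 1) (h3 : x + y + z = 1) :
    rdet (fp T e a b g h - cor T (e + 2)) (fp T e a' b' g' h' - cor T (e + 2))
      (fp T e x y z w - cor T (e + 2)) =
    ‖nrm T‖ ^ 2 * (w * (a * b' - b * a') + y * (h * a' - a * h') + x * (b * h' - h * b')) := by
  rw [fp_r_d1b T e a b g h h1, fp_r_d1b T e a' b' g' h' h2, fp_r_d1b T e x y z w h3,
    rdet_comb_d1b, base_r_d1b]
  ring

/-- [DG-D1g] determinant for the face `(q, r, Y)` -/
theorem det_E (T : Fin 6) (e : Fin 3) (a b g h x y z w : ℝ) (h1 : a + b + g = 1)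
    (h3 : x + y + z = 1) :
    rdet (cor T (e + 2) - cor T (e + 1)) (fp T e a b g h - cor T (e + 1))
      (fp T e x y z w - cor T (e + 1)) = ‖nrm T‖ ^ 2 * (a * w - h * x) := by
  have h0 : cor T (e + 2) - cor T (e + 1) =
      (0 : ℝ) • (cor T e - cor T (e + 1)) + (1 : ℝ) • (cor T (e + 2) - cor T (e + 1)) +
        (0 : ℝ) • nrm T := by
    module
  rw [h0, fp_q_d1b T e a b g h h1, fp_q_d1b T e x y z w h3, ← h0]
  have h4 : rdet ((0 : ℝ) • (cor T e - cor T (e + 1)) +
        (1 : ℝ) • (cor T (e + 2) - cor T (e + 1)) + (0 : ℝ) • nrm T)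
      (a • (cor T e - cor T (e + 1)) + g • (cor T (e + 2) - cor T (e + 1)) + h • nrm T)
      (x • (cor T e - cor T (e + 1)) + z • (cor T (e + 2) - cor T (e + 1)) + w • nrm T) =
      ‖nrm T‖ ^ 2 * (a * w - h * x) := by
    rw [rdet_comb_d1b, base_q_d1b]
    ring
  rw [← h0] at h4
  exact h4

end

end QGd
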