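import Pool.Agent.Lib_MP_6b5565_dg.D1b

/-! [DG-D1c] determinants in the frame of a face -/

namespace QGd

open EuclideanGeometry Vx Dx

noncomputable section

private theorem nsq (x : E3) : ‖x‖ ^ 2 = x 0 ^ 2 + x 1 ^ 2 + x 2 ^ 2 := by
  rw [EuclideanSpace.real_norm_sq_eq, Fin.sum_univ_three]

/-- [DG-D1b] squared lengths of the normals: 1, 37, 37, 66, 1317, 1410 -/
theorem nrm_sq (T : Fin 6) : 1 ≤ ‖nrm T‖ ^ 2 ∧ ‖nrm T‖ ^ 2 ≤ 1500 := by
  rw [nsq]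
  fin_cases T <;> simp [nrm, cor, bpt, pt, crs, CT, BV] <;> norm_num

private theorem bpt_sub (v w : Fin 5) : ‖bpt v - bpt w‖ ^ 2 =
    (((BV v 0 - BV w 0) ^ 2 + (BV v 1 - BV w 1) ^ 2 + (BV v 2 - BV w 2) ^ 2 : ℤ) : ℝ) := by
  rw [nsq]
  simp [bpt, pt]

private theorem bpt_nrm (v : Fin 5) : ‖bpt v‖ ^ 2 =
    ((BV v 0 ^ 2 + BV v 1 ^ 2 + BV v 2 ^ 2 : ℤ) : ℝ) := by
  rw [nsq]
  simp [bpt, pt]

private theorem BV_dist : ∀ v w : Fin 5,
    (BV v 0 - BV w 0) ^ 2 + (BV v 1 - BV w 1) ^ 2 + (BV v 2 - BV w 2) ^ 2 ≤ 100 ∧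
    BV v 0 ^ 2 + BV v 1 ^ 2 + BV v 2 ^ 2 ≤ 100 ∧
    (v ≠ w → 1 ≤ (BV v 0 - BV w 0) ^ 2 + (BV v 1 - BV w 1) ^ 2 + (BV v 2 - BV w 2) ^ 2) := by
  decide

private theorem CT_inj : ∀ (T : Fin 6) (e e' : Fin 3), e ≠ e' → CT T e ≠ CT T e' := by
  decide

/-- [DG-D1c] sides of the faces -/
theorem side_le (T : Fin 6) (e e' : Fin 3) : ‖cor T e - cor T e'‖ ≤ 10 ∧ ‖cor T e‖ ≤ 10 ∧
    (e ≠ e' → 1 ≤ ‖cor T e - cor T e'‖) := by
  obtain ⟨h1, h2, h3⟩ := BV_dist (CT T e) (CT T e')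
  have e1 := bpt_sub (CT T e) (CT T e')
  have e2 := bpt_nrm (CT T e)
  have h1' : ‖bpt (CT T e) - bpt (CT T e')‖ ^ 2 ≤ 10 ^ 2 := by
    rw [e1]
    have : (((BV (CT T e) 0 - BV (CT T e') 0) ^ 2 + (BV (CT T e) 1 - BV (CT T e') 1) ^ 2 +
      (BV (CT T e) 2 - BV (CT T e') 2) ^ 2 : ℤ) : ℝ) ≤ ((100 : ℤ) : ℝ) := by exact_mod_cast h1
    refine this.trans (le_of_eq ?_)
    norm_num
  have h2' : ‖bpt (CT T e)‖ ^ 2 ≤ 10 ^ 2 := by
    rw [e2]
    have : ((BV (CT T e) 0 ^ 2 + BV (CT T e) 1 ^ 2 + BV (CT T e) 2 ^ 2 : ℤ) : ℝ) ≤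
      ((100 : ℤ) : ℝ) := by exact_mod_cast h2
    refine this.trans (le_of_eq ?_)
    norm_num
  refine ⟨abs_le_of_sq_le_sq' h1' (by norm_num) |>.2, abs_le_of_sq_le_sq' h2' (by norm_num) |>.2,
    fun h => ?_⟩
  have h4 := h3 (CT_inj T e e' h)
  have h5 : (1 : ℝ) ^ 2 ≤ ‖bpt (CT T e) - bpt (CT T e')‖ ^ 2 := by
    rw [e1]
    have : ((1 : ℤ) : ℝ) ≤ (((BV (CT T e) 0 - BV (CT T e') 0) ^ 2 +
      (BV (CT T e) 1 - BV (CT T e') 1) ^ 2 +
      (BV (CT T e) 2 - BV (CT T e') 2) ^ 2 : ℤ) : ℝ) := by exact_mod_cast h4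
    refine le_trans (le_of_eq ?_) this
    norm_num
  exact abs_le_of_sq_le_sq' h5 (norm_nonneg _) |>.2

private theorem bo (T : Fin 6) (v : Fin 5) (hv : ∀ k, CT T k ≠ v) :
    ∃ a b g h : ℝ, a + b + g = 1 ∧ bpt v = fp T 0 a b g h ∧ |a| ≤ 9 ∧ |b| ≤ 9 ∧ |g| ≤ 9 ∧
      h ≤ -(1 / 66) := by
  have key : ∀ a b g h : ℝ, a + b + g = 1 → (∀ i, bpt v i = fp T 0 a b g h i) → |a| ≤ 9 →
      |b| ≤ 9 → |g| ≤ 9 → h ≤ -(1 / 66) → ∃ a b g h : ℝ, a + b + g = 1 ∧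
      bpt v = fp T 0 a b g h ∧ |a| ≤ 9 ∧ |b| ≤ 9 ∧ |g| ≤ 9 ∧ h ≤ -(1 / 66) := by
    intro a b g h h1 h2 h3 h4 h5 h6
    exact ⟨a, b, g, h, h1, PiLp.ext h2, h3, h4, h5, h6⟩
  fin_cases T <;> fin_cases v
  · exact absurd rfl (hv 0)
  · exact absurd rfl (hv 1)
  · exact absurd rfl (hv 2)
  · exact key (-8) 5 4 (-1) (by norm_num) (fun i => by
      fin_cases i <;> simp [fp, cor, bpt, pt, nrm, crs, CT, BV])
      (by norm_num [abs_le]) (by norm_num [abs_le]) (by norm_num [abs_le]) (by norm_num)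
  · exact key 3 (-1) (-1) (-6) (by norm_num) (fun i => by
      fin_cases i <;> simp [fp, cor, bpt, pt, nrm, crs, CT, BV])
      (by norm_num [abs_le]) (by norm_num [abs_le]) (by norm_num [abs_le]) (by norm_num)
  · exact absurd rfl (hv 0)
  · exact absurd rfl (hv 2)
  · exact key (39 / 37) (-(1 / 37)) (-(1 / 37)) (-(6 / 37)) (by norm_num) (fun i => by
      fin_cases i <;> simp [fp, cor, bpt, pt, nrm, crs, CT, BV] <;> norm_num)
      (by norm_num [abs_le]) (by norm_num [abs_le]) (by norm_num [abs_le]) (by norm_num)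
  · exact key (-(152 / 37)) (2 / 37) (187 / 37) (-(25 / 37)) (by norm_num) (fun i => by
      fin_cases i <;> simp [fp, cor, bpt, pt, nrm, crs, CT, BV] <;> norm_num)
      (by norm_num [abs_le]) (by norm_num [abs_le]) (by norm_num [abs_le]) (by norm_num)
  · exact absurd rfl (hv 1)
  · exact absurd rfl (hv 0)
  · exact key (39 / 37) (-(1 / 37)) (-(1 / 37)) (-(6 / 37)) (by norm_num) (fun i => by
      fin_cases i <;> simp [fp, cor, bpt, pt, nrm, crs, CT, BV] <;> norm_num)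
      (by norm_num [abs_le]) (by norm_num [abs_le]) (by norm_num [abs_le]) (by norm_num)
  · exact absurd rfl (hv 1)
  · exact key (-(113 / 37)) (149 / 37) (1 / 37) (-(31 / 37)) (by norm_num) (fun i => by
      fin_cases i <;> simp [fp, cor, bpt, pt, nrm, crs, CT, BV] <;> norm_num)
      (by norm_num [abs_le]) (by norm_num [abs_le]) (by norm_num [abs_le]) (by norm_num)
  · exact absurd rfl (hv 2)
  · exact key (41 / 66) (-(4 / 33)) (1 / 2) (-(1 / 66)) (by norm_num) (fun i => by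
      fin_cases i <;> simp [fp, cor, bpt, pt, nrm, crs, CT, BV] <;> norm_num)
      (by norm_num [abs_le]) (by norm_num [abs_le]) (by norm_num [abs_le]) (by norm_num)
  · exact absurd rfl (hv 0)
  · exact absurd rfl (hv 2)
  · exact absurd rfl (hv 1)
  · exact key (15 / 22) (-(2 / 11)) (1 / 2) (-(17 / 22)) (by norm_num) (fun i => by
      fin_cases i <;> simp [fp, cor, bpt, pt, nrm, crs, CT, BV] <;> norm_num)
      (by norm_num [abs_le]) (by norm_num [abs_le]) (by norm_num [abs_le]) (by norm_num)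
  · exact key (1427 / 1317) (14 / 439) (-(152 / 1317)) (-(25 / 1317)) (by norm_num) (fun i => by
      fin_cases i <;> simp [fp, cor, bpt, pt, nrm, crs, CT, BV] <;> norm_num)
      (by norm_num [abs_le]) (by norm_num [abs_le]) (by norm_num [abs_le]) (by norm_num)
  · exact absurd rfl (hv 0)
  · exact key (426 / 439) (11 / 439) (2 / 439) (-(17 / 439)) (by norm_num) (fun i => by
      fin_cases i <;> simp [fp, cor, bpt, pt, nrm, crs, CT, BV] <;> norm_num)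
      (by norm_num [abs_le]) (by norm_num [abs_le]) (by norm_num [abs_le]) (by norm_num)
  · exact absurd rfl (hv 2)
  · exact absurd rfl (hv 1)
  · exact key (734 / 705) (-(113 / 1410)) (11 / 282) (-(31 / 1410)) (by norm_num) (fun i => by
      fin_cases i <;> simp [fp, cor, bpt, pt, nrm, crs, CT, BV] <;> norm_num)
      (by norm_num [abs_le]) (by norm_num [abs_le]) (by norm_num [abs_le]) (by norm_num)
  · exact key (213 / 235) (29 / 470) (3 / 94) (-(17 / 470)) (by norm_num) (fun i => by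
      fin_cases i <;> simp [fp, cor, bpt, pt, nrm, crs, CT, BV] <;> norm_num)
      (by norm_num [abs_le]) (by norm_num [abs_le]) (by norm_num [abs_le]) (by norm_num)
  · exact absurd rfl (hv 0)
  · exact absurd rfl (hv 1)
  · exact absurd rfl (hv 2)

/-- [DG-D1k] the base vertices outside the face `T` in the frame of `T` (12 cases; by explicit
rational numbers) -/
theorem base_out (T : Fin 6) (e : Fin 3) (v : Fin 5) (hv : ∀ k, CT T k ≠ v) :
    ∃ a b g h : ℝ, a + b + g = 1 ∧ bpt v = fp T e a b g h ∧ |a| ≤ 9 ∧ |b| ≤ 9 ∧ |g| ≤ 9 ∧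
      h ≤ -(1 / 66) := by
  obtain ⟨a, b, g, h, h1, h2, h3, h4, h5, h6⟩ := bo T v hv
  fin_cases e
  · exact ⟨a, b, g, h, h1, h2, h3, h4, h5, h6⟩
  · exact ⟨b, g, a, h, by linarith, h2.trans (fp_rot T 0 a b g h), h4, h5, h3, h6⟩
  · exact ⟨g, a, b, h, by linarith, h2.trans ((fp_rot T 0 a b g h).trans
      (fp_rot T (0 + 1) b g a h)), h5, h3, h4, h6⟩

end

end QGd
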