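import Pool.Agent.Lib_MP_6b5565_dg.D1c

/-! [DG-D3] strict convexity of the ideal mesh inside a face: faces `R T e i` -/

namespace QGd

open EuclideanGeometry Vx Dx

noncomputable section

private theorem n_pos (K : ℕ) : (0 : ℝ) < (K : ℝ) + 2 := by positivity

private theorem sj_step (K j : ℕ) : sj K (j + 1) - sj K j = 1 / ((K : ℝ) + 2) := by
  have h := (n_pos K).ne'
  unfold sj
  push_cast
  field_simp
  ring

private theorem sj_nonneg (K j : ℕ) : 0 ≤ sj K j := by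
  unfold sj
  positivity

private theorem sj_le (K j : ℕ) (hj : j ≤ K + 1) : sj K j ≤ 1 - 1 / ((K : ℝ) + 2) := by
  have h := n_pos K
  have h1 : (j : ℝ) ≤ (K : ℝ) + 1 := by exact_mod_cast hj
  unfold sj
  rw [div_le_iff₀ h, sub_mul, one_div, inv_mul_cancel₀ h.ne']
  linarith

private theorem eps_pos (K : ℕ) : 0 < eps K := by
  unfold eps
  positivity

private theorem u_ge (K : ℕ) : (1 / 2 : ℝ) ^ (K + 2) ≤ 1 / ((K : ℝ) + 2) := by
  have h : ((K + 2 : ℕ) : ℝ) ≤ ((2 ^ (K + 2) : ℕ) : ℝ) := by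
    exact_mod_cast (Nat.lt_two_pow_self (n := K + 2)).le
  push_cast at h
  rw [one_div, inv_pow, one_div]
  exact inv_anti₀ (n_pos K) h

private theorem eps_le (K : ℕ) : eps K ≤ 1 / ((K : ℝ) + 2) / 10 ^ 6 := by
  have h1 := u_ge K
  have h2 : eps K = (1 / 2 : ℝ) ^ (K + 2) * ((1 / 2 : ℝ) ^ K * (1 / 2) ^ 98) := by
    unfold eps
    rw [← pow_add, ← pow_add]
    congr 1
    ring
  have h3 : (1 / 2 : ℝ) ^ K * (1 / 2) ^ 98 ≤ 1 / 10 ^ 6 := by
    have h4 : (1 / 2 : ℝ) ^ K ≤ 1 := pow_le_one₀ (by norm_num) (by norm_num)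
    calc (1 / 2 : ℝ) ^ K * (1 / 2) ^ 98 ≤ 1 * (1 / 2) ^ 98 := by gcongr
      _ ≤ 1 / 10 ^ 6 := by norm_num
  rw [h2, div_eq_mul_one_div (1 / ((K : ℝ) + 2))]
  gcongr

private theorem u_le (K : ℕ) : 1 / ((K : ℝ) + 2) ≤ 1 / 2 := by
  have h : (0 : ℝ) ≤ K := Nat.cast_nonneg K
  exact one_div_le_one_div_of_le (by norm_num) (by linarith)

private theorem mar_le (K : ℕ) : mar K ≤ eps K ^ 2 * (1 / ((K : ℝ) + 2)) ^ 3 / 100 := by
  have h1 := u_ge K
  rw [pow_add] at h1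
  have h2 : mar K = ((1 / 2 : ℝ) ^ K) ^ 8 * (1 / 2) ^ 400 := by
    unfold mar
    rw [pow_add, pow_mul']
  have h3 : eps K = ((1 / 2 : ℝ) ^ K) ^ 2 * (1 / 2) ^ 100 := by
    unfold eps
    rw [pow_add, pow_mul']
  have ha : 0 < (1 / 2 : ℝ) ^ K := by positivity
  have ha1 : (1 / 2 : ℝ) ^ K ≤ 1 := pow_le_one₀ (by norm_num) (by norm_num)
  rw [h2, h3]
  generalize (1 / 2 : ℝ) ^ K = a at *
  have hn : (1 / 2 : ℝ) ^ 400 ≤ (1 / 2) ^ 200 / 6400 := by
    have h4 : (1 / 2 : ℝ) ^ 200 ≤ 1 / 6400 := by norm_num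
    have h5 : (1 / 2 : ℝ) ^ 400 = (1 / 2) ^ 200 * (1 / 2) ^ 200 := by rw [← pow_add]
    rw [h5, div_eq_mul_one_div ((1 / 2 : ℝ) ^ 200)]
    gcongr
  calc a ^ 8 * (1 / 2) ^ 400 ≤ a ^ 7 * ((1 / 2) ^ 200 / 6400) := by
        have : a ^ 8 ≤ a ^ 7 := pow_le_pow_of_le_one ha.le ha1 (by norm_num)
        gcongr
    _ = (a ^ 2 * (1 / 2) ^ 100) ^ 2 * (a * (1 / 2) ^ 2) ^ 3 / 100 := by ring
    _ ≤ (a ^ 2 * (1 / 2) ^ 100) ^ 2 * (1 / ((K : ℝ) + 2)) ^ 3 / 100 := by gcongr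

/-- the determinant at the face `R T e i` -/
private theorem idet_R (K : ℕ) (T : Fin 6) (e : Fin 3) (i : Fin (K + 1)) (x y z w : ℝ)
    (h3 : x + y + z = 1) : idet K (R T e i 0) (fp T e x y z w) =
    -(‖nrm T‖ ^ 2 * (1 / ((K : ℝ) + 2)) *
      (-(2 * w) / 15 + y * eps K ^ 2 * (1 - sj K i) * (1 - sj K (i + 1)) / 3 +
        x * (2 * eps K / 5 - eps K ^ 2 *
          (5 - 5 * (sj K i + sj K (i + 1)) - sj K i * sj K (i + 1)) / 15))) := by
  have e1 : ideal K (tl (R T e i 0)) = cor T (e + 2) := rfl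
  have e2 : ideal K (tl (nx (nx (R T e i 0)))) = idl K T e (sj K (i + 1)) := rfl
  have e3 : ideal K (tl (nx (R T e i 0))) = idl K T e (sj K i) := by
    show ideal K (pre T e i) = _
    rw [pre_eq_Y, ideal_Y K T e i (by omega)]
  unfold idet
  rw [e1, e2, e3, idl_fp, idl_fp, det_R T e _ _ _ _ _ _ _ _ _ _ _ _ (by ring) (by ring) h3,
    ← sj_step K i]
  unfold hgt
  ring

private theorem concl (K : ℕ) (T : Fin 6) (B : ℝ)
    (hB : eps K ^ 2 * (1 / ((K : ℝ) + 2)) ^ 2 / 100 ≤ B) :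
    -(‖nrm T‖ ^ 2 * (1 / ((K : ℝ) + 2)) * B) ≤ -mar K := by
  have h1 := (nrm_sq T).1
  have hu : (0 : ℝ) < 1 / ((K : ℝ) + 2) := one_div_pos.2 (n_pos K)
  have he := eps_pos K
  have hB0 : 0 ≤ B := le_trans (by positivity) hB
  have h2 : 1 * (1 / ((K : ℝ) + 2)) * (eps K ^ 2 * (1 / ((K : ℝ) + 2)) ^ 2 / 100) ≤
      ‖nrm T‖ ^ 2 * (1 / ((K : ℝ) + 2)) * B := by gcongr
  have h3 := mar_le K
  have h4 : 1 * (1 / ((K : ℝ) + 2)) * (eps K ^ 2 * (1 / ((K : ℝ) + 2)) ^ 2 / 100) =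
      eps K ^ 2 * (1 / ((K : ℝ) + 2)) ^ 3 / 100 := by ring
  linarith

/-- [DG-D3a] corner `p`, corner `q` (`fp T e 1 0 0 0`, `fp T e 0 1 0 0`). With `s = sj K i`,
`s' = sj K (i+1)`, `Δ = 2(s'-s)/15 = a b' - b a'`: the bracket of `det_R` is
`-Δ (3 ε + O(ε²))` at `p` and `-ε² (s'-s)(1-s)(1-s')/3` at `q`. -/
theorem R_corner (K : ℕ) (T : Fin 6) (e : Fin 3) (i : Fin (K + 1)) :
    idet K (R T e i 0) (cor T e) ≤ -mar K ∧ idet K (R T e i 0) (cor T (e + 1)) ≤ -mar K := by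
  have hs0 := sj_nonneg K i
  have hs1 := sj_nonneg K (i + 1)
  have hs2 := sj_le K i (by omega)
  have hs3 := sj_le K (i + 1) (by omega)
  have hu : (0 : ℝ) < 1 / ((K : ℝ) + 2) := one_div_pos.2 (n_pos K)
  have hu2 := u_le K
  have he := eps_pos K
  have he2 := eps_le K
  have p1 : cor T e = fp T e 1 0 0 0 := by
    unfold fp
    simp
  have p2 : cor T (e + 1) = fp T e 0 1 0 0 := by
    unfold fp
    simp
  rw [p1, p2, idet_R K T e i _ _ _ _ (by norm_num), idet_R K T e i _ _ _ _ (by norm_num)]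
  generalize sj K i = s at *
  generalize sj K (i + 1) = s' at *
  generalize hee : eps K = ε at *
  generalize huu : 1 / ((K : ℝ) + 2) = u at *
  have hεu : ε ≤ 1 / 10 ^ 6 := by
    have : u / 10 ^ 6 ≤ 1 / 10 ^ 6 := by
      have : u ≤ 1 := by linarith
      gcongr
    linarith
  constructor
  · have := concl K T
    rw [hee, huu] at this
    apply this
    have h1 : 0 ≤ ε ^ 2 * (5 * (s + s') + s * s') := by positivity
    have h2 : u ^ 2 ≤ 1 := pow_le_one₀ hu.le (by linarith)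
    have h3 : ε ^ 2 * u ^ 2 ≤ ε ^ 2 * 1 := by gcongr
    have h4 : ε ^ 2 ≤ ε * (1 / 10 ^ 6) := by
      rw [sq]
      gcongr
    nlinarith
  · have := concl K T
    rw [hee, huu] at this
    apply this
    have h1 : u * u ≤ (1 - s) * (1 - s') := by
      apply mul_le_mul _ _ hu.le _ <;> linarith
    have h2 : ε ^ 2 * (u * u) ≤ ε ^ 2 * ((1 - s) * (1 - s')) := by gcongr
    have h3 : 0 ≤ ε ^ 2 * (u * u) := by positivity
    nlinarith

/-- [DG-D3b] points of the same leg: the bracket is `-Δ ε² (t - s)(t - s')` at `Y j`, `t = sj K j`. -/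
theorem R_same (K : ℕ) (T : Fin 6) (e : Fin 3) (i : Fin (K + 1)) (j : ℕ) (hj : j ≤ K + 1)
    (h1 : j ≠ i) (h2 : j ≠ i + 1) : idet K (R T e i 0) (idl K T e (sj K j)) ≤ -mar K := by
  have hu : (0 : ℝ) < 1 / ((K : ℝ) + 2) := one_div_pos.2 (n_pos K)
  have he := eps_pos K
  rw [idl_fp, idet_R K T e i _ _ _ _ (by ring)]
  apply concl
  have hstep := sj_step K i
  have hmon : ∀ a b : ℕ, a + 1 ≤ b → sj K a + 1 / ((K : ℝ) + 2) ≤ sj K b := by
    intro a b hab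
    have hab' : (a : ℝ) + 1 ≤ b := by exact_mod_cast hab
    have := n_pos K
    unfold sj
    rw [← add_div]
    gcongr
  have key : (1 / ((K : ℝ) + 2)) ^ 2 ≤ (sj K j - sj K i) * (sj K j - sj K (i + 1)) := by
    rcases Nat.lt_or_ge j i with h | h
    · have a1 := hmon j i h
      have a2 := hmon j (i + 1) (by omega)
      have : (1 / ((K : ℝ) + 2)) * (1 / ((K : ℝ) + 2)) ≤
          (sj K i - sj K j) * (sj K (i + 1) - sj K j) := by
        apply mul_le_mul _ _ hu.le _ <;> linarith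
      nlinarith
    · have a1 := hmon i j (by omega)
      have a2 := hmon (i + 1) j (by omega)
      have : (1 / ((K : ℝ) + 2)) * (1 / ((K : ℝ) + 2)) ≤
          (sj K j - sj K i) * (sj K j - sj K (i + 1)) := by
        apply mul_le_mul _ _ hu.le _ <;> linarith
      nlinarith
  have hB : -(2 * hgt K (sj K j)) / 15 +
      (5 + sj K j) / 15 * eps K ^ 2 * (1 - sj K i) * (1 - sj K (i + 1)) / 3 +
      (1 - sj K j) / 3 * (2 * eps K / 5 - eps K ^ 2 *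
          (5 - 5 * (sj K i + sj K (i + 1)) - sj K i * sj K (i + 1)) / 15) =
      2 * (eps K ^ 2 * ((sj K j - sj K i) * (sj K j - sj K (i + 1)))) / 15 := by
    unfold hgt
    ring
  rw [hB]
  have h3 : eps K ^ 2 * (1 / ((K : ℝ) + 2)) ^ 2 ≤
      eps K ^ 2 * ((sj K j - sj K i) * (sj K j - sj K (i + 1))) := by gcongr
  have h4 : 0 ≤ eps K ^ 2 * (1 / ((K : ℝ) + 2)) ^ 2 := by positivity
  linarith

end

end QGd
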