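import Pool.Agent.Lib_MP_6b5565_dg.D3

/-! [DG-D3b] strict convexity of the ideal mesh inside a face: faces `R T e i` -/

namespace QGd

open EuclideanGeometry Vx Dx

noncomputable section

private theorem n_pos (K : ℕ) : (0 : ℝ) < (K : ℝ) + 2 := by positivity

private theorem sj_step (K j : ℕ) : sj K (j + 1) - sj K j = 1 / ((K : ℝ) + 2) := by
  have h := (n_pos K).ne'
  unfold sj
  push_cast
  field_simp
  ring

private theorem sj_nonneg (K j : ℕ) : 0 ≤ sj K j := by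
  unfold sj
  positivity

private theorem sj_le (K j : ℕ) (hj : j ≤ K + 1) : sj K j ≤ 1 - 1 / ((K : ℝ) + 2) := by
  have h := n_pos K
  have h1 : (j : ℝ) ≤ (K : ℝ) + 1 := by exact_mod_cast hj
  unfold sj
  rw [div_le_iff₀ h, sub_mul, one_div, inv_mul_cancel₀ h.ne']
  linarith

private theorem eps_pos (K : ℕ) : 0 < eps K := by
  unfold eps
  positivity

private theorem u_ge (K : ℕ) : (1 / 2 : ℝ) ^ (K + 2) ≤ 1 / ((K : ℝ) + 2) := by
  have h : ((K + 2 : ℕ) : ℝ) ≤ ((2 ^ (K + 2) : ℕ) : ℝ) := by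
    exact_mod_cast (Nat.lt_two_pow_self (n := K + 2)).le
  push_cast at h
  rw [one_div, inv_pow, one_div]
  exact inv_anti₀ (n_pos K) h

private theorem eps_le (K : ℕ) : eps K ≤ 1 / ((K : ℝ) + 2) / 10 ^ 6 := by
  have h1 := u_ge K
  have h2 : eps K = (1 / 2 : ℝ) ^ (K + 2) * ((1 / 2 : ℝ) ^ K * (1 / 2) ^ 98) := by
    unfold eps
    rw [← pow_add, ← pow_add]
    congr 1
    ring
  have h3 : (1 / 2 : ℝ) ^ K * (1 / 2) ^ 98 ≤ 1 / 10 ^ 6 := by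
    have h4 : (1 / 2 : ℝ) ^ K ≤ 1 := pow_le_one₀ (by norm_num) (by norm_num)
    calc (1 / 2 : ℝ) ^ K * (1 / 2) ^ 98 ≤ 1 * (1 / 2) ^ 98 := by gcongr
      _ ≤ 1 / 10 ^ 6 := by norm_num
  rw [h2, div_eq_mul_one_div (1 / ((K : ℝ) + 2))]
  gcongr

private theorem u_le (K : ℕ) : 1 / ((K : ℝ) + 2) ≤ 1 / 2 := by
  have h : (0 : ℝ) ≤ K := Nat.cast_nonneg K
  exact one_div_le_one_div_of_le (by norm_num) (by linarith)

private theorem mar_le (K : ℕ) : mar K ≤ eps K ^ 2 * (1 / ((K : ℝ) + 2)) ^ 3 / 100 := by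
  have h1 := u_ge K
  rw [pow_add] at h1
  have h2 : mar K = ((1 / 2 : ℝ) ^ K) ^ 8 * (1 / 2) ^ 400 := by
    unfold mar
    rw [pow_add, pow_mul']
  have h3 : eps K = ((1 / 2 : ℝ) ^ K) ^ 2 * (1 / 2) ^ 100 := by
    unfold eps
    rw [pow_add, pow_mul']
  have ha : 0 < (1 / 2 : ℝ) ^ K := by positivity
  have ha1 : (1 / 2 : ℝ) ^ K ≤ 1 := pow_le_one₀ (by norm_num) (by norm_num)
  rw [h2, h3]
  generalize (1 / 2 : ℝ) ^ K = a at *
  have hn : (1 / 2 : ℝ) ^ 400 ≤ (1 / 2) ^ 200 / 6400 := by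
    have h4 : (1 / 2 : ℝ) ^ 200 ≤ 1 / 6400 := by norm_num
    have h5 : (1 / 2 : ℝ) ^ 400 = (1 / 2) ^ 200 * (1 / 2) ^ 200 := by rw [← pow_add]
    rw [h5, div_eq_mul_one_div ((1 / 2 : ℝ) ^ 200)]
    gcongr
  calc a ^ 8 * (1 / 2) ^ 400 ≤ a ^ 7 * ((1 / 2) ^ 200 / 6400) := by
        have : a ^ 8 ≤ a ^ 7 := pow_le_pow_of_le_one ha.le ha1 (by norm_num)
        gcongr
    _ = (a ^ 2 * (1 / 2) ^ 100) ^ 2 * (a * (1 / 2) ^ 2) ^ 3 / 100 := by ring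
    _ ≤ (a ^ 2 * (1 / 2) ^ 100) ^ 2 * (1 / ((K : ℝ) + 2)) ^ 3 / 100 := by gcongr

/-- the determinant at the face `R T e i` -/
private theorem idet_R (K : ℕ) (T : Fin 6) (e : Fin 3) (i : Fin (K + 1)) (x y z w : ℝ)
    (h3 : x + y + z = 1) : idet K (R T e i 0) (fp T e x y z w) =
    -(‖nrm T‖ ^ 2 * (1 / ((K : ℝ) + 2)) *
      (-(2 * w) / 15 + y * eps K ^ 2 * (1 - sj K i) * (1 - sj K (i + 1)) / 3 +
        x * (2 * eps K / 5 - eps K ^ 2 *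
          (5 - 5 * (sj K i + sj K (i + 1)) - sj K i * sj K (i + 1)) / 15))) := by
  have e1 : ideal K (tl (R T e i 0)) = cor T (e + 2) := rfl
  have e2 : ideal K (tl (nx (nx (R T e i 0)))) = idl K T e (sj K (i + 1)) := rfl
  have e3 : ideal K (tl (nx (R T e i 0))) = idl K T e (sj K i) := by
    show ideal K (pre T e i) = _
    rw [pre_eq_Y, ideal_Y K T e i (by omega)]
  unfold idet
  rw [e1, e2, e3, idl_fp, idl_fp, det_R T e _ _ _ _ _ _ _ _ _ _ _ _ (by ring) (by ring) h3,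
    ← sj_step K i]
  unfold hgt
  ring

private theorem concl (K : ℕ) (T : Fin 6) (B : ℝ)
    (hB : eps K ^ 2 * (1 / ((K : ℝ) + 2)) ^ 2 / 100 ≤ B) :
    -(‖nrm T‖ ^ 2 * (1 / ((K : ℝ) + 2)) * B) ≤ -mar K := by
  have h1 := (nrm_sq T).1
  have hu : (0 : ℝ) < 1 / ((K : ℝ) + 2) := one_div_pos.2 (n_pos K)
  have he := eps_pos K
  have hB0 : 0 ≤ B := le_trans (by positivity) hB
  have h2 : 1 * (1 / ((K : ℝ) + 2)) * (eps K ^ 2 * (1 / ((K : ℝ) + 2)) ^ 2 / 100) ≤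
      ‖nrm T‖ ^ 2 * (1 / ((K : ℝ) + 2)) * B := by gcongr
  have h3 := mar_le K
  have h4 : 1 * (1 / ((K : ℝ) + 2)) * (eps K ^ 2 * (1 / ((K : ℝ) + 2)) ^ 2 / 100) =
      eps K ^ 2 * (1 / ((K : ℝ) + 2)) ^ 3 / 100 := by ring
  linarith

private theorem sj_ge (K j : ℕ) (hj : 1 ≤ j) : 1 / ((K : ℝ) + 2) ≤ sj K j := by
  have h := n_pos K
  have h1 : (1 : ℝ) ≤ j := by exact_mod_cast hj
  unfold sj
  gcongr

/-- the lower bound for the bracket at a point of another leg -/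
private theorem other (ε u s s' t x y c : ℝ) (hε : 0 < ε) (hu : 0 < u) (hu1 : u ≤ 1 / 2)
    (hεu : ε ≤ u / 10 ^ 6) (hs0 : 0 ≤ s) (hs1 : 0 ≤ s') (hs2 : s ≤ 1 - u) (hs3 : s' ≤ 1 - u)
    (ht : u ≤ t) (ht1 : t ≤ 1 - u) (hx0 : 0 ≤ x) (hx1 : x ≤ 1) (hy0 : 0 ≤ y)
    (hc : 3 * x - 1 + t = c * t) (hc1 : 1 ≤ c) :
    ε ^ 2 * u ^ 2 / 100 ≤ -(2 * (ε * (1 - t) + ε ^ 2 * (t * (1 - t)))) / 15 +
      y * ε ^ 2 * (1 - s) * (1 - s') / 3 +
        x * (2 * ε / 5 - ε ^ 2 * (5 - 5 * (s + s') - s * s') / 15) := by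
  have h1 : 0 ≤ y * ε ^ 2 * (1 - s) * (1 - s') / 3 := by
    have h2 : 0 ≤ 1 - s := by linarith
    have h3 : 0 ≤ 1 - s' := by linarith
    positivity
  have h2 : x * (ε ^ 2 * (5 - 5 * (s + s') - s * s')) / 15 ≤ x * (ε ^ 2 * 5) / 15 := by
    have h3 : 0 ≤ 5 * (s + s') + s * s' := by positivity
    have h4 : 5 - 5 * (s + s') - s * s' ≤ (5 : ℝ) := by linarith
    gcongr
  have h3 : x * (ε ^ 2 * 5) / 15 ≤ (ε ^ 2) / 3 := by
    have : ε ^ 2 * x ≤ ε ^ 2 * 1 := by gcongr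
    linarith
  have h4 : ε ^ 2 * (t * (1 - t)) ≤ ε ^ 2 * 1 := by
    have : t * (1 - t) ≤ 1 := by nlinarith
    gcongr
  have h5 : ε * (c * t) ≥ ε * u := by
    have : u ≤ c * t := by nlinarith
    gcongr
  have h6 : ε ^ 2 ≤ ε * (u / 10 ^ 6) := by
    rw [sq]
    gcongr
  have h7 : ε ^ 2 * u ^ 2 ≤ ε ^ 2 * 1 := by
    have : u ^ 2 ≤ 1 := pow_le_one₀ hu.le (by linarith)
    gcongr
  have h8 : 0 < ε * u := by positivity
  rw [← hc] at h5
  nlinarith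

/-- [DG-D3c] points of the leg `e+1` at `t = sj K j`, `j ≥ 1`. -/
theorem R_next (K : ℕ) (T : Fin 6) (e : Fin 3) (i : Fin (K + 1)) (j : ℕ) (h0 : 1 ≤ j)
    (hj : j ≤ K + 1) : idet K (R T e i 0) (idl K T (e + 1) (sj K j)) ≤ -mar K := by
  have ht := sj_ge K j h0
  have ht1 := sj_le K j hj
  have hu : (0 : ℝ) < 1 / ((K : ℝ) + 2) := one_div_pos.2 (n_pos K)
  rw [idl_fp, ← fp_rot, idet_R K T e i _ _ _ _ (by ring)]
  apply concl
  exact other (eps K) (1 / ((K : ℝ) + 2)) (sj K i) (sj K (i + 1)) (sj K j) _ _ (9 / 5)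
    (eps_pos K) hu (u_le K) (eps_le K) (sj_nonneg K i) (sj_nonneg K (i + 1)) (sj_le K i (by omega))
    (sj_le K (i + 1) (by omega)) ht ht1 (by linarith) (by linarith) (by linarith) (by ring)
    (by norm_num)

/-- [DG-D3d] points of the leg `e+2` at `t = sj K j`, `j ≥ 1`. -/
theorem R_prev (K : ℕ) (T : Fin 6) (e : Fin 3) (i : Fin (K + 1)) (j : ℕ) (h0 : 1 ≤ j)
    (hj : j ≤ K + 1) : idet K (R T e i 0) (idl K T (e + 2) (sj K j)) ≤ -mar K := by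
  have ht := sj_ge K j h0
  have ht1 := sj_le K j hj
  have hu : (0 : ℝ) < 1 / ((K : ℝ) + 2) := one_div_pos.2 (n_pos K)
  have h12 : e + 2 = e + 1 + 1 := by rw [add_assoc]; rfl
  rw [idl_fp, h12, ← fp_rot, ← fp_rot, idet_R K T e i _ _ _ _ (by ring)]
  apply concl
  exact other (eps K) (1 / ((K : ℝ) + 2)) (sj K i) (sj K (i + 1)) (sj K j) _ _ (6 / 5)
    (eps_pos K) hu (u_le K) (eps_le K) (sj_nonneg K i) (sj_nonneg K (i + 1)) (sj_le K i (by omega))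
    (sj_le K (i + 1) (by omega)) ht ht1 (by linarith) (by linarith) (by linarith) (by ring)
    (by norm_num)

/-- [DG-D3e] base vertices outside the face (`base_out`). -/
theorem R_out (K : ℕ) (T : Fin 6) (e : Fin 3) (i : Fin (K + 1)) (v : Fin 5) (hv : ∀ k, CT T k ≠ v) :
    idet K (R T e i 0) (bpt v) ≤ -(1 / 1000) / (K + 2) := by
  obtain ⟨a, b, g, h, h1, h2, ha, hb, hg, hh⟩ := base_out T e v hv
  have hs0 := sj_nonneg K i
  have hs1 := sj_nonneg K (i + 1)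
  have hs2 := sj_le K i (by omega)
  have hs3 := sj_le K (i + 1) (by omega)
  have hu : (0 : ℝ) < 1 / ((K : ℝ) + 2) := one_div_pos.2 (n_pos K)
  have hu2 := u_le K
  have he := eps_pos K
  have he2 := eps_le K
  have hn := (nrm_sq T).1
  rw [h2, idet_R K T e i _ _ _ _ h1]
  have e1 : -(1 / 1000) / ((K : ℝ) + 2) = -(1 * (1 / ((K : ℝ) + 2)) * (1 / 1000)) := by ring
  rw [e1]
  apply neg_le_neg
  generalize sj K i = s at *
  generalize sj K (i + 1) = s' at *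
  generalize eps K = ε at *
  generalize 1 / ((K : ℝ) + 2) = u at *
  have hε1 : ε ≤ 1 / 10 ^ 6 := by
    have : u / 10 ^ 6 ≤ 1 / 10 ^ 6 := by
      have : u ≤ 1 := by linarith
      gcongr
    linarith
  have hε2 : ε ^ 2 ≤ ε := by nlinarith
  rw [abs_le] at ha hb
  have q1 : 0 ≤ (1 - s) * (1 - s') := mul_nonneg (by linarith) (by linarith)
  have q2 : (1 - s) * (1 - s') ≤ 1 := by nlinarith
  have q3 : -9 * (ε ^ 2 * 1) ≤ b * (ε ^ 2 * ((1 - s) * (1 - s'))) := by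
    have : ε ^ 2 * ((1 - s) * (1 - s')) ≤ ε ^ 2 * 1 := by gcongr
    have : 0 ≤ ε ^ 2 * ((1 - s) * (1 - s')) := by positivity
    nlinarith
  have q4 : |2 * ε / 5 - ε ^ 2 * (5 - 5 * (s + s') - s * s') / 15| ≤ 2 * ε := by
    have r1 : |5 - 5 * (s + s') - s * s'| ≤ 11 := by
      rw [abs_le]
      constructor <;> nlinarith [mul_nonneg hs0 hs1]
    rw [abs_le] at r1 ⊢
    have r2 : 0 < ε ^ 2 := by positivity
    constructor <;> nlinarith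
  have q5 : -9 * (2 * ε) ≤
      a * (2 * ε / 5 - ε ^ 2 * (5 - 5 * (s + s') - s * s') / 15) := by
    rw [abs_le] at q4
    nlinarith
  have q6 : 1 / 1000 ≤ -(2 * h) / 15 + b * ε ^ 2 * (1 - s) * (1 - s') / 3 +
      a * (2 * ε / 5 - ε ^ 2 * (5 - 5 * (s + s') - s * s') / 15) := by
    nlinarith
  gcongr

end

end QGd
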