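import Pool.Agent.Lib_MP_6b5565_dg.D1c

/-! [DG-D4] strict convexity of the ideal mesh inside a face: faces `E T e` -/

namespace QGd

open EuclideanGeometry Vx Dx

noncomputable section

private theorem sj_last (K : ℕ) : 1 - sj K (K + 1) = 1 / ((K : ℝ) + 2) := by
  unfold sj
  have : (0 : ℝ) < (K : ℝ) + 2 := by positivity
  field_simp
  push_cast
  ring

private theorem idet_E (K : ℕ) (T : Fin 6) (e : Fin 3) (x y z w : ℝ) (h3 : x + y + z = 1) :
    idet K (E T e 0) (fp T e x y z w) =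
      ‖nrm T‖ ^ 2 * ((1 - sj K (K + 1)) / 3 * w - hgt K (sj K (K + 1)) * x) := by
  have h1 : ideal K (tl (E T e 0)) = cor T (e + 1) := rfl
  have h2 : ideal K (tl (nx (E T e 0) : Dx K)) = cor T (e + 2) := by
    change ideal K (tl (E T e (0 + 1))) = _
    rfl
  have h4 : ideal K (tl (nx (nx (E T e 0)) : Dx K)) = idl K T e (sj K (K + 1)) := by
    change ideal K (tl (E T e (0 + 1 + 1))) = _
    have e1 : ((0 : Fin 3) + 1 + 1) = 2 := rfl
    rw [e1]
    change idl K T e (sj K ((Fin.last K : Fin (K + 1)) + 1)) = _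
    rw [Fin.val_last]
  unfold idet
  rw [h1, h2, h4, idl_fp, det_E _ _ _ _ _ _ _ _ _ _ (by ring) h3]

private theorem eps_pos (K : ℕ) : 0 < eps K := by unfold eps; positivity

private theorem eps_le (K : ℕ) : eps K ≤ 1 / 2 ^ 100 := by
  unfold eps
  rw [one_div, one_div, inv_pow]
  apply inv_anti₀ (by positivity)
  exact pow_le_pow_right₀ (by norm_num) (by omega)

/-- `K + 2 ≤ 2^(K+1)` -/
private theorem K2_le (K : ℕ) : (K : ℝ) + 2 ≤ 2 ^ (K + 1) := by
  have h : K + 2 ≤ 2 ^ (K + 1) := by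
    have := Nat.lt_two_pow_self (n := K + 1)
    omega
  exact_mod_cast h

/-- `mar K ≤ eps K ^ 2 / (3 (K+2)^3)` -/
private theorem mar_le (K : ℕ) : mar K ≤ eps K ^ 2 / (3 * ((K : ℝ) + 2) ^ 3) := by
  have hp : (0 : ℝ) < (K : ℝ) + 2 := by positivity
  rw [le_div_iff₀ (by positivity)]
  have h1 := K2_le K
  have h2 : ((K : ℝ) + 2) ^ 3 ≤ (2 ^ (K + 1)) ^ 3 := by gcongr
  have e1 : eps K ^ 2 = (1 / 2) ^ (4 * K + 200) := by
    unfold eps
    have e0 : 4 * K + 200 = (2 * K + 100) * 2 := by ring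
    rw [e0, pow_mul]
  have e2 : mar K = (1 / 2) ^ (4 * K + 200) * (1 / 2) ^ (4 * K + 200) := by
    have e0 : 8 * K + 400 = (4 * K + 200) + (4 * K + 200) := by ring
    unfold mar
    rw [e0, pow_add]
  have e3 : (1 / 2 : ℝ) ^ (4 * K + 200) * (2 : ℝ) ^ (4 * K + 200) = 1 := by
    have e4 : (1 / 2 * 2 : ℝ) = 1 := by norm_num
    rw [← mul_pow, e4, one_pow]
  have h4 : 3 * ((K : ℝ) + 2) ^ 3 ≤ 2 ^ (4 * K + 200) := by
    calc 3 * ((K : ℝ) + 2) ^ 3 ≤ 2 ^ 2 * (2 ^ (K + 1)) ^ 3 := by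
          refine mul_le_mul (by norm_num) h2 (by positivity) (by positivity)
      _ = 2 ^ (3 * K + 5) := by
          rw [← pow_mul, ← pow_add]
          congr 1
          ring
      _ ≤ 2 ^ (4 * K + 200) := pow_le_pow_right₀ (by norm_num) (by omega)
  rw [e1, e2]
  calc (1 / 2 : ℝ) ^ (4 * K + 200) * (1 / 2) ^ (4 * K + 200) * (3 * ((K : ℝ) + 2) ^ 3)
      ≤ (1 / 2 : ℝ) ^ (4 * K + 200) * (1 / 2) ^ (4 * K + 200) * 2 ^ (4 * K + 200) := by gcongr
    _ = (1 / 2 : ℝ) ^ (4 * K + 200) * ((1 / 2) ^ (4 * K + 200) * 2 ^ (4 * K + 200)) := by ring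
    _ = (1 / 2 : ℝ) ^ (4 * K + 200) := by rw [e3, mul_one]

private theorem sj_facts {K j : ℕ} (hj : j ≤ K + 1) :
    0 ≤ sj K j ∧ sj K j ≤ sj K (K + 1) ∧ 1 / ((K : ℝ) + 2) ≤ 1 - sj K j := by
  have hp : (0 : ℝ) < (K : ℝ) + 2 := by positivity
  have hj' : (j : ℝ) ≤ K + 1 := by exact_mod_cast hj
  refine ⟨by unfold sj; positivity, ?_, ?_⟩
  · unfold sj
    push_cast
    gcongr
  · rw [← sj_last K]
    have : sj K j ≤ sj K (K + 1) := by
      unfold sj
      push_cast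
      gcongr
    linarith

private theorem sj_lt {K j : ℕ} (hj : j ≤ K) : 1 / ((K : ℝ) + 2) ≤ sj K (K + 1) - sj K j := by
  have hj' : (j : ℝ) ≤ K := by exact_mod_cast hj
  unfold sj
  rw [← sub_div]
  push_cast
  gcongr
  linarith

private theorem sj_ge {K j : ℕ} (h0 : 1 ≤ j) : 1 / ((K : ℝ) + 2) ≤ sj K j := by
  have hj' : (1 : ℝ) ≤ j := by exact_mod_cast h0
  unfold sj
  gcongr

private theorem small_m (K : ℕ) {s t c R : ℝ} (hs : 1 - s = 1 / ((K : ℝ) + 2)) (t0 : 0 ≤ t)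
    (ht : 1 / ((K : ℝ) + 2) ≤ t) (hc : 1 / 3 ≤ c) (hR : 0 ≤ (1 - s) / 15 * R) :
    -((1 - s) * (t * (c * eps K))) - (1 - s) / 15 * R ≤ -mar K := by
  have hp : (0 : ℝ) < (K : ℝ) + 2 := by positivity
  have he := eps_pos K
  have hel := eps_le K
  have hm := mar_le K
  have h1 : mar K ≤ (1 - s) * (t * (c * eps K)) := by
    refine hm.trans ?_
    rw [hs]
    have e2 : eps K ^ 2 / (3 * ((K : ℝ) + 2) ^ 3) =
        1 / ((K : ℝ) + 2) * (1 / ((K : ℝ) + 2) * (1 / 3 * eps K)) * (eps K / ((K : ℝ) + 2)) := by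
      field_simp
    rw [e2]
    have h2 : eps K / ((K : ℝ) + 2) ≤ 1 := by
      rw [div_le_one hp]
      have : (1 / 2 ^ 100 : ℝ) ≤ 1 := by norm_num
      have : (0 : ℝ) ≤ K := Nat.cast_nonneg K
      linarith
    calc 1 / ((K : ℝ) + 2) * (1 / ((K : ℝ) + 2) * (1 / 3 * eps K)) * (eps K / ((K : ℝ) + 2))
        ≤ 1 / ((K : ℝ) + 2) * (1 / ((K : ℝ) + 2) * (1 / 3 * eps K)) * 1 := by gcongr
      _ ≤ 1 / ((K : ℝ) + 2) * (t * (c * eps K)) := by
        rw [mul_one]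
        gcongr
  linarith

private theorem nmul {n X M : ℝ} (hn : 1 ≤ n) (hX : X ≤ -M) (hM : 0 ≤ M) : n * X ≤ -M := by
  nlinarith

/-- [DG-D4a] corner `p`: `det_E` gives `‖n‖² (0 - h)`, `h = hgt K (sj K (K+1)) > 0`. -/
theorem E_corner (K : ℕ) (T : Fin 6) (e : Fin 3) : idet K (E T e 0) (cor T e) ≤ -mar K := by
  have h1 : cor T e = fp T e 1 0 0 0 := by
    unfold fp
    simp
  rw [h1, idet_E _ _ _ _ _ _ _ (by ring)]
  have hn := (nrm_sq T).1
  have hs := sj_last K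
  have hp : (0 : ℝ) < (K : ℝ) + 2 := by positivity
  have he := eps_pos K
  have hel := eps_le K
  have hm := mar_le K
  have hm0 : 0 ≤ mar K := by unfold mar; positivity
  refine nmul hn ?_ hm0
  set s := sj K (K + 1) with hsd
  have hs0 : 0 ≤ s := by rw [hsd]; unfold sj; positivity
  unfold hgt
  rw [hs]
  have h2 : eps K ^ 2 / (3 * ((K : ℝ) + 2) ^ 3) ≤ eps K * (1 / ((K : ℝ) + 2)) := by
    rw [div_le_iff₀ (by positivity)]
    have e1 : eps K * (1 / ((K : ℝ) + 2)) * (3 * ((K : ℝ) + 2) ^ 3) =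
        eps K * (3 * ((K : ℝ) + 2) ^ 2) := by
      field_simp
    rw [e1, pow_two]
    have h3 : eps K ≤ 3 * ((K : ℝ) + 2) ^ 2 := by
      have : (1 : ℝ) ≤ ((K : ℝ) + 2) ^ 2 := one_le_pow₀ (by linarith [Nat.cast_nonneg (α := ℝ) K])
      have : (1 / 2 ^ 100 : ℝ) ≤ 1 := by norm_num
      linarith
    gcongr
  have h3 : 0 ≤ eps K ^ 2 * (s * (1 / ((K : ℝ) + 2))) := by positivity
  linarith

/-- [DG-D4b] points of the same leg: with `s = sj K (K+1)`, `t = sj K j`, `a w - h x =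
-ε² (1-s)(1-t)(s-t)/3`. -/
theorem E_same (K : ℕ) (T : Fin 6) (e : Fin 3) (j : ℕ) (hj : j ≤ K) :
    idet K (E T e 0) (idl K T e (sj K j)) ≤ -mar K := by
  rw [idl_fp, idet_E _ _ _ _ _ _ _ (by ring)]
  have hn := (nrm_sq T).1
  have hs := sj_last K
  have hp : (0 : ℝ) < (K : ℝ) + 2 := by positivity
  have he := eps_pos K
  have hm := mar_le K
  have hm0 : 0 ≤ mar K := by unfold mar; positivity
  obtain ⟨t0, t1, t2⟩ := sj_facts (K := K) (j := j) (by omega)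
  have hst := sj_lt (K := K) hj
  refine nmul hn ?_ hm0
  set s := sj K (K + 1) with hsd
  set t := sj K j with htd
  have h1 : 1 / ((K : ℝ) + 2) ≤ s - t := hst
  have h2 : 1 / ((K : ℝ) + 2) ≤ 1 - t := t2
  unfold hgt
  have e1 : (1 - s) / 3 * (eps K * (1 - t) + eps K ^ 2 * (t * (1 - t))) -
      (eps K * (1 - s) + eps K ^ 2 * (s * (1 - s))) * ((1 - t) / 3) =
      -(eps K ^ 2 / 3 * ((1 - s) * (1 - t) * (s - t))) := by ring
  rw [e1, hs]
  refine neg_le_neg (hm.trans ?_)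
  have e2 : eps K ^ 2 / (3 * ((K : ℝ) + 2) ^ 3) =
      eps K ^ 2 / 3 * (1 / ((K : ℝ) + 2) * (1 / ((K : ℝ) + 2)) * (1 / ((K : ℝ) + 2))) := by
    field_simp
  rw [e2]
  have h3 : 0 < 1 / ((K : ℝ) + 2) := by positivity
  have h4 : 0 ≤ 1 - t := h3.le.trans h2
  gcongr

/-- [DG-D4c] points of the leg `e+1` at `t = sj K j`, `j ≥ 1`. -/
theorem E_next (K : ℕ) (T : Fin 6) (e : Fin 3) (j : ℕ) (h0 : 1 ≤ j)
    (hj : j ≤ K + 1) : idet K (E T e 0) (idl K T (e + 1) (sj K j)) ≤ -mar K := by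
  have hr : idl K T (e + 1) (sj K j) = fp T e ((5 + 4 * sj K j) / 15) ((1 - sj K j) / 3)
      ((5 + sj K j) / 15) (hgt K (sj K j)) := by
    rw [idl_fp, fp_rot T e]
  rw [hr, idet_E _ _ _ _ _ _ _ (by ring)]
  have hn := (nrm_sq T).1
  have hs := sj_last K
  have hm0 : 0 ≤ mar K := by unfold mar; positivity
  obtain ⟨t0, t1, t2⟩ := sj_facts (K := K) (j := j) hj
  have ht := sj_ge (K := K) h0
  refine nmul hn ?_ hm0
  set s := sj K (K + 1) with hsd
  set t := sj K j with htd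
  have e1 : (1 - s) / 3 * (eps K * (1 - t) + eps K ^ 2 * (t * (1 - t))) -
      (eps K * (1 - s) + eps K ^ 2 * (s * (1 - s))) * ((5 + 4 * t) / 15) =
      -((1 - s) * (t * (9 / 15 * eps K))) -
        (1 - s) / 15 * (eps K ^ 2 * (5 * (s - t) + 5 * t ^ 2 + 4 * s * t)) := by ring
  unfold hgt
  rw [e1]
  refine small_m K hs t0 ht (by norm_num) ?_
  rw [hs]
  have h3 : 0 ≤ s - t := by linarith
  have h4 : 0 ≤ s := t0.trans t1
  have he := eps_pos K
  clear_value s t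
  refine mul_nonneg (by positivity) (mul_nonneg (sq_nonneg _) ?_)
  have h5 : 0 ≤ s * t := mul_nonneg h4 t0
  have h6 := sq_nonneg t
  linarith

/-- [DG-D4d] points of the leg `e+2` at `t = sj K j`, `j ≥ 1`. -/
theorem E_prev (K : ℕ) (T : Fin 6) (e : Fin 3) (j : ℕ) (h0 : 1 ≤ j)
    (hj : j ≤ K + 1) : idet K (E T e 0) (idl K T (e + 2) (sj K j)) ≤ -mar K := by
  have hr : idl K T (e + 2) (sj K j) = fp T e ((5 + sj K j) / 15) ((5 + 4 * sj K j) / 15)
      ((1 - sj K j) / 3) (hgt K (sj K j)) := by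
    rw [idl_fp, fp_rot T e, fp_rot T (e + 1)]
    congr 1
    rw [add_assoc]
    rfl
  rw [hr, idet_E _ _ _ _ _ _ _ (by ring)]
  have hn := (nrm_sq T).1
  have hs := sj_last K
  have hm0 : 0 ≤ mar K := by unfold mar; positivity
  obtain ⟨t0, t1, t2⟩ := sj_facts (K := K) (j := j) hj
  have ht := sj_ge (K := K) h0
  refine nmul hn ?_ hm0
  set s := sj K (K + 1) with hsd
  set t := sj K j with htd
  have e1 : (1 - s) / 3 * (eps K * (1 - t) + eps K ^ 2 * (t * (1 - t))) -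
      (eps K * (1 - s) + eps K ^ 2 * (s * (1 - s))) * ((5 + t) / 15) =
      -((1 - s) * (t * (6 / 15 * eps K))) -
        (1 - s) / 15 * (eps K ^ 2 * (5 * (s - t) + 5 * t ^ 2 + s * t)) := by ring
  unfold hgt
  rw [e1]
  refine small_m K hs t0 ht (by norm_num) ?_
  rw [hs]
  have h3 : 0 ≤ s - t := by linarith
  have h4 : 0 ≤ s := t0.trans t1
  have he := eps_pos K
  clear_value s t
  refine mul_nonneg (by positivity) (mul_nonneg (sq_nonneg _) ?_)
  have h5 : 0 ≤ s * t := mul_nonneg h4 t0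
  have h6 := sq_nonneg t
  linarith

/-- [DG-D4e] base vertices outside the face (`base_out`). -/
theorem E_out (K : ℕ) (T : Fin 6) (e : Fin 3) (v : Fin 5) (hv : ∀ k, CT T k ≠ v) :
    idet K (E T e 0) (bpt v) ≤ -(1 / 1000) / (K + 2) := by
  obtain ⟨a, b, g, h, h1, h2, ha, hb, hg, hh⟩ := base_out T e v hv
  rw [h2, idet_E _ _ _ _ _ _ _ h1]
  have hn := (nrm_sq T).1
  have hs := sj_last K
  have hp : (0 : ℝ) < (K : ℝ) + 2 := by positivity
  have he := eps_pos K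
  have hel := eps_le K
  obtain ⟨s0, s1, s2⟩ := sj_facts (K := K) (j := K + 1) le_rfl
  set s := sj K (K + 1) with hsd
  have hu : 0 < 1 / ((K : ℝ) + 2) := by positivity
  have e1 : (1 - s) / 3 * h - hgt K s * a =
      1 / ((K : ℝ) + 2) * (h / 3 - (eps K + eps K ^ 2 * s) * a) := by
    unfold hgt
    have : eps K * (1 - s) + eps K ^ 2 * (s * (1 - s)) = (1 - s) * (eps K + eps K ^ 2 * s) := by
      ring
    rw [this, hs]
    ring
  rw [e1]
  have h3 : eps K + eps K ^ 2 * s ≤ 1 / 100000 := by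
    have hs1 : s ≤ 1 := by linarith
    have h4 : eps K ≤ 1 / 1000000 := hel.trans (by norm_num)
    have h5 : eps K ^ 2 * s ≤ eps K * 1 := by
      have : eps K ^ 2 ≤ eps K := by nlinarith
      have h6 : eps K ^ 2 * s ≤ eps K ^ 2 * 1 := by gcongr
      linarith
    linarith
  have h30 : 0 ≤ eps K + eps K ^ 2 * s := by positivity
  have h7 : -((eps K + eps K ^ 2 * s) * a) ≤ 1 / 100000 * 9 := by
    have h8 : (eps K + eps K ^ 2 * s) * -a ≤ 1 / 100000 * 9 := by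
      have h9 : -a ≤ 9 := by linarith [neg_abs_le a]
      calc (eps K + eps K ^ 2 * s) * -a ≤ (eps K + eps K ^ 2 * s) * 9 := by gcongr
        _ ≤ _ := by gcongr
    linarith
  have h10 : h / 3 - (eps K + eps K ^ 2 * s) * a ≤ -(1 / 1000) := by linarith
  have h11 : 1 / ((K : ℝ) + 2) * (h / 3 - (eps K + eps K ^ 2 * s) * a) ≤
      -(1 / ((K : ℝ) + 2) * (1 / 1000)) := by
    have := mul_le_mul_of_nonneg_left h10 hu.le
    linarith
  refine (nmul hn h11 (by positivity)).trans (le_of_eq ?_)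
  ring

end

end QGd
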