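import Pool.Agent.Lib_MP_6b5565_dg.D2b
import Pool.Agent.Lib_MP_6b5565_dg.D3b
import Pool.Agent.Lib_MP_6b5565_dg.D4

/-! [DG-D5] strict convexity of the ideal mesh: vertices in other faces of the base -/

namespace QGd

open EuclideanGeometry Vx Dx

noncomputable section

private theorem rdet_cyc_d5 (A B C X : E3) :
    rdet (C - B) (A - B) (X - B) = rdet (B - A) (C - A) (X - A) := by
  unfold rdet
  simp only [PiLp.sub_apply]
  ring

/-- [DG-D5a] `idet` does not depend on the half-edge of the face -/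
theorem idet_nx (K : ℕ) (d : Dx K) (X : E3) : idet K (nx d) X = idet K d X := by
  unfold idet
  rw [nx3]
  exact rdet_cyc_d5 _ _ _ _

/-- [DG-D5b] `idet` is affine in `X` -/
theorem idet_affine (K : ℕ) (d : Dx K) (a b g h : ℝ) (X Y Z n : E3) (h1 : a + b + g = 1) :
    idet K d (a • X + b • Y + g • Z + h • n) = a * idet K d X + b * idet K d Y + g * idet K d Z +
      h * inner ℝ (crs (ideal K (tl (nx d)) - ideal K (tl d))
        (ideal K (tl (nx (nx d))) - ideal K (tl d))) n := by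
  obtain rfl : g = 1 - a - b := by linarith
  rw [← rdet_eq_inner]
  unfold idet
  generalize ideal K (tl (nx d)) - ideal K (tl d) = p
  generalize ideal K (tl (nx (nx d))) - ideal K (tl d) = q
  generalize ideal K (tl d) = A
  unfold rdet
  simp only [PiLp.sub_apply, PiLp.add_apply, PiLp.smul_apply, smul_eq_mul]
  ring

private theorem cor_d5 (v : Fin 5) : ∃ (T : Fin 6) (e : Fin 3), CT T e = v := by
  revert v; decide

private theorem hgt_d5 (K : ℕ) {s : ℝ} (h0 : 0 ≤ s) (h1 : s ≤ 1) :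
    0 ≤ hgt K s ∧ hgt K s ≤ 1 / 50 := by
  have he0 : 0 < eps K := by unfold eps; positivity
  have he1 : eps K ≤ 1 / 100 := by
    unfold eps
    calc ((1 : ℝ) / 2) ^ (2 * K + 100) ≤ (1 / 2) ^ 100 :=
          pow_le_pow_of_le_one (by norm_num) (by norm_num) (by omega)
      _ ≤ 1 / 100 := by norm_num
  have h2 : 0 ≤ s * (1 - s) := mul_nonneg h0 (by linarith)
  have h3 : s * (1 - s) ≤ 1 := mul_le_one₀ h1 (by linarith) (by linarith)
  have h4 : eps K * (1 - s) ≤ 1 / 100 * 1 := mul_le_mul he1 (by linarith) (by linarith) (by norm_num)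
  have h5 : eps K ^ 2 ≤ (1 / 100) ^ 2 := pow_le_pow_left₀ he0.le he1 2
  have h6 : eps K ^ 2 * (s * (1 - s)) ≤ (1 / 100) ^ 2 * 1 := mul_le_mul h5 h3 h2 (by norm_num)
  unfold hgt
  constructor
  · have : 0 ≤ eps K * (1 - s) := mul_nonneg he0.le (by linarith)
    have : 0 ≤ eps K ^ 2 * (s * (1 - s)) := mul_nonneg (sq_nonneg _) h2
    linarith
  · linarith

private theorem idl_norm_d5 (K : ℕ) (T : Fin 6) (e : Fin 3) {s : ℝ} (h0 : 0 ≤ s) (h1 : s ≤ 1) :
    ‖idl K T e s‖ ≤ 11 := by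
  obtain ⟨g0, g1⟩ := hgt_d5 K h0 h1
  have hn : ‖nrm T‖ ≤ 40 := by
    refine abs_le_of_sq_le_sq' ?_ (by norm_num) |>.2
    exact (nrm_sq T).2.trans (by norm_num)
  have c0 := (side_le T e e).2.1
  have c1 := (side_le T (e + 1) e).2.1
  have c2 := (side_le T (e + 2) e).2.1
  unfold idl
  have k0 : ‖((1 - s) / 3) • cor T e‖ ≤ (1 - s) / 3 * 10 := by
    rw [norm_smul, Real.norm_of_nonneg (by linarith)]
    exact mul_le_mul_of_nonneg_left c0 (by linarith)
  have k1 : ‖((5 + s) / 15) • cor T (e + 1)‖ ≤ (5 + s) / 15 * 10 := by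
    rw [norm_smul, Real.norm_of_nonneg (by linarith)]
    exact mul_le_mul_of_nonneg_left c1 (by linarith)
  have k2 : ‖((5 + 4 * s) / 15) • cor T (e + 2)‖ ≤ (5 + 4 * s) / 15 * 10 := by
    rw [norm_smul, Real.norm_of_nonneg (by linarith)]
    exact mul_le_mul_of_nonneg_left c2 (by linarith)
  have k3 : ‖hgt K s • nrm T‖ ≤ 1 / 50 * 40 := by
    rw [norm_smul, Real.norm_of_nonneg g0]
    exact mul_le_mul g1 hn (norm_nonneg _) (by norm_num)
  have t1 := norm_add_le (((1 - s) / 3) • cor T e + ((5 + s) / 15) • cor T (e + 1) +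
    ((5 + 4 * s) / 15) • cor T (e + 2)) (hgt K s • nrm T)
  have t2 := norm_add_le (((1 - s) / 3) • cor T e + ((5 + s) / 15) • cor T (e + 1))
    (((5 + 4 * s) / 15) • cor T (e + 2))
  have t3 := norm_add_le (((1 - s) / 3) • cor T e) (((5 + s) / 15) • cor T (e + 1))
  linarith

/-- [DG-D5c] lengths -/
theorem ideal_norm (K : ℕ) (v : Vx K) : ‖ideal K v‖ ≤ 11 := by
  rcases v with v | T | ⟨T, e, i⟩
  · obtain ⟨T, e, h⟩ := cor_d5 v
    have h2 := (side_le T e e).2.1
    have h3 : ideal K (base v) = cor T e := by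
      show bpt v = bpt (CT T e)
      rw [h]
    rw [h3]
    linarith
  · exact idl_norm_d5 K T 0 le_rfl zero_le_one
  · refine idl_norm_d5 K T e ?_ ?_
    · unfold sj
      positivity
    · unfold sj
      rw [div_le_one (by positivity)]
      have h := i.2
      have h2 : ((i : ℕ) : ℝ) + 1 ≤ (K : ℝ) + 1 := by
        exact_mod_cast h
      push_cast
      linarith

private theorem mar_nonneg_d5 (K : ℕ) : 0 ≤ mar K := by
  unfold mar
  positivity

private theorem idet_tl_d5 (K : ℕ) (d : Dx K) : idet K d (ideal K (tl d)) = 0 := by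
  unfold idet rdet
  simp only [PiLp.sub_apply]
  ring

private theorem idet_tl1_d5 (K : ℕ) (d : Dx K) : idet K d (ideal K (tl (nx d))) = 0 := by
  unfold idet rdet
  simp only [PiLp.sub_apply]
  ring

private theorem fin3_d5 (e k : Fin 3) : k = e ∨ k = e + 1 ∨ k = e + 2 := by
  revert e k; decide

private theorem idet_rot_d5 (K : ℕ) (d : Dx K) (P : ℝ → Prop) (X : E3) (h : P (idet K d X)) :
    P (idet K (nx d) X) ∧ P (idet K (nx (nx d)) X) := by
  rw [idet_nx, idet_nx]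
  rw [idet_nx]
  exact ⟨h, h⟩

private theorem base_aux_d5 (K : ℕ) (T : Fin 6) (e : Fin 3) (v : Fin 5) (D : E3 → ℝ)
    (h0 : D (cor T e) ≤ 0) (h1 : D (cor T (e + 1)) ≤ 0) (h2 : D (cor T (e + 2)) ≤ 0)
    (hout : (∀ k, CT T k ≠ v) → D (bpt v) ≤ -(1 / 1000) / (K + 2)) :
    D (bpt v) ≤ 0 ∧ ((∀ k, CT T k ≠ v) → D (bpt v) ≤ -(1 / 1000) / (K + 2)) := by
  refine ⟨?_, hout⟩
  by_cases hv : ∀ k, CT T k ≠ v
  · refine (hout hv).trans ?_
    exact div_nonpos_of_nonpos_of_nonneg (by norm_num) (by positivity)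
  · push Not at hv
    obtain ⟨k, rfl⟩ := hv
    rcases fin3_d5 e k with rfl | rfl | rfl
    · exact h0
    · exact h1
    · exact h2

/-- [DG-D5d] base vertices: in the face of the half-edge the determinant is `≤ 0`, outside the base
face it is at most `-(1/1000)/(K+2)` -/
theorem idet_base (K : ℕ) (d : Dx K) (v : Fin 5) : idet K d (bpt v) ≤ 0 ∧
    ((∀ k, CT (face6 d) k ≠ v) → idet K d (bpt v) ≤ -(1 / 1000) / (K + 2)) := by
  have hm := mar_nonneg_d5 K
  have hL : ∀ (T : Fin 6) (e : Fin 3) (i : Fin (K + 1)), idet K (L T e i 0) (bpt v) ≤ 0 ∧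
      ((∀ k, CT T k ≠ v) → idet K (L T e i 0) (bpt v) ≤ -(1 / 1000) / (K + 2)) := by
    intro T e i
    refine base_aux_d5 K T e v (idet K (L T e i 0)) ?_ ?_ ?_ (L_out K T e i v)
    · linarith [(L_corner K T e i).1]
    · exact (idet_tl_d5 K (L T e i 0)).le
    · linarith [(L_corner K T e i).2]
  have hR : ∀ (T : Fin 6) (e : Fin 3) (i : Fin (K + 1)), idet K (R T e i 0) (bpt v) ≤ 0 ∧
      ((∀ k, CT T k ≠ v) → idet K (R T e i 0) (bpt v) ≤ -(1 / 1000) / (K + 2)) := by
    intro T e i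
    refine base_aux_d5 K T e v (idet K (R T e i 0)) ?_ ?_ ?_ (R_out K T e i v)
    · linarith [(R_corner K T e i).1]
    · linarith [(R_corner K T e i).2]
    · exact (idet_tl_d5 K (R T e i 0)).le
  have hE : ∀ (T : Fin 6) (e : Fin 3), idet K (E T e 0) (bpt v) ≤ 0 ∧
      ((∀ k, CT T k ≠ v) → idet K (E T e 0) (bpt v) ≤ -(1 / 1000) / (K + 2)) := by
    intro T e
    refine base_aux_d5 K T e v (idet K (E T e 0)) ?_ ?_ ?_ (E_out K T e v)
    · linarith [E_corner K T e]
    · exact (idet_tl_d5 K (E T e 0)).le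
    · exact (idet_tl1_d5 K (E T e 0)).le
  rcases d with ⟨T, e, i, k⟩ | ⟨T, e, i, k⟩ | ⟨T, e, k⟩
  · have h := idet_rot_d5 K (L T e i 0)
      (fun z => z ≤ 0 ∧ ((∀ k, CT T k ≠ v) → z ≤ -(1 / 1000) / (K + 2))) (bpt v) (hL T e i)
    fin_cases k
    · exact hL T e i
    · exact h.1
    · exact h.2
  · have h := idet_rot_d5 K (R T e i 0)
      (fun z => z ≤ 0 ∧ ((∀ k, CT T k ≠ v) → z ≤ -(1 / 1000) / (K + 2))) (bpt v) (hR T e i)
    fin_cases k
    · exact hR T e i
    · exact h.1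
    · exact h.2
  · have h := idet_rot_d5 K (E T e 0)
      (fun z => z ≤ 0 ∧ ((∀ k, CT T k ≠ v) → z ≤ -(1 / 1000) / (K + 2))) (bpt v) (hE T e)
    fin_cases k
    · exact hE T e
    · exact h.1
    · exact h.2

end

end QGd
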