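import Pool.Agent.Lib_MP_6b5565_dg.D5

/-! [DG-D5b] strict convexity of the ideal mesh: vertices in other faces of the base -/

namespace QGd

open EuclideanGeometry Vx Dx

noncomputable section

private theorem crs_norm_d5 (a b : E3) : ‖crs a b‖ ≤ ‖a‖ * ‖b‖ := by
  have h0 : 0 ≤ ‖a‖ * ‖b‖ := mul_nonneg (norm_nonneg _) (norm_nonneg _)
  refine abs_le_of_sq_le_sq' ?_ h0 |>.2
  rw [mul_pow, EuclideanSpace.norm_sq_eq, EuclideanSpace.norm_sq_eq, EuclideanSpace.norm_sq_eq]
  simp only [Fin.sum_univ_three, Real.norm_eq_abs, sq_abs, crs]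
  simp only [PiLp.toLp_apply, Matrix.cons_val_zero, Matrix.cons_val_one, Matrix.cons_val]
  nlinarith [sq_nonneg (a 0 * b 0 + a 1 * b 1 + a 2 * b 2)]

private theorem nrm_le_d5 (T : Fin 6) : ‖nrm T‖ ≤ 39 := by
  have h := (nrm_sq T).2
  nlinarith [norm_nonneg (nrm T)]

private theorem two_pow_d5 (K : ℕ) : ((K : ℝ) + 2) * (1 / 2) ^ (K + 1) ≤ 1 := by
  have h1 : K + 2 ≤ 2 ^ (K + 1) := Nat.lt_two_pow_self
  have h2 : ((K : ℝ) + 2) ≤ 2 ^ (K + 1) := by exact_mod_cast h1
  have h3 : (0 : ℝ) ≤ (1 / 2) ^ (K + 1) := by positivity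
  calc ((K : ℝ) + 2) * (1 / 2) ^ (K + 1) ≤ 2 ^ (K + 1) * (1 / 2) ^ (K + 1) :=
        mul_le_mul_of_nonneg_right h2 h3
    _ = 1 := by rw [← mul_pow]; norm_num

private theorem eps_eq_d5 (K : ℕ) : eps K = ((1 / 2) ^ (K + 1)) ^ 2 * (1 / 2) ^ 98 := by
  unfold eps
  rw [← pow_mul, ← pow_add]
  congr 1
  ring

private theorem mar_le_d5 (K : ℕ) : mar K ≤ ((1 / 2) ^ (K + 1)) ^ 2 * (1 / 2) ^ 200 := by
  unfold mar
  rw [← pow_mul, ← pow_add]
  exact pow_le_pow_of_le_one (by norm_num) (by norm_num) (by omega)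

private theorem out_mar_d5 (K : ℕ) : -(1 / 1000) / ((K : ℝ) + 2) ≤ -mar K := by
  have h1 := two_pow_d5 K
  have h2 := mar_le_d5 K
  have hK : (0 : ℝ) < (K : ℝ) + 2 := by positivity
  have h3 : (0 : ℝ) ≤ (1 / 2) ^ (K + 1) := by positivity
  have h4 : ((1 : ℝ) / 2) ^ (K + 1) ≤ 1 := pow_le_one₀ (by norm_num) (by norm_num)
  have h5 : (1 / 2 : ℝ) ^ (K + 1) ≤ 1 / ((K : ℝ) + 2) := by
    rw [le_div_iff₀ hK]
    linarith
  have h6 : ((1 : ℝ) / 2) ^ 200 ≤ 1 / 1000 := by norm_num
  have h7 : ((1 / 2 : ℝ) ^ (K + 1)) ^ 2 * (1 / 2) ^ 200 ≤ 1 / ((K : ℝ) + 2) * (1 / 1000) := by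
    apply mul_le_mul _ h6 (by positivity) (by positivity)
    nlinarith
  have h8 : -(1 / 1000) / ((K : ℝ) + 2) = -(1 / ((K : ℝ) + 2) * (1 / 1000)) := by
    field_simp
  rw [h8]
  linarith

private theorem sj_range_d5 (K j : ℕ) (hj : j ≤ K + 1) : 0 ≤ sj K j ∧ 1 / ((K : ℝ) + 2) ≤ 1 - sj K j := by
  have hK : (0 : ℝ) < (K : ℝ) + 2 := by positivity
  have hj' : (j : ℝ) ≤ (K : ℝ) + 1 := by exact_mod_cast hj
  unfold sj
  refine ⟨by positivity, ?_⟩
  rw [le_sub_iff_add_le, ← add_div, div_le_one hK]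
  linarith

private theorem sj_zero_d5 (K : ℕ) : sj K 0 = 0 := by
  unfold sj
  simp

private theorem hgt_range_d5 (K : ℕ) (s : ℝ) (h0 : 0 ≤ s) (h1 : s ≤ 1) :
    0 ≤ hgt K s ∧ hgt K s ≤ 2 * eps K := by
  have he : 0 ≤ eps K := by unfold eps; positivity
  have he1 : eps K ≤ 1 := by
    unfold eps
    exact pow_le_one₀ (by norm_num) (by norm_num)
  unfold hgt
  have h2 : 0 ≤ s * (1 - s) := mul_nonneg h0 (by linarith)
  have h3 : s * (1 - s) ≤ 1 := by nlinarith
  have h4 : eps K ^ 2 ≤ eps K := by nlinarith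
  constructor
  · have := mul_nonneg he (sub_nonneg.2 h1)
    have := mul_nonneg (sq_nonneg (eps K)) h2
    linarith
  · have : eps K * (1 - s) ≤ eps K := by nlinarith
    have : eps K ^ 2 * (s * (1 - s)) ≤ eps K ^ 2 := by nlinarith [sq_nonneg (eps K)]
    linarith

private theorem corner_out_d5 : ∀ T T' : Fin 6, T' ≠ T → ∃ m : Fin 3, ∀ k, CT T k ≠ CT T' m := by
  decide

private theorem fin3_cases_d5 : ∀ e m : Fin 3, m = e ∨ m = e + 1 ∨ m = e + 2 := by
  decide

/-- [DG-D5e] mesh vertices of another base face `T'`: some corner of `T'` is outside the base face of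
`d`, its weight is at least `1/(3(K+2))`; `idet_affine`. -/
theorem idet_other (K : ℕ) (d : Dx K) (T' : Fin 6) (hT : T' ≠ face6 d) (e : Fin 3) (j : ℕ)
    (hj : j ≤ K + 1) : idet K d (idl K T' e (sj K j)) ≤ -mar K := by
  have hK : (0 : ℝ) < (K : ℝ) + 2 := by positivity
  obtain ⟨hs0, hs1⟩ := sj_range_d5 K j hj
  set s := sj K j with hs
  have hK1 : 0 < 1 / ((K : ℝ) + 2) := by positivity
  have hs2 : s ≤ 1 := by linarith
  obtain ⟨hh0, hh1⟩ := hgt_range_d5 K s hs0 hs2
  -- the normal term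
  have hn : hgt K s * inner ℝ (crs (ideal K (tl (nx d)) - ideal K (tl d))
        (ideal K (tl (nx (nx d))) - ideal K (tl d))) (nrm T') ≤ 2 * eps K * (22 * 22 * 39) := by
    have h1 : ‖ideal K (tl (nx d)) - ideal K (tl d)‖ ≤ 22 := by
      refine (norm_sub_le _ _).trans ?_
      linarith [ideal_norm K (tl (nx d)), ideal_norm K (tl d)]
    have h2 : ‖ideal K (tl (nx (nx d))) - ideal K (tl d)‖ ≤ 22 := by
      refine (norm_sub_le _ _).trans ?_
      linarith [ideal_norm K (tl (nx (nx d))), ideal_norm K (tl d)]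
    have h3 : ‖crs (ideal K (tl (nx d)) - ideal K (tl d))
        (ideal K (tl (nx (nx d))) - ideal K (tl d))‖ ≤ 22 * 22 :=
      (crs_norm_d5 _ _).trans (mul_le_mul h1 h2 (norm_nonneg _) (by norm_num))
    have h4 : inner ℝ (crs (ideal K (tl (nx d)) - ideal K (tl d))
        (ideal K (tl (nx (nx d))) - ideal K (tl d))) (nrm T') ≤ 22 * 22 * 39 :=
      (real_inner_le_norm _ _).trans (mul_le_mul h3 (nrm_le_d5 T') (norm_nonneg _) (by norm_num))
    calc _ ≤ hgt K s * (22 * 22 * 39) := mul_le_mul_of_nonneg_left h4 hh0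
      _ ≤ _ := mul_le_mul_of_nonneg_right hh1 (by norm_num)
  have key : idet K d (idl K T' e s) = (1 - s) / 3 * idet K d (cor T' e) +
      (5 + s) / 15 * idet K d (cor T' (e + 1)) + (5 + 4 * s) / 15 * idet K d (cor T' (e + 2)) +
      hgt K s * inner ℝ (crs (ideal K (tl (nx d)) - ideal K (tl d))
        (ideal K (tl (nx (nx d))) - ideal K (tl d))) (nrm T') := by
    unfold idl
    exact idet_affine K d _ _ _ _ _ _ _ _ (by ring)
  have b0 : idet K d (cor T' e) ≤ 0 := (idet_base K d (CT T' e)).1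
  have b1 : idet K d (cor T' (e + 1)) ≤ 0 := (idet_base K d (CT T' (e + 1))).1
  have b2 : idet K d (cor T' (e + 2)) ≤ 0 := (idet_base K d (CT T' (e + 2))).1
  obtain ⟨m, hm⟩ := corner_out_d5 (face6 d) T' hT
  have hmm : idet K d (cor T' m) ≤ -(1 / 1000) / ((K : ℝ) + 2) := (idet_base K d (CT T' m)).2 hm
  set w : ℝ := 1 / ((K : ℝ) + 2) with hw
  have hmm' : idet K d (cor T' m) ≤ -(w / 1000) := by
    refine hmm.trans (le_of_eq ?_)
    rw [hw]
    field_simp
  have c0 : w / 3 ≤ (1 - s) / 3 := by linarith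
  have c1 : w / 3 ≤ (5 + s) / 15 := by linarith
  have c2 : w / 3 ≤ (5 + 4 * s) / 15 := by linarith
  have d0 : 0 ≤ (1 - s) / 3 := by linarith
  have d1 : 0 ≤ (5 + s) / 15 := by linarith
  have d2 : 0 ≤ (5 + 4 * s) / 15 := by linarith
  have e0 : (1 - s) / 3 * idet K d (cor T' e) ≤ 0 := mul_nonpos_of_nonneg_of_nonpos d0 b0
  have e1 : (5 + s) / 15 * idet K d (cor T' (e + 1)) ≤ 0 := mul_nonpos_of_nonneg_of_nonpos d1 b1
  have e2 : (5 + 4 * s) / 15 * idet K d (cor T' (e + 2)) ≤ 0 :=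
    mul_nonpos_of_nonneg_of_nonpos d2 b2
  have hw0 : 0 < w := by positivity
  have step : ∀ c x : ℝ, w / 3 ≤ c → x ≤ -(w / 1000) → c * x ≤ -(w ^ 2 / 3000) := by
    intro c x hc hx
    have : (w / 3) * (w / 1000) ≤ c * (-x) :=
      mul_le_mul hc (by linarith) (by positivity) (by linarith)
    nlinarith
  have main : (1 - s) / 3 * idet K d (cor T' e) +
      (5 + s) / 15 * idet K d (cor T' (e + 1)) + (5 + 4 * s) / 15 * idet K d (cor T' (e + 2)) ≤
      -(w ^ 2 / 3000) := by
    rcases fin3_cases_d5 e m with h | h | h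
    · have := step _ _ c0 (h ▸ hmm')
      linarith
    · have := step _ _ c1 (h ▸ hmm')
      linarith
    · have := step _ _ c2 (h ▸ hmm')
      linarith
  have hu : (1 / 2 : ℝ) ^ (K + 1) ≤ w := by
    rw [hw, le_div_iff₀ hK]
    linarith [two_pow_d5 K]
  have hu0 : (0 : ℝ) ≤ (1 / 2) ^ (K + 1) := by positivity
  have hu2 : ((1 / 2 : ℝ) ^ (K + 1)) ^ 2 ≤ w ^ 2 := pow_le_pow_left₀ hu0 hu 2
  have hm1 := mar_le_d5 K
  have he1 := eps_eq_d5 K
  rw [key]
  set U : ℝ := ((1 / 2 : ℝ) ^ (K + 1)) ^ 2 with hU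
  have hU0 : 0 ≤ U := by positivity
  have n1 : (2 : ℝ) * (1 / 2) ^ 98 * (22 * 22 * 39) ≤ 1 / 6000 := by norm_num
  have n2 : ((1 : ℝ) / 2) ^ 200 ≤ 1 / 6000 := by norm_num
  have f1 : 2 * eps K * (22 * 22 * 39) ≤ U * (1 / 6000) := by
    rw [he1]
    calc 2 * (U * (1 / 2) ^ 98) * (22 * 22 * 39) = U * (2 * (1 / 2) ^ 98 * (22 * 22 * 39)) := by ring
      _ ≤ U * (1 / 6000) := mul_le_mul_of_nonneg_left n1 hU0
  have f2 : mar K ≤ U * (1 / 6000) := hm1.trans (mul_le_mul_of_nonneg_left n2 hU0)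
  linarith

private theorem leg_val_d5 {K : ℕ} (T : Fin 6) (e : Fin 3) (i i' : Fin (K + 1))
    (h : leg T e i' ≠ pre T e i) : (i' : ℕ) + 1 ≠ (i : ℕ) := by
  intro h1
  apply h
  unfold pre
  have hi0 : i ≠ 0 := by
    intro h2
    rw [h2] at h1
    simp at h1
  rw [if_neg hi0]
  congr 1
  apply Fin.ext
  have : (i : ℕ) = (i' : ℕ) + 1 := h1.symm
  have hlt := i.isLt
  have h3 : ((i - 1 : Fin (K + 1)) : ℕ) = (i : ℕ) - 1 := Fin.val_sub_one_of_ne_zero hi0
  rw [h3]
  omega

private theorem strict_L_d5 (K : ℕ) (T : Fin 6) (e : Fin 3) (i : Fin (K + 1)) (v : Vx K)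
    (h1 : v ≠ base (CT T (e + 1))) (h2 : v ≠ leg T e i) (h3 : v ≠ pre T e i) :
    idet K (L T e i 0) (ideal K v) ≤ -mar K := by
  have hi := i.isLt
  cases v with
  | base a =>
    by_cases ha : ∀ k, CT T k ≠ a
    · exact (L_out K T e i a ha).trans (out_mar_d5 K)
    · push Not at ha
      obtain ⟨k, rfl⟩ := ha
      rcases fin3_cases_d5 e k with rfl | rfl | rfl
      · exact (L_corner K T k i).1
      · exact absurd rfl h1
      · exact (L_corner K T e i).2
  | ctr T' =>
    by_cases hT : T' = T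
    · subst hT
      have hi0 : i ≠ 0 := by
        rintro rfl
        exact h3 (by simp [pre])
      have h := L_same K T' e i 0 (by omega) (fun h => hi0 (Fin.ext h.symm)) (by omega)
      rw [sj_zero_d5, idl_zero] at h
      exact h
    · have h := idet_other K (L T e i 0) T' hT 0 0 (by omega)
      rw [sj_zero_d5] at h
      exact h
  | leg T' e' i' =>
    have hi' := i'.isLt
    by_cases hT : T' = T
    · subst hT
      rcases fin3_cases_d5 e e' with rfl | rfl | rfl
      · exact L_same K T' e' i (i' + 1) (by omega) (leg_val_d5 T' e' i i' h3)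
          (fun h => h2 (by rw [Fin.ext (by omega : (i' : ℕ) = i)]))
      · exact L_next K T' e i (i' + 1) (by omega) (by omega)
      · exact L_prev K T' e i (i' + 1) (by omega) (by omega)
    · exact idet_other K (L T e i 0) T' hT e' (i' + 1) (by omega)

private theorem strict_R_d5 (K : ℕ) (T : Fin 6) (e : Fin 3) (i : Fin (K + 1)) (v : Vx K)
    (h1 : v ≠ base (CT T (e + 2))) (h2 : v ≠ leg T e i) (h3 : v ≠ pre T e i) :
    idet K (R T e i 0) (ideal K v) ≤ -mar K := by
  have hi := i.isLt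
  cases v with
  | base a =>
    by_cases ha : ∀ k, CT T k ≠ a
    · exact (R_out K T e i a ha).trans (out_mar_d5 K)
    · push Not at ha
      obtain ⟨k, rfl⟩ := ha
      rcases fin3_cases_d5 e k with rfl | rfl | rfl
      · exact (R_corner K T k i).1
      · exact (R_corner K T e i).2
      · exact absurd rfl h1
  | ctr T' =>
    by_cases hT : T' = T
    · subst hT
      have hi0 : i ≠ 0 := by
        rintro rfl
        exact h3 (by simp [pre])
      have h := R_same K T' e i 0 (by omega) (fun h => hi0 (Fin.ext h.symm)) (by omega)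
      rw [sj_zero_d5, idl_zero] at h
      exact h
    · have h := idet_other K (R T e i 0) T' hT 0 0 (by omega)
      rw [sj_zero_d5] at h
      exact h
  | leg T' e' i' =>
    have hi' := i'.isLt
    by_cases hT : T' = T
    · subst hT
      rcases fin3_cases_d5 e e' with rfl | rfl | rfl
      · exact R_same K T' e' i (i' + 1) (by omega) (leg_val_d5 T' e' i i' h3)
          (fun h => h2 (by rw [Fin.ext (by omega : (i' : ℕ) = i)]))
      · exact R_next K T' e i (i' + 1) (by omega) (by omega)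
      · exact R_prev K T' e i (i' + 1) (by omega) (by omega)
    · exact idet_other K (R T e i 0) T' hT e' (i' + 1) (by omega)

private theorem strict_E_d5 (K : ℕ) (T : Fin 6) (e : Fin 3) (v : Vx K)
    (h1 : v ≠ base (CT T (e + 1))) (h2 : v ≠ base (CT T (e + 2))) (h3 : v ≠ leg T e (Fin.last K)) :
    idet K (E T e 0) (ideal K v) ≤ -mar K := by
  cases v with
  | base a =>
    by_cases ha : ∀ k, CT T k ≠ a
    · exact (E_out K T e a ha).trans (out_mar_d5 K)
    · push Not at ha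
      obtain ⟨k, rfl⟩ := ha
      rcases fin3_cases_d5 e k with rfl | rfl | rfl
      · exact E_corner K T k
      · exact absurd rfl h1
      · exact absurd rfl h2
  | ctr T' =>
    by_cases hT : T' = T
    · subst hT
      have h := E_same K T' e 0 (by omega)
      rw [sj_zero_d5, idl_zero] at h
      exact h
    · have h := idet_other K (E T e 0) T' hT 0 0 (by omega)
      rw [sj_zero_d5] at h
      exact h
  | leg T' e' i' =>
    have hi' := i'.isLt
    by_cases hT : T' = T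
    · subst hT
      rcases fin3_cases_d5 e e' with rfl | rfl | rfl
      · have hne : (i' : ℕ) ≠ K := fun h => h3 (by rw [Fin.ext (a := i') (b := Fin.last K) h])
        exact E_same K T' e' (i' + 1) (by omega)
      · exact E_next K T' e (i' + 1) (by omega) (by omega)
      · exact E_prev K T' e (i' + 1) (by omega) (by omega)
    · exact idet_other K (E T e 0) T' hT e' (i' + 1) (by omega)

/-- [DG-D5f] STRICT CONVEXITY OF THE IDEAL MESH -/
theorem ideal_strict (K : ℕ) (d : Dx K) (v : Vx K) (h1 : v ≠ tl d) (h2 : v ≠ tl (nx d))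
    (h3 : v ≠ tl (nx (nx d))) : idet K d (ideal K v) ≤ -mar K := by
  cases d with
  | L T e i k =>
    have hk : idet K (L T e i k) (ideal K v) = idet K (L T e i 0) (ideal K v) := by
      fin_cases k
      · rfl
      · exact idet_nx K (L T e i 0) _
      · exact (idet_nx K (L T e i 1) _).trans (idet_nx K (L T e i 0) _)
    rw [hk]
    fin_cases k
    · exact strict_L_d5 K T e i v h1 h2 h3
    · exact strict_L_d5 K T e i v h3 h1 h2
    · exact strict_L_d5 K T e i v h2 h3 h1
  | R T e i k =>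
    have hk : idet K (R T e i k) (ideal K v) = idet K (R T e i 0) (ideal K v) := by
      fin_cases k
      · rfl
      · exact idet_nx K (R T e i 0) _
      · exact (idet_nx K (R T e i 1) _).trans (idet_nx K (R T e i 0) _)
    rw [hk]
    fin_cases k
    · exact strict_R_d5 K T e i v h1 h3 h2
    · exact strict_R_d5 K T e i v h3 h2 h1
    · exact strict_R_d5 K T e i v h2 h1 h3
  | E T e k =>
    have hk : idet K (E T e k) (ideal K v) = idet K (E T e 0) (ideal K v) := by
      fin_cases k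
      · rfl
      · exact idet_nx K (E T e 0) _
      · exact (idet_nx K (E T e 1) _).trans (idet_nx K (E T e 0) _)
    rw [hk]
    fin_cases k
    · exact strict_E_d5 K T e v h1 h2 h3
    · exact strict_E_d5 K T e v h3 h1 h2
    · exact strict_E_d5 K T e v h2 h3 h1

end

end QGd
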