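import Pool.Agent.Lib_MP_6b5565_dg.D5b

/-! [DG-D6] strict convexity of the mesh -/

namespace QGd

open EuclideanGeometry Vx Dx

noncomputable section

private theorem coord_le (a : E3) (i : Fin 3) : |a i| ≤ ‖a‖ := by
  have := PiLp.norm_apply_le a i
  rwa [Real.norm_eq_abs] at this

private theorem prod3_pert (x y z x' y' z' t : ℝ) (ht0 : 0 ≤ t) (ht : t ≤ 1) (hx : |x| ≤ 22)
    (hy : |y| ≤ 22) (hz : |z| ≤ 22) (h1 : |x' - x| ≤ t) (h2 : |y' - y| ≤ t) (h3 : |z' - z| ≤ t) :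
    |x' * y' * z' - x * y * z| ≤ 1519 * t := by
  have hy' : |y'| ≤ 23 := by
    have : |y'| ≤ |y' - y| + |y| := by
      have := abs_add_le (y' - y) y
      simpa using this
    linarith
  have hz' : |z'| ≤ 23 := by
    have : |z'| ≤ |z' - z| + |z| := by
      have := abs_add_le (z' - z) z
      simpa using this
    linarith
  have e : x' * y' * z' - x * y * z =
      (x' - x) * (y' * z') + x * (y' - y) * z' + x * y * (z' - z) := by ring
  rw [e]
  refine (abs_add_le _ _).trans ?_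
  refine (add_le_add (abs_add_le _ _) le_rfl).trans ?_
  have b1 : |(x' - x) * (y' * z')| ≤ t * (23 * 23) := by
    rw [abs_mul, abs_mul]
    exact mul_le_mul h1 (mul_le_mul hy' hz' (abs_nonneg _) (by norm_num))
      (mul_nonneg (abs_nonneg _) (abs_nonneg _)) ht0
  have b2 : |x * (y' - y) * z'| ≤ 22 * t * 23 := by
    rw [abs_mul, abs_mul]
    exact mul_le_mul (mul_le_mul hx h2 (abs_nonneg _) (by norm_num)) hz' (abs_nonneg _)
      (by positivity)
  have b3 : |x * y * (z' - z)| ≤ 22 * 22 * t := by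
    rw [abs_mul, abs_mul]
    exact mul_le_mul (mul_le_mul hx hy (abs_nonneg _) (by norm_num)) h3 (abs_nonneg _)
      (by norm_num)
  linarith

/-- [DG-D6a] perturbation of determinants -/
theorem rdet_pert (a b c a' b' c' : E3) (t : ℝ) (ht : t ≤ 1) (ha : ‖a‖ ≤ 22) (hb : ‖b‖ ≤ 22)
    (hc : ‖c‖ ≤ 22) (h1 : ‖a' - a‖ ≤ t) (h2 : ‖b' - b‖ ≤ t) (h3 : ‖c' - c‖ ≤ t) :
    |rdet a' b' c' - rdet a b c| ≤ 10 ^ 5 * t := by
  have ht0 : 0 ≤ t := (norm_nonneg _).trans h1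
  have ca : ∀ i, |a i| ≤ 22 := fun i => (coord_le a i).trans ha
  have cb : ∀ i, |b i| ≤ 22 := fun i => (coord_le b i).trans hb
  have cc : ∀ i, |c i| ≤ 22 := fun i => (coord_le c i).trans hc
  have da : ∀ i, |a' i - a i| ≤ t := fun i => by
    have := (coord_le (a' - a) i).trans h1
    simpa using this
  have db : ∀ i, |b' i - b i| ≤ t := fun i => by
    have := (coord_le (b' - b) i).trans h2
    simpa using this
  have dc : ∀ i, |c' i - c i| ≤ t := fun i => by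
    have := (coord_le (c' - c) i).trans h3
    simpa using this
  have P : ∀ i j k, |a' i * b' j * c' k - a i * b j * c k| ≤ 1519 * t := fun i j k =>
    prod3_pert _ _ _ _ _ _ t ht0 ht (ca i) (cb j) (cc k) (da i) (db j) (dc k)
  have p1 := abs_le.mp (P 0 1 2)
  have p2 := abs_le.mp (P 0 2 1)
  have p3 := abs_le.mp (P 1 0 2)
  have p4 := abs_le.mp (P 1 2 0)
  have p5 := abs_le.mp (P 2 0 1)
  have p6 := abs_le.mp (P 2 1 0)
  have e : rdet a' b' c' - rdet a b c =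
      (a' 0 * b' 1 * c' 2 - a 0 * b 1 * c 2) - (a' 0 * b' 2 * c' 1 - a 0 * b 2 * c 1)
      - (a' 1 * b' 0 * c' 2 - a 1 * b 0 * c 2) + (a' 1 * b' 2 * c' 0 - a 1 * b 2 * c 0)
      + (a' 2 * b' 0 * c' 1 - a 2 * b 0 * c 1) - (a' 2 * b' 1 * c' 0 - a 2 * b 1 * c 0) := by
    unfold rdet
    ring
  rw [e, abs_le]
  constructor <;> linarith [p1.1, p1.2, p2.1, p2.2, p3.1, p3.2, p4.1, p4.2, p5.1, p5.2, p6.1, p6.2]

private theorem del_mar (K : ℕ) : 10 ^ 5 * (2 * del K) < mar K := by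
  unfold del mar
  generalize hA : 16 * K + 1000 = A
  generalize hB : 8 * K + 400 = B
  have hAB : A = B + (A - B) := by omega
  have h20 : 20 ≤ A - B := by omega
  have h1 : ((1 : ℝ) / 2) ^ A = ((1 : ℝ) / 2) ^ B * ((1 : ℝ) / 2) ^ (A - B) := by
    rw [← pow_add, ← hAB]
  have h2 : ((1 : ℝ) / 2) ^ (A - B) ≤ ((1 : ℝ) / 2) ^ 20 :=
    pow_le_pow_of_le_one (by norm_num) (by norm_num) h20
  have h3 : (0 : ℝ) < ((1 : ℝ) / 2) ^ B := by positivity
  rw [h1]
  have h4 : 10 ^ 5 * (2 * ((1 : ℝ) / 2) ^ 20) < 1 := by norm_num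
  have h5 : 10 ^ 5 * (2 * ((1 : ℝ) / 2) ^ (A - B)) < 1 := by linarith
  calc 10 ^ 5 * (2 * (((1 : ℝ) / 2) ^ B * ((1 : ℝ) / 2) ^ (A - B)))
      = ((1 : ℝ) / 2) ^ B * (10 ^ 5 * (2 * ((1 : ℝ) / 2) ^ (A - B))) := by ring
    _ < ((1 : ℝ) / 2) ^ B * 1 := mul_lt_mul_of_pos_left h5 h3
    _ = _ := mul_one _

private theorem del_pos (K : ℕ) : 0 < del K := by
  unfold del
  positivity

private theorem rdet_smul (r : ℝ) (a b c : E3) :
    rdet (r • a) (r • b) (r • c) = r ^ 3 * rdet a b c := by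
  unfold rdet
  simp only [PiLp.smul_apply, smul_eq_mul]
  ring

private theorem rdet_pt (a b c : Fin 3 → ℤ) : rdet (pt a) (pt b) (pt c) = (det3 a b c : ℝ) := by
  unfold rdet det3 pt
  simp

private theorem pt_sub (a b : Fin 3 → ℤ) : pt a - pt b = pt (fun j => a j - b j) := by
  unfold pt
  ext i
  fin_cases i <;> simp

/-- [DG-D6b] STRICT CONVEXITY -/
theorem strict_of_approx {K S : ℕ} {c : Vx K → Fin 3 → ℤ} (h : Approx K S c) (d : Dx K) (v : Vx K)
    (h1 : v ≠ tl d) (h2 : v ≠ tl (nx d)) (h3 : v ≠ tl (nx (nx d))) :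
    det3 (fun j => c (tl (nx d)) j - c (tl d) j) (fun j => c (tl (nx (nx d))) j - c (tl d) j)
      (fun j => c v j - c (tl d) j) < 0 := by
  have hS : (0 : ℝ) < S := by exact_mod_cast h.pos
  have hm := ideal_strict K d v h1 h2 h3
  have hdp := del_pos K
  have hdm := del_mar K
  have hm1 : mar K ≤ 1 := by
    unfold mar
    exact pow_le_one₀ (by norm_num) (by norm_num)
  have nrm2 : ∀ u w : Vx K, ‖ideal K u - ideal K w‖ ≤ 22 := by
    intro u w
    have := norm_sub_le (ideal K u) (ideal K w)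
    have h1 := ideal_norm K u
    have h2 := ideal_norm K w
    linarith
  have dif : ∀ u w : Vx K, ‖((1 / (S : ℝ)) • pt (c u) - (1 / (S : ℝ)) • pt (c w)) -
      (ideal K u - ideal K w)‖ ≤ 2 * del K := by
    intro u w
    have e : ((1 / (S : ℝ)) • pt (c u) - (1 / (S : ℝ)) • pt (c w)) -
        (ideal K u - ideal K w) = ((1 / (S : ℝ)) • pt (c u) - ideal K u) -
        ((1 / (S : ℝ)) • pt (c w) - ideal K w) := by abel
    rw [e]
    have := norm_sub_le ((1 / (S : ℝ)) • pt (c u) - ideal K u)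
      ((1 / (S : ℝ)) • pt (c w) - ideal K w)
    have h1 := h.close u
    have h2 := h.close w
    linarith
  have hp := rdet_pert _ _ _ _ _ _ (2 * del K) (by nlinarith) (nrm2 (tl (nx d)) (tl d))
    (nrm2 (tl (nx (nx d))) (tl d)) (nrm2 v (tl d)) (dif (tl (nx d)) (tl d))
    (dif (tl (nx (nx d))) (tl d)) (dif v (tl d))
  have hp2 := (abs_le.mp hp).2
  unfold idet at hm
  have hneg : rdet ((1 / (S : ℝ)) • pt (c (tl (nx d))) - (1 / (S : ℝ)) • pt (c (tl d)))
      ((1 / (S : ℝ)) • pt (c (tl (nx (nx d)))) - (1 / (S : ℝ)) • pt (c (tl d)))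
      ((1 / (S : ℝ)) • pt (c v) - (1 / (S : ℝ)) • pt (c (tl d))) < 0 := by linarith
  rw [← smul_sub, ← smul_sub, ← smul_sub, pt_sub, pt_sub, pt_sub, rdet_smul, rdet_pt] at hneg
  have hpos : (0 : ℝ) < (1 / (S : ℝ)) ^ 3 := by positivity
  have := (mul_neg_iff.mp hneg)
  rcases this with ⟨_, h5⟩ | ⟨h5, _⟩
  · exact_mod_cast h5
  · exact absurd h5 (not_lt.mpr hpos.le)

end

end QGd
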