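import Pool.Agent.Lib_MP_6b5565_dg.Q.Defs

/-!
# MP_6b5565_lc : closed quasigeodesics of exponential algebraic degree -- definitions

* `IPoly` : a convex polyhedron with integer vertices and triangular faces (half-edge structure).
* `IPoly.bits` : number of bits of this input.
* `Desc` : description of a simple closed quasigeodesic as a cyclic sequence of straight segments in
  faces.
* `SCQ` : the same without superfluous endpoints (all endpoints are crossing points of edges or
  vertices).
-/

namespace QGd

open scoped BigOperators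
open EuclideanGeometry

noncomputable section

namespace Poly

variable (P : Poly)

/-- the path `p → y → q` crosses the edge of `d` at the inner point `y`, from the face of `d` to the
face of `inv d`, and is a quasigeodesic there (both angle sums are at most `π`) -/
def CrossAt (p y q : E3) (d : P.D) : Prop :=
  y ∈ P.oseg d ∧ p ∈ P.tri d ∧ q ∈ P.tri (P.inv d) ∧ p ∉ P.seg d ∧ q ∉ P.seg d ∧
    ∠ p y (P.B d) + ∠ (P.B d) y q ≤ Real.pi ∧ ∠ p y (P.A d) + ∠ (P.A d) y q ≤ Real.pi

/-- the path `p → y → q` passes through the vertex `v`, and both angle sums at `v` are at most `π` -/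
def TurnAt (p y q : E3) (v : P.V) : Prop :=
  ∃ α, y = P.pos v ∧ P.Side v p q α ∧ α ≤ Real.pi ∧ P.tot v - α ≤ Real.pi

end Poly

/-- Description of a simple closed quasigeodesic on the surface of `P`: a closed polygon with `N`
endpoints `x i`, the segment from `x i` to `x (i+1)` lies in the face of `f i` (`mem`), the curve is
injective (`simple`), and at every endpoint both angle sums are at most `π` (`node`: `Poly.Quasi` at
points of edges and vertices; or the curve passes straight through an inner point of a segment in one
face). -/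
structure Desc (P : Poly) (N : ℕ) where
  x : ZMod N → E3
  f : ZMod N → P.D
  mem : ∀ i, x i ∈ P.tri (f i) ∧ x (i + 1) ∈ P.tri (f i)
  simple : ∀ (i j : ZMod N) (s t : ℝ), 0 ≤ s → s < 1 → 0 ≤ t → t < 1 →
    AffineMap.lineMap (x i) (x (i + 1)) s = (AffineMap.lineMap (x j) (x (j + 1)) t : E3) →
    i = j ∧ s = t
  node : ∀ i, P.Quasi (x (i - 1)) (x i) (x (i + 1)) ∨
    ∃ d, x (i - 1) ∈ P.tri d ∧ x (i + 1) ∈ P.tri d ∧ Sbtw ℝ (x (i - 1)) (x i) (x (i + 1))

/-- A simple closed quasigeodesic without superfluous endpoints: every node is the crossing of an edge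
at an inner point of the edge, or a vertex, with both angle sums at most `π`. -/
structure SCQ (P : Poly) (N : ℕ) where
  x : ZMod N → E3
  f : ZMod N → P.D
  mem : ∀ i, x i ∈ P.tri (f i) ∧ x (i + 1) ∈ P.tri (f i)
  simple : ∀ (i j : ZMod N) (s t : ℝ), 0 ≤ s → s < 1 → 0 ≤ t → t < 1 →
    AffineMap.lineMap (x i) (x (i + 1)) s = (AffineMap.lineMap (x j) (x (j + 1)) t : E3) →
    i = j ∧ s = t
  node : ∀ i, (∃ d, P.CrossAt (x (i - 1)) (x i) (x (i + 1)) d) ∨
    ∃ v, P.TurnAt (x (i - 1)) (x i) (x (i + 1)) v

/-- determinant of three integer vectors -/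
def det3 (a b c : Fin 3 → ℤ) : ℤ :=
  a 0 * (b 1 * c 2 - b 2 * c 1) - a 1 * (b 0 * c 2 - b 2 * c 0) + a 2 * (b 0 * c 1 - b 1 * c 0)

/-- A convex polyhedron with integer vertices and triangular faces, given by the half-edge structure
of its surface:

* `V` vertices, `c v` the coordinates of `v`; `D` half-edges, `inv d` the opposite half-edge,
  `nxt d` the next half-edge of the same face, `tail d` the start vertex;
* `orbit` : the half-edges starting at one vertex form one cycle of the rotation
  `a ↦ inv (nxt (nxt a))`; `conn` : the surface is connected; `euler` : `V - E + F = 2`;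
* `edge_inj` : no double edges;
* `strict` : all vertices not in the face `(A, B, C)` of `d` are strictly on the negative side of
  the plane of `A, B, C` : `det (B - A, C - A, X - A) < 0`. -/
structure IPoly where
  V : Type
  D : Type
  [fV : Fintype V]
  [dV : DecidableEq V]
  [fD : Fintype D]
  [dD : DecidableEq D]
  inv : D → D
  nxt : D → D
  tail : D → V
  c : V → Fin 3 → ℤ
  inv_inv : ∀ d, inv (inv d) = d
  nxt3 : ∀ d, nxt (nxt (nxt d)) = d
  tail_inv : ∀ d, tail (inv d) = tail (nxt d)
  orbit : ∀ d d', tail d = tail d' → ∃ k : ℕ, (fun a => inv (nxt (nxt a)))^[k] d = d'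
  surj : ∀ v, ∃ d, tail d = v
  conn : ∀ u v, Relation.ReflTransGen (fun a b => ∃ d, tail d = a ∧ tail (inv d) = b) u v
  four : 4 ≤ Fintype.card V
  euler : 6 * Fintype.card V = Fintype.card D + 12
  edge_inj : ∀ d d', tail d = tail d' → tail (inv d) = tail (inv d') → d = d'
  strict : ∀ (d : D) (v : V), v ≠ tail d → v ≠ tail (nxt d) → v ≠ tail (nxt (nxt d)) →
    det3 (fun j => c (tail (nxt d)) j - c (tail d) j)
      (fun j => c (tail (nxt (nxt d))) j - c (tail d) j) (fun j => c v j - c (tail d) j) < 0

attribute [instance] IPoly.fV IPoly.dV IPoly.fD IPoly.dD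

/-- number of bits of the input: all coordinates in binary (with sign), and for every half-edge the
name of a vertex (the face structure) -/
def IPoly.bits (I : IPoly) : ℕ :=
  ∑ v, ∑ j, (1 + (I.c v j).natAbs.size) + Fintype.card I.D * (1 + (Fintype.card I.V).size)

/-- the point with integer coordinates `a` -/
def pt (a : Fin 3 → ℤ) : E3 := !₂[(a 0 : ℝ), (a 1 : ℝ), (a 2 : ℝ)]

end

end QGd
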