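import Pool.Agent.Lib_MP_6b5565_dg.B1

/-! [DG-ExA] the sum of the angles of a convex cone is less than `2π` -/

namespace QGd

open InnerProductGeometry

noncomputable section

private theorem rdet_smul_exa (a b x : E3) (t : ℝ) : rdet a b (t • x) = t * rdet a b x := by
  unfold rdet
  simp only [PiLp.smul_apply, smul_eq_mul]
  ring

private theorem rdet_sub_exa (a b x y : E3) : rdet a b (x - y) = rdet a b x - rdet a b y := by
  unfold rdet
  simp only [PiLp.sub_apply]
  ring

private theorem rdet_add_exa (a b x y : E3) : rdet a b (x + y) = rdet a b x + rdet a b y := by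
  unfold rdet
  simp only [PiLp.add_apply]
  ring

private theorem rdet_neg_exa (a b x : E3) : rdet a b (-x) = -rdet a b x := by
  unfold rdet
  simp only [PiLp.neg_apply]
  ring

private theorem rdet_rot_exa (a b c : E3) : rdet a b c = rdet b c a := by
  unfold rdet
  ring

private theorem rdet_same_exa (a b : E3) : rdet a b b = 0 := by
  unfold rdet
  ring

private theorem rdet_first_exa (a b : E3) : rdet a b a = 0 := by
  unfold rdet
  ring

private theorem rdet_zero_exa (a b : E3) : rdet a b 0 = 0 := by
  unfold rdet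
  simp

private theorem rdet_left_zero_exa (a b : E3) : rdet 0 a b = 0 := by
  unfold rdet
  simp

/-- the relation between four vectors -/
private theorem four_exa (p q r z : E3) :
    (-rdet p q r) • z + rdet p q z • r = rdet p r z • q - rdet q r z • p := by
  ext i
  fin_cases i
  · simp only [rdet, PiLp.add_apply, PiLp.sub_apply, PiLp.smul_apply, smul_eq_mul, Fin.zero_eta]
    ring
  · simp only [rdet, PiLp.add_apply, PiLp.sub_apply, PiLp.smul_apply, smul_eq_mul, Fin.mk_one]
    ring
  · simp only [rdet, PiLp.add_apply, PiLp.sub_apply, PiLp.smul_apply, smul_eq_mul,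
      Fin.reduceFinMk]
    ring

private theorem mem_span_exa {x y z : E3} {s t : ℝ} (hs : 0 ≤ s) (ht : 0 ≤ t)
    (h : y = s • x + t • z) : y ∈ Submodule.span NNReal {x, z} := by
  rw [Submodule.mem_span_pair]
  exact ⟨⟨s, hs⟩, ⟨t, ht⟩, h.symm⟩

private theorem angle_add_exa {x y z : E3} {s t : ℝ} (hs : 0 ≤ s) (ht : 0 ≤ t)
    (h : y = s • x + t • z) (hy : y ≠ 0) : angle x y + angle y z = angle x z :=
  (angle_eq_angle_add_add_angle_add_of_mem_span hy (mem_span_exa hs ht h)).symm

/-- the strict triangle inequality -/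
private theorem angle_lt_exa {x y z : E3} (h : rdet x z y ≠ 0) : angle x z < angle x y + angle y z := by
  have hy : y ≠ 0 := by
    rintro rfl
    exact h (rdet_zero_exa x z)
  refine lt_of_le_of_ne (angle_le_angle_add_angle x y z) fun he => ?_
  rcases (angle_eq_angle_add_angle_iff hy).1 he with h1 | h1
  · obtain ⟨-, r, -, hr⟩ := angle_eq_pi_iff.1 h1
    apply h
    rw [hr]
    unfold rdet
    simp only [PiLp.smul_apply, smul_eq_mul]
    ring
  · rw [Submodule.mem_span_pair] at h1
    obtain ⟨s, t, hst⟩ := h1
    apply h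
    rw [← hst]
    unfold rdet
    simp only [NNReal.smul_def, PiLp.add_apply, PiLp.smul_apply, smul_eq_mul]
    ring

/-- A convex path `b 0, ..., b n` is shorter than the detour through `Z`. -/
private theorem path_lt_exa (n : ℕ) : ∀ (b : ℕ → E3) (Z : E3), 1 ≤ n →
    (∀ i, i + 1 < n → rdet (b i) (b (i + 1)) (b n) < 0) →
    (∀ i, i + 2 ≤ n → rdet (b i) (b (i + 1)) (b (i + 2)) < 0) →
    0 ≤ rdet (b 0) (b 1) Z →
    (∀ i, i < n → 0 < rdet (b i) (b n) Z) →
    ∑ i ∈ Finset.range n, angle (b i) (b (i + 1)) < angle (b 0) Z + angle Z (b n) := by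
  induction n with
  | zero => intro b Z h; omega
  | succ n ih =>
    intro b Z _ h1 h2 h3 h4
    rcases Nat.eq_zero_or_pos n with rfl | hn
    · rw [Finset.sum_range_one]
      exact angle_lt_exa (h4 0 (by omega)).ne'
    · -- the point `Y`
      have hα : 0 < -rdet (b 0) (b 1) (b (n + 1)) := by
        have := h1 0 (by omega)
        linarith
      have h40 := h4 0 (by omega)
      have h41 := h4 1 (by omega)
      have h012 := h2 0 (by omega)
      set Y : E3 := (-rdet (b 0) (b 1) (b (n + 1))) • Z + rdet (b 0) (b 1) Z • b (n + 1) with hY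
      have hY' : Y = rdet (b 0) (b (n + 1)) Z • b 1 - rdet (b 1) (b (n + 1)) Z • b 0 :=
        four_exa _ _ _ _
      have hYpos : ∀ i, i < n + 1 → 0 < rdet (b i) (b (n + 1)) Y := by
        intro i hi
        rw [hY, rdet_add_exa, rdet_smul_exa, rdet_smul_exa, rdet_same_exa, mul_zero, add_zero]
        exact mul_pos hα (h4 i hi)
      have hYne : Y ≠ 0 := by
        intro h0
        have := hYpos 0 (by omega)
        rw [h0, rdet_zero_exa] at this
        exact lt_irrefl _ this
      have hb1 : b 1 ≠ 0 := by
        intro h0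
        rw [h0, rdet_left_zero_exa] at h41
        exact lt_irrefl _ h41
      have hih := ih (fun i => b (i + 1)) Y hn
        (fun i hi => h1 (i + 1) (by omega))
        (fun i hi => h2 (i + 1) (by omega))
        (by
          show 0 ≤ rdet (b (0 + 1)) (b (1 + 1)) Y
          rw [hY', rdet_sub_exa, rdet_smul_exa, rdet_smul_exa]
          have e1 : rdet (b (0 + 1)) (b (1 + 1)) (b 1) = 0 := rdet_first_exa _ _
          have e2 : rdet (b (0 + 1)) (b (1 + 1)) (b 0) < 0 := by
            rw [← rdet_rot_exa]
            exact h012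
          rw [e1]
          nlinarith)
        (fun i hi => hYpos (i + 1) (by omega))
      rw [Finset.sum_range_succ']
      have e3 : angle (b 0) (b 1) + angle (b 1) Y = angle (b 0) Y := by
        refine angle_add_exa (s := rdet (b 1) (b (n + 1)) Z / rdet (b 0) (b (n + 1)) Z)
          (t := 1 / rdet (b 0) (b (n + 1)) Z) (by positivity) (by positivity) ?_ hb1
        rw [hY', smul_sub, smul_smul, smul_smul, one_div_mul_cancel h40.ne', one_smul,
          one_div_mul_eq_div]
        abel
      have e4 : angle Z Y + angle Y (b (n + 1)) = angle Z (b (n + 1)) :=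
        angle_add_exa hα.le h3 hY hYne
      have e5 := angle_le_angle_add_angle (b 0) Z Y
      have hih' : ∑ i ∈ Finset.range n, angle (b (i + 1)) (b (i + 1 + 1)) <
          angle (b 1) Y + angle Y (b (n + 1)) := hih
      have e6 : angle (b 0) (b (0 + 1)) = angle (b 0) (b 1) := rfl
      linarith

/-- The sum of the face angles of a convex cone. -/
theorem cone_lt (m : ℕ) (hm : 3 ≤ m) (a : ℕ → E3) (ha : a m = a 0)
    (h : ∀ i j, i < m → j < m → j ≠ i → j ≠ i + 1 → (i + 1 = m → j ≠ 0) →
      rdet (a i) (a (i + 1)) (a j) < 0) :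
    ∑ i ∈ Finset.range m, angle (a i) (a (i + 1)) < 2 * Real.pi := by
  obtain ⟨n, rfl⟩ : ∃ n, m = n + 2 := ⟨m - 2, by omega⟩
  have hpath := path_lt_exa n (fun i => a (i + 1)) (-a 0) (by omega)
    (fun i hi => h (i + 1) (n + 1) (by omega) (by omega) (by omega) (by omega) (by omega))
    (fun i hi => h (i + 1) (i + 2 + 1) (by omega) (by omega) (by omega) (by omega) (by omega))
    (by
      show 0 ≤ rdet (a (0 + 1)) (a (1 + 1)) (-a 0)
      rw [rdet_neg_exa]
      have := h 1 0 (by omega) (by omega) (by omega) (by omega) (by omega)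
      have e : rdet (a (0 + 1)) (a (1 + 1)) (a 0) = rdet (a 1) (a (1 + 1)) (a 0) := rfl
      rw [e]
      linarith)
    (by
      intro i hi
      show 0 < rdet (a (i + 1)) (a (n + 1)) (-a 0)
      rw [rdet_neg_exa, rdet_rot_exa]
      have h1 := h (n + 1) (i + 1) (by omega) (by omega) (by omega) (by omega) (by omega)
      rw [ha] at h1
      linarith)
  rw [Finset.sum_range_succ, Finset.sum_range_succ']
  have e1 : angle (a (n + 1)) (a (n + 1 + 1)) = angle (a (n + 1)) (a 0) := by rw [ha]
  have e2 : angle (a (0 + 1)) (-a 0) = Real.pi - angle (a 0) (a (0 + 1)) := by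
    rw [angle_neg_right, angle_comm]
  have e3 : angle (-a 0) (a (n + 1)) = Real.pi - angle (a (n + 1)) (a 0) := by
    rw [angle_neg_left, angle_comm]
  have hpath' : ∑ i ∈ Finset.range n, angle (a (i + 1)) (a (i + 1 + 1)) <
      angle (a (0 + 1)) (-a 0) + angle (-a 0) (a (n + 1)) := hpath
  rw [e1]
  rw [e2, e3] at hpath'
  linarith

end

end QGd
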