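import Pool.Agent.Lib_MP_6b5565_dg.ExA
import Pool.Agent.Lib_MP_6b5565_dg.B2
import Pool.Agent.Lib_MP_6b5565_dg.Q.A2d
import Pool.Agent.Lib_MP_6b5565.Final

/-! [DG-ExB] every integer polyhedron carries a (short) simple closed quasigeodesic -/

namespace QGd

open scoped BigOperators
open EuclideanGeometry

noncomputable section

private theorem tail_rot_exb (P : Poly) (a : P.D) (k : ℕ) : P.tail (P.rot^[k] a) = P.tail a := by
  induction k with
  | zero => rfl
  | succ k ih => rw [Function.iterate_succ_apply', P.tail_rot, ih]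

private theorem tot_exb (P : Poly) {v : P.V} {a : P.D} (ha : P.tail a = v) :
    P.tot v = ∑ j ∈ Finset.range (P.deg v), P.ang (P.rot^[j] a) := by
  subst ha
  have h1 : Finset.univ.filter (fun d => P.tail d = P.tail a)
      = (Finset.range (P.deg (P.tail a))).image (fun k => P.rot^[k] a) := by
    ext d
    simp only [Finset.mem_filter, Finset.mem_univ, true_and, Finset.mem_image, Finset.mem_range]
    constructor
    · intro h
      obtain ⟨k, hk, h2⟩ := P.exists_iterate_rot a d h.symm
      exact ⟨k, hk, h2⟩
    · rintro ⟨k, -, rfl⟩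
      exact tail_rot_exb P a k
  unfold Poly.tot
  rw [h1, Finset.sum_image]
  intro i hi j hj h
  exact P.iterate_rot_inj a (by simpa using hi) (by simpa using hj) h

namespace IPoly

variable (I : IPoly)

/-- the sum of the face angles at a vertex of a convex polyhedron is less than `2π` -/
theorem tot_lt (v : I.V) : I.poly.tot v < 2 * Real.pi := by
  obtain ⟨d, hd⟩ := I.poly.surj v
  have hm := I.poly.three_le_deg v
  rw [tot_exb I.poly hd]
  set m := I.poly.deg v with hmdef
  set a : ℕ → E3 := fun k => I.poly.B (I.poly.rot^[k] d) - I.poly.pos v with ha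
  have htl : ∀ k, I.poly.tail (I.poly.rot^[k] d) = v := fun k => (tail_rot_exb _ _ _).trans hd
  have hang : ∀ k, I.poly.ang (I.poly.rot^[k] d) = InnerProductGeometry.angle (a k) (a (k + 1)) := by
    intro k
    have h1 : I.poly.A (I.poly.nxt (I.poly.rot^[k] d)) = I.poly.B (I.poly.rot^[k] d) := by
      show I.poly.pos _ = I.poly.pos _
      rw [I.poly.head_eq]
    have h2 : I.poly.A (I.poly.prev (I.poly.rot^[k] d)) = I.poly.B (I.poly.rot^[k + 1] d) := by
      show I.poly.pos _ = I.poly.pos _
      rw [Function.iterate_succ_apply', I.poly.head_rot]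
    have h3 : I.poly.A (I.poly.rot^[k] d) = I.poly.pos v := by
      show I.poly.pos _ = _
      rw [htl]
    unfold Poly.ang
    rw [h1, h2, h3]
    rfl
  rw [Finset.sum_congr rfl fun k _ => hang k]
  have hinj : ∀ i j, i < m → j < m → I.poly.head (I.poly.rot^[i] d) = I.poly.head (I.poly.rot^[j] d) →
      i = j := by
    intro i j hi hj h
    apply I.poly.iterate_rot_inj d (by rw [hd]; exact hi) (by rw [hd]; exact hj)
    exact I.poly.edge_inj _ _ ((htl i).trans (htl j).symm) h
  have hlast : I.poly.rot^[m] d = d := by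
    rw [hmdef, ← hd]
    exact I.poly.iterate_rot_deg d
  refine cone_lt m hm a ?_ ?_
  · show I.poly.B (I.poly.rot^[m] d) - _ = I.poly.B (I.poly.rot^[0] d) - _
    rw [hlast]
    rfl
  · intro i j hi hj hji hji1 hlst
    have hR := I.rstrict (I.poly.rot^[i] d) (I.poly.head (I.poly.rot^[j] d)) ?_ ?_ ?_
    · have e1 : I.rp (I.tail (I.nxt (I.poly.rot^[i] d))) = I.poly.B (I.poly.rot^[i] d) := by
        show I.poly.pos (I.poly.tail (I.poly.nxt _)) = I.poly.pos _
        rw [← I.poly.head_eq]
      have e2 : I.rp (I.tail (I.nxt (I.nxt (I.poly.rot^[i] d)))) = I.poly.B (I.poly.rot^[i + 1] d) := by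
        show I.poly.pos (I.poly.tail (I.poly.prev _)) = I.poly.pos _
        rw [Function.iterate_succ_apply', I.poly.head_rot]
      have e3 : I.rp (I.tail (I.poly.rot^[i] d)) = I.poly.pos v := by
        show I.poly.pos (I.poly.tail _) = _
        rw [htl]
      rw [e1, e2, e3] at hR
      exact hR
    · intro h
      have h1 := I.poly.tail_ne_head (I.poly.rot^[j] d)
      apply h1
      rw [htl, h]
      exact (htl i).symm
    · intro h
      apply hji
      apply hinj j i hj hi
      rw [h]
      exact (I.poly.head_eq _).symm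
    · intro h
      have h1 : I.poly.head (I.poly.rot^[j] d) = I.poly.head (I.poly.rot^[i + 1] d) := by
        rw [h, Function.iterate_succ_apply', I.poly.head_rot]
        rfl
      rcases Nat.lt_or_ge (i + 1) m with h2 | h2
      · exact hji1 (hinj j (i + 1) hj h2 h1)
      · have h3 : i + 1 = m := by omega
        rw [h3, hlast] at h1
        exact hlst h3 (hinj j 0 hj (by omega) h1)

/-- the polyhedron in the sense of `Lib_MP_6b5565` -/
def old : QG6b.Poly where
  V := I.V
  D := I.D
  inv := I.inv
  nxt := I.nxt
  tail := I.tail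
  pos := I.rp
  inv_inv := I.inv_inv
  nxt3 := I.nxt3
  tail_inv := I.tail_inv
  orbit := I.orbit
  surj := I.surj
  conn := I.conn
  euler := I.euler
  edge_inj := I.edge_inj
  face_inj := I.face_inj
  indep := I.indep
  geom := I.geom
  support := I.support
  full := I.full
  curv := fun v => I.tot_lt v

/-- EXISTENCE: every integer polyhedron carries a simple closed quasigeodesic with at most `3 n²`
segments, `n` the number of vertices. -/
theorem exists_desc : ∃ (N : ℕ) (_ : NeZero N), N ≤ 3 * Fintype.card I.V ^ 2 ∧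
    Nonempty (Desc I.poly N) := by
  obtain ⟨m, hm, x, f, h1, h2, h3, h4, -, -⟩ := QG6b.short_scq I.old
  exact ⟨m, hm, h1, ⟨{ x := x, f := f, mem := h2, simple := h3, node := fun i => Or.inl (h4 i) }⟩⟩

end IPoly

end

end QGd
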