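import Pool.Agent.Lib_MP_6b5565_dg.Frame

/-! [DG-F1] frames, angles of almost parallel vectors -/

namespace QGd

open EuclideanGeometry ComplexConjugate

noncomputable section

private theorem inner3_f1 (a b : E3) : inner ℝ a b = a 0 * b 0 + a 1 * b 1 + a 2 * b 2 := by
  simp [PiLp.inner_apply, Fin.sum_univ_three, mul_comm]

private theorem normsq3_f1 (a : E3) : ‖a‖ ^ 2 = a 0 ^ 2 + a 1 ^ 2 + a 2 ^ 2 := by
  rw [← real_inner_self_eq_norm_sq, inner3_f1]; ring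

private theorem inner_crs_f1 (n u v : E3) : inner ℝ n (crs u v) =
    n 0 * (u 1 * v 2 - u 2 * v 1) + n 1 * (u 2 * v 0 - u 0 * v 2)
      + n 2 * (u 0 * v 1 - u 1 * v 0) := by
  rw [inner3_f1]; simp [crs]

private theorem frame_of_f1 {n t : E3} (hn : ‖n‖ = 1) (ht : ‖t‖ = 1) (hnt : inner ℝ n t = 0) :
    Nonempty (Fr n) := by
  have hn2 : n 0 ^ 2 + n 1 ^ 2 + n 2 ^ 2 = 1 := by rw [← normsq3_f1, hn]; norm_num
  have ht2 : t 0 ^ 2 + t 1 ^ 2 + t 2 ^ 2 = 1 := by rw [← normsq3_f1, ht]; norm_num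
  rw [inner3_f1] at hnt
  obtain ⟨s0, hs0⟩ : ∃ s0, s0 = n 1 * t 2 - n 2 * t 1 := ⟨_, rfl⟩
  obtain ⟨s1, hs1⟩ : ∃ s1, s1 = n 2 * t 0 - n 0 * t 2 := ⟨_, rfl⟩
  obtain ⟨s2, hs2⟩ : ∃ s2, s2 = n 0 * t 1 - n 1 * t 0 := ⟨_, rfl⟩
  let M : Matrix (Fin 3) (Fin 3) ℝ := !![t 0, t 1, t 2; s0, s1, s2; n 0, n 1, n 2]
  have hM : M * M.transpose = 1 := by
    have hlag : (n 1 * t 2 - n 2 * t 1) ^ 2 + (n 2 * t 0 - n 0 * t 2) ^ 2
        + (n 0 * t 1 - n 1 * t 0) ^ 2 = 1 := by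
      have : (n 1 * t 2 - n 2 * t 1) ^ 2 + (n 2 * t 0 - n 0 * t 2) ^ 2
        + (n 0 * t 1 - n 1 * t 0) ^ 2 = (n 0 ^ 2 + n 1 ^ 2 + n 2 ^ 2) *
          (t 0 ^ 2 + t 1 ^ 2 + t 2 ^ 2) - (n 0 * t 0 + n 1 * t 1 + n 2 * t 2) ^ 2 := by ring
      rw [this, hn2, ht2, hnt]; norm_num
    ext i j
    fin_cases i <;> fin_cases j <;>
      simp [M, Matrix.mul_apply, Fin.sum_univ_three, hs0, hs1, hs2] <;>
      linarith [hn2, ht2, hnt, hlag]
  have hM' : M.transpose * M = 1 := by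
    rw [mul_eq_one_comm]; exact hM
  have e : ∀ i j, t i * t j + (![s0, s1, s2] i) * (![s0, s1, s2] j) + n i * n j
      = if i = j then 1 else 0 := by
    intro i j
    have h := congrFun (congrFun hM' i) j
    simp only [Matrix.mul_apply, Matrix.transpose_apply, Fin.sum_univ_three, Matrix.one_apply] at h
    rw [← h]
    fin_cases i <;> fin_cases j <;> simp [M]
  have e00 := e 0 0
  have e01 := e 0 1
  have e02 := e 0 2
  have e11 := e 1 1
  have e12 := e 1 2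
  have e22 := e 2 2
  simp at e00 e01 e02 e11 e12 e22
  refine ⟨⟨{ toFun := fun a => ⟨t 0 * a 0 + t 1 * a 1 + t 2 * a 2,
                s0 * a 0 + s1 * a 1 + s2 * a 2⟩
             map_add' := ?_
             map_smul' := ?_ }, ?_, ?_⟩⟩
  · intro a b
    apply Complex.ext <;> simp <;> ring
  · intro r a
    apply Complex.ext <;> simp <;> ring
  · intro a b
    simp only [LinearMap.coe_mk, AddHom.coe_mk, Complex.mul_re, Complex.conj_re, Complex.conj_im]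
    rw [inner3_f1, inner3_f1, inner3_f1]
    linear_combination (a 0 * b 0) * e00 + (a 0 * b 1 + a 1 * b 0) * e01
      + (a 0 * b 2 + a 2 * b 0) * e02 + (a 1 * b 1) * e11 + (a 1 * b 2 + a 2 * b 1) * e12
      + (a 2 * b 2) * e22
  · intro a b
    simp only [LinearMap.coe_mk, AddHom.coe_mk, Complex.mul_im, Complex.conj_re, Complex.conj_im]
    have c0 : t 1 * s2 - t 2 * s1 = n 0 := by
      rw [hs1, hs2]; linear_combination (n 0) * ht2 - (t 0) * hnt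
    have c1 : t 2 * s0 - t 0 * s2 = n 1 := by
      rw [hs0, hs2]; linear_combination (n 1) * ht2 - (t 1) * hnt
    have c2 : t 0 * s1 - t 1 * s0 = n 2 := by
      rw [hs0, hs1]; linear_combination (n 2) * ht2 - (t 2) * hnt
    rw [inner_crs_f1]
    linear_combination (a 1 * b 2 - a 2 * b 1) * c0 + (a 2 * b 0 - a 0 * b 2) * c1
      + (a 0 * b 1 - a 1 * b 0) * c2

/-- [DG-F1a] frames exist (`e₁` a unit vector orthogonal to `n`, `e₂ = n × e₁`,
`pr x = ⟨e₁,x⟩ + i ⟨e₂,x⟩`) -/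
theorem exists_frame (n : E3) (hn : ‖n‖ = 1) : Nonempty (Fr n) := by
  have key : ∀ v : E3, v ≠ 0 → inner ℝ n v = 0 → Nonempty (Fr n) := by
    intro v hv hnv
    have hv' : ‖v‖ ≠ 0 := norm_ne_zero_iff.2 hv
    apply frame_of_f1 (t := (‖v‖)⁻¹ • v) hn
    · rw [norm_smul, norm_inv, norm_norm, inv_mul_cancel₀ hv']
    · rw [inner_smul_right, hnv, mul_zero]
  by_cases h : n 0 = 0 ∧ n 1 = 0
  · apply key (WithLp.toLp 2 ![1, 0, 0])
    · intro h0
      have := congrArg (fun v : E3 => v 0) h0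
      simp at this
    · rw [inner3_f1]; simp [h.1]
  · apply key (WithLp.toLp 2 ![- n 1, n 0, 0])
    · intro h0
      have h1 := congrArg (fun v : E3 => v 0) h0
      have h2 := congrArg (fun v : E3 => v 1) h0
      simp at h1 h2
      exact h ⟨h2, h1⟩
    · rw [inner3_f1]; simp; ring

/-- [DG-F1b] -/
theorem Fr.norm_sq {n : E3} (F : Fr n) (x : E3) : ‖F.pr x‖ ^ 2 = ‖x‖ ^ 2 - inner ℝ n x ^ 2 := by
  have h := F.re_pr x x
  rw [real_inner_self_eq_norm_sq] at h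
  rw [← Complex.normSq_eq_norm_sq, Complex.normSq_apply]
  rw [Complex.mul_re, Complex.conj_re, Complex.conj_im] at h
  linarith [h]

/-- [DG-F1c] -/
theorem Fr.norm_le {n : E3} (F : Fr n) (x : E3) : ‖F.pr x‖ ≤ ‖x‖ := by
  have h := F.norm_sq x
  have h1 : ‖F.pr x‖ ^ 2 ≤ ‖x‖ ^ 2 := by rw [h]; nlinarith [sq_nonneg (inner ℝ n x : ℝ)]
  exact (pow_le_pow_iff_left₀ (norm_nonneg _) (norm_nonneg _) (by norm_num)).1 h1

end

end QGd
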