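import Pool.Agent.Lib_MP_6b5565_dg.F1

/-! [DG-F1b] frames, angles of almost parallel vectors -/

namespace QGd

open EuclideanGeometry ComplexConjugate

noncomputable section

/-- [DG-F1d] ANGLES. For unit vectors `a, b` almost parallel to the plane and positively oriented,
`conj (pr a) * pr b` is almost `exp (i ∠(a,b))`: the real part is `cos θ - ⟨n,a⟩⟨n,b⟩`, the imaginary
part is nonnegative with square `sin² θ + O(t²)`. -/
theorem Fr.angle {n : E3} (hn : ‖n‖ = 1) (F : Fr n) (a b : E3) (t : ℝ) (ht : t ≤ 1 / 10)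
    (ha : ‖a‖ = 1) (hb : ‖b‖ = 1) (h1 : |inner ℝ n a| ≤ t) (h2 : |inner ℝ n b| ≤ t)
    (h3 : 0 ≤ (conj (F.pr a) * F.pr b).im) :
    ‖conj (F.pr a) * F.pr b - Complex.exp (InnerProductGeometry.angle a b * Complex.I)‖ ≤ 4 * t := by
  have ht0 : 0 ≤ t := le_trans (abs_nonneg _) h1
  set θ := InnerProductGeometry.angle a b with hθ
  obtain ⟨x, hx⟩ : ∃ x : ℝ, x = inner ℝ n a := ⟨_, rfl⟩
  obtain ⟨y, hy⟩ : ∃ y : ℝ, y = inner ℝ n b := ⟨_, rfl⟩
  obtain ⟨I, hI⟩ : ∃ I : ℝ, I = (conj (F.pr a) * F.pr b).im := ⟨_, rfl⟩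
  rw [← hx] at h1
  rw [← hy] at h2
  rw [← hI] at h3
  have hc : inner ℝ a b = Real.cos θ := by
    have := InnerProductGeometry.cos_angle_mul_norm_mul_norm a b
    rw [ha, hb] at this
    rw [← this, hθ]; ring
  have hre : (conj (F.pr a) * F.pr b).re = Real.cos θ - x * y := by
    rw [F.re_pr, hc, hx, hy]
  have hs0 : 0 ≤ Real.sin θ := InnerProductGeometry.sin_angle_nonneg a b
  have hsc := Real.sin_sq_add_cos_sq θ
  have hna : ‖F.pr a‖ ^ 2 = 1 - x ^ 2 := by rw [F.norm_sq, ha, hx]; norm_num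
  have hnb : ‖F.pr b‖ ^ 2 = 1 - y ^ 2 := by rw [F.norm_sq, hb, hy]; norm_num
  have hI2 : I ^ 2 = Real.sin θ ^ 2 - (x ^ 2 + y ^ 2 - 2 * Real.cos θ * (x * y)) := by
    have h := Complex.normSq_apply (conj (F.pr a) * F.pr b)
    rw [Complex.normSq_mul, Complex.normSq_conj, Complex.normSq_eq_norm_sq,
      Complex.normSq_eq_norm_sq, hna, hnb, hre, ← hI] at h
    nlinarith [h, hsc]
  have hxy : |x ^ 2 + y ^ 2 - 2 * Real.cos θ * (x * y)| ≤ (2 * t) ^ 2 := by
    have hcos : |Real.cos θ| ≤ 1 := Real.abs_cos_le_one θ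
    have hx2 : x ^ 2 ≤ t ^ 2 := by rw [← sq_abs]; exact pow_le_pow_left₀ (abs_nonneg _) h1 2
    have hy2 : y ^ 2 ≤ t ^ 2 := by rw [← sq_abs]; exact pow_le_pow_left₀ (abs_nonneg _) h2 2
    have hm : |2 * Real.cos θ * (x * y)| ≤ 2 * (t * t) := by
      rw [abs_mul, abs_mul, abs_mul, abs_of_pos (by norm_num : (0 : ℝ) < 2)]
      have e1 : |x| * |y| ≤ t * t := mul_le_mul h1 h2 (abs_nonneg _) ht0
      have e2 : 2 * |Real.cos θ| ≤ 2 := by linarith
      exact mul_le_mul e2 e1 (mul_nonneg (abs_nonneg _) (abs_nonneg _)) (by norm_num)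
    have hm' := abs_le.1 hm
    rw [abs_le]
    constructor
    · nlinarith [sq_nonneg x, sq_nonneg y]
    · nlinarith [sq_nonneg x, sq_nonneg y]
  have him : |I - Real.sin θ| ≤ 2 * t := by
    have e1 : |I - Real.sin θ| ^ 2 ≤ |I ^ 2 - Real.sin θ ^ 2| := by
      have e2 : I ^ 2 - Real.sin θ ^ 2 = (I - Real.sin θ) * (I + Real.sin θ) := by ring
      rw [e2, abs_mul, sq]
      apply mul_le_mul_of_nonneg_left _ (abs_nonneg _)
      rw [abs_of_nonneg (by linarith : 0 ≤ I + Real.sin θ), abs_le]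
      constructor <;> linarith
    have e3 : |I ^ 2 - Real.sin θ ^ 2| ≤ (2 * t) ^ 2 := by
      have e4 : I ^ 2 - Real.sin θ ^ 2 = - (x ^ 2 + y ^ 2 - 2 * Real.cos θ * (x * y)) := by
        rw [hI2]; ring
      rw [e4, abs_neg]; exact hxy
    exact (pow_le_pow_iff_left₀ (abs_nonneg _) (by linarith) (by norm_num)).1 (e1.trans e3)
  have d1 : |(conj (F.pr a) * F.pr b - Complex.exp (θ * Complex.I)).re| ≤ t * t := by
    rw [Complex.sub_re, hre, Complex.exp_ofReal_mul_I_re]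
    have : Real.cos θ - x * y - Real.cos θ = - (x * y) := by ring
    rw [this, abs_neg, abs_mul]
    exact mul_le_mul h1 h2 (abs_nonneg _) ht0
  have d2 : |(conj (F.pr a) * F.pr b - Complex.exp (θ * Complex.I)).im| ≤ 2 * t := by
    rw [Complex.sub_im, Complex.exp_ofReal_mul_I_im, ← hI]
    exact him
  calc _ ≤ _ := Complex.norm_le_abs_re_add_abs_im _
    _ ≤ t * t + 2 * t := add_le_add d1 d2
    _ ≤ 4 * t := by nlinarith

end

end QGd
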