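import Pool.Agent.Lib_MP_6b5565_dg.F1b

/-! [DG-F1c] frames, angles of almost parallel vectors -/

namespace QGd

open EuclideanGeometry ComplexConjugate

noncomputable section

private theorem chain_f1c (w : ℕ → ℂ) (θ : ℕ → ℝ) (η δ : ℝ) (k : ℕ)
    (h1 : ∀ i ≤ k, ‖w i‖ ≤ 1) (h2 : ∀ i ≤ k, 1 - η ≤ ‖w i‖ ^ 2) (hη : 0 ≤ η)
    (h3 : ∀ i < k, ‖conj (w i) * w (i + 1) - Complex.exp (θ i * Complex.I)‖ ≤ δ) :
    ‖conj (w 0) * w k - Complex.exp ((∑ i ∈ Finset.range k, θ i : ℝ) * Complex.I)‖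
      ≤ k * (δ + η) + η := by
  induction k with
  | zero =>
    have h : conj (w 0) * w 0 - Complex.exp ((∑ i ∈ Finset.range 0, θ i : ℝ) * Complex.I)
        = ((‖w 0‖ ^ 2 - 1 : ℝ) : ℂ) := by
      simp [Complex.conj_mul']
    rw [h, Complex.norm_real, Real.norm_eq_abs]
    have a1 := h1 0 le_rfl
    have a2 := h2 0 le_rfl
    have a3 : ‖w 0‖ ^ 2 ≤ 1 := by nlinarith [norm_nonneg (w 0)]
    rw [abs_le]
    constructor
    · simp; linarith
    · simp; linarith
  | succ k ih =>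
    have ih' := ih (fun i hi => h1 i (by omega)) (fun i hi => h2 i (by omega))
      (fun i hi => h3 i (by omega))
    set α := ∑ i ∈ Finset.range k, θ i with hα
    have hs : (∑ i ∈ Finset.range (k + 1), θ i) = α + θ k := by
      rw [Finset.sum_range_succ]
    rw [hs]
    have hexp : Complex.exp (((α + θ k : ℝ) : ℂ) * Complex.I)
        = Complex.exp ((α : ℂ) * Complex.I) * Complex.exp ((θ k : ℂ) * Complex.I) := by
      rw [← Complex.exp_add]; congr 1; push_cast; ring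
    rw [hexp]
    set E := Complex.exp ((α : ℂ) * Complex.I)
    set E' := Complex.exp ((θ k : ℂ) * Complex.I)
    have hE : ‖E‖ = 1 := Complex.norm_exp_ofReal_mul_I _
    have hE' : ‖E'‖ = 1 := Complex.norm_exp_ofReal_mul_I _
    have hk := h3 k (by omega)
    have hδ : 0 ≤ δ := le_trans (norm_nonneg _) hk
    have e : conj (w 0) * w (k + 1) - E * E'
        = conj (w 0) * w k * (conj (w k) * w (k + 1) - E')
          + (conj (w 0) * w k - E) * E'
          + conj (w 0) * w (k + 1) * ((1 - ‖w k‖ ^ 2 : ℝ) : ℂ) := by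
      have : (w k) * conj (w k) = ((‖w k‖ ^ 2 : ℝ) : ℂ) := by
        rw [Complex.mul_conj']; push_cast; rfl
      have h' : conj (w 0) * w k * (conj (w k) * w (k + 1))
          = conj (w 0) * w (k + 1) * ((‖w k‖ ^ 2 : ℝ) : ℂ) := by
        rw [← this]; ring
      rw [mul_sub, h']
      push_cast
      ring
    rw [e]
    have n1 : ‖conj (w 0) * w k‖ ≤ 1 := by
      rw [norm_mul, Complex.norm_conj]
      exact mul_le_one₀ (h1 0 (by omega)) (norm_nonneg _) (h1 k (by omega))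
    have n2 : ‖conj (w 0) * w (k + 1)‖ ≤ 1 := by
      rw [norm_mul, Complex.norm_conj]
      exact mul_le_one₀ (h1 0 (by omega)) (norm_nonneg _) (h1 (k + 1) (by omega))
    have n3 : ‖((1 - ‖w k‖ ^ 2 : ℝ) : ℂ)‖ ≤ η := by
      rw [Complex.norm_real, Real.norm_eq_abs, abs_le]
      have a1 := h1 k (by omega)
      have a2 := h2 k (by omega)
      have a3 : ‖w k‖ ^ 2 ≤ 1 := by nlinarith [norm_nonneg (w k)]
      constructor
      · linarith
      · linarith
    calc _ ≤ ‖conj (w 0) * w k * (conj (w k) * w (k + 1) - E')‖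
          + ‖(conj (w 0) * w k - E) * E'‖
          + ‖conj (w 0) * w (k + 1) * ((1 - ‖w k‖ ^ 2 : ℝ) : ℂ)‖ := norm_add₃_le
      _ ≤ 1 * δ + (k * (δ + η) + η) * 1 + 1 * η := by
          gcongr
          · rw [norm_mul]; exact mul_le_mul n1 hk (norm_nonneg _) (by norm_num)
          · rw [norm_mul, hE', mul_one, mul_one]; exact ih'
          · rw [norm_mul]; exact mul_le_mul n2 n3 (norm_nonneg _) (by norm_num)
      _ = _ := by push_cast; ring

/-- [DG-F1e] a chain of at most 12 such vectors: the product of the ratios -/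
theorem Fr.chain {n : E3} (hn : ‖n‖ = 1) (F : Fr n) (m : ℕ) (hm : m ≤ 12) (a : ℕ → E3) (t : ℝ)
    (ht0 : 0 ≤ t) (ht : t ≤ 1 / 1000) (ha : ∀ i ≤ m, ‖a i‖ = 1) (h1 : ∀ i ≤ m, |inner ℝ n (a i)| ≤ t)
    (h3 : ∀ i < m, 0 ≤ (conj (F.pr (a i)) * F.pr (a (i + 1))).im) :
    ‖conj (F.pr (a 0)) * F.pr (a m) -
      Complex.exp ((∑ i ∈ Finset.range m, InnerProductGeometry.angle (a i) (a (i + 1)) : ℝ) *
        Complex.I)‖ ≤ 100 * t := by
  have hsq : ∀ i ≤ m, (inner ℝ n (a i)) ^ 2 ≤ t ^ 2 := by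
    intro i hi
    rw [← sq_abs]
    exact pow_le_pow_left₀ (abs_nonneg _) (h1 i hi) 2
  have h := chain_f1c (fun i => F.pr (a i)) (fun i => InnerProductGeometry.angle (a i) (a (i + 1)))
    (t ^ 2) (4 * t) m (fun i hi => (F.norm_le (a i)).trans (ha i hi).le)
    (fun i hi => by
      show 1 - t ^ 2 ≤ ‖F.pr (a i)‖ ^ 2
      rw [F.norm_sq, ha i hi]
      have := hsq i hi
      linarith)
    (sq_nonneg t)
    (fun i hi => F.angle hn (a i) (a (i + 1)) t (by linarith) (ha i (by omega))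
      (ha (i + 1) (by omega)) (h1 i (by omega)) (h1 (i + 1) (by omega)) (h3 i hi))
  refine h.trans ?_
  have hm' : (m : ℝ) ≤ 12 := by exact_mod_cast hm
  have e1 : (m : ℝ) * (4 * t + t ^ 2) ≤ 12 * (4 * t + t ^ 2) :=
    mul_le_mul_of_nonneg_right hm' (by positivity)
  nlinarith [sq_nonneg t]

end

end QGd
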