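import Pool.Agent.Lib_MP_6b5565_dg.G1

/-! [DG-G1b] elementary facts on simple closed quasigeodesics -/

namespace QGd

open EuclideanGeometry

noncomputable section

private theorem Poly.seg_of_tri_inv (P : Poly) {d : P.D} {x : E3} (h1 : x ∈ P.tri d)
    (h2 : x ∈ P.tri (P.inv d)) : x ∈ P.seg d := by
  by_cases hn : P.NV x
  · obtain ⟨a, ha, hda, hia⟩ := P.common_edge h1 h2 (P.not_SF_inv d) hn
    rw [P.SF_two hia hda]
    exact openSegment_subset_segment ℝ _ _ ha
  · unfold Poly.NV at hn
    push Not at hn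
    obtain ⟨v, rfl⟩ := hn
    have hA : P.A d ∈ P.seg d := left_mem_segment ℝ _ _
    have hB : P.B d ∈ P.seg d := right_mem_segment ℝ _ _
    have t1 : P.tail (P.nxt d) = P.head d := (P.tail_inv d).symm
    have t2 : P.tail (P.nxt (P.inv d)) = P.tail d := by
      rw [← P.tail_inv, P.inv_inv]
    obtain ⟨a, ha, rfl⟩ := P.verts_of_pos_mem h1
    obtain ⟨b, hb, hba⟩ := P.verts_of_pos_mem h2
    rcases ha with rfl | rfl | rfl
    · exact hA
    · rw [t1]
      exact hB
    · rcases hb with rfl | rfl | rfl
      · rw [← hba]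
        exact hB
      · rw [← hba, t2]
        exact hA
      · exfalso
        apply P.not_SF_inv d
        apply P.face_inj
        have e1 : P.tail (P.nxt (P.nxt (P.inv d))) = P.tail (P.nxt (P.nxt d)) := hba
        rw [e1, t2, t1]
        have e2 : P.tail (P.inv d) = P.head d := rfl
        rw [e2]
        ext w
        simp only [Finset.mem_insert, Finset.mem_singleton]
        tauto

/-- [DG-G1e] at a crossing both angle sums are `π` (their sum is `2π`: `y` is inside the edge) -/
theorem Poly.CrossAt.straight {P : Poly} {p y q : E3} {d : P.D} (h : P.CrossAt p y q d) :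
    ∠ p y (P.B d) + ∠ (P.B d) y q = Real.pi ∧ ∠ p y (P.A d) + ∠ (P.A d) y q = Real.pi := by
  obtain ⟨hy, hp, hq, hps, hqs, h1, h2⟩ := h
  have hys : y ∈ P.seg d := openSegment_subset_segment ℝ _ _ hy
  have hpy : p ≠ y := by
    rintro rfl
    exact hps hys
  have hqy : q ≠ y := by
    rintro rfl
    exact hqs hys
  have h3 := P.angle_oseg hy hpy
  have h4 := P.angle_oseg hy hqy
  rw [EuclideanGeometry.angle_comm (P.B d) y q] at h1 ⊢
  rw [EuclideanGeometry.angle_comm (P.A d) y q] at h2 ⊢
  constructor <;> linarith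

/-- [DG-G1i] Let `y` be a crossing of the edge of `d`, coming from `p`, and let `g` be a face which
contains `p` and `y`. Then `g` is the face of `d`. (`y` is inside the edge of `d`, so the face of
`g` has this edge, so it is the face of `d` or of `inv d`; in the second case `p` is in both faces,
so on the edge of `d`.) -/
theorem Poly.CrossAt.face {P : Poly} {p y q : E3} {d g : P.D} (h : P.CrossAt p y q d)
    (h1 : p ∈ P.tri g) (h2 : y ∈ P.tri g) : P.SF g d := by
  obtain ⟨hy, hp, hq, hps, hqs, -, -⟩ := h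
  rcases P.face_of_oseg hy h2 with h3 | h3
  · exact h3
  · rw [P.tri_SF h3] at h1
    exact absurd (P.seg_of_tri_inv hp h1) hps

/-- [DG-G1i'] the same after the crossing -/
theorem Poly.CrossAt.face' {P : Poly} {p y q : E3} {d g : P.D} (h : P.CrossAt p y q d)
    (h1 : q ∈ P.tri g) (h2 : y ∈ P.tri g) : P.SF g (P.inv d) := by
  obtain ⟨hy, hp, hq, hps, hqs, -, -⟩ := h
  rcases P.face_of_oseg hy h2 with h3 | h3
  · rw [P.tri_SF h3] at h1
    exact absurd (P.seg_of_tri_inv h1 hq) hqs
  · exact h3

/-- [DG-G1j] the visited vertices -/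
def SCQ.vis {P : Poly} {N : ℕ} (γ : SCQ P N) : Finset P.V :=
  open Classical in Finset.univ.filter (fun v => ∃ i, γ.x i = P.pos v)

end

end QGd
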