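import Pool.Agent.Lib_MP_6b5565_dg.F1c
import Pool.Agent.Lib_MP_6b5565_dg.G1b

/-! [DG-F2] quasigeodesics on almost flat parts of the surface are almost straight -/

namespace QGd

open EuclideanGeometry ComplexConjugate

noncomputable section

/-- the face of `d` is almost parallel to the plane of the frame, and positively oriented -/
structure Flat (P : Poly) {n : E3} (F : Fr n) (t : ℝ) (d : P.D) : Prop where
  slope : ∀ x ∈ P.tri d, ∀ y ∈ P.tri d, |inner ℝ n (x - y)| ≤ t * ‖x - y‖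
  pos : 0 < (conj (F.pr (P.B d - P.A d)) * F.pr (P.A (P.prev d) - P.A d)).im

private theorem mem_tri_f2 {P : Poly} {d : P.D} {x : E3} (h : x ∈ P.tri d) :
    ∃ s t : ℝ, 0 ≤ s ∧ 0 ≤ t ∧ s + t ≤ 1 ∧
      x - P.A d = s • (P.B d - P.A d) + t • (P.A (P.prev d) - P.A d) := by
  have hB : P.B d = P.A (P.nxt d) := by
    unfold Poly.B Poly.A
    rw [P.head_eq]
  rw [hB]
  have hc : Convex ℝ {x : E3 | ∃ s t : ℝ, 0 ≤ s ∧ 0 ≤ t ∧ s + t ≤ 1 ∧
      x - P.A d = s • (P.A (P.nxt d) - P.A d) + t • (P.A (P.prev d) - P.A d)} := by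
    rintro x ⟨s, t, hs, ht, hst, hx⟩ y ⟨s', t', hs', ht', hst', hy⟩ μ ν hμ hν hμν
    refine ⟨μ * s + ν * s', μ * t + ν * t', by positivity, by positivity, ?_, ?_⟩
    · nlinarith [mul_le_mul_of_nonneg_left hst hμ, mul_le_mul_of_nonneg_left hst' hν]
    · have : μ • x + ν • y - P.A d = μ • (x - P.A d) + ν • (y - P.A d) := by
        have h1 : P.A d = μ • P.A d + ν • P.A d := by rw [← add_smul, hμν, one_smul]
        rw [smul_sub, smul_sub]
        nth_rewrite 1 [h1]
        abel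
      rw [this, hx, hy]
      module
  refine convexHull_min ?_ hc h
  rintro y (rfl | rfl | rfl)
  · exact ⟨0, 0, le_rfl, le_rfl, by norm_num, by simp⟩
  · exact ⟨1, 0, by norm_num, le_rfl, by norm_num, by simp⟩
  · exact ⟨0, 1, le_rfl, by norm_num, by norm_num, by simp⟩

private theorem im_f2 (u v : ℂ) (s t s' t' : ℝ) :
    (conj ((s : ℂ) * u + (t : ℂ) * v) * ((s' : ℂ) * u + (t' : ℂ) * v)).im
      = (s * t' - t * s') * (conj u * v).im := by
  simp only [Complex.mul_im, Complex.conj_re, Complex.conj_im, Complex.add_re, Complex.add_im,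
    Complex.mul_re, Complex.ofReal_re, Complex.ofReal_im]
  ring

private theorem prs_f2 {n : E3} (F : Fr n) (s : ℝ) (u : E3) : F.pr (s • u) = (s : ℂ) * F.pr u := by
  rw [map_smul, Complex.real_smul]

private theorem prc_f2 {n : E3} (F : Fr n) (s t : ℝ) (u v : E3) :
    F.pr (s • u + t • v) = (s : ℂ) * F.pr u + (t : ℂ) * F.pr v := by
  rw [map_add, prs_f2, prs_f2]

/-- [DG-F2a] points of the face are on the left of its half-edges -/
theorem Flat.left {P : Poly} {n : E3} {F : Fr n} {t : ℝ} {d : P.D} (h : Flat P F t d) {x : E3}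
    (hx : x ∈ P.tri d) : 0 ≤ (conj (F.pr (P.B d - P.A d)) * F.pr (x - P.A d)).im := by
  obtain ⟨s, t', hs, ht, -, hx⟩ := mem_tri_f2 hx
  have e := im_f2 (F.pr (P.B d - P.A d)) (F.pr (P.A (P.prev d) - P.A d)) 1 0 s t'
  have e1 : ((1 : ℝ) : ℂ) * F.pr (P.B d - P.A d) + ((0 : ℝ) : ℂ) * F.pr (P.A (P.prev d) - P.A d)
      = F.pr (P.B d - P.A d) := by push_cast; ring
  rw [e1] at e
  rw [hx, prc_f2, e]
  have := h.pos
  nlinarith [mul_nonneg ht this.le]

/-- [DG-F2b] two points `x, y` of the face different from the corner `A d`, `y` counterclockwise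
after `x` in the cases needed: `x` on the edge of `d`, or `y` on the edge of `prev d` -/
theorem Flat.ccw {P : Poly} {n : E3} {F : Fr n} {t : ℝ} {d : P.D} (h : Flat P F t d) {x y : E3}
    (hx : x ∈ P.tri d) (hy : y ∈ P.tri d) (hxy : x ∈ P.seg d ∨ y ∈ P.seg (P.prev d)) :
    0 ≤ (conj (F.pr (x - P.A d)) * F.pr (y - P.A d)).im := by
  have hp := h.pos
  have hB : P.B d = P.A (P.nxt d) := by
    unfold Poly.B Poly.A
    rw [P.head_eq]
  rcases hxy with hs | hs
  · -- `x` on the edge of `d`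
    obtain ⟨s', t', hs', ht', -, hy'⟩ := mem_tri_f2 hy
    obtain ⟨a, b, ha, hb, hab, hx'⟩ := hs
    have hx'' : x - P.A d = b • (P.B d - P.A d) := by
      rw [← hx', show a = 1 - b by linarith]
      module
    have e := im_f2 (F.pr (P.B d - P.A d)) (F.pr (P.A (P.prev d) - P.A d)) b 0 s' t'
    have e1 : ((b : ℝ) : ℂ) * F.pr (P.B d - P.A d) +
        ((0 : ℝ) : ℂ) * F.pr (P.A (P.prev d) - P.A d)
        = ((b : ℝ) : ℂ) * F.pr (P.B d - P.A d) := by push_cast; ring
    rw [e1] at e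
    rw [hx'', hy', prs_f2, prc_f2, e]
    nlinarith [mul_nonneg (mul_nonneg hb ht') hp.le]
  · obtain ⟨s', t', hs', ht', -, hx'⟩ := mem_tri_f2 hx
    obtain ⟨a, b, ha, hb, hab, hy'⟩ := hs
    have hBp : P.B (P.prev d) = P.A d := by
      unfold Poly.B Poly.A
      rw [P.head_prev]
    rw [hBp] at hy'
    have hy'' : y - P.A d = a • (P.A (P.prev d) - P.A d) := by
      rw [← hy', show b = 1 - a by linarith]
      module
    have e := im_f2 (F.pr (P.B d - P.A d)) (F.pr (P.A (P.prev d) - P.A d)) s' t' 0 a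
    have e1 : ((0 : ℝ) : ℂ) * F.pr (P.B d - P.A d) +
        ((a : ℝ) : ℂ) * F.pr (P.A (P.prev d) - P.A d)
        = ((a : ℝ) : ℂ) * F.pr (P.A (P.prev d) - P.A d) := by push_cast; ring
    rw [e1] at e
    rw [hy'', hx', prs_f2, prc_f2, e]
    nlinarith [mul_nonneg (mul_nonneg hs' ha) hp.le]

end

end QGd
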