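import Pool.Agent.Lib_MP_6b5565_dg.F2

/-! [DG-F2b] quasigeodesics on almost flat parts of the surface are almost straight -/

namespace QGd

open EuclideanGeometry ComplexConjugate

noncomputable section

private theorem seg_sub_tri_f2b (P : Poly) (d : P.D) : P.seg d ⊆ P.tri d := by
  have hB : P.B d = P.A (P.nxt d) := by
    unfold Poly.B Poly.A Poly.head
    rw [P.tail_inv]
  unfold Poly.seg Poly.tri
  rw [hB]
  exact segment_subset_convexHull (by simp) (by simp)

private theorem seg_inv_f2b (P : Poly) (d : P.D) : P.seg (P.inv d) = P.seg d := by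
  unfold Poly.seg Poly.A Poly.B Poly.head
  rw [P.inv_inv, segment_symm]

private theorem conj_self_im_f2b (z : ℂ) : (conj z * z).im = 0 := by
  rw [mul_comm, Complex.mul_conj]
  exact Complex.ofReal_im _

private theorem conj_im_comm_f2b (z w : ℂ) : (conj w * z).im = -(conj z * w).im := by
  simp only [Complex.mul_im, Complex.conj_re, Complex.conj_im]
  ring

private theorem conj_smul_im_f2b (r s : ℝ) (z w : ℂ) :
    (conj (r • z) * (s • w)).im = r * s * (conj z * w).im := by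
  simp only [Complex.mul_im, Complex.conj_re, Complex.conj_im, Complex.real_smul, Complex.mul_re,
    Complex.ofReal_re, Complex.ofReal_im]
  ring

/-- a unit vector in a flat face is almost parallel to the plane -/
private theorem unit_slope_f2b {P : Poly} {n : E3} {F : Fr n} {t : ℝ} {d : P.D} (h : Flat P F t d)
    {x y : E3} (hx : x ∈ P.tri d) (hy : y ∈ P.tri d) (hxy : x - y ≠ 0) :
    |inner ℝ n ((1 / ‖x - y‖) • (x - y))| ≤ t := by
  have h1 := h.slope x hx y hy
  have h2 : 0 < ‖x - y‖ := norm_pos_iff.2 hxy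
  rw [inner_smul_right, abs_mul, abs_of_pos (by positivity : 0 < 1 / ‖x - y‖)]
  rw [one_div, inv_mul_le_iff₀ h2]
  linarith

private theorem unit_norm_f2b {x : E3} (hx : x ≠ 0) : ‖(1 / ‖x‖) • x‖ = 1 := by
  have h2 : 0 < ‖x‖ := norm_pos_iff.2 hx
  rw [norm_smul, Real.norm_eq_abs, abs_of_pos (by positivity : 0 < 1 / ‖x‖), one_div,
    inv_mul_cancel₀ h2.ne']

/-- [DG-F2c] CROSSINGS are almost straight: chain `q, B d, p` seen from `y` (from `q` in the face of
`inv d` counterclockwise to `p` in the face of `d`), total angle `π`. -/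
theorem cross_dir {P : Poly} {n : E3} (hn : ‖n‖ = 1) (F : Fr n) (t : ℝ) (ht0 : 0 ≤ t)
    (ht : t ≤ 1 / 10 ^ 6) {p y q : E3} {d : P.D} (h : P.CrossAt p y q d)
    (h1 : ∀ e, P.SF e d → Flat P F t e) (h2 : ∀ e, P.SF e (P.inv d) → Flat P F t e) :
    ‖F.dir y q - F.dir p y‖ ≤ 1000 * t := by
  have hfd : Flat P F t d := h1 d (Or.inl rfl)
  have hfi : Flat P F t (P.inv d) := h2 _ (Or.inl rfl)
  have hst := h.straight.1
  obtain ⟨hy, hp, hq, hps, hqs, -, -⟩ := h
  have hys : y ∈ P.seg d := openSegment_subset_segment ℝ _ _ hy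
  have hyd : y ∈ P.tri d := seg_sub_tri_f2b P d hys
  have hyi : y ∈ P.tri (P.inv d) := seg_sub_tri_f2b P _ (by rw [seg_inv_f2b]; exact hys)
  have hBs : P.B d ∈ P.seg d := right_mem_segment ℝ _ _
  have hBd : P.B d ∈ P.tri d := seg_sub_tri_f2b P d hBs
  have hpy : p - y ≠ 0 := by
    intro h0
    apply hps
    rw [sub_eq_zero.1 h0]
    exact hys
  have hqy : q - y ≠ 0 := by
    intro h0
    apply hqs
    rw [sub_eq_zero.1 h0]
    exact hys
  obtain ⟨a, b, ha, hb, hab, hyab⟩ := hy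
  have hBy : P.B d - y = a • (P.B d - P.A d) := by
    rw [← hyab, smul_sub]
    have hb' : b = 1 - a := by linarith
    rw [hb', sub_smul, one_smul]
    abel
  have hyA : y - P.A d = b • (P.B d - P.A d) := by
    rw [← hyab, smul_sub]
    have ha' : a = 1 - b := by linarith
    rw [ha', sub_smul, one_smul]
    abel
  have hBA : P.B d - P.A d ≠ 0 := by
    intro h0
    have h3 := hfd.pos
    rw [h0, map_zero, map_zero, zero_mul, Complex.zero_im] at h3
    exact lt_irrefl _ h3
  have hBy0 : P.B d - y ≠ 0 := by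
    rw [hBy]
    exact smul_ne_zero ha.ne' hBA
  -- orientation at `p`
  have op : 0 ≤ (conj (F.pr (P.B d - y)) * F.pr (p - y)).im := by
    have h3 := hfd.left hp
    have h4 : p - y = (p - P.A d) - b • (P.B d - P.A d) := by
      rw [← hyA]
      abel
    have h5 : F.pr (p - y) = F.pr (p - P.A d) - b • F.pr (P.B d - P.A d) := by
      rw [h4, map_sub, map_smul]
    have h6 : F.pr (P.B d - y) = a • F.pr (P.B d - P.A d) := by
      rw [hBy, map_smul]
    rw [h5, h6, mul_sub, Complex.sub_im, conj_smul_im_f2b, conj_self_im_f2b, mul_zero, sub_zero]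
    have h7 := conj_smul_im_f2b a 1 (F.pr (P.B d - P.A d)) (F.pr (p - P.A d))
    rw [one_smul, mul_one] at h7
    rw [h7]
    exact mul_nonneg ha.le h3
  -- orientation at `q`
  have oq : 0 ≤ (conj (F.pr (q - y)) * F.pr (P.B d - y)).im := by
    have h3 := hfi.left hq
    have hAi : P.A (P.inv d) = P.B d := rfl
    have hBi : P.B (P.inv d) = P.A d := by
      unfold Poly.B Poly.A Poly.head
      rw [P.inv_inv]
    rw [hAi, hBi] at h3
    have h4 : F.pr (q - P.B d) = F.pr (q - y) - F.pr (P.B d - y) := by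
      rw [← map_sub]
      congr 1
      abel
    have h5 : F.pr (P.A d - P.B d) = (-a⁻¹) • F.pr (P.B d - y) := by
      rw [← map_smul, hBy, smul_smul]
      congr 1
      rw [neg_mul, inv_mul_cancel₀ ha.ne', neg_smul, one_smul]
      abel
    rw [h4, h5, mul_sub, Complex.sub_im] at h3
    have h6 := conj_smul_im_f2b (-a⁻¹) 1 (F.pr (P.B d - y)) (F.pr (q - y))
    have h7 := conj_smul_im_f2b (-a⁻¹) 1 (F.pr (P.B d - y)) (F.pr (P.B d - y))
    rw [one_smul, mul_one] at h6 h7
    rw [h6, h7, conj_self_im_f2b, mul_zero, sub_zero, conj_im_comm_f2b] at h3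
    have h8 : 0 < a⁻¹ := inv_pos.2 ha
    by_contra hneg
    push Not at hneg
    have h9 := mul_neg_of_pos_of_neg h8 hneg
    linarith
  -- the chain
  obtain ⟨v, hv0, hv1, hv2⟩ : ∃ v : ℕ → E3, v 0 = (1 / ‖q - y‖) • (q - y) ∧
      v 1 = (1 / ‖P.B d - y‖) • (P.B d - y) ∧ v 2 = (1 / ‖p - y‖) • (p - y) :=
    ⟨fun i => if i = 0 then (1 / ‖q - y‖) • (q - y) else
      if i = 1 then (1 / ‖P.B d - y‖) • (P.B d - y) else (1 / ‖p - y‖) • (p - y), rfl, rfl, rfl⟩
  have nq : 0 < 1 / ‖q - y‖ := one_div_pos.2 (norm_pos_iff.2 hqy)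
  have nB : 0 < 1 / ‖P.B d - y‖ := one_div_pos.2 (norm_pos_iff.2 hBy0)
  have np : 0 < 1 / ‖p - y‖ := one_div_pos.2 (norm_pos_iff.2 hpy)
  have hnorm : ∀ i ≤ 2, ‖v i‖ = 1 := by
    intro i hi
    interval_cases i
    · rw [hv0]; exact unit_norm_f2b hqy
    · rw [hv1]; exact unit_norm_f2b hBy0
    · rw [hv2]; exact unit_norm_f2b hpy
  have hslope : ∀ i ≤ 2, |inner ℝ n (v i)| ≤ t := by
    intro i hi
    interval_cases i
    · rw [hv0]; exact unit_slope_f2b hfi hq hyi hqy
    · rw [hv1]; exact unit_slope_f2b hfd hBd hyd hBy0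
    · rw [hv2]; exact unit_slope_f2b hfd hp hyd hpy
  have hor : ∀ i < 2, 0 ≤ (conj (F.pr (v i)) * F.pr (v (i + 1))).im := by
    intro i hi
    interval_cases i
    · rw [hv0, hv1, F.pr.map_smul, F.pr.map_smul, conj_smul_im_f2b]
      exact mul_nonneg (mul_pos nq nB).le oq
    · rw [hv1, hv2, F.pr.map_smul, F.pr.map_smul, conj_smul_im_f2b]
      exact mul_nonneg (mul_pos nB np).le op
  have hc := F.chain hn 2 (by norm_num) v t ht0 (by linarith) hnorm hslope hor
  have hsum : (∑ i ∈ Finset.range 2, InnerProductGeometry.angle (v i) (v (i + 1)) : ℝ) = Real.pi := by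
    rw [Finset.sum_range_succ, Finset.sum_range_one, hv0, hv1, hv2,
      InnerProductGeometry.angle_smul_left_of_pos _ _ nq,
      InnerProductGeometry.angle_smul_right_of_pos _ _ nB,
      InnerProductGeometry.angle_smul_left_of_pos _ _ nB,
      InnerProductGeometry.angle_smul_right_of_pos _ _ np]
    have e1 : InnerProductGeometry.angle (q - y) (P.B d - y) = ∠ (P.B d) y q := by
      rw [EuclideanGeometry.angle_comm]
      rfl
    have e2 : InnerProductGeometry.angle (P.B d - y) (p - y) = ∠ p y (P.B d) := by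
      rw [EuclideanGeometry.angle_comm]
      rfl
    rw [e1, e2, add_comm]
    exact hst
  rw [hsum, Complex.exp_pi_mul_I] at hc
  -- conclusion
  have hz : F.dir y q = F.pr (v 0) := by rw [hv0]; rfl
  have hw : F.dir p y = -F.pr (v 2) := by
    have h3 : ‖y - p‖ = ‖p - y‖ := norm_sub_rev _ _
    have h4 : y - p = -(p - y) := by abel
    unfold Fr.dir
    rw [hv2, h3, h4, smul_neg, map_neg]
  rw [hz, hw, sub_neg_eq_add]
  obtain ⟨z, hzdef⟩ : ∃ z : ℂ, z = F.pr (v 0) := ⟨_, rfl⟩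
  obtain ⟨w, hwdef⟩ : ∃ w : ℂ, w = F.pr (v 2) := ⟨_, rfl⟩
  rw [← hzdef, ← hwdef] at hc ⊢
  have hz1 : ‖z‖ ^ 2 = 1 - inner ℝ n (v 0) ^ 2 := by
    rw [hzdef, F.norm_sq, hnorm 0 (by norm_num), one_pow]
  have hzle : ‖z‖ ≤ 1 := by
    have := F.norm_le (v 0)
    rw [hnorm 0 (by norm_num), ← hzdef] at this
    exact this
  have hwle : ‖w‖ ≤ 1 := by
    have := F.norm_le (v 2)
    rw [hnorm 2 (by norm_num), ← hwdef] at this
    exact this
  have hs0 : inner ℝ n (v 0) ^ 2 ≤ t ^ 2 := by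
    have h3 := hslope 0 (by norm_num)
    rw [← sq_abs]
    exact pow_le_pow_left₀ (abs_nonneg _) h3 2
  have hid : z + w = z * (conj z * w - -1) + ((1 - ‖z‖ ^ 2 : ℝ) : ℂ) * w := by
    have h3 : z * conj z = ((‖z‖ ^ 2 : ℝ) : ℂ) := by
      rw [Complex.mul_conj, Complex.normSq_eq_norm_sq]
    have h4 : z * (conj z * w - -1) = (z * conj z) * w + z := by ring
    rw [h4, h3]
    push_cast
    ring
  rw [hid]
  refine (norm_add_le _ _).trans ?_
  rw [norm_mul, norm_mul, Complex.norm_real, Real.norm_eq_abs]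
  have h5 : |1 - ‖z‖ ^ 2| ≤ t ^ 2 := by
    rw [hz1, abs_of_nonneg (by nlinarith [sq_nonneg (inner ℝ n (v 0) : ℝ)])]
    linarith
  have h6 : ‖z‖ * ‖conj z * w - -1‖ ≤ 1 * (100 * t) :=
    mul_le_mul hzle hc (norm_nonneg _) zero_le_one
  have h7 : |1 - ‖z‖ ^ 2| * ‖w‖ ≤ t ^ 2 * 1 :=
    mul_le_mul h5 hwle (norm_nonneg _) (by positivity)
  have h8 : t ^ 2 ≤ t := by nlinarith
  linarith

end

end QGd
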