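import Pool.Agent.Lib_MP_6b5565_dg.F2b

/-! [DG-F2c] quasigeodesics on almost flat parts of the surface are almost straight -/

namespace QGd

open EuclideanGeometry ComplexConjugate

noncomputable section

private theorem exp_add_one_f2c {α t : ℝ} (h : |α - Real.pi| ≤ t) :
    ‖Complex.exp ((α : ℂ) * Complex.I) + 1‖ ≤ t := by
  have h0 : 0 ≤ t := (abs_nonneg _).trans h
  have hre : (Complex.exp ((α : ℂ) * Complex.I) + 1).re = Real.cos α + 1 := by
    rw [Complex.add_re, Complex.exp_ofReal_mul_I_re, Complex.one_re]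
  have him : (Complex.exp ((α : ℂ) * Complex.I) + 1).im = Real.sin α := by
    rw [Complex.add_im, Complex.exp_ofReal_mul_I_im, Complex.one_im, add_zero]
  have hc : Real.cos α = - Real.cos (α - Real.pi) := by
    rw [Real.cos_sub_pi, neg_neg]
  have h1 := Real.one_sub_sq_div_two_le_cos (x := α - Real.pi)
  have h2 : (α - Real.pi) ^ 2 ≤ t ^ 2 := by
    rw [← sq_abs (α - Real.pi)]
    exact pow_le_pow_left₀ (abs_nonneg _) h 2
  have h3 := Real.sin_sq_add_cos_sq α
  refine (sq_le_sq₀ (norm_nonneg _) h0).1 ?_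
  rw [Complex.sq_norm, Complex.normSq_apply, hre, him]
  nlinarith

private theorem final_f2c {n : E3} (F : Fr n) {a b : E3} {α t : ℝ} (ht0 : 0 ≤ t)
    (ht : t ≤ 1 / 10 ^ 6) (ha : ‖a‖ = 1) (hb : ‖b‖ = 1) (h1 : |inner ℝ n a| ≤ t)
    (h2 : ‖conj (F.pr a) * F.pr b - Complex.exp ((α : ℂ) * Complex.I)‖ ≤ 100 * t)
    (h3 : |α - Real.pi| ≤ t) : ‖F.pr b + F.pr a‖ ≤ 1000 * t := by
  have h4 := exp_add_one_f2c h3
  have h5 : ‖conj (F.pr a) * F.pr b + 1‖ ≤ 101 * t := by
    have e : conj (F.pr a) * F.pr b + 1 =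
        (conj (F.pr a) * F.pr b - Complex.exp ((α : ℂ) * Complex.I)) +
        (Complex.exp ((α : ℂ) * Complex.I) + 1) := by ring
    rw [e]
    refine (norm_add_le _ _).trans ?_
    linarith
  have h6 : ‖F.pr a‖ ≤ 1 := (F.norm_le a).trans ha.le
  have h7 : ‖F.pr b‖ ≤ 1 := (F.norm_le b).trans hb.le
  have h8 : ‖F.pr a‖ ^ 2 = 1 - inner ℝ n a ^ 2 := by rw [F.norm_sq, ha, one_pow]
  have h9 : (inner ℝ n a) ^ 2 ≤ t ^ 2 := by
    rw [← sq_abs (inner ℝ n a)]
    exact pow_le_pow_left₀ (abs_nonneg _) h1 2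
  have e : F.pr b + F.pr a = F.pr a * (conj (F.pr a) * F.pr b + 1) +
      ((inner ℝ n a ^ 2 : ℝ) : ℂ) * F.pr b := by
    have e1 : F.pr a * conj (F.pr a) = ((‖F.pr a‖ ^ 2 : ℝ) : ℂ) := by
      rw [Complex.mul_conj, Complex.normSq_eq_norm_sq]
    have e2 : F.pr a * (conj (F.pr a) * F.pr b + 1) =
        (F.pr a * conj (F.pr a)) * F.pr b + F.pr a := by ring
    rw [e2, e1, h8]
    push_cast
    ring
  rw [e]
  refine (norm_add_le _ _).trans ?_
  rw [norm_mul, norm_mul, Complex.norm_real, Real.norm_eq_abs, abs_of_nonneg (sq_nonneg _)]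
  have h10 : ‖F.pr a‖ * ‖conj (F.pr a) * F.pr b + 1‖ ≤ 1 * (101 * t) :=
    mul_le_mul h6 h5 (norm_nonneg _) zero_le_one
  have h11 : inner ℝ n a ^ 2 * ‖F.pr b‖ ≤ t ^ 2 * 1 :=
    mul_le_mul h9 h7 (norm_nonneg _) (sq_nonneg _)
  nlinarith

/-- the unit vector -/
private def un_f2c (y x : E3) : E3 := (1 / ‖x - y‖) • (x - y)

private theorem pos_f2c {x y : E3} (h : x ≠ y) : 0 < 1 / ‖x - y‖ :=
  one_div_pos.2 (norm_pos_iff.2 (sub_ne_zero.2 h))

private theorem norm_un_f2c {x y : E3} (h : x ≠ y) : ‖un_f2c y x‖ = 1 := by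
  have h1 : 0 < ‖x - y‖ := norm_pos_iff.2 (sub_ne_zero.2 h)
  rw [un_f2c, norm_smul, Real.norm_eq_abs, abs_of_pos (pos_f2c h)]
  field_simp

private theorem slope_un_f2c {n x y : E3} {t : ℝ} (h : x ≠ y)
    (h1 : |inner ℝ n (x - y)| ≤ t * ‖x - y‖) : |inner ℝ n (un_f2c y x)| ≤ t := by
  have h2 : 0 < ‖x - y‖ := norm_pos_iff.2 (sub_ne_zero.2 h)
  rw [un_f2c, inner_smul_right, abs_mul, abs_of_pos (pos_f2c h), one_div, inv_mul_le_iff₀ h2,
    mul_comm]
  exact h1

private theorem im_un_f2c {n : E3} (F : Fr n) {x x' y : E3} (h : x ≠ y) (h' : x' ≠ y)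
    (h1 : 0 ≤ (conj (F.pr (x - y)) * F.pr (x' - y)).im) :
    0 ≤ (conj (F.pr (un_f2c y x)) * F.pr (un_f2c y x')).im := by
  have e : conj (F.pr (un_f2c y x)) * F.pr (un_f2c y x') =
      ((1 / ‖x - y‖ * (1 / ‖x' - y‖) : ℝ) : ℂ) * (conj (F.pr (x - y)) * F.pr (x' - y)) := by
    rw [un_f2c, un_f2c, LinearMap.map_smul, LinearMap.map_smul, Complex.real_smul,
      Complex.real_smul, map_mul, Complex.conj_ofReal]
    push_cast
    ring
  rw [e, Complex.im_ofReal_mul]
  exact mul_nonneg (mul_nonneg (pos_f2c h).le (pos_f2c h').le) h1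

private theorem angle_un_f2c {x x' y : E3} (h : x ≠ y) (h' : x' ≠ y) :
    InnerProductGeometry.angle (un_f2c y x) (un_f2c y x') = ∠ x y x' := by
  rw [un_f2c, un_f2c, InnerProductGeometry.angle_smul_left_of_pos _ _ (pos_f2c h),
    InnerProductGeometry.angle_smul_right_of_pos _ _ (pos_f2c h')]
  rfl

private theorem chain_f2c {n : E3} (hn : ‖n‖ = 1) (F : Fr n) (t : ℝ) (ht0 : 0 ≤ t)
    (ht : t ≤ 1 / 10 ^ 6) (y : E3) (m : ℕ) (hm : m ≤ 12) (x : ℕ → E3) (hx : ∀ i ≤ m, x i ≠ y)
    (h1 : ∀ i ≤ m, |inner ℝ n (x i - y)| ≤ t * ‖x i - y‖)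
    (h3 : ∀ i < m, 0 ≤ (conj (F.pr (x i - y)) * F.pr (x (i + 1) - y)).im)
    (h4 : |∑ i ∈ Finset.range m, ∠ (x i) y (x (i + 1)) - Real.pi| ≤ t) :
    ‖F.dir y (x m) - F.dir (x 0) y‖ ≤ 1000 * t := by
  have h5 := F.chain hn m hm (fun i => un_f2c y (x i)) t ht0 (by norm_num at ht ⊢; linarith)
    (fun i hi => norm_un_f2c (hx i hi)) (fun i hi => slope_un_f2c (hx i hi) (h1 i hi))
    (fun i hi => im_un_f2c F (hx i (by omega)) (hx (i + 1) (by omega)) (h3 i hi))
  have e1 : ∑ i ∈ Finset.range m, InnerProductGeometry.angle (un_f2c y (x i)) (un_f2c y (x (i + 1)))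
      = ∑ i ∈ Finset.range m, ∠ (x i) y (x (i + 1)) := by
    refine Finset.sum_congr rfl fun i hi => ?_
    have hi' := Finset.mem_range.mp hi
    exact angle_un_f2c (hx i (by omega)) (hx (i + 1) (by omega))
  simp only [e1] at h5
  have h6 := final_f2c F ht0 ht (norm_un_f2c (hx 0 (Nat.zero_le m))) (norm_un_f2c (hx m le_rfl))
    (slope_un_f2c (hx 0 (Nat.zero_le m)) (h1 0 (Nat.zero_le m))) h5 h4
  have e2 : F.dir y (x m) - F.dir (x 0) y = F.pr (un_f2c y (x m)) + F.pr (un_f2c y (x 0)) := by
    have e3 : (1 / ‖y - x 0‖) • (y - x 0) = - un_f2c y (x 0) := by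
      rw [un_f2c, ← smul_neg, neg_sub, norm_sub_rev]
    rw [Fr.dir, Fr.dir, e3, map_neg, sub_neg_eq_add]
    rfl
  rw [e2]
  exact h6

/-- [DG-F2d] PASSAGES THROUGH VERTICES are almost straight, if all faces at the vertex are almost
parallel to the plane, the degree is at most 6 and the curvature is small: the chain of `Side` from
`p` counterclockwise to `q` has total angle `α` with `π - t ≤ α ≤ π` (`tot v - α ≤ π`); use
`Fr.chain`. (First case of `Side`: `α = ∠ p y q`, `p, q` in one face: a chain with one link, up to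
orientation.) -/
theorem turn_dir {P : Poly} {n : E3} (hn : ‖n‖ = 1) (F : Fr n) (t : ℝ) (ht0 : 0 ≤ t)
    (ht : t ≤ 1 / 10 ^ 6) {p y q : E3} {v : P.V} (hp : p ≠ y) (hq : q ≠ y) (h : P.TurnAt p y q v)
    (h1 : ∀ d, P.tail d = v → Flat P F t d) (hdeg : P.deg v ≤ 6)
    (hk : |P.tot v - 2 * Real.pi| ≤ t) :
    ‖F.dir y q - F.dir p y‖ ≤ 1000 * t := by
  obtain ⟨α, rfl, hside, hα1, hα2⟩ := h
  have hα : |α - Real.pi| ≤ t := by
    rw [abs_le] at hk ⊢
    constructor <;> linarith [hk.1, hk.2]
  have hAd : ∀ d, P.tail d = v → P.A d = P.pos v := fun d hd => by rw [Poly.A, hd]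
  have hAtri : ∀ d, P.A d ∈ P.tri d := fun d => subset_convexHull ℝ _ (by simp)
  have hslope : ∀ d, P.tail d = v → ∀ x ∈ P.tri d,
      |inner ℝ n (x - P.pos v)| ≤ t * ‖x - P.pos v‖ := by
    intro d hd x hx
    rw [← hAd d hd]
    exact (h1 d hd).slope x hx _ (hAtri d)
  rcases hside with ⟨d, hd, hpd, hqd, rfl⟩ | ⟨d, k, hd, hk1, hk2, hpd, hqd, hsum⟩
  · -- one face
    have hcase : 0 ≤ (conj (F.pr (p - P.pos v)) * F.pr (q - P.pos v)).im ∨
        0 ≤ (conj (F.pr (q - P.pos v)) * F.pr (p - P.pos v)).im := by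
      rcases le_total 0 (conj (F.pr (p - P.pos v)) * F.pr (q - P.pos v)).im with h | h
      · exact Or.inl h
      · right
        have e : conj (F.pr (q - P.pos v)) * F.pr (p - P.pos v) =
            conj (conj (F.pr (p - P.pos v)) * F.pr (q - P.pos v)) := by
          rw [map_mul, Complex.conj_conj, mul_comm]
        rw [e, Complex.conj_im]
        linarith
    have key : ∀ p' q' : E3, p' ≠ P.pos v → q' ≠ P.pos v → p' ∈ P.tri d → q' ∈ P.tri d →
        |∠ p' (P.pos v) q' - Real.pi| ≤ t →
        0 ≤ (conj (F.pr (p' - P.pos v)) * F.pr (q' - P.pos v)).im →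
        ‖F.dir (P.pos v) q' - F.dir p' (P.pos v)‖ ≤ 1000 * t := by
      intro p' q' hp' hq' hpd' hqd' hang him
      have h2 := chain_f2c hn F t ht0 ht (P.pos v) 1 (by norm_num) (fun i => if i = 0 then p' else q')
        (by
          intro i hi
          split_ifs <;> assumption)
        (by
          intro i hi
          split_ifs
          · exact hslope d hd p' hpd'
          · exact hslope d hd q' hqd')
        (by
          intro i hi
          have hi0 : i = 0 := by omega
          subst hi0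
          simpa using him)
        (by simpa using hang)
      simpa using h2
    rcases hcase with h | h
    · exact key p q hp hq hpd hqd hα h
    · have h2 := key q p hq hp hqd hpd (by rw [angle_comm]; exact hα) h
      have e : F.dir (P.pos v) q - F.dir p (P.pos v) =
          F.dir (P.pos v) p - F.dir q (P.pos v) := by
        have e3 : ∀ x : E3, F.dir x (P.pos v) = - F.dir (P.pos v) x := by
          intro x
          rw [Fr.dir, Fr.dir, ← map_neg, ← smul_neg, neg_sub, norm_sub_rev]
        rw [e3 p, e3 q]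
        ring
      rw [e]
      exact h2
  · -- several faces
    have hrot : ∀ j, P.tail (P.rot^[j] d) = v := by
      intro j
      induction j with
      | zero => exact hd
      | succ j ih =>
        rw [Function.iterate_succ_apply']
        show P.tail (P.inv (P.nxt (P.nxt _))) = v
        rw [P.tail_inv, P.nxt3, ih]
    have hBnxt : ∀ e, P.A (P.nxt e) = P.B e := fun e => by
      rw [Poly.A, Poly.B, Poly.head, P.tail_inv]
    have hBprev : ∀ e, P.A (P.prev e) = P.B (P.rot e) := fun e => by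
      rw [Poly.A, Poly.B, Poly.head, Poly.rot, P.inv_inv, Poly.prev]
    have hBtri : ∀ e, P.B e ∈ P.tri e := fun e => by
      rw [← hBnxt]
      exact subset_convexHull ℝ _ (by simp)
    have hBtri' : ∀ e, P.B (P.rot e) ∈ P.tri e := fun e => by
      rw [← hBprev]
      exact subset_convexHull ℝ _ (by simp)
    have hBne : ∀ e, P.tail e = v → P.B e ≠ P.pos v := by
      intro e he h0
      have h2 := (P.indep e).injective.ne (show (1 : Fin 3) ≠ 0 by decide)
      apply h2
      show P.A (P.nxt e) = P.A e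
      rw [hBnxt, h0, hAd e he]
    obtain ⟨x, hx⟩ : ∃ x : ℕ → E3, x = fun i => if i = 0 then p else if i ≤ k then
      P.B (P.rot^[i] d) else q := ⟨_, rfl⟩
    have hx0 : x 0 = p := by rw [hx]; simp
    have hxj : ∀ i, 1 ≤ i → i ≤ k → x i = P.B (P.rot^[i] d) := by
      intro i hi1 hi2
      rw [hx]
      show (if i = 0 then p else if i ≤ k then P.B (P.rot^[i] d) else q) = _
      rw [if_neg (by omega), if_pos hi2]
    have hxk : x (k + 1) = q := by
      rw [hx]
      show (if k + 1 = 0 then p else if k + 1 ≤ k then P.B (P.rot^[k + 1] d) else q) = _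
      rw [if_neg (by omega), if_neg (by omega)]
    have hsuc : ∀ j, P.rot (P.rot^[j] d) = P.rot^[j + 1] d := fun j =>
      (Function.iterate_succ_apply' _ _ _).symm
    have h2 := chain_f2c hn F t ht0 ht (P.pos v) (k + 1) (by omega) x
      (by
        intro i hi
        rcases Nat.eq_zero_or_pos i with rfl | h0
        · rw [hx0]; exact hp
        · rcases Nat.lt_or_ge k i with h3 | h3
          · have : i = k + 1 := by omega
            subst this
            rw [hxk]; exact hq
          · rw [hxj i h0 h3]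
            exact hBne _ (hrot i))
      (by
        intro i hi
        rcases Nat.eq_zero_or_pos i with rfl | h0
        · rw [hx0]; exact hslope d hd p hpd
        · rcases Nat.lt_or_ge k i with h3 | h3
          · have : i = k + 1 := by omega
            subst this
            rw [hxk]; exact hslope _ (hrot k) q hqd
          · rw [hxj i h0 h3]
            exact hslope _ (hrot i) _ (hBtri _))
      (by
        intro i hi
        rcases Nat.eq_zero_or_pos i with rfl | h0
        · rw [hx0, hxj (0 + 1) (by omega) (by omega)]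
          have h3 := (h1 d hd).ccw hpd (hBtri' d) (Or.inr (by
            rw [← hBprev]
            exact left_mem_segment ℝ _ _))
          rw [hAd d hd] at h3
          exact h3
        · rcases Nat.lt_or_ge i k with h3 | h3
          · rw [hxj i h0 h3.le, hxj (i + 1) (by omega) (by omega)]
            have h4 := (h1 _ (hrot i)).ccw (hBtri (P.rot^[i] d)) (hBtri' (P.rot^[i] d))
              (Or.inl (right_mem_segment ℝ _ _))
            rw [hAd _ (hrot i), hsuc] at h4
            exact h4
          · have : i = k := by omega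
            subst this
            rw [hxk, hxj i h0 le_rfl]
            have h4 := (h1 _ (hrot i)).ccw (hBtri (P.rot^[i] d)) hqd
              (Or.inl (right_mem_segment ℝ _ _))
            rw [hAd _ (hrot i)] at h4
            exact h4)
      (by
        have e1 : ∑ i ∈ Finset.range (k + 1), ∠ (x i) (P.pos v) (x (i + 1)) = α := by
          rw [Finset.sum_range_succ, hxk, hxj k hk1 le_rfl, hsum]
          congr 1
          rw [Finset.range_eq_Ico, Finset.sum_eq_sum_Ico_succ_bot (by omega), hx0,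
            hxj (0 + 1) (by omega) (by omega)]
          congr 1
          refine Finset.sum_congr rfl fun i hi => ?_
          obtain ⟨hi1, hi2⟩ := Finset.mem_Ico.mp hi
          rw [hxj i (by omega) (by omega), hxj (i + 1) (by omega) (by omega), Poly.ang, hBnxt,
            hBprev, hAd _ (hrot i), hsuc]
        rw [e1]
        exact hα)
    rw [hxk, hx0] at h2
    exact h2

end

end QGd
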