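import Pool.Agent.Lib_MP_6b5565_dg.Frame

/-! [DG-F3] almost straight paths in the plane -/

namespace QGd

open ComplexConjugate

noncomputable section

/-- the point `X` is on the ray from `p` in the direction `w`, up to the error `r` -/
def Ray (p w X : ℂ) (r : ℝ) : Prop := ∃ t : ℝ, 0 ≤ t ∧ ‖X - p - (t : ℂ) * w‖ ≤ r

/-- [DG-F3a] start -/
theorem Ray.start (p w : ℂ) : Ray p w p 0 := by
  refine ⟨0, le_refl _, ?_⟩
  simp

/-- [DG-F3b] moving in the direction `w` -/
theorem Ray.move {p w X X' : ℂ} {r s : ℝ} (h : Ray p w X r) (hs : 0 ≤ s)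
    (hX : X' = X + (s : ℂ) * w) : Ray p w X' r := by
  obtain ⟨t, ht, h1⟩ := h
  refine ⟨t + s, by linarith, ?_⟩
  have e : X' - p - ((t + s : ℝ) : ℂ) * w = X - p - (t : ℂ) * w := by
    rw [hX]; push_cast; ring
  rw [e]; exact h1

/-- [DG-F3c] changing the direction a little (`‖t w‖ ≤ ‖X - p‖ + r`, so `t ≤ 2 (20 S + S)`) -/
theorem Ray.turn {p w w' X : ℂ} {r S b : ℝ} (hS : 0 ≤ S) (h : Ray p w X r) (hr : r ≤ S)
    (hX : ‖X - p‖ ≤ 20 * S) (hw : 1 / 2 ≤ ‖w‖) (hww : ‖w' - w‖ ≤ b) :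
    Ray p w' X (r + 42 * S * b) := by
  obtain ⟨t, ht, h1⟩ := h
  have hb : 0 ≤ b := le_trans (norm_nonneg _) hww
  have h2 : ‖(t : ℂ) * w‖ ≤ 21 * S := by
    have e : (t : ℂ) * w = (X - p) - (X - p - (t : ℂ) * w) := by ring
    rw [e]
    refine le_trans (norm_sub_le _ _) ?_
    linarith
  have h3 : t ≤ 42 * S := by
    rw [norm_mul, Complex.norm_real, Real.norm_eq_abs, abs_of_nonneg ht] at h2
    nlinarith [mul_le_mul_of_nonneg_left hw ht]
  refine ⟨t, ht, ?_⟩
  have e : X - p - (t : ℂ) * w' = (X - p - (t : ℂ) * w) - (t : ℂ) * (w' - w) := by ring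
  rw [e]
  refine le_trans (norm_sub_le _ _) (add_le_add h1 ?_)
  rw [norm_mul, Complex.norm_real, Real.norm_eq_abs, abs_of_nonneg ht]
  exact mul_le_mul h3 hww (norm_nonneg _) (by linarith)

/-- [DG-F3d] FORCED DIRECTION. `X` is on the line through `a` with direction `v`, and `p` is on the
left of this line at distance more than `r`: then `w` points to the right. -/
theorem Ray.forced {p w X a v : ℂ} {r m : ℝ} (h : Ray p w X r) (hX : (conj v * (X - a)).im = 0)
    (hp : m * ‖v‖ ≤ (conj v * (p - a)).im) (hv : v ≠ 0) (hm : r < m) : (conj v * w).im < 0 := by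
  obtain ⟨t, ht, h1⟩ := h
  have hv0 : 0 < ‖v‖ := norm_pos_iff.mpr hv
  have h2 : |(conj v * (X - p - (t : ℂ) * w)).im| ≤ ‖v‖ * r := by
    refine le_trans (Complex.abs_im_le_norm _) ?_
    rw [norm_mul, Complex.norm_conj]
    exact mul_le_mul_of_nonneg_left h1 (le_of_lt hv0)
  have e : (conj v * (X - p - (t : ℂ) * w)).im =
      (conj v * (X - a)).im - (conj v * (p - a)).im - t * (conj v * w).im := by
    have : conj v * (X - p - (t : ℂ) * w) =
      conj v * (X - a) - conj v * (p - a) - (t : ℂ) * (conj v * w) := by ring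
    rw [this, Complex.sub_im, Complex.sub_im, Complex.im_ofReal_mul]
  rw [e, hX] at h2
  have h3 := (abs_le.mp h2).1
  by_contra hcon
  push Not at hcon
  have h4 : 0 ≤ t * (conj v * w).im := mul_nonneg ht hcon
  have h5 : m * ‖v‖ ≤ ‖v‖ * r := by linarith
  nlinarith

end

end QGd
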