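import Pool.Agent.Lib_MP_6b5565_dg.Inst
import Pool.Agent.Lib_MP_6b5565_dg.F2c

/-! [DG-F4] the faces of the mesh are almost parallel to the base faces -/

namespace QGd

open EuclideanGeometry ComplexConjugate Vx Dx

noncomputable section

/-- unit normal of the base face -/
def un (T : Fin 6) : E3 := (1 / ‖nrm T‖) • nrm T

private theorem normsq3_f4 (a : E3) : ‖a‖ ^ 2 = a 0 ^ 2 + a 1 ^ 2 + a 2 ^ 2 := by
  rw [EuclideanSpace.norm_eq, Real.sq_sqrt (by positivity)]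
  simp [Fin.sum_univ_three]

private def df (T : Fin 6) (i : Fin 3) (j : Fin 3) : ℤ := BV (CT T i) j - BV (CT T 0) j

private theorem nz_f4 : ∀ T : Fin 6,
    1 ≤ (df T 1 1 * df T 2 2 - df T 1 2 * df T 2 1) ^ 2 + (df T 1 2 * df T 2 0 - df T 1 0 * df T 2 2) ^ 2 +
      (df T 1 0 * df T 2 1 - df T 1 1 * df T 2 0) ^ 2 ∧
    (df T 1 1 * df T 2 2 - df T 1 2 * df T 2 1) ^ 2 + (df T 1 2 * df T 2 0 - df T 1 0 * df T 2 2) ^ 2 +
      (df T 1 0 * df T 2 1 - df T 1 1 * df T 2 0) ^ 2 ≤ 1444 := by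
  decide

private theorem nrm_bd_f4 (T : Fin 6) : 1 ≤ ‖nrm T‖ ^ 2 ∧ ‖nrm T‖ ^ 2 ≤ 1444 := by
  have h : ‖nrm T‖ ^ 2 = (((df T 1 1 * df T 2 2 - df T 1 2 * df T 2 1) ^ 2 +
      (df T 1 2 * df T 2 0 - df T 1 0 * df T 2 2) ^ 2 +
      (df T 1 0 * df T 2 1 - df T 1 1 * df T 2 0) ^ 2 : ℤ) : ℝ) := by
    rw [normsq3_f4]
    unfold df
    push_cast
    rfl
  rw [h]
  exact ⟨by exact_mod_cast (nz_f4 T).1, by exact_mod_cast (nz_f4 T).2⟩

private theorem nrm_le_f4 (T : Fin 6) : ‖nrm T‖ ≤ 38 := by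
  have := (nrm_bd_f4 T).2
  nlinarith [norm_nonneg (nrm T)]

private theorem nrm_ge_f4 (T : Fin 6) : 1 ≤ ‖nrm T‖ := by
  have := (nrm_bd_f4 T).1
  nlinarith [norm_nonneg (nrm T)]

private theorem bz_f4 : ∀ v w : Fin 5,
    (BV v 0 - BV w 0) ^ 2 + (BV v 1 - BV w 1) ^ 2 + (BV v 2 - BV w 2) ^ 2 ≤ 100 := by
  decide

private theorem bpt_sub_f4 (v w : Fin 5) : ‖bpt v - bpt w‖ ≤ 10 := by
  have h : ‖bpt v - bpt w‖ ^ 2 ≤ 100 := by
    have e : ‖bpt v - bpt w‖ ^ 2 =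
        (((BV v 0 - BV w 0) ^ 2 + (BV v 1 - BV w 1) ^ 2 + (BV v 2 - BV w 2) ^ 2 : ℤ) : ℝ) := by
      rw [normsq3_f4]
      push_cast
      rfl
    rw [e]
    exact_mod_cast bz_f4 v w
  nlinarith [norm_nonneg (bpt v - bpt w)]

private theorem bz2_f4 : ∀ v : Fin 5, (BV v 0) ^ 2 + (BV v 1) ^ 2 + (BV v 2) ^ 2 ≤ 49 := by
  decide

private theorem bpt_f4 (v : Fin 5) : ‖bpt v‖ ≤ 7 := by
  have h : ‖bpt v‖ ^ 2 ≤ 49 := by
    have e : ‖bpt v‖ ^ 2 = (((BV v 0) ^ 2 + (BV v 1) ^ 2 + (BV v 2) ^ 2 : ℤ) : ℝ) := by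
      rw [normsq3_f4]
      push_cast
      rfl
    rw [e]
    exact_mod_cast bz2_f4 v
  nlinarith [norm_nonneg (bpt v)]

theorem un_norm (T : Fin 6) : ‖un T‖ = 1 := by
  have h : ‖nrm T‖ ≠ 0 := by
    have := nrm_ge_f4 T
    linarith
  unfold un
  rw [norm_smul, Real.norm_eq_abs, abs_of_nonneg (by positivity), one_div, inv_mul_cancel₀ h]

/-- Lagrange -/
private theorem crs_norm_f4 (a b : E3) : ‖crs a b‖ ≤ ‖a‖ * ‖b‖ := by
  have h : ‖crs a b‖ ^ 2 ≤ (‖a‖ * ‖b‖) ^ 2 := by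
    rw [mul_pow, normsq3_f4, normsq3_f4, normsq3_f4]
    simp only [crs, PiLp.toLp_apply, Matrix.cons_val_zero, Matrix.cons_val_one, Matrix.cons_val]
    nlinarith [sq_nonneg (a 0 * b 0 + a 1 * b 1 + a 2 * b 2)]
  exact (pow_le_pow_iff_left₀ (norm_nonneg _) (by positivity) two_ne_zero).1 h

private theorem crs_rot_f4 (A B C : E3) : crs (C - B) (A - B) = crs (B - A) (C - A) := by
  ext j
  fin_cases j <;> simp [crs] <;> ring

private theorem crs_exp_f4 (U V n : E3) (a b h a' b' h' : ℝ) :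
    crs (a' • V + b' • U + h' • n) (a • V + b • U + h • n) =
      (b' * a - a' * b) • crs U V + (a' * h - h' * a) • crs V n + (b' * h - h' * b) • crs U n := by
  ext j
  fin_cases j <;> simp [crs] <;> ring

private theorem crs_exp2_f4 (U V n : E3) (a b h : ℝ) :
    crs U (a • V + b • U + h • n) = a • crs U V + h • crs U n := by
  ext j
  fin_cases j <;> simp [crs] <;> ring

private theorem eps_pos_f4 (K : ℕ) : 0 < eps K := by
  unfold eps
  positivity

private theorem eps_le_f4 (K : ℕ) : eps K ≤ 1 / 2 := by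
  unfold eps
  have h := pow_le_pow_of_le_one (a := (1 / 2 : ℝ)) (by norm_num) (by norm_num)
    (show 1 ≤ 2 * K + 100 by omega)
  rwa [pow_one] at h

private theorem hgt_bd_f4 (K : ℕ) {s : ℝ} (h0 : 0 ≤ s) (h1 : s ≤ 1) :
    0 ≤ hgt K s ∧ hgt K s ≤ 2 * eps K * (1 - s) := by
  have e0 := eps_pos_f4 K
  have e1 := eps_le_f4 K
  have s1 : 0 ≤ 1 - s := by linarith
  unfold hgt
  constructor
  · exact add_nonneg (mul_nonneg e0.le s1) (mul_nonneg (sq_nonneg _) (mul_nonneg h0 s1))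
  · have : eps K ^ 2 * (s * (1 - s)) ≤ eps K * (1 - s) := by
      have h2 : eps K * s ≤ 1 := by nlinarith
      have h3 : 0 ≤ eps K * (1 - s) := mul_nonneg e0.le s1
      nlinarith [mul_nonneg h3 (sub_nonneg.2 h2)]
    linarith

private theorem hgt_diff_f4 (K : ℕ) {s s' : ℝ} (h0 : 0 ≤ s) (h1 : s ≤ s') (h2 : s' ≤ 1) :
    |hgt K s' - hgt K s| ≤ 2 * eps K * (s' - s) := by
  have e0 := eps_pos_f4 K
  have e1 := eps_le_f4 K
  have e : hgt K s' - hgt K s = (s' - s) * (-(eps K) + eps K ^ 2 * (1 - s - s')) := by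
    unfold hgt
    ring
  rw [e, abs_mul, abs_of_nonneg (by linarith : 0 ≤ s' - s)]
  have h3 : |-(eps K) + eps K ^ 2 * (1 - s - s')| ≤ 2 * eps K := by
    have h4 : eps K ^ 2 ≤ eps K := by nlinarith
    rw [abs_le]
    constructor
    · nlinarith [mul_nonneg (sq_nonneg (eps K)) (by linarith : 0 ≤ 2 - s - s')]
    · nlinarith [mul_nonneg (sq_nonneg (eps K)) (by linarith : 0 ≤ s + s')]
  nlinarith [mul_le_mul_of_nonneg_left h3 (by linarith : 0 ≤ s' - s)]

private theorem sj_f4 (K j : ℕ) (hj : j ≤ K + 1) : 0 ≤ sj K j ∧ sj K j ≤ 1 := by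
  unfold sj
  constructor
  · positivity
  · rw [div_le_one (by positivity)]
    have : (j : ℝ) ≤ (K : ℝ) + 1 := by exact_mod_cast hj
    linarith

private theorem sj_succ_f4 (K j : ℕ) : sj K (j + 1) - sj K j = 1 / ((K : ℝ) + 2) := by
  unfold sj
  push_cast
  field_simp
  ring

private theorem K2_f4 (K : ℕ) : ((K : ℝ) + 2) ≤ 2 ^ (K + 1) := by
  have h : K + 2 ≤ 2 ^ (K + 1) := by
    have := Nat.lt_two_pow_self (n := K + 1)
    omega
  exact_mod_cast h

/-- the three vectors -/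
private theorem bound_f4 (x y : ℝ) (a b n : E3) (t : ℝ) (hx : |x| ≤ t) (hy : |y| ≤ t)
    (ha : ‖a‖ ≤ 10) (hb : ‖b‖ ≤ 10) (hn : ‖n‖ ≤ 38) :
    ‖x • crs a n + y • crs b n‖ ≤ 760 * t := by
  have ht : 0 ≤ t := (abs_nonneg x).trans hx
  have h1 : ‖crs a n‖ ≤ 380 := by
    refine (crs_norm_f4 a n).trans ?_
    nlinarith [norm_nonneg a, norm_nonneg n]
  have h2 : ‖crs b n‖ ≤ 380 := by
    refine (crs_norm_f4 b n).trans ?_
    nlinarith [norm_nonneg b, norm_nonneg n]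
  refine (norm_add_le _ _).trans ?_
  rw [norm_smul, norm_smul, Real.norm_eq_abs, Real.norm_eq_abs]
  have h3 : |x| * ‖crs a n‖ ≤ t * 380 := mul_le_mul hx h1 (norm_nonneg _) ht
  have h4 : |y| * ‖crs b n‖ ≤ t * 380 := mul_le_mul hy h2 (norm_nonneg _) ht
  linarith

private theorem det_bd_f4 {a h a' h' A H D : ℝ} (hh : |h| ≤ H)
    (ha : |a| ≤ 1) (hd : |a' - a| ≤ D) (hD : 0 ≤ D) (hhd : |h' - h| ≤ A) :
    |a' * h - h' * a| ≤ D * H + A := by
  have e : a' * h - h' * a = (a' - a) * h - (h' - h) * a := by ring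
  rw [e]
  refine (abs_sub _ _).trans ?_
  rw [abs_mul, abs_mul]
  have hA : 0 ≤ A := (abs_nonneg _).trans hhd
  have h1 : |a' - a| * |h| ≤ D * H := mul_le_mul hd hh (abs_nonneg _) hD
  have h2 : |h' - h| * |a| ≤ A * 1 := mul_le_mul hhd ha (abs_nonneg _) hA
  linarith

/-- the face `L T e i` -/
private theorem caseL_f4 (K : ℕ) (T : Fin 6) (e : Fin 3) {s s' : ℝ} (h0 : 0 ≤ s) (h1 : s < s')
    (h2 : s' ≤ 1) :
    ‖crs (idl K T e s' - cor T (e + 1)) (idl K T e s - cor T (e + 1)) -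
      ((s' - s) / 5) • nrm T‖ ≤ 3040 * eps K * (s' - s) := by
  have e0 := eps_pos_f4 K
  have e1 := eps_le_f4 K
  have hs : ∀ t : ℝ, idl K T e t - cor T (e + 1) = ((1 - t) / 3) • (cor T e - cor T (e + 1)) +
      ((5 + 4 * t) / 15) • (cor T (e + 2) - cor T (e + 1)) + hgt K t • nrm T := by
    intro t
    unfold idl
    module
  have hn : crs (cor T (e + 2) - cor T (e + 1)) (cor T e - cor T (e + 1)) = nrm T := by
    rw [nrm_eq T e, crs_rot_f4]
  rw [hs, hs, crs_exp_f4, hn]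
  have e2 : (5 + 4 * s') / 15 * ((1 - s) / 3) - (1 - s') / 3 * ((5 + 4 * s) / 15) = (s' - s) / 5 := by
    ring
  rw [e2]
  have hb := hgt_bd_f4 K h0 (by linarith : s ≤ 1)
  have hb' : |hgt K s| ≤ 2 * eps K := by
    rw [abs_of_nonneg hb.1]
    nlinarith [hb.2]
  have hd := hgt_diff_f4 K h0 h1.le h2
  have x1 := det_bd_f4 (a := (1 - s) / 3) (a' := (1 - s') / 3) (D := (s' - s))
    hb' (by rw [abs_le]; constructor <;> linarith) (by
      rw [show (1 - s') / 3 - (1 - s) / 3 = -((s' - s) / 3) by ring, abs_neg,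
        abs_of_nonneg (by linarith)]
      linarith) (by linarith) hd
  have x2 := det_bd_f4 (a := (5 + 4 * s) / 15) (a' := (5 + 4 * s') / 15)
    (D := (s' - s))
    hb' (by rw [abs_le]; constructor <;> linarith) (by
      rw [show (5 + 4 * s') / 15 - (5 + 4 * s) / 15 = 4 * (s' - s) / 15 by ring,
        abs_of_nonneg (by linarith)]
      linarith) (by linarith) hd
  have e3 : (s' - s) * (2 * eps K) + 2 * eps K * (s' - s) = 4 * eps K * (s' - s) := by ring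
  rw [e3] at x1 x2
  have hfin := bound_f4 _ _ (cor T e - cor T (e + 1)) (cor T (e + 2) - cor T (e + 1)) (nrm T) _ x1 x2
    (bpt_sub_f4 _ _) (bpt_sub_f4 _ _) (nrm_le_f4 T)
  have e4 : ∀ X Y Z : E3, X + Y + Z - X = Y + Z := by
    intro X Y Z
    abel
  rw [e4]
  refine hfin.trans (le_of_eq ?_)
  ring

/-- the face `R T e i` -/
private theorem caseR_f4 (K : ℕ) (T : Fin 6) (e : Fin 3) {s s' : ℝ} (h0 : 0 ≤ s) (h1 : s < s')
    (h2 : s' ≤ 1) :
    ‖crs (idl K T e s - cor T (e + 2)) (idl K T e s' - cor T (e + 2)) -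
      (2 * (s' - s) / 15) • nrm T‖ ≤ 3040 * eps K * (s' - s) := by
  have e0 := eps_pos_f4 K
  have e1 := eps_le_f4 K
  have hs : ∀ t : ℝ, idl K T e t - cor T (e + 2) = ((5 + t) / 15) • (cor T (e + 1) - cor T (e + 2)) +
      ((1 - t) / 3) • (cor T e - cor T (e + 2)) + hgt K t • nrm T := by
    intro t
    unfold idl
    module
  have hn : crs (cor T e - cor T (e + 2)) (cor T (e + 1) - cor T (e + 2)) = nrm T := by
    rw [nrm_eq T e, ← crs_rot_f4 (cor T e) (cor T (e + 1)) (cor T (e + 2)),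
      ← crs_rot_f4 (cor T (e + 1)) (cor T (e + 2)) (cor T e)]
  rw [hs, hs, crs_exp_f4, hn]
  have e2 : (1 - s) / 3 * ((5 + s') / 15) - (5 + s) / 15 * ((1 - s') / 3) = 2 * (s' - s) / 15 := by
    ring
  rw [e2]
  have hb := hgt_bd_f4 K h0 (by linarith : s ≤ 1)
  have hb' : |hgt K s| ≤ 2 * eps K := by
    rw [abs_of_nonneg hb.1]
    nlinarith [hb.2]
  have hd := hgt_diff_f4 K h0 h1.le h2
  have x1 := det_bd_f4 (a := (1 - s) / 3) (a' := (1 - s') / 3) (D := (s' - s))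
    hb' (by rw [abs_le]; constructor <;> linarith) (by
      rw [show (1 - s') / 3 - (1 - s) / 3 = -((s' - s) / 3) by ring, abs_neg,
        abs_of_nonneg (by linarith)]
      linarith) (by linarith) hd
  have x2 := det_bd_f4 (a := (5 + s) / 15) (a' := (5 + s') / 15)
    (D := (s' - s))
    hb' (by rw [abs_le]; constructor <;> linarith) (by
      rw [show (5 + s') / 15 - (5 + s) / 15 = (s' - s) / 15 by ring,
        abs_of_nonneg (by linarith)]
      linarith) (by linarith) hd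
  have e3 : (s' - s) * (2 * eps K) + 2 * eps K * (s' - s) = 4 * eps K * (s' - s) := by ring
  rw [e3] at x1 x2
  have y1 : |(5 + s) / 15 * hgt K s' - hgt K s * ((5 + s') / 15)| ≤ 4 * eps K * (s' - s) := by
    rw [← abs_neg]
    refine le_trans (le_of_eq ?_) x2
    congr 1
    ring
  have y2 : |(1 - s) / 3 * hgt K s' - hgt K s * ((1 - s') / 3)| ≤ 4 * eps K * (s' - s) := by
    rw [← abs_neg]
    refine le_trans (le_of_eq ?_) x1
    congr 1
    ring
  have hfin := bound_f4 _ _ (cor T (e + 1) - cor T (e + 2)) (cor T e - cor T (e + 2)) (nrm T) _ y1 y2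
    (bpt_sub_f4 _ _) (bpt_sub_f4 _ _) (nrm_le_f4 T)
  have e4 : ∀ X Y Z : E3, X + Y + Z - X = Y + Z := by
    intro X Y Z
    abel
  rw [e4]
  refine hfin.trans (le_of_eq ?_)
  ring

/-- the face `E T e` -/
private theorem caseE_f4 (K : ℕ) (T : Fin 6) (e : Fin 3) {s : ℝ} (h0 : 0 ≤ s) (h2 : s ≤ 1) :
    ‖crs (cor T (e + 2) - cor T (e + 1)) (idl K T e s - cor T (e + 1)) -
      ((1 - s) / 3) • nrm T‖ ≤ 760 * eps K * (1 - s) := by
  have e0 := eps_pos_f4 K
  have hs : ∀ t : ℝ, idl K T e t - cor T (e + 1) = ((1 - t) / 3) • (cor T e - cor T (e + 1)) +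
      ((5 + 4 * t) / 15) • (cor T (e + 2) - cor T (e + 1)) + hgt K t • nrm T := by
    intro t
    unfold idl
    module
  have hn : crs (cor T (e + 2) - cor T (e + 1)) (cor T e - cor T (e + 1)) = nrm T := by
    rw [nrm_eq T e, crs_rot_f4]
  rw [hs, crs_exp2_f4, hn]
  have hb := hgt_bd_f4 K h0 h2
  have e4 : ∀ X Y : E3, X + Y - X = Y := by
    intro X Y
    abel
  rw [e4, norm_smul, Real.norm_eq_abs, abs_of_nonneg hb.1]
  have h3 : ‖crs (cor T (e + 2) - cor T (e + 1)) (nrm T)‖ ≤ 380 := by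
    refine (crs_norm_f4 _ _).trans ?_
    have k1 : ‖cor T (e + 2) - cor T (e + 1)‖ ≤ 10 := bpt_sub_f4 _ _
    nlinarith [norm_nonneg (cor T (e + 2) - cor T (e + 1)), norm_nonneg (nrm T), nrm_le_f4 T]
  have h4 : hgt K s * ‖crs (cor T (e + 2) - cor T (e + 1)) (nrm T)‖ ≤
      (2 * eps K * (1 - s)) * 380 :=
    mul_le_mul hb.2 h3 (norm_nonneg _) (by nlinarith)
  linarith

/-- the vector of a half-edge -/
private def G4 (K : ℕ) (d : Dx K) : E3 :=
  crs (ideal K (tl (nx d)) - ideal K (tl d)) (ideal K (tl (nx (nx d))) - ideal K (tl d))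

private theorem G4_nx (K : ℕ) (d : Dx K) : G4 K (nx d) = G4 K d := by
  unfold G4
  rw [nx3, crs_rot_f4]

private theorem ideal_pre_f4 (K : ℕ) (T : Fin 6) (e : Fin 3) (i : Fin (K + 1)) :
    ideal K (pre T e i) = idl K T e (sj K i) := by
  rw [pre_eq_Y, ideal_Y K T e i (by omega)]

private theorem pow_eps_f4 (K : ℕ) : 16384 * 5 * eps K ≤ (1 / 2) ^ (2 * K + 70) := by
  have e : (1 / 2 : ℝ) ^ (2 * K + 100) = (1 / 2) ^ (2 * K + 70) * (1 / 2) ^ 30 := pow_add _ (2 * K + 70) 30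
  unfold eps
  rw [e]
  have h : (0 : ℝ) < (1 / 2) ^ (2 * K + 70) := by positivity
  generalize (1 / 2 : ℝ) ^ (2 * K + 70) = t at h
  nlinarith

private theorem kap_f4 (K : ℕ) {c : ℝ} (hc : 1 / 16 ≤ c) : (1 / 2 : ℝ) ^ (K + 8) ≤ c / ((K : ℝ) + 2) := by
  rw [le_div_iff₀ (by positivity)]
  have h1 := K2_f4 K
  have h2 : (1 / 2 : ℝ) ^ (K + 8) * 2 ^ (K + 1) = 1 / 128 := by
    rw [show K + 8 = (K + 1) + 7 by ring, pow_add, mul_right_comm, ← mul_pow]
    norm_num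
  have h3 : (1 / 2 : ℝ) ^ (K + 8) * ((K : ℝ) + 2) ≤ 1 / 128 := by
    rw [← h2]
    exact mul_le_mul_of_nonneg_left h1 (by positivity)
  linarith

private theorem concl_f4 (K : ℕ) (v : E3) (n : E3) {c κ : ℝ} (hc : 1 / 16 ≤ c)
    (hκ : κ = c / ((K : ℝ) + 2)) (hv : ‖v - κ • n‖ ≤ 3040 * eps K * (1 / ((K : ℝ) + 2))) :
    ∃ κ : ℝ, (1 / 2) ^ (K + 8) ≤ κ ∧ ‖v - κ • n‖ ≤ κ * (1 / 2) ^ (2 * K + 70) := by
  have hK : (0 : ℝ) < 1 / ((K : ℝ) + 2) := by positivity
  refine ⟨κ, ?_, hv.trans ?_⟩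
  · rw [hκ]
    exact kap_f4 K hc
  · have h1 := pow_eps_f4 K
    have h2 := eps_pos_f4 K
    have h3 : κ = c * (1 / ((K : ℝ) + 2)) := by
      rw [hκ]
      ring
    rw [h3]
    have h4 : 3040 * eps K ≤ c * (1 / 2) ^ (2 * K + 70) := by
      have h5 : (1 / 16) * (16384 * 5 * eps K) ≤ c * (1 / 2) ^ (2 * K + 70) :=
        mul_le_mul hc h1 (mul_nonneg (by norm_num) h2.le) (by linarith)
      linarith
    have h6 := mul_le_mul_of_nonneg_right h4 hK.le
    linarith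

private theorem hnorm_f4 (K : ℕ) (T : Fin 6) (e : Fin 3) {s : ℝ} (h0 : 0 ≤ s) (h1 : s ≤ 1) :
    ‖idl K T e s‖ ≤ 8 := by
  have hb := hgt_bd_f4 K h0 h1
  have he : eps K ≤ 1 / 1024 := by
    have h := pow_le_pow_of_le_one (a := (1 / 2 : ℝ)) (by norm_num) (by norm_num)
      (show 10 ≤ 2 * K + 100 by omega)
    unfold eps
    refine h.trans ?_
    norm_num
  have e0 := eps_pos_f4 K
  have hh : hgt K s ≤ 1 / 512 := by
    have : 2 * eps K * (1 - s) ≤ 2 * (1 / 1024) * 1 :=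
      mul_le_mul (by linarith) (by linarith) (by linarith) (by norm_num)
    linarith [hb.2]
  have k1 : ‖((1 - s) / 3) • cor T e‖ ≤ (1 - s) / 3 * 7 := by
    rw [norm_smul, Real.norm_eq_abs, abs_of_nonneg (by linarith)]
    exact mul_le_mul_of_nonneg_left (bpt_f4 _) (by linarith)
  have k2 : ‖((5 + s) / 15) • cor T (e + 1)‖ ≤ (5 + s) / 15 * 7 := by
    rw [norm_smul, Real.norm_eq_abs, abs_of_nonneg (by linarith)]
    exact mul_le_mul_of_nonneg_left (bpt_f4 _) (by linarith)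
  have k3 : ‖((5 + 4 * s) / 15) • cor T (e + 2)‖ ≤ (5 + 4 * s) / 15 * 7 := by
    rw [norm_smul, Real.norm_eq_abs, abs_of_nonneg (by linarith)]
    exact mul_le_mul_of_nonneg_left (bpt_f4 _) (by linarith)
  have k4 : ‖hgt K s • nrm T‖ ≤ 1 / 512 * 38 := by
    rw [norm_smul, Real.norm_eq_abs, abs_of_nonneg hb.1]
    exact mul_le_mul hh (nrm_le_f4 T) (norm_nonneg _) (by norm_num)
  unfold idl
  have t1 := norm_add_le (((1 - s) / 3) • cor T e) (((5 + s) / 15) • cor T (e + 1))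
  have t2 := norm_add_le (((1 - s) / 3) • cor T e + ((5 + s) / 15) • cor T (e + 1))
    (((5 + 4 * s) / 15) • cor T (e + 2))
  have t3 := norm_add_le (((1 - s) / 3) • cor T e + ((5 + s) / 15) • cor T (e + 1) +
    ((5 + 4 * s) / 15) • cor T (e + 2)) (hgt K s • nrm T)
  linarith

private theorem ideal_norm_f4 (K : ℕ) (v : Vx K) : ‖ideal K v‖ ≤ 8 := by
  rcases v with a | T | ⟨T, e, i⟩
  · exact (bpt_f4 a).trans (by norm_num)
  · exact hnorm_f4 K T 0 le_rfl zero_le_one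
  · have hi : (i : ℕ) + 1 ≤ K + 1 := by omega
    have a1 := sj_f4 K (i + 1) hi
    exact hnorm_f4 K T e a1.1 a1.2

private theorem crs_sub_f4 (a b a0 b0 : E3) :
    crs a b - crs a0 b0 = crs (a - a0) b + crs a0 (b - b0) := by
  ext j
  fin_cases j <;> simp [crs] <;> ring

private theorem crs_close_f4 {a b a0 b0 : E3} {t : ℝ} (ha : ‖a - a0‖ ≤ t) (hb : ‖b - b0‖ ≤ t)
    (ht : t ≤ 1) (ha0 : ‖a0‖ ≤ 16) (hb0 : ‖b0‖ ≤ 16) : ‖crs a b - crs a0 b0‖ ≤ 33 * t := by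
  have ht0 : 0 ≤ t := (norm_nonneg _).trans ha
  have hb1 : ‖b‖ ≤ 17 := by
    have e : b = b0 + (b - b0) := by abel
    rw [e]
    refine (norm_add_le _ _).trans ?_
    linarith
  rw [crs_sub_f4]
  refine (norm_add_le _ _).trans ?_
  have h1 : ‖crs (a - a0) b‖ ≤ t * 17 :=
    (crs_norm_f4 _ _).trans (mul_le_mul ha hb1 (norm_nonneg _) ht0)
  have h2 : ‖crs a0 (b - b0)‖ ≤ 16 * t :=
    (crs_norm_f4 _ _).trans (mul_le_mul ha0 hb (norm_nonneg _) (by norm_num))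
  linarith

private theorem del_f4 (K : ℕ) : 66 * del K ≤ (1 / 2) ^ (K + 8) * (1 / 2) ^ (2 * K + 70) := by
  have h := pow_le_pow_of_le_one (a := (1 / 2 : ℝ)) (by norm_num) (by norm_num)
    (show (K + 8) + (2 * K + 70) + 7 ≤ 16 * K + 1000 by omega)
  rw [pow_add _ (K + 8 + (2 * K + 70)) 7, pow_add _ (K + 8) (2 * K + 70)] at h
  unfold del
  have hp : (0 : ℝ) < (1 / 2) ^ (K + 8) * (1 / 2) ^ (2 * K + 70) := by
    exact mul_pos (pow_pos (by norm_num) _) (pow_pos (by norm_num) _)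
  generalize (1 / 2 : ℝ) ^ (K + 8) * (1 / 2) ^ (2 * K + 70) = t at h hp
  generalize (1 / 2 : ℝ) ^ (16 * K + 1000) = r at h
  norm_num at h
  linarith

namespace Msh

variable {K : ℕ} (M : Msh K)

/-- [DG-F4a] THE NORMAL OF A FACE (ideal): for `L T e i` the cross product of the two sides at the
hub is `((s'-s)/5) n + ...`, for `R T e i` `(2(s'-s)/15) n + ...`, for `E T e` `((1-s)/3) n + ...`,
`s' - s = 1/(K+2)`, with relative error `O(ε)`. -/
theorem ideal_normal (K : ℕ) (d : Dx K) : ∃ κ : ℝ, (1 / 2) ^ (K + 8) ≤ κ ∧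
    ‖crs (ideal K (tl (nx d)) - ideal K (tl d)) (ideal K (tl (nx (nx d))) - ideal K (tl d)) -
      κ • nrm (face6 d)‖ ≤ κ * (1 / 2) ^ (2 * K + 70) := by
  have main : ∀ d : Dx K, (∀ d' : Dx K, d = d' ∨ d = nx d' ∨ d = nx (nx d') →
      face6 d = face6 d') → ∀ d' : Dx K, (d = d' ∨ d = nx d' ∨ d = nx (nx d')) →
      (∃ κ : ℝ, (1 / 2) ^ (K + 8) ≤ κ ∧ ‖G4 K d' - κ • nrm (face6 d')‖ ≤ κ * (1 / 2) ^ (2 * K + 70)) →
      ∃ κ : ℝ, (1 / 2) ^ (K + 8) ≤ κ ∧ ‖G4 K d - κ • nrm (face6 d)‖ ≤ κ * (1 / 2) ^ (2 * K + 70) := by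
    intro d hf d' hd h
    rw [hf d' hd]
    rcases hd with rfl | rfl | rfl
    · exact h
    · rw [G4_nx]
      exact h
    · rw [G4_nx, G4_nx]
      exact h
  have hface : ∀ d d' : Dx K, d = d' ∨ d = nx d' ∨ d = nx (nx d') → face6 d = face6 d' := by
    intro d d' h
    rcases h with rfl | rfl | rfl
    · rfl
    · rcases d' with ⟨T, e, i, k⟩ | ⟨T, e, i, k⟩ | ⟨T, e, k⟩ <;> rfl
    · rcases d' with ⟨T, e, i, k⟩ | ⟨T, e, i, k⟩ | ⟨T, e, k⟩ <;> rfl
  have hk : ∀ k : Fin 3, k = 0 ∨ k = 0 + 1 ∨ k = 0 + 1 + 1 := by decide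
  have h3 := nx3 (K := K)
  show ∃ κ : ℝ, (1 / 2) ^ (K + 8) ≤ κ ∧ ‖G4 K d - κ • nrm (face6 d)‖ ≤ κ * (1 / 2) ^ (2 * K + 70)
  rcases d with ⟨T, e, i, k⟩ | ⟨T, e, i, k⟩ | ⟨T, e, k⟩
  · refine main _ (hface _) (L T e i 0) ?_ ?_
    · rcases hk k with rfl | rfl | rfl
      · exact Or.inl rfl
      · exact Or.inr (Or.inl rfl)
      · exact Or.inr (Or.inr rfl)
    · have hi : (i : ℕ) ≤ K := by omega
      have a0 := sj_f4 K i (by omega)
      have a1 := sj_f4 K (i + 1) (by omega)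
      have hd := sj_succ_f4 K i
      have hpos : (0 : ℝ) < 1 / ((K : ℝ) + 2) := by positivity
      have key := caseL_f4 K T e a0.1 (by linarith : sj K i < sj K (i + 1)) a1.2
      rw [hd] at key
      have e1 : G4 K (L T e i 0) = crs (idl K T e (sj K (i + 1)) - cor T (e + 1))
          (idl K T e (sj K i) - cor T (e + 1)) := by
        show crs (ideal K (leg T e i) - bpt (CT T (e + 1)))
          (ideal K (pre T e i) - bpt (CT T (e + 1))) = _
        rw [ideal_pre_f4]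
        rfl
      rw [e1]
      refine concl_f4 K _ _ (c := 1 / 5) (κ := 1 / ((K : ℝ) + 2) / 5) (by norm_num) ?_ key
      ring
  · refine main _ (hface _) (R T e i 0) ?_ ?_
    · rcases hk k with rfl | rfl | rfl
      · exact Or.inl rfl
      · exact Or.inr (Or.inl rfl)
      · exact Or.inr (Or.inr rfl)
    · have hi : (i : ℕ) ≤ K := by omega
      have a0 := sj_f4 K i (by omega)
      have a1 := sj_f4 K (i + 1) (by omega)
      have hd := sj_succ_f4 K i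
      have hpos : (0 : ℝ) < 1 / ((K : ℝ) + 2) := by positivity
      have key := caseR_f4 K T e a0.1 (by linarith : sj K i < sj K (i + 1)) a1.2
      rw [hd] at key
      have e1 : G4 K (R T e i 0) = crs (idl K T e (sj K i) - cor T (e + 2))
          (idl K T e (sj K (i + 1)) - cor T (e + 2)) := by
        show crs (ideal K (pre T e i) - bpt (CT T (e + 2)))
          (ideal K (leg T e i) - bpt (CT T (e + 2))) = _
        rw [ideal_pre_f4]
        rfl
      rw [e1]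
      refine concl_f4 K _ _ (c := 2 / 15) (κ := 2 * (1 / ((K : ℝ) + 2)) / 15) (by norm_num) ?_ key
      ring
  · refine main _ (hface _) (E T e 0) ?_ ?_
    · rcases hk k with rfl | rfl | rfl
      · exact Or.inl rfl
      · exact Or.inr (Or.inl rfl)
      · exact Or.inr (Or.inr rfl)
    · have a1 := sj_f4 K (K + 1) le_rfl
      have hd : 1 - sj K (K + 1) = 1 / ((K : ℝ) + 2) := by
        unfold sj
        push_cast
        field_simp
        ring
      have key := caseE_f4 K T e a1.1 a1.2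
      rw [hd] at key
      have e1 : G4 K (E T e 0) = crs (cor T (e + 2) - cor T (e + 1))
          (idl K T e (sj K (K + 1)) - cor T (e + 1)) := rfl
      rw [e1]
      have hp := eps_pos_f4 K
      have hpos : (0 : ℝ) < 1 / ((K : ℝ) + 2) := by positivity
      refine concl_f4 K _ _ (c := 1 / 3) (κ := 1 / ((K : ℝ) + 2) / 3) (by norm_num) (by ring)
        (key.trans ?_)
      nlinarith [mul_pos hp hpos]

/-- [DG-F4b] the same for the mesh -/
theorem normal (d : Dx K) : ∃ κ : ℝ, (1 / 2) ^ (K + 8) ≤ κ ∧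
    ‖crs (M.u (tl (nx d)) - M.u (tl d)) (M.u (tl (nx (nx d))) - M.u (tl d)) -
      κ • nrm (face6 d)‖ ≤ κ * (1 / 2) ^ (2 * K + 69) := by
  obtain ⟨κ, h1, h2⟩ := ideal_normal K d
  refine ⟨κ, h1, ?_⟩
  have hd1 : 2 * del K ≤ 1 := by
    have h := pow_le_pow_of_le_one (a := (1 / 2 : ℝ)) (by norm_num) (by norm_num)
      (show 1 ≤ 16 * K + 1000 by omega)
    rw [pow_one] at h
    unfold del
    linarith
  have hsub : ∀ v w : Vx K, ‖(M.u v - M.u w) - (ideal K v - ideal K w)‖ ≤ 2 * del K := by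
    intro v w
    have e : (M.u v - M.u w) - (ideal K v - ideal K w) =
        (M.u v - ideal K v) - (M.u w - ideal K w) := by abel
    rw [e]
    refine (norm_sub_le _ _).trans ?_
    have k1 := M.u_close v
    have k2 := M.u_close w
    linarith
  have hid : ∀ v w : Vx K, ‖ideal K v - ideal K w‖ ≤ 16 := by
    intro v w
    refine (norm_sub_le _ _).trans ?_
    have k1 := ideal_norm_f4 K v
    have k2 := ideal_norm_f4 K w
    linarith
  have h3 := crs_close_f4 (hsub (tl (nx d)) (tl d)) (hsub (tl (nx (nx d))) (tl d)) hd1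
    (hid _ _) (hid _ _)
  have h4 : ‖crs (M.u (tl (nx d)) - M.u (tl d)) (M.u (tl (nx (nx d))) - M.u (tl d)) -
      κ • nrm (face6 d)‖ ≤ 33 * (2 * del K) + κ * (1 / 2) ^ (2 * K + 70) := by
    refine le_trans ?_ (add_le_add h3 h2)
    refine le_trans (le_of_eq ?_) (norm_add_le _ _)
    congr 1
    abel
  have h5 := del_f4 K
  have h6 : (1 / 2 : ℝ) ^ (K + 8) * (1 / 2) ^ (2 * K + 70) ≤ κ * (1 / 2) ^ (2 * K + 70) :=
    mul_le_mul_of_nonneg_right h1 (pow_nonneg (by norm_num) _)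
  have h7 : (1 / 2 : ℝ) ^ (2 * K + 70) = (1 / 2) ^ (2 * K + 69) * (1 / 2) := pow_succ _ (2 * K + 69)
  have h8 : κ * (1 / 2 : ℝ) ^ (2 * K + 69) = κ * (1 / 2) ^ (2 * K + 70) + κ * (1 / 2) ^ (2 * K + 70) := by
    rw [h7]
    ring
  rw [h8]
  linarith

end Msh

end

end QGd
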