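import Pool.Agent.Lib_MP_6b5565_dg.F4

/-! [DG-F4b] the faces of the mesh are almost parallel to the base faces -/

namespace QGd

open EuclideanGeometry ComplexConjugate Vx Dx

noncomputable section

private theorem inner3_f4b (x y : E3) : inner ℝ x y = x 0 * y 0 + x 1 * y 1 + x 2 * y 2 := by
  rw [PiLp.inner_apply, Fin.sum_univ_three]
  simp only [RCLike.inner_apply, conj_trivial]
  ring

private theorem norm3_f4b (x : E3) : ‖x‖ ^ 2 = x 0 ^ 2 + x 1 ^ 2 + x 2 ^ 2 := by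
  rw [EuclideanSpace.norm_sq_eq, Fin.sum_univ_three]
  simp only [Real.norm_eq_abs, sq_abs]

private theorem crs0_f4b (a b : E3) : crs a b 0 = a 1 * b 2 - a 2 * b 1 := rfl
private theorem crs1_f4b (a b : E3) : crs a b 1 = a 2 * b 0 - a 0 * b 2 := rfl
private theorem crs2_f4b (a b : E3) : crs a b 2 = a 0 * b 1 - a 1 * b 0 := rfl

private theorem inner_crs_left_f4b (v w : E3) : inner ℝ (crs v w) v = 0 := by
  rw [inner3_f4b, crs0_f4b, crs1_f4b, crs2_f4b]
  ring

private theorem inner_crs_right_f4b (v w : E3) : inner ℝ (crs v w) w = 0 := by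
  rw [inner3_f4b, crs0_f4b, crs1_f4b, crs2_f4b]
  ring

private theorem crs_smul_f4b (s : ℝ) (v w : E3) : crs (s • v) (s • w) = s ^ 2 • crs v w := by
  ext i
  fin_cases i
  · show (s • v) 1 * (s • w) 2 - (s • v) 2 * (s • w) 1 = s ^ 2 * (v 1 * w 2 - v 2 * w 1)
    simp only [PiLp.smul_apply, smul_eq_mul]
    ring
  · show (s • v) 2 * (s • w) 0 - (s • v) 0 * (s • w) 2 = s ^ 2 * (v 2 * w 0 - v 0 * w 2)
    simp only [PiLp.smul_apply, smul_eq_mul]
    ring
  · show (s • v) 0 * (s • w) 1 - (s • v) 1 * (s • w) 0 = s ^ 2 * (v 0 * w 1 - v 1 * w 0)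
    simp only [PiLp.smul_apply, smul_eq_mul]
    ring

private theorem norm_crs_f4b (v w : E3) :
    ‖crs v w‖ ^ 2 = ‖v‖ ^ 2 * ‖w‖ ^ 2 - (inner ℝ v w) ^ 2 := by
  rw [norm3_f4b, norm3_f4b, norm3_f4b, inner3_f4b, crs0_f4b, crs1_f4b, crs2_f4b]
  ring

private theorem sin_crs_f4b (v w : E3) :
    Real.sin (InnerProductGeometry.angle v w) * (‖v‖ * ‖w‖) = ‖crs v w‖ := by
  rw [InnerProductGeometry.sin_angle_mul_norm_mul_norm, real_inner_self_eq_norm_sq,
    real_inner_self_eq_norm_sq, ← Real.sqrt_sq (norm_nonneg (crs v w)), norm_crs_f4b]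
  congr 1
  ring

private theorem nrm_ge_f4b (T : Fin 6) : 1 ≤ ‖nrm T‖ := by
  have h1 := (nrm_sq T).1
  nlinarith [norm_nonneg (nrm T)]

private theorem nrm_le_f4b (T : Fin 6) : ‖nrm T‖ ≤ 40 := by
  have h1 := (nrm_sq T).2
  nlinarith [norm_nonneg (nrm T)]

private theorem bpt_le_f4b (v : Fin 5) : ‖bpt v‖ ≤ 13 / 2 := by
  have h1 : (BV v 0) ^ 2 + (BV v 1) ^ 2 + (BV v 2) ^ 2 ≤ 42 := by
    revert v
    decide
  have h2 : ‖bpt v‖ ^ 2 ≤ 42 := by
    have h3 : ‖bpt v‖ ^ 2 = (BV v 0 : ℝ) ^ 2 + (BV v 1 : ℝ) ^ 2 + (BV v 2 : ℝ) ^ 2 := by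
      rw [norm3_f4b]
      rfl
    rw [h3]
    exact_mod_cast h1
  nlinarith [norm_nonneg (bpt v)]

private theorem eps_f4b (K : ℕ) : 0 < eps K ∧ eps K ≤ 1 / 10 ^ 6 := by
  unfold eps
  refine ⟨by positivity, ?_⟩
  calc ((1 : ℝ) / 2) ^ (2 * K + 100) ≤ (1 / 2) ^ 100 :=
        pow_le_pow_of_le_one (by norm_num) (by norm_num) (by omega)
    _ ≤ 1 / 10 ^ 6 := by norm_num

private theorem idl_le_f4b (K : ℕ) (T : Fin 6) (e : Fin 3) (s : ℝ) (h0 : 0 ≤ s) (h1 : s ≤ 1) :
    ‖idl K T e s‖ ≤ 7 := by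
  obtain ⟨he, he'⟩ := eps_f4b K
  have hh : 0 ≤ hgt K s ∧ hgt K s ≤ 1 / 10 ^ 5 := by
    unfold hgt
    have h2 : 0 ≤ 1 - s := by linarith
    have h3 : eps K * (1 - s) ≤ 1 / 10 ^ 6 * 1 :=
      mul_le_mul he' (by linarith) h2 (by norm_num)
    have h4 : s * (1 - s) ≤ 1 := by nlinarith
    have h5 : 0 ≤ s * (1 - s) := mul_nonneg h0 h2
    have h6 : eps K ^ 2 ≤ 1 / 10 ^ 6 := by nlinarith
    have h7 : eps K ^ 2 * (s * (1 - s)) ≤ 1 / 10 ^ 6 * 1 :=
      mul_le_mul h6 h4 h5 (by norm_num)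
    constructor
    · exact add_nonneg (mul_nonneg he.le h2) (mul_nonneg (sq_nonneg _) h5)
    · norm_num at h3 h7 ⊢
      linarith
  unfold idl
  have n1 : ‖((1 - s) / 3) • cor T e‖ ≤ (1 - s) / 3 * (13 / 2) := by
    rw [norm_smul, Real.norm_of_nonneg (by linarith)]
    exact mul_le_mul_of_nonneg_left (bpt_le_f4b _) (by linarith)
  have n2 : ‖((5 + s) / 15) • cor T (e + 1)‖ ≤ (5 + s) / 15 * (13 / 2) := by
    rw [norm_smul, Real.norm_of_nonneg (by linarith)]
    exact mul_le_mul_of_nonneg_left (bpt_le_f4b _) (by linarith)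
  have n3 : ‖((5 + 4 * s) / 15) • cor T (e + 2)‖ ≤ (5 + 4 * s) / 15 * (13 / 2) := by
    rw [norm_smul, Real.norm_of_nonneg (by linarith)]
    exact mul_le_mul_of_nonneg_left (bpt_le_f4b _) (by linarith)
  have n4 : ‖hgt K s • nrm T‖ ≤ 1 / 10 ^ 5 * 40 := by
    rw [norm_smul, Real.norm_of_nonneg hh.1]
    exact mul_le_mul hh.2 (nrm_le_f4b T) (norm_nonneg _) (by norm_num)
  have n5 := norm_add_le (((1 - s) / 3) • cor T e + ((5 + s) / 15) • cor T (e + 1) +
    ((5 + 4 * s) / 15) • cor T (e + 2)) (hgt K s • nrm T)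
  have n6 := norm_add_le (((1 - s) / 3) • cor T e + ((5 + s) / 15) • cor T (e + 1))
    (((5 + 4 * s) / 15) • cor T (e + 2))
  have n7 := norm_add_le (((1 - s) / 3) • cor T e) (((5 + s) / 15) • cor T (e + 1))
  norm_num at n4
  linarith

private theorem ideal_le_f4b (K : ℕ) (v : Vx K) : ‖ideal K v‖ ≤ 7 := by
  rcases v with a | T | ⟨T, e, i⟩
  · exact (bpt_le_f4b a).trans (by norm_num)
  · exact idl_le_f4b K T 0 0 le_rfl zero_le_one
  · refine idl_le_f4b K T e _ ?_ ?_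
    · unfold sj
      positivity
    · unfold sj
      rw [div_le_one (by positivity)]
      have h1 : (i : ℕ) + 1 ≤ K + 2 := by have := i.2; omega
      exact_mod_cast h1

private theorem u_le_f4b {K : ℕ} (M : Msh K) (v : Vx K) : ‖M.u v‖ ≤ 8 := by
  have h1 := M.u_close v
  have h2 := ideal_le_f4b K v
  have h3 : del K ≤ 1 := by
    unfold del
    exact pow_le_one₀ (by norm_num) (by norm_num)
  have h4 : ‖M.u v‖ ≤ ‖M.u v - ideal K v‖ + ‖ideal K v‖ := by
    have := norm_add_le (M.u v - ideal K v) (ideal K v)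
    rwa [sub_add_cancel] at this
  linarith

/-- the data of a face -/
private theorem face_f4b {K : ℕ} (M : Msh K) (d : Dx K) : ∃ κ : ℝ, (1 / 2) ^ (K + 8) ≤ κ ∧
    0 < κ ∧ ‖crs (M.u (tl (nx d)) - M.u (tl d)) (M.u (tl (nx (nx d))) - M.u (tl d)) -
      κ • nrm (face6 d)‖ ≤ κ * (1 / 2) ^ (2 * K + 69) ∧
    κ / 2 ≤ ‖crs (M.u (tl (nx d)) - M.u (tl d)) (M.u (tl (nx (nx d))) - M.u (tl d))‖ := by
  obtain ⟨κ, h1, h2⟩ := M.normal d
  have hκ : 0 < κ := lt_of_lt_of_le (by positivity) h1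
  refine ⟨κ, h1, hκ, h2, ?_⟩
  have h3 : ‖κ • nrm (face6 d)‖ = κ * ‖nrm (face6 d)‖ := by
    rw [norm_smul, Real.norm_of_nonneg hκ.le]
  have h4 := norm_sub_norm_le (κ • nrm (face6 d))
    (crs (M.u (tl (nx d)) - M.u (tl d)) (M.u (tl (nx (nx d))) - M.u (tl d)))
  rw [norm_sub_rev, h3] at h4
  have h5 : ((1 : ℝ) / 2) ^ (2 * K + 69) ≤ 1 / 2 := by
    calc ((1 : ℝ) / 2) ^ (2 * K + 69) ≤ (1 / 2) ^ 1 :=
          pow_le_pow_of_le_one (by norm_num) (by norm_num) (by omega)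
      _ = 1 / 2 := by norm_num
  have h6 := nrm_ge_f4b (face6 d)
  nlinarith

namespace Msh

variable {K : ℕ} (M : Msh K)

/-- [DG-F4c] `x - y` is orthogonal to the normal of the face -/
theorem flat {T : Fin 6} (F : Fr (un T)) {d : Dx K} (hd : face6 d = T) :
    Flat M.P F (eta K) d := by
  obtain ⟨κ, -, hκ, hN, -⟩ := face_f4b M d
  rw [hd] at hN
  have hA : M.P.A d = (M.S : ℝ) • M.u (tl d) := M.pos_smul _
  have hB : M.P.B d = (M.S : ℝ) • M.u (tl (nx d)) := by
    have h1 : M.P.B d = M.pos (tl (iv d)) := rfl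
    rw [h1, tl_iv]
    exact M.pos_smul _
  have hA1 : M.P.A (M.P.nxt d) = (M.S : ℝ) • M.u (tl (nx d)) := M.pos_smul _
  have hC : M.P.A (M.P.prev d) = (M.S : ℝ) • M.u (tl (nx (nx d))) := M.pos_smul _
  set a := M.u (tl d) with ha
  set b := M.u (tl (nx d)) with hb
  set c := M.u (tl (nx (nx d))) with hc
  set Nn := crs (b - a) (c - a) with hNn
  have hn := nrm_ge_f4b T
  have hnpos : 0 < ‖nrm T‖ := by linarith
  have hS := M.Spos
  have hun : ∀ x : E3, κ * ‖nrm T‖ * inner ℝ (un T) x = inner ℝ (κ • nrm T) x := by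
    intro x
    unfold un
    rw [inner_smul_left, inner_smul_left]
    simp only [conj_trivial]
    field_simp
  constructor
  · -- the slope
    have hplane : M.P.tri d ⊆ {x : E3 | inner ℝ Nn x = inner ℝ Nn ((M.S : ℝ) • a)} := by
      unfold Poly.tri
      refine convexHull_min ?_ ?_
      · intro x hx
        simp only [Set.mem_insert_iff, Set.mem_singleton_iff] at hx
        rcases hx with hx | hx | hx
        · rw [hx, hA]
          rfl
        · rw [hx, hA1]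
          show inner ℝ Nn ((M.S : ℝ) • b) = inner ℝ Nn ((M.S : ℝ) • a)
          have h1 : inner ℝ Nn (b - a) = 0 := inner_crs_left_f4b _ _
          rw [inner_sub_right] at h1
          rw [inner_smul_right, inner_smul_right, sub_eq_zero.1 h1]
        · rw [hx, hC]
          show inner ℝ Nn ((M.S : ℝ) • c) = inner ℝ Nn ((M.S : ℝ) • a)
          have h1 : inner ℝ Nn (c - a) = 0 := inner_crs_right_f4b _ _
          rw [inner_sub_right] at h1
          rw [inner_smul_right, inner_smul_right, sub_eq_zero.1 h1]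
      · intro x hx y hy s t _ _ hst
        show inner ℝ Nn (s • x + t • y) = _
        rw [inner_add_right, inner_smul_right, inner_smul_right, hx, hy, ← add_mul, hst, one_mul]
    intro x hx y hy
    have h1 : inner ℝ Nn (x - y) = 0 := by
      rw [inner_sub_right, hplane hx, hplane hy, sub_self]
    have h2 : κ * ‖nrm T‖ * inner ℝ (un T) (x - y) = -inner ℝ (Nn - κ • nrm T) (x - y) := by
      rw [hun, inner_sub_left, h1]
      ring
    have h3 : |inner ℝ (Nn - κ • nrm T) (x - y)| ≤ κ * (1 / 2) ^ (2 * K + 69) * ‖x - y‖ :=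
      (abs_real_inner_le_norm _ _).trans (mul_le_mul_of_nonneg_right hN (norm_nonneg _))
    have h4 : κ * ‖nrm T‖ * |inner ℝ (un T) (x - y)| ≤ κ * (1 / 2) ^ (2 * K + 69) * ‖x - y‖ := by
      have h5 : κ * ‖nrm T‖ * |inner ℝ (un T) (x - y)| =
          |κ * ‖nrm T‖ * inner ℝ (un T) (x - y)| := by
        rw [abs_mul, abs_of_pos (mul_pos hκ hnpos)]
      rw [h5, h2, abs_neg]
      exact h3
    have h6 : |inner ℝ (un T) (x - y)| ≤ (1 / 2) ^ (2 * K + 69) * ‖x - y‖ := by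
      have h7 : κ * |inner ℝ (un T) (x - y)| ≤ κ * ‖nrm T‖ * |inner ℝ (un T) (x - y)| := by
        have h8 : κ * 1 ≤ κ * ‖nrm T‖ := mul_le_mul_of_nonneg_left hn hκ.le
        rw [mul_one] at h8
        exact mul_le_mul_of_nonneg_right h8 (abs_nonneg _)
      have h9 : κ * |inner ℝ (un T) (x - y)| ≤ κ * ((1 / 2) ^ (2 * K + 69) * ‖x - y‖) := by
        rw [← mul_assoc]
        exact h7.trans h4
      exact le_of_mul_le_mul_left h9 hκ
    refine h6.trans (mul_le_mul_of_nonneg_right ?_ (norm_nonneg _))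
    unfold eta
    exact pow_le_pow_of_le_one (by norm_num) (by norm_num) (by omega)
  · rw [F.im_pr, hB, hA, hC, ← smul_sub, ← smul_sub, crs_smul_f4b, inner_smul_right]
    refine mul_pos (by positivity) ?_
    show 0 < inner ℝ (un T) Nn
    have h1 : κ * ‖nrm T‖ * inner ℝ (un T) Nn = inner ℝ (κ • nrm T) Nn := hun _
    have h2 : inner ℝ (un T) Nn = inner ℝ (un T) (κ • nrm T) + inner ℝ (un T) (Nn - κ • nrm T) := by
      rw [← inner_add_right, add_sub_cancel]
    have h3 : inner ℝ (un T) (κ • nrm T) = κ * ‖nrm T‖ := by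
      unfold un
      rw [inner_smul_left, inner_smul_right, real_inner_self_eq_norm_sq]
      simp only [conj_trivial]
      field_simp
    have h4 : |inner ℝ (un T) (Nn - κ • nrm T)| ≤ 1 * (κ * (1 / 2) ^ (2 * K + 69)) := by
      refine (abs_real_inner_le_norm _ _).trans ?_
      rw [un_norm]
      exact mul_le_mul_of_nonneg_left hN zero_le_one
    have h5 : ((1 : ℝ) / 2) ^ (2 * K + 69) ≤ 1 / 2 := by
      calc ((1 : ℝ) / 2) ^ (2 * K + 69) ≤ (1 / 2) ^ 1 :=
            pow_le_pow_of_le_one (by norm_num) (by norm_num) (by omega)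
        _ = 1 / 2 := by norm_num
    have h6 := (abs_le.1 h4).1
    rw [h2, h3]
    nlinarith

/-- [DG-F4d] `SF` in the mesh -/
theorem face6_sf {d d' : Dx K} (h : M.P.SF d d') : face6 d' = face6 d := by
  have h1 : ∀ d : Dx K, face6 (nx d) = face6 d := by
    intro d
    rcases d with ⟨T, e, i, k⟩ | ⟨T, e, i, k⟩ | ⟨T, e, k⟩ <;> rfl
  rcases h with h | h | h
  · rw [h]
  · rw [h]
    exact h1 d
  · rw [h]
    exact (h1 (nx d)).trans (h1 d)

/-- [DG-F4e] size (positions have norm at most `8 S`) -/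
theorem size (v : Vx K) : ‖M.pos v‖ ≤ 8 * M.S := by
  rw [M.pos_smul, norm_smul, Real.norm_of_nonneg M.Spos.le, mul_comm]
  exact mul_le_mul_of_nonneg_right (u_le_f4b M v) M.Spos.le

theorem size_tri (d : Dx K) (x : E3) (hx : x ∈ M.P.tri d) : ‖x‖ ≤ 8 * M.S := by
  have h1 : M.P.tri d ⊆ Metric.closedBall (0 : E3) (8 * M.S) := by
    unfold Poly.tri
    refine convexHull_min ?_ (convex_closedBall _ _)
    intro y hy
    rw [mem_closedBall_zero_iff]
    simp only [Set.mem_insert_iff, Set.mem_singleton_iff] at hy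
    rcases hy with hy | hy | hy
    · rw [hy]
      exact M.size _
    · rw [hy]
      exact M.size _
    · rw [hy]
      exact M.size _
  exact mem_closedBall_zero_iff.1 (h1 hx)

/-- [DG-F4f] SMALLEST ANGLE. `sin` of every face angle is at least `2^-(K+20)` (area of the face at
least `2^-(K+9)`, sides at most 20), so the angle is at most `π - 2^-(K+20)`. -/
theorem ang_le (d : Dx K) : M.P.ang d ≤ Real.pi - (1 / 2) ^ (K + 20) := by
  obtain ⟨κ, hκ1, -, -, hN⟩ := face_f4b M d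
  have h1 : M.P.ang d = ∠ (M.pos (tl (nx d))) (M.pos (tl d)) (M.pos (tl (nx (nx d)))) := rfl
  rw [h1, M.pos_smul, M.pos_smul, M.pos_smul, EuclideanGeometry.angle]
  have h2 : (M.S : ℝ) • M.u (tl (nx d)) -ᵥ (M.S : ℝ) • M.u (tl d) =
      (M.S : ℝ) • (M.u (tl (nx d)) - M.u (tl d)) := by
    rw [vsub_eq_sub, smul_sub]
  have h3 : (M.S : ℝ) • M.u (tl (nx (nx d))) -ᵥ (M.S : ℝ) • M.u (tl d) =
      (M.S : ℝ) • (M.u (tl (nx (nx d))) - M.u (tl d)) := by
    rw [vsub_eq_sub, smul_sub]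
  rw [h2, h3, InnerProductGeometry.angle_smul_left_of_pos _ _ M.Spos,
    InnerProductGeometry.angle_smul_right_of_pos _ _ M.Spos]
  set v := M.u (tl (nx d)) - M.u (tl d) with hv
  set w := M.u (tl (nx (nx d))) - M.u (tl d) with hw
  have hv16 : ‖v‖ ≤ 16 := by
    have := norm_sub_le (M.u (tl (nx d))) (M.u (tl d))
    have e1 := u_le_f4b M (tl (nx d))
    have e2 := u_le_f4b M (tl d)
    linarith
  have hw16 : ‖w‖ ≤ 16 := by
    have := norm_sub_le (M.u (tl (nx (nx d)))) (M.u (tl d))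
    have e1 := u_le_f4b M (tl (nx (nx d)))
    have e2 := u_le_f4b M (tl d)
    linarith
  have hsin := sin_crs_f4b v w
  have hs0 : 0 ≤ Real.sin (InnerProductGeometry.angle v w) := InnerProductGeometry.sin_angle_nonneg _ _
  have hprod : ‖v‖ * ‖w‖ ≤ 16 * 16 := mul_le_mul hv16 hw16 (norm_nonneg _) (by norm_num)
  have h4 : κ / 2 ≤ Real.sin (InnerProductGeometry.angle v w) * (16 * 16) :=
    hN.trans (hsin.symm.le.trans (mul_le_mul_of_nonneg_left hprod hs0))
  have h5 : Real.sin (InnerProductGeometry.angle v w) ≤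
      Real.pi - InnerProductGeometry.angle v w := by
    rw [← Real.sin_pi_sub]
    exact Real.sin_le (sub_nonneg.2 (InnerProductGeometry.angle_le_pi _ _))
  have h6 : ((1 : ℝ) / 2) ^ (K + 20) = (1 / 2) ^ (K + 8) / 4096 := by
    rw [show K + 20 = (K + 8) + 12 by ring, pow_add]
    norm_num
    ring
  have h7 : (0 : ℝ) < (1 / 2) ^ (K + 8) := by positivity
  rw [h6]
  linarith

end Msh

end

end QGd
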