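import Pool.Agent.Lib_MP_6b5565_dg.F4b

/-! [DG-F5] far half-edges -/

namespace QGd

open EuclideanGeometry ComplexConjugate Vx Dx

noncomputable section

/-- the half-edges in the face `T`, not at the corner `e`, which have this corner on the left -/
inductive Far {K : ℕ} (T : Fin 6) (e : Fin 3) : Dx K → Prop
  | a (i : Fin (K + 1)) : Far T e (L T (e + 2) i 1)
  | b (i : Fin (K + 1)) : Far T e (R T (e + 1) i 1)
  | c : Far T e (E T (e + 2) 1)
  | d : Far T e (E T (e + 1) 2)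
  | f (i : Fin (K + 1)) : Far T e (R T (e + 2) i 0)
  | g (i : Fin (K + 1)) : Far T e (L T (e + 1) i 2)
  | h (i : Fin (K + 1)) : Far T e (L T e i 0)
  | i (i : Fin (K + 1)) : Far T e (R T e i 1)
  | j (i : Fin (K + 1)) : Far T e (R T e i 2)

namespace Msh

variable {K : ℕ} (M : Msh K)

private theorem inner3 (x y : E3) : inner ℝ x y = x 0 * y 0 + x 1 * y 1 + x 2 * y 2 := by
  rw [PiLp.inner_apply, Fin.sum_univ_three]
  simp [mul_comm]

private theorem nsq3 (x : E3) : ‖x‖ ^ 2 = x 0 ^ 2 + x 1 ^ 2 + x 2 ^ 2 := by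
  rw [← real_inner_self_eq_norm_sq, inner3]; ring

private theorem e12 (e : Fin 3) : e + 1 + 2 = e := by revert e; decide
private theorem e11 (e : Fin 3) : e + 1 + 1 = e + 2 := by revert e; decide
private theorem e21 (e : Fin 3) : e + 2 + 1 = e := by revert e; decide
private theorem e22 (e : Fin 3) : e + 2 + 2 = e + 1 := by revert e; decide

private theorem crs0 (a b : E3) : crs a b 0 = a 1 * b 2 - a 2 * b 1 := by simp [crs]
private theorem crs1 (a b : E3) : crs a b 1 = a 2 * b 0 - a 0 * b 2 := by simp [crs]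
private theorem crs2 (a b : E3) : crs a b 2 = a 0 * b 1 - a 1 * b 0 := by simp [crs]

private theorem nrm_cyc (T : Fin 6) (e : Fin 3) :
    nrm T = crs (cor T (e + 1) - cor T e) (cor T (e + 2) - cor T e) := by
  have h : e = 0 ∨ e = 1 ∨ e = 2 := by revert e; decide
  rcases h with rfl | rfl | rfl
  · rfl
  · have h1 : (1 : Fin 3) + 1 = 2 := by decide
    have h2 : (1 : Fin 3) + 2 = 0 := by decide
    rw [h1, h2, nrm]
    ext j
    fin_cases j <;> simp [crs] <;> ring
  · have h1 : (2 : Fin 3) + 1 = 0 := by decide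
    have h2 : (2 : Fin 3) + 2 = 1 := by decide
    rw [h1, h2, nrm]
    ext j
    fin_cases j <;> simp [crs] <;> ring

/-- [DG-F5a] in coordinates (`fp` from the corner `e`, `p = fp T e 1 0 0 0`) -/
theorem inner_fp (T : Fin 6) (e : Fin 3) (a b g h a' b' g' h' : ℝ) (h1 : a + b + g = 1)
    (h2 : a' + b' + g' = 1) :
    inner ℝ (nrm T) (crs (fp T e a' b' g' h' - fp T e a b g h) (cor T e - fp T e a b g h)) =
      ‖nrm T‖ ^ 2 * (b * g' - g * b') := by
  have ha : a = 1 - b - g := by linarith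
  have ha' : a' = 1 - b' - g' := by linarith
  have hn := nrm_cyc T e
  have key : ∀ p q r n : E3, n = crs (q - p) (r - p) →
      inner ℝ n (crs ((a' • p + b' • q + g' • r + h' • n) - (a • p + b • q + g • r + h • n))
        (p - (a • p + b • q + g • r + h • n))) = ‖n‖ ^ 2 * (b * g' - g * b') := by
    intro p q r n hn
    have n0 : n 0 = (q 1 - p 1) * (r 2 - p 2) - (q 2 - p 2) * (r 1 - p 1) := by
      rw [hn, crs0]; simp
    have n1 : n 1 = (q 2 - p 2) * (r 0 - p 0) - (q 0 - p 0) * (r 2 - p 2) := by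
      rw [hn, crs1]; simp
    have n2 : n 2 = (q 0 - p 0) * (r 1 - p 1) - (q 1 - p 1) * (r 0 - p 0) := by
      rw [hn, crs2]; simp
    rw [inner3, nsq3, crs0, crs1, crs2]
    simp only [PiLp.sub_apply, PiLp.add_apply, PiLp.smul_apply, smul_eq_mul]
    subst ha ha'
    rw [n0, n1, n2]
    ring
  exact key _ _ _ _ hn

private theorem bpt_norm (v : Fin 5) : ‖bpt v‖ ≤ 13 / 2 := by
  have h : ‖bpt v‖ ^ 2 ≤ 42 := by
    rw [nsq3]
    fin_cases v <;> simp [bpt, pt, BV] <;> norm_num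
  nlinarith [norm_nonneg (bpt v)]

private theorem nrm_sq (T : Fin 6) : 1 ≤ ‖nrm T‖ ^ 2 ∧ ‖nrm T‖ ^ 2 ≤ 1600 := by
  have h0 := crs0 (cor T 1 - cor T 0) (cor T 2 - cor T 0)
  have h1 := crs1 (cor T 1 - cor T 0) (cor T 2 - cor T 0)
  have h2 := crs2 (cor T 1 - cor T 0) (cor T 2 - cor T 0)
  rw [nsq3, nrm, h0, h1, h2]
  fin_cases T <;> simp [cor, CT, bpt, pt, BV] <;> norm_num

private theorem one_le_nrm (T : Fin 6) : 1 ≤ ‖nrm T‖ := by
  nlinarith [norm_nonneg (nrm T), (nrm_sq T).1]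

private theorem nrm_le (T : Fin 6) : ‖nrm T‖ ≤ 40 := by
  nlinarith [norm_nonneg (nrm T), (nrm_sq T).2]

private theorem eps_pos : 0 < eps K := by unfold eps; positivity

private theorem eps_le : eps K ≤ 1 / 1000 := by
  unfold eps
  calc (1 / 2 : ℝ) ^ (2 * K + 100) ≤ (1 / 2) ^ 100 :=
        pow_le_pow_of_le_one (by norm_num) (by norm_num) (by omega)
    _ ≤ 1 / 1000 := by norm_num

private theorem hgt_bd {s : ℝ} (h0 : 0 ≤ s) (h1 : s ≤ 1) : 0 ≤ hgt K s ∧ hgt K s ≤ 1 / 500 := by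
  have hp := eps_pos (K := K)
  have hl := eps_le (K := K)
  have h2 : 0 ≤ s * (1 - s) := mul_nonneg h0 (by linarith)
  have h3 : s * (1 - s) ≤ 1 := by nlinarith
  unfold hgt
  constructor
  · have h4 : 0 ≤ eps K * (1 - s) := mul_nonneg hp.le (by linarith)
    have h5 : 0 ≤ eps K ^ 2 * (s * (1 - s)) := mul_nonneg (sq_nonneg _) h2
    linarith
  · have h4 : eps K * (1 - s) ≤ 1 / 1000 := by nlinarith
    have h5 : eps K ^ 2 ≤ 1 / 1000 := by nlinarith
    have h6 : eps K ^ 2 * (s * (1 - s)) ≤ 1 / 1000 := by nlinarith [sq_nonneg (eps K)]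
    linarith

private theorem sj_bd {j : ℕ} (h : j ≤ K + 2) : 0 ≤ sj K j ∧ sj K j ≤ 1 := by
  unfold sj
  have hj : (j : ℝ) ≤ (K : ℝ) + 2 := by exact_mod_cast h
  constructor
  · positivity
  · rw [div_le_one (by positivity)]; exact hj

private theorem idl_zero (T : Fin 6) (e : Fin 3) : idl K T 0 0 = idl K T e 0 := by
  have h : e = 0 ∨ e = 1 ∨ e = 2 := by revert e; decide
  rcases h with rfl | rfl | rfl
  · rfl
  · have h1 : (1 : Fin 3) + 1 = 2 := by decide
    have h2 : (1 : Fin 3) + 2 = 0 := by decide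
    simp only [idl, zero_add, h1, h2]
    norm_num
    abel
  · have h1 : (2 : Fin 3) + 1 = 0 := by decide
    have h2 : (2 : Fin 3) + 2 = 1 := by decide
    simp only [idl, zero_add, h1, h2]
    norm_num
    abel

private theorem idl_norm (T : Fin 6) (e : Fin 3) {s : ℝ} (h0 : 0 ≤ s) (h1 : s ≤ 1) :
    ‖idl K T e s‖ ≤ 7 := by
  have hh := hgt_bd (K := K) h0 h1
  have c : ∀ e, ‖cor T e‖ ≤ 13 / 2 := fun e => bpt_norm _
  unfold idl
  have k1 : ‖((1 - s) / 3) • cor T e‖ ≤ (1 - s) / 3 * (13 / 2) := by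
    rw [norm_smul, Real.norm_eq_abs, abs_of_nonneg (by linarith)]
    exact mul_le_mul_of_nonneg_left (c _) (by linarith)
  have k2 : ‖((5 + s) / 15) • cor T (e + 1)‖ ≤ (5 + s) / 15 * (13 / 2) := by
    rw [norm_smul, Real.norm_eq_abs, abs_of_nonneg (by linarith)]
    exact mul_le_mul_of_nonneg_left (c _) (by linarith)
  have k3 : ‖((5 + 4 * s) / 15) • cor T (e + 2)‖ ≤ (5 + 4 * s) / 15 * (13 / 2) := by
    rw [norm_smul, Real.norm_eq_abs, abs_of_nonneg (by linarith)]
    exact mul_le_mul_of_nonneg_left (c _) (by linarith)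
  have k4 : ‖hgt K s • nrm T‖ ≤ 1 / 500 * 40 := by
    rw [norm_smul, Real.norm_eq_abs, abs_of_nonneg hh.1]
    exact mul_le_mul hh.2 (nrm_le T) (norm_nonneg _) (by norm_num)
  refine le_trans (norm_add_le _ _) ?_
  refine le_trans (add_le_add (le_trans (norm_add_le _ _) (add_le_add (norm_add_le _ _)
    (le_refl _))) (le_refl _)) ?_
  linarith

/-- auxiliary (used in F5b): size of the ideal positions -/
theorem ideal_norm_F5 (v : Vx K) : ‖ideal K v‖ ≤ 7 := by
  cases v with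
  | base v => exact le_trans (bpt_norm v) (by norm_num)
  | ctr T => exact idl_norm T 0 (le_refl _) zero_le_one
  | leg T e i =>
    have h := sj_bd (K := K) (j := (i : ℕ) + 1) (by have := i.2; omega)
    exact idl_norm T e h.1 h.2

private theorem ideal_leg (T : Fin 6) (e : Fin 3) (i : Fin (K + 1)) :
    ideal K (leg T e i) = idl K T e (sj K (i + 1)) := rfl

private theorem ideal_pre (T : Fin 6) (e : Fin 3) (i : Fin (K + 1)) :
    ideal K (pre T e i) = idl K T e (sj K i) := by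
  unfold pre
  split_ifs with h
  · subst h
    have : sj K ((0 : Fin (K + 1)) : ℕ) = 0 := by simp [sj]
    rw [this]
    exact idl_zero T e
  · rw [ideal_leg]
    congr 2
    have hi : ((i - 1 : Fin (K + 1)) : ℕ) = (i : ℕ) - 1 := Fin.val_sub_one_of_ne_zero h
    rw [hi]
    have : 0 < (i : ℕ) := by
      rcases Nat.eq_zero_or_pos (i : ℕ) with h0 | h0
      · exact absurd (Fin.ext h0) h
      · exact h0
    omega

private theorem idl0 (T : Fin 6) (e : Fin 3) (s : ℝ) :
    idl K T e s = fp T e ((1 - s) / 3) ((5 + s) / 15) ((5 + 4 * s) / 15) (hgt K s) := rfl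

private theorem idl1 (T : Fin 6) (e : Fin 3) (s : ℝ) :
    idl K T (e + 1) s = fp T e ((5 + 4 * s) / 15) ((1 - s) / 3) ((5 + s) / 15) (hgt K s) := by
  simp only [idl, fp, e11, e12]
  abel

private theorem idl2 (T : Fin 6) (e : Fin 3) (s : ℝ) :
    idl K T (e + 2) s = fp T e ((5 + s) / 15) ((5 + 4 * s) / 15) ((1 - s) / 3) (hgt K s) := by
  simp only [idl, fp, e21, e22]
  abel

private theorem b1 (T : Fin 6) (e : Fin 3) : bpt (CT T (e + 1)) = fp T e 0 1 0 0 := by
  simp [fp, cor]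

private theorem b2 (T : Fin 6) (e : Fin 3) : bpt (CT T (e + 2)) = fp T e 0 0 1 0 := by
  simp [fp, cor]

private theorem sj_succ (j : ℕ) : sj K (j + 1) = sj K j + 1 / ((K : ℝ) + 2) := by
  unfold sj; push_cast; ring

private theorem mkc {X X' : E3} {T : Fin 6} {e : Fin 3} {c a b g h a' b' g' h' : ℝ}
    (h3 : X = fp T e a b g h) (h4 : X' = fp T e a' b' g' h') (h1 : a + b + g = 1)
    (h2 : a' + b' + g' = 1) (h5 : c ≤ b * g' - g * b') :
    ∃ a b g h a' b' g' h' : ℝ, a + b + g = 1 ∧ a' + b' + g' = 1 ∧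
      X = fp T e a b g h ∧ X' = fp T e a' b' g' h' ∧ c ≤ b * g' - g * b' :=
  ⟨a, b, g, h, a', b', g', h', h1, h2, h3, h4, h5⟩

/-- auxiliary (used in F5b): the coordinates of the end points of a far half-edge -/
theorem far_coords_F5 {T : Fin 6} {e : Fin 3} {d : Dx K} (hd : Far T e d) :
    ∃ a b g h a' b' g' h' : ℝ, a + b + g = 1 ∧ a' + b' + g' = 1 ∧
      ideal K (tl d) = fp T e a b g h ∧ ideal K (tl (nx d)) = fp T e a' b' g' h' ∧
      1 / (15 * ((K : ℝ) + 2)) ≤ b * g' - g * b' := by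
  have hK : (0 : ℝ) < (K : ℝ) + 2 := by positivity
  have hw : 1 / (15 * ((K : ℝ) + 2)) = 1 / ((K : ℝ) + 2) / 15 := by
    rw [one_div, one_div, mul_inv]; ring
  have hp : 0 < 1 / ((K : ℝ) + 2) := by positivity
  have hle : 1 / ((K : ℝ) + 2) ≤ 1 := by
    rw [div_le_one hK]; linarith [Nat.cast_nonneg (α := ℝ) K]
  rw [hw]
  have hlast : ∀ j : ℕ, j ≤ K + 1 → sj K j ≤ 1 - 1 / ((K : ℝ) + 2) := by
    intro j hj
    have := (sj_bd (K := K) (j := j + 1) (by omega)).2
    rw [sj_succ] at this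
    linarith
  cases hd with
  | a i =>
    exact mkc ((ideal_leg T (e + 2) i).trans (idl2 _ _ _)) ((ideal_pre T (e + 2) i).trans (idl2 _ _ _))
      (by ring) (by ring) (by rw [sj_succ]; nlinarith)
  | b i =>
    exact mkc ((ideal_pre T (e + 1) i).trans (idl1 _ _ _)) ((ideal_leg T (e + 1) i).trans (idl1 _ _ _))
      (by ring) (by ring) (by rw [sj_succ]; nlinarith)
  | c =>
    have h1 : ideal K (tl (E T (e + 2) 1)) = fp T e 0 1 0 0 := by
      show bpt (CT T (e + 2 + 2)) = _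
      rw [e22, b1]
    refine mkc h1 ((ideal_leg T (e + 2) (Fin.last K)).trans (idl2 _ _ _))
      (by ring) (by ring) ?_
    have := hlast _ (le_refl (K + 1))
    simp only [Fin.val_last]
    linarith
  | d =>
    have h1 : ideal K (tl (nx (E T (e + 1) 2))) = fp T e 0 0 1 0 := by
      show bpt (CT T (e + 1 + 1)) = _
      rw [e11, b2]
    refine mkc ((ideal_leg T (e + 1) (Fin.last K)).trans (idl1 _ _ _)) h1
      (by ring) (by ring) ?_
    have := hlast _ (le_refl (K + 1))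
    simp only [Fin.val_last]
    linarith
  | f i =>
    have h1 : ideal K (tl (R T (e + 2) i 0)) = fp T e 0 1 0 0 := by
      show bpt (CT T (e + 2 + 2)) = _
      rw [e22, b1]
    refine mkc h1 ((ideal_pre T (e + 2) i).trans (idl2 _ _ _)) (by ring) (by ring) ?_
    have := hlast i (by have := i.2; omega)
    linarith
  | g i =>
    have h1 : ideal K (tl (nx (L T (e + 1) i 2))) = fp T e 0 0 1 0 := by
      show bpt (CT T (e + 1 + 1)) = _
      rw [e11, b2]
    refine mkc ((ideal_pre T (e + 1) i).trans (idl1 _ _ _)) h1 (by ring) (by ring) ?_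
    have := hlast i (by have := i.2; omega)
    linarith
  | h i =>
    have h1 : ideal K (tl (L T e i 0)) = fp T e 0 1 0 0 := by
      show bpt (CT T (e + 1)) = _
      rw [b1]
    refine mkc h1 ((ideal_leg T e i).trans (idl0 _ _ _)) (by ring) (by ring) ?_
    have := (sj_bd (K := K) (j := (i : ℕ) + 1) (by have := i.2; omega)).1
    linarith
  | i i =>
    exact mkc ((ideal_pre T e i).trans (idl0 _ _ _)) ((ideal_leg T e i).trans (idl0 _ _ _))
      (by ring) (by ring) (by rw [sj_succ]; nlinarith)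
  | j i =>
    have h1 : ideal K (tl (nx (R T e i 2))) = fp T e 0 0 1 0 := by
      show bpt (CT T (e + 2)) = _
      rw [b2]
    refine mkc ((ideal_leg T e i).trans (idl0 _ _ _)) h1 (by ring) (by ring) ?_
    have := (sj_bd (K := K) (j := (i : ℕ) + 1) (by have := i.2; omega)).1
    linarith

/-- auxiliary (used in F5b) -/
theorem far_value_F5 {T : Fin 6} {e : Fin 3} {d : Dx K} (hd : Far T e d) :
    1 / (15 * ((K : ℝ) + 2)) ≤
      inner ℝ (un T) (crs (ideal K (tl (nx d)) - ideal K (tl d)) (cor T e - ideal K (tl d))) := by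
  obtain ⟨a, b, g, h, a', b', g', h', h1, h2, h3, h4, h5⟩ := far_coords_F5 hd
  rw [h3, h4, un, real_inner_smul_left, inner_fp T e a b g h a' b' g' h' h1 h2]
  have hn := one_le_nrm T
  have e : 1 / ‖nrm T‖ * (‖nrm T‖ ^ 2 * (b * g' - g * b')) = ‖nrm T‖ * (b * g' - g * b') := by
    field_simp
  rw [e]
  have : 0 < 1 / (15 * ((K : ℝ) + 2)) := by positivity
  nlinarith

/-- [DG-F5b] FAR (ideal): `p = cor T e` is on the left of the far half-edge `d`. Values of
`b g' - g b'` (`s = sj K i`, `s' = sj K (i+1)`): `a`: `(s'-s)/5`, `b`: `2(s'-s)/15`, `c`, `d`: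
`1/(3(K+2))`, `f`, `g`: `(1-s)/3`, `h`: `(5+4s')/15`, `i`: `(s'-s)/15`, `j`: `(5+s')/15`. -/
theorem far_ideal {T : Fin 6} {e : Fin 3} {d : Dx K} (hd : Far T e d) :
    (1 / 2) ^ (K + 11) * ‖ideal K (tl (nx d)) - ideal K (tl d)‖ ≤
      inner ℝ (un T) (crs (ideal K (tl (nx d)) - ideal K (tl d)) (cor T e - ideal K (tl d))) := by
  refine le_trans ?_ (far_value_F5 hd)
  have h1 : ‖ideal K (tl (nx d)) - ideal K (tl d)‖ ≤ 14 := by
    refine le_trans (norm_sub_le _ _) ?_
    linarith [ideal_norm_F5 (tl (nx d)), ideal_norm_F5 (tl d)]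
  have h2 : (1 / 2 : ℝ) ^ (K + 11) * ‖ideal K (tl (nx d)) - ideal K (tl d)‖ ≤
      (1 / 2) ^ (K + 11) * 14 := mul_le_mul_of_nonneg_left h1 (by positivity)
  refine le_trans h2 ?_
  have hK : ((K : ℝ) + 1) ≤ 2 ^ K := by exact_mod_cast Nat.lt_two_pow_self (n := K)
  have h2K : (0 : ℝ) < 2 ^ K := by positivity
  have h3 : (1 / 2 : ℝ) ^ (K + 11) = 1 / (2 ^ K * 2048) := by
    rw [one_div, inv_pow, pow_add]; norm_num
  rw [h3, div_mul_eq_mul_div, div_le_div_iff₀ (by positivity) (by positivity)]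
  have : (1 : ℝ) ≤ 2 ^ K := one_le_pow₀ (by norm_num)
  nlinarith

end Msh

end

end QGd
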