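import Pool.Agent.Lib_MP_6b5565_dg.F5

/-! [DG-F5b] far half-edges -/

namespace QGd

open EuclideanGeometry ComplexConjugate Vx Dx

noncomputable section

namespace Msh

variable {K : ℕ} (M : Msh K)

private theorem inner3 (x y : E3) : inner ℝ x y = x 0 * y 0 + x 1 * y 1 + x 2 * y 2 := by
  rw [PiLp.inner_apply, Fin.sum_univ_three]
  simp [mul_comm]

private theorem nsq3 (x : E3) : ‖x‖ ^ 2 = x 0 ^ 2 + x 1 ^ 2 + x 2 ^ 2 := by
  rw [← real_inner_self_eq_norm_sq, inner3]; ring

private theorem crs0 (a b : E3) : crs a b 0 = a 1 * b 2 - a 2 * b 1 := by simp [crs]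
private theorem crs1 (a b : E3) : crs a b 1 = a 2 * b 0 - a 0 * b 2 := by simp [crs]
private theorem crs2 (a b : E3) : crs a b 2 = a 0 * b 1 - a 1 * b 0 := by simp [crs]

private theorem crs_norm (a b : E3) : ‖crs a b‖ ≤ ‖a‖ * ‖b‖ := by
  have h : ‖crs a b‖ ^ 2 + (inner ℝ a b) ^ 2 = (‖a‖ * ‖b‖) ^ 2 := by
    rw [mul_pow, nsq3, nsq3 a, nsq3 b, inner3, crs0, crs1, crs2]; ring
  have h1 : ‖crs a b‖ ^ 2 ≤ (‖a‖ * ‖b‖) ^ 2 := by nlinarith [sq_nonneg (inner ℝ a b)]
  exact le_of_sq_le_sq h1 (by positivity)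

private theorem crs_smul (s t : ℝ) (a b : E3) : crs (s • a) (t • b) = (s * t) • crs a b := by
  ext j
  fin_cases j <;> simp [crs] <;> ring

private theorem crs_sub_crs (a b a' b' : E3) :
    crs a b - crs a' b' = crs (a - a') b + crs a' (b - b') := by
  ext j
  fin_cases j <;> simp [crs] <;> ring

private theorem inner_un (T : Fin 6) (x : E3) : inner ℝ (un T) x ≤ ‖x‖ := by
  refine le_trans (real_inner_le_norm _ _) ?_
  rw [un_norm, one_mul]

private theorem del_le : del K ≤ (1 / 2) ^ K / 10000 := by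
  unfold del
  calc (1 / 2 : ℝ) ^ (16 * K + 1000) ≤ (1 / 2) ^ (K + 20) :=
        pow_le_pow_of_le_one (by norm_num) (by norm_num) (by omega)
    _ = (1 / 2) ^ K / 1048576 := by rw [pow_add]; norm_num; ring
    _ ≤ (1 / 2) ^ K / 10000 := by
        have : (0 : ℝ) < (1 / 2) ^ K := by positivity
        linarith

private theorem val_le : (1 / 2 : ℝ) ^ K / 30 ≤ 1 / (15 * ((K : ℝ) + 2)) := by
  have hK : ((K : ℝ) + 1) ≤ 2 ^ K := by exact_mod_cast Nat.lt_two_pow_self (n := K)
  have h2K : (1 : ℝ) ≤ 2 ^ K := one_le_pow₀ (by norm_num)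
  rw [one_div, inv_pow, div_le_div_iff₀ (by norm_num) (by positivity), ← one_div,
    div_mul_eq_mul_div, div_le_iff₀ (by positivity)]
  nlinarith

private theorem del_pos : 0 < del K := by unfold del; positivity

/-- [DG-F5c] FAR, projected -/
theorem far {T : Fin 6} {e : Fin 3} (F : Fr (un T)) {d : Dx K} (hd : Far T e d) :
    (1 / 2) ^ (K + 12) * M.S * ‖F.pr (M.P.B d - M.P.A d)‖ ≤
      (conj (F.pr (M.P.B d - M.P.A d)) * (F.pr (M.pos (base (CT T e))) - F.pr (M.P.A d))).im := by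
  have hA : M.P.A d = M.pos (tl d) := rfl
  have hB : M.P.B d = M.pos (tl (nx d)) := by
    show M.P.pos (tl (iv d)) = _
    rw [tl_iv]; rfl
  rw [hA, hB, ← map_sub, F.im_pr, M.pos_smul (tl d), M.pos_smul (tl (nx d)),
    M.pos_smul (base (CT T e)), M.u_base, ← smul_sub, ← smul_sub, crs_smul, inner_smul_right,
    map_smul, norm_smul, Real.norm_eq_abs, abs_of_pos M.Spos]
  have hS := M.Spos
  set u := M.u (tl d) with hu
  set u' := M.u (tl (nx d)) with hu'
  have hkey : (1 / 2 : ℝ) ^ (K + 12) * ‖u' - u‖ ≤ inner ℝ (un T) (crs (u' - u) (bpt (CT T e) - u)) := by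
    have hv := far_value_F5 (K := K) hd
    have hc : cor T e = bpt (CT T e) := rfl
    rw [hc] at hv
    set i := ideal K (tl d) with hi
    set i' := ideal K (tl (nx d)) with hi'
    set p := bpt (CT T e) with hp
    have d1 : ‖u - i‖ ≤ del K := M.u_close _
    have d2 : ‖u' - i'‖ ≤ del K := M.u_close _
    have n1 : ‖i‖ ≤ 7 := ideal_norm_F5 _
    have n2 : ‖i'‖ ≤ 7 := ideal_norm_F5 _
    have n3 : ‖p‖ ≤ 7 := by
      have := ideal_norm_F5 (K := K) (base (CT T e))
      exact this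
    have hd0 := del_pos (K := K)
    have hd1 := del_le (K := K)
    have hv1 := val_le (K := K)
    have hq : (0 : ℝ) < (1 / 2) ^ K := by positivity
    have hq1 : (1 / 2 : ℝ) ^ K ≤ 1 := pow_le_one₀ (by norm_num) (by norm_num)
    have n4 : ‖u‖ ≤ 8 := by
      have : u = i + (u - i) := by abel
      rw [this]
      refine le_trans (norm_add_le _ _) ?_
      linarith
    have n5 : ‖u'‖ ≤ 8 := by
      have : u' = i' + (u' - i') := by abel
      rw [this]
      refine le_trans (norm_add_le _ _) ?_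
      linarith
    have n6 : ‖u' - u‖ ≤ 16 := by
      refine le_trans (norm_sub_le _ _) ?_
      linarith
    have e1 : crs (i' - i) (p - i) - crs (u' - u) (p - u) =
        crs ((i' - u') + (u - i)) (p - i) + crs (u' - u) (u - i) := by
      rw [crs_sub_crs]
      congr 2
      · abel
      · abel
    have e2 : ‖crs (i' - i) (p - i) - crs (u' - u) (p - u)‖ ≤ 44 * del K := by
      rw [e1]
      refine le_trans (norm_add_le _ _) ?_
      have a1 : ‖crs ((i' - u') + (u - i)) (p - i)‖ ≤ (2 * del K) * 14 := by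
        refine le_trans (crs_norm _ _) (mul_le_mul ?_ ?_ (norm_nonneg _) (by linarith))
        · refine le_trans (norm_add_le _ _) ?_
          rw [norm_sub_rev i' u']
          linarith
        · refine le_trans (norm_sub_le _ _) ?_
          linarith
      have a2 : ‖crs (u' - u) (u - i)‖ ≤ 16 * del K :=
        le_trans (crs_norm _ _) (mul_le_mul n6 d1 (norm_nonneg _) (by norm_num))
      linarith
    have e3 := inner_un T (crs (i' - i) (p - i) - crs (u' - u) (p - u))
    rw [inner_sub_right] at e3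
    have e4 : (1 / 2 : ℝ) ^ (K + 12) * ‖u' - u‖ ≤ (1 / 2) ^ K / 256 := by
      rw [pow_add]
      have : (1 / 2 : ℝ) ^ 12 = 1 / 4096 := by norm_num
      rw [this]
      nlinarith
    linarith
  have h1 : ‖F.pr (u' - u)‖ ≤ ‖u' - u‖ := F.norm_le _
  have h2 : (1 / 2 : ℝ) ^ (K + 12) * ‖F.pr (u' - u)‖ ≤
      inner ℝ (un T) (crs (u' - u) (bpt (CT T e) - u)) :=
    le_trans (mul_le_mul_of_nonneg_left h1 (by positivity)) hkey
  calc (1 / 2 : ℝ) ^ (K + 12) * (M.S : ℝ) * ((M.S : ℝ) * ‖F.pr (u' - u)‖)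
      = ((M.S : ℝ) * M.S) * ((1 / 2 : ℝ) ^ (K + 12) * ‖F.pr (u' - u)‖) := by ring
    _ ≤ _ := mul_le_mul_of_nonneg_left h2 (by positivity)

theorem edge_ne {T : Fin 6} (F : Fr (un T)) {d : Dx K} (hd : face6 d = T) :
    F.pr (M.P.B d - M.P.A d) ≠ 0 := by
  intro h
  have := (M.flat F hd).pos
  rw [h] at this
  simp at this

end Msh

end

end QGd
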