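import Pool.Agent.Lib_MP_6b5565_dg.B1

/-! # Projection to a plane, in complex coordinates -/

namespace QGd

open EuclideanGeometry ComplexConjugate

noncomputable section

/-- an oriented orthonormal frame of the plane orthogonal to the unit vector `n`, as a projection
to `ℂ` -/
structure Fr (n : E3) where
  pr : E3 →ₗ[ℝ] ℂ
  re_pr : ∀ u v, (conj (pr u) * pr v).re = inner ℝ u v - inner ℝ n u * inner ℝ n v
  im_pr : ∀ u v, (conj (pr u) * pr v).im = inner ℝ n (crs u v)

/-- unit direction from `x` to `y`, projected -/
def Fr.dir {n : E3} (F : Fr n) (x y : E3) : ℂ := F.pr ((1 / ‖y - x‖) • (y - x))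

end

end QGd
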