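import Pool.Agent.Lib_MP_6b5565_dg.Defs
import Pool.Agent.Lib_MP_6b5565_dg.Q.Tri
import Pool.Agent.Lib_MP_6b5565_dg.Q.A4e
import Pool.Agent.Lib_MP_6b5565_dg.Q.D1b

/-! [DG-G1] elementary facts on simple closed quasigeodesics -/

namespace QGd

open EuclideanGeometry

noncomputable section

namespace SCQ

variable {P : Poly} {N : ℕ} [NeZero N] (γ : SCQ P N)

/-- [DG-G1a] consecutive nodes are different (`simple` with `i = j`, `s ≠ t`) -/
theorem ne (i : ZMod N) : γ.x i ≠ γ.x (i + 1) := by
  intro h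
  have h0 := γ.simple i i 0 (1 / 2) le_rfl (by norm_num) (by norm_num) (by norm_num)
    (by rw [← h, AffineMap.lineMap_same, AffineMap.const_apply, AffineMap.const_apply])
  have h1 := h0.2
  norm_num at h1

/-- [DG-G1b] (`simple` with `s = t = 0`) -/
theorem inj : Function.Injective γ.x := by
  intro i j h
  exact (γ.simple i j 0 0 le_rfl zero_lt_one le_rfl zero_lt_one
    (by rw [AffineMap.lineMap_apply_zero, AffineMap.lineMap_apply_zero, h])).1

include γ in
/-- [DG-G1c] `N = 1` contradicts `ne`; for `N = 2` the two segments share their midpoints. -/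
theorem three_le : 3 ≤ N := by
  by_contra hN
  have hN0 : N ≠ 0 := NeZero.ne N
  have hcases : N = 1 ∨ N = 2 := by omega
  rcases hcases with h | h
  · subst h
    exact γ.ne 0 (congrArg γ.x (Subsingleton.elim _ _))
  · subst h
    have e : (0 + 1 + 1 : ZMod 2) = 0 := by decide
    have h0 := γ.simple 0 (0 + 1) (1 / 2) (1 / 2) (by norm_num) (by norm_num) (by norm_num)
      (by norm_num) (by
        rw [e, ← AffineMap.lineMap_apply_one_sub (γ.x 0) (γ.x (0 + 1))]
        norm_num)
    exact absurd h0.1 (by decide)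

/-- [DG-G1d] two closed segments with different indices meet only in a common end node -/
theorem seg_meet {i j : ZMod N} (hij : i ≠ j) {p : E3} (h1 : p ∈ segment ℝ (γ.x i) (γ.x (i + 1)))
    (h2 : p ∈ segment ℝ (γ.x j) (γ.x (j + 1))) :
    (j = i + 1 ∧ p = γ.x j) ∨ (i = j + 1 ∧ p = γ.x i) := by
  rw [segment_eq_image_lineMap] at h1 h2
  obtain ⟨s, ⟨hs0, hs1⟩, hs⟩ := h1
  obtain ⟨t, ⟨ht0, ht1⟩, ht⟩ := h2
  rcases hs1.lt_or_eq with hs1 | hs1 <;> rcases ht1.lt_or_eq with ht1 | ht1
  · exact absurd (γ.simple i j s t hs0 hs1 ht0 ht1 (hs.trans ht.symm)).1 hij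
  · subst ht1
    rw [AffineMap.lineMap_apply_one] at ht
    have h := γ.simple i (j + 1) s 0 hs0 hs1 le_rfl zero_lt_one
      (by rw [AffineMap.lineMap_apply_zero, ht, hs])
    right
    refine ⟨h.1, ?_⟩
    rw [h.1, ht]
  · subst hs1
    rw [AffineMap.lineMap_apply_one] at hs
    have h := γ.simple (i + 1) j 0 t le_rfl zero_lt_one ht0 ht1
      (by rw [AffineMap.lineMap_apply_zero, hs, ht])
    left
    refine ⟨h.1.symm, ?_⟩
    rw [← h.1, hs]
  · subst hs1 ht1
    rw [AffineMap.lineMap_apply_one] at hs ht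
    exact absurd (add_right_cancel (γ.inj (hs.trans ht.symm))) hij

end SCQ

end

end QGd
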