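import Pool.Agent.Lib_MP_6b5565_dg.G1b
import Pool.Agent.Lib_MP_6b5565_dg.Q.H6

/-! [DG-G2] Gauss-Bonnet for simple closed quasigeodesics -/

namespace QGd

open EuclideanGeometry

noncomputable section

/-- `g` is a face containing the segment from `p` to `q`, and if the segment is an edge, `g` is the
face on the left of it -/
def Poly.LeftFace (P : Poly) (p q : E3) (g : P.D) : Prop :=
  p ∈ P.tri g ∧ q ∈ P.tri g ∧ ∀ e, P.SF g e → p ∈ P.seg e → q ∈ P.seg e → p = P.A e ∧ q = P.B e

/-- [DG-G2a] a segment with both ends on one edge is this edge (a crossing node of the edge would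
contradict `∉ seg` in `CrossAt`), so there is a left face -/
theorem SCQ.exists_left {P : Poly} {N : ℕ} [NeZero N] (γ : SCQ P N) (i : ZMod N) :
    ∃ g, P.LeftFace (γ.x i) (γ.x (i + 1)) g := by
  classical
  by_cases hex : ∃ e, P.SF (γ.f i) e ∧ γ.x i ∈ P.seg e ∧ γ.x (i + 1) ∈ P.seg e
  · obtain ⟨e, -, hp, hq⟩ := hex
    have hne := γ.ne i
    -- both nodes are vertices
    have hv : ∃ v, γ.x i = P.pos v := by
      rcases γ.node i with ⟨d, hd⟩ | ⟨v, hv⟩
      · exfalso
        obtain ⟨h1, -, -, -, h5, -, -⟩ := hd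
        rcases P.edge_unique h1 hp with h | h
        · rw [h] at hq
          exact h5 hq
        · rw [h, P.seg_inv] at hq
          exact h5 hq
      · obtain ⟨α, h1, -⟩ := hv
        exact ⟨v, h1⟩
    have hw : ∃ w, γ.x (i + 1) = P.pos w := by
      have hn := γ.node (i + 1)
      rw [add_sub_cancel_right] at hn
      rcases hn with ⟨d, hd⟩ | ⟨v, hv⟩
      · exfalso
        obtain ⟨h1, -, -, h4, -, -, -⟩ := hd
        rcases P.edge_unique h1 hq with h | h
        · rw [h] at hp
          exact h4 hp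
        · rw [h, P.seg_inv] at hp
          exact h4 hp
      · obtain ⟨α, h1, -⟩ := hv
        exact ⟨v, h1⟩
    obtain ⟨v, hv⟩ := hv
    obtain ⟨w, hw⟩ := hw
    rw [hv, hw] at hne
    rw [hv] at hp
    rw [hw] at hq
    rw [hv, hw]
    have hvw : v ≠ w := fun h => hne (by rw [h])
    -- the half-edge from `v` to `w`
    have h0 : ∃ e0, P.tail e0 = v ∧ P.head e0 = w := by
      rcases P.eq_of_pos_mem_seg hp with h1 | h1 <;> rcases P.eq_of_pos_mem_seg hq with h2 | h2
      · exact absurd (h1.trans h2.symm) hvw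
      · exact ⟨e, h1.symm, h2.symm⟩
      · refine ⟨P.inv e, h1.symm, ?_⟩
        rw [P.tail_eq_head_inv]
        exact h2.symm
      · exact absurd (h1.trans h2.symm) hvw
    obtain ⟨e0, ht, hh⟩ := h0
    refine ⟨e0, ?_, ?_, ?_⟩
    · apply P.seg_sub_tri e0
      rw [← ht]
      exact left_mem_segment ℝ _ _
    · apply P.seg_sub_tri e0
      rw [← hh]
      exact right_mem_segment ℝ _ _
    · intro e' hs h1 h2
      rcases P.eq_of_pos_mem_seg h1 with h3 | h3 <;> rcases P.eq_of_pos_mem_seg h2 with h4 | h4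
      · exact absurd (h3.trans h4.symm) hvw
      · exact ⟨by rw [h3]; rfl, by rw [h4]; rfl⟩
      · exfalso
        have h5 : P.inv e' = e0 := by
          apply P.edge_inj
          · exact h3.symm.trans ht.symm
          · rw [P.inv_inv]
            exact h4.symm.trans hh.symm
        rw [← h5] at hs
        exact P.not_SF_inv e' (P.SF_symm hs)
      · exact absurd (h3.trans h4.symm) hvw
  · refine ⟨γ.f i, (γ.mem i).1, (γ.mem i).2, ?_⟩
    intro e h1 h2 h3
    exact absurd ⟨e, h1, h2, h3⟩ hex

end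

end QGd
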