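import Pool.Agent.Lib_MP_6b5565_dg.G2

/-! [DG-G2b] Gauss-Bonnet for simple closed quasigeodesics -/

namespace QGd

open EuclideanGeometry

noncomputable section

namespace Poly

variable (P : Poly)

private theorem G2b_tail_rot (a : P.D) (k : ℕ) : P.tail (P.rot^[k] a) = P.tail a := by
  induction k with
  | zero => rfl
  | succ k ih => rw [Function.iterate_succ_apply', P.tail_rot, ih]

private theorem G2b_tail_cw (a : P.D) (k : ℕ) : P.tail (P.cw^[k] a) = P.tail a := by
  induction k with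
  | zero => rfl
  | succ k ih => rw [Function.iterate_succ_apply', P.tail_cw, ih]

private theorem G2b_tot {v : P.V} {a : P.D} (ha : P.tail a = v) :
    P.tot v = ∑ j ∈ Finset.range (P.deg v), P.ang (P.rot^[j] a) := by
  subst ha
  have h1 : Finset.univ.filter (fun d => P.tail d = P.tail a)
      = (Finset.range (P.deg (P.tail a))).image (fun k => P.rot^[k] a) := by
    ext d
    simp only [Finset.mem_filter, Finset.mem_univ, true_and, Finset.mem_image, Finset.mem_range]
    constructor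
    · intro h
      obtain ⟨k, hk, h2⟩ := P.exists_iterate_rot a d h.symm
      exact ⟨k, hk, h2⟩
    · rintro ⟨k, -, rfl⟩
      exact P.G2b_tail_rot a k
  unfold tot
  rw [h1, Finset.sum_image]
  intro i hi j hj h
  exact P.iterate_rot_inj a (by simpa using hi) (by simpa using hj) h

private theorem G2b_cwD_succ (a : P.D) (k : ℕ) : P.cwD a (k + 1) = P.cwD a k ++ [P.cw^[k] a] := by
  induction k generalizing a with
  | zero => rfl
  | succ k ih =>
    have h1 : P.cwD a (k + 1 + 1) = a :: P.cwD (P.cw a) (k + 1) := rfl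
    have h2 : P.cwD a (k + 1) = a :: P.cwD (P.cw a) k := rfl
    rw [h1, ih (P.cw a), h2, Function.iterate_succ_apply]
    rfl

/-- sum of the angles of the faces strictly between, clockwise -/
private theorem G2b_sum_cw {v : P.V} {a : P.D} (ha : P.tail a = v) {k m : ℕ} (h : k + m = P.deg v) :
    ∑ j ∈ Finset.Ico 1 m, P.ang (P.cw^[j] a) =
      ∑ j ∈ Finset.Ico (k + 1) (P.deg v), P.ang (P.rot^[j] a) := by
  subst ha
  refine Finset.sum_bij' (fun j _ => P.deg (P.tail a) - j) (fun j _ => P.deg (P.tail a) - j) ?_ ?_ ?_ ?_ ?_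
  · intro j hj
    rw [Finset.mem_Ico] at hj ⊢
    omega
  · intro j hj
    rw [Finset.mem_Ico] at hj ⊢
    omega
  · intro j hj
    rw [Finset.mem_Ico] at hj
    show P.deg (P.tail a) - (P.deg (P.tail a) - j) = j
    omega
  · intro j hj
    rw [Finset.mem_Ico] at hj
    show P.deg (P.tail a) - (P.deg (P.tail a) - j) = j
    omega
  · intro j hj
    rw [Finset.mem_Ico] at hj
    rw [P.iterate_cw_rot a (show j + (P.deg (P.tail a) - j) = _ by omega)]

/-- two directions in one face -/
private theorem G2b_angle {v : P.V} {a : P.D} (ha : P.tail a = v) {p q : E3}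
    (hp : p ∈ P.tri a) (hq : q ∈ P.tri a) (hpz : p ≠ P.pos v) (hqz : q ≠ P.pos v) :
    ∠ p (P.pos v) q ≤ P.ang a := by
  have hAa : P.A a = P.pos v := by rw [← ha]; rfl
  have sp := P.ang_split hp (by rw [hAa]; exact hpz)
  have sq := P.ang_split hq (by rw [hAa]; exact hqz)
  have hd := P.ang_diff hp (by rw [hAa]; exact hpz) hq (by rw [hAa]; exact hqz)
  rw [← hAa, hd]
  rw [abs_le]
  have e1 := EuclideanGeometry.angle_nonneg p (P.A a) (P.B a)
  have e2 := EuclideanGeometry.angle_nonneg q (P.A a) (P.B a)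
  have e3 := EuclideanGeometry.angle_nonneg p (P.A a) (P.B (P.rot a))
  have e4 := EuclideanGeometry.angle_nonneg q (P.A a) (P.B (P.rot a))
  constructor <;> linarith

/-- the other side -/
private theorem G2b_side {v : P.V} {a : P.D} (ha : P.tail a = v) {k : ℕ} (hk1 : 1 ≤ k)
    (hk : k < P.deg v) {p q : E3} (hp : p ∈ P.tri a) (hq : q ∈ P.tri (P.rot^[k] a))
    (hpz : p ≠ P.pos v) (hqz : q ≠ P.pos v) :
    P.cw^[P.deg v - k] a = P.rot^[k] a ∧
      P.fang v p (P.cwD a (P.deg v - k)) q = P.tot v -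
        (∠ p (P.pos v) (P.B (P.rot a)) + ∑ j ∈ Finset.Ico 1 k, P.ang (P.rot^[j] a)
          + ∠ (P.B (P.rot^[k] a)) (P.pos v) q) := by
  obtain ⟨b, hkb⟩ : ∃ b, P.rot^[k] a = b := ⟨_, rfl⟩
  rw [hkb] at hq ⊢
  have hb : P.tail b = v := by rw [← hkb, P.G2b_tail_rot, ha]
  have hAa : P.A a = P.pos v := by rw [← ha]; rfl
  have hAb : P.A b = P.pos v := by rw [← hb]; rfl
  have sp := P.ang_split hp (by rw [hAa]; exact hpz)
  have sq := P.ang_split hq (by rw [hAb]; exact hqz)
  rw [hAa] at sp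
  rw [hAb] at sq
  have hsum : k + (P.deg v - k) = P.deg v := by omega
  have hcw : P.cw^[P.deg v - k] a = b := by
    rw [P.iterate_cw_rot a (show P.deg v - k + k = _ by rw [ha]; omega), hkb]
  refine ⟨hcw, ?_⟩
  rw [P.fang_cwD ha _ (by omega), P.G2b_sum_cw ha hsum]
  rw [P.iterate_cw_rot a (show P.deg v - k - 1 + (k + 1) = _ by rw [ha]; omega),
    Function.iterate_succ_apply', hkb]
  have htot := P.G2b_tot ha
  rw [Finset.range_eq_Ico, Finset.sum_eq_sum_Ico_succ_bot (by omega),
    ← Finset.sum_Ico_consecutive _ (show 0 + 1 ≤ k by omega) (show k ≤ P.deg v by omega),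
    Finset.sum_eq_sum_Ico_succ_bot hk, hkb] at htot
  have h0 : P.rot^[0] a = a := rfl
  rw [h0] at htot
  rw [htot, EuclideanGeometry.angle_comm (P.B b) (P.pos v) q,
    EuclideanGeometry.angle_comm (P.B (P.rot b)) (P.pos v) q]
  have h1 : (0 : ℕ) + 1 = 1 := rfl
  rw [h1]
  linarith

private theorem G2b_B_not_mem_rot (a : P.D) : P.B a ∉ P.seg (P.rot a) := by
  intro h
  rcases P.eq_of_pos_mem_seg h with h | h
  · rw [tail_rot] at h; exact P.tail_ne_head a h.symm
  · rw [head_rot] at h; exact P.head_ne_prev a h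

private theorem G2b_B_rot_not_mem (a : P.D) : P.B (P.rot a) ∉ P.seg a := by
  intro h
  rcases P.eq_of_pos_mem_seg h with h | h
  · rw [head_rot] at h; exact P.tail_ne_prev a h.symm
  · rw [head_rot] at h; exact P.head_ne_prev a h.symm

private theorem G2b_B_mem (a : P.D) : P.B a ∈ P.seg a := right_mem_segment ℝ _ _

private theorem G2b_A_mem (a : P.D) : P.A a ∈ P.seg a := left_mem_segment ℝ _ _

private theorem G2b_far {v : P.V} {x : P.D} (h : P.tail x = v) : P.far v x = P.B x := by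
  simp [far, h]

private theorem G2b_cons_self {z p : E3} (hp : p ≠ z) (l : List E3) :
    angList z (p :: p :: l) = angList z (p :: l) := by
  have : ∠ p z p = 0 := EuclideanGeometry.angle_self_of_ne hp
  show ∠ p z p + angList z (p :: l) = _
  rw [this, zero_add]

private theorem G2b_append_self {z q : E3} (hq : q ≠ z) (l : List E3) :
    angList z (l ++ [q, q]) = angList z (l ++ [q]) := by
  induction l with
  | nil =>
    show angList z (q :: q :: []) = _
    rw [G2b_cons_self hq]; rfl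
  | cons a l ih =>
    cases l with
    | nil =>
      show ∠ a z q + angList z (q :: q :: []) = ∠ a z q + angList z [q]
      rw [G2b_cons_self hq]
    | cons b l =>
      show ∠ a z b + angList z ((b :: l) ++ [q, q]) = ∠ a z b + angList z ((b :: l) ++ [q])
      rw [ih]

private theorem G2b_fang_cons {v : P.V} {p q : E3} {x : P.D} {W : List P.D} (hp : p ≠ P.pos v)
    (hx : P.far v x = p) : P.fang v p (x :: W) q = P.fang v p W q := by
  unfold fang
  rw [List.map_cons, hx]
  exact G2b_cons_self hp _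

private theorem G2b_fang_append {v : P.V} {p q : E3} {x : P.D} {W : List P.D} (hq : q ≠ P.pos v)
    (hx : P.far v x = q) : P.fang v p (W ++ [x]) q = P.fang v p W q := by
  unfold fang
  rw [List.map_append, List.map_singleton, hx]
  have := G2b_append_self (z := P.pos v) hq (p :: W.map (P.far v))
  simpa using this

/-- a face containing `v` and a point of the face of `d` not on the two edges at `v` -/
private theorem G2b_face {v : P.V} {d g : P.D} (hd : P.tail d = v) {p : E3} (hp : p ∈ P.tri d)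
    (h1 : p ∉ P.seg d) (h2 : p ∉ P.seg (P.rot d)) (hg : p ∈ P.tri g) (hv : P.pos v ∈ P.tri g) :
    P.SF g d := by
  by_contra hne
  have hB : ∀ x, x = P.A (P.nxt d) → x ∈ P.seg d := by
    rintro x rfl
    have e : P.A (P.nxt d) = P.B d := by unfold A B; rw [head_eq]
    rw [e]
    exact P.G2b_B_mem d
  have hseg : P.seg (P.rot d) = P.seg (P.prev d) := P.seg_inv (P.prev d)
  have hn : P.NV p := by
    intro u hu
    subst hu
    obtain ⟨a, ha, hau⟩ := P.verts_of_pos_mem hp
    rcases ha with rfl | rfl | rfl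
    · exact h1 (by rw [← hau]; exact P.G2b_A_mem _)
    · exact h1 (hB _ (by rw [← hau]; rfl))
    · exact h2 (by rw [hseg, ← hau]; exact P.G2b_A_mem _)
  obtain ⟨a, ha1, ha2, ha3⟩ := P.common_edge hp hg (fun h => hne (P.SF_symm h)) hn
  have ha4 : p ∈ P.seg a := openSegment_subset_segment ℝ _ _ ha1
  rcases ha2 with rfl | rfl | rfl
  · exact h1 ha4
  · -- the face across the opposite edge does not contain `v`
    have hv' : P.pos v ∈ P.tri (P.inv (P.nxt d)) := by rwa [← P.tri_SF ha3]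
    obtain ⟨a', hs, hav⟩ := P.verts_of_pos_mem hv'
    have e1 : P.tail (P.inv (P.nxt d)) = P.tail (P.prev d) := P.head_nxt d
    have e2 : P.tail (P.nxt (P.inv (P.nxt d))) = P.head d := by
      rw [← head_eq, tail_eq_head_inv, head_eq]
    rcases hs with rfl | rfl | rfl
    · exact P.tail_ne_prev d (by rw [hd, ← hav, e1])
    · exact P.tail_ne_head d (by rw [hd, ← hav, e2])
    · have h3 := P.face_inj d (P.prev (P.inv (P.nxt d))) (by
        have e3 : P.nxt (P.prev (P.inv (P.nxt d))) = P.inv (P.nxt d) := P.nxt_prev _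
        rw [e3, e2, hav, hd, e1, ← head_eq]
        ext x
        simp only [Finset.mem_insert, Finset.mem_singleton, prev]
        tauto)
      have h4 : P.SF d (P.prev (P.inv (P.nxt d))) := h3
      have h5 : P.SF (P.nxt d) (P.inv (P.nxt d)) :=
        P.SF_trans (P.SF_symm (P.SF_nxt d)) (P.SF_trans h4 (P.SF_symm (P.SF_prev _)))
      exact P.not_SF_inv _ h5
  · exact h2 (by rw [hseg]; exact ha4)

/-- a face containing an edge -/
private theorem G2b_edge {v : P.V} {d g : P.D} (hd : P.tail d = v)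
    (hg : P.B d ∈ P.tri g) (hv : P.pos v ∈ P.tri g) : P.SF g d ∨ P.SF g (P.inv d) := by
  have hne : v ≠ P.head d := by rw [← hd]; exact P.tail_ne_head d
  obtain ⟨e, h1, h2, h3⟩ := P.edge_of_two_vertices (v := v) (w := P.head d) hv hg hne
  have : e = d := P.edge_inj e d (by rw [h1, hd]) h2
  subst this
  exact h3

/-- a neighbour on an edge at `v` is the other end -/
private theorem G2b_end {v : P.V} {d : P.D} (hd : P.tail d = v) {p : E3} (hp : p ≠ P.pos v)
    (hpv : ∀ e, p ∈ P.seg e → P.pos v ∈ P.seg e → ∃ u, p = P.pos u) (h : p ∈ P.seg d) :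
    p = P.B d := by
  obtain ⟨u, hu⟩ := hpv d h (by rw [← hd]; exact P.G2b_A_mem d)
  subst hu
  rcases P.eq_of_pos_mem_seg h with h | h
  · exact absurd (by rw [h, hd]) hp
  · rw [h]; rfl

/-- first end -/
private theorem G2b_first {v : P.V} {p q : E3} {g a : P.D} {m : ℕ} {F : ℝ}
    (hp : p ≠ P.pos v) (hq : q ≠ P.pos v) (hF : ∀ d, P.tail d = v → P.ang d < F)
    (hpv : ∀ e, p ∈ P.seg e → P.pos v ∈ P.seg e → ∃ u, p = P.pos u)
    (hg : P.LeftFace p (P.pos v) g) (ha : P.tail a = v) (hm : 1 ≤ m) (hmd : m < P.deg v)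
    (hpa : p ∈ P.tri a) (hqa : q ∈ P.tri (P.cw^[m] a)) (hf : P.fang v p (P.cwD a m) q = F) :
    ∃ (a' : P.D) (n : ℕ), P.tail a' = v ∧ 1 ≤ n ∧ n < P.deg v ∧ p ∈ P.tri a' ∧
      q ∈ P.tri (P.cw^[n] a') ∧ P.fang v p (P.cwD a' n) q = F ∧ P.SF g a' ∧ p ∉ P.seg a' ∧
      P.cw^[n] a' = P.cw^[m] a := by
  obtain ⟨g1, g2, g3⟩ := hg
  by_cases h1 : p ∈ P.seg a
  · have hB := P.G2b_end ha hp hpv h1
    have hSF : P.SF g (P.inv a) := by
      rcases P.G2b_edge ha (by rw [← hB]; exact g1) g2 with h | h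
      · exfalso
        have := (g3 a h h1 (by rw [← ha]; exact P.G2b_A_mem a)).1
        exact hp (by rw [this, ← ha]; rfl)
      · exact h
    obtain ⟨n, rfl⟩ : ∃ n, m = n + 1 := ⟨m - 1, by omega⟩
    have hW : P.cwD a (n + 1) = a :: P.cwD (P.cw a) n := rfl
    rw [hW, P.G2b_fang_cons hp (by rw [P.G2b_far ha, hB])] at hf
    have hcw : P.tail (P.cw a) = v := by rw [P.tail_cw, ha]
    have hSF' : P.SF g (P.cw a) := P.SF_trans hSF (P.SF_nxt _)
    have hpt : p ∈ P.tri (P.cw a) := by rw [← P.tri_SF hSF']; exact g1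
    rw [Function.iterate_succ_apply] at hqa
    rcases Nat.eq_zero_or_pos n with h0 | h0
    · exfalso
      subst h0
      have e : P.fang v p (P.cwD (P.cw a) 0) q = ∠ p (P.pos v) q := P.fang_nil v p q
      rw [e] at hf
      have := P.G2b_angle hcw hpt hqa hp hq
      linarith [hF _ hcw]
    · refine ⟨P.cw a, n, hcw, h0, by omega, hpt, hqa, hf, hSF', ?_, ?_⟩
      · rw [hB]
        have := P.G2b_B_rot_not_mem (P.cw a)
        rwa [P.rot_cw] at this
      · rw [Function.iterate_succ_apply]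
  · refine ⟨a, m, ha, hm, hmd, hpa, hqa, hf, ?_, h1, rfl⟩
    by_cases h2 : p ∈ P.seg (P.rot a)
    · have hr : P.tail (P.rot a) = v := by rw [P.tail_rot, ha]
      have hB := P.G2b_end hr hp hpv h2
      rcases P.G2b_edge hr (by rw [← hB]; exact g1) g2 with h | h
      · exfalso
        have := (g3 _ h h2 (by rw [← hr]; exact P.G2b_A_mem _)).1
        exact hp (by rw [this, ← hr]; rfl)
      · have e : P.inv (P.rot a) = P.prev a := P.inv_inv _
        rw [e] at h
        exact P.SF_trans h (P.SF_symm (P.SF_prev a))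
    · exact P.G2b_face ha hpa h1 h2 g1 g2

/-- last end -/
private theorem G2b_last {v : P.V} {p q : E3} {g' a : P.D} {m : ℕ} {F : ℝ}
    (hp : p ≠ P.pos v) (hq : q ≠ P.pos v) (hF : ∀ d, P.tail d = v → P.ang d < F)
    (hqv : ∀ e, q ∈ P.seg e → P.pos v ∈ P.seg e → ∃ u, q = P.pos u)
    (hg' : P.LeftFace (P.pos v) q g') (ha : P.tail a = v) (hm : 1 ≤ m) (hmd : m < P.deg v)
    (hpa : p ∈ P.tri a) (hqa : q ∈ P.tri (P.cw^[m] a)) (hf : P.fang v p (P.cwD a m) q = F) :
    ∃ n : ℕ, 1 ≤ n ∧ n < P.deg v ∧ q ∈ P.tri (P.cw^[n] a) ∧ P.fang v p (P.cwD a n) q = F ∧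
      P.SF g' (P.cw^[n] a) ∧ q ∉ P.seg (P.cw^[n-1] a) := by
  obtain ⟨g1, g2, g3⟩ := hg'
  obtain ⟨n, rfl⟩ : ∃ n, m = n + 1 := ⟨m - 1, by omega⟩
  have hrot : P.rot (P.cw^[n+1] a) = P.cw^[n] a := by
    rw [Function.iterate_succ_apply', P.rot_cw]
  obtain ⟨b, hb⟩ : ∃ b, b = P.cw^[n+1] a := ⟨_, rfl⟩
  have htb : P.tail b = v := by rw [hb, P.G2b_tail_cw, ha]
  have htn : P.tail (P.cw^[n] a) = v := by rw [P.G2b_tail_cw, ha]
  rw [← hb] at hrot hqa
  by_cases h1 : q ∈ P.seg (P.cw^[n] a)
  · have hB := P.G2b_end htn hq hqv h1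
    have hSF : P.SF g' (P.cw^[n] a) := by
      rcases P.G2b_edge htn (by rw [← hB]; exact g2) g1 with h | h
      · exact h
      · exfalso
        have := (g3 _ h (by rw [P.seg_inv, ← htn]; exact P.G2b_A_mem _)
          (by rw [P.seg_inv]; exact h1)).1
        exact hq (by rw [this, hB]; rfl)
    have hqt : q ∈ P.tri (P.cw^[n] a) := by rw [← P.tri_SF hSF]; exact g2
    rw [P.G2b_cwD_succ, P.G2b_fang_append hq (by rw [P.G2b_far htn, hB])] at hf
    rcases Nat.eq_zero_or_pos n with h0 | h0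
    · exfalso
      subst h0
      have e : P.fang v p (P.cwD a 0) q = ∠ p (P.pos v) q := P.fang_nil v p q
      rw [e] at hf
      have := P.G2b_angle ha hpa hqt hp hq
      linarith [hF _ ha]
    · refine ⟨n, h0, by omega, hqt, hf, hSF, ?_⟩
      obtain ⟨l, rfl⟩ : ∃ l, n = l + 1 := ⟨n - 1, by omega⟩
      have h3 := P.G2b_B_not_mem_rot (P.cw^[l+1] a)
      have e0 : P.rot (P.cw^[l+1] a) = P.cw^[l] a := by
        rw [Function.iterate_succ_apply', P.rot_cw]
      rw [e0] at h3
      rw [hB]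
      exact h3
  · refine ⟨n + 1, hm, hmd, by rw [← hb]; exact hqa, hf, ?_, h1⟩
    rw [← hb]
    by_cases h2 : q ∈ P.seg b
    · have hB := P.G2b_end htb hq hqv h2
      rcases P.G2b_edge htb (by rw [← hB]; exact g2) g1 with h | h
      · exact h
      · exfalso
        have := (g3 _ h (by rw [P.seg_inv, ← htb]; exact P.G2b_A_mem _)
          (by rw [P.seg_inv]; exact h2)).1
        exact hq (by rw [this, hB]; rfl)
    · exact P.G2b_face htb hqa h2 (by rw [hrot]; exact h1) g2 g1

end Poly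

/-- [DG-G2b] THE LEFT FAN. `p → v → q` with angle `α` on the right side (counterclockwise from `p` to
`q`) and `tot v - α` on the left side, larger than every face angle at `v`. Then there is a clockwise
fan strictly between `p` and `q`, nonempty, from the left face of `[p, v]` to the left face of
`[v, q]`, of angle `tot v - α`.
(First case of `Side`: `α ≤ ang d`, so `tot v - α > π`, impossible. Second case: cross
`d, cw d, ..., cw^(deg-k-1) d`, and trim the ends if `p` is on the edge of `d` / `q` is on the edge of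
`rot^(k+1) d`; compare `F2c_aux`, `F2c_node` (`node_trim`, `cw_first`, `cw_last`, `cw_node`) of
`Lib_MP_6b5565`.) -/
theorem Poly.exists_cwFan {P : Poly} {v : P.V} {p q : E3} {α : ℝ} {g g' : P.D}
    (hp : p ≠ P.pos v) (hq : q ≠ P.pos v)
    (hs : P.Side v p q α) (h1 : α ≤ Real.pi) (h2 : P.tot v - α ≤ Real.pi)
    (hang : ∀ d, P.tail d = v → P.ang d + Real.pi < P.tot v)
    (hpv : ∀ e, p ∈ P.seg e → P.pos v ∈ P.seg e → ∃ u, p = P.pos u)
    (hqv : ∀ e, q ∈ P.seg e → P.pos v ∈ P.seg e → ∃ u, q = P.pos u)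
    (hg : P.LeftFace p (P.pos v) g) (hg' : P.LeftFace (P.pos v) q g') :
    ∃ W, CwFan P v p q g g' W ∧ P.fang v p W q = P.tot v - α := by
  rcases hs with ⟨d, hd, hpd, hqd, hα⟩ | ⟨d, k, hd, hk1, hk, hpd, hqd, hα⟩
  · exfalso
    have h3 := P.G2b_angle hd hpd hqd hp hq
    have h4 := hang d hd
    linarith
  · obtain ⟨e1, e2⟩ := P.G2b_side hd hk1 hk hpd hqd hp hq
    rw [← hα] at e2
    have hF : ∀ d, P.tail d = v → P.ang d < P.tot v - α := fun d hd => by
      have := hang d hd
      linarith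
    obtain ⟨a, n, f1, f2, f3, f4, f5, f6, f7, f8, f9⟩ := P.G2b_first hp hq hF hpv hg hd
      (m := P.deg v - k) (by omega) (by omega) hpd (by rw [e1]; exact hqd) e2
    obtain ⟨l, l1, l2, l3, l4, l5, l6⟩ := P.G2b_last hp hq hF hqv hg' f1 f2 f3 f4 f5 f6
    exact ⟨P.cwD a l, ⟨a, l, f1, l1, l2.le, rfl, f7, l5, f4, l3, f8, l6,
      fun h => absurd h l2.ne⟩, l4⟩

end

end QGd
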