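import Pool.Agent.Lib_MP_6b5565_dg.G2b

/-! [DG-G2c] Gauss-Bonnet for simple closed quasigeodesics -/

namespace QGd

open EuclideanGeometry

noncomputable section

/-- if a node at a vertex and the node before it are on one edge, then the latter is a vertex -/
private theorem g2c_prev {P : Poly} {N : ℕ} [NeZero N] (γ : SCQ P N) (i : ZMod N) {v : P.V}
    (hv : γ.x i = P.pos v) {e : P.D} (h1 : γ.x (i - 1) ∈ P.seg e) (h2 : P.pos v ∈ P.seg e) :
    ∃ u, γ.x (i - 1) = P.pos u := by
  rcases γ.node (i - 1) with ⟨d, hd⟩ | ⟨u, α, hu, -⟩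
  · exfalso
    obtain ⟨ho, -, -, -, hq, -, -⟩ := hd
    rw [sub_add_cancel, hv] at hq
    rcases P.edge_unique ho h1 with rfl | rfl
    · exact hq h2
    · rw [P.seg_inv] at h2
      exact hq h2
  · exact ⟨u, hu⟩

/-- if a node at a vertex and the node after it are on one edge, then the latter is a vertex -/
private theorem g2c_next {P : Poly} {N : ℕ} [NeZero N] (γ : SCQ P N) (i : ZMod N) {v : P.V}
    (hv : γ.x i = P.pos v) {e : P.D} (h1 : γ.x (i + 1) ∈ P.seg e) (h2 : P.pos v ∈ P.seg e) :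
    ∃ u, γ.x (i + 1) = P.pos u := by
  rcases γ.node (i + 1) with ⟨d, hd⟩ | ⟨u, α, hu, -⟩
  · exfalso
    obtain ⟨ho, -, -, hp, -, -, -⟩ := hd
    rw [add_sub_cancel_right, hv] at hp
    rcases P.edge_unique ho h1 with rfl | rfl
    · exact hp h2
    · rw [P.seg_inv] at h2
      exact hp h2
  · exact ⟨u, hu⟩

/-- all half-edges of a clockwise fan have the same tail -/
private theorem g2c_tail (P : Poly) (a : P.D) (t : ℕ) : P.tail (P.cw^[t] a) = P.tail a := by
  induction t generalizing a with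
  | zero => rfl
  | succ t ih => rw [Function.iterate_succ_apply, ih, P.tail_cw]

/-- the data at a node -/
private theorem g2c_node {P : Poly} {N : ℕ} [NeZero N] (γ : SCQ P N)
    (hang : ∀ i v, γ.x i = P.pos v → ∀ d, P.tail d = v → P.ang d + Real.pi < P.tot v)
    (G : ZMod N → P.D) (hG : ∀ i, P.LeftFace (γ.x i) (γ.x (i + 1)) (G i)) (j : ZMod N) :
    ∃ (W : List P.D) (v : P.V), W ≠ [] ∧ P.DWalk (G (j - 1)) W (G j) ∧
      (∀ e ∈ W, γ.x j ∈ P.seg e) ∧
      (P.NV (γ.x j) → ∃ d, W = [d] ∧ P.CrossAt (γ.x (j - 1)) (γ.x j) (γ.x (j + 1)) d) ∧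
      (¬ P.NV (γ.x j) → γ.x j = P.pos v ∧
        CwFan P v (γ.x (j - 1)) (γ.x (j + 1)) (G (j - 1)) (G j) W ∧
        P.fang v (γ.x (j - 1)) W (γ.x (j + 1)) ≤ Real.pi ∧
        P.tot v - P.fang v (γ.x (j - 1)) W (γ.x (j + 1)) ≤ Real.pi) := by
  have hl : γ.x (j - 1) ∈ P.tri (G (j - 1)) ∧ γ.x j ∈ P.tri (G (j - 1)) := by
    have h := hG (j - 1)
    rw [sub_add_cancel] at h
    exact ⟨h.1, h.2.1⟩
  have hr := hG j
  rcases γ.node j with ⟨d, hd⟩ | ⟨v, α, hv, hs, h1, h2⟩
  · have hn : P.NV (γ.x j) := P.NV_of_oseg hd.1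
    refine ⟨[d], P.tail d, by simp, ⟨hd.face hl.1 hl.2, ?_⟩, ?_, fun _ => ⟨d, rfl, hd⟩,
      fun h => absurd hn h⟩
    · exact P.SF_symm (hd.face' hr.2.1 hr.1)
    · intro e he
      rw [List.mem_singleton] at he
      subst he
      exact openSegment_subset_segment ℝ _ _ hd.1
  · have hnv : ¬ P.NV (γ.x j) := fun h => h v hv
    have hp : γ.x (j - 1) ≠ P.pos v := by
      have h := γ.ne (j - 1)
      rw [sub_add_cancel, hv] at h
      exact h
    have hq : γ.x (j + 1) ≠ P.pos v := by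
      have h := γ.ne j
      rw [hv] at h
      exact h.symm
    have hg := hG (j - 1)
    rw [sub_add_cancel, hv] at hg
    rw [hv] at hr
    obtain ⟨W, hW, hf⟩ := Poly.exists_cwFan hp hq hs h1 h2 (hang j v hv)
      (fun e he he' => g2c_prev γ j hv he he') (fun e he he' => g2c_next γ j hv he he') hg hr
    refine ⟨W, v, ?_, ?_, ?_, fun h => absurd h hnv, fun _ => ⟨hv, hW, ?_, ?_⟩⟩
    · obtain ⟨a, k, -, hk, -, rfl, -⟩ := hW
      intro h0
      have h3 := P.length_cwD a k
      rw [h0, List.length_nil] at h3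
      omega
    · obtain ⟨a, k, -, -, -, rfl, h3, h4, -⟩ := hW
      exact P.DWalk_congr_left (P.SF_symm h3)
        (P.DWalk_congr_right (P.SF_symm h4) (P.DWalk_cwD a k))
    · obtain ⟨a, k, ht, -, -, rfl, -⟩ := hW
      intro e he
      obtain ⟨t, ht', rfl⟩ := List.getElem_of_mem he
      rw [P.getElem_cwD, hv]
      have h3 : P.A (P.cw^[t] a) = P.pos v := by
        unfold Poly.A
        rw [g2c_tail, ht]
      rw [← h3]
      exact left_mem_segment ℝ _ _
    · rw [hf]
      exact h2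
    · rw [hf]
      linarith

/-- [DG-G2c] all the data for `Route.gauss_bonnet`: the cyclic curve with nodes `γ.x`, faces the left
faces, crossed half-edges `[d]` at crossings and the left fans at vertices; the route is the same
with all senses `true`. -/
theorem SCQ.exists_route {P : Poly} {N : ℕ} [NeZero N] (γ : SCQ P N)
    (hang : ∀ i v, γ.x i = P.pos v → ∀ d, P.tail d = v → P.ang d + Real.pi < P.tot v) :
    ∃ (C : Cyc P N) (ρ : Route C), C.y = γ.x ∧ C.Nice ∧ C.Simple ∧
      (∀ j, ρ.sense j = true) ∧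
      (∀ j, ¬ P.NV (C.y j) → ρ.ang j ≤ Real.pi ∧ P.tot (ρ.vtx j) - ρ.ang j ≤ Real.pi) := by
  choose G hG using γ.exists_left
  choose W vt hW0 hWalk hon hnv hv using g2c_node γ hang G hG
  let C : Cyc P N :=
    { y := γ.x, R := W, F := G, R_ne := hW0, walk := hWalk, on := hon, ne := γ.ne }
  let ρ : Route C :=
    { W := W
      G := G
      sense := fun _ => true
      vtx := vt
      hvtx := fun j h => (hv j h).1
      W_ne := hW0
      walk := hWalk
      inG := fun j => ⟨(hG j).1, (hG j).2.1⟩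
      nv := fun j _ => rfl
      cw := fun j h _ => (hv j h).2.1
      ccw := fun j _ h => absurd h (by simp) }
  refine ⟨C, ρ, rfl, ?_, ?_, fun _ => rfl, fun j h => (hv j h).2.2⟩
  · refine ⟨?_, ?_, ?_, ?_, ?_⟩
    · have h := γ.three_le
      omega
    · intro j h
      obtain ⟨d, h1, h2⟩ := hnv j h
      exact ⟨d, h1, h2.1⟩
    · intro j d h hd
      obtain ⟨d', h1, h2⟩ := hnv j h
      have h3 : d' = d := by
        have h4 : W j = [d] := hd
        rw [h1] at h4
        exact (List.cons.inj h4).1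
      subst h3
      exact ⟨h2.2.2.2.1, h2.2.2.2.2.1⟩
    · intro j d h hd
      obtain ⟨d', h1, h2⟩ := hnv j h
      have h3 : d' = d := by
        have h4 : W j = [d] := hd
        rw [h1] at h4
        exact (List.cons.inj h4).1
      subst h3
      exact h2.straight.1
    · intro j k v h1 h2
      exact γ.inj (h1.trans h2.symm)
  · intro j k hjk p h1 h2
    exact γ.seg_meet hjk h1 h2

end

end QGd
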