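import Pool.Agent.Lib_MP_6b5565_dg.G2c

/-! [DG-G2d] Gauss-Bonnet for simple closed quasigeodesics -/

namespace QGd

open EuclideanGeometry

noncomputable section

private theorem g2d_sum_cast {m : ℕ} [NeZero m] (f : ZMod m → ZMod 2) :
    ∑ t ∈ Finset.range m, f ((t : ℕ) : ZMod m) = ∑ j, f j := by
  obtain ⟨k, rfl⟩ : ∃ k, m = k + 1 := ⟨m - 1, (Nat.succ_pred_eq_of_ne_zero (NeZero.ne m)).symm⟩
  rw [← Fin.sum_univ_eq_sum_range (fun t => f ((t : ℕ) : ZMod (k + 1))) (k + 1)]
  refine Finset.sum_congr rfl fun i _ => ?_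
  congr 1
  exact ZMod.natCast_zmod_val (n := k + 1) i

private theorem g2d_walk {P : Poly} {m : ℕ} [NeZero m] {C : Cyc P m} (ρ : Route C) (n : ℕ) :
    P.DWalk (ρ.G (-1)) ((List.range n).flatMap fun t => ρ.W ((t : ℕ) : ZMod m))
      (ρ.G (((n : ℕ) : ZMod m) - 1)) := by
  induction n with
  | zero =>
    show P.SF _ _
    rw [Nat.cast_zero, zero_sub]
    exact Or.inl rfl
  | succ n ih =>
    rw [List.range_succ, List.flatMap_append, P.DWalk_append]
    refine ⟨_, ih, ?_⟩
    have h := ρ.walk ((n : ℕ) : ZMod m)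
    have e : ((n + 1 : ℕ) : ZMod m) - 1 = ((n : ℕ) : ZMod m) := by
      push_cast
      ring
    rw [e]
    simpa using h

private theorem g2d_par {P : Poly} {m : ℕ} [NeZero m] {C : Cyc P m} (ρ : Route C) (n : ℕ) (e : P.D) :
    P.par ((List.range n).flatMap fun t => ρ.W ((t : ℕ) : ZMod m)) e =
      ∑ t ∈ Finset.range n, P.par (ρ.W ((t : ℕ) : ZMod m)) e := by
  induction n with
  | zero => simp [P.par_nil]
  | succ n ih =>
    rw [List.range_succ, List.flatMap_append, P.par_append, ih, Finset.sum_range_succ]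
    congr 1
    simp

/-- the parity vector of a route is a coboundary -/
private theorem g2d_col {P : Poly} {m : ℕ} [NeZero m] {C : Cyc P m} (ρ : Route C) :
    ∃ col, P.Col ρ.par col := by
  have h1 : ∀ e, ρ.par e = P.par ((List.range m).flatMap fun t => ρ.W ((t : ℕ) : ZMod m)) e := by
    intro e
    rw [g2d_par, g2d_sum_cast (fun j => P.par (ρ.W j) e)]
    rfl
  have w := g2d_walk ρ m
  have e1 : ((m : ℕ) : ZMod m) - 1 = -1 := by
    rw [ZMod.natCast_self, zero_sub]
  rw [e1] at w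
  obtain ⟨col, hcol⟩ := P.exists_col_walk w
  exact ⟨col, fun d => by rw [h1]; exact hcol d⟩

/-- [DG-G2d] GAUSS-BONNET. From `Route.gauss_bonnet` (colour exists by `exists_col`, as `ρ.par` is a
cocycle): `∑ turn = 2π - K ∅ col lam`, the visited vertices have colour `lam + 1`,
`turn = π - ang ≥ 0` at the vertices; and `K_0 + K_1 = 4π`. -/
theorem SCQ.bal {P : Poly} {N : ℕ} [NeZero N] (γ : SCQ P N)
    (hang : ∀ i v, γ.x i = P.pos v → ∀ d, P.tail d = v → P.ang d + Real.pi < P.tot v) :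
    ∃ col : P.V → ZMod 2, ∀ c, P.K γ.vis col c ≤ 2 * Real.pi := by
  classical
  obtain ⟨C, ρ, hy, hN, hS, hsense, hang2⟩ := γ.exists_route hang
  have hi : Function.Injective C.y := by rw [hy]; exact γ.inj
  obtain ⟨col, hcol⟩ := g2d_col ρ
  obtain ⟨lam, q1, -, q3⟩ := ρ.gauss_bonnet hN hS γ.three_le hi hcol
  refine ⟨col, ?_⟩
  have hvis : ∀ v, v ∈ γ.vis ↔ ∃ i, C.y i = P.pos v := by
    intro v
    rw [hy]
    simp [SCQ.vis]
  have hnv : ∀ i v, C.y i = P.pos v → ¬ P.NV (C.y i) := fun i v h hn => hn v h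
  have hvt : ∀ i v, C.y i = P.pos v → ρ.vtx i = v := by
    intro i v h
    have h1 := ρ.hvtx i (hnv i v h)
    rw [h] at h1
    exact (P.pos_inj h1).symm
  have hcv : ∀ v ∈ γ.vis, col v = lam + 1 := by
    intro v hv
    obtain ⟨i, hiv⟩ := (hvis v).1 hv
    have h1 := q1 i (hnv i v hiv) (hsense i)
    rwa [hvt i v hiv] at h1
  -- the turns
  let S : Finset (ZMod N) := Finset.univ.filter fun j => ¬ P.NV (C.y j)
  have ht : ∑ j, ρ.turn j = ∑ j ∈ S, (Real.pi - ρ.ang j) := by
    rw [Finset.sum_filter]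
    refine Finset.sum_congr rfl fun j _ => ?_
    unfold Route.turn
    by_cases h : P.NV (C.y j)
    · rw [if_pos h, if_neg (fun h' => h' h)]
    · rw [if_neg h, if_pos h, if_pos (hsense j)]
  have h0 : 0 ≤ ∑ j ∈ S, (Real.pi - ρ.ang j) := by
    refine Finset.sum_nonneg fun j hj => ?_
    have h1 := (hang2 j (Finset.mem_filter.1 hj).2).1
    linarith
  have hkap : ∑ j ∈ S, (Real.pi - ρ.ang j) ≤ ∑ v ∈ γ.vis, P.kap v := by
    have h1 : ∑ j ∈ S, (Real.pi - ρ.ang j) ≤ ∑ j ∈ S, P.kap (ρ.vtx j) := by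
      refine Finset.sum_le_sum fun j hj => ?_
      have h2 := (hang2 j (Finset.mem_filter.1 hj).2).2
      unfold Poly.kap
      linarith
    refine h1.trans (le_of_eq ?_)
    refine Finset.sum_bij (fun j _ => ρ.vtx j) ?_ ?_ ?_ ?_
    · intro j hj
      exact (hvis _).2 ⟨j, ρ.hvtx j (Finset.mem_filter.1 hj).2⟩
    · intro j hj j' hj' h
      apply hi
      rw [ρ.hvtx j (Finset.mem_filter.1 hj).2, ρ.hvtx j' (Finset.mem_filter.1 hj').2, h]
    · intro v hv
      obtain ⟨i, hiv⟩ := (hvis v).1 hv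
      exact ⟨i, Finset.mem_filter.2 ⟨Finset.mem_univ _, hnv i v hiv⟩, hvt i v hiv⟩
    · intro j _
      rfl
  -- the visited vertices have the other colour
  have hne : lam + 1 ≠ lam := by
    have h : ∀ a : ZMod 2, a + 1 ≠ a := by decide
    exact h lam
  have hK : P.K γ.vis col lam = P.K ∅ col lam := by
    unfold Poly.K
    congr 1
    apply Finset.filter_congr
    intro v _
    constructor
    · rintro ⟨-, h⟩
      exact ⟨Finset.notMem_empty v, h⟩
    · rintro ⟨-, h⟩
      refine ⟨fun hv => hne ?_, h⟩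
      rw [← hcv v hv, h]
  have hadd := P.K_add' γ.vis col lam
  have hc2 : ∀ c : ZMod 2, c = lam ∨ c = lam + 1 := by
    have h : ∀ a c : ZMod 2, c = a ∨ c = a + 1 := by decide
    exact h lam
  intro c
  rcases hc2 c with rfl | rfl
  · rw [hK]
    linarith
  · linarith

end

end QGd
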