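import Pool.Agent.Lib_MP_6b5565_dg.C1
import Pool.Agent.Lib_MP_6b5565_dg.B1

/-!
# Positions of the mesh vertices

Base vertices `O = (0,0,0)`, `P = (1,0,0)`, `Q = (0,1,0)`, `F = (5,4,-1)`, `G = (-1,-1,-6)`. In the
face `T` with corners `p = CT T e`, `q = CT T (e+1)`, `r = CT T (e+2)` and normal `n`, the ideal
position on the leg `e` at the parameter `s` is
`(1-s)/3 p + (5+s)/15 q + (5+4s)/15 r + (ε (1-s) + ε² s (1-s)) n`.
-/

namespace QGd

open EuclideanGeometry Vx Dx

noncomputable section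

/-- coordinates of the base vertices -/
def BV : Fin 5 → Fin 3 → ℤ :=
  ![![0, 0, 0], ![1, 0, 0], ![0, 1, 0], ![5, 4, -1], ![-1, -1, -6]]

/-- base vertices -/
def bpt (v : Fin 5) : E3 := pt (BV v)

/-- the corner `e` of the face `T` -/
def cor (T : Fin 6) (e : Fin 3) : E3 := bpt (CT T e)

/-- the outer normal of the face `T` -/
def nrm (T : Fin 6) : E3 := crs (cor T 1 - cor T 0) (cor T 2 - cor T 0)

/-- `ε` -/
def eps (K : ℕ) : ℝ := (1 / 2) ^ (2 * K + 100)

/-- tolerance of the positions -/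
def del (K : ℕ) : ℝ := (1 / 2) ^ (16 * K + 1000)

/-- slope bound -/
def eta (K : ℕ) : ℝ := (1 / 2) ^ (2 * K + 60)

/-- height -/
def hgt (K : ℕ) (s : ℝ) : ℝ := eps K * (1 - s) + eps K ^ 2 * (s * (1 - s))

/-- ideal position on the leg `e` of the face `T` -/
def idl (K : ℕ) (T : Fin 6) (e : Fin 3) (s : ℝ) : E3 :=
  ((1 - s) / 3) • cor T e + ((5 + s) / 15) • cor T (e + 1) + ((5 + 4 * s) / 15) • cor T (e + 2) +
    hgt K s • nrm T

/-- parameter of `Y j` -/
def sj (K : ℕ) (j : ℕ) : ℝ := (j : ℝ) / ((K : ℝ) + 2)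

/-- ideal position of a vertex -/
def ideal (K : ℕ) : Vx K → E3
  | base v => bpt v
  | ctr T => idl K T 0 0
  | leg T e i => idl K T e (sj K (i + 1))

/-- `c` is the mesh, scaled by `S`, up to the relative error `del K` at the mesh vertices -/
structure Approx (K S : ℕ) (c : Vx K → Fin 3 → ℤ) : Prop where
  pos : 0 < S
  base : ∀ v j, c (base v) j = S * BV v j
  close : ∀ v, ‖(1 / (S : ℝ)) • pt (c v) - ideal K v‖ ≤ del K

/-- the point with coordinates `(a, b, g, h)` with respect to the face `T`, from the corner `e` -/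
def fp (T : Fin 6) (e : Fin 3) (a b g h : ℝ) : E3 :=
  a • cor T e + b • cor T (e + 1) + g • cor T (e + 2) + h • nrm T

/-- the triple of corners of a half-edge -/
def tri3 {K : ℕ} (d : Dx K) : Vx K × Vx K × Vx K := (tl d, tl (nx d), tl (nx (nx d)))

/-- the ideal determinant at a half-edge and a vertex -/
def idet (K : ℕ) (d : Dx K) (X : E3) : ℝ :=
  rdet (ideal K (tl (nx d)) - ideal K (tl d)) (ideal K (tl (nx (nx d))) - ideal K (tl d))
    (X - ideal K (tl d))

/-- margin of the strict convexity -/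
def mar (K : ℕ) : ℝ := (1 / 2) ^ (8 * K + 400)

end

end QGd
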