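import Pool.Agent.Lib_MP_6b5565_dg.B2

/-! the statements -/

namespace QGd

open Polynomial

/-- Every simple closed quasigeodesic of the polyhedron, in any description by straight segments in
faces, has a segment endpoint `x i` with a coordinate `x i j` such that for all rationals `r` and
`s ≠ 0`, every nonzero integer polynomial with the root `r + s * x i j` has more than `b` nonzero
coefficients. -/
def IPoly.Hard (I : IPoly) (b : ℕ) : Prop :=
  ∀ (N : ℕ) [NeZero N] (γ : Desc I.poly N), ∃ (i : ZMod N) (j : Fin 3),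
    ∀ r s : ℚ, s ≠ 0 → ∀ F : ℤ[X], F ≠ 0 → aeval ((r : ℝ) + (s : ℝ) * γ.x i j) F = 0 →
      b < F.support.card

/-- the same with the degree in place of the number of nonzero coefficients -/
def IPoly.HardDeg (I : IPoly) (b : ℕ) : Prop :=
  ∀ (N : ℕ) [NeZero N] (γ : Desc I.poly N), ∃ (i : ZMod N) (j : Fin 3),
    ∀ r s : ℚ, s ≠ 0 → ∀ F : ℤ[X], F ≠ 0 → aeval ((r : ℝ) + (s : ℝ) * γ.x i j) F = 0 →
      b < F.natDegree

/-- form used in the proof: some crossing of an edge has a parameter on this edge which is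
transcendental or of degree at least `b` -/
def IPoly.HardS (I : IPoly) (b : ℕ) : Prop :=
  ∀ (N : ℕ) [NeZero N] (γ : SCQ I.poly N), ∃ (i : ZMod N) (d : I.D) (lam : ℝ),
    I.poly.CrossAt (γ.x (i - 1)) (γ.x i) (γ.x (i + 1)) d ∧
    γ.x i = AffineMap.lineMap (pt (I.c (I.tail d))) (pt (I.c (I.tail (I.nxt d)))) lam ∧
    (IsAlgebraic ℚ lam → b ≤ (minpoly ℚ lam).natDegree)

end QGd
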