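import Pool.Agent.Lib_MP_6b5565_dg.D6
import Pool.Agent.Lib_MP_6b5565_dg.C2
import Pool.Agent.Lib_MP_6b5565_dg.C3
import Pool.Agent.Lib_MP_6b5565_dg.C6
import Pool.Agent.Lib_MP_6b5565_dg.Stmt

/-! # The polyhedron -/

namespace QGd

open EuclideanGeometry Vx Dx

noncomputable section

/-- a scale and coordinates -/
structure Msh (K : ℕ) where
  S : ℕ
  c : Vx K → Fin 3 → ℤ
  h : Approx K S c

namespace Msh

variable {K : ℕ} (M : Msh K)

/-- the integer polyhedron -/
def I : IPoly where
  V := Vx K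
  D := Dx K
  inv := iv
  nxt := nx
  tail := tl
  c := M.c
  inv_inv := iv_iv
  nxt3 := nx3
  tail_inv := tl_iv
  orbit := orbit
  surj := tl_surj
  conn := mesh_conn
  four := by rw [card_Vx]; omega
  euler := by rw [card_Vx, card_Dx]; ring
  edge_inj := edge_unique
  strict := fun d v h1 h2 h3 => strict_of_approx M.h d v h1 h2 h3

/-- the real polyhedron -/
abbrev P : Poly := M.I.poly

/-- position of a vertex -/
def pos (v : Vx K) : E3 := pt (M.c v)

theorem pos_eq (v : Vx K) : M.P.pos v = M.pos v := rfl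

/-- normalized position -/
def u (v : Vx K) : E3 := (1 / (M.S : ℝ)) • M.pos v

theorem Spos : (0 : ℝ) < M.S := by exact_mod_cast M.h.pos

theorem u_close (v : Vx K) : ‖M.u v - ideal K v‖ ≤ del K := M.h.close v

/-- [DG-Inst] -/
theorem u_base (v : Fin 5) : M.u (base v) = bpt v := by
  have hS : (M.S : ℝ) ≠ 0 := M.Spos.ne'
  ext m
  have h1 : (pt (M.c (base v)) : E3) m = (M.S : ℝ) * (BV v m : ℝ) := by
    have h2 : (pt (M.c (base v)) : E3) m = (M.c (base v) m : ℝ) := by
      unfold pt
      fin_cases m <;> simp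
    rw [h2, M.h.base v m]
    push_cast
    ring
  have h3 : bpt v m = (BV v m : ℝ) := by
    unfold bpt pt
    fin_cases m <;> simp
  show (1 / (M.S : ℝ)) * (pt (M.c (base v)) : E3) m = bpt v m
  rw [h1, h3]
  field_simp

theorem pos_smul (v : Vx K) : M.pos v = (M.S : ℝ) • M.u v := by
  have hS : (M.S : ℝ) ≠ 0 := M.Spos.ne'
  unfold u
  rw [smul_smul, mul_one_div, div_self hS, one_smul]

end Msh

end

end QGd
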