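import Pool.Agent.Lib_MP_6b5565_dg.A2c
import Pool.Agent.Lib_MP_6b5565_dg.A3c
import Pool.Agent.Lib_MP_6b5565_dg.A4d
import Pool.Agent.Lib_MP_6b5565_dg.A5b

/-! [DG-K1] curvatures of the polyhedron -/

namespace QGd

open EuclideanGeometry Vx Dx

noncomputable section

namespace Msh

variable {K : ℕ} (M : Msh K)

private theorem fil0 : (Finset.univ : Finset (Fin 6 × Fin 3)).filter (fun s => CT s.1 s.2 = 0) =
    {(0, 0), (1, 0), (2, 0)} := by decide

private theorem fil1 : (Finset.univ : Finset (Fin 6 × Fin 3)).filter (fun s => CT s.1 s.2 = 1) =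
    {(0, 1), (1, 2), (4, 0), (3, 0)} := by decide

private theorem fil2 : (Finset.univ : Finset (Fin 6 × Fin 3)).filter (fun s => CT s.1 s.2 = 2) =
    {(0, 2), (2, 1), (5, 0), (3, 2)} := by decide

private theorem fil3 : (Finset.univ : Finset (Fin 6 × Fin 3)).filter (fun s => CT s.1 s.2 = 3) =
    {(3, 1), (4, 2), (5, 1)} := by decide

private theorem fil4 : (Finset.univ : Finset (Fin 6 × Fin 3)).filter (fun s => CT s.1 s.2 = 4) =
    {(1, 1), (2, 2), (4, 1), (5, 2)} := by decide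

private theorem sum3 (f : Fin 6 × Fin 3 → ℝ) (a b c : Fin 6 × Fin 3) (hab : a ≠ b) (hac : a ≠ c)
    (hbc : b ≠ c) : ∑ s ∈ ({a, b, c} : Finset (Fin 6 × Fin 3)), f s = f a + f b + f c := by
  rw [Finset.sum_insert (by simp [hab, hac]), Finset.sum_insert (by simp [hbc]),
    Finset.sum_singleton]
  ring

private theorem sum4 (f : Fin 6 × Fin 3 → ℝ) (a b c d : Fin 6 × Fin 3) (hab : a ≠ b) (hac : a ≠ c)
    (had : a ≠ d) (hbc : b ≠ c) (hbd : b ≠ d) (hcd : c ≠ d) :
    ∑ s ∈ ({a, b, c, d} : Finset (Fin 6 × Fin 3)), f s = f a + f b + f c + f d := by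
  rw [Finset.sum_insert (by simp [hab, hac, had]), Finset.sum_insert (by simp [hbc, hbd]),
    Finset.sum_insert (by simp [hcd]), Finset.sum_singleton]
  ring

/-- [DG-K1a] the sectors at the base vertices -/
theorem tot_O : M.P.tot (base 0) = M.sec 0 0 + M.sec 1 0 + M.sec 2 0 := by
  rw [M.tot_base, fil0]
  exact sum3 (fun s => M.sec s.1 s.2) _ _ _ (by decide) (by decide) (by decide)

theorem tot_P : M.P.tot (base 1) = M.sec 0 1 + M.sec 1 2 + M.sec 4 0 + M.sec 3 0 := by
  rw [M.tot_base, fil1]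
  exact sum4 (fun s => M.sec s.1 s.2) _ _ _ _ (by decide) (by decide) (by decide) (by decide)
    (by decide) (by decide)

theorem tot_Q : M.P.tot (base 2) = M.sec 0 2 + M.sec 2 1 + M.sec 5 0 + M.sec 3 2 := by
  rw [M.tot_base, fil2]
  exact sum4 (fun s => M.sec s.1 s.2) _ _ _ _ (by decide) (by decide) (by decide) (by decide)
    (by decide) (by decide)

theorem tot_F : M.P.tot (base 3) = M.sec 3 1 + M.sec 4 2 + M.sec 5 1 := by
  rw [M.tot_base, fil3]
  exact sum3 (fun s => M.sec s.1 s.2) _ _ _ (by decide) (by decide) (by decide)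

theorem tot_G : M.P.tot (base 4) = M.sec 1 1 + M.sec 2 2 + M.sec 4 1 + M.sec 5 2 := by
  rw [M.tot_base, fil4]
  exact sum4 (fun s => M.sec s.1 s.2) _ _ _ _ (by decide) (by decide) (by decide) (by decide)
    (by decide) (by decide)

end Msh

end

end QGd
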