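import Pool.Agent.Lib_MP_6b5565_dg.K1

/-! [DG-K1b] curvatures of the polyhedron -/

namespace QGd

open EuclideanGeometry Vx Dx

noncomputable section

namespace Msh

variable {K : ℕ} (M : Msh K)

private theorem small50 : (1 / 2 : ℝ) ^ 50 ≤ 1 / 10000 := by norm_num

private theorem lo_O : 3 * Real.pi / 2 + 3 / 10 ≤ M.P.tot (base 0) := by
  rw [M.tot_O]
  have h1 := M.sec_lower 0 0
  have h2 := M.sec_lower 1 0
  have h3 := M.sec_lower 2 0
  obtain ⟨e1, -, -, -⟩ := bang_exact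
  obtain ⟨o1, o2, -, -⟩ := bang_obtuse
  linarith

private theorem lo_P : 5 * Real.pi / 4 + 27 / 20 ≤ M.P.tot (base 1) := by
  rw [M.tot_P]
  have h1 := M.sec_lower 0 1
  have h2 := M.sec_lower 1 2
  have h3 := M.sec_lower 4 0
  have h4 := M.sec_lower 3 0
  obtain ⟨-, e2, -, e4⟩ := bang_exact
  obtain ⟨-, -, o3, -⟩ := bang_obtuse
  obtain ⟨m1, -, -⟩ := bang_mid
  linarith

private theorem lo_Q : 3 * Real.pi / 4 + 131 / 50 ≤ M.P.tot (base 2) := by
  rw [M.tot_Q]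
  have h1 := M.sec_lower 0 2
  have h2 := M.sec_lower 2 1
  have h3 := M.sec_lower 5 0
  have h4 := M.sec_lower 3 2
  obtain ⟨-, -, e3, -⟩ := bang_exact
  obtain ⟨-, -, -, o4⟩ := bang_obtuse
  obtain ⟨-, m2, m3⟩ := bang_mid
  linarith

private theorem lo_F : 79 / 50 ≤ M.P.tot (base 3) := by
  rw [M.tot_F]
  have h1 := M.sec_lower 3 1
  have h2 := M.sec_lower 4 2
  have h3 := M.sec_lower 5 1
  obtain ⟨-, -, -, -, s5, s6, s7⟩ := bang_small
  linarith

private theorem lo_G : 38 / 25 ≤ M.P.tot (base 4) := by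
  rw [M.tot_G]
  have h1 := M.sec_lower 1 1
  have h2 := M.sec_lower 2 2
  have h3 := M.sec_lower 4 1
  have h4 := M.sec_lower 5 2
  obtain ⟨s1, s2, s3, s4, -, -, -⟩ := bang_small
  linarith

private theorem up_O : M.P.tot (base 0) ≤ 2 * Real.pi + 1 / 1000 := by
  rw [M.tot_O]
  have h1 := M.sec_upper 0 0
  have h2 := M.sec_upper 1 0
  have h3 := M.sec_upper 2 0
  obtain ⟨e1, -, -, -⟩ := bang_exact
  obtain ⟨u1, u2, -, -, -, -, -⟩ := bang_upper2
  linarith [small50]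

private theorem up_P : M.P.tot (base 1) ≤ 2 * Real.pi + 1 / 1000 := by
  rw [M.tot_P]
  have h1 := M.sec_upper 0 1
  have h2 := M.sec_upper 1 2
  have h3 := M.sec_upper 4 0
  have h4 := M.sec_upper 3 0
  obtain ⟨-, e2, -, e4⟩ := bang_exact
  obtain ⟨-, -, u3, u4, -, -, -⟩ := bang_upper2
  linarith [small50]

private theorem up_Q : M.P.tot (base 2) ≤ 2 * Real.pi + 1 / 1000 := by
  rw [M.tot_Q]
  have h1 := M.sec_upper 0 2
  have h2 := M.sec_upper 2 1
  have h3 := M.sec_upper 5 0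
  have h4 := M.sec_upper 3 2
  obtain ⟨-, -, e3, -⟩ := bang_exact
  obtain ⟨-, -, -, -, u5, u6, u7⟩ := bang_upper2
  linarith [small50]

private theorem up_F : M.P.tot (base 3) ≤ 5 / 2 := by
  rw [M.tot_F]
  have h1 := M.sec_upper 3 1
  have h2 := M.sec_upper 4 2
  have h3 := M.sec_upper 5 1
  obtain ⟨-, -, -, -, s5, s6, s7⟩ := bang_upper
  linarith [small50]

private theorem up_G : M.P.tot (base 4) ≤ 11 / 5 := by
  rw [M.tot_G]
  have h1 := M.sec_upper 1 1
  have h2 := M.sec_upper 2 2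
  have h3 := M.sec_upper 4 1
  have h4 := M.sec_upper 5 2
  obtain ⟨s1, s2, s3, s4, -, -, -⟩ := bang_upper
  linarith [small50]

private theorem kap_def (b : Fin 5) : M.P.kap (base b) = 2 * Real.pi - M.P.tot (base b) := rfl

/-- [DG-K1b] curvature pairs (`O, P, Q` : at least `3π/2 + 1/10 - ...`; margins: `tot Q ≥ 4.976`,
`tot F ≥ 1.58`, `tot G ≥ 1.52`) -/
theorem kap_pair (b : Fin 5) (hb : b = 0 ∨ b = 1 ∨ b = 2) (j : Fin 5) (hj : j = 3 ∨ j = 4) :
    M.P.kap (base b) + M.P.kap (base j) ≤ 2 * Real.pi - 1 / 10 := by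
  have hp := Real.pi_lt_d2
  have hp0 := Real.pi_gt_three
  rw [M.kap_def, M.kap_def]
  have hj' : 38 / 25 ≤ M.P.tot (base j) := by
    rcases hj with rfl | rfl
    · linarith [M.lo_F]
    · exact M.lo_G
  have hb' : 2 * Real.pi - 7 / 5 ≤ M.P.tot (base b) := by
    rcases hb with rfl | rfl | rfl
    · linarith [M.lo_O]
    · linarith [M.lo_P]
    · linarith [M.lo_Q]
  linarith

/-- [DG-K1c] -/
theorem kap_FG : 2 * Real.pi + 1 / 10 ≤ M.P.kap (base 3) + M.P.kap (base 4) := by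
  rw [M.kap_def, M.kap_def]
  linarith [M.up_F, M.up_G, Real.pi_gt_three]

/-- [DG-K1d] one base vertex -/
theorem kap_one (b : Fin 5) : M.P.kap (base b) ≤ 2 * Real.pi - 1 / 10 := by
  have hp0 := Real.pi_gt_three
  rw [M.kap_def]
  have h0 := M.lo_O
  have h1 := M.lo_P
  have h2 := M.lo_Q
  have h3 := M.lo_F
  have h4 := M.lo_G
  have hall : ∀ b : Fin 5, b = 0 ∨ b = 1 ∨ b = 2 ∨ b = 3 ∨ b = 4 := by decide
  rcases hall b with rfl | rfl | rfl | rfl | rfl <;> linarith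

/-- [DG-K1f] `O, P, Q` have almost nonnegative curvature (`bang_upper2`, `sec_upper`) -/
theorem kap_ge (b : Fin 5) (hb : b = 0 ∨ b = 1 ∨ b = 2) : -(1 / 1000) ≤ M.P.kap (base b) := by
  rw [M.kap_def]
  rcases hb with rfl | rfl | rfl
  · linarith [M.up_O]
  · linarith [M.up_P]
  · linarith [M.up_Q]

end Msh

end

end QGd
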