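import Pool.Agent.Lib_MP_6b5565_dg.K1b

/-! [DG-K1c] curvatures of the polyhedron -/

namespace QGd

open EuclideanGeometry Vx Dx

noncomputable section

namespace Msh

variable {K : ℕ} (M : Msh K)

private theorem kap_small (v : Vx K) (hv : ∀ b, v ≠ base b) : |M.P.kap v| ≤ eta K := by
  have hk : M.P.kap v = -(M.P.tot v - 2 * Real.pi) := by
    show 2 * Real.pi - M.P.tot v = _
    ring
  rw [hk, abs_neg]
  rcases v with b | T | ⟨T, e, i⟩
  · exact absurd rfl (hv b)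
  · rw [abs_le]
    constructor
    · linarith [M.tot_ctr_lower T]
    · linarith [M.tot_ctr_upper T]
  · exact M.tot_leg_near T e i

private theorem num (K : ℕ) : ((11 + 18 * (K + 1) : ℕ) : ℝ) * eta K ≤ 1 / 100 := by
  have h1 : K + 1 ≤ 2 ^ K := Nat.lt_two_pow_self
  have h2 : 11 + 18 * (K + 1) ≤ 29 * 2 ^ K := by omega
  have h3 : ((11 + 18 * (K + 1) : ℕ) : ℝ) ≤ 29 * 2 ^ K := by exact_mod_cast h2
  have h4 : (2 : ℝ) ^ K * (1 / 2) ^ K = 1 := by
    rw [← mul_pow]; norm_num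
  have h5 : (1 / 2 : ℝ) ^ K ≤ 1 := pow_le_one₀ (by norm_num) (by norm_num)
  have he : eta K = (1 / 2 : ℝ) ^ K * (1 / 2) ^ K * (1 / 2) ^ 60 := by
    unfold eta
    rw [← pow_add, ← pow_add]
    congr 1
    omega
  have hpos : 0 ≤ eta K := by unfold eta; positivity
  calc ((11 + 18 * (K + 1) : ℕ) : ℝ) * eta K ≤ 29 * 2 ^ K * eta K :=
        mul_le_mul_of_nonneg_right h3 hpos
    _ = 29 * (2 ^ K * (1 / 2) ^ K) * (1 / 2) ^ K * (1 / 2) ^ 60 := by rw [he]; ring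
    _ = 29 * (1 / 2) ^ K * (1 / 2) ^ 60 := by rw [h4]; ring
    _ ≤ 29 * 1 * (1 / 2) ^ 60 := by gcongr
    _ ≤ 1 / 100 := by norm_num

/-- [DG-K1e] the mesh vertices -/
theorem kap_mesh (s : Finset (Vx K)) (hs : ∀ v ∈ s, ∀ b, v ≠ base b) :
    |∑ v ∈ s, M.P.kap v| ≤ 1 / 100 := by
  have hpos : 0 ≤ eta K := by unfold eta; positivity
  have hc : s.card ≤ 11 + 18 * (K + 1) := by
    rw [← card_Vx (K := K)]
    exact Finset.card_le_univ s
  calc |∑ v ∈ s, M.P.kap v| ≤ ∑ v ∈ s, |M.P.kap v| := Finset.abs_sum_le_sum_abs _ _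
    _ ≤ ∑ v ∈ s, eta K := Finset.sum_le_sum fun v hv => M.kap_small v (hs v hv)
    _ = (s.card : ℝ) * eta K := by rw [Finset.sum_const, nsmul_eq_mul]
    _ ≤ ((11 + 18 * (K + 1) : ℕ) : ℝ) * eta K := by
        apply mul_le_mul_of_nonneg_right _ hpos
        exact_mod_cast hc
    _ ≤ 1 / 100 := num K

end Msh

end

end QGd
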