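import Pool.Agent.Lib_MP_6b5565_dg.K1c
import Pool.Agent.Lib_MP_6b5565_dg.G2d

/-! [DG-K2] every simple closed quasigeodesic visits a base vertex -/

namespace QGd

open EuclideanGeometry Vx Dx

noncomputable section

variable {K : ℕ} {M : Msh K} {N : ℕ} [NeZero N]

omit [NeZero N] in
/-- the curvature of a colour class: base vertices and mesh vertices -/
private theorem K_split (Z : Finset (Vx K)) (hZ : ∀ v ∈ Z, ∀ b, v ≠ base b) (col : Vx K → ZMod 2)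
    (c : ZMod 2) : ∃ m : ℝ, |m| ≤ 1 / 100 ∧
      M.P.K Z col c = (∑ b : Fin 5, if col (base b) = c then M.P.kap (base b) else 0) + m := by
  classical
  obtain ⟨S, hS⟩ : ∃ S : Finset (Vx K), S = Finset.univ.filter (fun v => v ∉ Z ∧ col v = c) :=
    ⟨_, rfl⟩
  obtain ⟨kp, hkp⟩ : ∃ kp : Vx K → ℝ, kp = fun v => M.P.kap v := ⟨_, rfl⟩
  have hK : M.P.K Z col c = ∑ v ∈ S, kp v := by
    rw [hS, hkp]
    unfold Poly.K
    refine Finset.sum_congr (Finset.ext fun v => ⟨fun hv => ?_, fun hv => ?_⟩) (fun _ _ => rfl)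
    · exact Finset.mem_filter.2 ⟨Finset.mem_univ _, (Finset.mem_filter.1 hv).2⟩
    · exact Finset.mem_filter.2 ⟨Finset.mem_univ _, (Finset.mem_filter.1 hv).2⟩
  have h1 : ∑ v ∈ S.filter (fun v => ∃ b, v = base b), kp v =
      ∑ b : Fin 5, if col (base b) = c then kp (base b) else 0 := by
    have e : S.filter (fun v => ∃ b, v = base b) =
        (Finset.univ.filter (fun b : Fin 5 => col (base b) = c)).image
          (fun b => (base b : Vx K)) := by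
      ext v
      simp only [hS, Finset.mem_filter, Finset.mem_univ, true_and, Finset.mem_image]
      constructor
      · rintro ⟨⟨_, h2⟩, b, rfl⟩
        exact ⟨b, h2, rfl⟩
      · rintro ⟨b, h2, rfl⟩
        exact ⟨⟨fun h3 => hZ _ h3 b rfl, h2⟩, b, rfl⟩
    rw [e, Finset.sum_image (fun a _ b _ h => by simpa using h), Finset.sum_filter]
  refine ⟨∑ v ∈ S.filter (fun v => ¬ ∃ b, v = base b), kp v, ?_, ?_⟩
  · rw [hkp]
    exact M.kap_mesh _ (fun v hv b h => (Finset.mem_filter.1 hv).2 ⟨b, h⟩)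
  · rw [hK, ← Finset.sum_filter_add_sum_filter_not S (fun v => ∃ b, v = base b) kp, h1, hkp]

private theorem zmod2_cases (x : ZMod 2) : x = 0 ∨ x = 1 := by
  revert x; decide

omit [NeZero N] in
/-- [DG-K2a] no 2-colouring is balanced: `F, G` in one class: more than `2π`; otherwise one class
contains at most one of `F, G` and at most one of `O, P, Q`, so it has less than `2π - 1/10 + 1/50`,
and the other one more than `2π` (`K_add'`, total `4π`; the visited mesh vertices have a small sum). -/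
theorem not_bal (Z : Finset (Vx K)) (hZ : ∀ v ∈ Z, ∀ b, v ≠ base b) (col : Vx K → ZMod 2)
    (h : ∀ c, M.P.K Z col c ≤ 2 * Real.pi) : False := by
  obtain ⟨m0, hm0, e0⟩ := K_split (M := M) Z hZ col 0
  obtain ⟨m1, hm1, e1⟩ := K_split (M := M) Z hZ col 1
  have h0 := h 0
  have h1 := h 1
  have hz : |∑ v ∈ Z, M.P.kap v| ≤ 1 / 100 := M.kap_mesh Z hZ
  rw [abs_le] at hm0 hm1 hz
  obtain ⟨z, hz'⟩ : ∃ z, z = ∑ v ∈ Z, M.P.kap v := ⟨_, rfl⟩
  rw [← hz'] at hz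
  have hadd : M.P.K Z col 0 + M.P.K Z col 1 + z = 4 * Real.pi := by
    rw [hz']
    exact M.P.K_add Z col
  obtain ⟨K0, hK0⟩ : ∃ x, x = M.P.K Z col 0 := ⟨_, rfl⟩
  obtain ⟨K1, hK1⟩ : ∃ x, x = M.P.K Z col 1 := ⟨_, rfl⟩
  rw [← hK0] at h0 hadd e0
  rw [← hK1] at h1 hadd e1
  have p03 := M.kap_pair 0 (Or.inl rfl) 3 (Or.inl rfl)
  have p04 := M.kap_pair 0 (Or.inl rfl) 4 (Or.inr rfl)
  have p13 := M.kap_pair 1 (Or.inr (Or.inl rfl)) 3 (Or.inl rfl)
  have p14 := M.kap_pair 1 (Or.inr (Or.inl rfl)) 4 (Or.inr rfl)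
  have p23 := M.kap_pair 2 (Or.inr (Or.inr rfl)) 3 (Or.inl rfl)
  have p24 := M.kap_pair 2 (Or.inr (Or.inr rfl)) 4 (Or.inr rfl)
  have fg := M.kap_FG
  have o3 := M.kap_one 3
  have o4 := M.kap_one 4
  have g0 := M.kap_ge 0 (Or.inl rfl)
  have g1 := M.kap_ge 1 (Or.inr (Or.inl rfl))
  have g2 := M.kap_ge 2 (Or.inr (Or.inr rfl))
  rw [Fin.sum_univ_five] at e0 e1
  obtain ⟨k0, hk0⟩ : ∃ x, x = M.P.kap (base 0) := ⟨_, rfl⟩
  obtain ⟨k1, hk1⟩ : ∃ x, x = M.P.kap (base 1) := ⟨_, rfl⟩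
  obtain ⟨k2, hk2⟩ : ∃ x, x = M.P.kap (base 2) := ⟨_, rfl⟩
  obtain ⟨k3, hk3⟩ : ∃ x, x = M.P.kap (base 3) := ⟨_, rfl⟩
  obtain ⟨k4, hk4⟩ : ∃ x, x = M.P.kap (base 4) := ⟨_, rfl⟩
  rw [← hk0, ← hk1, ← hk2, ← hk3, ← hk4] at e0 e1
  rw [← hk0, ← hk3] at p03
  rw [← hk0, ← hk4] at p04
  rw [← hk1, ← hk3] at p13
  rw [← hk1, ← hk4] at p14
  rw [← hk2, ← hk3] at p23
  rw [← hk2, ← hk4] at p24
  rw [← hk3, ← hk4] at fg
  rw [← hk3] at o3
  rw [← hk4] at o4
  rw [← hk0] at g0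
  rw [← hk1] at g1
  rw [← hk2] at g2
  have hne : (1 : ZMod 2) ≠ 0 := by decide
  have hne' : (0 : ZMod 2) ≠ 1 := by decide
  rcases zmod2_cases (col (base 0)) with c0 | c0 <;>
  rcases zmod2_cases (col (base 1)) with c1 | c1 <;>
  rcases zmod2_cases (col (base 2)) with c2 | c2 <;>
  rcases zmod2_cases (col (base 3)) with c3 | c3 <;>
  rcases zmod2_cases (col (base 4)) with c4 | c4 <;>
  · rw [c0, c1, c2, c3, c4] at e0 e1
    simp only [if_true, if_neg hne, if_neg hne'] at e0 e1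
    linarith

end

end QGd
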