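import Pool.Agent.Lib_MP_6b5565_dg.K2

/-! [DG-K2b] every simple closed quasigeodesic visits a base vertex -/

namespace QGd

open EuclideanGeometry Vx Dx

noncomputable section

variable {K : ℕ} {M : Msh K} {N : ℕ} [NeZero N]

/-- [DG-K2b] (`SCQ.bal`; `ang_le`, `tot_leg_near`, `tot_ctr_lower` for the hypothesis) -/
theorem visits_base (γ : SCQ M.P N) : ∃ i b, γ.x i = M.pos (base b) := by
  by_contra hn
  push Not at hn
  have hb : ∀ (i : ZMod N) (v : Vx K), γ.x i = M.P.pos v → ∀ b, v ≠ base b := by
    rintro i v hv b rfl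
    exact hn i b hv
  obtain ⟨col, hcol⟩ := γ.bal (fun i v hv d _ => by
    have h1 := M.ang_le d
    have h2 : eta K < (1 / 2) ^ (K + 20) := by
      unfold eta
      exact pow_lt_pow_right_of_lt_one₀ (by norm_num) (by norm_num) (by omega)
    have h3 : 2 * Real.pi - eta K ≤ M.P.tot v := by
      cases v with
      | base b => exact absurd rfl (hb i _ hv b)
      | ctr T => exact M.tot_ctr_lower T
      | leg T e j =>
        have := (abs_le.1 (M.tot_leg_near T e j)).1
        linarith
    linarith)
  have hvis : ∀ v : M.P.V, v ∈ γ.vis → ∃ i, γ.x i = M.P.pos v := fun v hv => by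
    unfold SCQ.vis at hv
    exact ((@Finset.mem_filter M.P.V (fun v => ∃ i, γ.x i = M.P.pos v)
      (fun _ => Classical.propDecidable _) Finset.univ v).1 hv).2
  refine not_bal (M := M) γ.vis (fun v hv b => ?_) col hcol
  obtain ⟨i, hi⟩ := hvis v hv
  exact hb i v hi b

end

end QGd
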