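import Pool.Agent.Lib_MP_6b5565_dg.K1c
import Pool.Agent.Lib_MP_6b5565_dg.G1b

/-! [DG-K3] passages from base edge to base edge at a base vertex -/

namespace QGd

open EuclideanGeometry Vx Dx

noncomputable section

variable {K : ℕ} {M : Msh K} {N : ℕ} [NeZero N]

/-- the base neighbour at the start of the sector `s` -/
def nbr (s : Fin 6 × Fin 3) : Fin 5 := CT s.1 (s.2 + 1)

private theorem K3_pos_mem {P : Poly} (d : P.D) : P.pos (P.tail d) ∈ P.tri d :=
  subset_convexHull ℝ _ (by left; rfl)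

private theorem K3_face {P : Poly} {d e : P.D} (hde : P.tail d = P.tail e)
    (h : P.B e ∈ P.tri d) : d = e ∨ P.rot d = e := by
  obtain ⟨f, h1, h2, h3⟩ := P.edge_of_two_vertices (K3_pos_mem d) h
    (fun h' => P.tail_ne_head e (hde ▸ h'))
  have hf : f = e := P.edge_inj f e (h1.trans hde) h2
  subst hf
  rcases h3 with h3 | h3
  · exact Or.inl (P.SF_tail_inj h3 hde)
  · right
    have h4 : P.head (P.inv f) = P.tail d := by rw [P.tail_eq_head_inv, hde]
    rcases h3 with h3 | h3 | h3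
    · rw [h3] at h4
      exact absurd h4.symm (P.tail_ne_head d)
    · rw [h3, P.head_nxt] at h4
      exact absurd h4.symm (P.tail_ne_prev d)
    · show P.inv (P.prev d) = f
      rw [← h3, P.inv_inv]

private theorem K3_ang {P : Poly} {v : P.V} {d : P.D} (hd : P.tail d = v) :
    ∠ (P.B d) (P.pos v) (P.B (P.rot d)) = P.ang d := by
  rw [← P.ang_eq d]
  unfold Poly.A
  rw [hd]

private theorem K3_zero {P : Poly} {v : P.V} {d : P.D} (hd : P.tail d = v) :
    ∠ (P.B d) (P.pos v) (P.B d) = 0 := by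
  apply EuclideanGeometry.angle_self_of_ne
  intro h
  exact P.A_ne_B d (by unfold Poly.A; rw [hd]; exact h.symm)

private theorem K3_tail {P : Poly} (d : P.D) (k : ℕ) : P.tail (P.rot^[k] d) = P.tail d := by
  induction k with
  | zero => rfl
  | succ k ih => rw [Function.iterate_succ_apply', P.tail_rot, ih]

private theorem K3_side {P : Poly} {a b : P.D} {m : ℕ} (hb : P.rot^[m] a = b) (hm : 1 ≤ m)
    (hmd : m < P.deg (P.tail a)) (h2 : P.rot a ≠ b) (h3 : P.rot b ≠ a) {v : P.V}
    (hv : P.tail a = v) (α : ℝ) (h : P.Side v (P.B a) (P.B b) α) :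
    α = ∑ i ∈ Finset.range m, P.ang (P.rot^[i] a) := by
  have hbt : P.tail b = P.tail a := by rw [← hb, K3_tail]
  have hab : a ≠ b := by
    intro h'
    have : P.rot^[m] a = P.rot^[0] a := by rw [hb, ← h']; rfl
    have := P.iterate_rot_inj a hmd (by omega) this
    omega
  rcases h with ⟨d, hd, hp, hq, -⟩ | ⟨d, k, hd, hk1, hk2, hp, hq, hα⟩
  · exfalso
    have hda : P.tail d = P.tail a := hd.trans hv.symm
    rcases K3_face hda hp with e1 | e1 <;>
      rcases K3_face (hda.trans hbt.symm) hq with e2 | e2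
    · exact hab (e1 ▸ e2)
    · exact h2 (e1 ▸ e2)
    · exact h3 (e2 ▸ e1)
    · exact hab (e1 ▸ e2)
  · have hda : P.tail d = P.tail a := hd.trans hv.symm
    have hkd : P.tail (P.rot^[k] d) = P.tail b := by rw [K3_tail, hda, hbt]
    have hdeg : P.deg v = P.deg (P.tail a) := by rw [hv]
    rw [hdeg] at hk2
    subst hv
    have z2 : ∠ (P.B b) (P.pos (P.tail a)) (P.B b) = 0 := K3_zero hbt
    have z1 : ∠ (P.B a) (P.pos (P.tail a)) (P.B a) = 0 := K3_zero rfl
    have aq : ∠ (P.B (P.rot^[k] d)) (P.pos (P.tail a)) (P.B (P.rot (P.rot^[k] d))) =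
        P.ang (P.rot^[k] d) := K3_ang (by rw [K3_tail, hda])
    rcases K3_face hda hp with e1 | e1
    · subst e1
      have ap : ∠ (P.B d) (P.pos (P.tail d)) (P.B (P.rot d)) = P.ang d := K3_ang rfl
      have hbot : ∑ i ∈ Finset.range k, P.ang (P.rot^[i] d) =
          P.ang d + ∑ j ∈ Finset.Ico 1 k, P.ang (P.rot^[j] d) := by
        rw [Finset.range_eq_Ico, Finset.sum_eq_sum_Ico_succ_bot (by omega : 0 < k)]
        rfl
      rcases K3_face hkd hq with e2 | e2
      · have hkm : k = m := P.iterate_rot_inj d hk2 hmd (e2.trans hb.symm)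
        subst hkm
        rw [e2, z2, ap] at hα
        rw [hα, hbot]
        ring
      · have e3 : P.rot^[k + 1] d = b := by rw [Function.iterate_succ_apply']; exact e2
        have hkm : k + 1 = m := by
          rcases Nat.lt_or_ge (k + 1) (P.deg (P.tail d)) with h' | h'
          · exact P.iterate_rot_inj d h' hmd (e3.trans hb.symm)
          · have h4 : k + 1 = P.deg (P.tail d) := by omega
            rw [h4, P.iterate_rot_deg] at e3
            exact absurd e3 hab
        rw [e2] at aq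
        rw [aq, ap] at hα
        rw [hα, ← hkm, Finset.sum_range_succ, hbot]
    · rw [e1, z1] at hα
      have hit : ∀ i, P.rot^[i + 1] d = P.rot^[i] a := fun i => by
        rw [Function.iterate_succ_apply, e1]
      have hsum : ∀ n, ∑ j ∈ Finset.Ico 1 (n + 1), P.ang (P.rot^[j] d) =
          ∑ i ∈ Finset.range n, P.ang (P.rot^[i] a) := by
        intro n
        rw [Finset.range_eq_Ico, ← Finset.sum_Ico_add' (fun j => P.ang (P.rot^[j] d)) 0 n 1]
        refine Finset.sum_congr rfl (fun i _ => ?_)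
        rw [hit]
      rcases K3_face hkd hq with e2 | e2
      · obtain ⟨k', rfl⟩ : ∃ k', k = k' + 1 := ⟨k - 1, by omega⟩
        have e3 : P.rot^[k'] a = b := by rw [← hit]; exact e2
        have hkm : k' = m := P.iterate_rot_inj a (by omega) hmd (e3.trans hb.symm)
        rw [e2, z2, hsum, hkm] at hα
        rw [hα]
        ring
      · have e3 : P.rot^[k] a = b := by
          rw [← hit, Function.iterate_succ_apply']
          exact e2
        have hkm : k = m := P.iterate_rot_inj a hk2 hmd (e3.trans hb.symm)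
        rw [e2] at aq
        rw [aq] at hα
        rw [hα, ← hkm, ← hsum k, Finset.sum_Ico_succ_top hk1]
        ring

private theorem K3_rot_iter (M : Msh K) (d : Dx K) (n : ℕ) : M.P.rot^[n] d = rt^[n] d := rfl

private theorem K3_nsec (s : Fin 6 × Fin 3) :
    rt^[2 * K + 4] (E s.1 (s.2 + 2) 0 : Dx K) = E (nsec s).1 ((nsec s).2 + 2) 0 := by
  rw [sector_4]
  have h : ∀ x : Fin 3, x + 1 + 2 = x := by decide
  unfold nsec
  simp only [h]

private theorem K3_nsec_iter (s : Fin 6 × Fin 3) (j : ℕ) :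
    rt^[j * (2 * K + 4)] (E s.1 (s.2 + 2) 0 : Dx K) =
      E (nsec^[j] s).1 ((nsec^[j] s).2 + 2) 0 := by
  induction j with
  | zero => simp
  | succ j ih =>
    rw [show (j + 1) * (2 * K + 4) = (2 * K + 4) + j * (2 * K + 4) by ring,
      Function.iterate_add_apply, ih, K3_nsec, Function.iterate_succ_apply']

private theorem K3_sec (M : Msh K) (s : Fin 6 × Fin 3) :
    ∑ i ∈ Finset.range (2 * K + 4), M.P.ang (M.P.rot^[i] (E s.1 (s.2 + 2) 0 : Dx K)) =
      M.sec s.1 s.2 := by
  unfold Msh.sec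
  have h1 : ∀ j : Fin (K + 1), M.P.rot^[(j : ℕ) + 1] (E s.1 (s.2 + 2) 0 : Dx K) =
      L s.1 (s.2 + 2) (Fin.last K - j) 0 := fun j => sector_1 s.1 s.2 j
  have h2 : ∀ j : Fin (K + 1), M.P.rot^[K + 2 + (j : ℕ)] (E s.1 (s.2 + 2) 0 : Dx K) =
      R s.1 (s.2 + 1) j 0 := fun j => sector_2 s.1 s.2 j
  have h3 : M.P.rot^[2 * K + 3] (E s.1 (s.2 + 2) 0 : Dx K) = E s.1 (s.2 + 1) 1 :=
    sector_3 s.1 s.2
  rw [Finset.sum_range_succ, h3]
  congr 1
  rw [show 2 * K + 3 = (K + 2) + (K + 1) by ring, Finset.sum_range_add]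
  congr 1
  · rw [Finset.sum_range_succ']
    rw [add_comm]
    congr 1
    rw [← Fin.sum_univ_eq_sum_range
      (fun i => M.P.ang (M.P.rot^[i + 1] (E s.1 (s.2 + 2) 0 : Dx K))) (K + 1)]
    simp_rw [h1]
    exact (Equiv.subLeft (Fin.last K)).sum_comp (fun i => M.P.ang (L s.1 (s.2 + 2) i 0))
  · rw [← Fin.sum_univ_eq_sum_range
      (fun i => M.P.ang (M.P.rot^[K + 2 + i] (E s.1 (s.2 + 2) 0 : Dx K))) (K + 1)]
    simp_rw [h2]

private theorem K3_sum (M : Msh K) (s : Fin 6 × Fin 3) (j : ℕ) :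
    ∑ i ∈ Finset.range (j * (2 * K + 4)), M.P.ang (M.P.rot^[i] (E s.1 (s.2 + 2) 0 : Dx K)) =
      ∑ i ∈ Finset.range j, M.sec (nsec^[i] s).1 (nsec^[i] s).2 := by
  induction j with
  | zero => simp
  | succ j ih =>
    rw [show (j + 1) * (2 * K + 4) = j * (2 * K + 4) + (2 * K + 4) by ring,
      Finset.sum_range_add, ih,
      Finset.sum_range_succ (fun i => M.sec (nsec^[i] s).1 (nsec^[i] s).2) j,
      ← K3_sec M (nsec^[j] s)]
    congr 1
    refine Finset.sum_congr rfl (fun i _ => ?_)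
    rw [add_comm, Function.iterate_add_apply]
    have h := K3_nsec_iter (K := K) s j
    rw [← K3_rot_iter M] at h
    rw [h]

private theorem K3_not_start (s t : Fin 6 × Fin 3) (r : ℕ) (h0 : 1 ≤ r) (h1 : r < 2 * K + 4) :
    rt^[r] (E t.1 (t.2 + 2) 0 : Dx K) ≠ E s.1 (s.2 + 2) 0 := by
  rcases Nat.lt_or_ge r (K + 2) with h | h
  · have h2 := sector_1 (K := K) t.1 t.2 ⟨r - 1, by omega⟩
    have h3 : ((⟨r - 1, by omega⟩ : Fin (K + 1)) : ℕ) + 1 = r := by
      show r - 1 + 1 = r
      omega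
    rw [h3] at h2
    rw [h2]
    intro h'
    cases h'
  · rcases Nat.lt_or_ge r (2 * K + 3) with h' | h'
    · have h2 := sector_2 (K := K) t.1 t.2 ⟨r - (K + 2), by omega⟩
      have h3 : K + 2 + ((⟨r - (K + 2), by omega⟩ : Fin (K + 1)) : ℕ) = r := by
        show K + 2 + (r - (K + 2)) = r
        omega
      rw [h3] at h2
      rw [h2]
      intro h''
      cases h''
    · have h3 : r = 2 * K + 3 := by omega
      rw [h3, sector_3]
      intro h''
      injection h'' with _ _ h4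
      exact absurd h4 (by decide)

private theorem K3_deg (M : Msh K) (s : Fin 6 × Fin 3) (j : ℕ)
    (hj : ∀ i, 1 ≤ i → i ≤ j → nsec^[i] s ≠ s) :
    j * (2 * K + 4) < M.P.deg (M.P.tail (E s.1 (s.2 + 2) 0 : Dx K)) := by
  by_contra hcon
  push Not at hcon
  have hD := M.P.iterate_rot_deg (E s.1 (s.2 + 2) 0 : Dx K)
  have h3 := M.P.three_le_deg (M.P.tail (E s.1 (s.2 + 2) 0 : Dx K))
  generalize M.P.deg (M.P.tail (E s.1 (s.2 + 2) 0 : Dx K)) = D at hcon hD h3
  obtain ⟨a, r, hr, hDar⟩ : ∃ a r, r < 2 * K + 4 ∧ D = r + a * (2 * K + 4) :=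
    ⟨D / (2 * K + 4), D % (2 * K + 4), Nat.mod_lt _ (by omega),
      (Nat.mod_add_div' D (2 * K + 4)).symm⟩
  have hD' : rt^[r] (rt^[a * (2 * K + 4)] (E s.1 (s.2 + 2) 0 : Dx K)) = E s.1 (s.2 + 2) 0 := by
    rw [← Function.iterate_add_apply, ← hDar]
    exact hD
  rw [K3_nsec_iter] at hD'
  rcases Nat.eq_zero_or_pos r with h | h
  · subst h
    have h5 : (E (nsec^[a] s).1 ((nsec^[a] s).2 + 2) 0 : Dx K) = E s.1 (s.2 + 2) 0 := hD'
    injection h5 with h6 h7 _
    have h8 : nsec^[a] s = s := by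
      refine Prod.ext h6 ?_
      exact add_right_cancel h7
    have ha1 : 1 ≤ a := by
      rcases Nat.eq_zero_or_pos a with h9 | h9
      · subst h9
        omega
      · exact h9
    have ha2 : a ≤ j := by
      rw [Nat.zero_add] at hDar
      rw [hDar] at hcon
      exact Nat.le_of_mul_le_mul_right hcon (by omega)
    exact hj a ha1 ha2 h8
  · exact K3_not_start s (nsec^[a] s) r h hr hD'

private theorem K3_B (M : Msh K) (s : Fin 6 × Fin 3) :
    M.P.B (E s.1 (s.2 + 2) 0 : Dx K) = M.pos (base (nbr s)) := by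
  have h : M.P.head (E s.1 (s.2 + 2) 0 : Dx K) = base (nbr s) := by
    rw [M.P.head_eq]
    show tl (nx (E s.1 (s.2 + 2) 0 : Dx K)) = _
    have h1 : ∀ x : Fin 3, x + 2 + 2 = x + 1 := by decide
    show base (CT s.1 (s.2 + 2 + 2)) = base (CT s.1 (s.2 + 1))
    rw [h1]
  unfold Poly.B
  rw [h]
  rfl

private theorem K3_T (M : Msh K) (s : Fin 6 × Fin 3) :
    M.P.tail (E s.1 (s.2 + 2) 0 : Dx K) = base (CT s.1 s.2) := by
  have h1 : ∀ x : Fin 3, x + 2 + 1 = x := by decide
  show base (CT s.1 (s.2 + 2 + 1)) = base (CT s.1 s.2)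
  rw [h1]

/-- [DG-K3a] SIDES. At the base vertex `b = CT s`, from the base edge at the start of the sector `s`
counterclockwise to the base edge at the start of the sector `nsec^[j] s`: the angle `α` of `Side` is
the sum of the sectors in between. (`Side`: start half-edge `d` with `pos a ∈ tri d`: `d` is
`E s.1 (s.2+2) 0` or the one before it in the rotation; end half-edge likewise; `sector_4` : `rt^(2K+4)`
of the start of a sector is the start of the next one; the degree of `b` is `(2K+4) * #sectors`.) -/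
theorem side_sec (s : Fin 6 × Fin 3) (j : ℕ) (h0 : 1 ≤ j) (hj : ∀ i, 1 ≤ i → i ≤ j → nsec^[i] s ≠ s)
    (α : ℝ) (h : M.P.Side (base (CT s.1 s.2)) (M.pos (base (nbr s)))
      (M.pos (base (nbr (nsec^[j] s)))) α) :
    α = ∑ i ∈ Finset.range j, M.sec (nsec^[i] s).1 (nsec^[i] s).2 := by
  rw [← K3_sum M s j]
  have hb := K3_nsec_iter (K := K) s j
  rw [← K3_B M s, ← K3_B M (nsec^[j] s)] at h
  refine K3_side (P := M.P) (a := (E s.1 (s.2 + 2) 0 : Dx K))
    (b := (E (nsec^[j] s).1 ((nsec^[j] s).2 + 2) 0 : Dx K)) hb ?_ (K3_deg M s j hj) ?_ ?_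
    (K3_T M s) α h
  · have : 1 * 1 ≤ j * (2 * K + 4) := Nat.mul_le_mul h0 (by omega)
    omega
  · exact K3_not_start (K := K) (nsec^[j] s) s 1 (le_refl 1) (by omega)
  · exact K3_not_start (K := K) s (nsec^[j] s) 1 (le_refl 1) (by omega)

end

end QGd
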