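import Pool.Agent.Lib_MP_6b5565_dg.K3

/-! [DG-K3b] passages from base edge to base edge at a base vertex -/

namespace QGd

open EuclideanGeometry Vx Dx

noncomputable section

variable {K : ℕ} {M : Msh K} {N : ℕ} [NeZero N]

/-- blocked passages `a → b → c` -/
def Bl (b a c : Fin 5) : Prop :=
  b = 0 ∨ (b = 1 ∧ a ≠ 0 ∧ c ≠ 0) ∨ (b = 2 ∧ a ≠ 0 ∧ a ≠ 1 ∧ c ≠ 0 ∧ c ≠ 1)

private theorem pre_ne_base_k3b {K : ℕ} (T : Fin 6) (e : Fin 3) (i : Fin (K + 1)) (a : Fin 5)
    (h : pre T e i = base a) : False := by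
  unfold pre at h
  split_ifs at h <;> cases h

private theorem leg_ne_base_k3b {K : ℕ} (T : Fin 6) (e : Fin 3) (i : Fin (K + 1)) (a : Fin 5)
    (h : leg T e i = base a) : False := by
  cases h

/-- [DG-K3b] two base vertices in one face of the mesh are joined by a base edge -/
theorem base_adj (d : Dx K) (a b : Fin 5) (hab : a ≠ b) (ha : M.pos (base a) ∈ M.P.tri d)
    (hb : M.pos (base b) ∈ M.P.tri d) : ∃ s : Fin 6 × Fin 3, CT s.1 s.2 = a ∧ nbr s = b := by
  have hne : (base a : Vx K) ≠ base b := fun h => hab (Vx.base.inj h)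
  obtain ⟨e, he1, he2, -⟩ := M.P.edge_of_two_vertices (d := d) (v := base a) (w := base b) ha hb hne
  have he2' : tl (nx e) = (base b : Vx K) := by
    rw [← tl_iv]
    exact he2
  have he1' : tl e = (base a : Vx K) := he1
  rcases e with ⟨T, e, i, k⟩ | ⟨T, e, i, k⟩ | ⟨T, e, k⟩
  · exfalso
    fin_cases k
    · exact leg_ne_base_k3b T e i b he2'
    · exact leg_ne_base_k3b T e i a he1'
    · exact pre_ne_base_k3b T e i a he1'
  · exfalso
    fin_cases k
    · exact pre_ne_base_k3b T e i b he2'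
    · exact pre_ne_base_k3b T e i a he1'
    · exact leg_ne_base_k3b T e i a he1'
  · fin_cases k
    · refine ⟨(T, e + 1), Vx.base.inj he1', ?_⟩
      have h2 : ∀ f : Fin 3, f + 1 + 1 = f + 2 := by decide
      show CT T (e + 1 + 1) = b
      rw [h2]
      exact Vx.base.inj he2'
    · exact (leg_ne_base_k3b T e (Fin.last K) b he2').elim
    · exact (leg_ne_base_k3b T e (Fin.last K) a he1').elim

end

end QGd
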