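import Pool.Agent.Lib_MP_6b5565_dg.K3b

/-! [DG-K3c] passages from base edge to base edge at a base vertex -/

namespace QGd

open EuclideanGeometry Vx Dx

noncomputable section

variable {K : ℕ} {M : Msh K} {N : ℕ} [NeZero N]

private instance decBl_k3c (b a c : Fin 5) : Decidable (Bl b a c) := by
  unfold Bl
  infer_instance

/-- the sum of the sectors -/
private def SS_k3c (M : Msh K) (s : Fin 6 × Fin 3) (j : ℕ) : ℝ :=
  ∑ i ∈ Finset.range j, M.sec (nsec^[i] s).1 (nsec^[i] s).2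

private theorem S1_k3c (M : Msh K) (s : Fin 6 × Fin 3) : SS_k3c M s 1 = M.sec s.1 s.2 := by
  unfold SS_k3c
  rw [Finset.sum_range_one]
  rfl

private theorem S2_k3c (M : Msh K) (s : Fin 6 × Fin 3) :
    SS_k3c M s 2 = M.sec s.1 s.2 + M.sec (nsec s).1 (nsec s).2 := by
  unfold SS_k3c
  rw [Finset.sum_range_succ, Finset.sum_range_one]
  rfl

private theorem S3_k3c (M : Msh K) (s : Fin 6 × Fin 3) : SS_k3c M s 3 = M.sec s.1 s.2 +
    M.sec (nsec s).1 (nsec s).2 + M.sec (nsec (nsec s)).1 (nsec (nsec s)).2 := by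
  unfold SS_k3c
  rw [Finset.sum_range_succ, Finset.sum_range_succ, Finset.sum_range_one]
  rfl

/-- lower bounds of the sectors -/
private theorem lb_k3c (M : Msh K) : Real.pi / 2 ≤ M.sec 0 0 ∧ Real.pi / 4 ≤ M.sec 0 1 ∧
    Real.pi / 4 ≤ M.sec 0 2 ∧ Real.pi / 2 ≤ M.sec 3 0 ∧ Real.pi / 2 + 3 / 20 ≤ M.sec 1 0 ∧
    Real.pi / 2 + 3 / 20 ≤ M.sec 2 0 ∧ Real.pi / 2 + 3 / 20 ≤ M.sec 4 0 ∧
    Real.pi / 2 + 3 / 25 ≤ M.sec 5 0 ∧ 6 / 5 ≤ M.sec 1 2 ∧ 6 / 5 ≤ M.sec 2 1 ∧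
    13 / 10 ≤ M.sec 3 2 := by
  obtain ⟨a1, a2, a3, a4⟩ := bang_exact
  obtain ⟨b1, b2, b3, b4⟩ := bang_obtuse
  obtain ⟨c1, c2, c3⟩ := bang_mid
  exact ⟨a1.symm.le.trans (M.sec_lower 0 0), a2.symm.le.trans (M.sec_lower 0 1),
    a3.symm.le.trans (M.sec_lower 0 2), a4.symm.le.trans (M.sec_lower 3 0),
    b1.trans (M.sec_lower 1 0), b2.trans (M.sec_lower 2 0), b3.trans (M.sec_lower 4 0),
    b4.trans (M.sec_lower 5 0), c1.trans (M.sec_lower 1 2), c2.trans (M.sec_lower 2 1),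
    c3.trans (M.sec_lower 3 2)⟩

private theorem c001_k3c (M : Msh K) :
    Real.pi < SS_k3c M (0, 0) 1 ∨
      Real.pi < M.P.tot (base (CT 0 0)) - SS_k3c M (0, 0) 1 := by
  have h : SS_k3c M (0, 0) 1 = M.sec 0 0 := S1_k3c M (0, 0)
  have ht := M.tot_O
  have hb : (base (CT 0 0) : Vx K) = base 0 := rfl
  obtain ⟨h1, h2, h3, h4, h5, h6, h7, h8, h9, h10, h11⟩ := lb_k3c M
  have hp := Real.pi_lt_d2
  right
  rw [h, hb, ht]
  linarith

private theorem c002_k3c (M : Msh K) :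
    Real.pi < SS_k3c M (0, 0) 2 ∨
      Real.pi < M.P.tot (base (CT 0 0)) - SS_k3c M (0, 0) 2 := by
  have h : SS_k3c M (0, 0) 2 = M.sec 0 0 + M.sec 2 0 := S2_k3c M (0, 0)
  have ht := M.tot_O
  have hb : (base (CT 0 0) : Vx K) = base 0 := rfl
  obtain ⟨h1, h2, h3, h4, h5, h6, h7, h8, h9, h10, h11⟩ := lb_k3c M
  have hp := Real.pi_lt_d2
  left
  rw [h]
  linarith

private theorem c012_k3c (M : Msh K) :
    Real.pi < SS_k3c M (0, 1) 2 ∨
      Real.pi < M.P.tot (base (CT 0 1)) - SS_k3c M (0, 1) 2 := by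
  have h : SS_k3c M (0, 1) 2 = M.sec 0 1 + M.sec 1 2 := S2_k3c M (0, 1)
  have ht := M.tot_P
  have hb : (base (CT 0 1) : Vx K) = base 1 := rfl
  obtain ⟨h1, h2, h3, h4, h5, h6, h7, h8, h9, h10, h11⟩ := lb_k3c M
  have hp := Real.pi_lt_d2
  right
  rw [h, hb, ht]
  linarith

private theorem c013_k3c (M : Msh K) :
    Real.pi < SS_k3c M (0, 1) 3 ∨
      Real.pi < M.P.tot (base (CT 0 1)) - SS_k3c M (0, 1) 3 := by
  have h : SS_k3c M (0, 1) 3 = M.sec 0 1 + M.sec 1 2 + M.sec 4 0 := S3_k3c M (0, 1)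
  have ht := M.tot_P
  have hb : (base (CT 0 1) : Vx K) = base 1 := rfl
  obtain ⟨h1, h2, h3, h4, h5, h6, h7, h8, h9, h10, h11⟩ := lb_k3c M
  have hp := Real.pi_lt_d2
  left
  rw [h]
  linarith

private theorem c101_k3c (M : Msh K) :
    Real.pi < SS_k3c M (1, 0) 1 ∨
      Real.pi < M.P.tot (base (CT 1 0)) - SS_k3c M (1, 0) 1 := by
  have h : SS_k3c M (1, 0) 1 = M.sec 1 0 := S1_k3c M (1, 0)
  have ht := M.tot_O
  have hb : (base (CT 1 0) : Vx K) = base 0 := rfl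
  obtain ⟨h1, h2, h3, h4, h5, h6, h7, h8, h9, h10, h11⟩ := lb_k3c M
  have hp := Real.pi_lt_d2
  right
  rw [h, hb, ht]
  linarith

private theorem c102_k3c (M : Msh K) :
    Real.pi < SS_k3c M (1, 0) 2 ∨
      Real.pi < M.P.tot (base (CT 1 0)) - SS_k3c M (1, 0) 2 := by
  have h : SS_k3c M (1, 0) 2 = M.sec 1 0 + M.sec 0 0 := S2_k3c M (1, 0)
  have ht := M.tot_O
  have hb : (base (CT 1 0) : Vx K) = base 0 := rfl
  obtain ⟨h1, h2, h3, h4, h5, h6, h7, h8, h9, h10, h11⟩ := lb_k3c M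
  have hp := Real.pi_lt_d2
  left
  rw [h]
  linarith

private theorem c201_k3c (M : Msh K) :
    Real.pi < SS_k3c M (2, 0) 1 ∨
      Real.pi < M.P.tot (base (CT 2 0)) - SS_k3c M (2, 0) 1 := by
  have h : SS_k3c M (2, 0) 1 = M.sec 2 0 := S1_k3c M (2, 0)
  have ht := M.tot_O
  have hb : (base (CT 2 0) : Vx K) = base 0 := rfl
  obtain ⟨h1, h2, h3, h4, h5, h6, h7, h8, h9, h10, h11⟩ := lb_k3c M
  have hp := Real.pi_lt_d2
  right
  rw [h, hb, ht]
  linarith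

private theorem c202_k3c (M : Msh K) :
    Real.pi < SS_k3c M (2, 0) 2 ∨
      Real.pi < M.P.tot (base (CT 2 0)) - SS_k3c M (2, 0) 2 := by
  have h : SS_k3c M (2, 0) 2 = M.sec 2 0 + M.sec 1 0 := S2_k3c M (2, 0)
  have ht := M.tot_O
  have hb : (base (CT 2 0) : Vx K) = base 0 := rfl
  obtain ⟨h1, h2, h3, h4, h5, h6, h7, h8, h9, h10, h11⟩ := lb_k3c M
  have hp := Real.pi_lt_d2
  left
  rw [h]
  linarith

private theorem c213_k3c (M : Msh K) :
    Real.pi < SS_k3c M (2, 1) 3 ∨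
      Real.pi < M.P.tot (base (CT 2 1)) - SS_k3c M (2, 1) 3 := by
  have h : SS_k3c M (2, 1) 3 = M.sec 2 1 + M.sec 0 2 + M.sec 3 2 := S3_k3c M (2, 1)
  have ht := M.tot_Q
  have hb : (base (CT 2 1) : Vx K) = base 2 := rfl
  obtain ⟨h1, h2, h3, h4, h5, h6, h7, h8, h9, h10, h11⟩ := lb_k3c M
  have hp := Real.pi_lt_d2
  left
  rw [h]
  linarith

private theorem c301_k3c (M : Msh K) :
    Real.pi < SS_k3c M (3, 0) 1 ∨
      Real.pi < M.P.tot (base (CT 3 0)) - SS_k3c M (3, 0) 1 := by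
  have h : SS_k3c M (3, 0) 1 = M.sec 3 0 := S1_k3c M (3, 0)
  have ht := M.tot_P
  have hb : (base (CT 3 0) : Vx K) = base 1 := rfl
  obtain ⟨h1, h2, h3, h4, h5, h6, h7, h8, h9, h10, h11⟩ := lb_k3c M
  have hp := Real.pi_lt_d2
  right
  rw [h, hb, ht]
  linarith

private theorem c303_k3c (M : Msh K) :
    Real.pi < SS_k3c M (3, 0) 3 ∨
      Real.pi < M.P.tot (base (CT 3 0)) - SS_k3c M (3, 0) 3 := by
  have h : SS_k3c M (3, 0) 3 = M.sec 3 0 + M.sec 0 1 + M.sec 1 2 := S3_k3c M (3, 0)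
  have ht := M.tot_P
  have hb : (base (CT 3 0) : Vx K) = base 1 := rfl
  obtain ⟨h1, h2, h3, h4, h5, h6, h7, h8, h9, h10, h11⟩ := lb_k3c M
  have hp := Real.pi_lt_d2
  left
  rw [h]
  linarith

private theorem c401_k3c (M : Msh K) :
    Real.pi < SS_k3c M (4, 0) 1 ∨
      Real.pi < M.P.tot (base (CT 4 0)) - SS_k3c M (4, 0) 1 := by
  have h : SS_k3c M (4, 0) 1 = M.sec 4 0 := S1_k3c M (4, 0)
  have ht := M.tot_P
  have hb : (base (CT 4 0) : Vx K) = base 1 := rfl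
  obtain ⟨h1, h2, h3, h4, h5, h6, h7, h8, h9, h10, h11⟩ := lb_k3c M
  have hp := Real.pi_lt_d2
  right
  rw [h, hb, ht]
  linarith

private theorem c402_k3c (M : Msh K) :
    Real.pi < SS_k3c M (4, 0) 2 ∨
      Real.pi < M.P.tot (base (CT 4 0)) - SS_k3c M (4, 0) 2 := by
  have h : SS_k3c M (4, 0) 2 = M.sec 4 0 + M.sec 3 0 := S2_k3c M (4, 0)
  have ht := M.tot_P
  have hb : (base (CT 4 0) : Vx K) = base 1 := rfl
  obtain ⟨h1, h2, h3, h4, h5, h6, h7, h8, h9, h10, h11⟩ := lb_k3c M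
  have hp := Real.pi_lt_d2
  left
  rw [h]
  linarith

private theorem c501_k3c (M : Msh K) :
    Real.pi < SS_k3c M (5, 0) 1 ∨
      Real.pi < M.P.tot (base (CT 5 0)) - SS_k3c M (5, 0) 1 := by
  have h : SS_k3c M (5, 0) 1 = M.sec 5 0 := S1_k3c M (5, 0)
  have ht := M.tot_Q
  have hb : (base (CT 5 0) : Vx K) = base 2 := rfl
  obtain ⟨h1, h2, h3, h4, h5, h6, h7, h8, h9, h10, h11⟩ := lb_k3c M
  have hp := Real.pi_lt_d2
  right
  rw [h, hb, ht]
  linarith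

private def ret_k3c (s : Fin 6 × Fin 3) (j : Fin 4) : Bool :=
  decide (∃ i : Fin 4, nsec^[(i : ℕ)] s = s ∧ i ≠ 0 ∧ i ≤ j)

private def blb_k3c (s : Fin 6 × Fin 3) (j : Fin 4) : Bool :=
  decide (Bl (CT s.1 s.2) (nbr s) (nbr (nsec^[(j : ℕ)] s)))

private theorem cases_k3c : ∀ (s : Fin 6 × Fin 3) (j : Fin 4),
    (ret_k3c s j || !(blb_k3c s j) || decide (j = 0)) = true ∨ (s, j) ∈
    ([((0, 0), 1), ((0, 0), 2), ((0, 1), 2), ((0, 1), 3), ((1, 0), 1), ((1, 0), 2), ((2, 0), 1), ((2, 0), 2),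
      ((2, 1), 3), ((3, 0), 1), ((3, 0), 3), ((4, 0), 1), ((4, 0), 2), ((5, 0), 1)] :
      List ((Fin 6 × Fin 3) × Fin 4)) := by
  decide +kernel

private theorem steps_k3c : ∀ (s s' : Fin 6 × Fin 3), CT s.1 s.2 = CT s'.1 s'.2 → s ≠ s' →
    ∃ j : Fin 4, j ≠ 0 ∧ nsec^[(j : ℕ)] s = s' ∧
      ∀ i : Fin 4, nsec^[(i : ℕ)] s ≠ s ∨ i = 0 ∨ j < i := by
  decide +kernel

private theorem key_k3c (M : Msh K) (s : Fin 6 × Fin 3) (j : Fin 4) (h0 : j ≠ 0)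
    (hj : ∀ i : Fin 4, nsec^[(i : ℕ)] s ≠ s ∨ i = 0 ∨ j < i)
    (hB : Bl (CT s.1 s.2) (nbr s) (nbr (nsec^[(j : ℕ)] s))) :
    Real.pi < SS_k3c M s j ∨ Real.pi < M.P.tot (base (CT s.1 s.2)) - SS_k3c M s j := by
  have hr : ret_k3c s j = false := by
    unfold ret_k3c
    rw [decide_eq_false_iff_not]
    rintro ⟨i, h1, h2, h3⟩
    rcases hj i with h | h | h
    · exact h h1
    · exact h2 h
    · exact absurd h (not_lt.2 h3)
  have hb : blb_k3c s j = true := by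
    unfold blb_k3c
    rw [decide_eq_true_iff]
    exact hB
  have h := cases_k3c s j
  rw [hr, hb, decide_eq_false h0] at h
  rcases h with h | h
  · exact absurd h (by decide)
  simp only [List.mem_cons, Prod.mk.injEq, List.not_mem_nil, or_false] at h
  rcases h with ⟨rfl, rfl⟩ | ⟨rfl, rfl⟩ | ⟨rfl, rfl⟩ | ⟨rfl, rfl⟩ | ⟨rfl, rfl⟩ | ⟨rfl, rfl⟩ | ⟨rfl, rfl⟩ |
    ⟨rfl, rfl⟩ | ⟨rfl, rfl⟩ | ⟨rfl, rfl⟩ | ⟨rfl, rfl⟩ | ⟨rfl, rfl⟩ | ⟨rfl, rfl⟩ | ⟨rfl, rfl⟩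
  · exact c001_k3c M
  · exact c002_k3c M
  · exact c012_k3c M
  · exact c013_k3c M
  · exact c101_k3c M
  · exact c102_k3c M
  · exact c201_k3c M
  · exact c202_k3c M
  · exact c213_k3c M
  · exact c301_k3c M
  · exact c303_k3c M
  · exact c401_k3c M
  · exact c402_k3c M
  · exact c501_k3c M

/-- [DG-K3c] BLOCKED PASSAGES (cases; `side_sec`, `sec_lower`, `bang_*`): at `O` all, at `P` between
two of `Q, F, G`, at `Q` between `F` and `G`. -/
theorem blocked {γ : SCQ M.P N} {k : ZMod N} {a b c : Fin 5} (ha : γ.x (k - 1) = M.pos (base a))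
    (hb : γ.x k = M.pos (base b)) (hc : γ.x (k + 1) = M.pos (base c)) : ¬ Bl b a c := by
  intro hB
  have hN := γ.three_le
  have hab : a ≠ b := by
    rintro rfl
    have h := γ.ne (k - 1)
    rw [sub_add_cancel, ha, hb] at h
    exact h rfl
  have hcb : b ≠ c := by
    rintro rfl
    have h := γ.ne k
    rw [hb, hc] at h
    exact h rfl
  have hac : a ≠ c := by
    rintro rfl
    have h := γ.inj (ha.trans hc.symm)
    have h2 : ((2 : ℕ) : ZMod N) = 0 := by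
      have : (k + 1) - (k - 1) = 0 := by rw [h, sub_self]
      push_cast
      rw [← this]
      ring
    rw [ZMod.natCast_eq_zero_iff] at h2
    have := Nat.le_of_dvd (by norm_num) h2
    omega
  rcases γ.node k with ⟨d, hd⟩ | ⟨v, α, hv, hside, hα1, hα2⟩
  · exact M.P.NV_of_oseg hd.1 (base b) hb
  · have hvb : v = base b := M.P.pos_inj (hv.symm.trans hb)
    subst hvb
    rw [ha, hc] at hside
    have hm1 := γ.mem (k - 1)
    rw [sub_add_cancel, ha, hb] at hm1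
    have hm2 := γ.mem k
    rw [hb, hc] at hm2
    obtain ⟨s, hs1, hs2⟩ := base_adj _ b a hab.symm hm1.2 hm1.1
    obtain ⟨s', hs1', hs2'⟩ := base_adj _ b c hcb hm2.1 hm2.2
    have hne : s ≠ s' := by
      rintro rfl
      exact hac (hs2.symm.trans hs2')
    obtain ⟨j, h0, hj1, hj2⟩ := steps_k3c s s' (hs1.trans hs1'.symm) hne
    have hj3 : ∀ i : ℕ, 1 ≤ i → i ≤ (j : ℕ) → nsec^[i] s ≠ s := by
      intro i hi1 hi2
      have hlt : i < 4 := lt_of_le_of_lt hi2 j.2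
      rcases hj2 ⟨i, hlt⟩ with h | h | h
      · exact h
      · have h' : i = 0 := congrArg Fin.val h
        omega
      · have h' : (j : ℕ) < i := h
        omega
    have hj0 : 1 ≤ (j : ℕ) := Nat.pos_of_ne_zero fun h => h0 (Fin.ext h)
    have hside' : M.P.Side (base (CT s.1 s.2)) (M.pos (base (nbr s)))
        (M.pos (base (nbr (nsec^[(j : ℕ)] s)))) α := by
      rw [hs1, hs2, hj1, hs2']
      exact hside
    have hα := side_sec s j hj0 hj3 α hside'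
    have hB' : Bl (CT s.1 s.2) (nbr s) (nbr (nsec^[(j : ℕ)] s)) := by
      rw [hs1, hs2, hj1, hs2']
      exact hB
    have hα' : α = SS_k3c M s j := hα
    rcases key_k3c M s j h0 hj2 hB' with h | h
    · linarith
    · rw [hs1, ← hα'] at h
      linarith

end

end QGd
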