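import Pool.Agent.Lib_MP_6b5565_dg.N5c

/-! [DG-N5d] start at a corner, and the long run -/

namespace QGd

open EuclideanGeometry ComplexConjugate Vx Dx

noncomputable section

variable {K : ℕ} {M : Msh K} {N : ℕ} [NeZero N]

/-- [DG-N5e] assembly -/
theorem long_run {γ : SCQ M.P N} (hK : 4 ≤ K) {T : Fin 6} (e : Fin 3) (k : ZMod N) (d : Dx K)
    (hd : face6 d = T) (ht : tl d = base (CT T e)) (hx : γ.x k = M.pos (base (CT T e)))
    (hx' : γ.x (k + 1) ∈ M.P.tri d) (h1 : γ.x (k + 1) ∉ M.P.seg (E T (e + 2) 0))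
    (h2 : γ.x (k + 1) ∉ M.P.seg (E T (e + 1) 0)) :
    ∃ side k' a b, K ≤ 2 * (b - a) + 2 ∧ Run γ T e side k' a b := by
  obtain ⟨F⟩ := exists_frame (un T) (un_norm T)
  have fromL : ∀ (k' : ZMod N) (m' : ℕ), m' ≤ K + 2 → St γ F e k' (L T e 0 0) m' →
      ∃ side k' a b, K ≤ 2 * (b - a) + 2 ∧ Run γ T e side k' a b := by
    intro k' m' hm' h'
    have hr := runL h' (by omega)
    refine ⟨false, _, _, _, ?_, hr⟩
    have : ((0 : Fin (K + 1)) : ℕ) = 0 := rfl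
    omega
  obtain ⟨k', i, h | h | h⟩ := start F e k d hd ht hx hx' h1 h2
  · obtain ⟨k2, m2, hm2, h3⟩ := approach2 h le_rfl
    exact fromL k2 m2 hm2 h3
  · obtain ⟨k2, m2, hm2, h3⟩ := approach1 h le_rfl
    exact runR h3 (by omega) hK
  · exact fromL k' 1 (by omega) h

end

end QGd
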