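import Pool.Agent.Lib_MP_6b5565_dg.K2b
import Pool.Agent.Lib_MP_6b5565_dg.K3c
import Pool.Agent.Lib_MP_6b5565_dg.N5d

/-! [DG-K4] classification: every simple closed quasigeodesic has a long run -/

namespace QGd

open EuclideanGeometry Vx Dx

noncomputable section

variable {K : ℕ} {M : Msh K} {N : ℕ} [NeZero N]

/-- [DG-K4a] a base edge leads to a base vertex: if the node `k` is a base vertex and the next node is
on a base edge at it, then the next node is a base vertex (a crossing node inside the edge would be a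
crossing of this edge, and the node `k` is on it) -/
theorem next_base {γ : SCQ M.P N} {k : ZMod N} {b : Fin 5} (hb : γ.x k = M.pos (base b))
    {T : Fin 6} {e : Fin 3} (h1 : γ.x k ∈ M.P.seg (E T e 0)) (h2 : γ.x (k + 1) ∈ M.P.seg (E T e 0)) :
    ∃ c, γ.x (k + 1) = M.pos (base c) := by
  have hBE : M.P.B (E T e 0) = M.pos (base (CT T (e + 2))) := by
    show M.pos (tl (iv (E T e 0))) = _
    rw [tl_iv]
    rfl
  rcases M.P.seg_cases h2 with h | h | h
  · exact ⟨CT T (e + 1), h⟩
  · exact ⟨CT T (e + 2), h.trans hBE⟩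
  · exfalso
    rcases γ.node (k + 1) with ⟨d, hd⟩ | ⟨v, α, hv, -⟩
    · have hd1 := hd.1
      have hd2 := hd.2.2.2.1
      rw [add_sub_cancel_right] at hd2
      apply hd2
      rcases M.P.edge_unique hd1 (openSegment_subset_segment ℝ _ _ h) with h3 | h3
      · rw [← h3]
        exact h1
      · rw [h3, M.P.seg_inv] at h1
        exact h1
    · exact M.P.NV_of_oseg h v hv

/-- [DG-K4b] not all nodes are base vertices (`blocked`, `three_le`, `inj`) -/
theorem not_all_base (γ : SCQ M.P N) : ¬ ∀ k, ∃ b, γ.x k = M.pos (base b) := by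
  intro h
  choose b hb using h
  have hN := γ.three_le
  have hinj : Function.Injective b := fun i j hij => γ.inj (by rw [hb i, hb j, hij])
  have hBl : ∀ k, ¬ Bl (b k) (b (k - 1)) (b (k + 1)) := fun k =>
    blocked (γ := γ) (hb (k - 1)) (hb k) (hb (k + 1))
  have h0 : ∀ k, b k ≠ 0 := fun k hk => hBl k (Or.inl hk)
  have h1 : ∀ k, b k ≠ 1 := fun k hk => hBl k (Or.inr (Or.inl ⟨hk, h0 _, h0 _⟩))
  have h2 : ∀ k, b k ≠ 2 := fun k hk =>
    hBl k (Or.inr (Or.inr ⟨hk, h0 _, h1 _, h0 _, h1 _⟩))
  have h3 : ∀ k, b k ∈ ({3, 4} : Finset (Fin 5)) := by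
    intro k
    have g0 := h0 k
    have g1 := h1 k
    have g2 := h2 k
    generalize b k = c at g0 g1 g2 ⊢
    revert c
    decide
  have h4 : (Finset.univ.image b).card ≤ ({3, 4} : Finset (Fin 5)).card := by
    apply Finset.card_le_card
    intro c hc
    obtain ⟨k, -, rfl⟩ := Finset.mem_image.1 hc
    exact h3 k
  rw [Finset.card_image_of_injective _ hinj, Finset.card_univ, ZMod.card] at h4
  have h5 : ({3, 4} : Finset (Fin 5)).card = 2 := by decide
  omega

end

end QGd
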