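import Pool.Agent.Lib_MP_6b5565_dg.K4

/-! [DG-K4b] classification: every simple closed quasigeodesic has a long run -/

namespace QGd

open EuclideanGeometry Vx Dx

noncomputable section

variable {K : ℕ} {M : Msh K} {N : ℕ} [NeZero N]

private theorem exists_last_base_k4b (γ : SCQ M.P N) :
    ∃ (k : ZMod N) (b : Fin 5), γ.x k = M.pos (base b) ∧ ∀ c, γ.x (k + 1) ≠ M.pos (base c) := by
  by_contra hcon
  push Not at hcon
  apply not_all_base γ
  obtain ⟨i, b, hi⟩ := visits_base γ
  have h : ∀ n : ℕ, ∃ c, γ.x (i + (n : ZMod N)) = M.pos (base c) := by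
    intro n
    induction n with
    | zero => exact ⟨b, by rw [Nat.cast_zero, add_zero, hi]⟩
    | succ n ih =>
      obtain ⟨c, hc⟩ := ih
      obtain ⟨c', hc'⟩ := hcon _ c hc
      exact ⟨c', by rw [Nat.cast_succ, ← add_assoc, hc']⟩
  intro k
  obtain ⟨c, hc⟩ := h (k - i).val
  rw [ZMod.natCast_zmod_val, add_sub_cancel] at hc
  exact ⟨c, hc⟩

private theorem corner_of_tl_k4b (d : Dx K) (b : Fin 5) (h : tl d = base b) :
    ∃ e, CT (face6 d) e = b := by
  rcases d with ⟨T, e, i, k⟩ | ⟨T, e, i, k⟩ | ⟨T, e, k⟩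
  · fin_cases k
    · exact ⟨e + 1, Vx.base.inj h⟩
    · exact absurd (show (leg T e i : Vx K) = base b from h) (by simp)
    · have h' : pre T e i = base b := h
      unfold pre at h'
      split_ifs at h'
  · fin_cases k
    · exact ⟨e + 2, Vx.base.inj h⟩
    · have h' : pre T e i = base b := h
      unfold pre at h'
      split_ifs at h'
    · exact absurd (show (leg T e i : Vx K) = base b from h) (by simp)
  · fin_cases k
    · exact ⟨e + 1, Vx.base.inj h⟩
    · exact ⟨e + 2, Vx.base.inj h⟩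
    · exact absurd (show (leg T e (Fin.last K) : Vx K) = base b from h) (by simp)

/-- [DG-K4c] CLASSIFICATION -/
theorem exists_run (hK : 4 ≤ K) (γ : SCQ M.P N) :
    ∃ T e side k a b, K ≤ 2 * (b - a) + 2 ∧ Run γ T e side k a b := by
  obtain ⟨k, b, hk, hk'⟩ := exists_last_base_k4b γ
  obtain ⟨d, hd1, hd2⟩ := M.P.verts_of_pos_mem (d := γ.f k) (v := base b)
    (by rw [show M.P.pos (base b) = M.pos (base b) from rfl, ← hk]; exact (γ.mem k).1)
  have hd2' : tl d = base b := hd2
  obtain ⟨e, he⟩ := corner_of_tl_k4b d b hd2'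
  have hx : γ.x k = M.pos (base (CT (face6 d) e)) := by rw [he, hk]
  have hx' : γ.x (k + 1) ∈ M.P.tri d := by
    rw [← M.P.tri_SF hd1]
    exact (γ.mem k).2
  have h1 : γ.x (k + 1) ∉ M.P.seg (E (face6 d) (e + 2) 0) := by
    intro h
    have hk0 : γ.x k ∈ M.P.seg (E (face6 d) (e + 2) 0) := by
      have e1 : ∀ f : Fin 3, f + 2 + 1 = f := by decide
      have : γ.x k = M.P.A (E (face6 d) (e + 2) 0) := by
        show γ.x k = M.pos (base (CT (face6 d) (e + 2 + 1)))
        rw [e1, hx]
      rw [this]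
      exact left_mem_segment ℝ _ _
    obtain ⟨c, hc⟩ := next_base hk hk0 h
    exact hk' c hc
  have h2 : γ.x (k + 1) ∉ M.P.seg (E (face6 d) (e + 1) 0) := by
    intro h
    have hk0 : γ.x k ∈ M.P.seg (E (face6 d) (e + 1) 0) := by
      have e1 : ∀ f : Fin 3, f + 1 + 2 = f := by decide
      have : γ.x k = M.P.B (E (face6 d) (e + 1) 0) := by
        show γ.x k = M.pos (tl (iv (E (face6 d) (e + 1) 0)))
        rw [tl_iv]
        show γ.x k = M.pos (base (CT (face6 d) (e + 1 + 2)))
        rw [e1, hx]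
      rw [this]
      exact right_mem_segment ℝ _ _
    obtain ⟨c, hc⟩ := next_base hk hk0 h
    exact hk' c hc
  obtain ⟨side, k', a, b', h3, h4⟩ := long_run hK e k d rfl (by rw [hd2', he]) hx hx' h1 h2
  exact ⟨_, _, _, _, _, _, h3, h4⟩

end

end QGd
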