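import Pool.Agent.Lib_MP_6b5565_dg.K4b

/-! [DG-K4c] classification: every simple closed quasigeodesic has a long run -/

namespace QGd

open EuclideanGeometry Vx Dx

noncomputable section

variable {K : ℕ} {M : Msh K} {N : ℕ} [NeZero N]

private theorem exists_spoke_k4c (T : Fin 6) (e : Fin 3) (side : Bool) (j : ℕ) (h1 : 1 ≤ j)
    (h2 : j ≤ K + 1) : ∃ d : Dx K, tl d = hub K T e side ∧ tl (nx d) = Y K T e j := by
  obtain ⟨i, rfl⟩ : ∃ i, j = i + 1 := ⟨j - 1, by omega⟩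
  cases side with
  | false =>
    refine ⟨L T e (Fin.ofNat (K + 1) i) 0, rfl, rfl⟩
  | true =>
    refine ⟨iv (R T e (Fin.ofNat (K + 1) i) 2), ?_, ?_⟩
    · rw [tl_iv]
      rfl
    · rw [← tl_iv, iv_iv]
      rfl

/-- [DG-K4d] the nodes of a run are crossings of their spokes -/
theorem Run.cross {γ : SCQ M.P N} {T : Fin 6} {e : Fin 3} {side : Bool} {k : ZMod N} {a b : ℕ}
    (h : Run γ T e side k a b) (j : ℕ) (hj : a ≤ j) (hj' : j ≤ b) :
    ∃ d : Dx K, tl d = hub K T e side ∧ tl (nx d) = Y K T e j ∧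
      (M.P.CrossAt (γ.x (k + ((j - a : ℕ) : ZMod N) - 1)) (γ.x (k + ((j - a : ℕ) : ZMod N)))
        (γ.x (k + ((j - a : ℕ) : ZMod N) + 1)) d ∨
      M.P.CrossAt (γ.x (k + ((j - a : ℕ) : ZMod N) - 1)) (γ.x (k + ((j - a : ℕ) : ZMod N)))
        (γ.x (k + ((j - a : ℕ) : ZMod N) + 1)) (iv d)) := by
  obtain ⟨ha, -, hbK, hx⟩ := h
  have hxj := hx j hj hj'
  obtain ⟨d, hd1, hd2⟩ := exists_spoke_k4c (K := K) T e side j (by omega) (by omega)
  refine ⟨d, hd1, hd2, ?_⟩
  set y := γ.x (k + ((j - a : ℕ) : ZMod N)) with hy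
  have hos : y ∈ M.P.oseg d := by
    have e1 : M.P.A d = M.pos (hub K T e side) := by rw [← hd1]; rfl
    have e2 : M.P.B d = M.pos (Y K T e j) := by
      show M.pos (tl (iv d)) = _
      rw [tl_iv, hd2]
    show y ∈ openSegment ℝ (M.P.A d) (M.P.B d)
    rw [e1, e2]
    exact hxj
  rcases γ.node (k + ((j - a : ℕ) : ZMod N)) with ⟨d', hd'⟩ | ⟨v, α, hv, -⟩
  · rcases M.P.edge_unique hd'.1 (openSegment_subset_segment ℝ _ _ hos) with h3 | h3
    · left
      rw [h3]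
      exact hd'
    · right
      have h4 : iv d = d' := by
        rw [h3]
        exact iv_iv d'
      rw [h4]
      exact hd'
  · exact absurd hv (M.P.NV_of_oseg hos v)

end

end QGd
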