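import Pool.Agent.Lib_MP_6b5565_dg.Defs

/-!
# The combinatorial mesh

Base bipyramid: vertices `0 = O, 1 = P, 2 = Q, 3 = F, 4 = G`, faces `CT T` (`T : Fin 6`), corners
counterclockwise seen from outside. In every face `T` a centre `ctr T` and three legs: the leg `e`
goes from the centre towards the side opposite to the corner `e`; its vertices are
`Y 0 = ctr T, Y 1 = leg T e 0, ..., Y (K+1) = leg T e K`. Faces: for `i : Fin (K+1)`
`L T e i = (corner (e+1), Y (i+1), Y i)`, `R T e i = (corner (e+2), Y i, Y (i+1))`, and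
`E T e = (corner (e+1), corner (e+2), Y (K+1))`.
-/

namespace QGd

/-- corners of the faces of the base -/
def CT : Fin 6 → Fin 3 → Fin 5 :=
  ![![0, 1, 2], ![0, 4, 1], ![0, 2, 4], ![1, 3, 2], ![1, 4, 3], ![2, 3, 4]]

/-- the side of the face `T` opposite to the corner `e` is the side `adj T e` of another face -/
def adj : Fin 6 → Fin 3 → Fin 6 × Fin 3 :=
  ![![(3, 1), (2, 2), (1, 1)], ![(4, 2), (0, 2), (2, 1)], ![(5, 1), (1, 2), (0, 1)],
    ![(5, 2), (0, 0), (4, 1)], ![(5, 0), (3, 2), (1, 0)], ![(4, 0), (2, 0), (3, 0)]]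

theorem adj_adj (T : Fin 6) (e : Fin 3) : adj (adj T e).1 (adj T e).2 = (T, e) := by
  revert T e; decide

theorem adj_corner (T : Fin 6) (e : Fin 3) :
    CT (adj T e).1 ((adj T e).2 + 1) = CT T (e + 2) ∧
    CT (adj T e).1 ((adj T e).2 + 2) = CT T (e + 1) := by
  revert T e; decide

/-- vertices -/
inductive Vx (K : ℕ) : Type
  | base : Fin 5 → Vx K
  | ctr : Fin 6 → Vx K
  | leg : Fin 6 → Fin 3 → Fin (K + 1) → Vx K
  deriving DecidableEq

/-- half-edges -/
inductive Dx (K : ℕ) : Type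
  | L : Fin 6 → Fin 3 → Fin (K + 1) → Fin 3 → Dx K
  | R : Fin 6 → Fin 3 → Fin (K + 1) → Fin 3 → Dx K
  | E : Fin 6 → Fin 3 → Fin 3 → Dx K
  deriving DecidableEq

open Vx Dx

variable {K : ℕ}

/-- the vertex before `leg T e i` -/
def pre (T : Fin 6) (e : Fin 3) (i : Fin (K + 1)) : Vx K := if i = 0 then ctr T else leg T e (i - 1)

/-- the chain of the leg: `Y 0` the centre, `Y (j+1) = leg T e j` (for `j ≤ K`) -/
def Y (K : ℕ) (T : Fin 6) (e : Fin 3) : ℕ → Vx K
  | 0 => ctr T
  | j + 1 => leg T e (Fin.ofNat (K + 1) j)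

/-- start vertex -/
def tl : Dx K → Vx K
  | L T e _ 0 => base (CT T (e + 1))
  | L T e i 1 => leg T e i
  | L T e i 2 => pre T e i
  | R T e _ 0 => base (CT T (e + 2))
  | R T e i 1 => pre T e i
  | R T e i 2 => leg T e i
  | E T e 0 => base (CT T (e + 1))
  | E T e 1 => base (CT T (e + 2))
  | E T e 2 => leg T e (Fin.last K)

/-- next half-edge of the face -/
def nx : Dx K → Dx K
  | L T e i k => L T e i (k + 1)
  | R T e i k => R T e i (k + 1)
  | E T e k => E T e (k + 1)

/-- opposite half-edge -/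
def iv : Dx K → Dx K
  | L T e i 0 => if i = Fin.last K then E T e 2 else L T e (i + 1) 2
  | L T e i 1 => R T e i 1
  | L T e i 2 => if i = 0 then R T (e + 2) 0 0 else L T e (i - 1) 0
  | R T e i 0 => if i = 0 then L T (e + 1) 0 2 else R T e (i - 1) 2
  | R T e i 1 => L T e i 1
  | R T e i 2 => if i = Fin.last K then E T e 1 else R T e (i + 1) 0
  | E T e 0 => E (adj T e).1 (adj T e).2 0
  | E T e 1 => R T e (Fin.last K) 2
  | E T e 2 => L T e (Fin.last K) 0

/-- the base face containing the face of a half-edge -/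
def face6 : Dx K → Fin 6
  | L T _ _ _ => T
  | R T _ _ _ => T
  | E T _ _ => T

end QGd
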