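import Pool.Agent.Lib_MP_6b5565_dg.St

/-! [DG-N1] forced directions: exits and departures -/

namespace QGd

open EuclideanGeometry ComplexConjugate Vx Dx

noncomputable section

variable {K : ℕ} {M : Msh K} {N : ℕ} [NeZero N]

/-- [DG-N1a] the error is smaller than the distance of the far edges from the corner -/
theorem err_lt (M : Msh K) (m : ℕ) (hm : m ≤ 3 * K + 20) :
    m * (2 ^ 16 * M.S * eta K) < (1 / 2) ^ (K + 12) * (M.S : ℝ) := by
  have hS := M.Spos
  have h1 : (m : ℝ) < 2 ^ (K + 32) := by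
    have h2 : 3 * K + 20 < 2 ^ (K + 32) := by
      have h3 : K < 2 ^ K := Nat.lt_two_pow_self
      have h4 : 2 ^ (K + 32) = 2 ^ K * 2 ^ 32 := pow_add _ _ _
      rw [h4]
      have h5 : 1 ≤ 2 ^ K := Nat.one_le_two_pow
      norm_num
      omega
    exact_mod_cast lt_of_le_of_lt hm h2
  have h2 : eta K * 2 ^ 16 * 2 ^ (K + 32) = (1 / 2) ^ (K + 12) := by
    unfold eta
    have e : 2 * K + 60 = (K + 12) + (K + 32) + 16 := by omega
    rw [e, pow_add, pow_add]
    have h3 : (1 / 2 : ℝ) ^ (K + 32) * 2 ^ (K + 32) = 1 := by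
      rw [← mul_pow]; norm_num
    have h4 : (1 / 2 : ℝ) ^ 16 * 2 ^ 16 = 1 := by norm_num
    calc (1 / 2 : ℝ) ^ (K + 12) * (1 / 2) ^ (K + 32) * (1 / 2) ^ 16 * 2 ^ 16 * 2 ^ (K + 32) =
        (1 / 2 : ℝ) ^ (K + 12) * ((1 / 2) ^ (K + 32) * 2 ^ (K + 32)) * ((1 / 2) ^ 16 * 2 ^ 16) := by
          ring
      _ = _ := by rw [h3, h4]; ring
  have h0 : 0 < eta K := by unfold eta; positivity
  rw [← h2]
  have h5 : 0 < 2 ^ 16 * (M.S : ℝ) * eta K := mul_pos (mul_pos (by norm_num) hS) h0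
  refine (mul_lt_mul_of_pos_right h1 h5).trans_le (le_of_eq ?_)
  ring

omit [NeZero N] in
/-- [DG-N1b] the state depends only on the face -/
theorem St.sf {γ : SCQ M.P N} {T : Fin 6} {F : Fr (un T)} {e : Fin 3} {k : ZMod N} {d d' : Dx K}
    {m : ℕ} (h : St γ F e k d m) (hd : M.P.SF d d') : St γ F e k d' m := by
  obtain ⟨h1, h2, h3, h4⟩ := h
  refine ⟨(M.face6_sf hd).trans h1, ?_, ?_, h4⟩
  · rw [← M.P.tri_SF hd]; exact h2
  · rw [← M.P.tri_SF hd]; exact h3

/-- [DG-N1c] the direction is a positive multiple of the projected segment, nonzero -/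
theorem dir_eq {T : Fin 6} (F : Fr (un T)) (x y : E3) (h : x ≠ y) :
    F.pr y = F.pr x + ((‖y - x‖ : ℝ) : ℂ) * F.dir x y := by
  have h0 : ‖y - x‖ ≠ 0 := norm_ne_zero_iff.2 (sub_ne_zero.2 h.symm)
  unfold Fr.dir
  rw [map_smul, Complex.real_smul]
  have h1 : ((‖y - x‖ : ℝ) : ℂ) ≠ 0 := by exact_mod_cast h0
  rw [← mul_assoc, ← Complex.ofReal_mul, mul_one_div_cancel h0, Complex.ofReal_one, one_mul,
    map_sub]
  ring

omit [NeZero N] in
/-- consecutive nodes are different -/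
theorem SCQ.ne_succ {P : Poly} (γ : SCQ P N) (k : ZMod N) : γ.x k ≠ γ.x (k + 1) := by
  intro h
  have h1 := γ.simple k k 0 (1 / 2) le_rfl (by norm_num) (by norm_num) (by norm_num)
    (by rw [← h]; simp)
  norm_num at h1

omit [NeZero N] in
/-- [DG-N1d] the length of the projected direction (the segment is almost parallel to the plane) -/
theorem St.dir_ge {γ : SCQ M.P N} {T : Fin 6} {F : Fr (un T)} {e : Fin 3} {k : ZMod N} {d : Dx K}
    {m : ℕ} (h : St γ F e k d m) : 1 / 2 ≤ ‖F.dir (γ.x k) (γ.x (k + 1))‖ := by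
  obtain ⟨h1, h2, h3, h4⟩ := h
  have hne := γ.ne_succ k
  have hfl := (M.flat F h1).slope _ h3 _ h2
  set x := γ.x k with hx
  set y := γ.x (k + 1) with hy
  have h0 : 0 < ‖y - x‖ := norm_pos_iff.2 (sub_ne_zero.2 hne.symm)
  set u : E3 := (1 / ‖y - x‖) • (y - x) with hu
  have hun : ‖u‖ = 1 := by
    rw [hu, norm_smul, Real.norm_of_nonneg (by positivity)]
    field_simp
  have hin : |inner ℝ (un T) u| ≤ eta K := by
    rw [hu, inner_smul_right, abs_mul, abs_of_pos (by positivity : 0 < 1 / ‖y - x‖)]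
    calc 1 / ‖y - x‖ * |inner ℝ (un T) (y - x)| ≤ 1 / ‖y - x‖ * (eta K * ‖y - x‖) := by gcongr
      _ = eta K := by field_simp
  have heta : eta K ≤ 1 / 2 := by
    unfold eta
    calc (1 / 2 : ℝ) ^ (2 * K + 60) ≤ (1 / 2) ^ 1 :=
          pow_le_pow_of_le_one (by norm_num) (by norm_num) (by omega)
      _ = 1 / 2 := by norm_num
  have hre := F.re_pr u u
  have hn : (conj (F.pr u) * F.pr u).re = ‖F.pr u‖ ^ 2 := by
    rw [mul_comm, Complex.mul_conj, Complex.ofReal_re, Complex.sq_norm]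
  rw [hn, real_inner_self_eq_norm_sq, hun] at hre
  have h5 : inner ℝ (un T) u * inner ℝ (un T) u ≤ 1 / 4 := by
    rw [← abs_mul_abs_self]
    have := abs_nonneg (inner ℝ (un T) u)
    nlinarith
  show 1 / 2 ≤ ‖F.pr u‖
  have := norm_nonneg (F.pr u)
  nlinarith

end

end QGd
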