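import Pool.Agent.Lib_MP_6b5565_dg.N1

/-! [DG-N1b] forced directions: exits and departures -/

namespace QGd

open EuclideanGeometry ComplexConjugate Vx Dx

noncomputable section

/-- a point of the edge of `d` is on the projected line -/
theorem n1b_line {P : Poly} {n : E3} (F : Fr n) {d : P.D} {x : E3} (h : x ∈ P.seg d) :
    (conj (F.pr (P.B d - P.A d)) * (F.pr x - F.pr (P.A d))).im = 0 := by
  obtain ⟨s, t, hs, ht, hst, rfl⟩ := h
  have e : F.pr (s • P.A d + t • P.B d) - F.pr (P.A d) = (t : ℂ) * F.pr (P.B d - P.A d) := by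
    rw [map_add, map_smul, map_smul, map_sub, Complex.real_smul, Complex.real_smul]
    have : (s : ℂ) = 1 - t := by
      have : s = 1 - t := by linarith
      rw [this]; push_cast; ring
    rw [this]; ring
  rw [e, mul_left_comm, mul_comm (conj _), Complex.mul_conj, ← Complex.ofReal_mul]
  exact Complex.ofReal_im _

theorem n1b_dep {P : Poly} {n : E3} {F : Fr n} {d : P.D} {t r m : ℝ} {x y : E3} {p w : ℂ}
    (hx : x ∈ P.seg d) (hy : y ∈ P.tri d) (hne : x ≠ y)
    (hw : F.pr y = F.pr x + ((‖y - x‖ : ℝ) : ℂ) * w) (hray : Ray p w (F.pr x) r)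
    (hfl : Flat P F t d) (hfar : m * ‖F.pr (P.B d - P.A d)‖ ≤
      (conj (F.pr (P.B d - P.A d)) * (p - F.pr (P.A d))).im)
    (hv : F.pr (P.B d - P.A d) ≠ 0) (hm : r < m) : False := by
  have h0 : 0 < ‖y - x‖ := norm_pos_iff.2 (sub_ne_zero.2 hne.symm)
  have hl := n1b_line F hx
  have hF := hray.forced hl hfar hv hm
  have hleft := hfl.left hy
  have e0 : F.pr (y - P.A d) = F.pr y - F.pr (P.A d) := map_sub _ _ _
  rw [e0, hw] at hleft
  have e1 : F.pr x + ((‖y - x‖ : ℝ) : ℂ) * w - F.pr (P.A d) = (F.pr x - F.pr (P.A d)) +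
      ((‖y - x‖ : ℝ) : ℂ) * w := by ring
  rw [e1, mul_add, Complex.add_im, hl, zero_add, mul_left_comm, Complex.im_ofReal_mul] at hleft
  exact absurd hleft (not_le.2 (mul_neg_of_pos_of_neg h0 hF))

theorem n1b_exit {P : Poly} {n : E3} {F : Fr n} {d : P.D} {t r m : ℝ} {x y : E3} {p w : ℂ}
    (hy : y ∈ P.seg d) (hx : x ∈ P.tri d) (hne : x ≠ y)
    (hw : F.pr y = F.pr x + ((‖y - x‖ : ℝ) : ℂ) * w) (hray : Ray p w (F.pr x) r)
    (hfl : Flat P F t d) (hfar : m * ‖F.pr (P.B (P.inv d) - P.A (P.inv d))‖ ≤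
      (conj (F.pr (P.B (P.inv d) - P.A (P.inv d))) * (p - F.pr (P.A (P.inv d)))).im)
    (hv : F.pr (P.B d - P.A d) ≠ 0) (hm : r < m) : False := by
  have h0 : 0 < ‖y - x‖ := norm_pos_iff.2 (sub_ne_zero.2 hne.symm)
  have hl := n1b_line F hy
  have hl' := n1b_line F (show y ∈ P.seg (P.inv d) by rw [P.seg_inv]; exact hy)
  have hBA : P.B (P.inv d) - P.A (P.inv d) = -(P.B d - P.A d) := by
    have e1 : P.A (P.inv d) = P.B d := rfl
    have e2 : P.B (P.inv d) = P.A d := by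
      unfold Poly.B Poly.A; rw [P.tail_eq_head_inv]
    rw [e1, e2]; abel
  have hv' : F.pr (P.B (P.inv d) - P.A (P.inv d)) ≠ 0 := by
    rw [hBA, map_neg]
    exact neg_ne_zero.2 hv
  have hF := (hray.move (norm_nonneg (y - x)) hw).forced hl' hfar hv' hm
  have hleft := hfl.left hx
  have e0 : F.pr (x - P.A d) = F.pr x - F.pr (P.A d) := map_sub _ _ _
  have e1 : F.pr x - F.pr (P.A d) = (F.pr y - F.pr (P.A d)) - ((‖y - x‖ : ℝ) : ℂ) * w := by
    rw [hw]; ring
  rw [e0, e1, mul_sub, Complex.sub_im, hl, zero_sub, mul_left_comm, Complex.im_ofReal_mul] at hleft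
  rw [hBA, map_neg, map_neg, neg_mul, Complex.neg_im] at hF
  have := mul_pos h0 (neg_neg_iff_pos.1 hF)
  linarith

variable {K : ℕ} {M : Msh K} {N : ℕ} [NeZero N]

omit [NeZero N] in
/-- [DG-N1e] DEPARTURE: the node `k` is not on a far half-edge of the face of the outgoing segment
(`Ray.forced` at `X = pr (x k)`, `Msh.far`; the segment would go to the right of this half-edge, but
the face is on its left, `Flat.left`). -/
theorem St.depart {γ : SCQ M.P N} {T : Fin 6} {F : Fr (un T)} {e : Fin 3} {k : ZMod N} {d d' : Dx K}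
    {m : ℕ} (h : St γ F e k d m) (hm : m ≤ 3 * K + 20) (hd : M.P.SF d d') (hf : Far T e d') :
    γ.x k ∉ M.P.seg d' := by
  intro hx
  obtain ⟨h1, h2, h3, h4⟩ := h.sf hd
  exact n1b_dep hx h3 (γ.ne_succ k) (dir_eq F _ _ (γ.ne_succ k)) h4 (M.flat F h1) (M.far F hf)
    (M.edge_ne F h1) (err_lt M m hm)

omit [NeZero N] in
/-- [DG-N1f] EXIT: the node `k+1` is not on a near half-edge `d'` (`Far (iv d')`) of the face
(`Ray.forced` at `X = pr (x (k+1))`: the segment arrives from the left of `iv d'`, strictly, but the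
face is on the left of `d'`). -/
theorem St.exit {γ : SCQ M.P N} {T : Fin 6} {F : Fr (un T)} {e : Fin 3} {k : ZMod N} {d d' : Dx K}
    {m : ℕ} (h : St γ F e k d m) (hm : m ≤ 3 * K + 20) (hd : M.P.SF d d') (hf : Far T e (iv d')) :
    γ.x (k + 1) ∉ M.P.seg d' := by
  intro hx
  obtain ⟨h1, h2, h3, h4⟩ := h.sf hd
  exact n1b_exit hx h2 (γ.ne_succ k) (dir_eq F _ _ (γ.ne_succ k)) h4 (M.flat F h1) (M.far F hf)
    (M.edge_ne F h1) (err_lt M m hm)

end

end QGd
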