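import Pool.Agent.Lib_MP_6b5565_dg.N1b

/-! [DG-N2] steps: crossings and passages through mesh vertices -/

namespace QGd

open EuclideanGeometry ComplexConjugate Vx Dx

noncomputable section

/-- the two faces at an edge meet in this edge -/
theorem n2_inter {P : Poly} {d : P.D} {x : E3} (h : x ∈ P.tri d) (h' : x ∈ P.tri (P.inv d)) :
    x ∈ P.seg d := by
  classical
  obtain ⟨a, a0, a1, a2, a3⟩ := P.mem_tri_iff.1 h
  obtain ⟨b, b0, b1, b2, b3⟩ := P.mem_tri_iff.1 h'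
  have hab : a = b := P.geom d (P.inv d) a b a0 b0 a1 b1 a2 b2 (a3.trans b3.symm)
  subst hab
  have e1 : P.tail (P.inv d) = P.tail (P.nxt d) := P.tail_inv d
  have e2 : P.tail (P.nxt (P.inv d)) = P.tail d := by
    rw [← P.head_eq, P.tail_eq_head_inv]
  have key : P.tail (P.nxt (P.nxt (P.inv d))) ≠ P.tail (P.nxt (P.nxt d)) := by
    intro hk
    have h1 := P.face_inj d (P.inv d) (by
      rw [e1, e2, hk]
      ext u
      simp only [Finset.mem_insert, Finset.mem_singleton]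
      tauto)
    exact P.not_SF_inv d h1
  have k1 : P.tail d ≠ P.tail (P.nxt (P.nxt d)) := P.tail_ne_prev d
  have k2 : P.tail (P.nxt d) ≠ P.tail (P.nxt (P.nxt d)) := P.head_eq d ▸ P.head_ne_prev d
  refine P.mem_seg_iff.2 ⟨a, a0, fun v hv => ?_, a2, a3⟩
  have h1 : v ∈ ({P.tail d, P.tail (P.nxt d), P.tail (P.nxt (P.nxt d))} : Finset P.V) := a1 v hv
  have h2 : v ∈ ({P.tail (P.inv d), P.tail (P.nxt (P.inv d)),
    P.tail (P.nxt (P.nxt (P.inv d)))} : Finset P.V) := b1 v hv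
  simp only [Finset.mem_insert, Finset.mem_singleton] at h1 h2
  rcases h1 with h1 | h1 | h1
  · exact Or.inl h1
  · exact Or.inr (h1.trans (P.head_eq d).symm)
  · exfalso
    rcases h2 with h2 | h2 | h2
    · exact k2 (by rw [← e1, ← h2, h1])
    · exact k1 (by rw [← e2, ← h2, h1])
    · exact key (by rw [← h2, h1])

/-- the face of the incoming segment at a crossing -/
theorem n2_cross {P : Poly} {d d' : P.D} {x y z : E3} (hx : x ∈ P.tri d) (hy : y ∈ P.tri d)
    (h : P.CrossAt x y z d') : P.SF d d' := by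
  obtain ⟨h1, h2, h3, h4, -⟩ := h
  rcases P.face_of_oseg h1 hy with h5 | h5
  · exact h5
  · refine absurd (n2_inter h2 ?_) h4
    rw [← P.tri_SF h5]
    exact hx

variable {K : ℕ} {M : Msh K} {N : ℕ} [NeZero N]

omit [NeZero N] in
/-- [DG-N2a] the next node: a crossing of a half-edge of the face, or a vertex of the face -/
theorem St.next {γ : SCQ M.P N} {T : Fin 6} {F : Fr (un T)} {e : Fin 3} {k : ZMod N} {d : Dx K}
    {m : ℕ} (h : St γ F e k d m) :
    (∃ d', M.P.SF d d' ∧ M.P.CrossAt (γ.x k) (γ.x (k + 1)) (γ.x (k + 1 + 1)) d') ∨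
    (∃ d', M.P.SF d d' ∧ γ.x (k + 1) = M.pos (tl d') ∧
      M.P.TurnAt (γ.x k) (γ.x (k + 1)) (γ.x (k + 1 + 1)) (tl d')) := by
  obtain ⟨h1, h2, h3, h4⟩ := h
  have hn := γ.node (k + 1)
  rw [add_sub_cancel_right] at hn
  rcases hn with ⟨d', hd'⟩ | ⟨v, α, hv, h5⟩
  · exact Or.inl ⟨d', n2_cross h2 h3 hd', hd'⟩
  · right
    have h6 : M.P.pos v ∈ M.P.tri d := by rw [← hv]; exact h3
    obtain ⟨a, ha, hav⟩ := M.P.verts_of_pos_mem h6
    refine ⟨a, ha, ?_, ⟨α, ?_, ?_⟩⟩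
    · rw [hv, ← hav]; rfl
    · rw [hv, ← hav]; rfl
    · have : (tl a : M.P.V) = v := hav
      rw [this]; exact h5

end

end QGd
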