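import Pool.Agent.Lib_MP_6b5565_dg.N2

/-! [DG-N2b] steps: crossings and passages through mesh vertices -/

namespace QGd

open EuclideanGeometry ComplexConjugate Vx Dx

noncomputable section

variable {K : ℕ} {M : Msh K} {N : ℕ} [NeZero N]

private theorem ray_mono_n2b {p w X : ℂ} {r r' : ℝ} (h : Ray p w X r) (hr : r ≤ r') :
    Ray p w X r' := by
  obtain ⟨t, ht, h1⟩ := h
  exact ⟨t, ht, h1.trans hr⟩

private theorem eta_pos_n2b (K : ℕ) : 0 < eta K := by
  unfold eta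
  positivity

private theorem eta_le_n2b (K : ℕ) : eta K ≤ 1 / 10 ^ 6 := by
  unfold eta
  calc ((1 : ℝ) / 2) ^ (2 * K + 60) ≤ (1 / 2) ^ 60 :=
        pow_le_pow_of_le_one (by norm_num) (by norm_num) (by omega)
    _ ≤ 1 / 10 ^ 6 := by norm_num

/-- the ray after a node with a small change of the direction -/
private theorem St.step_n2b {γ : SCQ M.P N} {T : Fin 6} {F : Fr (un T)} {e : Fin 3} {k : ZMod N}
    {d : Dx K} {m : ℕ} (h : St γ F e k d m) (hm : m ≤ 3 * K + 20) (hne : γ.x k ≠ γ.x (k + 1))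
    {w' : ℂ} (hw : ‖w' - F.dir (γ.x k) (γ.x (k + 1))‖ ≤ 1000 * eta K) :
    Ray (F.pr (M.pos (base (CT T e)))) w' (F.pr (γ.x (k + 1)))
      (((m + 1 : ℕ) : ℝ) * (2 ^ 16 * M.S * eta K)) := by
  have hS := M.Spos
  have heta := eta_pos_n2b K
  obtain ⟨-, -, hx, hr⟩ := id h
  have h1 : Ray (F.pr (M.pos (base (CT T e)))) (F.dir (γ.x k) (γ.x (k + 1)))
      (F.pr (γ.x (k + 1))) (m * (2 ^ 16 * M.S * eta K)) :=
    hr.move (norm_nonneg _) (dir_eq F _ _ hne)
  have h2 : (m : ℝ) * (2 ^ 16 * M.S * eta K) ≤ M.S := by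
    refine (err_lt M m hm).le.trans ?_
    have : ((1 : ℝ) / 2) ^ (K + 12) ≤ 1 := pow_le_one₀ (by norm_num) (by norm_num)
    calc ((1 : ℝ) / 2) ^ (K + 12) * (M.S : ℝ) ≤ 1 * M.S := mul_le_mul_of_nonneg_right this hS.le
      _ = M.S := one_mul _
  have h3 : ‖F.pr (γ.x (k + 1)) - F.pr (M.pos (base (CT T e)))‖ ≤ 20 * M.S := by
    rw [← map_sub]
    refine (F.norm_le _).trans ((norm_sub_le _ _).trans ?_)
    have h4 := M.size_tri d _ hx
    have h5 := M.size (base (CT T e))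
    linarith
  have h4 := h1.turn hS.le h2 h3 h.dir_ge hw
  refine ray_mono_n2b h4 ?_
  push_cast
  have h5 : 0 ≤ (M.S : ℝ) * eta K := by positivity
  nlinarith

/-- [DG-N2b] CROSSING STEP (`cross_dir`, `Ray.move`, `Ray.turn`): the next state is in the face of
`iv d'`, if this is in the same base face. -/
theorem St.cross {γ : SCQ M.P N} {T : Fin 6} {F : Fr (un T)} {e : Fin 3} {k : ZMod N} {d d' : Dx K}
    {m : ℕ} (h : St γ F e k d m) (hm : m ≤ 3 * K + 20) (hd : M.P.SF d d')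
    (hc : M.P.CrossAt (γ.x k) (γ.x (k + 1)) (γ.x (k + 1 + 1)) d') (h6 : face6 (iv d') = T) :
    St γ F e (k + 1) (iv d') (m + 1) := by
  obtain ⟨h1, h2, h3, h4, h5, h7, h8⟩ := id hc
  have hT : face6 d = T := h.1
  have hT' : face6 d' = T := (M.face6_sf hd).trans hT
  have hseg : γ.x (k + 1) ∈ M.P.seg d' := openSegment_subset_segment ℝ _ _ h1
  have hne : γ.x k ≠ γ.x (k + 1) := by
    intro h0
    rw [h0] at h4
    exact h4 hseg
  have hy : γ.x (k + 1) ∈ M.P.tri (iv d') := by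
    have h9 : γ.x (k + 1) ∈ M.P.seg (M.P.inv d') := by
      rw [Poly.seg_inv]
      exact hseg
    exact Poly.seg_sub_tri _ _ h9
  refine ⟨h6, hy, h3, h.step_n2b hm hne ?_⟩
  refine cross_dir (un_norm T) F (eta K) (eta_pos_n2b K).le (eta_le_n2b K) hc ?_ ?_
  · intro a ha
    exact M.flat F ((M.face6_sf ha).symm.trans hT')
  · intro a ha
    exact M.flat F ((M.face6_sf ha).symm.trans h6)

end

end QGd
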