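import Pool.Agent.Lib_MP_6b5565_dg.N2b

/-! [DG-N2c] steps: crossings and passages through mesh vertices -/

namespace QGd

open EuclideanGeometry ComplexConjugate Vx Dx

noncomputable section

variable {K : ℕ} {M : Msh K} {N : ℕ} [NeZero N]

/-- the base face of a mesh vertex -/
private def vf : Vx K → Fin 6
  | base _ => 0
  | ctr T => T
  | leg T _ _ => T

private theorem face6_tl (d : Dx K) (h : ∀ b, tl d ≠ base b) : face6 d = vf (tl d) := by
  rcases d with ⟨T, e, i, k⟩ | ⟨T, e, i, k⟩ | ⟨T, e, k⟩ <;> fin_cases k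
  · exact absurd rfl (h _)
  · rfl
  · show T = vf (pre T e i)
    unfold pre
    split <;> rfl
  · exact absurd rfl (h _)
  · show T = vf (pre T e i)
    unfold pre
    split <;> rfl
  · rfl
  · exact absurd rfl (h _)
  · exact absurd rfl (h _)
  · rfl

private theorem tail_rot_iter {P : Poly} (a : P.D) (t : ℕ) : P.tail (P.rot^[t] a) = P.tail a := by
  induction t with
  | zero => rfl
  | succ t ih => rw [Function.iterate_succ_apply', P.tail_rot, ih]

private theorem A_mem (P : Poly) (d : P.D) : P.A d ∈ P.tri d :=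
  P.seg_sub_tri d (left_mem_segment ℝ _ _)

/-- [DG-N2c] PASSAGE THROUGH A MESH VERTEX (`turn_dir`, `tot_leg_near`, `tot_ctr_lower`,
`tot_ctr_upper`): the next state is in a face at this vertex. -/
theorem St.turn {γ : SCQ M.P N} {T : Fin 6} {F : Fr (un T)} {e : Fin 3} {k : ZMod N} {d : Dx K}
    {m : ℕ} (h : St γ F e k d m) (hm : m ≤ 3 * K + 20) {v : Vx K} (hv : ∀ b, v ≠ base b)
    (hx : γ.x (k + 1) = M.pos v) (hc : M.P.TurnAt (γ.x k) (γ.x (k + 1)) (γ.x (k + 1 + 1)) v) :
    ∃ d', tl d' = v ∧ St γ F e (k + 1) d' (m + 1) := by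
  obtain ⟨hT, hk, hk1, hR⟩ := id h
  -- the base face of `v` is `T`
  have hvT : vf v = T := by
    have h1 : M.P.pos v ∈ M.P.tri d := by
      rw [M.pos_eq, ← hx]
      exact hk1
    obtain ⟨d2, hd2, hd3⟩ := M.P.verts_of_pos_mem h1
    have h2 : tl d2 = v := hd3
    have h3 := face6_tl d2 (by rw [h2]; exact hv)
    rw [M.face6_sf hd2, hT, h2] at h3
    exact h3.symm
  have hface : ∀ d' : Dx K, tl d' = v → face6 d' = T := by
    intro d' hd'
    rw [face6_tl d' (by rw [hd']; exact hv), hd', hvT]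
  -- the next face
  obtain ⟨d', hd', hq⟩ : ∃ d' : Dx K, tl d' = v ∧ γ.x (k + 1 + 1) ∈ M.P.tri d' := by
    obtain ⟨α, _, hS, _, _⟩ := hc
    rcases hS with ⟨d0, h0, _, h2, _⟩ | ⟨d0, j, h0, _, _, _, h2, _⟩
    · exact ⟨d0, h0, h2⟩
    · exact ⟨M.P.rot^[j] d0, (tail_rot_iter (P := M.P) d0 j).trans h0, h2⟩
  refine ⟨d', hd', hface d' hd', ?_, hq, ?_⟩
  · rw [hx, ← M.pos_eq, ← hd']
    exact A_mem M.P d'
  · have heta : eta K ≤ 1 / 10 ^ 6 := by
      unfold eta
      calc ((1 : ℝ) / 2) ^ (2 * K + 60) ≤ (1 / 2) ^ 60 :=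
            pow_le_pow_of_le_one (by norm_num) (by norm_num) (by omega)
        _ ≤ 1 / 10 ^ 6 := by norm_num
    have heta0 : 0 ≤ eta K := by
      unfold eta
      positivity
    have hS := M.Spos
    -- curvature and degree
    have hdeg : M.P.deg v ≤ 6 := by
      rcases v with b | T' | ⟨T', e', i⟩
      · exact absurd rfl (hv b)
      · exact M.deg_ctr T'
      · exact M.deg_leg T' e' i
    have htot : |M.P.tot v - 2 * Real.pi| ≤ eta K := by
      rcases v with b | T' | ⟨T', e', i⟩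
      · exact absurd rfl (hv b)
      · rw [abs_le]
        have h1 := M.tot_ctr_lower T'
        have h2 := M.tot_ctr_upper T'
        constructor <;> linarith
      · exact M.tot_leg_near T' e' i
    have hdir := turn_dir (P := M.P) (un_norm T) F (eta K) heta0 heta (γ.ne k) (γ.ne (k + 1)).symm hc
      (fun d2 hd2 => M.flat F (hface d2 hd2)) hdeg htot
    have h1 := hR.move (norm_nonneg _) (dir_eq F _ _ (γ.ne k))
    have hr : (m : ℝ) * (2 ^ 16 * M.S * eta K) ≤ M.S := by
      have h2 : (m : ℝ) ≤ 2 ^ (K + 10) := by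
        have h3 : m ≤ 2 ^ (K + 10) := by
          have h4 : K < 2 ^ K := Nat.lt_two_pow_self
          rw [pow_add]
          omega
        exact_mod_cast h3
      have h5 : (2 : ℝ) ^ (K + 10) * (2 ^ 16 * eta K) ≤ 1 := by
        unfold eta
        rw [one_div, inv_pow, ← mul_assoc, ← pow_add, ← div_eq_mul_inv, div_le_one (by positivity)]
        exact pow_le_pow_right₀ (by norm_num) (by omega)
      calc (m : ℝ) * (2 ^ 16 * M.S * eta K) ≤ 2 ^ (K + 10) * (2 ^ 16 * M.S * eta K) :=
            mul_le_mul_of_nonneg_right h2 (by positivity)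
        _ = 2 ^ (K + 10) * (2 ^ 16 * eta K) * M.S := by ring
        _ ≤ 1 * M.S := mul_le_mul_of_nonneg_right h5 hS.le
        _ = M.S := one_mul _
    have hX : ‖F.pr (γ.x (k + 1)) - F.pr (M.pos (base (CT T e)))‖ ≤ 20 * M.S := by
      rw [← map_sub]
      refine (F.norm_le _).trans ?_
      rw [hx]
      refine (norm_sub_le _ _).trans ?_
      have h2 := M.size v
      have h3 := M.size (base (CT T e))
      linarith
    have h2 := h1.turn hS.le hr hX h.dir_ge hdir
    obtain ⟨t, ht, ht'⟩ := h2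
    refine ⟨t, ht, ht'.trans ?_⟩
    push_cast
    nlinarith [mul_nonneg hS.le heta0]

end

end QGd
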