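import Pool.Agent.Lib_MP_6b5565_dg.N2c

/-! [DG-N3] transitions before the opposite leg -/

namespace QGd

open EuclideanGeometry ComplexConjugate Vx Dx

noncomputable section

variable {K : ℕ} {M : Msh K} {N : ℕ} [NeZero N]

private theorem f21_n3 (e : Fin 3) : e + 2 + 1 = e := by revert e; decide

private theorem f12_n3 (e : Fin 3) : e + 1 + 2 = e := by revert e; decide

private theorem tlB_n3 (M : Msh K) (d : Dx K) : M.pos (tl d) = M.P.B (nx (nx d)) := by
  show M.pos (tl d) = M.pos (tl (iv (nx (nx d))))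
  rw [tl_iv, nx3]

/-- if two half-edges of the face are near, the path crosses the third -/
private theorem only_n3 {γ : SCQ M.P N} {T : Fin 6} {F : Fr (un T)} {e : Fin 3} {k : ZMod N}
    {d : Dx K} {m : ℕ} (h : St γ F e k d m) (hm : m ≤ 3 * K + 20) (h1 : Far T e (iv (nx d)))
    (h2 : Far T e (iv (nx (nx d)))) :
    M.P.CrossAt (γ.x k) (γ.x (k + 1)) (γ.x (k + 1 + 1)) d := by
  have sf1 : M.P.SF d (nx d) := Or.inr (Or.inl rfl)
  have sf2 : M.P.SF d (nx (nx d)) := Or.inr (Or.inr rfl)
  have e1 := h.exit hm sf1 h1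
  have e2 := h.exit hm sf2 h2
  rcases h.next with ⟨d', hd', hc⟩ | ⟨d', hd', hv, hc⟩
  · rcases hd' with rfl | rfl | rfl
    · exact hc
    · exact absurd (openSegment_subset_segment ℝ _ _ hc.1) e1
    · exact absurd (openSegment_subset_segment ℝ _ _ hc.1) e2
  · exfalso
    rcases hd' with rfl | rfl | rfl
    · apply e2
      rw [hv]
      rw [tlB_n3 M d']
      exact right_mem_segment ℝ _ _
    · apply e1
      rw [hv]
      exact left_mem_segment ℝ _ _
    · apply e2
      rw [hv]
      exact left_mem_segment ℝ _ _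

/-- [DG-N3a] in the face `R T (e+2) i` (hub `q = CT T (e+1)`): the half-edges `1` and `2` are near
(`iv` is `Far.a` resp. `Far.c`/`Far.f`), so the path crosses the half-edge `0`. -/
theorem St.R2 {γ : SCQ M.P N} {T : Fin 6} {F : Fr (un T)} {e : Fin 3} {k : ZMod N}
    {i : Fin (K + 1)} {m : ℕ} (h : St γ F e k (R T (e + 2) i 0) m) (hm : m ≤ 3 * K + 19) :
    (i = 0 → St γ F e (k + 1) (L T e 0 0) (m + 1)) ∧
    (i ≠ 0 → St γ F e (k + 1) (R T (e + 2) (i - 1) 0) (m + 1)) := by
  have hc := only_n3 h (by omega) (Far.a i) (by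
    show Far T e (if i = Fin.last K then E T (e + 2) 1 else R T (e + 2) (i + 1) 0)
    split_ifs
    · exact Far.c
    · exact Far.f _)
  have he : e + 2 + 1 = e := f21_n3 e
  constructor
  · intro hi
    subst hi
    have hiv : iv (R T (e + 2) (0 : Fin (K + 1)) 0) = L T e 0 2 := by
      show (if (0 : Fin (K + 1)) = 0 then L T (e + 2 + 1) 0 2 else R T (e + 2) (0 - 1) 2) = _
      rw [if_pos rfl, he]
    have h' := h.cross (by omega) (Or.inl rfl) hc (by rw [hiv]; rfl)
    rw [hiv] at h'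
    exact h'.sf (Or.inr (Or.inl rfl))
  · intro hi
    have hiv : iv (R T (e + 2) i 0) = R T (e + 2) (i - 1) 2 := by
      show (if i = 0 then L T (e + 2 + 1) 0 2 else R T (e + 2) (i - 1) 2) = _
      rw [if_neg hi]
    have h' := h.cross (by omega) (Or.inl rfl) hc (by rw [hiv]; rfl)
    rw [hiv] at h'
    exact h'.sf (Or.inr (Or.inl rfl))

/-- [DG-N3b] in the face `L T (e+1) i` (hub `r = CT T (e+2)`): the half-edges `0` and `1` are near,
so the path crosses the half-edge `2`. -/
theorem St.L1 {γ : SCQ M.P N} {T : Fin 6} {F : Fr (un T)} {e : Fin 3} {k : ZMod N}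
    {i : Fin (K + 1)} {m : ℕ} (h : St γ F e k (L T (e + 1) i 0) m) (hm : m ≤ 3 * K + 19) :
    (i = 0 → St γ F e (k + 1) (R T e 0 0) (m + 1)) ∧
    (i ≠ 0 → St γ F e (k + 1) (L T (e + 1) (i - 1) 0) (m + 1)) := by
  have h2 : St γ F e k (L T (e + 1) i 2) m := h.sf (Or.inr (Or.inr rfl))
  have hc := only_n3 h2 (by omega) (by
    show Far T e (if i = Fin.last K then E T (e + 1) 2 else L T (e + 1) (i + 1) 2)
    split_ifs
    · exact Far.d
    · exact Far.g _) (Far.b i)
  have he : e + 1 + 2 = e := f12_n3 e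
  constructor
  · intro hi
    subst hi
    have hiv : iv (L T (e + 1) (0 : Fin (K + 1)) 2) = R T e 0 0 := by
      show (if (0 : Fin (K + 1)) = 0 then R T (e + 1 + 2) 0 0 else L T (e + 1) (0 - 1) 0) = _
      rw [if_pos rfl, he]
    have h' := h2.cross (by omega) (Or.inl rfl) hc (by rw [hiv]; rfl)
    rw [hiv] at h'
    exact h'
  · intro hi
    have hiv : iv (L T (e + 1) i 2) = L T (e + 1) (i - 1) 0 := by
      show (if i = 0 then R T (e + 1 + 2) 0 0 else L T (e + 1) (i - 1) 0) = _
      rw [if_neg hi]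
    have h' := h2.cross (by omega) (Or.inl rfl) hc (by rw [hiv]; rfl)
    rw [hiv] at h'
    exact h'

end

end QGd
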