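import Pool.Agent.Lib_MP_6b5565_dg.N3

/-! [DG-N3b] transitions before the opposite leg -/

namespace QGd

open EuclideanGeometry ComplexConjugate Vx Dx

noncomputable section

variable {K : ℕ} {M : Msh K} {N : ℕ} [NeZero N]

private theorem f22_n3b (e : Fin 3) : e + 2 + 2 = e + 1 := by revert e; decide

private theorem AA_n3b (M : Msh K) (d : Dx K) : M.P.A d = M.pos (tl d) := rfl

private theorem BB_n3b (M : Msh K) (d : Dx K) : M.P.B d = M.pos (tl (nx d)) := by
  show M.pos (tl (iv d)) = _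
  rw [tl_iv]

private theorem leg_inv_n3b {T : Fin 6} {e : Fin 3} {i : Fin (K + 1)} {d : Dx K}
    (h : tl d = leg T e i) : d = L T e i 1 ∨
      (∃ i', i' ≠ 0 ∧ i' - 1 = i ∧ (d = L T e i' 2 ∨ d = R T e i' 1)) ∨ d = R T e i 2 ∨
      (i = Fin.last K ∧ d = E T e 2) := by
  rcases d with ⟨T', e', i', c⟩ | ⟨T', e', i', c⟩ | ⟨T', e', c⟩
  · fin_cases c
    · simp [tl] at h
    · left
      simp only [tl] at h
      injection h with h1 h2 h3
      subst h1 h2 h3
      rfl
    · right; left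
      have h' : pre T' e' i' = leg T e i := h
      unfold pre at h'
      split_ifs at h' with h0
      injection h' with h1 h2 h3
      subst h1 h2
      exact ⟨i', h0, h3, Or.inl rfl⟩
  · fin_cases c
    · simp [tl] at h
    · right; left
      have h' : pre T' e' i' = leg T e i := h
      unfold pre at h'
      split_ifs at h' with h0
      injection h' with h1 h2 h3
      subst h1 h2
      exact ⟨i', h0, h3, Or.inr rfl⟩
    · right; right; left
      simp only [tl] at h
      injection h with h1 h2 h3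
      subst h1 h2 h3
      rfl
  · fin_cases c
    · simp [tl] at h
    · simp [tl] at h
    · right; right; right
      simp only [tl] at h
      injection h with h1 h2 h3
      subst h1 h2
      exact ⟨h3.symm, rfl⟩

private theorem ctr_inv_n3b {T : Fin 6} {d : Dx K} (h : tl d = ctr T) :
    ∃ e', d = L T e' 0 2 ∨ d = R T e' 0 1 := by
  rcases d with ⟨T', e', i', c⟩ | ⟨T', e', i', c⟩ | ⟨T', e', c⟩
  · fin_cases c
    · simp [tl] at h
    · simp [tl] at h
    · have h' : pre T' e' i' = ctr T := h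
      unfold pre at h'
      split_ifs at h' with h0
      injection h' with h1
      subst h1 h0
      exact ⟨e', Or.inl rfl⟩
  · fin_cases c
    · simp [tl] at h
    · have h' : pre T' e' i' = ctr T := h
      unfold pre at h'
      split_ifs at h' with h0
      injection h' with h1
      subst h1 h0
      exact ⟨e', Or.inr rfl⟩
    · simp [tl] at h
  · fin_cases c <;> simp [tl] at h

/-- the node is not the start vertex of a far half-edge of the face -/
private theorem noA_n3b {γ : SCQ M.P N} {T : Fin 6} {F : Fr (un T)} {e : Fin 3} {k : ZMod N}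
    {d d' : Dx K} {m : ℕ} (h : St γ F e k d m) (hm : m ≤ 3 * K + 20) (hd : M.P.SF d d')
    (hf : Far T e d') (hx : γ.x k = M.pos (tl d')) : False := by
  apply h.depart hm hd hf
  rw [hx]
  exact left_mem_segment ℝ _ _

private theorem noB_n3b {γ : SCQ M.P N} {T : Fin 6} {F : Fr (un T)} {e : Fin 3} {k : ZMod N}
    {d d' : Dx K} {m : ℕ} (h : St γ F e k d m) (hm : m ≤ 3 * K + 20) (hd : M.P.SF d d')
    (hf : Far T e d') (hx : γ.x k = M.pos (tl (nx d'))) : False := by
  apply h.depart hm hd hf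
  rw [hx, ← BB_n3b M d']
  exact right_mem_segment ℝ _ _

private theorem pre_n3b {T : Fin 6} {e : Fin 3} {i i' : Fin (K + 1)} (h0 : i' ≠ 0)
    (h1 : i' - 1 = i) : pre T e i' = leg T e i := by
  unfold pre
  rw [if_neg h0, h1]

/-- [DG-N3c] the vertices of the legs `e+2`, `e+1` and the centre: the only face at the vertex which
has no far half-edge through the vertex (`St.depart`). -/
theorem St.out_leg2 {γ : SCQ M.P N} {T : Fin 6} {F : Fr (un T)} {e : Fin 3} {k : ZMod N}
    {i : Fin (K + 1)} {d : Dx K} {m : ℕ} (h : St γ F e k d m) (hm : m ≤ 3 * K + 19)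
    (hd : tl d = leg T (e + 2) i) (hx : γ.x k = M.pos (leg T (e + 2) i)) :
    St γ F e k (R T (e + 2) i 0) m := by
  rcases leg_inv_n3b hd with rfl | ⟨i', h0, h1, rfl | rfl⟩ | rfl | ⟨hi, rfl⟩
  · exact (noA_n3b h (by omega) (Or.inl rfl) (Far.a i) hx).elim
  · refine (noB_n3b h (by omega) (d' := L T (e + 2) i' 1) (Or.inr (Or.inr rfl)) (Far.a i') ?_).elim
    rw [hx, ← pre_n3b h0 h1]; rfl
  · refine (noB_n3b h (by omega) (d' := R T (e + 2) i' 0) (Or.inr (Or.inr rfl)) (Far.f i') ?_).elim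
    rw [hx, ← pre_n3b h0 h1]; rfl
  · exact h.sf (Or.inr (Or.inl rfl))
  · refine (noB_n3b h (by omega) (d' := E T (e + 2) 1) (Or.inr (Or.inr rfl)) Far.c ?_).elim
    rw [hx, hi]; rfl

theorem St.out_leg1 {γ : SCQ M.P N} {T : Fin 6} {F : Fr (un T)} {e : Fin 3} {k : ZMod N}
    {i : Fin (K + 1)} {d : Dx K} {m : ℕ} (h : St γ F e k d m) (hm : m ≤ 3 * K + 19)
    (hd : tl d = leg T (e + 1) i) (hx : γ.x k = M.pos (leg T (e + 1) i)) :
    St γ F e k (L T (e + 1) i 0) m := by
  rcases leg_inv_n3b hd with rfl | ⟨i', h0, h1, rfl | rfl⟩ | rfl | ⟨hi, rfl⟩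
  · exact h.sf (Or.inr (Or.inr rfl))
  · refine (noA_n3b h (by omega) (Or.inl rfl) (Far.g i') ?_).elim
    rw [hx, ← pre_n3b h0 h1]; rfl
  · refine (noA_n3b h (by omega) (Or.inl rfl) (Far.b i') ?_).elim
    rw [hx, ← pre_n3b h0 h1]; rfl
  · refine (noB_n3b h (by omega) (d' := R T (e + 1) i 1) (Or.inr (Or.inr rfl)) (Far.b i) ?_).elim
    rw [hx]; rfl
  · refine (noA_n3b h (by omega) (Or.inl rfl) Far.d ?_).elim
    rw [hx, hi]; rfl

theorem St.out_ctr {γ : SCQ M.P N} {T : Fin 6} {F : Fr (un T)} {e : Fin 3} {k : ZMod N}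
    {d : Dx K} {m : ℕ} (h : St γ F e k d m) (hm : m ≤ 3 * K + 19)
    (hd : tl d = ctr T) (hx : γ.x k = M.pos (ctr T)) : St γ F e k (L T e 0 0) m := by
  obtain ⟨e', hd'⟩ := ctr_inv_n3b hd
  have he' : e' = e ∨ e' = e + 1 ∨ e' = e + 2 := by
    clear hd' hd hx h
    revert e e'; decide
  rcases hd' with rfl | rfl
  · rcases he' with rfl | rfl | rfl
    · exact h.sf (Or.inr (Or.inl rfl))
    · refine (noA_n3b h (by omega) (Or.inl rfl) (Far.g 0) ?_).elim
      rw [hx]; rfl
    · refine (noB_n3b h (by omega) (d' := L T (e + 2) 0 1) (Or.inr (Or.inr rfl)) (Far.a 0) ?_).elim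
      rw [hx]; rfl
  · rcases he' with rfl | rfl | rfl
    · refine (noA_n3b h (by omega) (Or.inl rfl) (Far.i 0) ?_).elim
      rw [hx]; rfl
    · refine (noA_n3b h (by omega) (Or.inl rfl) (Far.b 0) ?_).elim
      rw [hx]; rfl
    · refine (noB_n3b h (by omega) (d' := R T (e + 2) 0 0) (Or.inr (Or.inr rfl)) (Far.f 0) ?_).elim
      rw [hx]; rfl

end

end QGd
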