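import Pool.Agent.Lib_MP_6b5565_dg.N2c

/-! [DG-N4] transitions at the opposite leg -/

namespace QGd

open EuclideanGeometry ComplexConjugate Vx Dx

noncomputable section

variable {K : ℕ} {M : Msh K} {N : ℕ} [NeZero N]

private theorem tlB_n4 (M : Msh K) (d : Dx K) : M.pos (tl d) = M.P.B (nx (nx d)) := by
  show M.pos (tl d) = M.pos (tl (iv (nx (nx d))))
  rw [tl_iv, nx3]

private theorem BB_n4 (M : Msh K) (d : Dx K) : M.P.B d = M.pos (tl (nx d)) := by
  show M.pos (tl (iv d)) = _
  rw [tl_iv]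

/-- if two half-edges of the face are near, the path crosses the third -/
private theorem only_n4 {γ : SCQ M.P N} {T : Fin 6} {F : Fr (un T)} {e : Fin 3} {k : ZMod N}
    {d : Dx K} {m : ℕ} (h : St γ F e k d m) (hm : m ≤ 3 * K + 20) (h1 : Far T e (iv (nx d)))
    (h2 : Far T e (iv (nx (nx d)))) :
    M.P.CrossAt (γ.x k) (γ.x (k + 1)) (γ.x (k + 1 + 1)) d := by
  have sf1 : M.P.SF d (nx d) := Or.inr (Or.inl rfl)
  have sf2 : M.P.SF d (nx (nx d)) := Or.inr (Or.inr rfl)
  have e1 := h.exit hm sf1 h1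
  have e2 := h.exit hm sf2 h2
  rcases h.next with ⟨d', hd', hc⟩ | ⟨d', hd', hv, hc⟩
  · rcases hd' with rfl | rfl | rfl
    · exact hc
    · exact absurd (openSegment_subset_segment ℝ _ _ hc.1) e1
    · exact absurd (openSegment_subset_segment ℝ _ _ hc.1) e2
  · exfalso
    rcases hd' with rfl | rfl | rfl
    · apply e2
      rw [hv]
      rw [tlB_n4 M d']
      exact right_mem_segment ℝ _ _
    · apply e1
      rw [hv]
      exact left_mem_segment ℝ _ _
    · apply e2
      rw [hv]
      exact left_mem_segment ℝ _ _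

/-- [DG-N4a] in the face `L T e i` (hub `q`): the half-edges `1` and `2` are near, so the path crosses
the half-edge `0`, the spoke from `q` to `leg T e i`. -/
theorem St.L0 {γ : SCQ M.P N} {T : Fin 6} {F : Fr (un T)} {e : Fin 3} {k : ZMod N}
    {i : Fin (K + 1)} {m : ℕ} (h : St γ F e k (L T e i 0) m) (hm : m ≤ 3 * K + 19) :
    γ.x (k + 1) ∈ openSegment ℝ (M.pos (base (CT T (e + 1)))) (M.pos (leg T e i)) ∧
    (i ≠ Fin.last K → St γ F e (k + 1) (L T e (i + 1) 0) (m + 1)) := by
  have hc := only_n4 h (by omega) (Far.i i) (by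
    show Far T e (if i = 0 then R T (e + 2) 0 0 else L T e (i - 1) 0)
    split_ifs
    · exact Far.f _
    · exact Far.h _)
  constructor
  · have h1 : γ.x (k + 1) ∈ openSegment ℝ (M.P.A (L T e i 0)) (M.P.B (L T e i 0)) := hc.1
    rw [BB_n4] at h1
    exact h1
  · intro hi
    have hiv : iv (L T e i 0) = L T e (i + 1) 2 := by
      show (if i = Fin.last K then E T e 2 else L T e (i + 1) 2) = _
      rw [if_neg hi]
    have h' := h.cross (by omega) (Or.inl rfl) hc (by rw [hiv]; rfl)
    rw [hiv] at h'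
    exact h'.sf (Or.inr (Or.inl rfl))

end

end QGd
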