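import Pool.Agent.Lib_MP_6b5565_dg.N4

/-! [DG-N4b] transitions at the opposite leg -/

namespace QGd

open EuclideanGeometry ComplexConjugate Vx Dx

noncomputable section

variable {K : ℕ} {M : Msh K} {N : ℕ} [NeZero N]

private theorem tlB_n4b (M : Msh K) (d : Dx K) : M.pos (tl d) = M.P.B (nx (nx d)) := by
  show M.pos (tl d) = M.pos (tl (iv (nx (nx d))))
  rw [tl_iv, nx3]

private theorem BB_n4b (M : Msh K) (d : Dx K) : M.P.B d = M.pos (tl (nx d)) := by
  show M.pos (tl (iv d)) = _
  rw [tl_iv]

private theorem leg_inv_n4b {T : Fin 6} {e : Fin 3} {i : Fin (K + 1)} {d : Dx K}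
    (h : tl d = leg T e i) : d = L T e i 1 ∨
      (∃ i', i' ≠ 0 ∧ i' - 1 = i ∧ (d = L T e i' 2 ∨ d = R T e i' 1)) ∨ d = R T e i 2 ∨
      (i = Fin.last K ∧ d = E T e 2) := by
  rcases d with ⟨T', e', i', c⟩ | ⟨T', e', i', c⟩ | ⟨T', e', c⟩
  · fin_cases c
    · simp [tl] at h
    · left
      simp only [tl] at h
      injection h with h1 h2 h3
      subst h1 h2 h3
      rfl
    · right; left
      have h' : pre T' e' i' = leg T e i := h
      unfold pre at h'
      split_ifs at h' with h0
      injection h' with h1 h2 h3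
      subst h1 h2
      exact ⟨i', h0, h3, Or.inl rfl⟩
  · fin_cases c
    · simp [tl] at h
    · right; left
      have h' : pre T' e' i' = leg T e i := h
      unfold pre at h'
      split_ifs at h' with h0
      injection h' with h1 h2 h3
      subst h1 h2
      exact ⟨i', h0, h3, Or.inr rfl⟩
    · right; right; left
      simp only [tl] at h
      injection h with h1 h2 h3
      subst h1 h2 h3
      rfl
  · fin_cases c
    · simp [tl] at h
    · simp [tl] at h
    · right; right; right
      simp only [tl] at h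
      injection h with h1 h2 h3
      subst h1 h2
      exact ⟨h3.symm, rfl⟩

/-- the node is not the start vertex of a far half-edge of the face -/
private theorem noA_n4b {γ : SCQ M.P N} {T : Fin 6} {F : Fr (un T)} {e : Fin 3} {k : ZMod N}
    {d d' : Dx K} {m : ℕ} (h : St γ F e k d m) (hm : m ≤ 3 * K + 20) (hd : M.P.SF d d')
    (hf : Far T e d') (hx : γ.x k = M.pos (tl d')) : False := by
  apply h.depart hm hd hf
  rw [hx]
  exact left_mem_segment ℝ _ _

private theorem noB_n4b {γ : SCQ M.P N} {T : Fin 6} {F : Fr (un T)} {e : Fin 3} {k : ZMod N}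
    {d d' : Dx K} {m : ℕ} (h : St γ F e k d m) (hm : m ≤ 3 * K + 20) (hd : M.P.SF d d')
    (hf : Far T e d') (hx : γ.x k = M.pos (tl (nx d'))) : False := by
  apply h.depart hm hd hf
  rw [hx, ← BB_n4b M d']
  exact right_mem_segment ℝ _ _

private theorem pre_n4b {T : Fin 6} {e : Fin 3} {i i' : Fin (K + 1)} (h0 : i' ≠ 0)
    (h1 : i' - 1 = i) : pre T e i' = leg T e i := by
  unfold pre
  rw [if_neg h0, h1]

/-- [DG-N4b] in the face `R T e i` (hub `r`): the half-edge `0` is near. The next node is on the spoke
from `r` to `leg T e i`, or inside the leg edge (then it continues in `L T e i`), or the vertex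
`leg T e i` (then it continues in `L T e (i+1)`: `St.turn`, `St.depart`). -/
theorem St.R0 {γ : SCQ M.P N} {T : Fin 6} {F : Fr (un T)} {e : Fin 3} {k : ZMod N}
    {i : Fin (K + 1)} {m : ℕ} (h : St γ F e k (R T e i 0) m) (hm : m ≤ 3 * K + 19) :
    (γ.x (k + 1) ∈ openSegment ℝ (M.pos (base (CT T (e + 2)))) (M.pos (leg T e i)) ∧
      (i ≠ Fin.last K → St γ F e (k + 1) (R T e (i + 1) 0) (m + 1))) ∨
    St γ F e (k + 1) (L T e i 0) (m + 1) ∨
    (i ≠ Fin.last K → St γ F e (k + 1) (L T e (i + 1) 0) (m + 1)) := by
  -- the half-edge `0` is near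
  have e0 := h.exit (by omega) (d' := R T e i 0) (Or.inl rfl) (by
    show Far T e (if i = 0 then L T (e + 1) 0 2 else R T e (i - 1) 2)
    split_ifs
    · exact Far.g _
    · exact Far.j _)
  rcases h.next with ⟨d', hd', hc⟩ | ⟨d', hd', hv, hc⟩
  · rcases hd' with rfl | rfl | rfl
    · exact absurd (openSegment_subset_segment ℝ _ _ hc.1) e0
    · right; left
      have h' := h.cross (by omega) (d' := R T e i 1) (Or.inr (Or.inl rfl)) hc rfl
      exact h'.sf (d' := L T e i 0) (Or.inr (Or.inr rfl))
    · left
      constructor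
      · have h1 : γ.x (k + 1) ∈ openSegment ℝ (M.P.A (R T e i 2)) (M.P.B (R T e i 2)) := hc.1
        rw [BB_n4b, openSegment_symm] at h1
        exact h1
      · intro hi
        have hiv : iv (R T e i 2) = R T e (i + 1) 0 := by
          show (if i = Fin.last K then E T e 1 else R T e (i + 1) 0) = _
          rw [if_neg hi]
        have h' := h.cross (by omega) (d' := R T e i 2) (Or.inr (Or.inr rfl)) hc
          (by rw [hiv]; rfl)
        rw [hiv] at h'
        exact h'
  · rcases hd' with rfl | rfl | rfl
    · exfalso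
      apply e0
      rw [hv]
      exact left_mem_segment ℝ _ _
    · exfalso
      apply e0
      have hB := BB_n4b M (R T e i 0)
      have : γ.x (k + 1) = M.P.B (R T e i 0) := by rw [hB, hv]; rfl
      rw [this]
      exact right_mem_segment ℝ _ _
    · right; right
      intro hi
      have hv' : γ.x (k + 1) = M.pos (leg T e i) := hv
      obtain ⟨d', hd', h'⟩ := h.turn (by omega) (v := leg T e i) (by intro b; simp) hv' hc
      rcases leg_inv_n4b hd' with rfl | ⟨i', h0, h1, rfl | rfl⟩ | rfl | ⟨hi', rfl⟩
      · -- face `L T e i`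
        exfalso
        refine noB_n4b h' (by omega) (d' := L T e i 0) (Or.inr (Or.inr rfl)) (Far.h i) ?_
        rw [hv']; rfl
      · have : i' = i + 1 := sub_eq_iff_eq_add.1 h1
        subst this
        exact h'.sf (Or.inr (Or.inl rfl))
      · exfalso
        refine noA_n4b h' (by omega) (Or.inl rfl) (Far.i i') ?_
        rw [hv', ← pre_n4b h0 h1]; rfl
      · exfalso
        refine noA_n4b h' (by omega) (Or.inl rfl) (Far.j i) ?_
        rw [hv']; rfl
      · exact absurd hi' hi

end

end QGd
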