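import Pool.Agent.Lib_MP_6b5565_dg.N3b
import Pool.Agent.Lib_MP_6b5565_dg.N4b

/-! [DG-N5] start at a corner, and the long run -/

namespace QGd

open EuclideanGeometry ComplexConjugate Vx Dx

noncomputable section

variable {K : ℕ} {M : Msh K} {N : ℕ} [NeZero N]

private theorem BB_n5 (M : Msh K) (d : Dx K) : M.P.B d = M.pos (tl (nx d)) := by
  show M.pos (tl (iv d)) = _
  rw [tl_iv]

private theorem noCross_n5 {d' : Dx K} {x y q : E3} (h : M.P.CrossAt x y q d')
    (hx : x = M.pos (tl d') ∨ x = M.pos (tl (nx d'))) : False := by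
  apply h.2.2.2.1
  rcases hx with rfl | rfl
  · exact left_mem_segment ℝ _ _
  · rw [← BB_n5 M d']
    exact right_mem_segment ℝ _ _

private theorem f211_n5 (e : Fin 3) : e + 2 + 1 = e := by revert e; decide

private theorem f122_n5 (e : Fin 3) : e + 1 + 2 = e := by revert e; decide

private theorem f222_n5 (e : Fin 3) : e + 2 + 2 = e + 1 := by revert e; decide

private theorem f111_n5 (e : Fin 3) : e + 1 + 1 = e + 2 := by revert e; decide

private theorem CT_inj_n5 (T : Fin 6) (a b : Fin 3) (h : CT T a = CT T b) : a = b := by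
  revert T a b; decide

private theorem e1_n5 (e e' : Fin 3) (h : e' + 1 = e) : e' = e + 2 := by
  revert e e'; decide

private theorem e2_n5 (e e' : Fin 3) (h : e' + 2 = e) : e' = e + 1 := by
  revert e e'; decide

/-- the half-edges of the face `T` at the corner `e` -/
private theorem cor_inv_n5 {T : Fin 6} {e : Fin 3} {d : Dx K} (hd : face6 d = T)
    (h : tl d = base (CT T e)) : (∃ i, d = L T (e + 2) i 0) ∨ (∃ i, d = R T (e + 1) i 0) ∨
      d = E T (e + 2) 0 ∨ d = E T (e + 1) 1 := by
  rcases d with ⟨T', e', i', c⟩ | ⟨T', e', i', c⟩ | ⟨T', e', c⟩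
  · have hT : T' = T := hd
    subst hT
    fin_cases c
    · left
      have h' : base (CT T' (e' + 1)) = (base (CT T' e) : Vx K) := h
      injection h' with h1
      have := e1_n5 e e' (CT_inj_n5 _ _ _ h1)
      subst this
      exact ⟨i', rfl⟩
    · simp [tl] at h
    · have h' : pre T' e' i' = base (CT T' e) := h
      unfold pre at h'
      split_ifs at h'
  · have hT : T' = T := hd
    subst hT
    fin_cases c
    · right; left
      have h' : base (CT T' (e' + 2)) = (base (CT T' e) : Vx K) := h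
      injection h' with h1
      have := e2_n5 e e' (CT_inj_n5 _ _ _ h1)
      subst this
      exact ⟨i', rfl⟩
    · have h' : pre T' e' i' = base (CT T' e) := h
      unfold pre at h'
      split_ifs at h'
    · simp [tl] at h
  · have hT : T' = T := hd
    subst hT
    fin_cases c
    · right; right; left
      have h' : base (CT T' (e' + 1)) = (base (CT T' e) : Vx K) := h
      injection h' with h1
      have := e1_n5 e e' (CT_inj_n5 _ _ _ h1)
      subst this
      rfl
    · right; right; right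
      have h' : base (CT T' (e' + 2)) = (base (CT T' e) : Vx K) := h
      injection h' with h1
      have := e2_n5 e e' (CT_inj_n5 _ _ _ h1)
      subst this
      rfl
    · simp [tl] at h

/-- [DG-N5a] START. The node `k` is the corner `(T, e)` and the next node is in a face of the mesh at
this corner, not on the two sides of `T` at this corner. Then the state after at most two steps is
one of these. (State `0` with error `0`, `Ray.start`; `St.next`: crossing of the half-edge opposite
to the corner, or a vertex which is not a base vertex, then `St.turn` and `St.out_*`.) -/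
theorem start {γ : SCQ M.P N} {T : Fin 6} (F : Fr (un T)) (e : Fin 3) (k : ZMod N) (d : Dx K)
    (hd : face6 d = T) (ht : tl d = base (CT T e)) (hx : γ.x k = M.pos (base (CT T e)))
    (hx' : γ.x (k + 1) ∈ M.P.tri d) (h1 : γ.x (k + 1) ∉ M.P.seg (E T (e + 2) 0))
    (h2 : γ.x (k + 1) ∉ M.P.seg (E T (e + 1) 0)) :
    ∃ (k' : ZMod N) (i : Fin (K + 1)), St γ F e k' (R T (e + 2) i 0) 1 ∨
      St γ F e k' (L T (e + 1) i 0) 1 ∨ St γ F e k' (L T e 0 0) 1 := by
  -- the state at the start
  have h0 : St γ F e k d 0 := by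
    refine ⟨hd, ?_, hx', ?_⟩
    · rw [hx, ← ht]
      exact M.P.seg_sub_tri d (left_mem_segment ℝ _ _)
    · rw [hx]
      simp only [Nat.cast_zero, zero_mul]
      exact Ray.start _ _
  have hne := γ.ne k
  -- arrival at a leg vertex or the centre
  have leg2 : ∀ i, γ.x (k + 1) = M.pos (leg T (e + 2) i) →
      M.P.TurnAt (γ.x k) (γ.x (k + 1)) (γ.x (k + 1 + 1)) (leg T (e + 2) i) →
      St γ F e (k + 1) (R T (e + 2) i 0) 1 := by
    intro i hv hc
    obtain ⟨d', hd', h'⟩ := h0.turn (by omega) (v := leg T (e + 2) i) (by intro b; simp) hv hc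
    exact h'.out_leg2 (by omega) hd' hv
  have leg1 : ∀ i, γ.x (k + 1) = M.pos (leg T (e + 1) i) →
      M.P.TurnAt (γ.x k) (γ.x (k + 1)) (γ.x (k + 1 + 1)) (leg T (e + 1) i) →
      St γ F e (k + 1) (L T (e + 1) i 0) 1 := by
    intro i hv hc
    obtain ⟨d', hd', h'⟩ := h0.turn (by omega) (v := leg T (e + 1) i) (by intro b; simp) hv hc
    exact h'.out_leg1 (by omega) hd' hv
  have cen : γ.x (k + 1) = M.pos (ctr T) →
      M.P.TurnAt (γ.x k) (γ.x (k + 1)) (γ.x (k + 1 + 1)) (ctr T) →
      St γ F e (k + 1) (L T e 0 0) 1 := by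
    intro hv hc
    obtain ⟨d', hd', h'⟩ := h0.turn (by omega) (v := ctr T) (by intro b; simp) hv hc
    exact h'.out_ctr (by omega) hd' hv
  rcases cor_inv_n5 hd ht with ⟨i, rfl⟩ | ⟨i, rfl⟩ | rfl | rfl
  · -- `L T (e+2) i`
    have hcor : tl (L T (e + 2) i 0) = base (CT T e) := ht
    rcases h0.next with ⟨d', hd', hc⟩ | ⟨d', hd', hv, hc⟩
    · rcases hd' with rfl | rfl | rfl
      · exact (noCross_n5 hc (Or.inl (by rw [hx, ht]))).elim
      · have h' := h0.cross (by omega) (d' := L T (e + 2) i 1) (Or.inr (Or.inl rfl)) hc rfl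
        exact ⟨k + 1, i, Or.inl (h'.sf (d' := R T (e + 2) i 0) (Or.inr (Or.inr rfl)))⟩
      · exact (noCross_n5 (d' := L T (e + 2) i 2) hc (Or.inr (by rw [hx, ← ht]; rfl))).elim
    · rcases hd' with rfl | rfl | rfl
      · exact absurd (hx.trans (by rw [hv, ht])) hne
      · exact ⟨k + 1, i, Or.inl (leg2 i hv hc)⟩
      · have hv' : γ.x (k + 1) = M.pos (pre T (e + 2) i) := hv
        have hc' : M.P.TurnAt (γ.x k) (γ.x (k + 1)) (γ.x (k + 1 + 1)) (pre T (e + 2) i) := hc
        by_cases hi : i = 0
        · have hp : pre T (e + 2) i = ctr T := by unfold pre; rw [if_pos hi]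
          rw [hp] at hv' hc'
          exact ⟨k + 1, i, Or.inr (Or.inr (cen hv' hc'))⟩
        · have hp : pre T (e + 2) i = leg T (e + 2) (i - 1) := by unfold pre; rw [if_neg hi]
          rw [hp] at hv' hc'
          exact ⟨k + 1, i - 1, Or.inl (leg2 _ hv' hc')⟩
  · -- `R T (e+1) i`
    rcases h0.next with ⟨d', hd', hc⟩ | ⟨d', hd', hv, hc⟩
    · rcases hd' with rfl | rfl | rfl
      · exact (noCross_n5 hc (Or.inl (by rw [hx, ht]))).elim
      · have h' := h0.cross (by omega) (d' := R T (e + 1) i 1) (Or.inr (Or.inl rfl)) hc rfl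
        exact ⟨k + 1, i, Or.inr (Or.inl (h'.sf (d' := L T (e + 1) i 0) (Or.inr (Or.inr rfl))))⟩
      · exact (noCross_n5 (d' := R T (e + 1) i 2) hc (Or.inr (by rw [hx, ← ht]; rfl))).elim
    · rcases hd' with rfl | rfl | rfl
      · exact absurd (hx.trans (by rw [hv, ht])) hne
      · have hv' : γ.x (k + 1) = M.pos (pre T (e + 1) i) := hv
        have hc' : M.P.TurnAt (γ.x k) (γ.x (k + 1)) (γ.x (k + 1 + 1)) (pre T (e + 1) i) := hc
        by_cases hi : i = 0
        · have hp : pre T (e + 1) i = ctr T := by unfold pre; rw [if_pos hi]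
          rw [hp] at hv' hc'
          exact ⟨k + 1, i, Or.inr (Or.inr (cen hv' hc'))⟩
        · have hp : pre T (e + 1) i = leg T (e + 1) (i - 1) := by unfold pre; rw [if_neg hi]
          rw [hp] at hv' hc'
          exact ⟨k + 1, i - 1, Or.inr (Or.inl (leg1 _ hv' hc'))⟩
      · exact ⟨k + 1, i, Or.inr (Or.inl (leg1 i hv hc))⟩
  · -- `E T (e+2)`
    rcases h0.next with ⟨d', hd', hc⟩ | ⟨d', hd', hv, hc⟩
    · rcases hd' with rfl | rfl | rfl
      · exact (noCross_n5 hc (Or.inl (by rw [hx, ht]))).elim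
      · have h' := h0.cross (by omega) (d' := E T (e + 2) 1) (Or.inr (Or.inl rfl)) hc rfl
        exact ⟨k + 1, Fin.last K, Or.inl (h'.sf (d' := R T (e + 2) (Fin.last K) 0)
          (Or.inr (Or.inl rfl)))⟩
      · exact (noCross_n5 (d' := E T (e + 2) 2) hc (Or.inr (by rw [hx, ← ht]; rfl))).elim
    · rcases hd' with rfl | rfl | rfl
      · exact absurd (hx.trans (by rw [hv, ht])) hne
      · exfalso
        apply h1
        have hB := BB_n5 M (E T (e + 2) 0)
        have : γ.x (k + 1) = M.P.B (E T (e + 2) 0) := by rw [hB, hv]; rfl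
        rw [this]
        exact right_mem_segment ℝ _ _
      · exact ⟨k + 1, Fin.last K, Or.inl (leg2 _ hv hc)⟩
  · -- `E T (e+1)`
    rcases h0.next with ⟨d', hd', hc⟩ | ⟨d', hd', hv, hc⟩
    · rcases hd' with rfl | rfl | rfl
      · exact (noCross_n5 hc (Or.inl (by rw [hx, ht]))).elim
      · have h' := h0.cross (by omega) (d' := E T (e + 1) 2) (Or.inr (Or.inl rfl)) hc rfl
        exact ⟨k + 1, Fin.last K, Or.inr (Or.inl h')⟩
      · exact (noCross_n5 (d' := E T (e + 1) 0) hc (Or.inr (by rw [hx, ← ht]; rfl))).elim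
    · rcases hd' with rfl | rfl | rfl
      · exact absurd (hx.trans (by rw [hv, ht])) hne
      · exact ⟨k + 1, Fin.last K, Or.inr (Or.inl (leg1 _ hv hc))⟩
      · exfalso
        apply h2
        have : γ.x (k + 1) = M.P.A (E T (e + 1) 0) := by rw [hv]; rfl
        rw [this]
        exact left_mem_segment ℝ _ _

end

end QGd
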