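import Pool.Agent.Lib_MP_6b5565_dg.N5

/-! [DG-N5b] start at a corner, and the long run -/

namespace QGd

open EuclideanGeometry ComplexConjugate Vx Dx

noncomputable section

variable {K : ℕ} {M : Msh K} {N : ℕ} [NeZero N]

private theorem app2_n5b {γ : SCQ M.P N} {T : Fin 6} {F : Fr (un T)} {e : Fin 3} (n : ℕ) :
    ∀ {k : ZMod N} {i : Fin (K + 1)} {m : ℕ}, (i : ℕ) = n → m + n ≤ 2 * K + 10 →
      St γ F e k (R T (e + 2) i 0) m → ∃ k', St γ F e k' (L T e 0 0) (m + n + 1) := by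
  induction n with
  | zero =>
    intro k i m hi hm h
    have h0 : i = 0 := Fin.ext hi
    exact ⟨k + 1, (h.R2 (by omega)).1 h0⟩
  | succ n ih =>
    intro k i m hi hm h
    have h0 : i ≠ 0 := by rintro rfl; simp at hi
    have hi' : ((i - 1 : Fin (K + 1)) : ℕ) = n := by
      rw [Fin.val_sub_one_of_ne_zero h0, hi]; rfl
    obtain ⟨k', hk'⟩ := ih hi' (by omega) ((h.R2 (by omega)).2 h0)
    refine ⟨k', ?_⟩
    have : m + 1 + n + 1 = m + (n + 1) + 1 := by ring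
    rw [← this]; exact hk'

private theorem app1_n5b {γ : SCQ M.P N} {T : Fin 6} {F : Fr (un T)} {e : Fin 3} (n : ℕ) :
    ∀ {k : ZMod N} {i : Fin (K + 1)} {m : ℕ}, (i : ℕ) = n → m + n ≤ 2 * K + 10 →
      St γ F e k (L T (e + 1) i 0) m → ∃ k', St γ F e k' (R T e 0 0) (m + n + 1) := by
  induction n with
  | zero =>
    intro k i m hi hm h
    have h0 : i = 0 := Fin.ext hi
    exact ⟨k + 1, (h.L1 (by omega)).1 h0⟩
  | succ n ih =>
    intro k i m hi hm h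
    have h0 : i ≠ 0 := by rintro rfl; simp at hi
    have hi' : ((i - 1 : Fin (K + 1)) : ℕ) = n := by
      rw [Fin.val_sub_one_of_ne_zero h0, hi]; rfl
    obtain ⟨k', hk'⟩ := ih hi' (by omega) ((h.L1 (by omega)).2 h0)
    refine ⟨k', ?_⟩
    have : m + 1 + n + 1 = m + (n + 1) + 1 := by ring
    rw [← this]; exact hk'

/-- [DG-N5b] approach -/
theorem approach2 {γ : SCQ M.P N} {T : Fin 6} {F : Fr (un T)} {e : Fin 3} {k : ZMod N}
    {i : Fin (K + 1)} {m : ℕ} (h : St γ F e k (R T (e + 2) i 0) m) (hm : m ≤ 1) :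
    ∃ k' m', m' ≤ K + 2 ∧ St γ F e k' (L T e 0 0) m' := by
  have hi := i.isLt
  obtain ⟨k', hk'⟩ := app2_n5b (i : ℕ) rfl (by omega) h
  exact ⟨k', _, by omega, hk'⟩

theorem approach1 {γ : SCQ M.P N} {T : Fin 6} {F : Fr (un T)} {e : Fin 3} {k : ZMod N}
    {i : Fin (K + 1)} {m : ℕ} (h : St γ F e k (L T (e + 1) i 0) m) (hm : m ≤ 1) :
    ∃ k' m', m' ≤ K + 2 ∧ St γ F e k' (R T e 0 0) m' := by
  have hi := i.isLt
  obtain ⟨k', hk'⟩ := app1_n5b (i : ℕ) rfl (by omega) h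
  exact ⟨k', _, by omega, hk'⟩

end

end QGd
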