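import Pool.Agent.Lib_MP_6b5565_dg.N5b

/-! [DG-N5c] start at a corner, and the long run -/

namespace QGd

open EuclideanGeometry ComplexConjugate Vx Dx

noncomputable section

variable {K : ℕ} {M : Msh K} {N : ℕ} [NeZero N]

/-- hub of the spokes: `false`: `q = CT T (e+1)`, `true`: `r = CT T (e+2)` -/
def hub (K : ℕ) (T : Fin 6) (e : Fin 3) (side : Bool) : Vx K :=
  if side then base (CT T (e + 2)) else base (CT T (e + 1))

/-- the nodes `k, ..., k + (b - a)` are inside the spokes from the hub to `Y a, ..., Y b` -/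
def Run (γ : SCQ M.P N) (T : Fin 6) (e : Fin 3) (side : Bool) (k : ZMod N) (a b : ℕ) : Prop :=
  1 ≤ a ∧ a ≤ b ∧ b ≤ K + 1 ∧ ∀ j : ℕ, a ≤ j → j ≤ b →
    γ.x (k + ((j - a : ℕ) : ZMod N)) ∈ openSegment ℝ (M.pos (hub K T e side)) (M.pos (Y K T e j))

private theorem ofNat_val_n5c (i : Fin (K + 1)) : Fin.ofNat (K + 1) (i : ℕ) = i := by
  apply Fin.ext
  simp [Fin.ofNat, Nat.mod_eq_of_lt i.isLt]

private theorem goL_n5c {γ : SCQ M.P N} {T : Fin 6} {F : Fr (un T)} {e : Fin 3} (n : ℕ) :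
    ∀ {k : ZMod N} {i : Fin (K + 1)} {m : ℕ}, (i : ℕ) + n = K → m + n ≤ 3 * K + 19 →
      St γ F e k (L T e i 0) m → ∀ j : ℕ, (i : ℕ) ≤ j → j ≤ K →
        γ.x (k + 1 + ((j - i : ℕ) : ZMod N)) ∈
          openSegment ℝ (M.pos (base (CT T (e + 1)))) (M.pos (leg T e (Fin.ofNat (K + 1) j))) := by
  induction n with
  | zero =>
    intro k i m hi hm h j hj hj'
    have hji : j = i := by omega
    subst hji
    rw [ofNat_val_n5c, Nat.sub_self, Nat.cast_zero, add_zero]
    exact (h.L0 (by omega)).1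
  | succ n ih =>
    intro k i m hi hm h j hj hj'
    have hlast : i ≠ Fin.last K := by
      rintro rfl
      simp at hi
    have h0 := h.L0 (by omega)
    rcases Nat.eq_or_lt_of_le hj with hji | hji
    · have hji' : j = i := hji.symm
      subst hji'
      rw [ofNat_val_n5c, Nat.sub_self, Nat.cast_zero, add_zero]
      exact h0.1
    · have hv : ((i + 1 : Fin (K + 1)) : ℕ) = i + 1 := by
        rw [Fin.val_add_one, if_neg hlast]
      have h1 := ih (by rw [hv]; omega) (by omega) (h0.2 hlast) j (by rw [hv]; omega) hj'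
      rw [hv] at h1
      have e1 : j - (i : ℕ) = (j - (i + 1)) + 1 := by omega
      rw [e1, Nat.cast_add, Nat.cast_one]
      have e2 : k + 1 + (((j - ((i : ℕ) + 1) : ℕ) : ZMod N) + 1) =
          k + 1 + 1 + ((j - ((i : ℕ) + 1) : ℕ) : ZMod N) := by ring
      rw [e2]
      exact h1

/-- [DG-N5c] in the faces `L T e i, L T e (i+1), ...` -/
theorem runL {γ : SCQ M.P N} {T : Fin 6} {F : Fr (un T)} {e : Fin 3} {k : ZMod N}
    {i : Fin (K + 1)} {m : ℕ} (h : St γ F e k (L T e i 0) m) (hm : m ≤ 2 * K + 10) :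
    Run γ T e false (k + 1) (i + 1) (K + 1) := by
  have hi := i.isLt
  refine ⟨by omega, by omega, le_refl _, ?_⟩
  intro j hj hj'
  obtain ⟨j, rfl⟩ : ∃ j', j = j' + 1 := ⟨j - 1, by omega⟩
  have h1 := goL_n5c (K - i) (by omega) (by omega) h j (by omega) (by omega)
  have e1 : j + 1 - ((i : ℕ) + 1) = j - i := by omega
  rw [e1]
  exact h1

omit [NeZero N] in
/-- from the spokes at `r` up to now, the long run -/
private theorem selR_n5c {γ : SCQ M.P N} {T : Fin 6} {e : Fin 3} {k : ZMod N} {i : ℕ}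
    (hi : 1 ≤ i) (hiK : i ≤ K + 1) (h2 : K ≤ 2 * i)
    (hs : ∀ j : ℕ, 1 ≤ j → j ≤ i → γ.x (k + (j : ZMod N)) ∈
      openSegment ℝ (M.pos (base (CT T (e + 2)))) (M.pos (Y K T e j))) :
    ∃ side k' a b, K ≤ 2 * (b - a) + 2 ∧ Run γ T e side k' a b := by
  refine ⟨true, k + 1, 1, i, by omega, le_refl _, hi, hiK, ?_⟩
  intro j hj hj'
  have h1 := hs j hj hj'
  have e1 : k + 1 + ((j - 1 : ℕ) : ZMod N) = k + (j : ZMod N) := by
    obtain ⟨j, rfl⟩ : ∃ j', j = j' + 1 := ⟨j - 1, by omega⟩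
    rw [Nat.add_sub_cancel, Nat.cast_add, Nat.cast_one]
    ring
  rw [e1]
  exact h1

private theorem goR_n5c {γ : SCQ M.P N} {T : Fin 6} {F : Fr (un T)} {e : Fin 3} {k : ZMod N}
    (n : ℕ) : ∀ {i : Fin (K + 1)} {m : ℕ}, (i : ℕ) + n = K → m + n ≤ 2 * K + 5 → 1 ≤ K →
      St γ F e (k + ((i : ℕ) : ZMod N)) (R T e i 0) m →
      (∀ j : ℕ, 1 ≤ j → j ≤ (i : ℕ) → γ.x (k + (j : ZMod N)) ∈
        openSegment ℝ (M.pos (base (CT T (e + 2)))) (M.pos (Y K T e j))) →
      ∃ side k' a b, K ≤ 2 * (b - a) + 2 ∧ Run γ T e side k' a b := by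
  have key : ∀ {i : Fin (K + 1)} {m : ℕ}, m ≤ 2 * K + 5 → 1 ≤ K →
      St γ F e (k + ((i : ℕ) : ZMod N)) (R T e i 0) m →
      (∀ j : ℕ, 1 ≤ j → j ≤ (i : ℕ) → γ.x (k + (j : ZMod N)) ∈
        openSegment ℝ (M.pos (base (CT T (e + 2)))) (M.pos (Y K T e j))) →
      (∃ side k' a b, K ≤ 2 * (b - a) + 2 ∧ Run γ T e side k' a b) ∨
      ((∀ j : ℕ, 1 ≤ j → j ≤ (i : ℕ) + 1 → γ.x (k + (j : ZMod N)) ∈
        openSegment ℝ (M.pos (base (CT T (e + 2)))) (M.pos (Y K T e j))) ∧
        (i ≠ Fin.last K →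
          St γ F e (k + (((i : ℕ) + 1 : ℕ) : ZMod N)) (R T e (i + 1) 0) (m + 1))) := by
    intro i m hm hK h hs
    have hi := i.isLt
    rcases h.R0 (by omega) with ⟨h1, h2⟩ | h1 | h1
    · right
      constructor
      · intro j hj hj'
        rcases Nat.eq_or_lt_of_le hj' with hji | hji
        · subst hji
          have e1 : k + (((i : ℕ) + 1 : ℕ) : ZMod N) = k + ((i : ℕ) : ZMod N) + 1 := by
            rw [Nat.cast_add, Nat.cast_one]; ring
          rw [e1]
          show _ ∈ openSegment ℝ _ (M.pos (leg T e (Fin.ofNat (K + 1) (i : ℕ))))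
          rw [ofNat_val_n5c]
          exact h1
        · exact hs j hj (by omega)
      · intro hl
        have e1 : k + (((i : ℕ) + 1 : ℕ) : ZMod N) = k + ((i : ℕ) : ZMod N) + 1 := by
          rw [Nat.cast_add, Nat.cast_one]; ring
        rw [e1]
        exact h2 hl
    · left
      by_cases h2 : K ≤ 2 * (i : ℕ)
      · exact selR_n5c (by omega) (by omega) h2 hs
      · exact ⟨false, _, _, _, by omega, runL h1 (by omega)⟩
    · left
      by_cases h2 : K ≤ 2 * (i : ℕ)
      · exact selR_n5c (by omega) (by omega) h2 hs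
      · have hl : i ≠ Fin.last K := by
          rintro rfl
          apply h2
          rw [Fin.val_last]
          omega
        have hv : ((i + 1 : Fin (K + 1)) : ℕ) = i + 1 := by
          rw [Fin.val_add_one, if_neg hl]
        exact ⟨false, _, _, _, by rw [hv]; omega, runL (h1 hl) (by omega)⟩
  induction n with
  | zero =>
    intro i m hi hm hK h hs
    rcases key (by omega) hK h hs with h1 | ⟨h1, _⟩
    · exact h1
    · exact selR_n5c (i := (i : ℕ) + 1) (by omega) (by omega) (by omega) h1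
  | succ n ih =>
    intro i m hi hm hK h hs
    rcases key (by omega) hK h hs with h1 | ⟨h1, h2⟩
    · exact h1
    · have hl : i ≠ Fin.last K := by
        rintro rfl
        simp at hi
      have hv : ((i + 1 : Fin (K + 1)) : ℕ) = i + 1 := by
        rw [Fin.val_add_one, if_neg hl]
      have h3 := h2 hl
      rw [← hv] at h3
      exact ih (by rw [hv]; omega) (by omega) hK h3 (by rw [hv]; exact h1)

/-- [DG-N5d] THE LONG RUN: from `R T e 0`, spokes at `r` up to `Y a`, then spokes at `q` from `Y (a+1)`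
or `Y (a+2)`. -/
theorem runR {γ : SCQ M.P N} {T : Fin 6} {F : Fr (un T)} {e : Fin 3} {k : ZMod N} {m : ℕ}
    (h : St γ F e k (R T e 0 0) m) (hm : m ≤ K + 5) (hK : 4 ≤ K) :
    ∃ side k' a b, K ≤ 2 * (b - a) + 2 ∧ Run γ T e side k' a b := by
  have h' : St γ F e (k + (((0 : Fin (K + 1)) : ℕ) : ZMod N)) (R T e 0 0) m := by
    simpa using h
  refine goR_n5c (k := k) K (by simp) (by omega) (by omega) h' ?_
  intro j hj hj'
  simp at hj'
  omega

end

end QGd
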