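import Pool.Agent.Lib_MP_6b5565_dg.AlgDefs

/-! [DG-Q1] primes and residues -/

namespace QGd

noncomputable section

/-- [DG-Q1a] a sequence of primes `2^(24+t) < p t ≤ 2^(25+t)` (Bertrand) -/
theorem exists_primes : ∃ p : ℕ → ℕ, (∀ t, (p t).Prime) ∧ (∀ t, 2 ^ (24 + t) < p t) ∧
    (∀ t, p t ≤ 2 ^ (25 + t)) := by
  have h : ∀ t : ℕ, ∃ p : ℕ, p.Prime ∧ 2 ^ (24 + t) < p ∧ p ≤ 2 ^ (25 + t) := by
    intro t
    obtain ⟨p, h1, h2, h3⟩ := Nat.exists_prime_lt_and_le_two_mul (2 ^ (24 + t)) (by positivity)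
    refine ⟨p, h1, h2, h3.trans (le_of_eq ?_)⟩
    rw [show 25 + t = (24 + t) + 1 by ring, pow_succ]
    ring
  choose p h1 h2 h3 using h
  exact ⟨p, h1, h2, h3⟩

private theorem ab_rot {l : ℤ} (hp : Prime l) (h : (2 : ℤ) ^ 24 < l) {a b : ℤ}
    (ha : l ∣ a) (hab : l ∣ a ^ 2 + b ^ 2 + 1) :
    ∃ α β : ℤ, ¬ l ∣ α ∧ ¬ l ∣ β ∧ l ∣ α ^ 2 + β ^ 2 + 1 := by
  have small : ∀ k : ℤ, 0 < k → k < 2 ^ 24 → ¬ l ∣ k := by
    intro k h0 h1 hd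
    have := Int.le_of_dvd h0 hd
    linarith
  have hb : ¬ l ∣ b := by
    intro hb
    have h1 : l ∣ a ^ 2 + b ^ 2 := dvd_add (dvd_pow ha two_ne_zero) (dvd_pow hb two_ne_zero)
    have h2 : l ∣ 1 := by
      have := dvd_sub hab h1
      rwa [add_sub_cancel_left] at this
    exact small 1 one_pos (by norm_num) h2
  have hcop : IsCoprime l 5 := hp.irreducible.coprime_iff_not_dvd.2 (small 5 (by norm_num) (by norm_num))
  obtain ⟨v, u, huv⟩ := hcop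
  have hu5 : l ∣ 5 * u - 1 := ⟨-v, by linarith⟩
  have hu : ¬ l ∣ u := by
    intro hu
    have h2 : l ∣ 1 := by
      have := dvd_sub (Dvd.dvd.mul_left hu 5) hu5
      rwa [sub_sub_cancel] at this
    exact small 1 one_pos (by norm_num) h2
  refine ⟨u * (3 * a - 4 * b), u * (4 * a + 3 * b), ?_, ?_, ?_⟩
  · intro hd
    rcases hp.dvd_or_dvd hd with h1 | h1
    · exact hu h1
    · have h2 : l ∣ 4 * b := by
        have := dvd_sub (Dvd.dvd.mul_left ha 3) h1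
        rwa [sub_sub_cancel] at this
      rcases hp.dvd_or_dvd h2 with h3 | h3
      · exact small 4 (by norm_num) (by norm_num) h3
      · exact hb h3
  · intro hd
    rcases hp.dvd_or_dvd hd with h1 | h1
    · exact hu h1
    · have h2 : l ∣ 3 * b := by
        have := dvd_sub h1 (Dvd.dvd.mul_left ha 4)
        rwa [add_sub_cancel_left] at this
      rcases hp.dvd_or_dvd h2 with h3 | h3
      · exact small 3 (by norm_num) (by norm_num) h3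
      · exact hb h3
  · have e : (u * (3 * a - 4 * b)) ^ 2 + (u * (4 * a + 3 * b)) ^ 2 + 1 =
        (a ^ 2 + b ^ 2 + 1) * (25 * u ^ 2) - (5 * u - 1) * (5 * u + 1) := by ring
    rw [e]
    exact dvd_sub (Dvd.dvd.mul_right hab _) (Dvd.dvd.mul_right hu5 _)

/-- [DG-Q1b] for a prime `ℓ > 2^24` there are `α, β` prime to `ℓ` such that `ℓ` divides `α²+β²+1`
exactly once (`ZMod.sq_add_sq`, or `Nat.sq_add_sq_zmodEq`: `x²+y² ≡ -1`; if one of them is `0`, rotate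
by `(3x-4y)/5, (4x+3y)/5`; replace `α` by `α + ℓ` if `ℓ²` divides) -/
theorem exists_ab (ℓ : ℕ) (hℓ : ℓ.Prime) (h : 2 ^ 24 < ℓ) : ∃ α β : ℤ, ¬ (ℓ : ℤ) ∣ α ∧
    ¬ (ℓ : ℤ) ∣ β ∧ (ℓ : ℤ) ∣ α ^ 2 + β ^ 2 + 1 ∧ ¬ (ℓ : ℤ) ^ 2 ∣ α ^ 2 + β ^ 2 + 1 := by
  have : Fact ℓ.Prime := ⟨hℓ⟩
  have hp : Prime (ℓ : ℤ) := Nat.prime_iff_prime_int.1 hℓ
  have hl : (2 : ℤ) ^ 24 < (ℓ : ℤ) := by exact_mod_cast h
  have step : ∃ α β : ℤ, ¬ (ℓ : ℤ) ∣ α ∧ ¬ (ℓ : ℤ) ∣ β ∧ (ℓ : ℤ) ∣ α ^ 2 + β ^ 2 + 1 := by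
    obtain ⟨a, b, -, -, hab⟩ := Nat.sq_add_sq_zmodEq ℓ (-1)
    have hd : (ℓ : ℤ) ∣ (a : ℤ) ^ 2 + (b : ℤ) ^ 2 + 1 := by
      have := hab.symm.dvd
      rwa [sub_neg_eq_add] at this
    by_cases ha : (ℓ : ℤ) ∣ a
    · exact ab_rot hp hl ha hd
    by_cases hb : (ℓ : ℤ) ∣ b
    · refine ab_rot hp hl hb (b := a) ?_
      rwa [add_comm ((b : ℤ) ^ 2)]
    exact ⟨a, b, ha, hb, hd⟩
  obtain ⟨α, β, h1, h2, h3⟩ := step
  by_cases h4 : (ℓ : ℤ) ^ 2 ∣ α ^ 2 + β ^ 2 + 1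
  · refine ⟨α + ℓ, β, ?_, h2, ?_, ?_⟩
    · rwa [dvd_add_self_right]
    · have e : (α + ℓ) ^ 2 + β ^ 2 + 1 = (α ^ 2 + β ^ 2 + 1) + ℓ * (2 * α + ℓ) := by ring
      rw [e]
      exact dvd_add h3 (Dvd.intro _ rfl)
    · intro h5
      have e : (α + ℓ) ^ 2 + β ^ 2 + 1 - (α ^ 2 + β ^ 2 + 1) - (ℓ : ℤ) ^ 2 = ℓ * (2 * α) := by ring
      have h6 : (ℓ : ℤ) ^ 2 ∣ ℓ * (2 * α) := by
        rw [← e]
        exact dvd_sub (dvd_sub h5 h4) dvd_rfl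
      have h7 : (ℓ : ℤ) ∣ 2 * α := by
        rw [sq] at h6
        exact (mul_dvd_mul_iff_left hp.ne_zero).1 h6
      rcases hp.dvd_or_dvd h7 with h8 | h8
      · have := Int.le_of_dvd (by norm_num) h8
        linarith
      · exact h1 h8
  · exact ⟨α, β, h1, h2, h3, h4⟩

end

end QGd
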