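import Pool.Agent.Lib_MP_6b5565_dg.Q1

/-! [DG-Q1b] primes and residues -/

namespace QGd

noncomputable section

/-- the template of residues relative to the hub, with the special pair `i, i+1` (`i` odd) -/
def tmpl (α β : ℤ) (i j : ℕ) : Fin 3 → ℤ :=
  if j = i then ![1, 0, -α] else if j = i + 1 then ![0, 1, -β]
  else if j % 2 = 0 then ![1, 0, 0] else ![0, 1, 0]

private theorem icrs_congr (m : ℤ) (a b u v : Fin 3 → ℤ) (ha : ∀ j, a j ≡ u j [ZMOD m])
    (hb : ∀ j, b j ≡ v j [ZMOD m]) (j : Fin 3) : icrs a b j ≡ icrs u v j [ZMOD m] := by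
  have h : ∀ i k : Fin 3, a i * b k - a k * b i ≡ u i * v k - u k * v i [ZMOD m] := fun i k =>
    ((ha i).mul (hb k)).sub ((ha k).mul (hb i))
  fin_cases j
  · exact h 1 2
  · exact h 2 0
  · exact h 0 1

/-- [DG-Q1c] `DD` modulo `ℓ²` depends only on the residues of `a - h`, `b - h` -/
theorem DD_congr (m : ℤ) (h a b : Fin 3 → ℤ) (u v : Fin 3 → ℤ) (ha : ∀ j, a j - h j ≡ u j [ZMOD m])
    (hb : ∀ j, b j - h j ≡ v j [ZMOD m]) : DD h a b ≡ DD 0 u v [ZMOD m] := by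
  have e : DD 0 u v = icrs u v 0 ^ 2 + icrs u v 1 ^ 2 + icrs u v 2 ^ 2 := by
    simp [DD]
  rw [e]
  exact ((((icrs_congr m _ _ u v ha hb 0).pow 2).add ((icrs_congr m _ _ u v ha hb 1).pow 2)).add
    ((icrs_congr m _ _ u v ha hb 2).pow 2))

theorem IP_congr (m : ℤ) (h a b : Fin 3 → ℤ) (u v : Fin 3 → ℤ) (ha : ∀ j, a j - h j ≡ u j [ZMOD m])
    (hb : ∀ j, b j - h j ≡ v j [ZMOD m]) : IP h a b ≡ IP 0 u v [ZMOD m] := by
  have e : IP 0 u v = u 0 * v 0 + u 1 * v 1 + u 2 * v 2 := by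
    simp [IP]
  rw [e]
  exact (((ha 0).mul (hb 0)).add ((ha 1).mul (hb 1))).add ((ha 2).mul (hb 2))

/-- [DG-Q1d] values on the template: `α²+β²+1` at `i`, prime to `ℓ` elsewhere -/
theorem DD_tmpl (ℓ : ℕ) (hℓ : ℓ.Prime) (h : 2 ^ 24 < ℓ) (α β : ℤ) (hα : ¬ (ℓ : ℤ) ∣ α)
    (hβ : ¬ (ℓ : ℤ) ∣ β) (i : ℕ) (hi : i % 2 = 1) :
    DD 0 (tmpl α β i i) (tmpl α β i (i + 1)) = α ^ 2 + β ^ 2 + 1 ∧
    ¬ (ℓ : ℤ) ∣ IP 0 (tmpl α β i i) (tmpl α β i (i + 1)) ∧
    ∀ j, j ≠ i → ¬ (ℓ : ℤ) ∣ DD 0 (tmpl α β i j) (tmpl α β i (j + 1)) := by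
  have hp : Prime (ℓ : ℤ) := Nat.prime_iff_prime_int.1 hℓ
  have e0 : tmpl α β i i = ![1, 0, -α] := by simp [tmpl]
  have e1 : tmpl α β i (i + 1) = ![0, 1, -β] := by simp [tmpl]
  have h1 : ¬ (ℓ : ℤ) ∣ 1 := by
    intro hd
    have h2 := Int.le_of_dvd one_pos hd
    have h3 : (2 ^ 24 : ℤ) < ℓ := by exact_mod_cast h
    linarith
  refine ⟨?_, ?_, ?_⟩
  · rw [e0, e1]
    simp [DD, icrs]
  · rw [e0, e1]
    have e : IP 0 ![1, 0, -α] ![0, 1, -β] = α * β := by simp [IP]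
    rw [e]
    intro hd
    rcases hp.dvd_or_dvd hd with h2 | h2
    · exact hα h2
    · exact hβ h2
  · intro j hj
    by_cases hj1 : j + 1 = i
    · have a0 : tmpl α β i j = ![1, 0, 0] := by
        have b1 : j ≠ i + 1 := by omega
        have b2 : j % 2 = 0 := by omega
        simp [tmpl, hj, b1, b2]
      rw [a0, hj1, e0]
      have e : DD 0 ![1, 0, 0] ![1, 0, -α] = α ^ 2 := by simp [DD, icrs]
      rw [e]
      exact fun hd => hα (hp.dvd_of_dvd_pow hd)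
    by_cases hj2 : j = i + 1
    · have a1 : tmpl α β i (j + 1) = ![0, 1, 0] := by
        have b0 : j + 1 ≠ i := by omega
        have b1 : j + 1 ≠ i + 1 := by omega
        have b2 : ¬ (j + 1) % 2 = 0 := by omega
        simp only [tmpl, b0, b1, b2, if_false]
      rw [a1, hj2, e1]
      have e : DD 0 ![0, 1, -β] ![0, 1, 0] = β ^ 2 := by simp [DD, icrs]
      rw [e]
      exact fun hd => hβ (hp.dvd_of_dvd_pow hd)
    · have b1 : j + 1 ≠ i + 1 := by omega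
      rcases Nat.mod_two_eq_zero_or_one j with h2 | h2
      · have a0 : tmpl α β i j = ![1, 0, 0] := by simp [tmpl, hj, hj2, h2]
        have a1 : tmpl α β i (j + 1) = ![0, 1, 0] := by
          have b2 : ¬ (j + 1) % 2 = 0 := by omega
          simp only [tmpl, hj1, b1, b2, if_false]
        rw [a0, a1]
        have e : DD 0 ![1, 0, 0] ![0, 1, 0] = 1 := by simp [DD, icrs]
        rwa [e]
      · have a0 : tmpl α β i j = ![0, 1, 0] := by
          have b2 : ¬ j % 2 = 0 := by omega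
          simp only [tmpl, hj, hj2, b2, if_false]
        have a1 : tmpl α β i (j + 1) = ![1, 0, 0] := by
          have b2 : (j + 1) % 2 = 0 := by omega
          simp only [tmpl, hj1, b1, b2, if_false, if_true]
        rw [a0, a1]
        have e : DD 0 ![0, 1, 0] ![1, 0, 0] = 1 := by simp [DD, icrs]
        rwa [e]

end

end QGd
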