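import Pool.Agent.Lib_MP_6b5565_dg.Q1b

/-! [DG-Q1c] primes and residues -/

namespace QGd

noncomputable section

private theorem crt_ex (n : ℕ) (p : ℕ → ℕ) (hp : ∀ t, (p t).Prime) (h1 : ∀ t, 2 ^ (24 + t) < p t)
    (h2 : ∀ t, p t ≤ 2 ^ (25 + t)) (u : ℕ → ℤ) :
    ∃ c : ℤ, ∀ t < n, c ≡ u t [ZMOD ((p t : ℤ) ^ 2)] := by
  induction n with
  | zero => exact ⟨0, fun t ht => absurd ht (Nat.not_lt_zero t)⟩
  | succ n ih =>
    obtain ⟨c, hc⟩ := ih
    have hcop : IsCoprime (∏ t ∈ Finset.range n, (p t : ℤ) ^ 2) ((p n : ℤ) ^ 2) := by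
      refine IsCoprime.prod_left fun t ht => ?_
      refine IsCoprime.pow ?_
      rw [Nat.isCoprime_iff_coprime]
      refine (Nat.coprime_primes (hp t) (hp n)).2 (ne_of_lt ?_)
      refine (h2 t).trans_lt (lt_of_le_of_lt ?_ (h1 n))
      refine Nat.pow_le_pow_right (by norm_num) ?_
      have := Finset.mem_range.1 ht
      omega
    obtain ⟨a, b, hab⟩ := hcop
    set M : ℤ := ∏ t ∈ Finset.range n, (p t : ℤ) ^ 2 with hM
    refine ⟨c + a * M * (u n - c), fun t ht => ?_⟩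
    rcases Nat.lt_succ_iff_lt_or_eq.1 ht with h | h
    · refine Int.ModEq.trans ?_ (hc t h)
      have hd : (p t : ℤ) ^ 2 ∣ M := Finset.dvd_prod_of_mem _ (Finset.mem_range.2 h)
      have hd2 : (p t : ℤ) ^ 2 ∣ a * M * (u n - c) := (hd.mul_left a).mul_right _
      have := Int.modEq_zero_iff_dvd.2 hd2
      simpa using (Int.ModEq.refl c).add this
    · rw [h]
      refine (Int.modEq_iff_dvd.2 ?_)
      refine ⟨b * (u n - c), ?_⟩
      linear_combination (u n - c) * (-hab)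

/-- [DG-Q1e] CHINESE REMAINDERS with approximation: distinct primes `p t`, `t < n`, residues `u t`
modulo `(p t)²`; every real number has an integer with these residues at distance at most
`∏ (p t)²`. -/
theorem crt_approx (n : ℕ) (p : ℕ → ℕ) (hp : ∀ t, (p t).Prime) (h1 : ∀ t, 2 ^ (24 + t) < p t)
    (h2 : ∀ t, p t ≤ 2 ^ (25 + t)) (u : ℕ → ℤ) (r : ℝ) :
    ∃ c : ℤ, (∀ t < n, c ≡ u t [ZMOD ((p t : ℤ) ^ 2)]) ∧ |(c : ℝ) - r| ≤ 2 ^ (n * (n + 50)) := by
  obtain ⟨c, hc⟩ := crt_ex n p hp h1 h2 u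
  set M : ℤ := ∏ t ∈ Finset.range n, (p t : ℤ) ^ 2 with hM
  have hMpos : 0 < M := Finset.prod_pos fun t _ => pow_pos (by exact_mod_cast (hp t).pos) 2
  have hMR : (0 : ℝ) < (M : ℝ) := by exact_mod_cast hMpos
  have hMle : (M : ℝ) ≤ 2 ^ (n * (n + 50)) := by
    have h3 : ∀ m : ℕ, ((∏ t ∈ Finset.range m, (p t : ℤ) ^ 2 : ℤ) : ℝ) ≤ 2 ^ (m * (m + 50)) := by
      intro m
      induction m with
      | zero => simp
      | succ m ih =>
        rw [Finset.prod_range_succ, Int.cast_mul]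
        have h4 : (((p m : ℤ) ^ 2 : ℤ) : ℝ) ≤ 2 ^ (2 * (25 + m)) := by
          have h5 : ((p m : ℕ) : ℝ) ≤ 2 ^ (25 + m) := by exact_mod_cast h2 m
          push_cast
          calc ((p m : ℕ) : ℝ) ^ 2 ≤ (2 ^ (25 + m)) ^ 2 :=
                pow_le_pow_left₀ (Nat.cast_nonneg _) h5 2
            _ = 2 ^ (2 * (25 + m)) := by rw [← pow_mul, mul_comm]
        have h6 : (0 : ℝ) ≤ (((p m : ℤ) ^ 2 : ℤ) : ℝ) := by
          push_cast
          positivity
        calc _ ≤ (2 : ℝ) ^ (m * (m + 50)) * 2 ^ (2 * (25 + m)) :=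
              mul_le_mul ih h4 h6 (by positivity)
          _ = 2 ^ (m * (m + 50) + 2 * (25 + m)) := (pow_add _ _ _).symm
          _ ≤ 2 ^ ((m + 1) * (m + 1 + 50)) := by
              refine pow_le_pow_right₀ (by norm_num) ?_
              nlinarith
    exact h3 n
  set k : ℤ := ⌊((c : ℝ) - r) / M⌋ with hk
  refine ⟨c - M * k, fun t ht => ?_, ?_⟩
  · refine Int.ModEq.trans ?_ (hc t ht)
    have hd : (p t : ℤ) ^ 2 ∣ M := Finset.dvd_prod_of_mem _ (Finset.mem_range.2 ht)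
    have := Int.modEq_zero_iff_dvd.2 (hd.mul_right k)
    simpa using (Int.ModEq.refl c).sub this
  · have h3 := Int.floor_le (((c : ℝ) - r) / M)
    have h4 := Int.lt_floor_add_one (((c : ℝ) - r) / M)
    rw [← hk] at h3 h4
    rw [le_div_iff₀ hMR] at h3
    rw [div_lt_iff₀ hMR] at h4
    rw [abs_le]
    push_cast
    constructor
    · linarith
    · linarith

end

end QGd
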