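import Pool.Agent.Lib_MP_6b5565_dg.Q1c
import Pool.Agent.Lib_MP_6b5565_dg.N5d
import Pool.Agent.Lib_MP_6b5565_dg.D1c

/-! [DG-Q2] the mesh with arithmetic properties -/

namespace QGd

open EuclideanGeometry Vx Dx

noncomputable section

/-- scale exponent -/
def RR (K : ℕ) : ℕ := 100 * (K + 20) ^ 2

private theorem aux_q2 (a R m : ℕ) (h : a + 1 + m ≤ R) :
    2 * ((2 : ℝ) ^ a / 2 ^ R) ≤ (1 / 2) ^ m := by
  have hS : (0 : ℝ) < 2 ^ R := by positivity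
  have hm2 : (0 : ℝ) < 2 ^ m := by positivity
  have key : (2 : ℝ) ^ (a + 1) * 2 ^ m ≤ 2 ^ R := by
    rw [← pow_add]; exact pow_le_pow_right₀ (by norm_num) h
  rw [one_div_pow, le_div_iff₀ hm2]
  have e1 : 2 * ((2 : ℝ) ^ a / 2 ^ R) * 2 ^ m = (2 ^ (a + 1) * 2 ^ m) / 2 ^ R := by
    rw [pow_succ]; ring
  rw [e1, div_le_one hS]
  exact key

private theorem aux_q2' (K : ℕ) : (2 * K + 10) * (2 * K + 60) + 1 + (16 * K + 1000) ≤ RR K := by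
  have h : RR K = 100 * K ^ 2 + 4000 * K + 40000 := by unfold RR; ring
  have h' : (2 * K + 10) * (2 * K + 60) = 4 * K ^ 2 + 140 * K + 600 := by ring
  rw [h, h']
  have : K ^ 2 ≤ 100 * K ^ 2 := by nlinarith [Nat.zero_le (K ^ 2)]
  have h4 : 4 * K ^ 2 ≤ 100 * K ^ 2 := by nlinarith [Nat.zero_le (K ^ 2)]
  generalize K ^ 2 = x at *
  omega

private theorem norm_q2 (y : E3) (b : ℝ) (hb : 0 ≤ b) (h : ∀ j : Fin 3, |y j| ≤ b) :
    ‖y‖ ≤ 2 * b := by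
  rw [EuclideanSpace.norm_eq]
  apply Real.sqrt_le_iff.mpr
  refine ⟨by positivity, ?_⟩
  rw [Fin.sum_univ_three]
  have s0 : ‖y 0‖ ^ 2 ≤ b ^ 2 := by
    rw [Real.norm_eq_abs]; exact pow_le_pow_left₀ (abs_nonneg _) (h 0) 2
  have s1 : ‖y 1‖ ^ 2 ≤ b ^ 2 := by
    rw [Real.norm_eq_abs]; exact pow_le_pow_left₀ (abs_nonneg _) (h 1) 2
  have s2 : ‖y 2‖ ^ 2 ≤ b ^ 2 := by
    rw [Real.norm_eq_abs]; exact pow_le_pow_left₀ (abs_nonneg _) (h 2) 2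
  have s3 : 0 ≤ b ^ 2 := sq_nonneg b
  nlinarith

/-- [DG-Q2a] positions near to `S * ideal` -/
theorem close_of (K : ℕ) (v : Fin 3 → ℤ) (X : E3)
    (h : ∀ j, |(v j : ℝ) - 2 ^ RR K * X j| ≤ 2 ^ ((2 * K + 10) * (2 * K + 60))) :
    ‖(1 / ((2 ^ RR K : ℕ) : ℝ)) • pt v - X‖ ≤ del K := by
  have hS : (0 : ℝ) < 2 ^ RR K := by positivity
  have hR := aux_q2' K
  obtain ⟨a, ha⟩ : ∃ a : ℕ, a = (2 * K + 10) * (2 * K + 60) := ⟨_, rfl⟩
  rw [← ha] at h hR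
  set y : E3 := (1 / ((2 ^ RR K : ℕ) : ℝ)) • pt v - X with hy
  have hpt : ∀ j : Fin 3, (pt v : E3) j = (v j : ℝ) := by
    intro j; fin_cases j <;> simp [pt]
  have hyj : ∀ j : Fin 3, |y j| ≤ 2 ^ a / 2 ^ RR K := by
    intro j
    have h1 : y j = ((v j : ℝ) - 2 ^ RR K * X j) / 2 ^ RR K := by
      rw [hy]
      simp only [PiLp.sub_apply, PiLp.smul_apply, smul_eq_mul, hpt]
      push_cast
      field_simp
    rw [h1, abs_div, abs_of_pos hS]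
    exact div_le_div_of_nonneg_right (h j) hS.le
  have hb : (0 : ℝ) ≤ 2 ^ a / 2 ^ RR K := by positivity
  have hn : ‖y‖ ≤ 2 * (2 ^ a / 2 ^ RR K) := norm_q2 y _ hb hyj
  refine hn.trans ?_
  exact aux_q2 a (RR K) (16 * K + 1000) hR

end

end QGd
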