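import Pool.Agent.Lib_MP_6b5565_dg.Q2

/-! [DG-Q2b] the mesh with arithmetic properties -/

namespace QGd

open EuclideanGeometry Vx Dx

noncomputable section

private theorem odd_val_q2b {ℓ : ℕ} (hℓ : ℓ.Prime) {D : ℤ} (h1 : (ℓ : ℤ) ∣ D)
    (h2 : ¬ (ℓ : ℤ) ^ 2 ∣ D) : Odd (padicValInt ℓ D) := by
  have : Fact ℓ.Prime := ⟨hℓ⟩
  have h3 := mt (padicValInt_dvd_iff 2 D).2 h2
  rw [not_or, not_le] at h3
  have h4 := (padicValInt_dvd_iff 1 D).1 (by rw [pow_one]; exact h1)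
  have h5 : 1 ≤ padicValInt ℓ D := h4.resolve_left h3.1
  have h6 : padicValInt ℓ D = 1 := by omega
  rw [h6]
  exact odd_one

/-- the corner used as hub for the prime with the number `t` -/
private def hc (T : Fin 6) (e : Fin 3) (t : ℕ) : Fin 5 :=
  if t % 2 = 1 then CT T (e + 2) else CT T (e + 1)

private theorem exists_coords_q2b (K : ℕ) (p : ℕ → ℕ) (hp : ∀ t, (p t).Prime)
    (h1 : ∀ t, 2 ^ (24 + t) < p t) (h2 : ∀ t, p t ≤ 2 ^ (25 + t)) (α β : ℕ → ℤ) :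
    ∃ c : Vx K → Fin 3 → ℤ,
      (∀ v m, c (base v) m = ((2 ^ RR K : ℕ) : ℤ) * BV v m) ∧
      (∀ v m, |(c v m : ℝ) - 2 ^ RR K * ideal K v m| ≤ 2 ^ ((2 * K + 10) * (2 * K + 60))) ∧
      ∀ (T : Fin 6) (e : Fin 3) (j : ℕ), 1 ≤ j → j ≤ K + 1 → ∀ t < 2 * K + 2, ∀ m,
        c (Y K T e j) m ≡ ((2 ^ RR K : ℕ) : ℤ) * BV (hc T e t) m + tmpl (α t) (β t) (t / 2) j m
          [ZMOD ((p t : ℤ) ^ 2)] := by
  have key := fun (u : ℕ → ℤ) (r : ℝ) => crt_approx (2 * K + 2) p hp h1 h2 u r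
  choose g hg1 hg2 using key
  have hexp : (2 : ℝ) ^ ((2 * K + 2) * (2 * K + 2 + 50)) ≤ 2 ^ ((2 * K + 10) * (2 * K + 60)) :=
    pow_le_pow_right₀ (by norm_num) (Nat.mul_le_mul (by omega) (by omega))
  refine ⟨fun v => match v with
    | base v => fun m => ((2 ^ RR K : ℕ) : ℤ) * BV v m
    | ctr T => fun m => g (fun _ => 0) (2 ^ RR K * ideal K (ctr T) m)
    | leg T e i => fun m => g (fun t => ((2 ^ RR K : ℕ) : ℤ) * BV (hc T e t) m +
        tmpl (α t) (β t) (t / 2) ((i : ℕ) + 1) m) (2 ^ RR K * ideal K (leg T e i) m),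
    fun v m => rfl, ?_, ?_⟩
  · rintro (v | T | ⟨T, e, i⟩) m
    · have h3 : ((((2 ^ RR K : ℕ) : ℤ) * BV v m : ℤ) : ℝ) - 2 ^ RR K * ideal K (base v) m = 0 := by
        have h4 : ideal K (base v) m = (BV v m : ℝ) := by
          show bpt v m = _
          unfold bpt pt
          fin_cases m <;> simp
        rw [h4]
        push_cast
        ring
      show |((((2 ^ RR K : ℕ) : ℤ) * BV v m : ℤ) : ℝ) - 2 ^ RR K * ideal K (base v) m| ≤ _
      rw [h3, abs_zero]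
      positivity
    · exact (hg2 _ _).trans hexp
    · exact (hg2 _ _).trans hexp
  · intro T e j hj1 hj2 t ht m
    obtain ⟨j, rfl⟩ : ∃ k, j = k + 1 := ⟨j - 1, by omega⟩
    have h3 : ((Fin.ofNat (K + 1) j : Fin (K + 1)) : ℕ) = j := by
      simp only [Fin.val_ofNat]
      exact Nat.mod_eq_of_lt (by omega)
    have h4 := hg1 (fun t => ((2 ^ RR K : ℕ) : ℤ) * BV (hc T e t) m +
      tmpl (α t) (β t) (t / 2) (((Fin.ofNat (K + 1) j : Fin (K + 1)) : ℕ) + 1) m)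
      (2 ^ RR K * ideal K (leg T e (Fin.ofNat (K + 1) j)) m) t ht
    have h5 : tmpl (α t) (β t) (t / 2) (((Fin.ofNat (K + 1) j : Fin (K + 1)) : ℕ) + 1) m =
      tmpl (α t) (β t) (t / 2) (j + 1) m := by rw [h3]
    rw [← h5]
    exact h4

/-- [DG-Q2b] THE MESH WITH PRIMES. For every leg `(T, e)`, every side (hub) and every odd `i` with
`i + 1 ≤ K + 1` there is a prime which divides `DD hub (Y i) (Y (i+1))` exactly once, and does not
divide the other `DD hub (Y j) (Y (j+1))`, `1 ≤ j ≤ K`. (Primes `p (2 i + side)`; residues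
`c (Y j) ≡ S * BV hub + tmpl α β i j`, `j ≥ 1`.) -/
theorem exists_msh (K : ℕ) : ∃ M : Msh K, M.S = 2 ^ RR K ∧ ∀ (T : Fin 6) (e : Fin 3) (side : Bool)
    (i : ℕ), i % 2 = 1 → i ≤ K → ∃ ℓ : ℕ, ℓ.Prime ∧
      Odd (padicValInt ℓ (DD (M.c (hub K T e side)) (M.c (Y K T e i)) (M.c (Y K T e (i + 1))))) ∧
      IP (M.c (hub K T e side)) (M.c (Y K T e i)) (M.c (Y K T e (i + 1))) ≠ 0 ∧
      ∀ j, 1 ≤ j → j ≤ K → j ≠ i →
        ¬ (ℓ : ℤ) ∣ DD (M.c (hub K T e side)) (M.c (Y K T e j)) (M.c (Y K T e (j + 1))) := by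
  obtain ⟨p, hp, hp1, hp2⟩ := exists_primes
  have hbig : ∀ t, 2 ^ 24 < p t := fun t =>
    lt_of_le_of_lt (Nat.pow_le_pow_right (by norm_num) (by omega)) (hp1 t)
  choose α β hα hβ hd1 hd2 using fun t => exists_ab (p t) (hp t) (hbig t)
  obtain ⟨c, hc1, hc2, hc3⟩ := exists_coords_q2b K p hp hp1 hp2 α β
  refine ⟨⟨2 ^ RR K, c, ⟨by positivity, hc1, fun v => close_of K (c v) (ideal K v) (hc2 v)⟩⟩, rfl, ?_⟩
  intro T e side i hi hiK
  show ∃ ℓ : ℕ, ℓ.Prime ∧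
      Odd (padicValInt ℓ (DD (c (hub K T e side)) (c (Y K T e i)) (c (Y K T e (i + 1))))) ∧
      IP (c (hub K T e side)) (c (Y K T e i)) (c (Y K T e (i + 1))) ≠ 0 ∧
      ∀ j, 1 ≤ j → j ≤ K → j ≠ i →
        ¬ (ℓ : ℤ) ∣ DD (c (hub K T e side)) (c (Y K T e j)) (c (Y K T e (j + 1)))
  obtain ⟨t, ht, htc, ht2⟩ : ∃ t, t < 2 * K + 2 ∧ hub K T e side = base (hc T e t) ∧ t / 2 = i := by
    cases side
    · refine ⟨2 * i, by omega, ?_, by omega⟩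
      show base (CT T (e + 1)) = base (hc T e (2 * i))
      unfold hc
      rw [if_neg (by omega)]
    · refine ⟨2 * i + 1, by omega, ?_, by omega⟩
      show base (CT T (e + 2)) = base (hc T e (2 * i + 1))
      unfold hc
      rw [if_pos (by omega)]
  have hres : ∀ j, 1 ≤ j → j ≤ K + 1 → ∀ m, c (Y K T e j) m - c (hub K T e side) m ≡
      tmpl (α t) (β t) i j m [ZMOD ((p t : ℤ) ^ 2)] := by
    intro j hj1 hj2 m
    have h1 := hc3 T e j hj1 hj2 t ht m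
    rw [ht2] at h1
    rw [htc, hc1]
    have h2 := h1.sub_right (((2 ^ RR K : ℕ) : ℤ) * BV (hc T e t) m)
    rwa [add_sub_cancel_left] at h2
  have hDD : ∀ j, 1 ≤ j → j ≤ K → DD (c (hub K T e side)) (c (Y K T e j)) (c (Y K T e (j + 1))) ≡
      DD 0 (tmpl (α t) (β t) i j) (tmpl (α t) (β t) i (j + 1)) [ZMOD ((p t : ℤ) ^ 2)] :=
    fun j hj1 hj2 => DD_congr _ _ _ _ _ _ (hres j hj1 (by omega)) (hres (j + 1) (by omega) (by omega))
  have hi1 : 1 ≤ i := by omega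
  have hpp : (p t : ℤ) ∣ (p t : ℤ) ^ 2 := dvd_pow_self _ (by norm_num)
  obtain ⟨hT1, hT2, hT3⟩ := DD_tmpl (p t) (hp t) (hbig t) (α t) (β t) (hα t) (hβ t) i hi
  refine ⟨p t, hp t, ?_, ?_, ?_⟩
  · have h1 := hDD i hi1 hiK
    rw [hT1] at h1
    refine odd_val_q2b (hp t) ?_ ?_
    · exact (h1.of_dvd hpp).dvd_iff.2 (hd1 t)
    · intro h2
      exact hd2 t (h1.dvd_iff.1 h2)
  · intro h0
    have h1 := IP_congr ((p t : ℤ) ^ 2) _ _ _ _ _ (hres i hi1 (by omega))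
      (hres (i + 1) (by omega) (by omega))
    rw [h0] at h1
    exact hT2 ((h1.of_dvd hpp).dvd_iff.1 (dvd_zero _))
  · intro j hj1 hj2 hji h1
    exact hT3 j hji (((hDD j hj1 hj2).of_dvd hpp).dvd_iff.1 h1)

end

end QGd
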