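import Pool.Agent.Lib_MP_6b5565_dg.Q2b

/-! [DG-Q2c] the mesh with arithmetic properties -/

namespace QGd

open EuclideanGeometry Vx Dx

noncomputable section

private theorem abs_coord_q2c (K : ℕ) (M : Msh K) (v : Vx K) (j : Fin 3) :
    |(M.c v j : ℝ)| ≤ 12 * (M.S : ℝ) := by
  have hS : (0 : ℝ) < M.S := M.Spos
  have h1 := M.h.close v
  have h2 := ideal_norm K v
  have h3 : del K ≤ 1 := by
    unfold del
    exact pow_le_one₀ (by norm_num) (by norm_num)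
  have h4 : ‖(1 / (M.S : ℝ)) • pt (M.c v)‖ ≤ 12 := by
    calc ‖(1 / (M.S : ℝ)) • pt (M.c v)‖
        = ‖((1 / (M.S : ℝ)) • pt (M.c v) - ideal K v) + ideal K v‖ := by rw [sub_add_cancel]
      _ ≤ ‖(1 / (M.S : ℝ)) • pt (M.c v) - ideal K v‖ + ‖ideal K v‖ := norm_add_le _ _
      _ ≤ 12 := by linarith
  have h5 : ‖((1 / (M.S : ℝ)) • pt (M.c v) : E3) j‖ ≤ ‖(1 / (M.S : ℝ)) • pt (M.c v)‖ :=
    PiLp.norm_apply_le _ j
  have h6 : ((1 / (M.S : ℝ)) • pt (M.c v) : E3) j = (1 / (M.S : ℝ)) * (M.c v j : ℝ) := by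
    fin_cases j <;> simp [pt]
  rw [h6, Real.norm_eq_abs, abs_mul, abs_of_pos (by positivity : (0 : ℝ) < 1 / (M.S : ℝ))] at h5
  have h7 : 1 / (M.S : ℝ) * |(M.c v j : ℝ)| ≤ 12 := h5.trans h4
  rw [one_div, inv_mul_le_iff₀ hS] at h7
  linarith

private theorem size_q2c (K : ℕ) (M : Msh K) (hS : M.S = 2 ^ RR K) (v : Vx K) (j : Fin 3) :
    (M.c v j).natAbs.size ≤ RR K + 4 := by
  rw [Nat.size_le]
  have h1 := abs_coord_q2c K M v j
  have h2 : ((M.c v j).natAbs : ℝ) ≤ 12 * (M.S : ℝ) := by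
    rw [Nat.cast_natAbs, Int.cast_abs]
    exact h1
  have h3 : (M.c v j).natAbs ≤ 12 * M.S := by exact_mod_cast h2
  rw [hS] at h3
  have h4 : 0 < 2 ^ RR K := by positivity
  calc (M.c v j).natAbs ≤ 12 * 2 ^ RR K := h3
    _ < 2 ^ RR K * 2 ^ 4 := by omega
    _ = 2 ^ (RR K + 4) := (pow_add 2 (RR K) 4).symm

/-- [DG-Q2c] size of the input -/
theorem bits_le (K : ℕ) (M : Msh K) (hS : M.S = 2 ^ RR K) : M.I.bits ≤ 10 ^ 6 * (K + 20) ^ 3 := by
  have hV : Fintype.card M.I.V = 11 + 18 * (K + 1) := card_Vx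
  have hD : Fintype.card M.I.D = 108 * (K + 1) + 54 := card_Dx
  have h1 : ∑ v : M.I.V, ∑ j, (1 + (M.I.c v j).natAbs.size) ≤
      Fintype.card M.I.V * (3 * (RR K + 5)) := by
    calc ∑ v : M.I.V, ∑ j, (1 + (M.I.c v j).natAbs.size)
        ≤ ∑ _v : M.I.V, 3 * (RR K + 5) := by
          refine Finset.sum_le_sum fun v _ => ?_
          calc ∑ j, (1 + (M.I.c v j).natAbs.size) ≤ ∑ _j : Fin 3, (RR K + 5) := by
                refine Finset.sum_le_sum fun j _ => ?_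
                have := size_q2c K M hS v j
                have h0 : (M.I.c v j).natAbs.size = (M.c v j).natAbs.size := rfl
                omega
            _ = 3 * (RR K + 5) := by simp
      _ = Fintype.card M.I.V * (3 * (RR K + 5)) := by simp
  have h2 : (Fintype.card M.I.V).size ≤ 11 + 18 * (K + 1) := by
    rw [hV, Nat.size_le]
    exact Nat.lt_two_pow_self
  unfold IPoly.bits
  refine (Nat.add_le_add h1 (Nat.mul_le_mul_left _ (Nat.add_le_add_left h2 1))).trans ?_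
  rw [hV, hD]
  unfold RR
  have h3 : 0 ≤ K := Nat.zero_le K
  nlinarith [Nat.zero_le (K ^ 3), Nat.zero_le (K ^ 2), Nat.zero_le K, pow_pos (show 0 < K + 20 by omega) 3]

end

end QGd
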