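import Pool.Agent.Lib_MP_6b5565_dg.AlgDefs

/-! [DG-R1] algebra of a run: the linear relation -/

namespace QGd

open EuclideanGeometry ComplexConjugate

noncomputable section

/-- the rotation-homothety numbers: `z_0 = 1`, `z_{s+1} = z_s (⟨p_s,p_{s+1}⟩ + i √D_s) / |p_s|²`,
`p_s = Y s - h` -/
def zz (h : Fin 3 → ℤ) (Y : ℕ → Fin 3 → ℤ) : ℕ → ℂ
  | 0 => 1
  | s + 1 => zz h Y s * (((IP h (Y s) (Y (s + 1)) : ℤ) : ℂ) +
      (Real.sqrt (DD h (Y s) (Y (s + 1)) : ℤ) : ℂ) * Complex.I) / ((IP h (Y s) (Y s) : ℤ) : ℂ)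

/-- [DG-R1a] Lagrange identity -/
theorem DD_eq (h a b : Fin 3 → ℤ) : DD h a b = IP h a a * IP h b b - IP h a b ^ 2 := by
  simp only [DD, IP, icrs, Matrix.cons_val_zero, Matrix.cons_val_one, Matrix.cons_val]
  ring

/-- [DG-R1b] `|z_s|² = |p_s|² / |p_0|²` -/
theorem zz_norm (h : Fin 3 → ℤ) (Y : ℕ → Fin 3 → ℤ) (s : ℕ) (h0 : ∀ j ≤ s, IP h (Y j) (Y j) ≠ 0) :
    zz h Y s * conj (zz h Y s) = ((IP h (Y s) (Y s) : ℤ) : ℂ) / ((IP h (Y 0) (Y 0) : ℤ) : ℂ) := by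
  induction s with
  | zero =>
    have h1 : ((IP h (Y 0) (Y 0) : ℤ) : ℂ) ≠ 0 := by exact_mod_cast h0 0 le_rfl
    rw [div_self h1]
    simp [zz]
  | succ s ih =>
    have ih' := ih fun j hj => h0 j (by omega)
    have hs : ((IP h (Y s) (Y s) : ℤ) : ℂ) ≠ 0 := by exact_mod_cast h0 s (by omega)
    have h1 : ((IP h (Y 0) (Y 0) : ℤ) : ℂ) ≠ 0 := by exact_mod_cast h0 0 (by omega)
    have hD : (0 : ℝ) ≤ ((DD h (Y s) (Y (s + 1)) : ℤ) : ℝ) := by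
      have : (0 : ℤ) ≤ DD h (Y s) (Y (s + 1)) := by
        unfold DD
        positivity
      exact_mod_cast this
    have e1 : ((Real.sqrt ((DD h (Y s) (Y (s + 1)) : ℤ) : ℝ) : ℝ) : ℂ) ^ 2 =
        ((IP h (Y s) (Y s) : ℤ) : ℂ) * ((IP h (Y (s + 1)) (Y (s + 1)) : ℤ) : ℂ) -
          ((IP h (Y s) (Y (s + 1)) : ℤ) : ℂ) ^ 2 := by
      rw [← Complex.ofReal_pow, Real.sq_sqrt hD, DD_eq]
      push_cast
      ring
    have e2 : zz h Y (s + 1) = zz h Y s * (((IP h (Y s) (Y (s + 1)) : ℤ) : ℂ) +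
        (Real.sqrt ((DD h (Y s) (Y (s + 1)) : ℤ) : ℝ) : ℂ) * Complex.I) /
        ((IP h (Y s) (Y s) : ℤ) : ℂ) := rfl
    rw [e2, map_div₀, map_mul, map_add, map_mul, Complex.conj_ofReal, Complex.conj_I,
      map_intCast, map_intCast]
    set t : ℂ := ((Real.sqrt ((DD h (Y s) (Y (s + 1)) : ℤ) : ℝ) : ℝ) : ℂ)
    set p : ℂ := ((IP h (Y s) (Y (s + 1)) : ℤ) : ℂ)
    set m : ℂ := ((IP h (Y s) (Y s) : ℤ) : ℂ)
    set m' : ℂ := ((IP h (Y (s + 1)) (Y (s + 1)) : ℤ) : ℂ)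
    set m0 : ℂ := ((IP h (Y 0) (Y 0) : ℤ) : ℂ)
    have e3 : zz h Y s * (p + t * Complex.I) / m * (conj (zz h Y s) * (p + t * -Complex.I) / m) =
        (zz h Y s * conj (zz h Y s)) * (p ^ 2 + t ^ 2) / m ^ 2 := by
      have : (p + t * Complex.I) * (p + t * -Complex.I) = p ^ 2 + t ^ 2 := by
        have := Complex.I_sq
        linear_combination (-t ^ 2) * this
      calc zz h Y s * (p + t * Complex.I) / m * (conj (zz h Y s) * (p + t * -Complex.I) / m) =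
          (zz h Y s * conj (zz h Y s)) * ((p + t * Complex.I) * (p + t * -Complex.I)) / m ^ 2 := by
            ring
        _ = _ := by rw [this]
    rw [e3, ih', e1]
    field_simp
    ring

end

end QGd
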