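import Pool.Agent.Lib_MP_6b5565_dg.R1

/-! [DG-R1b] algebra of a run: the linear relation -/

namespace QGd

open EuclideanGeometry ComplexConjugate

noncomputable section

private theorem inner_pt_r1b (h a b : Fin 3 → ℤ) :
    inner ℝ (pt a - pt h) (pt b - pt h) = ((IP h a b : ℤ) : ℝ) := by
  simp only [pt, IP, PiLp.inner_apply, PiLp.sub_apply, Fin.sum_univ_three, RCLike.inner_apply,
    conj_trivial]
  push_cast
  ring

private theorem DD_nonneg_r1b (h a b : Fin 3 → ℤ) : (0 : ℤ) ≤ DD h a b := by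
  unfold DD
  positivity

/-- product form of `cot α + cot β = 0` for `α + β = π` -/
private theorem cot_add_r1b (u v u' : E3)
    (hs : InnerProductGeometry.angle u v + InnerProductGeometry.angle v u' = Real.pi) :
    inner ℝ u v * Real.sqrt (inner ℝ v v * inner ℝ u' u' - inner ℝ v u' * inner ℝ v u') +
      inner ℝ v u' * Real.sqrt (inner ℝ u u * inner ℝ v v - inner ℝ u v * inner ℝ u v) = 0 := by
  have e1 := InnerProductGeometry.cos_angle_mul_norm_mul_norm u v
  have e2 := InnerProductGeometry.sin_angle_mul_norm_mul_norm u v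
  have e3 := InnerProductGeometry.cos_angle_mul_norm_mul_norm v u'
  have e4 := InnerProductGeometry.sin_angle_mul_norm_mul_norm v u'
  have hb : InnerProductGeometry.angle v u' = Real.pi - InnerProductGeometry.angle u v := by
    linarith
  rw [hb, Real.cos_pi_sub] at e3
  rw [hb, Real.sin_pi_sub] at e4
  rw [← e2, ← e4, ← e1, ← e3]
  ring

/-- the cotangent relation for three spokes -/
private theorem cot_rel_r1b (h a b c : Fin 3 → ℤ) (la lb lc : ℝ) (ha : 0 < la) (hb : 0 < lb)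
    (hc : 0 < lc)
    (hs : ∠ (pt h + la • (pt a - pt h)) (pt h + lb • (pt b - pt h)) (pt h) +
      ∠ (pt h) (pt h + lb • (pt b - pt h)) (pt h + lc • (pt c - pt h)) = Real.pi) :
    ((IP h b b : ℝ) * (1 / la) - (IP h a b : ℝ) * (1 / lb)) * Real.sqrt (DD h b c : ℤ) +
      ((IP h b b : ℝ) * (1 / lc) - (IP h b c : ℝ) * (1 / lb)) * Real.sqrt (DD h a b : ℤ) = 0 := by
  have key := cot_add_r1b (la • (pt a - pt h) - lb • (pt b - pt h)) (-(lb • (pt b - pt h)))
    (lc • (pt c - pt h) - lb • (pt b - pt h)) (by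
      have := hs
      unfold EuclideanGeometry.angle at this
      have r1 : (pt h + la • (pt a - pt h)) -ᵥ (pt h + lb • (pt b - pt h)) =
          la • (pt a - pt h) - lb • (pt b - pt h) := by
        rw [vsub_eq_sub]; abel
      have r2 : (pt h) -ᵥ (pt h + lb • (pt b - pt h)) = -(lb • (pt b - pt h)) := by
        rw [vsub_eq_sub]; abel
      have r3 : (pt h + lc • (pt c - pt h)) -ᵥ (pt h + lb • (pt b - pt h)) =
          lc • (pt c - pt h) - lb • (pt b - pt h) := by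
        rw [vsub_eq_sub]; abel
      rw [r1, r2, r3] at this
      exact this)
  have iaa := inner_pt_r1b h a a
  have iab := inner_pt_r1b h a b
  have ibb := inner_pt_r1b h b b
  have ibc := inner_pt_r1b h b c
  have icc := inner_pt_r1b h c c
  have iba : inner ℝ (pt b - pt h) (pt a - pt h) = ((IP h a b : ℤ) : ℝ) := by
    rw [real_inner_comm]; exact iab
  have icb : inner ℝ (pt c - pt h) (pt b - pt h) = ((IP h b c : ℤ) : ℝ) := by
    rw [real_inner_comm]; exact ibc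
  set P := pt a - pt h with hP
  set Q := pt b - pt h with hQ
  set R := pt c - pt h with hR
  have d1 : ((DD h a b : ℤ) : ℝ) = (IP h a a : ℝ) * (IP h b b : ℝ) - (IP h a b : ℝ) ^ 2 := by
    rw [DD_eq]; push_cast; ring
  have d2 : ((DD h b c : ℤ) : ℝ) = (IP h b b : ℝ) * (IP h c c : ℝ) - (IP h b c : ℝ) ^ 2 := by
    rw [DD_eq]; push_cast; ring
  have g1 : inner ℝ (la • P - lb • Q) (-(lb • Q)) =
      lb ^ 2 * (IP h b b : ℝ) - la * lb * (IP h a b : ℝ) := by
    simp only [inner_sub_left, inner_neg_right, real_inner_smul_left, real_inner_smul_right, iab,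
      ibb]
    ring
  have g2 : inner ℝ (-(lb • Q)) (lc • R - lb • Q) =
      lb ^ 2 * (IP h b b : ℝ) - lc * lb * (IP h b c : ℝ) := by
    simp only [inner_sub_right, inner_neg_left, real_inner_smul_left, real_inner_smul_right, ibc,
      ibb]
    ring
  have g3 : inner ℝ (-(lb • Q)) (-(lb • Q)) = lb ^ 2 * (IP h b b : ℝ) := by
    simp only [inner_neg_right, inner_neg_left, real_inner_smul_left, real_inner_smul_right, ibb]
    ring
  have g4 : inner ℝ (la • P - lb • Q) (la • P - lb • Q) =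
      la ^ 2 * (IP h a a : ℝ) - 2 * la * lb * (IP h a b : ℝ) + lb ^ 2 * (IP h b b : ℝ) := by
    simp only [inner_sub_left, inner_sub_right, real_inner_smul_left, real_inner_smul_right, iaa,
      iab, iba, ibb]
    ring
  have g5 : inner ℝ (lc • R - lb • Q) (lc • R - lb • Q) =
      lc ^ 2 * (IP h c c : ℝ) - 2 * lc * lb * (IP h b c : ℝ) + lb ^ 2 * (IP h b b : ℝ) := by
    simp only [inner_sub_left, inner_sub_right, real_inner_smul_left, real_inner_smul_right, icc,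
      ibc, icb, ibb]
    ring
  rw [g1, g2, g3, g4, g5] at key
  have s1 : Real.sqrt ((la ^ 2 * (IP h a a : ℝ) - 2 * la * lb * (IP h a b : ℝ) +
      lb ^ 2 * (IP h b b : ℝ)) * (lb ^ 2 * (IP h b b : ℝ)) -
      (lb ^ 2 * (IP h b b : ℝ) - la * lb * (IP h a b : ℝ)) *
      (lb ^ 2 * (IP h b b : ℝ) - la * lb * (IP h a b : ℝ))) =
      la * lb * Real.sqrt (DD h a b : ℤ) := by
    rw [show ((la ^ 2 * (IP h a a : ℝ) - 2 * la * lb * (IP h a b : ℝ) +
      lb ^ 2 * (IP h b b : ℝ)) * (lb ^ 2 * (IP h b b : ℝ)) -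
      (lb ^ 2 * (IP h b b : ℝ) - la * lb * (IP h a b : ℝ)) *
      (lb ^ 2 * (IP h b b : ℝ) - la * lb * (IP h a b : ℝ))) = (la * lb) ^ 2 * ((DD h a b : ℤ) : ℝ)
      by rw [d1]; ring, Real.sqrt_mul (by positivity), Real.sqrt_sq (by positivity)]
  have s2 : Real.sqrt (lb ^ 2 * (IP h b b : ℝ) * (lc ^ 2 * (IP h c c : ℝ) -
      2 * lc * lb * (IP h b c : ℝ) + lb ^ 2 * (IP h b b : ℝ)) -
      (lb ^ 2 * (IP h b b : ℝ) - lc * lb * (IP h b c : ℝ)) *
      (lb ^ 2 * (IP h b b : ℝ) - lc * lb * (IP h b c : ℝ))) =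
      lc * lb * Real.sqrt (DD h b c : ℤ) := by
    rw [show (lb ^ 2 * (IP h b b : ℝ) * (lc ^ 2 * (IP h c c : ℝ) -
      2 * lc * lb * (IP h b c : ℝ) + lb ^ 2 * (IP h b b : ℝ)) -
      (lb ^ 2 * (IP h b b : ℝ) - lc * lb * (IP h b c : ℝ)) *
      (lb ^ 2 * (IP h b b : ℝ) - lc * lb * (IP h b c : ℝ))) = (lc * lb) ^ 2 * ((DD h b c : ℤ) : ℝ)
      by rw [d2]; ring, Real.sqrt_mul (by positivity), Real.sqrt_sq (by positivity)]
  rw [s1, s2] at key
  have hne : la * lc * lb ^ 3 ≠ 0 := by positivity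
  apply mul_left_cancel₀ hne
  rw [mul_zero, ← key]
  field_simp

private theorem step_r1b (z w : ℂ) (p a : ℤ) (s : ℝ) :
    (z * ((p : ℂ) + (s : ℂ) * Complex.I) / (a : ℂ) * w).re =
        ((p : ℝ) * (z * w).re - s * (z * w).im) / (a : ℝ) ∧
      (z * ((p : ℂ) + (s : ℂ) * Complex.I) / (a : ℂ) * w).im =
        ((p : ℝ) * (z * w).im + s * (z * w).re) / (a : ℝ) := by
  have e : z * ((p : ℂ) + (s : ℂ) * Complex.I) / (a : ℂ) * w =
      (z * w) * (((p : ℝ) : ℂ) + (s : ℂ) * Complex.I) / ((a : ℝ) : ℂ) := by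
    push_cast
    ring
  rw [e, Complex.div_ofReal_re, Complex.div_ofReal_im]
  constructor
  · congr 1
    simp only [Complex.mul_re, Complex.add_re, Complex.add_im, Complex.ofReal_re,
      Complex.ofReal_im, Complex.I_re, Complex.I_im, Complex.mul_im]
    ring
  · congr 1
    simp only [Complex.mul_re, Complex.add_re, Complex.add_im, Complex.ofReal_re,
      Complex.ofReal_im, Complex.I_re, Complex.I_im, Complex.mul_im]
    ring

/-- [DG-R1c] THE LINEAR RELATION. Points `x j = h + lam j • (Y j - h)`, `0 < lam j`, `j ≤ n`, straight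
at `1 ≤ j < n` (angle sum `π` towards `h`). Then there is `w ≠ 0` with `1 / lam j = Re (z_j w)`.
(Unfold the triangles `(h, Y j, Y (j+1))` into the plane: `h` at `0`, `Y j` at `|p_0| z_j`, the points
`x j` are on one line `Re (u z) = 1`; the angle at `h` between `p_j` and `p_{j+1}` has cosine
`⟨p_j,p_{j+1}⟩/(|p_j||p_{j+1}|)` and sine `√D_j/(|p_j||p_{j+1}|)`. Straightness at `x j`: the three
points `x (j-1), x j, x (j+1)` unfolded are collinear with `x j` in between. Induction: `w` is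
determined by `j = 0, 1` (`D_0 ≠ 0`), and the relation for `j-1, j` gives it for `j+1`.) -/
theorem run_linear (n : ℕ) (hn : 1 ≤ n) (h : Fin 3 → ℤ) (Y : ℕ → Fin 3 → ℤ) (x : ℕ → E3)
    (lam : ℕ → ℝ) (hlam : ∀ j ≤ n, 0 < lam j) (hx : ∀ j ≤ n, x j = pt h + lam j • (pt (Y j) - pt h))
    (hD : ∀ j < n, DD h (Y j) (Y (j + 1)) ≠ 0)
    (hstr : ∀ j, 1 ≤ j → j < n → ∠ (x (j - 1)) (x j) (pt h) + ∠ (pt h) (x j) (x (j + 1)) =
      Real.pi) :
    ∃ w : ℂ, w ≠ 0 ∧ ∀ j ≤ n, 1 / lam j = (zz h Y j * w).re := by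
  -- positivity of the discriminants and norms
  have Dpos : ∀ j < n, (0 : ℝ) < ((DD h (Y j) (Y (j + 1)) : ℤ) : ℝ) := fun j hj => by
    have h1 := DD_nonneg_r1b h (Y j) (Y (j + 1))
    exact_mod_cast lt_of_le_of_ne h1 (Ne.symm (hD j hj))
  have hDe : ∀ j, ((DD h (Y j) (Y (j + 1)) : ℤ) : ℝ) = (IP h (Y j) (Y j) : ℝ) *
      (IP h (Y (j + 1)) (Y (j + 1)) : ℝ) - (IP h (Y j) (Y (j + 1)) : ℝ) ^ 2 := fun j => by
    rw [DD_eq]; push_cast; ring
  have IPl : ∀ j < n, (IP h (Y j) (Y j) : ℝ) ≠ 0 := fun j hj h0 => by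
    have h1 := Dpos j hj
    rw [hDe, h0] at h1
    nlinarith [sq_nonneg (IP h (Y j) (Y (j + 1)) : ℝ)]
  have spos : ∀ j < n, 0 < Real.sqrt ((DD h (Y j) (Y (j + 1)) : ℤ) : ℝ) := fun j hj =>
    Real.sqrt_pos.mpr (Dpos j hj)
  have ssq : ∀ j < n, Real.sqrt ((DD h (Y j) (Y (j + 1)) : ℤ) : ℝ) *
      Real.sqrt ((DD h (Y j) (Y (j + 1)) : ℤ) : ℝ) = (IP h (Y j) (Y j) : ℝ) *
      (IP h (Y (j + 1)) (Y (j + 1)) : ℝ) - (IP h (Y j) (Y (j + 1)) : ℝ) ^ 2 := fun j hj => by
    rw [Real.mul_self_sqrt (Dpos j hj).le, hDe]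
  have hn0 : 0 < n := hn
  obtain ⟨w, hw0, hw1⟩ : ∃ w : ℂ, w.re = 1 / lam 0 ∧
      w.im * Real.sqrt ((DD h (Y 0) (Y (0 + 1)) : ℤ) : ℝ) =
        (IP h (Y 0) (Y (0 + 1)) : ℝ) * (1 / lam 0) - (IP h (Y 0) (Y 0) : ℝ) * (1 / lam (0 + 1)) := by
    refine ⟨⟨1 / lam 0, ((IP h (Y 0) (Y (0 + 1)) : ℝ) * (1 / lam 0) -
      (IP h (Y 0) (Y 0) : ℝ) * (1 / lam (0 + 1))) /
      Real.sqrt ((DD h (Y 0) (Y (0 + 1)) : ℤ) : ℝ)⟩, rfl, ?_⟩
    exact div_mul_cancel₀ _ (spos 0 hn0).ne'
  refine ⟨w, ?_, ?_⟩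
  · intro h0
    rw [h0] at hw0
    have h1 := one_div_pos.mpr (hlam 0 (Nat.zero_le _))
    rw [← hw0, Complex.zero_re] at h1
    exact lt_irrefl _ h1
  have main : ∀ j, j < n → 1 / lam j = (zz h Y j * w).re ∧
      1 / lam (j + 1) = (zz h Y (j + 1) * w).re := by
    intro j
    induction j with
    | zero =>
      intro _
      have e0 : zz h Y 0 * w = w := by simp [zz]
      refine ⟨by rw [e0, hw0], ?_⟩
      have st := (step_r1b (zz h Y 0) w (IP h (Y 0) (Y (0 + 1))) (IP h (Y 0) (Y 0))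
        (Real.sqrt ((DD h (Y 0) (Y (0 + 1)) : ℤ) : ℝ))).1
      have e1 : zz h Y (0 + 1) = zz h Y 0 * (((IP h (Y 0) (Y (0 + 1)) : ℤ) : ℂ) +
        (Real.sqrt (DD h (Y 0) (Y (0 + 1)) : ℤ) : ℂ) * Complex.I) /
        ((IP h (Y 0) (Y 0) : ℤ) : ℂ) := rfl
      rw [e1, st, e0, hw0, eq_div_iff (IPl 0 hn0)]
      linarith
    | succ j ih =>
      intro hj
      obtain ⟨ih1, ih2⟩ := ih (by omega)
      refine ⟨ih2, ?_⟩
      have stj := step_r1b (zz h Y j) w (IP h (Y j) (Y (j + 1))) (IP h (Y j) (Y j))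
        (Real.sqrt ((DD h (Y j) (Y (j + 1)) : ℤ) : ℝ))
      have e1 : zz h Y (j + 1) = zz h Y j * (((IP h (Y j) (Y (j + 1)) : ℤ) : ℂ) +
        (Real.sqrt (DD h (Y j) (Y (j + 1)) : ℤ) : ℂ) * Complex.I) /
        ((IP h (Y j) (Y j) : ℤ) : ℂ) := rfl
      rw [← e1] at stj
      have st := (step_r1b (zz h Y (j + 1)) w (IP h (Y (j + 1)) (Y (j + 1 + 1)))
        (IP h (Y (j + 1)) (Y (j + 1)))
        (Real.sqrt ((DD h (Y (j + 1)) (Y (j + 1 + 1)) : ℤ) : ℝ))).1
      have e2 : zz h Y (j + 1 + 1) = zz h Y (j + 1) *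
        (((IP h (Y (j + 1)) (Y (j + 1 + 1)) : ℤ) : ℂ) +
        (Real.sqrt (DD h (Y (j + 1)) (Y (j + 1 + 1)) : ℤ) : ℂ) * Complex.I) /
        ((IP h (Y (j + 1)) (Y (j + 1)) : ℤ) : ℂ) := rfl
      rw [e2, st, eq_div_iff (IPl (j + 1) hj), ← ih2]
      obtain ⟨s1, s2⟩ := stj
      rw [← ih2, ← ih1] at s1
      rw [← ih1] at s2
      have hs := hstr (j + 1) (by omega) hj
      have hj1 : j + 1 - 1 = j := by omega
      rw [hj1, hx j (by omega), hx (j + 1) (by omega), hx (j + 1 + 1) (by omega)] at hs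
      have rel := cot_rel_r1b h (Y j) (Y (j + 1)) (Y (j + 1 + 1)) (lam j) (lam (j + 1))
        (lam (j + 1 + 1)) (hlam j (by omega)) (hlam (j + 1) (by omega))
        (hlam (j + 1 + 1) (by omega)) hs
      have sq := ssq j (by omega)
      have sp := spos j (by omega)
      have ia := IPl j (by omega)
      set s := Real.sqrt ((DD h (Y j) (Y (j + 1)) : ℤ) : ℝ) with hs_def
      set t := Real.sqrt ((DD h (Y (j + 1)) (Y (j + 1 + 1)) : ℤ) : ℝ) with ht_def
      set B := (zz h Y j * w).im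
      set M := (zz h Y (j + 1) * w).im
      set A := 1 / lam j
      set A' := 1 / lam (j + 1)
      set A'' := 1 / lam (j + 1 + 1)
      set paa := (IP h (Y j) (Y j) : ℝ)
      set pab := (IP h (Y j) (Y (j + 1)) : ℝ)
      set pbb := (IP h (Y (j + 1)) (Y (j + 1)) : ℝ)
      set pbc := (IP h (Y (j + 1)) (Y (j + 1 + 1)) : ℝ)
      rw [eq_div_iff ia] at s1 s2
      have k1 : paa * (s * M) = paa * (pbb * A - pab * A') := by
        have : paa * (s * M) = s * (M * paa) := by ring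
        rw [this, s2]
        have h3 : s * (pab * B + s * A) = pab * (s * B) + (s * s) * A := by ring
        rw [h3, sq]
        have h4 : s * B = pab * A - A' * paa := by linarith
        rw [h4]
        ring
      have k2 : s * M = pbb * A - pab * A' := mul_left_cancel₀ ia k1
      have k3 : s * (A'' * pbb) = s * (pbc * A' - t * M) := by
        have : s * (pbc * A' - t * M) = s * pbc * A' - t * (s * M) := by ring
        rw [this, k2]
        linarith
      exact mul_left_cancel₀ sp.ne' k3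
  intro j hj
  rcases Nat.lt_or_ge j n with h1 | h1
  · exact (main j h1).1
  · have hjn : j = n := le_antisymm hj h1
    have := (main (n - 1) (by omega)).2
    rw [Nat.sub_add_cancel hn] at this
    rw [hjn]; exact this

end

end QGd
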