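import Pool.Agent.Lib_MP_6b5565_dg.R1b

/-! [DG-R2] algebra of a run: upper bound of the degree of `z_n` -/

namespace QGd

open Polynomial ComplexConjugate

noncomputable section

open IntermediateField in
private theorem finrank_real (a : ℝ) (ha : IsAlgebraic ℚ a) :
    Module.finrank ℚ ℚ⟮(a : ℂ)⟯ = (minpoly ℚ a).natDegree ∧ FiniteDimensional ℚ ℚ⟮(a : ℂ)⟯ := by
  have h1 : IsIntegral ℚ a := ha.isIntegral
  have h2 : IsIntegral ℚ (a : ℂ) := h1.map (IsScalarTower.toAlgHom ℚ ℝ ℂ)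
  refine ⟨?_, adjoin.finiteDimensional h2⟩
  rw [adjoin.finrank h2]
  have h3 : minpoly ℚ (algebraMap ℝ ℂ a) = minpoly ℚ a :=
    minpoly.algebraMap_eq (algebraMap ℝ ℂ).injective a
  exact congrArg natDegree h3

open IntermediateField in
private theorem quad_upper (F : IntermediateField ℚ ℂ) [FiniteDimensional ℚ F] (z : ℂ)
    (u v t : ℂ) (hu : u ∈ F) (hv : v ∈ F) (ht : t ∈ F) (hu0 : u ≠ 0)
    (h : u * z ^ 2 + v * z + t = 0) :
    IsAlgebraic ℚ z ∧ (minpoly ℚ z).natDegree ≤ Module.finrank ℚ F * 2 := by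
  let p : F[X] := C ⟨u, hu⟩ * X ^ 2 + C ⟨v, hv⟩ * X + C ⟨t, ht⟩
  have hu1 : (⟨u, hu⟩ : F) ≠ 0 := by
    intro h0
    exact hu0 (congrArg Subtype.val h0)
  have hp : p.natDegree = 2 := natDegree_quadratic hu1
  have hp0 : p ≠ 0 := by
    intro h0
    rw [h0, natDegree_zero] at hp
    omega
  have hr : aeval z p = 0 := by
    simp only [p, map_add, map_mul, aeval_C, map_pow, aeval_X]
    exact h
  have hzF : IsAlgebraic F z := ⟨p, hp0, hr⟩
  have hzF' : IsIntegral F z := hzF.isIntegral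
  have hd : (minpoly F z).natDegree ≤ 2 := by
    rw [← hp]
    exact natDegree_le_of_dvd (minpoly.dvd F z hr) hp0
  have hfin : FiniteDimensional F F⟮z⟯ := adjoin.finiteDimensional hzF'
  have hfr : Module.finrank F F⟮z⟯ ≤ 2 := by
    rw [adjoin.finrank hzF']
    exact hd
  have hfin2 : FiniteDimensional ℚ F⟮z⟯ := FiniteDimensional.trans ℚ F F⟮z⟯
  have hfr2 : Module.finrank ℚ F⟮z⟯ ≤ Module.finrank ℚ F * 2 := by
    rw [← Module.finrank_mul_finrank ℚ F F⟮z⟯]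
    exact Nat.mul_le_mul_left _ hfr
  have e : minpoly ℚ (algebraMap F⟮z⟯ ℂ (AdjoinSimple.gen F z)) =
      minpoly ℚ (AdjoinSimple.gen F z) :=
    minpoly.algebraMap_eq (algebraMap F⟮z⟯ ℂ).injective _
  rw [AdjoinSimple.algebraMap_gen] at e
  have hint : IsIntegral ℚ (AdjoinSimple.gen F z) := IsIntegral.of_finite ℚ _
  refine ⟨?_, ?_⟩
  · have h5 := hint.map (IsScalarTower.toAlgHom ℚ F⟮z⟯ ℂ)
    have h6 : (IsScalarTower.toAlgHom ℚ F⟮z⟯ ℂ) (AdjoinSimple.gen F z) = z :=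
      AdjoinSimple.algebraMap_gen F z
    rw [h6] at h5
    exact h5.isAlgebraic
  · rw [e]
    exact (minpoly.natDegree_le _).trans hfr2

open IntermediateField in
/-- [DG-R2a] Abstract form. `w ≠ 0`, `a = Re w`, `b = Re (z₁ w)`, `g = Re (z w)` real algebraic,
`z₁ = (c + i √D) / m` with rational `c, m ≠ 0, D > 0`, and `z conj z = q` rational. Then `z` is
algebraic of degree at most `4 deg a deg b deg g`: the field `F = ℚ(a, b, g, i √D)` has degree at most
`2 deg a deg b deg g`, contains `w` and `conj w` (`√D Im w = c Re w - m b`), and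
`w z² - 2 g z + conj w q = 0`. -/
theorem degree_upper (w z : ℂ) (a b g : ℝ) (c m D q : ℚ) (hw : w ≠ 0) (hm : m ≠ 0) (hD : 0 < D)
    (ha : IsAlgebraic ℚ a) (hb : IsAlgebraic ℚ b) (hg : IsAlgebraic ℚ g)
    (h1 : a = w.re) (h2 : b = ((((c : ℚ) : ℂ) + (Real.sqrt D : ℂ) * Complex.I) / (m : ℂ) * w).re)
    (h3 : g = (z * w).re) (h4 : z * conj z = (q : ℂ)) :
    IsAlgebraic ℚ z ∧ (minpoly ℚ z).natDegree ≤
      4 * ((minpoly ℚ a).natDegree * (minpoly ℚ b).natDegree * (minpoly ℚ g).natDegree) := by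
  obtain ⟨fa, fa'⟩ := finrank_real a ha
  obtain ⟨fb, fb'⟩ := finrank_real b hb
  obtain ⟨fg, fg'⟩ := finrank_real g hg
  set s : ℂ := (Real.sqrt D : ℂ) * Complex.I with hs
  have hDR : (0 : ℝ) < (D : ℝ) := by exact_mod_cast hD
  have hs2 : s ^ 2 = -(D : ℂ) := by
    have h5 : ((Real.sqrt D : ℝ) : ℂ) ^ 2 = ((D : ℝ) : ℂ) := by
      rw [← Complex.ofReal_pow, Real.sq_sqrt hDR.le]
    rw [hs, mul_pow, Complex.I_sq, h5]
    push_cast
    ring
  let ps : ℚ[X] := X ^ 2 + C D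
  have hps : ps.Monic := by
    show (X ^ 2 + C D : ℚ[X]).Monic
    exact monic_X_pow_add_C D two_ne_zero
  have hps2 : ps.natDegree = 2 := natDegree_X_pow_add_C
  have hsr : aeval s ps = 0 := by
    simp only [ps, map_add, map_pow, aeval_X, aeval_C, hs2]
    simp
  have hsi : IsIntegral ℚ s := ⟨ps, hps, hsr⟩
  have fs' : FiniteDimensional ℚ ℚ⟮s⟯ := adjoin.finiteDimensional hsi
  have fs : Module.finrank ℚ ℚ⟮s⟯ ≤ 2 := by
    rw [adjoin.finrank hsi, ← hps2]
    exact natDegree_le_of_dvd (minpoly.dvd ℚ s hsr) hps.ne_zero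
  let F : IntermediateField ℚ ℂ := ((ℚ⟮(a : ℂ)⟯ ⊔ ℚ⟮(b : ℂ)⟯) ⊔ ℚ⟮(g : ℂ)⟯) ⊔ ℚ⟮s⟯
  have hF : Module.finrank ℚ F ≤
      (minpoly ℚ a).natDegree * (minpoly ℚ b).natDegree * (minpoly ℚ g).natDegree * 2 := by
    refine (finrank_sup_le _ _).trans (Nat.mul_le_mul ?_ fs)
    refine (finrank_sup_le _ _).trans (Nat.mul_le_mul ?_ fg.le)
    refine (finrank_sup_le _ _).trans (Nat.mul_le_mul fa.le fb.le)
  have hFf : FiniteDimensional ℚ F := by
    infer_instance
  have la : (a : ℂ) ∈ F :=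
    (le_sup_left.trans (le_sup_left.trans le_sup_left) : ℚ⟮(a : ℂ)⟯ ≤ F) (mem_adjoin_simple_self ℚ _)
  have lb : (b : ℂ) ∈ F :=
    (le_sup_right.trans (le_sup_left.trans le_sup_left) : ℚ⟮(b : ℂ)⟯ ≤ F) (mem_adjoin_simple_self ℚ _)
  have lg : (g : ℂ) ∈ F :=
    (le_sup_right.trans le_sup_left : ℚ⟮(g : ℂ)⟯ ≤ F) (mem_adjoin_simple_self ℚ _)
  have ls : s ∈ F := (le_sup_right : ℚ⟮s⟯ ≤ F) (mem_adjoin_simple_self ℚ _)
  have lq : ∀ x : ℚ, (x : ℂ) ∈ F := by
    intro x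
    have := F.algebraMap_mem x
    simpa using this
  -- the imaginary part of `w`
  have hmR : (m : ℝ) ≠ 0 := by exact_mod_cast hm
  have hmC : (m : ℂ) ≠ 0 := by exact_mod_cast hm
  have hre : (m : ℝ) * b = c * w.re - Real.sqrt D * w.im := by
    have e1 : ((((c : ℚ) : ℂ) + s) / (m : ℂ) * w) =
        ((1 / (m : ℝ) : ℝ) : ℂ) * ((((c : ℝ) : ℂ) + (Real.sqrt D : ℂ) * Complex.I) * w) := by
      rw [hs]
      push_cast
      field_simp
    rw [h2, e1, Complex.re_ofReal_mul]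
    have e2 : ((((c : ℝ) : ℂ) + (Real.sqrt D : ℂ) * Complex.I) * w).re =
        c * w.re - Real.sqrt D * w.im := by
      simp [Complex.mul_re, Complex.add_re, Complex.add_im, Complex.mul_im]
    rw [e2]
    field_simp
  have hsq : Real.sqrt D * Real.sqrt D = D := Real.mul_self_sqrt hDR.le
  have him : (w.im : ℂ) * Complex.I = s * ((c : ℂ) * a - (m : ℂ) * b) / D := by
    have hDC : (D : ℂ) ≠ 0 := by exact_mod_cast hD.ne'
    rw [eq_div_iff hDC]
    have e1 : Real.sqrt D * w.im = c * a - m * b := by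
      rw [h1]
      linarith
    have e2 : ((Real.sqrt D * w.im : ℝ) : ℂ) = (c : ℂ) * a - (m : ℂ) * b := by
      rw [e1]
      push_cast
      ring
    rw [← e2, hs]
    push_cast
    have e3 : ((Real.sqrt D : ℝ) : ℂ) * ((Real.sqrt D : ℝ) : ℂ) = (D : ℂ) := by
      rw [← Complex.ofReal_mul, hsq]
      push_cast
      rfl
    linear_combination (-(w.im : ℂ) * Complex.I) * e3
  have lim : (w.im : ℂ) * Complex.I ∈ F := by
    rw [him]
    exact F.div_mem (F.mul_mem ls (F.sub_mem (F.mul_mem (lq c) la) (F.mul_mem (lq m) lb))) (lq D)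
  have lw : w ∈ F := by
    have : w = (a : ℂ) + (w.im : ℂ) * Complex.I := by
      rw [h1]
      exact (Complex.re_add_im w).symm
    rw [this]
    exact F.add_mem la lim
  have lcw : conj w ∈ F := by
    have : conj w = (a : ℂ) - (w.im : ℂ) * Complex.I := by
      rw [h1]
      apply Complex.ext <;> simp
    rw [this]
    exact F.sub_mem la lim
  have hgz : z * w + conj z * conj w = 2 * (g : ℂ) := by
    rw [h3]
    have := Complex.add_conj (z * w)
    rw [map_mul] at this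
    rw [this]
    push_cast
    ring
  have hquad : w * z ^ 2 + (-(2 * (g : ℂ))) * z + conj w * (q : ℂ) = 0 := by
    linear_combination z * hgz - conj w * h4
  have l2 : (2 : ℂ) ∈ F := by
    have := lq 2
    simpa using this
  obtain ⟨k1, k2⟩ := quad_upper F z w (-(2 * (g : ℂ))) (conj w * (q : ℂ)) lw
    (F.neg_mem (F.mul_mem l2 lg)) (F.mul_mem lcw (lq q)) hw hquad
  refine ⟨k1, k2.trans ?_⟩
  have := Nat.mul_le_mul_right 2 hF
  linarith

open IntermediateField in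
/-- [DG-R2b] `x` and `1/x` have the same degree -/
theorem degree_inv (x : ℝ) (hx : x ≠ 0) (ha : IsAlgebraic ℚ x) :
    (minpoly ℚ (1 / x)).natDegree = (minpoly ℚ x).natDegree := by
  have h1 : IsIntegral ℚ x := ha.isIntegral
  have h2 : IsIntegral ℚ x⁻¹ := ha.inv.isIntegral
  rw [one_div, ← adjoin.finrank h1, ← adjoin.finrank h2]
  have e : ℚ⟮x⁻¹⟯ = ℚ⟮x⟯ := by
    apply le_antisymm
    · rw [adjoin_simple_le_iff]
      exact ℚ⟮x⟯.inv_mem (mem_adjoin_simple_self ℚ x)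
    · rw [adjoin_simple_le_iff]
      have := ℚ⟮x⁻¹⟯.inv_mem (mem_adjoin_simple_self ℚ x⁻¹)
      rwa [inv_inv] at this
  rw [e]

end

end QGd
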