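import Pool.Agent.Lib_MP_6b5565_dg.AlgDefs

/-! [DG-R3] algebra of a run: multiquadratic fields -/

namespace QGd

open Polynomial ComplexConjugate

noncomputable section

/-- the square root `i √D` of `-D` -/
def isq (D : ℤ) : ℂ := (Real.sqrt (D : ℝ) : ℂ) * Complex.I

/-- elements of `F(s)`, `s² ∈ F`, `s ∉ F` -/
private theorem adjoin_sq_mem (F : IntermediateField ℚ ℂ) (X : Set ℂ)
    (hX : X ⊆ (F : Set ℂ)) (s : ℂ) (D : ℚ) (hs : s ^ 2 = (D : ℂ)) (hsF : s ∉ F) (x : ℂ)
    (hx : x ∈ IntermediateField.adjoin ℚ (insert s X)) :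
    ∃ u ∈ F, ∃ v ∈ F, x = u + v * s := by
  have hDF : (D : ℂ) ∈ F := by
    have := F.algebraMap_mem D
    simpa using this
  refine IntermediateField.adjoin_induction (F := ℚ) (s := insert s X)
    (p := fun x _ => ∃ u ∈ F, ∃ v ∈ F, x = u + v * s) ?_ ?_ ?_ ?_ ?_ hx
  · intro y hy
    rcases hy with hy | hy
    · exact ⟨0, F.zero_mem, 1, F.one_mem, by rw [hy]; ring⟩
    · exact ⟨y, hX hy, 0, F.zero_mem, by ring⟩
  · intro q
    exact ⟨_, F.algebraMap_mem q, 0, F.zero_mem, by ring⟩
  · rintro y z _ _ ⟨u, hu, v, hv, rfl⟩ ⟨u', hu', v', hv', rfl⟩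
    exact ⟨u + u', F.add_mem hu hu', v + v', F.add_mem hv hv', by ring⟩
  · rintro y _ ⟨u, hu, v, hv, rfl⟩
    by_cases h0 : u + v * s = 0
    · exact ⟨0, F.zero_mem, 0, F.zero_mem, by rw [h0]; simp⟩
    · have hN : u ^ 2 - v ^ 2 * (D : ℂ) ≠ 0 := by
        intro hN
        have h1 : (u + v * s) * (u - v * s) = 0 := by
          rw [← hs] at hN
          linear_combination hN
        have h2 : u - v * s = 0 := by
          rcases mul_eq_zero.mp h1 with h | h
          · exact absurd h h0
          · exact h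
        by_cases hv0 : v = 0
        · apply h0
          rw [hv0] at h2 ⊢
          linear_combination h2
        · apply hsF
          have : s = u / v := by
            field_simp
            linear_combination -h2
          rw [this]
          exact F.div_mem hu hv
      have hNF : u ^ 2 - v ^ 2 * (D : ℂ) ∈ F :=
        F.sub_mem (F.pow_mem hu 2) (F.mul_mem (F.pow_mem hv 2) hDF)
      refine ⟨u / (u ^ 2 - v ^ 2 * (D : ℂ)), F.div_mem hu hNF,
        -v / (u ^ 2 - v ^ 2 * (D : ℂ)), F.div_mem (F.neg_mem hv) hNF, ?_⟩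
      field_simp
      rw [← hs]
      ring
  · rintro y z _ _ ⟨u, hu, v, hv, rfl⟩ ⟨u', hu', v', hv', rfl⟩
    refine ⟨u * u' + v * v' * (D : ℂ), F.add_mem (F.mul_mem hu hu')
      (F.mul_mem (F.mul_mem hv hv') hDF), u * v' + v * u',
      F.add_mem (F.mul_mem hu hv') (F.mul_mem hv hu'), ?_⟩
    rw [← hs]
    ring

/-- [DG-R3a] KUMMER. If the square root `r` of the rational number `d` is in the field generated over
`ℚ` by square roots `s i` of the rational numbers `D i` (`i ∈ S`), then `d ∏_{i ∈ T} D i` is a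
rational square for some `T ⊆ S` (induction on `S`: `r ∈ F(s)`, `r = u + v s`, `r² = d` gives
`u v = 0` if `s ∉ F`; if `u = 0` then `d D = (v D)²`, a root of which is in `F`). -/
theorem kummer {ι : Type} [DecidableEq ι] (S : Finset ι) (D : ι → ℚ) (s : ι → ℂ)
    (hs : ∀ i ∈ S, s i ^ 2 = (D i : ℂ)) (hD : ∀ i ∈ S, D i ≠ 0) (d : ℚ) (r : ℂ)
    (hr : r ^ 2 = (d : ℂ)) (hmem : r ∈ IntermediateField.adjoin ℚ (s '' (S : Set ι))) :
    ∃ T ⊆ S, IsSquare (d * ∏ i ∈ T, D i) := by
  induction S using Finset.induction_on generalizing d r with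
  | empty =>
    refine ⟨∅, Finset.Subset.refl _, ?_⟩
    simp only [Finset.coe_empty, Set.image_empty, IntermediateField.adjoin_empty] at hmem
    rw [IntermediateField.mem_bot] at hmem
    obtain ⟨q, hq⟩ := hmem
    refine ⟨q, ?_⟩
    have h1 : ((q * q : ℚ) : ℂ) = (d : ℂ) := by
      rw [← hr, ← hq]
      push_cast
      simp [sq]
    have h2 : q * q = d := by exact_mod_cast h1
    simp [h2]
  | insert a S ha ih =>
    have hs' : ∀ i ∈ S, s i ^ 2 = (D i : ℂ) := fun i hi => hs i (Finset.mem_insert_of_mem hi)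
    have hD' : ∀ i ∈ S, D i ≠ 0 := fun i hi => hD i (Finset.mem_insert_of_mem hi)
    have ih' := ih hs' hD'
    rw [Finset.coe_insert, Set.image_insert_eq] at hmem
    set F := IntermediateField.adjoin ℚ (s '' (S : Set ι)) with hF
    have hXF : s '' (S : Set ι) ⊆ (F : Set ℂ) := IntermediateField.subset_adjoin ℚ _
    by_cases hsF : s a ∈ F
    · have h1 : IntermediateField.adjoin ℚ (insert (s a) (s '' (S : Set ι))) ≤ F := by
        rw [IntermediateField.adjoin_le_iff]
        intro y hy
        rcases hy with hy | hy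
        · rw [hy]; exact hsF
        · exact hXF hy
      obtain ⟨T, hT, hq⟩ := ih' d r hr (h1 hmem)
      exact ⟨T, hT.trans (Finset.subset_insert a S), hq⟩
    · have hsa : s a ^ 2 = (D a : ℂ) := hs a (Finset.mem_insert_self a S)
      obtain ⟨u, hu, v, hv, hruv⟩ := adjoin_sq_mem F (s '' (S : Set ι)) hXF (s a) (D a) hsa hsF
        r hmem
      have hDF : (D a : ℂ) ∈ F := by
        have := F.algebraMap_mem (D a)
        simpa using this
      have hdF : (d : ℂ) ∈ F := by
        have := F.algebraMap_mem d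
        simpa using this
      have huv : u * v = 0 := by
        by_contra huv
        apply hsF
        have h2 : (2 : ℂ) * (u * v) ≠ 0 := mul_ne_zero two_ne_zero huv
        have : s a = ((d : ℂ) - u ^ 2 - v ^ 2 * (D a : ℂ)) / (2 * (u * v)) := by
          rw [eq_div_iff h2, ← hr, ← hsa, hruv]
          ring
        rw [this]
        have h2F : (2 : ℂ) ∈ F := by
          have := F.algebraMap_mem 2
          simpa using this
        exact F.div_mem (F.sub_mem (F.sub_mem hdF (F.pow_mem hu 2))
          (F.mul_mem (F.pow_mem hv 2) hDF)) (F.mul_mem h2F (F.mul_mem hu hv))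
      rcases mul_eq_zero.mp huv with h0 | h0
      · have h1 : (r * s a) ^ 2 = ((d * D a : ℚ) : ℂ) := by
          rw [mul_pow, hr, hsa]
          push_cast
          ring
        have h2 : r * s a ∈ F := by
          have : r * s a = v * (D a : ℂ) := by
            rw [hruv, h0, ← hsa]
            ring
          rw [this]
          exact F.mul_mem hv hDF
        obtain ⟨T, hT, hq⟩ := ih' (d * D a) (r * s a) h1 h2
        refine ⟨insert a T, Finset.insert_subset_insert a hT, ?_⟩
        rw [Finset.prod_insert (fun h => ha (hT h)), ← mul_assoc]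
        exact hq
      · have h1 : r ∈ F := by
          rw [hruv, h0]
          simpa using hu
        obtain ⟨T, hT, hq⟩ := ih' d r hr h1
        exact ⟨T, hT.trans (Finset.subset_insert a S), hq⟩

end

end QGd
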