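import Pool.Agent.Lib_MP_6b5565_dg.R3

/-! [DG-R3b] algebra of a run: multiquadratic fields -/

namespace QGd

open Polynomial ComplexConjugate

noncomputable section

/-- [DG-R3b] an odd valuation excludes squares -/
theorem not_square (ℓ : ℕ) (hℓ : ℓ.Prime) (D : ℕ → ℤ) (T : Finset ℕ) (j : ℕ) (hj : j ∉ T)
    (h0 : ∀ i ∈ T, ¬ (ℓ : ℤ) ∣ D i) (h1 : Odd (padicValInt ℓ (D j))) (h2 : D j ≠ 0) :
    ¬ IsSquare ((-(D j : ℚ)) * ∏ i ∈ T, (-(D i : ℚ))) := by
  haveI : Fact ℓ.Prime := ⟨hℓ⟩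
  have key : ∀ S : Finset ℕ, (∀ i ∈ S, ¬ (ℓ : ℤ) ∣ D i) →
      (∏ i ∈ S, (-(D i : ℚ))) ≠ 0 ∧ padicValRat ℓ (∏ i ∈ S, (-(D i : ℚ))) = 0 := by
    intro S
    induction S using Finset.induction_on with
    | empty =>
      intro _
      simp
    | insert a S ha ih =>
      intro hS
      obtain ⟨i1, i2⟩ := ih fun i hi => hS i (Finset.mem_insert_of_mem hi)
      have ha0 := hS a (Finset.mem_insert_self a S)
      have hne : D a ≠ 0 := by
        intro h
        exact ha0 (h ▸ dvd_zero _)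
      have hq : (-(D a : ℚ)) ≠ 0 := neg_ne_zero.2 (by exact_mod_cast hne)
      rw [Finset.prod_insert ha]
      refine ⟨mul_ne_zero hq i1, ?_⟩
      rw [padicValRat.mul hq i1, i2, padicValRat.neg, padicValRat.of_int,
        padicValInt.eq_zero_of_not_dvd ha0]
      simp
  obtain ⟨i1, i2⟩ := key T h0
  rintro ⟨x, hx⟩
  have hq : (-(D j : ℚ)) ≠ 0 := neg_ne_zero.2 (by exact_mod_cast h2)
  have hx0 : x ≠ 0 := by
    rintro rfl
    rw [mul_zero] at hx
    exact mul_ne_zero hq i1 hx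
  have e1 : padicValRat ℓ ((-(D j : ℚ)) * ∏ i ∈ T, (-(D i : ℚ))) = (padicValInt ℓ (D j) : ℤ) := by
    rw [padicValRat.mul hq i1, i2, padicValRat.neg, padicValRat.of_int, add_zero]
  rw [hx, padicValRat.mul hx0 hx0] at e1
  obtain ⟨k, hk⟩ := h1
  rw [hk] at e1
  push_cast at e1
  omega

end

end QGd
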