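import Pool.Agent.Lib_MP_6b5565_dg.R3b

/-! [DG-R3c] algebra of a run: multiquadratic fields -/

namespace QGd

open Polynomial ComplexConjugate

noncomputable section

/-- an automorphism of the fields: `r` and `-r` are conjugate over `F` if `r ∉ F`, `r² ∈ F` -/
private theorem r3c_hom (F : IntermediateField ℚ ℂ) (r : ℂ) (d : ℚ) (hr : r ^ 2 = (d : ℂ))
    (hn : r ∉ F) : ∃ φ : (IntermediateField.adjoin F {r}) →+* ℂ,
      (∀ (x : ℂ) (hx : x ∈ IntermediateField.adjoin F {r}), x ∈ F → φ ⟨x, hx⟩ = x) ∧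
      (∀ (hx : r ∈ IntermediateField.adjoin F {r}), φ ⟨r, hx⟩ = -r) := by
  have hq : (X ^ 2 - C ((algebraMap ℚ F) d) : F[X]).Monic := monic_X_pow_sub_C _ (by norm_num)
  have hd : algebraMap F ℂ (algebraMap ℚ F d) = (d : ℂ) := by
    rw [← IsScalarTower.algebraMap_apply ℚ F ℂ]
    simp
  have hroot : aeval r (X ^ 2 - C ((algebraMap ℚ F) d) : F[X]) = 0 := by
    rw [map_sub, map_pow, aeval_X, aeval_C, hd, hr, sub_self]
  have hint : IsIntegral F r := ⟨_, hq, hroot⟩
  have hdvd : minpoly F r ∣ (X ^ 2 - C ((algebraMap ℚ F) d) : F[X]) := minpoly.dvd F r hroot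
  have hdeg : 2 ≤ (minpoly F r).natDegree := by
    rw [minpoly.two_le_natDegree_iff hint]
    rintro ⟨y, hy⟩
    apply hn
    rw [← hy]
    exact y.2
  have hm : (X ^ 2 - C ((algebraMap ℚ F) d) : F[X]) = minpoly F r := by
    refine eq_of_monic_of_dvd_of_natDegree_le (minpoly.monic hint) hq hdvd ?_
    rw [natDegree_X_pow_sub_C]
    exact hdeg
  have hneg : -r ∈ (minpoly F r).aroots ℂ := by
    rw [mem_aroots]
    refine ⟨minpoly.ne_zero hint, ?_⟩
    rw [← hm, map_sub, map_pow, aeval_X, aeval_C, hd, neg_sq, hr, sub_self]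
  refine ⟨((IntermediateField.algHomAdjoinIntegralEquiv F hint).symm ⟨-r, hneg⟩).toRingHom,
    fun x hx hF => ?_, fun hx => ?_⟩
  · have := ((IntermediateField.algHomAdjoinIntegralEquiv F hint).symm ⟨-r, hneg⟩).commutes ⟨x, hF⟩
    exact this
  · exact IntermediateField.algHomAdjoinIntegralEquiv_symm_apply_gen F hint ⟨-r, hneg⟩

/-- [DG-R3c] AUTOMORPHISMS. In the field generated by the `isq (D i)`, `i < n`: for `j ∈ J` there is
an automorphism which changes the sign of `isq (D j)` and fixes the others (`j`-th root is quadratic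
over the field of the others by `kummer`, `not_square`). Stated with one embedding into `ℂ`. -/
theorem exists_flip (n : ℕ) (D : ℕ → ℤ) (hD : ∀ i < n, 0 < D i) (J : Finset ℕ)
    (hJ : ∀ j ∈ J, j < n) (hp : ∀ j ∈ J, ∃ ℓ : ℕ, ℓ.Prime ∧ Odd (padicValInt ℓ (D j)) ∧
      ∀ i < n, i ≠ j → ¬ (ℓ : ℤ) ∣ D i) (j : ℕ) (hj : j ∈ J) :
    ∃ σ : (IntermediateField.adjoin ℚ ((fun i => isq (D i)) '' (Set.Iio n))) ≃ₐ[ℚ]
        (IntermediateField.adjoin ℚ ((fun i => isq (D i)) '' (Set.Iio n))),
      ∀ (i : ℕ) (hi : i < n) (x : IntermediateField.adjoin ℚ ((fun i => isq (D i)) '' (Set.Iio n))),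
        (x : ℂ) = isq (D i) → ((σ x : _) : ℂ) = if i = j then -isq (D i) else isq (D i) := by
  have hjn : j < n := hJ j hj
  have hsq : ∀ i < n, isq (D i) ^ 2 = ((-(D i : ℚ) : ℚ) : ℂ) := by
    intro i hi
    have h1 : (0 : ℝ) ≤ (D i : ℝ) := by exact_mod_cast (hD i hi).le
    have h2 : ((Real.sqrt (D i : ℝ) : ℝ) : ℂ) ^ 2 = (D i : ℂ) := by
      rw [← Complex.ofReal_pow, Real.sq_sqrt h1]
      simp
    unfold isq
    rw [mul_pow, h2, Complex.I_sq]
    push_cast
    ring
  have hn : isq (D j) ∉ IntermediateField.adjoin ℚ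
      ((fun i => isq (D i)) '' (((Finset.range n).erase j : Finset ℕ) : Set ℕ)) := by
    intro hmem
    obtain ⟨ℓ, hℓ, hodd, hnd⟩ := hp j hj
    obtain ⟨T, hT, hs⟩ := kummer ((Finset.range n).erase j) (fun i => -(D i : ℚ))
      (fun i => isq (D i)) (fun i hi => hsq i (Finset.mem_range.1 (Finset.mem_erase.1 hi).2))
      (fun i hi => by
        have := hD i (Finset.mem_range.1 (Finset.mem_erase.1 hi).2)
        have h0 : (D i : ℚ) ≠ 0 := by exact_mod_cast this.ne'
        exact neg_ne_zero.2 h0) (-(D j : ℚ)) (isq (D j)) (hsq j hjn) hmem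
    refine not_square ℓ hℓ D T j (fun h => ?_) (fun i hi => ?_) hodd (hD j hjn).ne' hs
    · exact (Finset.mem_erase.1 (hT h)).1 rfl
    · have := Finset.mem_erase.1 (hT hi)
      exact hnd i (Finset.mem_range.1 this.2) this.1
  obtain ⟨φ, h1, h2⟩ := r3c_hom _ (isq (D j)) (-(D j : ℚ)) (hsq j hjn) hn
  have hF : ∀ i < n, i ≠ j → isq (D i) ∈ IntermediateField.adjoin ℚ
      ((fun i => isq (D i)) '' (((Finset.range n).erase j : Finset ℕ) : Set ℕ)) := by
    intro i hi hij
    refine IntermediateField.subset_adjoin _ _ ⟨i, ?_, rfl⟩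
    simp [hi, hij]
  generalize hFd : IntermediateField.adjoin ℚ
      ((fun i => isq (D i)) '' (((Finset.range n).erase j : Finset ℕ) : Set ℕ)) = F at *
  have hLE : ∀ x ∈ IntermediateField.adjoin ℚ ((fun i => isq (D i)) '' (Set.Iio n)),
      x ∈ IntermediateField.adjoin F {isq (D j)} := by
    have : IntermediateField.adjoin ℚ ((fun i => isq (D i)) '' (Set.Iio n)) ≤
        (IntermediateField.adjoin F {isq (D j)}).restrictScalars ℚ := by
      rw [IntermediateField.adjoin_le_iff]
      rintro _ ⟨i, hi, rfl⟩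
      by_cases hij : i = j
      · subst hij
        exact IntermediateField.mem_adjoin_simple_self F _
      · exact (IntermediateField.adjoin F {isq (D j)}).algebraMap_mem ⟨isq (D i), hF i hi hij⟩
    exact fun x hx => this hx
  have hmemL : ∀ i < n, isq (D i) ∈ IntermediateField.adjoin ℚ ((fun i => isq (D i)) '' (Set.Iio n)) :=
    fun i hi => IntermediateField.subset_adjoin _ _ ⟨i, hi, rfl⟩
  have hint : ∀ x ∈ ((fun i => isq (D i)) '' (Set.Iio n)), IsIntegral ℚ x := by
    rintro _ ⟨i, hi, rfl⟩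
    refine ⟨X ^ 2 - C (-(D i : ℚ)), monic_X_pow_sub_C _ (by norm_num), ?_⟩
    rw [eval₂_sub, eval₂_X_pow, eval₂_C, hsq i hi]
    simp
  have halg := IntermediateField.isAlgebraic_adjoin hint
  generalize hL : IntermediateField.adjoin ℚ ((fun i => isq (D i)) '' (Set.Iio n)) = L at *
  let f : L →+* ℂ := φ.comp
    { toFun := fun x => ⟨x, hLE x x.2⟩
      map_one' := rfl
      map_mul' := fun _ _ => rfl
      map_zero' := rfl
      map_add' := fun _ _ => rfl }
  have f1 : ∀ i < n, ∀ hx : isq (D i) ∈ L, i ≠ j → f ⟨isq (D i), hx⟩ = isq (D i) :=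
    fun i hi hx hij => h1 (isq (D i)) (hLE _ hx) (hF i hi hij)
  have f2 : ∀ hx : isq (D j) ∈ L, f ⟨isq (D j), hx⟩ = -isq (D j) := fun hx => h2 (hLE _ hx)
  have hfL : ∀ x : L, f x ∈ L := by
    rintro ⟨x, hx⟩
    have hx' := hx
    rw [← hL] at hx'
    have key : ∀ hx : x ∈ L, f ⟨x, hx⟩ ∈ L := by
      refine IntermediateField.adjoin_induction (F := ℚ) (s := (fun i => isq (D i)) '' (Set.Iio n))
        (p := fun x _ => ∀ hx : x ∈ L, f ⟨x, hx⟩ ∈ L) ?_ ?_ ?_ ?_ ?_ hx'
      · rintro _ ⟨i, hi, rfl⟩ hx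
        by_cases hij : i = j
        · subst hij
          rw [f2 hx]
          exact neg_mem hx
        · have := f1 i hi hx hij
          simp only at this ⊢
          rw [this]
          exact hx
      · intro q hx
        have e : f ⟨algebraMap ℚ ℂ q, hx⟩ = (q : ℂ) := by
          have : (⟨algebraMap ℚ ℂ q, hx⟩ : L) = ((q : ℚ) : L) := by
            apply Subtype.ext
            simp
          rw [this, map_ratCast]
        rw [e]
        have := hx
        rwa [eq_ratCast] at this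
      · intro x y hx hy px py hxy
        rw [hL] at hx hy
        have e : f ⟨x + y, hxy⟩ = f ⟨x, hx⟩ + f ⟨y, hy⟩ := by
          rw [← map_add]
          rfl
        rw [e]
        exact add_mem (px hx) (py hy)
      · intro x hx px hxi
        rw [hL] at hx
        have e : f ⟨x⁻¹, hxi⟩ = (f ⟨x, hx⟩)⁻¹ := by
          rw [← map_inv₀]
          rfl
        rw [e]
        exact inv_mem (px hx)
      · intro x y hx hy px py hxy
        rw [hL] at hx hy
        have e : f ⟨x * y, hxy⟩ = f ⟨x, hx⟩ * f ⟨y, hy⟩ := by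
          rw [← map_mul]
          rfl
        rw [e]
        exact mul_mem (px hx) (py hy)
    exact key hx
  let g : L →ₐ[ℚ] L := RingHom.toRatAlgHom
    { toFun := fun x => ⟨f x, hfL x⟩
      map_one' := Subtype.ext (map_one f)
      map_mul' := fun x y => Subtype.ext (map_mul f x y)
      map_zero' := Subtype.ext (map_zero f)
      map_add' := fun x y => Subtype.ext (map_add f x y) }
  have hbij : Function.Bijective g := by
    have h3 : @Algebra.IsAlgebraic ℚ L _ _ _ := halg
    exact Algebra.IsAlgebraic.algHom_bijective (K := ℚ) (L := L) g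
  refine ⟨AlgEquiv.ofBijective g hbij, ?_⟩
  intro i hi x hx
  have hval : ((AlgEquiv.ofBijective g hbij x : L) : ℂ) = f x := rfl
  rw [hval]
  have hxe : x = ⟨isq (D i), hmemL i hi⟩ := Subtype.ext hx
  rw [hxe]
  by_cases hij : i = j
  · subst hij
    rw [if_pos rfl]
    exact f2 _
  · rw [if_neg hij]
    exact f1 i hi _ hij

end

end QGd
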