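import Pool.Agent.Lib_MP_6b5565_dg.R3c

/-! [DG-R3d] algebra of a run: multiquadratic fields -/

namespace QGd

open Polynomial ComplexConjugate

noncomputable section

private theorem isq_im_r3d (a : ℤ) : (isq a).im = Real.sqrt (a : ℝ) := by
  simp [isq]

private theorem isq_re_r3d (a : ℤ) : (isq a).re = 0 := by
  simp [isq]

private theorem factor_ne_r3d (c a : ℤ) (ha : 0 < a) (P : Prop) [Decidable P] :
    (c : ℂ) + (if P then -isq a else isq a) ≠ 0 := by
  have h1 : 0 < Real.sqrt (a : ℝ) := Real.sqrt_pos.2 (by exact_mod_cast ha)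
  intro h
  have h2 := congrArg Complex.im h
  by_cases hP : P
  · rw [if_pos hP, Complex.add_im, Complex.neg_im, isq_im_r3d, Complex.intCast_im,
      Complex.zero_im] at h2
    linarith
  · rw [if_neg hP, Complex.add_im, isq_im_r3d, Complex.intCast_im, Complex.zero_im] at h2
    linarith

private theorem alg_r3d {K : Type*} [Field K] [CharZero K] (c s A A' : K) (hc : c ≠ 0) (hs : s ≠ 0)
    (hA : A ≠ 0) (hA' : A' ≠ 0) (h1 : (c + s) * A = (c + -s) * A')
    (h2 : (c + -s) * A = (c + s) * A') : False := by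
  have h3 : 4 * (c * s * (A * A')) = 0 := by
    linear_combination (c + s) * A' * h1 - (c - s) * A' * h2
  have h4 : (4 : K) ≠ 0 := by norm_num
  exact mul_ne_zero h4 (mul_ne_zero (mul_ne_zero hc hs) (mul_ne_zero hA hA')) h3

private theorem aux_r3d (n : ℕ) (c D : ℕ → ℤ) (hD : ∀ i < n, 0 < D i) (K : IntermediateField ℚ ℂ)
    (hmem : ∀ i < n, isq (D i) ∈ K) (S S' : Finset ℕ) (j : ℕ) (hj : j < n) (hc : c j ≠ 0)
    (σ : K ≃ₐ[ℚ] K) (hσ : ∀ (i : ℕ) (_ : i < n) (x : K), (x : ℂ) = isq (D i) →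
      ((σ x : K) : ℂ) = if i = j then -isq (D i) else isq (D i))
    (h1 : j ∈ S) (h2 : j ∉ S')
    (h : ∏ i ∈ Finset.range n, ((c i : ℂ) + (if i ∈ S then -isq (D i) else isq (D i))) =
      ∏ i ∈ Finset.range n, ((c i : ℂ) + (if i ∈ S' then -isq (D i) else isq (D i)))) : False := by
  classical
  let r : ℕ → K := fun i => if hi : i < n then ⟨isq (D i), hmem i hi⟩ else 0
  have hr : ∀ i < n, ((r i : K) : ℂ) = isq (D i) := by
    intro i hi
    simp only [r, dif_pos hi]
  have hσr : ∀ i < n, σ (r i) = if i = j then -r i else r i := by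
    intro i hi
    apply Subtype.ext
    rw [hσ i hi (r i) (hr i hi)]
    by_cases hij : i = j
    · rw [if_pos hij, if_pos hij]
      change _ = -((r i : K) : ℂ)
      rw [hr i hi]
    · rw [if_neg hij, if_neg hij, hr i hi]
  let A : Finset ℕ → K := fun S => ∏ i ∈ (Finset.range n).erase j,
    ((c i : K) + (if i ∈ S then -r i else r i))
  have hjn : j ∈ Finset.range n := Finset.mem_range.2 hj
  have hfac : ∀ (S : Finset ℕ), ∀ i < n,
      (((c i : K) + (if i ∈ S then -r i else r i) : K) : ℂ) =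
        (c i : ℂ) + (if i ∈ S then -isq (D i) else isq (D i)) := by
    intro S i hi
    by_cases hiS : i ∈ S
    · rw [if_pos hiS, if_pos hiS]
      push_cast
      rw [hr i hi]
    · rw [if_neg hiS, if_neg hiS]
      push_cast
      rw [hr i hi]
  have hA0 : ∀ S, A S ≠ 0 := by
    intro S
    refine Finset.prod_ne_zero_iff.2 fun i hi h0 => ?_
    have hi' : i < n := Finset.mem_range.1 (Finset.mem_of_mem_erase hi)
    refine factor_ne_r3d (c i) (D i) (hD i hi') (i ∈ S) ?_
    rw [← hfac S i hi', h0]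
    rfl
  have hσA : ∀ S, σ (A S) = A S := by
    intro S
    simp only [A, map_prod]
    refine Finset.prod_congr rfl fun i hi => ?_
    have hi' : i < n := Finset.mem_range.1 (Finset.mem_of_mem_erase hi)
    have hij : i ≠ j := Finset.ne_of_mem_erase hi
    rw [map_add, map_intCast]
    by_cases hiS : i ∈ S
    · rw [if_pos hiS, map_neg, hσr i hi', if_neg hij]
    · rw [if_neg hiS, hσr i hi', if_neg hij]
  have hsplit : ∀ S, ((((c j : K) + (if j ∈ S then -r j else r j)) * A S : K) : ℂ) =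
      ∏ i ∈ Finset.range n, ((c i : ℂ) + (if i ∈ S then -isq (D i) else isq (D i))) := by
    intro S
    rw [← Finset.mul_prod_erase _ _ hjn]
    have e1 : ((A S : K) : ℂ) = ∏ i ∈ (Finset.range n).erase j,
        ((c i : ℂ) + (if i ∈ S then -isq (D i) else isq (D i))) := by
      have : ((A S : K) : ℂ) = ∏ i ∈ (Finset.range n).erase j,
          (((c i : K) + (if i ∈ S then -r i else r i) : K) : ℂ) :=
        map_prod (algebraMap K ℂ) _ _
      rw [this]
      exact Finset.prod_congr rfl fun i hi =>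
        hfac S i (Finset.mem_range.1 (Finset.mem_of_mem_erase hi))
    rw [← e1, ← hfac S j hj]
    rfl
  have hz : ((c j : K) + -r j) * A S = ((c j : K) + r j) * A S' := by
    apply Subtype.ext
    have e1 := hsplit S
    have e2 := hsplit S'
    rw [if_pos h1] at e1
    rw [if_neg h2] at e2
    rw [e1, e2]
    exact h
  have hz' := congrArg σ hz
  rw [map_mul, map_mul, map_add, map_add, map_neg, map_intCast, hσA, hσA, hσr j hj,
    if_pos rfl, neg_neg] at hz'
  have hrj : r j ≠ 0 := by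
    intro h0
    have h3 : isq (D j) = 0 := by
      rw [← hr j hj, h0]
      rfl
    have h4 : 0 < Real.sqrt (D j : ℝ) := Real.sqrt_pos.2 (by exact_mod_cast hD j hj)
    have h5 := congrArg Complex.im h3
    rw [isq_im_r3d, Complex.zero_im] at h5
    linarith
  have hcj : (c j : K) ≠ 0 := by
    exact_mod_cast hc
  exact alg_r3d (c j : K) (r j) (A S) (A S') hcj hrj (hA0 S) (hA0 S') hz' hz

/-- [DG-R3d] DISTINCT CONJUGATES. For `S ⊆ J` let `z_S = ∏_{i<n} (c i ± isq (D i))`, sign `-` for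
`i ∈ S`. Different subsets of `J` give different numbers: otherwise, for some `j ∈ J` in exactly one of
the two sets, `(c_j + isq D_j)/(c_j - isq D_j) = (c_j² - D_j + 2 c_j isq D_j)/(c_j² + D_j)` would be in
the field of the other roots, so `isq (D j)` (`c_j ≠ 0`), contradiction to `exists_flip`. -/
theorem conj_inj (n : ℕ) (c D : ℕ → ℤ) (hD : ∀ i < n, 0 < D i) (J : Finset ℕ)
    (hJ : ∀ j ∈ J, j < n) (hc : ∀ j ∈ J, c j ≠ 0)
    (hp : ∀ j ∈ J, ∃ ℓ : ℕ, ℓ.Prime ∧ Odd (padicValInt ℓ (D j)) ∧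
      ∀ i < n, i ≠ j → ¬ (ℓ : ℤ) ∣ D i) (S S' : Finset ℕ) (hS : S ⊆ J) (hS' : S' ⊆ J)
    (h : ∏ i ∈ Finset.range n, ((c i : ℂ) + (if i ∈ S then -isq (D i) else isq (D i))) =
      ∏ i ∈ Finset.range n, ((c i : ℂ) + (if i ∈ S' then -isq (D i) else isq (D i)))) : S = S' := by
  have key : ∀ S S' : Finset ℕ, S ⊆ J → ∏ i ∈ Finset.range n,
      ((c i : ℂ) + (if i ∈ S then -isq (D i) else isq (D i))) =
      ∏ i ∈ Finset.range n, ((c i : ℂ) + (if i ∈ S' then -isq (D i) else isq (D i))) →
      S ⊆ S' := by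
    intro S S' hS h j hj
    by_contra hj'
    obtain ⟨σ, hσ⟩ := exists_flip n D hD J hJ hp j (hS hj)
    have hmem : ∀ i < n, isq (D i) ∈
        IntermediateField.adjoin ℚ ((fun i => isq (D i)) '' (Set.Iio n)) := fun i hi =>
      IntermediateField.subset_adjoin ℚ _ ⟨i, hi, rfl⟩
    exact aux_r3d n c D hD _ hmem S S' j (hJ j (hS hj)) (hc j (hS hj)) σ hσ hj hj' h
  exact Finset.Subset.antisymm (key S S' hS h) (key S' S hS' h.symm)

end

end QGd
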