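import Pool.Agent.Lib_MP_6b5565_dg.R3d

/-! [DG-R3e] algebra of a run: multiquadratic fields -/

namespace QGd

open Polynomial ComplexConjugate

noncomputable section

private theorem isq_sq_r3e (a : ℤ) (ha : 0 < a) : isq a ^ 2 = ((-a : ℤ) : ℂ) := by
  have h0 : (0 : ℝ) ≤ (a : ℝ) := by exact_mod_cast ha.le
  have h1 : ((Real.sqrt (a : ℝ) : ℝ) : ℂ) ^ 2 = ((a : ℝ) : ℂ) := by
    rw [← Complex.ofReal_pow, Real.sq_sqrt h0]
  unfold isq
  rw [mul_pow, h1, Complex.I_sq]
  push_cast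
  ring

private theorem isq_integral_r3e (a : ℤ) (ha : 0 < a) : IsIntegral ℚ (isq a) := by
  apply IsIntegral.of_pow (n := 2) (by norm_num)
  rw [isq_sq_r3e a ha]
  have : ((-a : ℤ) : ℂ) = algebraMap ℚ ℂ ((-a : ℤ) : ℚ) := by simp
  rw [this]
  exact isIntegral_algebraMap

private theorem flips_r3e (n : ℕ) (D : ℕ → ℤ) (K : IntermediateField ℚ ℂ)
    (J : Finset ℕ)
    (hf : ∀ j ∈ J, ∃ σ : K ≃ₐ[ℚ] K, ∀ (i : ℕ) (_ : i < n) (x : K), (x : ℂ) = isq (D i) →
      ((σ x : K) : ℂ) = if i = j then -isq (D i) else isq (D i)) (S : Finset ℕ) (hS : S ⊆ J) :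
    ∃ σ : K ≃ₐ[ℚ] K, ∀ (i : ℕ) (_ : i < n) (x : K), (x : ℂ) = isq (D i) →
      ((σ x : K) : ℂ) = if i ∈ S then -isq (D i) else isq (D i) := by
  classical
  induction S using Finset.induction_on with
  | empty =>
    refine ⟨AlgEquiv.refl, fun i hi x hx => ?_⟩
    simpa using hx
  | insert a S ha ih =>
    obtain ⟨σ, hσ⟩ := ih ((Finset.subset_insert a S).trans hS)
    obtain ⟨τ, hτ⟩ := hf a (hS (Finset.mem_insert_self a S))
    refine ⟨σ.trans τ, fun i hi x hx => ?_⟩
    have h1 := hσ i hi x hx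
    have h2 := hτ i hi x hx
    change ((τ (σ x) : K) : ℂ) = _
    by_cases hiS : i ∈ S
    · have hia : i ≠ a := fun h => ha (h ▸ hiS)
      have h3 : σ x = -x := by
        apply Subtype.ext
        rw [h1, if_pos hiS]
        change _ = -(x : ℂ)
        rw [hx]
      rw [h3, map_neg, if_pos (Finset.mem_insert_of_mem hiS)]
      change -((τ x : K) : ℂ) = _
      rw [h2, if_neg hia]
    · have h3 : σ x = x := by
        apply Subtype.ext
        rw [h1, if_neg hiS, hx]
      rw [h3, h2]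
      by_cases hia : i = a
      · rw [if_pos hia, if_pos (by rw [hia]; exact Finset.mem_insert_self a S)]
      · rw [if_neg hia, if_neg (by rw [Finset.mem_insert, not_or]; exact ⟨hia, hiS⟩)]

private theorem root_r3e (n : ℕ) (c D : ℕ → ℤ) (K : IntermediateField ℚ ℂ)
    (hmem : ∀ i < n, isq (D i) ∈ K) (S : Finset ℕ) (σ : K ≃ₐ[ℚ] K)
    (hσ : ∀ (i : ℕ) (_ : i < n) (x : K), (x : ℂ) = isq (D i) →
      ((σ x : K) : ℂ) = if i ∈ S then -isq (D i) else isq (D i)) (q : ℚ) (F : ℚ[X])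
    (hF : aeval ((q : ℂ) * ∏ i ∈ Finset.range n, ((c i : ℂ) + isq (D i))) F = 0) :
    aeval ((q : ℂ) * ∏ i ∈ Finset.range n,
      ((c i : ℂ) + (if i ∈ S then -isq (D i) else isq (D i)))) F = 0 := by
  classical
  let r : ℕ → K := fun i => if hi : i < n then ⟨isq (D i), hmem i hi⟩ else 0
  have hr : ∀ i < n, ((r i : K) : ℂ) = isq (D i) := by
    intro i hi
    simp only [r, dif_pos hi]
  let z : K := (algebraMap ℚ K q) * ∏ i ∈ Finset.range n, ((c i : K) + r i)
  have hz : algebraMap K ℂ z = (q : ℂ) * ∏ i ∈ Finset.range n, ((c i : ℂ) + isq (D i)) := by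
    simp only [z]
    rw [map_mul, map_prod, ← IsScalarTower.algebraMap_apply ℚ K ℂ]
    congr 1
    refine Finset.prod_congr rfl fun i hi => ?_
    rw [map_add, map_intCast]
    congr 1
    exact hr i (Finset.mem_range.1 hi)
  have hsz : algebraMap K ℂ (σ z) = (q : ℂ) * ∏ i ∈ Finset.range n,
      ((c i : ℂ) + (if i ∈ S then -isq (D i) else isq (D i))) := by
    simp only [z]
    rw [map_mul, map_mul, map_prod, map_prod, AlgEquiv.commutes,
      ← IsScalarTower.algebraMap_apply ℚ K ℂ]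
    congr 1
    refine Finset.prod_congr rfl fun i hi => ?_
    have hi' := Finset.mem_range.1 hi
    rw [map_add, map_intCast, map_add, map_intCast]
    congr 1
    exact hσ i hi' (r i) (hr i hi')
  rw [← hz, Polynomial.aeval_algebraMap_apply] at hF
  have h0 : aeval z F = 0 := by
    apply (algebraMap K ℂ).injective
    rw [hF, map_zero]
  rw [← hsz, Polynomial.aeval_algebraMap_apply]
  have h1 : aeval (σ z) F = σ (aeval z F) := by
    have := Polynomial.aeval_algHom_apply (σ : K →ₐ[ℚ] K) z F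
    simpa using this
  rw [h1, h0, map_zero, map_zero]

/-- [DG-R3e] LOWER BOUND: the product `∏ (c i + isq (D i))`, times a nonzero rational number, has
degree at least `2^|J|`: compositions of the flips send it to the `2^|J|` different numbers of
`conj_inj`, all roots of the minimal polynomial. -/
theorem degree_lower (n : ℕ) (c D : ℕ → ℤ) (hD : ∀ i < n, 0 < D i) (J : Finset ℕ)
    (hJ : ∀ j ∈ J, j < n) (hc : ∀ j ∈ J, c j ≠ 0)
    (hp : ∀ j ∈ J, ∃ ℓ : ℕ, ℓ.Prime ∧ Odd (padicValInt ℓ (D j)) ∧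
      ∀ i < n, i ≠ j → ¬ (ℓ : ℤ) ∣ D i) (q : ℚ) (hq : q ≠ 0) :
    2 ^ J.card ≤ (minpoly ℚ ((q : ℂ) * ∏ i ∈ Finset.range n, ((c i : ℂ) + isq (D i)))).natDegree := by
  classical
  have hmem : ∀ i < n, isq (D i) ∈
      IntermediateField.adjoin ℚ ((fun i => isq (D i)) '' (Set.Iio n)) := fun i hi =>
    IntermediateField.subset_adjoin ℚ _ ⟨i, hi, rfl⟩
  have hf := fun j (hj : j ∈ J) => exists_flip n D hD J hJ hp j hj
  have hint : IsIntegral ℚ ((q : ℂ) * ∏ i ∈ Finset.range n, ((c i : ℂ) + isq (D i))) := by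
    refine IsIntegral.mul ?_ ?_
    · have : (q : ℂ) = algebraMap ℚ ℂ q := rfl
      rw [this]
      exact isIntegral_algebraMap
    · refine IsIntegral.prod _ fun i hi => ?_
      refine IsIntegral.add ?_ (isq_integral_r3e _ (hD i (Finset.mem_range.1 hi)))
      have : ((c i : ℤ) : ℂ) = algebraMap ℚ ℂ ((c i : ℤ) : ℚ) := by simp
      rw [this]
      exact isIntegral_algebraMap
  set P : ℂ := (q : ℂ) * ∏ i ∈ Finset.range n, ((c i : ℂ) + isq (D i)) with hP
  have hne : minpoly ℚ P ≠ 0 := minpoly.ne_zero hint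
  have hmap : (minpoly ℚ P).map (algebraMap ℚ ℂ) ≠ 0 := by
    rwa [Ne, Polynomial.map_eq_zero]
  have hq0 : (q : ℂ) ≠ 0 := by exact_mod_cast hq
  have h1 : J.powerset.card ≤ ((minpoly ℚ P).map (algebraMap ℚ ℂ)).roots.toFinset.card := by
    apply Finset.card_le_card_of_injOn (fun S => (q : ℂ) * ∏ i ∈ Finset.range n,
      ((c i : ℂ) + (if i ∈ S then -isq (D i) else isq (D i))))
    · intro S hS
      have hS' : S ⊆ J := Finset.mem_powerset.1 hS
      obtain ⟨σ, hσ⟩ := flips_r3e n D _ J hf S hS'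
      have h2 := root_r3e n c D _ hmem S σ hσ q (minpoly ℚ P) (minpoly.aeval ℚ P)
      simp only [Finset.mem_coe, Multiset.mem_toFinset]
      rw [Polynomial.mem_roots hmap, Polynomial.IsRoot.def, Polynomial.eval_map_algebraMap]
      exact h2
    · intro S hS S' hS' h
      have h3 := mul_left_cancel₀ hq0 h
      exact conj_inj n c D hD J hJ hc hp S S' (Finset.mem_powerset.1 hS)
        (Finset.mem_powerset.1 hS') h3
  rw [Finset.card_powerset] at h1
  calc 2 ^ J.card ≤ _ := h1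
    _ ≤ Multiset.card ((minpoly ℚ P).map (algebraMap ℚ ℂ)).roots := Multiset.toFinset_card_le _
    _ ≤ ((minpoly ℚ P).map (algebraMap ℚ ℂ)).natDegree := Polynomial.card_roots' _
    _ = (minpoly ℚ P).natDegree := Polynomial.natDegree_map _

end

end QGd
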