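import Pool.Agent.Lib_MP_6b5565_dg.R2
import Pool.Agent.Lib_MP_6b5565_dg.R3e

/-! [DG-R4] the degree of the parameters of a run -/

namespace QGd

open EuclideanGeometry Polynomial

noncomputable section

/-- [DG-R4a] `z_n` as a rational multiple of a product -/
theorem zz_prod (h : Fin 3 → ℤ) (Y : ℕ → Fin 3 → ℤ) (n : ℕ) (h0 : ∀ j ≤ n, IP h (Y j) (Y j) ≠ 0) :
    ∃ q : ℚ, q ≠ 0 ∧ zz h Y n = (q : ℂ) * ∏ i ∈ Finset.range n,
      (((IP h (Y i) (Y (i + 1)) : ℤ) : ℂ) + isq (DD h (Y i) (Y (i + 1)))) := by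
  induction n with
  | zero => exact ⟨1, one_ne_zero, by simp [zz]⟩
  | succ n ih =>
    obtain ⟨q, hq, hz⟩ := ih fun j hj => h0 j (hj.trans (Nat.le_succ n))
    have h1 : ((IP h (Y n) (Y n) : ℤ) : ℚ) ≠ 0 := by
      exact_mod_cast h0 n (Nat.le_succ n)
    refine ⟨q / ((IP h (Y n) (Y n) : ℤ) : ℚ), div_ne_zero hq h1, ?_⟩
    rw [Finset.prod_range_succ, zz, hz, isq]
    push_cast
    ring

/-- [DG-R4c] polynomials with the root `r + s lam` -/
theorem natDegree_ge (lam : ℝ) (r s : ℚ) (hs : s ≠ 0) (F : ℤ[X]) (hF : F ≠ 0)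
    (h : aeval ((r : ℝ) + (s : ℝ) * lam) F = 0) :
    IsAlgebraic ℚ lam ∧ (minpoly ℚ lam).natDegree ≤ F.natDegree := by
  set F' : ℚ[X] := F.map (Int.castRingHom ℚ) with hF'
  have hF'0 : F' ≠ 0 := (Polynomial.map_ne_zero_iff (RingHom.injective_int _)).2 hF
  have hdF : F'.natDegree = F.natDegree :=
    natDegree_map_eq_of_injective (RingHom.injective_int _) F
  set L : ℚ[X] := C s * X + C r with hL
  have hLd : L.natDegree = 1 := natDegree_linear hs
  set G : ℚ[X] := F'.comp L with hG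
  have hGd : G.natDegree = F.natDegree := by
    rw [hG, natDegree_comp, hLd, mul_one, hdF]
  have hG0 : G ≠ 0 := by
    intro h0
    rcases comp_eq_zero_iff.1 (hG ▸ h0) with h1 | ⟨_, h1⟩
    · exact hF'0 h1
    · rw [h1, natDegree_C] at hLd
      exact absurd hLd (by norm_num)
  have hr : aeval lam G = 0 := by
    rw [hG, aeval_comp]
    have e : aeval lam L = (r : ℝ) + (s : ℝ) * lam := by
      simp only [hL, map_add, map_mul, aeval_C, aeval_X, eq_ratCast]
      ring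
    rw [e, hF']
    have := h
    rw [← aeval_map_algebraMap ℚ] at this
    exact this
  refine ⟨⟨G, hG0, hr⟩, ?_⟩
  rw [← hGd]
  exact natDegree_le_of_dvd (minpoly.dvd ℚ lam hr) hG0

end

end QGd
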