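import Pool.Agent.Lib_MP_6b5565_dg.Stmt

/-! [DG-RRam] real RAMs with the field operations cannot construct simple closed quasigeodesics -/

namespace QGd

open Polynomial

/-- A state of a real RAM: the line of the program, the index registers and the real registers. -/
structure RSt where
  pc : ℕ
  J : ℕ → ℕ
  R : ℕ → ℝ

/-- The instructions of a real RAM with the field operations. -/
inductive RIns
  /-- `R a := c` -/
  | const (a : ℕ) (c : ℝ)
  /-- `R a := R b + R c` -/
  | add (a b c : ℕ)
  /-- `R a := R b - R c` -/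
  | sub (a b c : ℕ)
  /-- `R a := R b * R c` -/
  | mul (a b c : ℕ)
  /-- `R a := R b / R c` -/
  | div (a b c : ℕ)
  /-- `R a := R (J i)` -/
  | load (a i : ℕ)
  /-- `R (J i) := R a` -/
  | store (i a : ℕ)
  /-- `R a := J i` -/
  | cast (a i : ℕ)
  /-- `J i := ⌊R a⌋` -/
  | floor (i a : ℕ)
  /-- `J i := k` -/
  | iconst (i k : ℕ)
  /-- `J i := J j + J k` -/
  | iadd (i j k : ℕ)
  /-- `J i := J j - J k` -/
  | isub (i j k : ℕ)
  /-- `J i := J j * J k` -/
  | imul (i j k : ℕ)
  /-- `J i := J j / J k` -/
  | idiv (i j k : ℕ)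
  /-- `J i := J (J j)` -/
  | iload (i j : ℕ)
  /-- `J (J i) := J j` -/
  | istore (i j : ℕ)
  /-- go to line `l` if `R a ≤ R b` -/
  | jle (a b l : ℕ)
  /-- go to line `l` if `J i ≤ J j` -/
  | ijle (i j l : ℕ)

open scoped Classical in
/-- The state after the execution of one instruction. -/
noncomputable def RIns.run (s : RSt) : RIns → RSt
  | .const a c => ⟨s.pc + 1, s.J, Function.update s.R a c⟩
  | .add a b c => ⟨s.pc + 1, s.J, Function.update s.R a (s.R b + s.R c)⟩
  | .sub a b c => ⟨s.pc + 1, s.J, Function.update s.R a (s.R b - s.R c)⟩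
  | .mul a b c => ⟨s.pc + 1, s.J, Function.update s.R a (s.R b * s.R c)⟩
  | .div a b c => ⟨s.pc + 1, s.J, Function.update s.R a (s.R b / s.R c)⟩
  | .load a i => ⟨s.pc + 1, s.J, Function.update s.R a (s.R (s.J i))⟩
  | .store i a => ⟨s.pc + 1, s.J, Function.update s.R (s.J i) (s.R a)⟩
  | .cast a i => ⟨s.pc + 1, s.J, Function.update s.R a (s.J i : ℝ)⟩
  | .floor i a => ⟨s.pc + 1, Function.update s.J i ⌊s.R a⌋₊, s.R⟩
  | .iconst i k => ⟨s.pc + 1, Function.update s.J i k, s.R⟩
  | .iadd i j k => ⟨s.pc + 1, Function.update s.J i (s.J j + s.J k), s.R⟩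
  | .isub i j k => ⟨s.pc + 1, Function.update s.J i (s.J j - s.J k), s.R⟩
  | .imul i j k => ⟨s.pc + 1, Function.update s.J i (s.J j * s.J k), s.R⟩
  | .idiv i j k => ⟨s.pc + 1, Function.update s.J i (s.J j / s.J k), s.R⟩
  | .iload i j => ⟨s.pc + 1, Function.update s.J i (s.J (s.J j)), s.R⟩
  | .istore i j => ⟨s.pc + 1, Function.update s.J (s.J i) (s.J j), s.R⟩
  | .jle a b l => ⟨if s.R a ≤ s.R b then l else s.pc + 1, s.J, s.R⟩
  | .ijle i j l => ⟨if s.J i ≤ s.J j then l else s.pc + 1, s.J, s.R⟩

/-- One step of the program `P` (the program stops when it leaves its list of instructions). -/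
noncomputable def rstep (P : List RIns) (s : RSt) : RSt :=
  match P[s.pc]? with
  | some I => I.run s
  | none => s

/-- All real constants of the program are algebraic numbers. -/
def AlgConsts (P : List RIns) : Prop := ∀ a c, RIns.const a c ∈ P → IsAlgebraic ℚ c

/-! ## Registers stay in a field -/

private theorem upd_mem (K : IntermediateField ℚ ℝ) {R : ℕ → ℝ} (h : ∀ a, R a ∈ K) (a : ℕ) {c : ℝ}
    (hc : c ∈ K) (b : ℕ) : Function.update R a c b ∈ K := by
  by_cases hb : b = a
  · subst hb
    rw [Function.update_self]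
    exact hc
  · rw [Function.update_of_ne hb]
    exact h b

private theorem run_mem (K : IntermediateField ℚ ℝ) (I : RIns) (s : RSt)
    (hI : ∀ a c, I = RIns.const a c → c ∈ K) (h : ∀ a, s.R a ∈ K) (b : ℕ) : (I.run s).R b ∈ K := by
  cases I with
  | const a c => exact upd_mem K h a (hI a c rfl) b
  | add a b' c => exact upd_mem K h a (K.add_mem (h _) (h _)) b
  | sub a b' c => exact upd_mem K h a (K.sub_mem (h _) (h _)) b
  | mul a b' c => exact upd_mem K h a (K.mul_mem (h _) (h _)) b
  | div a b' c => exact upd_mem K h a (K.div_mem (h _) (h _)) b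
  | load a i => exact upd_mem K h a (h _) b
  | store i a => exact upd_mem K h _ (h _) b
  | cast a i => exact upd_mem K h a (natCast_mem K _) b
  | floor i a => exact h b
  | iconst i k => exact h b
  | iadd i j k => exact h b
  | isub i j k => exact h b
  | imul i j k => exact h b
  | idiv i j k => exact h b
  | iload i j => exact h b
  | istore i j => exact h b
  | jle a b' l => exact h b
  | ijle i j l => exact h b

private theorem step_mem (K : IntermediateField ℚ ℝ) (P : List RIns)
    (hP : ∀ a c, RIns.const a c ∈ P → c ∈ K) (s : RSt) (h : ∀ a, s.R a ∈ K) (b : ℕ) :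
    (rstep P s).R b ∈ K := by
  unfold rstep
  cases hs : P[s.pc]? with
  | none => exact h b
  | some I =>
    refine run_mem K I s ?_ h b
    rintro a c rfl
    exact hP a c (List.mem_of_getElem? hs)

private theorem iter_mem (K : IntermediateField ℚ ℝ) (P : List RIns)
    (hP : ∀ a c, RIns.const a c ∈ P → c ∈ K) (T : ℕ) : ∀ s : RSt, (∀ a, s.R a ∈ K) →
    ∀ b, (((rstep P)^[T]) s).R b ∈ K := by
  induction T with
  | zero => exact fun s h => h
  | succ T ih =>
    intro s h
    rw [Function.iterate_succ_apply]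
    exact ih _ (step_mem K P hP s h)

/-! ## Elements of a number field -/

private theorem exists_short (K : IntermediateField ℚ ℝ) [FiniteDimensional ℚ K] {y : ℝ}
    (hy : y ∈ K) : ∃ F : ℤ[X], F ≠ 0 ∧ aeval y F = 0 ∧ F.support.card ≤ Module.finrank ℚ K + 1 := by
  have hint : IsIntegral ℚ (⟨y, hy⟩ : K) := IsIntegral.of_finite ℚ _
  have hyint : IsIntegral ℚ y := by
    have := hint.map K.val
    exact this
  have hmin : minpoly ℚ y = minpoly ℚ (⟨y, hy⟩ : K) :=
    (minpoly.algHom_eq K.val K.val.injective (⟨y, hy⟩ : K)).symm ▸ rfl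
  have hdeg : (minpoly ℚ y).natDegree ≤ Module.finrank ℚ K := by
    rw [hmin]
    exact minpoly.natDegree_le _
  refine ⟨IsLocalization.integerNormalization (nonZeroDivisors ℤ) (minpoly ℚ y), ?_, ?_, ?_⟩
  · rw [Ne, IsFractionRing.integerNormalization_eq_zero_iff]
    exact minpoly.ne_zero hyint
  · exact IsLocalization.integerNormalization_aeval_eq_zero (nonZeroDivisors ℤ) _
      (minpoly.aeval ℚ y)
  · obtain ⟨b, hb⟩ := IsLocalization.integerNormalization_spec (nonZeroDivisors ℤ) (minpoly ℚ y)
    have hsub : (IsLocalization.integerNormalization (nonZeroDivisors ℤ)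
        (minpoly ℚ y)).support ⊆ Finset.range ((minpoly ℚ y).natDegree + 1) := by
      intro i hi
      rw [Finset.mem_range]
      by_contra hlt
      push Not at hlt
      have h0 : (minpoly ℚ y).coeff i = 0 :=
        Polynomial.coeff_eq_zero_of_natDegree_lt (by omega)
      have h1 := congrArg (fun p => Polynomial.coeff p i) hb.2
      simp only [Polynomial.coeff_map, Polynomial.coeff_smul] at h1
      rw [h0, smul_zero] at h1
      rw [Polynomial.mem_support_iff] at hi
      exact hi ((algebraMap ℤ ℚ).injective_int (by rw [h1, map_zero]))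
    calc _ ≤ (Finset.range ((minpoly ℚ y).natDegree + 1)).card := Finset.card_le_card hsub
      _ = (minpoly ℚ y).natDegree + 1 := Finset.card_range _
      _ ≤ _ := by omega

private theorem consts_finite (P : List RIns) : {c | ∃ a, RIns.const a c ∈ P}.Finite := by
  classical
  have h1 : {I | I ∈ P}.Finite := by
    have h2 : {I | I ∈ P} = (P.toFinset : Set RIns) := by
      ext I
      simp
    rw [h2]
    exact Finset.finite_toSet _
  refine (h1.image (fun I => match I with
    | RIns.const _ c => c
    | _ => (0 : ℝ))).subset ?_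
  rintro c ⟨a, h⟩
  exact ⟨RIns.const a c, h, rfl⟩

/-- NO REAL RAM. There is no real RAM program with the field operations and algebraic constants,
of any running time, whose real registers contain, on every integer polyhedron at some time, all
coordinates (or rational affine images of them) of the segment endpoints of some simple closed
quasigeodesic. -/
theorem no_ram_of (hard : ∀ n : ℕ, ∃ I : IPoly, I.Hard (2 ^ n)) (P : List RIns)
    (hP : AlgConsts P) (load : IPoly → RSt) (hl : ∀ I a, ∃ q : ℚ, (load I).R a = (q : ℝ)) :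
    ∃ I : IPoly, ∀ (T N : ℕ) [NeZero N] (γ : Desc I.poly N), ∃ (i : ZMod N) (j : Fin 3),
      ∀ (a : ℕ) (r s : ℚ), s ≠ 0 →
        ((rstep P)^[T] (load I)).R a ≠ (r : ℝ) + (s : ℝ) * γ.x i j := by
  set S : Set ℝ := {c | ∃ a, RIns.const a c ∈ P} with hS
  have hfin : S.Finite := consts_finite P
  have : Finite S := hfin
  have hK : FiniteDimensional ℚ (IntermediateField.adjoin ℚ S) := by
    refine IntermediateField.finiteDimensional_adjoin ?_
    rintro x ⟨a, ha⟩
    exact (hP a x ha).isIntegral
  set K := IntermediateField.adjoin ℚ S with hKd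
  obtain ⟨I, hI⟩ := hard (Module.finrank ℚ K + 1)
  refine ⟨I, fun T N _ γ => ?_⟩
  obtain ⟨i, j, hij⟩ := hI N γ
  refine ⟨i, j, fun a r s hs h => ?_⟩
  have hmem : ((rstep P)^[T] (load I)).R a ∈ K := by
    refine iter_mem K P (fun a c hc => IntermediateField.subset_adjoin ℚ S ⟨a, hc⟩) T _ ?_ a
    intro b
    obtain ⟨q, hq⟩ := hl I b
    rw [hq]
    exact SubfieldClass.ratCast_mem K q
  obtain ⟨F, hF0, hF1, hF2⟩ := exists_short K hmem
  rw [h] at hF1
  have h3 := hij r s hs F hF0 hF1
  have h4 : Module.finrank ℚ K + 1 < 2 ^ (Module.finrank ℚ K + 1) := Nat.lt_two_pow_self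
  omega

end QGd
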