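import Pool.Agent.Lib_MP_6b5565_dg.F3
import Pool.Agent.Lib_MP_6b5565_dg.F5b
import Pool.Agent.Lib_MP_6b5565_dg.A2c
import Pool.Agent.Lib_MP_6b5565_dg.A3c

/-! # States of a path in a base face -/

namespace QGd

open EuclideanGeometry ComplexConjugate Vx Dx

noncomputable section

variable {K : ℕ} {M : Msh K} {N : ℕ} [NeZero N]

/-- the segment from node `k` to node `k+1` lies in the face of `d`, in the base face `T`, and the
node `k` lies on the ray from the corner `(T, e)` in the direction of this segment, up to the error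
`m * 2^16 * S * eta K` -/
def St (γ : SCQ M.P N) {T : Fin 6} (F : Fr (un T)) (e : Fin 3) (k : ZMod N) (d : Dx K) (m : ℕ) :
    Prop :=
  face6 d = T ∧ γ.x k ∈ M.P.tri d ∧ γ.x (k + 1) ∈ M.P.tri d ∧
    Ray (F.pr (M.pos (base (CT T e)))) (F.dir (γ.x k) (γ.x (k + 1))) (F.pr (γ.x k))
      (m * (2 ^ 16 * M.S * eta K))

end

end QGd
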