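import Pool.Agent.Lib_MP_6b5565_dg.G1b

/-! [DG-V1] removing superfluous endpoints -/

namespace QGd

open EuclideanGeometry

noncomputable section

variable {P : Poly}

private theorem v1_sbtw {a b c : ℝ} (h1 : a < b) (h2 : b < c) : Sbtw ℝ a b c := by
  refine ⟨mem_segment_iff_wbtw.1 ?_, h1.ne', h2.ne⟩
  rw [segment_eq_Icc (h1.trans h2).le]
  exact ⟨h1.le, h2.le⟩

private theorem v1_seg_pi {d : P.D} {x y : E3} (hx : x ∈ P.seg d) (hy : y ∈ P.oseg d) (hne : x ≠ y) :
    ∠ x y (P.B d) = Real.pi ∨ ∠ x y (P.A d) = Real.pi := by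
  have hAB := P.A_ne_B d
  have hf : Function.Injective (AffineMap.lineMap (P.A d) (P.B d) : ℝ →ᵃ[ℝ] E3) :=
    AffineMap.lineMap_injective ℝ hAB
  unfold Poly.seg at hx
  unfold Poly.oseg at hy
  rw [segment_eq_image_lineMap] at hx
  rw [openSegment_eq_image_lineMap] at hy
  obtain ⟨s, hs, rfl⟩ := hx
  obtain ⟨r, hr, rfl⟩ := hy
  have hsr : s ≠ r := by
    rintro rfl
    exact hne rfl
  rcases lt_or_gt_of_ne hsr with h | h
  · left
    have h1 := (hf.sbtw_map_iff (x := s) (y := r) (z := 1)).2 (v1_sbtw h hr.2)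
    rw [AffineMap.lineMap_apply_one] at h1
    exact h1.angle₁₂₃_eq_pi
  · right
    have h1 := (hf.sbtw_map_iff (x := 0) (y := r) (z := s)).2 (v1_sbtw hr.1 h)
    rw [AffineMap.lineMap_apply_zero] at h1
    rw [EuclideanGeometry.angle_comm]
    exact h1.angle₁₂₃_eq_pi

private theorem v1_case {p y q : E3} {X : E3} (hpi : ∠ p y X = Real.pi)
    (hsum : ∠ p y X + ∠ X y q ≤ Real.pi) : Sbtw ℝ p y q := by
  have h0 : ∠ X y q = 0 := by
    have := EuclideanGeometry.angle_nonneg X y q
    linarith
  have h1 := EuclideanGeometry.angle_add_angle_eq_pi_of_angle_eq_pi q hpi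
  rw [EuclideanGeometry.angle_comm q y X, h0, add_zero] at h1
  exact (EuclideanGeometry.angle_eq_pi_iff_sbtw.1 h1).symm

/-- [DG-V1a] a node inside an edge with both angle sums at most `π` is a crossing, or both neighbours
are on the edge and the curve runs straight along it (if `p` is on the edge, on the side of `A d`,
then `∠ p y B = π`, so `∠ B y q = 0` and `q` is on the edge) -/
theorem quasi_cases {p y q : E3} (hp : p ≠ y) (hq : q ≠ y) (h : P.Quasi p y q) :
    (∃ d, P.CrossAt p y q d) ∨ (∃ v, P.TurnAt p y q v) ∨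
      ∃ d, p ∈ P.tri d ∧ q ∈ P.tri d ∧ Sbtw ℝ p y q := by
  rcases h with ⟨d, hy, hpd, hqd, hB, hA⟩ | ⟨v, α, h1, h2, h3, h4⟩
  · by_cases hps : p ∈ P.seg d
    · right; right
      have hs : Sbtw ℝ p y q := by
        rcases v1_seg_pi hps hy hp with h | h
        · exact v1_case h hB
        · exact v1_case h hA
      refine ⟨P.inv d, ?_, hqd, hs⟩
      have h5 : p ∈ P.seg (P.inv d) := by
        rw [P.seg_inv]
        exact hps
      exact P.seg_sub_tri _ h5
    · by_cases hqs : q ∈ P.seg d
      · right; right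
        have hs : Sbtw ℝ q y p := by
          rcases v1_seg_pi hqs hy hq with h | h
          · refine v1_case h ?_
            rw [EuclideanGeometry.angle_comm q, EuclideanGeometry.angle_comm (P.B d) y p, add_comm]
            exact hB
          · refine v1_case h ?_
            rw [EuclideanGeometry.angle_comm q, EuclideanGeometry.angle_comm (P.A d) y p, add_comm]
            exact hA
        exact ⟨d, hpd, P.seg_sub_tri _ hqs, hs.symm⟩
      · exact Or.inl ⟨d, hy, hpd, hqd, hps, hqs, hB, hA⟩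
  · exact Or.inr (Or.inl ⟨v, α, h1, h2, h3, h4⟩)

end

end QGd
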