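import Pool.Agent.Lib_MP_6b5565_dg.V1

/-! [DG-V1b] removing superfluous endpoints -/

namespace QGd

open EuclideanGeometry

noncomputable section

variable {P : Poly}

private theorem v1b_angle {p' p y X : E3} (h : Sbtw ℝ p' p y) : ∠ p' y X = ∠ p y X := by
  obtain ⟨⟨t, ht, rfl⟩, h1, h2⟩ := h
  have ht1 : t < 1 := by
    refine lt_of_le_of_ne ht.2 ?_
    rintro rfl
    exact h2 (AffineMap.lineMap_apply_one _ _)
  have h3 : (AffineMap.lineMap p' y t : E3) - y = (1 - t) • (p' - y) := by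
    rw [AffineMap.lineMap_apply]
    simp only [vsub_eq_sub, vadd_eq_add]
    module
  unfold EuclideanGeometry.angle
  simp only [vsub_eq_sub]
  rw [h3, InnerProductGeometry.angle_smul_left_of_pos _ _ (by linarith)]

private theorem v1b_mem {S : Set E3} (hS : Convex ℝ S) {a b c : E3} (h : Sbtw ℝ a b c) (ha : a ∈ S)
    (hc : c ∈ S) : b ∈ S :=
  hS.segment_subset ha hc (mem_segment_iff_wbtw.2 h.wbtw)

/-- [DG-V1b] moving the neighbour outwards on the same ray inside a face: crossing -/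
theorem CrossAt_far {p p' y q : E3} {d g : P.D} (h : P.CrossAt p y q d) (h1 : p' ∈ P.tri g)
    (h2 : y ∈ P.tri g) (h3 : Sbtw ℝ p' p y) : P.CrossAt p' y q d := by
  have h0 := h
  obtain ⟨hy, hp, hq, hps, hqs, hB, hA⟩ := h0
  have hys : y ∈ P.seg d := openSegment_subset_segment ℝ _ _ hy
  have hpg : p ∈ P.tri g := v1b_mem (convex_convexHull ℝ _) h3 h1 h2
  have hg := h.face hpg h2
  have hp' : p' ∈ P.tri d := by
    rw [← P.tri_SF hg]
    exact h1
  refine ⟨hy, hp', hq, ?_, hqs, ?_, ?_⟩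
  · intro h4
    exact hps (v1b_mem (convex_segment _ _) h3 h4 hys)
  · rw [v1b_angle h3]
    exact hB
  · rw [v1b_angle h3]
    exact hA

theorem CrossAt_far' {p y q q' : E3} {d g : P.D} (h : P.CrossAt p y q d) (h1 : q' ∈ P.tri g)
    (h2 : y ∈ P.tri g) (h3 : Sbtw ℝ y q q') : P.CrossAt p y q' d := by
  have h0 := h
  obtain ⟨hy, hp, hq, hps, hqs, hB, hA⟩ := h0
  have hys : y ∈ P.seg d := openSegment_subset_segment ℝ _ _ hy
  have hqg : q ∈ P.tri g := v1b_mem (convex_convexHull ℝ _) h3 h2 h1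
  have hg := h.face' hqg h2
  have hq' : q' ∈ P.tri (P.inv d) := by
    rw [← P.tri_SF hg]
    exact h1
  refine ⟨hy, hp, hq', hps, ?_, ?_, ?_⟩
  · intro h4
    exact hqs (v1b_mem (convex_segment _ _) h3 hys h4)
  · rw [EuclideanGeometry.angle_comm (P.B d) y q', v1b_angle h3.symm,
      EuclideanGeometry.angle_comm q y]
    exact hB
  · rw [EuclideanGeometry.angle_comm (P.A d) y q', v1b_angle h3.symm,
      EuclideanGeometry.angle_comm q y]
    exact hA

end

end QGd
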