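import Pool.Agent.Lib_MP_6b5565_dg.V1b

/-! [DG-V1c] removing superfluous endpoints -/

namespace QGd

open EuclideanGeometry

noncomputable section

variable {P : Poly}

private theorem v1c_tri {d g : P.D} {z x y : E3} (hx : x ∈ P.tri d) (hz : z ∈ P.tri g)
    (hy : y ∈ P.tri g) (h : Sbtw ℝ z x y) : z ∈ P.tri d := by
  obtain ⟨a, ha0, has, ha1, hax⟩ := P.mem_tri_iff.1 hx
  obtain ⟨b, hb0, hbs, hb1, hbx⟩ := P.mem_tri_iff.1 hz
  obtain ⟨c, hc0, hcs, hc1, hcx⟩ := P.mem_tri_iff.1 hy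
  obtain ⟨s, t, hs, ht, hst, hv⟩ := mem_segment_iff_wbtw.2 h.wbtw
  have hs0 : 0 < s := by
    rcases hs.eq_or_lt with h0 | h0
    · exfalso
      apply h.2.2
      rw [← hv, ← h0, show t = 1 by linarith]
      simp
    · exact h0
  have key : a = fun v => s * b v + t * c v := by
    refine P.geom d g a _ ha0 (fun v => add_nonneg (mul_nonneg hs (hb0 v)) (mul_nonneg ht (hc0 v)))
      has ?_ ha1 ?_ ?_
    · intro v hv'
      by_contra hn
      apply hv'
      have h1 : b v = 0 := by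
        by_contra h
        exact hn (hbs v h)
      have h2 : c v = 0 := by
        by_contra h
        exact hn (hcs v h)
      show s * b v + t * c v = 0
      rw [h1, h2]
      ring
    · rw [Finset.sum_add_distrib, ← Finset.mul_sum, ← Finset.mul_sum, hb1, hc1]
      linarith
    · simp only [add_smul, mul_smul]
      rw [Finset.sum_add_distrib, ← Finset.smul_sum, ← Finset.smul_sum, hbx, hcx, hax, hv]
  refine P.mem_tri_iff.2 ⟨b, hb0, ?_, hb1, hbx⟩
  intro v hv'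
  apply has
  have h1 : 0 < s * b v := mul_pos hs0 (lt_of_le_of_ne (hb0 v) (Ne.symm hv'))
  have h2 : 0 ≤ t * c v := mul_nonneg ht (hc0 v)
  have h3 := congrFun key v
  rw [h3]
  exact (by linarith : 0 < s * b v + t * c v).ne'

/-- [DG-V1c] the same at a vertex (`p` is not a vertex; if `p` is on an edge at `v`, then `p'` is on
this edge; otherwise the faces with `p` are the faces with `p'`) -/
theorem TurnAt_far {p p' y q : E3} {v : P.V} {g : P.D} (h : P.TurnAt p y q v) (h1 : p' ∈ P.tri g)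
    (h2 : y ∈ P.tri g) (h3 : Sbtw ℝ p' p y) : P.TurnAt p' y q v := by
  obtain ⟨α, rfl, hS, ha, hb⟩ := h
  refine ⟨α, rfl, ?_, ha, hb⟩
  have hang : ∀ X, ∠ p (P.pos v) X = ∠ p' (P.pos v) X := fun X => h3.symm.angle_eq_left X
  rcases hS with ⟨d, hd, hp, hq, hα⟩ | ⟨d, k, hd, hk1, hk2, hp, hq, hα⟩
  · exact Or.inl ⟨d, hd, v1c_tri hp h1 h2 h3, hq, by rw [hα, hang]⟩
  · exact Or.inr ⟨d, k, hd, hk1, hk2, v1c_tri hp h1 h2 h3, hq, by rw [hα, hang]⟩

theorem TurnAt_far' {p y q q' : E3} {v : P.V} {g : P.D} (h : P.TurnAt p y q v) (h1 : q' ∈ P.tri g)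
    (h2 : y ∈ P.tri g) (h3 : Sbtw ℝ y q q') : P.TurnAt p y q' v := by
  obtain ⟨α, rfl, hS, ha, hb⟩ := h
  refine ⟨α, rfl, ?_, ha, hb⟩
  have hang : ∀ X, ∠ X (P.pos v) q = ∠ X (P.pos v) q' := fun X => h3.angle_eq_right X
  rcases hS with ⟨d, hd, hp, hq, hα⟩ | ⟨d, k, hd, hk1, hk2, hp, hq, hα⟩
  · exact Or.inl ⟨d, hd, hp, v1c_tri hq h1 h2 h3.symm, by rw [hα, hang]⟩
  · exact Or.inr ⟨d, k, hd, hk1, hk2, hp, v1c_tri hq h1 h2 h3.symm, by rw [hα, hang]⟩

end

end QGd
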