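import Pool.Agent.Lib_MP_6b5565_dg.V1c

/-! [DG-V2] reduction of a description -/

namespace QGd

open EuclideanGeometry

noncomputable section

variable {P : Poly}

/-- node types of a description with `quasi_cases` applied -/
def Node3 (P : Poly) (p y q : E3) : Prop :=
  (∃ d, P.CrossAt p y q d) ∨ (∃ v, P.TurnAt p y q v) ∨
    ∃ d, p ∈ P.tri d ∧ q ∈ P.tri d ∧ Sbtw ℝ p y q

/-- auxiliary form of a description -/
structure Pre (P : Poly) (N : ℕ) where
  x : ZMod N → E3
  f : ZMod N → P.D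
  mem : ∀ i, x i ∈ P.tri (f i) ∧ x (i + 1) ∈ P.tri (f i)
  simple : ∀ (i j : ZMod N) (s t : ℝ), 0 ≤ s → s < 1 → 0 ≤ t → t < 1 →
    AffineMap.lineMap (x i) (x (i + 1)) s = (AffineMap.lineMap (x j) (x (j + 1)) t : E3) →
    i = j ∧ s = t
  node : ∀ i, Node3 P (x (i - 1)) (x i) (x (i + 1))

/-- [DG-V2a] -/
theorem Pre.three_le {N : ℕ} [NeZero N] (γ : Pre P N) : 3 ≤ N := by
  have h0 : N ≠ 0 := NeZero.ne N
  by_contra hc
  have h12 : N = 1 ∨ N = 2 := by omega
  rcases h12 with rfl | rfl
  · have h1 : γ.x (0 + 1) = γ.x 0 := by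
      congr 1
    have h2 := γ.simple 0 0 0 (1 / 2) le_rfl (by norm_num) (by norm_num) (by norm_num) (by
      rw [h1, AffineMap.lineMap_same]
      rfl)
    have := h2.2
    norm_num at this
  · have h1 : (1 + 1 : ZMod 2) = 0 := rfl
    have h2 := γ.simple 0 1 (1 / 2) (1 / 2) (by norm_num) (by norm_num) (by norm_num)
      (by norm_num) (by
      rw [zero_add, h1, AffineMap.lineMap_apply, AffineMap.lineMap_apply]
      simp only [vsub_eq_sub, vadd_eq_add]
      module)
    exact absurd h2.1 (by decide)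

/-- [DG-V2b] rotation of the indices -/
theorem Pre.rotate {N : ℕ} [NeZero N] (γ : Pre P N) (k : ZMod N) : ∃ γ' : Pre P N,
    ∀ i, γ'.x i = γ.x (i + k) := by
  refine ⟨⟨fun i => γ.x (i + k), fun i => γ.f (i + k), ?_, ?_, ?_⟩, fun i => rfl⟩
  · intro i
    have h := γ.mem (i + k)
    rw [show i + k + 1 = i + 1 + k by ring] at h
    exact h
  · intro i j s t hs hs1 ht ht1 h
    have h1 := γ.simple (i + k) (j + k) s t hs hs1 ht ht1 (by
      rw [show i + k + 1 = i + 1 + k by ring, show j + k + 1 = j + 1 + k by ring]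
      exact h)
    exact ⟨add_right_cancel h1.1, h1.2⟩
  · intro i
    have h := γ.node (i + k)
    rw [show i + k + 1 = i + 1 + k by ring, show i + k - 1 = i - 1 + k by ring] at h
    exact h

end

end QGd
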