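import Pool.Agent.Lib_MP_6b5565_dg.V2

/-! [DG-V2b] reduction of a description -/

namespace QGd

open EuclideanGeometry

noncomputable section

variable {P : Poly}

private theorem v2b_tri {d g : P.D} {z x y : E3} (hx : x ∈ P.tri d) (hz : z ∈ P.tri g)
    (hy : y ∈ P.tri g) (h : Sbtw ℝ z x y) : z ∈ P.tri d := by
  obtain ⟨a, ha0, has, ha1, hax⟩ := P.mem_tri_iff.1 hx
  obtain ⟨b, hb0, hbs, hb1, hbx⟩ := P.mem_tri_iff.1 hz
  obtain ⟨c, hc0, hcs, hc1, hcx⟩ := P.mem_tri_iff.1 hy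
  obtain ⟨s, t, hs, ht, hst, hv⟩ := mem_segment_iff_wbtw.2 h.wbtw
  have hs0 : 0 < s := by
    rcases hs.eq_or_lt with h0 | h0
    · exfalso
      apply h.2.2
      rw [← hv, ← h0, show t = 1 by linarith]
      simp
    · exact h0
  have key : a = fun v => s * b v + t * c v := by
    refine P.geom d g a _ ha0 (fun v => add_nonneg (mul_nonneg hs (hb0 v)) (mul_nonneg ht (hc0 v)))
      has ?_ ha1 ?_ ?_
    · intro v hv'
      by_contra hn
      apply hv'
      have h1 : b v = 0 := by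
        by_contra h
        exact hn (hbs v h)
      have h2 : c v = 0 := by
        by_contra h
        exact hn (hcs v h)
      show s * b v + t * c v = 0
      rw [h1, h2]
      ring
    · rw [Finset.sum_add_distrib, ← Finset.mul_sum, ← Finset.mul_sum, hb1, hc1]
      linarith
    · simp only [add_smul, mul_smul]
      rw [Finset.sum_add_distrib, ← Finset.smul_sum, ← Finset.smul_sum, hbx, hcx, hax, hv]
  refine P.mem_tri_iff.2 ⟨b, hb0, ?_, hb1, hbx⟩
  intro v hv'
  apply has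
  have h1 : 0 < s * b v := mul_pos hs0 (lt_of_le_of_ne (hb0 v) (Ne.symm hv'))
  have h2 : 0 ≤ t * c v := mul_nonneg ht (hc0 v)
  have h3 := congrFun key v
  rw [h3]
  exact (by linarith : 0 < s * b v + t * c v).ne'

private theorem Node3_far {p p' y q : E3} {g : P.D} (h : Node3 P p y q) (h1 : p' ∈ P.tri g)
    (h2 : y ∈ P.tri g) (h3 : Sbtw ℝ p' p y) : Node3 P p' y q := by
  rcases h with ⟨d, h⟩ | ⟨v, h⟩ | ⟨d, hp, hq, h⟩
  · exact Or.inl ⟨d, CrossAt_far h h1 h2 h3⟩
  · exact Or.inr (Or.inl ⟨v, TurnAt_far h h1 h2 h3⟩)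
  · exact Or.inr (Or.inr ⟨d, v2b_tri hp h1 h2 h3, hq, h3.trans_expand_right h⟩)

private theorem Node3_far' {p y q q' : E3} {g : P.D} (h : Node3 P p y q) (h1 : q' ∈ P.tri g)
    (h2 : y ∈ P.tri g) (h3 : Sbtw ℝ y q q') : Node3 P p y q' := by
  rcases h with ⟨d, h⟩ | ⟨v, h⟩ | ⟨d, hp, hq, h⟩
  · exact Or.inl ⟨d, CrossAt_far' h h1 h2 h3⟩
  · exact Or.inr (Or.inl ⟨v, TurnAt_far' h h1 h2 h3⟩)
  · exact Or.inr (Or.inr ⟨d, hp, v2b_tri hq h1 h2 h3.symm, h.trans_expand_left h3⟩)

/-- new index -/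
private def phi (n : ℕ) (i : ZMod n) : ZMod (n + 1) := ((i.val + 1 : ℕ) : ZMod (n + 1))

private theorem phi_val {n : ℕ} [NeZero n] (i : ZMod n) : (phi n i).val = i.val + 1 := by
  unfold phi
  rw [ZMod.val_natCast, Nat.mod_eq_of_lt]
  have := ZMod.val_lt i
  omega

private theorem phi_inj {n : ℕ} [NeZero n] {i j : ZMod n} (h : phi n i = phi n j) : i = j := by
  have h1 := phi_val i
  have h2 := phi_val j
  rw [h] at h1
  apply ZMod.val_injective n
  omega

private theorem phi_ne_zero {n : ℕ} [NeZero n] (i : ZMod n) : phi n i ≠ 0 := by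
  intro h
  have h1 := phi_val i
  rw [h, ZMod.val_zero] at h1
  omega

private theorem neg_one_val (n : ℕ) : ((-1 : ZMod (n + 1))).val = n := by
  have h : ((n : ℕ) : ZMod (n + 1)) = -1 := by
    have h1 : (((n + 1 : ℕ)) : ZMod (n + 1)) = 0 := ZMod.natCast_self _
    push_cast at h1
    exact eq_neg_of_add_eq_zero_left h1
  rw [← h, ZMod.val_natCast, Nat.mod_eq_of_lt (Nat.lt_succ_self n)]

private theorem phi_last {n : ℕ} [NeZero n] {i : ZMod n} (h : i.val + 1 = n) : phi n i = -1 := by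
  apply ZMod.val_injective (n + 1)
  rw [phi_val, neg_one_val, h]

private theorem phi_ne_last {n : ℕ} [NeZero n] {i : ZMod n} (h : i.val + 1 ≠ n) :
    phi n i ≠ -1 := by
  intro h1
  have h2 := phi_val i
  rw [h1, neg_one_val] at h2
  exact h h2.symm

private theorem phi_zero (n : ℕ) [NeZero n] : phi n 0 = 1 := by
  unfold phi
  rw [ZMod.val_zero]
  simp

private theorem succ_last {n : ℕ} [NeZero n] {i : ZMod n} (h : i.val + 1 = n) : i + 1 = 0 := by
  have h1 : ((i.val + 1 : ℕ) : ZMod n) = 0 := by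
    rw [h]
    exact ZMod.natCast_self n
  push_cast at h1
  rwa [ZMod.natCast_zmod_val] at h1

private theorem succ_val {n : ℕ} [NeZero n] {i : ZMod n} (h : i.val + 1 ≠ n) :
    (i + 1).val = i.val + 1 := by
  have h0 := ZMod.val_lt i
  have h1 : ((i.val + 1 : ℕ) : ZMod n) = i + 1 := by
    push_cast
    rw [ZMod.natCast_zmod_val]
  rw [← h1, ZMod.val_natCast, Nat.mod_eq_of_lt]
  omega

private theorem phi_succ {n : ℕ} [NeZero n] {i : ZMod n} (h : i.val + 1 ≠ n) :
    phi n (i + 1) = phi n i + 1 := by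
  unfold phi
  rw [succ_val h]
  push_cast
  ring

private theorem phi_pred {n : ℕ} [NeZero n] {i : ZMod n} (h : i ≠ 0) :
    phi n (i - 1) = phi n i - 1 := by
  have h1 : (i - 1).val + 1 ≠ n := by
    intro h2
    apply h
    have := succ_last h2
    rwa [sub_add_cancel] at this
  have h2 := phi_succ h1
  rw [sub_add_cancel] at h2
  rw [h2]
  ring

private theorem val_pred_zero (n : ℕ) [NeZero n] : ((0 : ZMod n) - 1).val + 1 = n := by
  by_contra h
  have := succ_val h
  rw [sub_add_cancel, ZMod.val_zero] at this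
  omega

/-- [DG-V2c] DELETION of the node `0` if it is of the third kind: the new polygon has the nodes
`x 1, ..., x (N-1)`; new segment from `x (N-1)` to `x 1`. (`CrossAt_far`, `TurnAt_far` at its ends.) -/
theorem Pre.delete {n : ℕ} (hn : 2 ≤ n) (γ : Pre P (n + 1))
    (h : ∃ d, γ.x (0 - 1) ∈ P.tri d ∧ γ.x (0 + 1) ∈ P.tri d ∧
      Sbtw ℝ (γ.x (0 - 1)) (γ.x 0) (γ.x (0 + 1))) :
    ∃ γ' : Pre P n, ∀ i, ∃ k, γ'.x i = γ.x k := by
  have : NeZero n := ⟨by omega⟩
  obtain ⟨d, hd1, hd2, hs⟩ := h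
  rw [zero_sub] at hd1 hs
  rw [zero_add] at hd2 hs
  obtain ⟨⟨r, hr, hx0⟩, hne1, hne2⟩ := id hs
  have hr0 : 0 < r := by
    refine lt_of_le_of_ne hr.1 ?_
    rintro rfl
    exact hne1 (by rw [← hx0, AffineMap.lineMap_apply_zero])
  have hr1 : r < 1 := by
    refine lt_of_le_of_ne hr.2 ?_
    rintro rfl
    exact hne2 (by rw [← hx0, AffineMap.lineMap_apply_one])
  have h10 : (-1 : ZMod (n + 1)) ≠ 0 := by
    intro h
    have h1 := neg_one_val n
    rw [h, ZMod.val_zero] at h1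
    omega
  have hnext : ∀ i : ZMod n, i.val + 1 ≠ n → γ.x (phi n (i + 1)) = γ.x (phi n i + 1) := by
    intro i hi
    rw [phi_succ hi]
  have hnextl : ∀ i : ZMod n, i.val + 1 = n → γ.x (phi n (i + 1)) = γ.x 1 := by
    intro i hi
    rw [succ_last hi, phi_zero]
  -- every point of the new polygon is a point of the old polygon
  have lift : ∀ (i : ZMod n) (s : ℝ), 0 ≤ s → s < 1 → ∃ (k : ZMod (n + 1)) (s' : ℝ), 0 ≤ s' ∧
      s' < 1 ∧ (AffineMap.lineMap (γ.x (phi n i)) (γ.x (phi n (i + 1))) s : E3) =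
        AffineMap.lineMap (γ.x k) (γ.x (k + 1)) s' ∧
      ((i.val + 1 ≠ n ∧ k = phi n i ∧ s' = s) ∨ (i.val + 1 = n ∧ k = -1 ∧ s' * r = s) ∨
        (i.val + 1 = n ∧ k = 0 ∧ s' * (1 - r) = s - r)) := by
    intro i s hs0 hs1
    by_cases hi : i.val + 1 = n
    · rw [hnextl i hi, phi_last hi]
      by_cases hsr : s < r
      · refine ⟨-1, s / r, div_nonneg hs0 hr0.le, (div_lt_one hr0).2 hsr, ?_, Or.inr (Or.inl
          ⟨hi, rfl, div_mul_cancel₀ _ hr0.ne'⟩)⟩
        rw [neg_add_cancel, ← hx0]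
        have : s = s / r * r := (div_mul_cancel₀ _ hr0.ne').symm
        simp only [AffineMap.lineMap_apply, vsub_eq_sub, vadd_eq_add]
        rw [add_sub_cancel_right, smul_smul, ← this]
      · push Not at hsr
        have h1r : (0 : ℝ) < 1 - r := by linarith
        refine ⟨0, (s - r) / (1 - r), div_nonneg (by linarith) h1r.le,
          (div_lt_one h1r).2 (by linarith), ?_, Or.inr (Or.inr ⟨hi, rfl,
          div_mul_cancel₀ _ h1r.ne'⟩)⟩
        rw [zero_add, ← hx0]
        have h2 : s = r + (s - r) / (1 - r) * (1 - r) := by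
          rw [div_mul_cancel₀ _ h1r.ne']
          ring
        generalize (s - r) / (1 - r) = u at h2
        subst h2
        simp only [AffineMap.lineMap_apply, vsub_eq_sub, vadd_eq_add]
        module
    · refine ⟨phi n i, s, hs0, hs1, ?_, Or.inl ⟨hi, rfl, rfl⟩⟩
      rw [hnext i hi]
  refine ⟨⟨fun i => γ.x (phi n i), fun i => if i.val + 1 = n then d else γ.f (phi n i),
    ?_, ?_, ?_⟩, fun i => ⟨phi n i, rfl⟩⟩
  · intro i
    by_cases hi : i.val + 1 = n
    · simp only [if_pos hi]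
      rw [hnextl i hi, phi_last hi]
      exact ⟨hd1, hd2⟩
    · simp only [if_neg hi]
      rw [hnext i hi]
      exact γ.mem _
  · intro i j s t hs0 hs1 ht0 ht1 heq
    obtain ⟨k, s', hs0', hs1', he, hc⟩ := lift i s hs0 hs1
    obtain ⟨l, t', ht0', ht1', he', hc'⟩ := lift j t ht0 ht1
    have heq' : AffineMap.lineMap (γ.x k) (γ.x (k + 1)) s' =
        (AffineMap.lineMap (γ.x l) (γ.x (l + 1)) t' : E3) := by
      rw [← he, ← he']
      exact heq
    obtain ⟨hkl, hst⟩ := γ.simple k l s' t' hs0' hs1' ht0' ht1' heq'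
    rcases hc with ⟨hi, hk, hs'⟩ | ⟨hi, hk, hs'⟩ | ⟨hi, hk, hs'⟩ <;>
      rcases hc' with ⟨hj, hl, ht'⟩ | ⟨hj, hl, ht'⟩ | ⟨hj, hl, ht'⟩
    · exact ⟨phi_inj (by rw [← hk, ← hl, hkl]), by rw [← hs', ← ht', hst]⟩
    · exact absurd (by rw [← hk, hkl, hl]) (phi_ne_last hi)
    · exact absurd (by rw [← hk, hkl, hl]) (phi_ne_zero i)
    · exact absurd (by rw [← hl, ← hkl, hk]) (phi_ne_last hj)
    · refine ⟨ZMod.val_injective n (by omega), ?_⟩
      rw [← hs', ← ht', hst]
    · exact absurd (by rw [← hk, hkl, hl]) h10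
    · exact absurd (by rw [← hl, ← hkl, hk]) (phi_ne_zero j)
    · exact absurd (by rw [← hl, ← hkl, hk]) h10
    · refine ⟨ZMod.val_injective n (by omega), ?_⟩
      rw [hst] at hs'
      linarith
  · intro i
    show Node3 P (γ.x (phi n (i - 1))) (γ.x (phi n i)) (γ.x (phi n (i + 1)))
    by_cases hi0 : i = 0
    · subst hi0
      have h1 : (0 : ZMod n).val + 1 ≠ n := by
        rw [ZMod.val_zero]
        omega
      rw [phi_last (val_pred_zero n), hnext 0 h1, phi_zero]
      have h2 := γ.node 1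
      rw [sub_self] at h2
      exact Node3_far h2 hd1 hd2 hs
    · rw [phi_pred hi0]
      by_cases hi : i.val + 1 = n
      · rw [hnextl i hi, phi_last hi]
        have h2 := γ.node (-1)
        rw [neg_add_cancel] at h2
        exact Node3_far' h2 hd2 hd1 hs
      · rw [hnext i hi]
        exact γ.node _

end

end QGd
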