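import Pool.Agent.Lib_MP_6b5565_dg.V2b

/-! [DG-V2c] reduction of a description -/

namespace QGd

open EuclideanGeometry

noncomputable section

variable {P : Poly}

private theorem v2c_ne {N : ℕ} {x : ZMod N → E3} (hs : ∀ (i j : ZMod N) (s t : ℝ), 0 ≤ s → s < 1 →
    0 ≤ t → t < 1 → AffineMap.lineMap (x i) (x (i + 1)) s =
      (AffineMap.lineMap (x j) (x (j + 1)) t : E3) → i = j ∧ s = t) (i : ZMod N) :
    x i ≠ x (i + 1) := by
  intro h
  have h1 := hs i i 0 (1 / 2) le_rfl (by norm_num) (by norm_num) (by norm_num) (by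
    rw [← h, AffineMap.lineMap_same]
    rfl)
  have := h1.2
  norm_num at this

private theorem v2c_pre : ∀ (n N : ℕ), N ≤ n → ∀ [NeZero N] (γ : Pre P N),
    ∃ (N' : ℕ) (_ : NeZero N') (γ' : SCQ P N'), ∀ i, ∃ k, γ'.x i = γ.x k := by
  intro n
  induction n with
  | zero =>
    intro N hN _ _
    exact absurd (Nat.le_zero.1 hN) (NeZero.ne N)
  | succ n ih =>
    intro N hN _ γ
    by_cases h : ∀ i, (∃ d, P.CrossAt (γ.x (i - 1)) (γ.x i) (γ.x (i + 1)) d) ∨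
        ∃ v, P.TurnAt (γ.x (i - 1)) (γ.x i) (γ.x (i + 1)) v
    · exact ⟨N, inferInstance, ⟨γ.x, γ.f, γ.mem, γ.simple, h⟩, fun i => ⟨i, rfl⟩⟩
    · push Not at h
      obtain ⟨i, h1, h2⟩ := h
      have h3 : ∃ d, γ.x (i - 1) ∈ P.tri d ∧ γ.x (i + 1) ∈ P.tri d ∧
          Sbtw ℝ (γ.x (i - 1)) (γ.x i) (γ.x (i + 1)) := by
        rcases γ.node i with ⟨d, hd⟩ | ⟨v, hv⟩ | h3
        · exact absurd hd (h1 d)
        · exact absurd hv (h2 v)
        · exact h3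
      have h4 := γ.three_le
      obtain ⟨m, rfl⟩ : ∃ m, N = m + 1 := ⟨N - 1, by omega⟩
      obtain ⟨γ₁, hγ₁⟩ := γ.rotate i
      have h5 : ∃ d, γ₁.x (0 - 1) ∈ P.tri d ∧ γ₁.x (0 + 1) ∈ P.tri d ∧
          Sbtw ℝ (γ₁.x (0 - 1)) (γ₁.x 0) (γ₁.x (0 + 1)) := by
        rw [hγ₁, hγ₁, hγ₁, show (0 - 1 + i : ZMod (m + 1)) = i - 1 by ring,
          show (0 + 1 + i : ZMod (m + 1)) = i + 1 by ring, zero_add]
        exact h3
      obtain ⟨γ₂, hγ₂⟩ := Pre.delete (by omega : 2 ≤ m) γ₁ h5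
      haveI : NeZero m := ⟨by omega⟩
      obtain ⟨N', hN', γ', hγ'⟩ := ih m (by omega) γ₂
      refine ⟨N', hN', γ', fun j => ?_⟩
      obtain ⟨k, hk⟩ := hγ' j
      obtain ⟨l, hl⟩ := hγ₂ k
      exact ⟨l + i, by rw [hk, hl, hγ₁]⟩

/-- [DG-V2d] REDUCTION (induction on `N`) -/
theorem Desc.reduce {N : ℕ} [NeZero N] (γ : Desc P N) : ∃ (N' : ℕ) (_ : NeZero N') (γ' : SCQ P N'),
    ∀ i, ∃ k, γ'.x i = γ.x k := by
  have hne := v2c_ne γ.simple
  refine v2c_pre N N le_rfl ⟨γ.x, γ.f, γ.mem, γ.simple, fun i => ?_⟩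
  rcases γ.node i with h | h
  · have h1 : γ.x (i - 1) ≠ γ.x i := by
      have := hne (i - 1)
      rwa [sub_add_cancel] at this
    exact quasi_cases h1 (hne i).symm h
  · exact Or.inr (Or.inr h)

end

end QGd
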