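import Pool.Agent.Lib_MP_6b5565_dg.R3e
import Pool.Agent.Lib_MP_6b5565_dg.G1b

/-! [DG-Y1] reality of the conjugates of the crossing parameters -/

namespace QGd

open EuclideanGeometry Polynomial ComplexConjugate

noncomputable section

/-- [DG-Y1a] CM PROPERTY. A real number in the field generated by square roots `isq (D i)` of
negative integers (`D i > 0`) is algebraic and all its conjugates are real. (The field `L` is normal
over `ℚ`; every embedding of `L` into `ℂ` is `x ↦ σ x` with `σ ∈ Aut L`, which is determined by the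
signs of the generators, so `σ` commutes with complex conjugation.) -/
theorem cm_real (n : ℕ) (D : ℕ → ℤ) (hD : ∀ i < n, 0 < D i) (lam : ℝ)
    (h : (lam : ℂ) ∈ IntermediateField.adjoin ℚ ((fun i => isq (D i)) '' (Set.Iio n))) :
    IsAlgebraic ℚ lam ∧ ∀ z : ℂ, aeval z (minpoly ℚ lam) = 0 → z.im = 0 := by
  have hsq : ∀ i < n, isq (D i) ^ 2 = ((-(D i : ℚ) : ℚ) : ℂ) := by
    intro i hi
    have h0 : (0 : ℝ) ≤ (D i : ℝ) := by exact_mod_cast (hD i hi).le
    unfold isq
    rw [mul_pow, Complex.I_sq, ← Complex.ofReal_pow, Real.sq_sqrt h0]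
    push_cast
    ring
  have hconj : ∀ i, conj (isq (D i)) = -isq (D i) := by
    intro i
    unfold isq
    rw [map_mul, Complex.conj_ofReal, Complex.conj_I]
    ring
  have hint : ∀ i < n, IsIntegral ℚ (isq (D i)) := by
    intro i hi
    refine ⟨X ^ 2 + C (D i : ℚ), by monicity!, ?_⟩
    rw [← aeval_def, map_add, map_pow, aeval_X, aeval_C, hsq i hi]
    simp
  have hK : ∀ s ∈ ((fun i => isq (D i)) '' (Set.Iio n)), IsIntegral ℚ s ∧
      ((minpoly ℚ s).map (algebraMap ℚ ℂ)).Splits := by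
    rintro s ⟨i, hi, rfl⟩
    exact ⟨hint i hi, IsAlgClosed.splits _⟩
  have halg : Algebra.IsAlgebraic ℚ
      (IntermediateField.adjoin ℚ ((fun i => isq (D i)) '' (Set.Iio n))) :=
    IntermediateField.isAlgebraic_adjoin (fun s hs => (hK s hs).1)
  have hmin : minpoly ℚ lam = minpoly ℚ (lam : ℂ) :=
    (minpoly.algebraMap_eq (A := ℚ) (B := ℝ) (B' := ℂ) Complex.ofReal_injective lam).symm
  have hL : IsAlgebraic ℚ (lam : ℂ) := by
    have := Algebra.IsAlgebraic.isAlgebraic (R := ℚ)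
      (⟨(lam : ℂ), h⟩ : IntermediateField.adjoin ℚ ((fun i => isq (D i)) '' (Set.Iio n)))
    exact this.algebraMap (A := ℂ)
  have hlam : IsAlgebraic ℚ lam := by
    exact (isAlgebraic_algebraMap_iff (R := ℚ) (A := ℂ) (S := ℝ) Complex.ofReal_injective).mp hL
  refine ⟨hlam, ?_⟩
  intro z hz
  rw [hmin] at hz
  obtain ⟨φ, hφ⟩ := IntermediateField.exists_algHom_adjoin_of_splits_of_aeval hK h hz
  have key : ∀ (x : ℂ) (hx : x ∈ IntermediateField.adjoin ℚ
      ((fun i => isq (D i)) '' (Set.Iio n))),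
      ∃ hx' : conj x ∈ IntermediateField.adjoin ℚ ((fun i => isq (D i)) '' (Set.Iio n)),
        φ ⟨conj x, hx'⟩ = conj (φ ⟨x, hx⟩) := by
    intro x hx
    refine IntermediateField.adjoin_induction (F := ℚ)
      (p := fun x hx => ∃ hx' : conj x ∈ IntermediateField.adjoin ℚ
        ((fun i => isq (D i)) '' (Set.Iio n)), φ ⟨conj x, hx'⟩ = conj (φ ⟨x, hx⟩))
      ?_ ?_ ?_ ?_ ?_ hx
    · rintro y ⟨i, hi, rfl⟩
      have hm : isq (D i) ∈ IntermediateField.adjoin ℚ ((fun i => isq (D i)) '' (Set.Iio n)) :=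
        IntermediateField.subset_adjoin _ _ ⟨i, hi, rfl⟩
      have hm' : conj (isq (D i)) ∈ IntermediateField.adjoin ℚ
          ((fun i => isq (D i)) '' (Set.Iio n)) := by
        rw [hconj]
        exact neg_mem hm
      refine ⟨hm', ?_⟩
      have h1 : φ ⟨isq (D i), hm⟩ ^ 2 = isq (D i) ^ 2 := by
        rw [← map_pow, hsq i hi]
        have : (⟨isq (D i), hm⟩ : IntermediateField.adjoin ℚ
            ((fun i => isq (D i)) '' (Set.Iio n))) ^ 2 = (((-(D i : ℚ)) : ℚ) : _) := by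
          apply Subtype.ext
          have := hsq i hi
          push_cast at this ⊢
          exact this
        rw [this, map_ratCast]
      have h2 : (⟨conj (isq (D i)), hm'⟩ : IntermediateField.adjoin ℚ
            ((fun i => isq (D i)) '' (Set.Iio n))) = -⟨isq (D i), hm⟩ := by
        apply Subtype.ext
        exact hconj i
      have h3 : conj (φ ⟨isq (D i), hm⟩) = -φ ⟨isq (D i), hm⟩ := by
        rcases sq_eq_sq_iff_eq_or_eq_neg.mp h1 with h | h
        · rw [h, hconj]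
        · rw [h, map_neg, hconj]
      change φ ⟨conj (isq (D i)), hm'⟩ = conj (φ ⟨isq (D i), hm⟩)
      rw [h2, map_neg, h3]
    · intro q
      have h1 : conj (algebraMap ℚ ℂ q) = algebraMap ℚ ℂ q := by simp
      refine ⟨by rw [h1]; exact IntermediateField.algebraMap_mem _ q, ?_⟩
      have h2 : (⟨algebraMap ℚ ℂ q, IntermediateField.algebraMap_mem _ q⟩ :
        IntermediateField.adjoin ℚ ((fun i => isq (D i)) '' (Set.Iio n))) = (q : _) :=
        Subtype.ext (by simp)
      have h3 : (⟨conj (algebraMap ℚ ℂ q), by rw [h1]; exact IntermediateField.algebraMap_mem _ q⟩ :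
        IntermediateField.adjoin ℚ ((fun i => isq (D i)) '' (Set.Iio n))) = (q : _) :=
        Subtype.ext (by simp)
      rw [h3, h2, map_ratCast]
      simp
    · rintro y w hy hw ⟨hy', h1⟩ ⟨hw', h2⟩
      refine ⟨by rw [map_add]; exact add_mem hy' hw', ?_⟩
      have e1 : (⟨conj (y + w), by rw [map_add]; exact add_mem hy' hw'⟩ :
        IntermediateField.adjoin ℚ ((fun i => isq (D i)) '' (Set.Iio n))) =
          ⟨conj y, hy'⟩ + ⟨conj w, hw'⟩ := Subtype.ext (map_add _ _ _)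
      have e2 : (⟨y + w, add_mem hy hw⟩ :
        IntermediateField.adjoin ℚ ((fun i => isq (D i)) '' (Set.Iio n))) = ⟨y, hy⟩ + ⟨w, hw⟩ := rfl
      rw [e1, e2, map_add, map_add, map_add, h1, h2]
    · rintro y hy ⟨hy', h1⟩
      refine ⟨by rw [map_inv₀]; exact inv_mem hy', ?_⟩
      have e1 : (⟨conj y⁻¹, by rw [map_inv₀]; exact inv_mem hy'⟩ :
        IntermediateField.adjoin ℚ ((fun i => isq (D i)) '' (Set.Iio n))) =
          ⟨conj y, hy'⟩⁻¹ := Subtype.ext (map_inv₀ _ _)
      have e2 : (⟨y⁻¹, inv_mem hy⟩ :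
        IntermediateField.adjoin ℚ ((fun i => isq (D i)) '' (Set.Iio n))) = ⟨y, hy⟩⁻¹ := rfl
      rw [e1, e2, map_inv₀, map_inv₀, map_inv₀, h1]
    · rintro y w hy hw ⟨hy', h1⟩ ⟨hw', h2⟩
      refine ⟨by rw [map_mul]; exact mul_mem hy' hw', ?_⟩
      have e1 : (⟨conj (y * w), by rw [map_mul]; exact mul_mem hy' hw'⟩ :
        IntermediateField.adjoin ℚ ((fun i => isq (D i)) '' (Set.Iio n))) =
          ⟨conj y, hy'⟩ * ⟨conj w, hw'⟩ := Subtype.ext (map_mul _ _ _)
      have e2 : (⟨y * w, mul_mem hy hw⟩ :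
        IntermediateField.adjoin ℚ ((fun i => isq (D i)) '' (Set.Iio n))) = ⟨y, hy⟩ * ⟨w, hw⟩ := rfl
      rw [e1, e2, map_mul, map_mul, map_mul, h1, h2]
  obtain ⟨hx', hx⟩ := key (lam : ℂ) h
  have e1 : (⟨conj (lam : ℂ), hx'⟩ :
      IntermediateField.adjoin ℚ ((fun i => isq (D i)) '' (Set.Iio n))) = ⟨(lam : ℂ), h⟩ :=
    Subtype.ext (Complex.conj_ofReal lam)
  rw [e1, hφ] at hx
  exact Complex.conj_eq_iff_im.mp hx.symm

end

end QGd
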