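import Pool.Agent.Lib_MP_6b5565_dg.Y1

/-! [DG-Y1b] reality of the conjugates of the crossing parameters -/

namespace QGd

open EuclideanGeometry Polynomial ComplexConjugate

noncomputable section

private theorem sv_le (n : ℕ) : ∀ P : ℝ[X], P.support.card ≤ n + 1 → P.signVariations ≤ n := by
  induction n with
  | zero =>
    intro P hP
    rcases Nat.lt_or_ge P.support.card 1 with h | h
    · have : P = 0 := by
        rw [← Polynomial.card_support_eq_zero]
        omega
      rw [this]
      simp
    · have h1 : P.support.card = 1 := by omega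
      rw [Polynomial.card_support_eq_one] at h1
      obtain ⟨k, x, hx, rfl⟩ := h1
      rw [Polynomial.C_mul_X_pow_eq_monomial, signVariations_monomial]
  | succ n ih =>
    intro P hP
    have h1 : P.eraseLead.support.card ≤ n + 1 := by
      by_cases h0 : P = 0
      · rw [h0]; simp
      · have := Polynomial.card_support_eraseLead (f := P)
        omega
    have h2 := ih _ h1
    have h3 := signVariations_le_eraseLead_succ P
    omega

private theorem card_roots_le (P : ℝ[X]) (hP : P ≠ 0) :
    P.roots.toFinset.card + 1 ≤ 2 * P.support.card := by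
  obtain ⟨n, hn⟩ : ∃ n, P.support.card = n + 1 := by
    refine ⟨P.support.card - 1, ?_⟩
    have : P.support.card ≠ 0 := by
      rw [Ne, Polynomial.card_support_eq_zero]
      exact hP
    omega
  have hpos : (P.roots.toFinset.filter (0 < ·)).card ≤ n := by
    refine le_trans ?_ (sv_le n P hn.le)
    refine le_trans ?_ (roots_countP_pos_le_signVariations (P := P))
    rw [Multiset.countP_eq_card_filter, ← Multiset.toFinset_filter]
    exact Multiset.toFinset_card_le _
  have hQs : (P.comp (-X)).support = P.support := by
    ext k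
    rw [mem_support_iff, mem_support_iff]
    have : (-X : ℝ[X]) = C (-1) * X := by simp
    rw [this, comp_C_mul_X_coeff]
    simp
  have hneg : (P.roots.toFinset.filter (· < 0)).card ≤ n := by
    refine le_trans ?_ (sv_le n (P.comp (-X)) (by rw [hQs]; exact hn.le))
    refine le_trans ?_ (roots_countP_pos_le_signVariations (P := P.comp (-X)))
    rw [roots_comp_neg_X, Multiset.countP_map]
    have h1 : (Multiset.filter (fun a : ℝ => 0 < -a) P.roots) =
        Multiset.filter (fun a : ℝ => a < 0) P.roots := by
      congr 1
      ext a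
      simp
    rw [h1, ← Multiset.toFinset_filter]
    exact Multiset.toFinset_card_le _
  have hsplit : P.roots.toFinset ⊆ (P.roots.toFinset.filter (0 < ·)) ∪
      ((P.roots.toFinset.filter (· < 0)) ∪ {0}) := by
    intro x hx
    rcases lt_trichotomy x 0 with h | h | h
    · simp only [Finset.mem_union, Finset.mem_filter, hx, h, true_and, true_or, or_true]
    · simp [h]
    · simp only [Finset.mem_union, Finset.mem_filter, hx, h, true_and, true_or]
  have h1 := Finset.card_le_card hsplit
  have h2 := Finset.card_union_le (P.roots.toFinset.filter (0 < ·))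
    ((P.roots.toFinset.filter (· < 0)) ∪ {0})
  have h3 := Finset.card_union_le (P.roots.toFinset.filter (· < 0)) {(0 : ℝ)}
  have h4 : ({0} : Finset ℝ).card = 1 := Finset.card_singleton _
  omega

/-- [DG-Y1b] DESCARTES. If all roots of the minimal polynomial of `μ` are real, then every nonzero
integer polynomial with the root `μ` has at least `(deg μ + 1) / 2` nonzero coefficients
(`Polynomial.roots_countP_pos_le_signVariations` for `F(X)` and `F(-X)`). -/
theorem support_card_ge (μ : ℝ) (hμ : IsAlgebraic ℚ μ)
    (hreal : ∀ z : ℂ, aeval z (minpoly ℚ μ) = 0 → z.im = 0) (F : ℤ[X]) (hF : F ≠ 0)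
    (h : aeval μ F = 0) : (minpoly ℚ μ).natDegree + 1 ≤ 2 * F.support.card := by
  have hirr : Irreducible (minpoly ℚ μ) := minpoly.irreducible hμ.isIntegral
  have hne : minpoly ℚ μ ≠ 0 := hirr.ne_zero
  have hdeg : Fintype.card ((minpoly ℚ μ).rootSet ℂ) = (minpoly ℚ μ).natDegree :=
    card_rootSet_eq_natDegree hirr.separable (IsAlgClosed.splits _)
  set P : ℝ[X] := F.map (algebraMap ℤ ℝ) with hPdef
  have hinj : Function.Injective (algebraMap ℤ ℝ) := (algebraMap ℤ ℝ).injective_int
  have hP : P ≠ 0 := by
    rw [hPdef, Ne, Polynomial.map_eq_zero_iff hinj]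
    exact hF
  have hPs : P.support = F.support := Polynomial.support_map_of_injective F hinj
  have hdvd : minpoly ℚ μ ∣ F.map (algebraMap ℤ ℚ) := by
    apply minpoly.dvd
    rw [aeval_map_algebraMap]
    exact h
  have hroot : ∀ z ∈ (minpoly ℚ μ).rootSet ℂ, z.re ∈ P.roots.toFinset := by
    intro z hz
    rw [mem_rootSet] at hz
    have him := hreal z hz.2
    have hzz : z = ((z.re : ℝ) : ℂ) := by
      apply Complex.ext
      · simp
      · simp [him]
    obtain ⟨G, hG⟩ := hdvd
    have h1 : aeval z (F.map (algebraMap ℤ ℚ)) = 0 := by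
      rw [hG, map_mul, hz.2, zero_mul]
    rw [aeval_map_algebraMap] at h1
    rw [Multiset.mem_toFinset, mem_roots hP, IsRoot.def, hPdef, eval_map_algebraMap]
    have h2 : ((aeval z.re F : ℝ) : ℂ) = aeval z F := by
      conv_rhs => rw [hzz]
      have := aeval_algebraMap_apply ℂ z.re F
      simpa using this.symm
    rw [h1] at h2
    exact_mod_cast h2
  have hcard : Fintype.card ((minpoly ℚ μ).rootSet ℂ) ≤ P.roots.toFinset.card := by
    rw [← Fintype.card_coe]
    refine Fintype.card_le_of_injective (fun z => ⟨z.1.re, hroot z.1 z.2⟩) ?_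
    intro z w hzw
    simp only [Subtype.mk.injEq] at hzw
    apply Subtype.ext
    apply Complex.ext hzw
    have h1 := hreal z.1 (mem_rootSet.mp z.2).2
    have h2 := hreal w.1 (mem_rootSet.mp w.2).2
    rw [h1, h2]
  have := card_roots_le P hP
  rw [hPs] at this
  omega

end

end QGd
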