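import Pool.Agent.Lib_MP_6b5565_dg.Y1b

/-! [DG-Y1c] reality of the conjugates of the crossing parameters -/

namespace QGd

open EuclideanGeometry Polynomial ComplexConjugate

noncomputable section

private theorem aff_aux (lam : ℝ) (r s : ℚ) (hs : s ≠ 0) (ha : IsAlgebraic ℚ lam) :
    IsAlgebraic ℚ ((r : ℝ) + (s : ℝ) * lam) ∧
    (minpoly ℚ ((r : ℝ) + (s : ℝ) * lam)).natDegree ≤ (minpoly ℚ lam).natDegree ∧
    ∀ z : ℂ, aeval z (minpoly ℚ ((r : ℝ) + (s : ℝ) * lam)) = 0 →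
      aeval ((z - r) / s) (minpoly ℚ lam) = 0 := by
  have hs' : (s : ℝ) ≠ 0 := by exact_mod_cast hs
  have hsc : (s : ℂ) ≠ 0 := by exact_mod_cast hs
  have hi : (1 / s : ℚ) ≠ 0 := one_div_ne_zero hs
  obtain ⟨L, hL⟩ : ∃ L : ℚ[X], L = C (1 / s) * X + C (-(r / s)) := ⟨_, rfl⟩
  have hLd : L.natDegree = 1 := by rw [hL]; exact natDegree_linear hi
  have h0 : minpoly ℚ lam ≠ 0 := minpoly.ne_zero ha.isIntegral
  have hd : ((minpoly ℚ lam).comp L).natDegree = (minpoly ℚ lam).natDegree := by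
    rw [natDegree_comp, hLd, mul_one]
  have hpos : 0 < (minpoly ℚ lam).natDegree := minpoly.natDegree_pos ha.isIntegral
  have hq0 : (minpoly ℚ lam).comp L ≠ 0 := by
    intro h
    rw [h, natDegree_zero] at hd
    omega
  have hL1 : aeval ((r : ℝ) + (s : ℝ) * lam) L = lam := by
    rw [hL]
    simp only [map_add, map_mul, aeval_C, aeval_X, eq_ratCast]
    push_cast
    field_simp
    ring
  have hq : aeval ((r : ℝ) + (s : ℝ) * lam) ((minpoly ℚ lam).comp L) = 0 := by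
    rw [aeval_comp, hL1, minpoly.aeval]
  have hdvd := minpoly.dvd ℚ _ hq
  refine ⟨⟨_, hq0, hq⟩, ?_, fun z hz => ?_⟩
  · rw [← hd]
    exact natDegree_le_of_dvd hdvd hq0
  · obtain ⟨g, hg⟩ := hdvd
    have h1 : aeval z ((minpoly ℚ lam).comp L) = 0 := by
      rw [hg, map_mul, hz, zero_mul]
    rw [aeval_comp] at h1
    have h2 : aeval z L = (z - r) / s := by
      rw [hL]
      simp only [map_add, map_mul, aeval_C, aeval_X, eq_ratCast]
      push_cast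
      field_simp
      ring
    rwa [h2] at h1

/-- [DG-Y1c] affine images -/
theorem real_affine (lam : ℝ) (r s : ℚ) (hs : s ≠ 0) (ha : IsAlgebraic ℚ lam)
    (hreal : ∀ z : ℂ, aeval z (minpoly ℚ lam) = 0 → z.im = 0) :
    IsAlgebraic ℚ ((r : ℝ) + (s : ℝ) * lam) ∧
    (minpoly ℚ ((r : ℝ) + (s : ℝ) * lam)).natDegree = (minpoly ℚ lam).natDegree ∧
    ∀ z : ℂ, aeval z (minpoly ℚ ((r : ℝ) + (s : ℝ) * lam)) = 0 → z.im = 0 := by
  obtain ⟨h1, h2, h3⟩ := aff_aux lam r s hs ha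
  have hs' : (s : ℝ) ≠ 0 := by exact_mod_cast hs
  have hi : (1 / s : ℚ) ≠ 0 := one_div_ne_zero hs
  obtain ⟨-, h4, -⟩ := aff_aux ((r : ℝ) + (s : ℝ) * lam) (-(r / s)) (1 / s) hi h1
  have e : ((-(r / s) : ℚ) : ℝ) + ((1 / s : ℚ) : ℝ) * ((r : ℝ) + (s : ℝ) * lam) = lam := by
    push_cast
    field_simp
    ring
  rw [e] at h4
  refine ⟨h1, le_antisymm h2 h4, fun z hz => ?_⟩
  have h5 := hreal _ (h3 z hz)
  have hsc : (s : ℂ) ≠ 0 := by exact_mod_cast hs
  have e2 : z = (((s : ℝ) : ℂ)) * ((z - r) / s) + ((r : ℝ) : ℂ) := by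
    push_cast
    field_simp
    ring
  rw [e2, Complex.add_im, Complex.im_ofReal_mul, h5, Complex.ofReal_im]
  ring

end

end QGd
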