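import Pool.Agent.Lib_MP_6b5565_dg.Y1c
import Pool.Agent.Lib_MP_6b5565_dg.Stmt

/-! [DG-Y2] development of an arc between two vertices -/

namespace QGd

open EuclideanGeometry Polynomial ComplexConjugate

noncomputable section

/-- the field generated by the `isq` of all faces -/
def IPoly.fld (I : IPoly) : IntermediateField ℚ ℂ :=
  IntermediateField.adjoin ℚ (Set.range fun d : I.D =>
    isq (DD (I.c (I.tail d)) (I.c (I.tail (I.nxt d))) (I.c (I.tail (I.nxt (I.nxt d))))))

/-- [DG-Y2a] the field is closed under complex conjugation -/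
theorem IPoly.fld_conj (I : IPoly) (z : ℂ) (h : z ∈ I.fld) : conj z ∈ I.fld := by
  unfold IPoly.fld at h ⊢
  refine IntermediateField.adjoin_induction ℚ
    (p := fun z _ => conj z ∈ IntermediateField.adjoin ℚ (Set.range fun d : I.D =>
      isq (DD (I.c (I.tail d)) (I.c (I.tail (I.nxt d))) (I.c (I.tail (I.nxt (I.nxt d)))))))
    ?_ ?_ ?_ ?_ ?_ h
  · rintro x ⟨d, rfl⟩
    have h1 : conj (isq (DD (I.c (I.tail d)) (I.c (I.tail (I.nxt d)))
        (I.c (I.tail (I.nxt (I.nxt d)))))) = -isq (DD (I.c (I.tail d)) (I.c (I.tail (I.nxt d)))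
        (I.c (I.tail (I.nxt (I.nxt d))))) := by
      unfold isq
      rw [map_mul, Complex.conj_ofReal, Complex.conj_I, mul_neg]
    show conj (isq (DD (I.c (I.tail d)) (I.c (I.tail (I.nxt d)))
        (I.c (I.tail (I.nxt (I.nxt d)))))) ∈ _
    rw [h1]
    exact neg_mem (IntermediateField.subset_adjoin ℚ _ ⟨d, rfl⟩)
  · intro q
    have h1 : conj (algebraMap ℚ ℂ q) = algebraMap ℚ ℂ q := by
      simp
    rw [h1]
    exact (IntermediateField.adjoin ℚ _).algebraMap_mem q
  · intro x y _ _ hx hy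
    rw [map_add]
    exact add_mem hx hy
  · intro x _ hx
    rw [map_inv₀]
    exact inv_mem hx
  · intro x y _ _ hx hy
    rw [map_mul]
    exact mul_mem hx hy

/-- [DG-Y2b] THE THIRD CORNER. If the corners `A, B` of a face have been placed at `a, b ∈ fld` (with
`|b - a|` in the right proportion), then the third corner, on the left of `a → b`, is placed at
`a + (b - a) (⟨B-A, C-A⟩ + i √DD) / |B-A|² ∈ fld`. -/
theorem IPoly.third_mem (I : IPoly) (d : I.D) (a b : ℂ) (ha : a ∈ I.fld) (hb : b ∈ I.fld) :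
    a + (b - a) * (((IP (I.c (I.tail d)) (I.c (I.tail (I.nxt d)))
        (I.c (I.tail (I.nxt (I.nxt d)))) : ℤ) : ℂ) +
      isq (DD (I.c (I.tail d)) (I.c (I.tail (I.nxt d))) (I.c (I.tail (I.nxt (I.nxt d)))))) /
      ((IP (I.c (I.tail d)) (I.c (I.tail (I.nxt d))) (I.c (I.tail (I.nxt d))) : ℤ) : ℂ) ∈
      I.fld := by
  have hz : ∀ m : ℤ, ((m : ℤ) : ℂ) ∈ I.fld := fun m => by simp
  refine add_mem ha (div_mem (mul_mem (sub_mem hb ha) (add_mem (hz _) ?_)) (hz _))
  exact IntermediateField.subset_adjoin ℚ _ ⟨d, rfl⟩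

end

end QGd
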