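import Pool.Agent.Lib_MP_6b5565_dg.Y2

/-! [DG-Y2b] development of an arc between two vertices -/

namespace QGd

open EuclideanGeometry Polynomial ComplexConjugate

noncomputable section

/-- a placement of the face of `d` in the plane: a similarity `f` of the plane of the face to `ℂ`,
with the corners at points of `fld` -/
structure IPoly.Place (I : IPoly) (d : I.D) where
  a : ℂ
  b : ℂ
  ha : a ∈ I.fld
  hb : b ∈ I.fld
  ne : a ≠ b

/-- image of a point of the face of `d`: for `x = A + s (B - A) + t (C - A)` the point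
`a + (b - a) (s + t (IP + isq DD) / |B-A|²)` -/
def IPoly.Place.img {I : IPoly} {d : I.D} (p : I.Place d) (s t : ℝ) : ℂ :=
  p.a + (p.b - p.a) * ((s : ℂ) + (t : ℂ) * (((IP (I.c (I.tail d)) (I.c (I.tail (I.nxt d)))
        (I.c (I.tail (I.nxt (I.nxt d)))) : ℤ) : ℂ) +
      isq (DD (I.c (I.tail d)) (I.c (I.tail (I.nxt d))) (I.c (I.tail (I.nxt (I.nxt d)))))) /
      ((IP (I.c (I.tail d)) (I.c (I.tail (I.nxt d))) (I.c (I.tail (I.nxt d))) : ℤ) : ℂ))

/-! ### auxiliary facts -/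

private theorem inner_IP (h a b : Fin 3 → ℤ) : inner ℝ (pt a - pt h) (pt b - pt h) = ((IP h a b : ℤ) : ℝ) := by
  rw [PiLp.inner_apply, Fin.sum_univ_three]
  simp only [pt, IP, PiLp.sub_apply, Matrix.cons_val_zero, Matrix.cons_val_one, Matrix.cons_val,
    RCLike.inner_apply, conj_trivial]
  push_cast
  ring

private theorem DD_eq (h a b : Fin 3 → ℤ) : DD h a b = IP h a a * IP h b b - IP h a b ^ 2 := by
  simp only [DD, IP, icrs, Matrix.cons_val_zero, Matrix.cons_val_one, Matrix.cons_val]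
  ring

private theorem IP_rot1 (h a b : Fin 3 → ℤ) : IP a b h = IP h a a - IP h a b := by
  simp only [IP]; ring

private theorem IP_rot2 (h a b : Fin 3 → ℤ) : IP a b b = IP h b b - 2 * IP h a b + IP h a a := by
  simp only [IP]; ring

private theorem DD_rot (h a b : Fin 3 → ℤ) : DD a b h = DD h a b := by
  simp only [DD, icrs, Matrix.cons_val_zero, Matrix.cons_val_one, Matrix.cons_val]
  ring

/-- affine coordinates are unique -/
private theorem coord_unique (I : IPoly) (d : I.D) (s t : ℝ)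
    (h : s • (I.rp (I.tail (I.nxt d)) - I.rp (I.tail d)) +
      t • (I.rp (I.tail (I.nxt (I.nxt d))) - I.rp (I.tail d)) = 0) : s = 0 ∧ t = 0 := by
  have h1 := (affineIndependent_iff.1 (I.indep d)) Finset.univ ![-s - t, s, t]
    (by
      rw [Fin.sum_univ_three]
      simp only [Matrix.cons_val_zero, Matrix.cons_val_one, Matrix.cons_val]
      ring) (by
      rw [Fin.sum_univ_three]
      simp only [Matrix.cons_val_zero, Matrix.cons_val_one, Matrix.cons_val]
      rw [← h]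
      module)
  have h2 := h1 1 (Finset.mem_univ _)
  have h3 := h1 2 (Finset.mem_univ _)
  simp only [Matrix.cons_val_one, Matrix.cons_val] at h2 h3
  exact ⟨h2, h3⟩

private theorem inner_comb (u v : E3) (s t : ℝ) : inner ℝ (s • u + t • v) u =
    s * inner ℝ u u + t * inner ℝ u v := by
  rw [inner_add_left, real_inner_smul_left, real_inner_smul_left, real_inner_comm u v]

private theorem norm_comb (u v : E3) (s t : ℝ) : inner ℝ u u * ‖s • u + t • v‖ ^ 2 =
    inner ℝ (s • u + t • v) u ^ 2 + t ^ 2 * (inner ℝ u u * inner ℝ v v - inner ℝ u v ^ 2) := by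
  rw [inner_comb, ← real_inner_self_eq_norm_sq, inner_add_left, inner_add_right, inner_add_right,
    real_inner_smul_left, real_inner_smul_left, real_inner_smul_right, real_inner_smul_right,
    real_inner_smul_left, real_inner_smul_left, real_inner_smul_right, real_inner_smul_right,
    real_inner_comm u v]
  ring

/-- integer Gram data of a face -/
private def nN (I : IPoly) (d : I.D) : ℤ :=
  IP (I.c (I.tail d)) (I.c (I.tail (I.nxt d))) (I.c (I.tail (I.nxt d)))
private def nM (I : IPoly) (d : I.D) : ℤ :=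
  IP (I.c (I.tail d)) (I.c (I.tail (I.nxt d))) (I.c (I.tail (I.nxt (I.nxt d))))
private def nL (I : IPoly) (d : I.D) : ℤ :=
  IP (I.c (I.tail d)) (I.c (I.tail (I.nxt (I.nxt d)))) (I.c (I.tail (I.nxt (I.nxt d))))
private def nD (I : IPoly) (d : I.D) : ℤ :=
  DD (I.c (I.tail d)) (I.c (I.tail (I.nxt d))) (I.c (I.tail (I.nxt (I.nxt d))))

private theorem nD_eq (I : IPoly) (d : I.D) : nD I d = nN I d * nL I d - nM I d ^ 2 := DD_eq _ _ _

/-- edge vectors -/
private def eU (I : IPoly) (d : I.D) : E3 := I.rp (I.tail (I.nxt d)) - I.rp (I.tail d)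
private def eV (I : IPoly) (d : I.D) : E3 := I.rp (I.tail (I.nxt (I.nxt d))) - I.rp (I.tail d)

private theorem inner_UU (I : IPoly) (d : I.D) : inner ℝ (eU I d) (eU I d) = ((nN I d : ℤ) : ℝ) :=
  inner_IP _ _ _
private theorem inner_UV (I : IPoly) (d : I.D) : inner ℝ (eU I d) (eV I d) = ((nM I d : ℤ) : ℝ) :=
  inner_IP _ _ _
private theorem inner_VV (I : IPoly) (d : I.D) : inner ℝ (eV I d) (eV I d) = ((nL I d : ℤ) : ℝ) :=
  inner_IP _ _ _

private theorem uv_unique (I : IPoly) (d : I.D) (s t : ℝ) (h : s • eU I d + t • eV I d = 0) :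
    s = 0 ∧ t = 0 := coord_unique I d s t h

private theorem eU_ne (I : IPoly) (d : I.D) : eU I d ≠ 0 := by
  intro h
  have := uv_unique I d 1 0 (by rw [h]; simp)
  exact one_ne_zero this.1

private theorem N_pos (I : IPoly) (d : I.D) : (0 : ℝ) < ((nN I d : ℤ) : ℝ) := by
  rw [← inner_UU, real_inner_self_eq_norm_sq]
  exact pow_pos (norm_pos_iff.2 (eU_ne I d)) 2

private theorem norm_uv (I : IPoly) (d : I.D) (s t : ℝ) :
    ((nN I d : ℤ) : ℝ) * ‖s • eU I d + t • eV I d‖ ^ 2 =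
    (s * ((nN I d : ℤ) : ℝ) + t * ((nM I d : ℤ) : ℝ)) ^ 2 + t ^ 2 * ((nD I d : ℤ) : ℝ) := by
  have h := norm_comb (eU I d) (eV I d) s t
  rw [inner_comb, inner_UU, inner_UV, inner_VV] at h
  rw [h, nD_eq]
  push_cast
  ring

private theorem D_pos (I : IPoly) (d : I.D) : (0 : ℝ) < ((nD I d : ℤ) : ℝ) := by
  have hN := N_pos I d
  have h := norm_uv I d (-((nM I d : ℤ) : ℝ)) ((nN I d : ℤ) : ℝ)
  have h0 : (-((nM I d : ℤ) : ℝ)) • eU I d + ((nN I d : ℤ) : ℝ) • eV I d ≠ 0 := fun h0 =>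
    hN.ne' (uv_unique I d _ _ h0).2
  have h1 : (0 : ℝ) < ‖(-((nM I d : ℤ) : ℝ)) • eU I d + ((nN I d : ℤ) : ℝ) • eV I d‖ ^ 2 :=
    pow_pos (norm_pos_iff.2 h0) 2
  have h2 := mul_pos hN h1
  rw [h] at h2
  have h3 : 0 < ((nN I d : ℤ) : ℝ) ^ 2 * ((nD I d : ℤ) : ℝ) := by
    calc _ < _ := h2
      _ = _ := by ring
  exact (pos_iff_pos_of_mul_pos h3).1 (by positivity)

/-- the ratio of the placed vectors `C - A` and `B - A` -/
private def rho (I : IPoly) (d : I.D) : ℂ :=
  (((nM I d : ℤ) : ℂ) + isq (nD I d)) / ((nN I d : ℤ) : ℂ)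

private def TT (I : IPoly) (d : I.D) (a b : ℂ) (s t : ℝ) : ℂ := a + (b - a) * ((s : ℂ) + (t : ℂ) * rho I d)

private def XX (I : IPoly) (d : I.D) (s t : ℝ) : E3 := I.rp (I.tail d) + (s • eU I d + t • eV I d)

private theorem rho_im (I : IPoly) (d : I.D) : 0 < (rho I d).im := by
  have hN := N_pos I d
  have hD := D_pos I d
  have h1 : rho I d = ((((nM I d : ℤ) : ℝ) / ((nN I d : ℤ) : ℝ) : ℝ) : ℂ) +
      ((Real.sqrt ((nD I d : ℤ) : ℝ) / ((nN I d : ℤ) : ℝ) : ℝ) : ℂ) * Complex.I := by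
    unfold rho isq
    push_cast
    ring
  rw [h1]
  simp only [Complex.add_im, Complex.ofReal_im, Complex.mul_im, Complex.ofReal_re, Complex.I_im,
    Complex.I_re, mul_one, mul_zero, zero_add, add_zero]
  exact div_pos (Real.sqrt_pos.2 hD) hN

private theorem isq_sq (D : ℤ) (h : (0 : ℝ) < (D : ℝ)) : isq D ^ 2 = -(D : ℂ) := by
  unfold isq
  rw [mul_pow, Complex.I_sq, ← Complex.ofReal_pow, Real.sq_sqrt h.le]
  push_cast
  ring

private theorem third_fld (I : IPoly) (d : I.D) (a b : ℂ) (ha : a ∈ I.fld) (hb : b ∈ I.fld) :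
    TT I d a b 0 1 ∈ I.fld := by
  have h := I.third_mem d a b ha hb
  unfold TT rho nM nD nN
  rw [mul_div_assoc] at h
  convert h using 2
  push_cast
  ring

/-- rotating the name of the face -/
private theorem rho_nxt (I : IPoly) (d : I.D) : (rho I d - 1) * rho I (I.nxt d) = -1 := by
  have hN := N_pos I d
  have hN' := N_pos I (I.nxt d)
  have hD := D_pos I d
  have e1 : nN I (I.nxt d) = nL I d - 2 * nM I d + nN I d := IP_rot2 _ _ _
  have e2 : nM I (I.nxt d) = nN I d - nM I d := by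
    unfold nM nN
    rw [I.nxt3]
    exact IP_rot1 _ _ _
  have e3 : nD I (I.nxt d) = nD I d := by
    unfold nD
    rw [I.nxt3]
    exact DD_rot _ _ _
  have hNc : ((nN I d : ℤ) : ℂ) ≠ 0 := by exact_mod_cast hN.ne'
  have hNc' : ((nN I (I.nxt d) : ℤ) : ℂ) ≠ 0 := by exact_mod_cast hN'.ne'
  have hsq := isq_sq _ hD
  have h5 := nD_eq I d
  have h6 : ((nD I d : ℤ) : ℂ) = (nN I d : ℂ) * (nL I d : ℂ) - (nM I d : ℂ) ^ 2 := by
    rw [h5]; push_cast; ring
  have hq : ((nN I (I.nxt d) : ℤ) : ℂ) = (nL I d : ℂ) - 2 * (nM I d : ℂ) + (nN I d : ℂ) := by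
    rw [e1]; push_cast; ring
  have h7 : isq (nD I d) * isq (nD I d) = -((nN I d : ℂ) * (nL I d : ℂ) - (nM I d : ℂ) ^ 2) := by
    rw [← h6, ← hsq]; ring
  unfold rho
  rw [e3, e2]
  push_cast
  field_simp
  linear_combination h7 + (nN I d : ℂ) * hq

private theorem TT_nxt (I : IPoly) (d : I.D) (a b : ℂ) (s t : ℝ) :
    TT I (I.nxt d) b (TT I d a b 0 1) t (1 - s - t) = TT I d a b s t := by
  have h := rho_nxt I d
  unfold TT
  push_cast
  linear_combination (b - a) * (1 - (s : ℂ) - (t : ℂ)) * h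

private theorem XX_nxt (I : IPoly) (d : I.D) (s t : ℝ) :
    XX I (I.nxt d) t (1 - s - t) = XX I d s t := by
  unfold XX eU eV
  rw [I.nxt3]
  module

private theorem XX_inj (I : IPoly) (d : I.D) {s t s' t' : ℝ} (h : XX I d s t = XX I d s' t') :
    s = s' ∧ t = t' := by
  have h1 := uv_unique I d (s - s') (t - t') (by
    unfold XX at h
    have h2 := add_left_cancel h
    rw [← sub_eq_zero] at h2
    rw [← h2]
    module)
  exact ⟨sub_eq_zero.1 h1.1, sub_eq_zero.1 h1.2⟩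


/-- coordinates of a point of a face off the edge -/
private theorem coord {P : Poly} {d : P.D} {x : E3} (hx : x ∈ P.tri d) (hxd : x ∉ P.seg d) :
    ∃ s β : ℝ, 0 < β ∧ x - P.A d = s • (P.B d - P.A d) + β • (P.A (P.prev d) - P.A d) := by
  have h1 : P.B d = P.A (P.nxt d) := by unfold Poly.A Poly.B; rw [Poly.head_eq]
  have hset : ({P.A d, P.A (P.nxt d), P.A (P.prev d)} : Set E3) =
      insert (P.A (P.prev d)) {P.A d, P.B d} := by
    rw [← h1]
    ext z
    simp only [Set.mem_insert_iff, Set.mem_singleton_iff]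
    tauto
  unfold Poly.tri at hx
  rw [hset, convexHull_insert ⟨P.A d, by simp⟩, convexHull_pair, mem_convexJoin] at hx
  obtain ⟨C, hC, q, hq, hx⟩ := hx
  rw [Set.mem_singleton_iff] at hC
  subst hC
  obtain ⟨β, γ, hβ, hγ, hsum, rfl⟩ := hx
  obtain ⟨a, b, ha, hb, hab, rfl⟩ := hq
  refine ⟨γ * b, β, ?_, ?_⟩
  · refine lt_of_le_of_ne hβ fun h0 => hxd ?_
    rw [← h0] at hsum ⊢
    rw [zero_add] at hsum
    rw [hsum, zero_smul, zero_add, one_smul]
    exact ⟨a, b, ha, hb, hab, rfl⟩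
  · have ha' : a = 1 - b := by linarith
    have hβ' : β = 1 - γ := by linarith
    rw [ha', hβ']
    module

private theorem B_eq (I : IPoly) (d : I.D) : I.poly.B d = I.rp (I.tail (I.nxt d)) := by
  show I.rp (I.tail (I.inv d)) = _
  rw [I.tail_inv]

private theorem coordX (I : IPoly) (d : I.D) {x : E3} (hx : x ∈ I.poly.tri d)
    (hxd : x ∉ I.poly.seg d) : ∃ s t : ℝ, 0 < t ∧ x = XX I d s t := by
  obtain ⟨s, t, ht, h⟩ := coord hx hxd
  refine ⟨s, t, ht, ?_⟩
  rw [sub_eq_iff_eq_add] at h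
  rw [h, B_eq]
  show s • (I.rp (I.tail (I.nxt d)) - I.rp (I.tail d)) +
    t • (I.rp (I.tail (I.nxt (I.nxt d))) - I.rp (I.tail d)) + I.rp (I.tail d) = XX I d s t
  unfold XX eU eV
  rw [add_comm]

private theorem line_X (I : IPoly) (d : I.D) (lam : ℝ) :
    (AffineMap.lineMap (I.poly.A d) (I.poly.B d) lam : E3) = XX I d lam 0 := by
  rw [B_eq, AffineMap.lineMap_apply_module']
  show lam • (I.rp (I.tail (I.nxt d)) - I.rp (I.tail d)) + I.rp (I.tail d) = XX I d lam 0
  unfold XX eU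
  rw [zero_smul, add_zero, add_comm]

/-- the names of the corners of the opposite face -/
private theorem inv_U (I : IPoly) (d : I.D) : eU I (I.inv d) = -eU I d := by
  unfold eU
  have h : I.tail (I.nxt (I.inv d)) = I.tail d := by
    rw [← I.tail_inv, I.inv_inv]
  rw [h, I.tail_inv]
  abel

private theorem inv_X (I : IPoly) (d : I.D) (lam : ℝ) : XX I (I.inv d) (1 - lam) 0 = XX I d lam 0 := by
  unfold XX
  rw [inv_U, I.tail_inv]
  unfold eU
  module

private theorem inv_N (I : IPoly) (d : I.D) : ((nN I (I.inv d) : ℤ) : ℝ) = ((nN I d : ℤ) : ℝ) := by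
  rw [← inner_UU, ← inner_UU, inv_U, inner_neg_neg]

/-- a vertex of the face off the edge is the third corner -/
private theorem vert_coord (I : IPoly) (d : I.D) (v : I.V) {x : E3} (hv : x = I.poly.pos v)
    (hx : x ∈ I.poly.tri d) (hxd : x ∉ I.poly.seg d) : x = XX I d 0 1 := by
  subst hv
  obtain ⟨a, ha, ht⟩ := Poly.verts_of_pos_mem I.poly hx
  rcases ha with ha | ha | ha
  · exfalso
    apply hxd
    rw [← ht, ha]
    exact left_mem_segment ℝ _ _
  · exfalso
    apply hxd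
    rw [← ht, ha]
    have h1 : I.poly.pos (I.poly.tail (I.poly.nxt d)) = I.poly.B d := (B_eq I d).symm
    rw [h1]
    exact right_mem_segment ℝ _ _
  · rw [← ht, ha]
    show I.rp (I.tail (I.nxt (I.nxt d))) = _
    unfold XX eV
    module

private theorem X_sub (I : IPoly) (d : I.D) (s t lam : ℝ) :
    XX I d s t - XX I d lam 0 = (s - lam) • eU I d + t • eV I d := by
  unfold XX
  module

private theorem T_sub (I : IPoly) (d : I.D) (a b : ℂ) (s t lam : ℝ) :
    TT I d a b s t - (a + lam * (b - a)) = (b - a) / ((nN I d : ℤ) : ℂ) *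
      ((((s - lam) * ((nN I d : ℤ) : ℝ) + t * ((nM I d : ℤ) : ℝ) : ℝ) : ℂ) +
        ((t * Real.sqrt ((nD I d : ℤ) : ℝ) : ℝ) : ℂ) * Complex.I) := by
  have hNc : ((nN I d : ℤ) : ℂ) ≠ 0 := by exact_mod_cast (N_pos I d).ne'
  unfold TT rho isq
  push_cast
  field_simp
  ring

/-- CROSSING. The placed path is straight at a crossing. -/
private theorem cross_line (I : IPoly) (d : I.D) (a b : ℂ) (s t s' t' lam : ℝ) {p y q : E3}
    (h : I.poly.CrossAt p y q d) (hy : y = XX I d lam 0) (hp : p = XX I d s t) (ht : 0 < t)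
    (hq : q = XX I (I.inv d) s' t') (ht' : 0 < t') :
    ∃ r : ℝ, 0 < r ∧ TT I (I.inv d) b a s' t' - (a + lam * (b - a)) =
      -(r : ℂ) * (TT I d a b s t - (a + lam * (b - a))) := by
  have hN := N_pos I d
  have hD := D_pos I d
  have hD' := D_pos I (I.inv d)
  set N : ℝ := ((nN I d : ℤ) : ℝ) with hNdef
  set D : ℝ := ((nD I d : ℤ) : ℝ) with hDdef
  set D' : ℝ := ((nD I (I.inv d) : ℤ) : ℝ) with hDdef'
  -- `0 < lam < 1`
  have hlam : lam < 1 := by
    have h1 := h.1
    obtain ⟨α, β, hα, hβ, hαβ, h2⟩ := h1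
    rw [hy] at h2
    have h3 : XX I d lam 0 = XX I d β 0 := by
      rw [← h2, ← line_X, AffineMap.lineMap_apply_module]
      rw [show (1 : ℝ) - β = α by linarith]
    have h4 := (XX_inj I d h3).1
    linarith
  have hBy : I.poly.B d - y = (1 - lam) • eU I d := by
    rw [hy, B_eq]
    unfold XX eU
    module
  -- the angles
  have hst := h.straight.1
  have e1 : ∠ p y (I.poly.B d) = InnerProductGeometry.angle (p - y) (eU I d) := by
    show InnerProductGeometry.angle (p -ᵥ y) (I.poly.B d -ᵥ y) = _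
    rw [vsub_eq_sub, vsub_eq_sub, hBy, InnerProductGeometry.angle_smul_right_of_pos _ _ (by linarith)]
  have e2 : ∠ (I.poly.B d) y q = InnerProductGeometry.angle (q - y) (eU I d) := by
    show InnerProductGeometry.angle (I.poly.B d -ᵥ y) (q -ᵥ y) = _
    rw [vsub_eq_sub, vsub_eq_sub, hBy, InnerProductGeometry.angle_smul_left_of_pos _ _ (by linarith),
      InnerProductGeometry.angle_comm]
  have hcos : inner ℝ (q - y) (eU I d) / (‖q - y‖ * ‖eU I d‖) =
      -(inner ℝ (p - y) (eU I d) / (‖p - y‖ * ‖eU I d‖)) := by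
    rw [← InnerProductGeometry.cos_angle, ← InnerProductGeometry.cos_angle, ← e1, ← e2,
      ← Real.cos_pi_sub]
    congr 1
    linarith
  -- the vectors
  have hpy : p - y = (s - lam) • eU I d + t • eV I d := by rw [hp, hy, X_sub]
  have hqy : q - y = (s' - (1 - lam)) • eU I (I.inv d) + t' • eV I (I.inv d) := by
    rw [hq, hy, ← inv_X, X_sub]
  set P : ℝ := (s - lam) * N + t * ((nM I d : ℤ) : ℝ) with hPdef
  set Q : ℝ := (s' - (1 - lam)) * N + t' * ((nM I (I.inv d) : ℤ) : ℝ) with hQdef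
  have hP : inner ℝ (p - y) (eU I d) = P := by
    rw [hpy, inner_comb, inner_UU, inner_UV]
  have hQ : inner ℝ (q - y) (eU I d) = -Q := by
    have : eU I d = -eU I (I.inv d) := by rw [inv_U, neg_neg]
    rw [this, inner_neg_right, hqy, inner_comb, inner_UU, inner_UV, inv_N]
  have nP : N * ‖p - y‖ ^ 2 = P ^ 2 + t ^ 2 * D := by rw [hpy]; exact norm_uv I d _ _
  have nQ : N * ‖q - y‖ ^ 2 = Q ^ 2 + t' ^ 2 * D' := by
    rw [hqy]
    have := norm_uv I (I.inv d) (s' - (1 - lam)) t'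
    rw [inv_N] at this
    exact this
  have hp0 : 0 < ‖p - y‖ := by
    have h1 : 0 < N * ‖p - y‖ ^ 2 := by rw [nP]; positivity
    by_contra hneg
    have h2 : ‖p - y‖ = 0 := le_antisymm (not_lt.1 hneg) (norm_nonneg _)
    rw [h2] at h1
    simp at h1
  have hq0 : 0 < ‖q - y‖ := by
    have h1 : 0 < N * ‖q - y‖ ^ 2 := by rw [nQ]; positivity
    by_contra hneg
    have h2 : ‖q - y‖ = 0 := le_antisymm (not_lt.1 hneg) (norm_nonneg _)
    rw [h2] at h1
    simp at h1
  have hU : 0 < ‖eU I d‖ := norm_pos_iff.2 (eU_ne I d)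
  refine ⟨‖q - y‖ / ‖p - y‖, div_pos hq0 hp0, ?_⟩
  set r : ℝ := ‖q - y‖ / ‖p - y‖ with hr
  have hr0 : 0 < r := div_pos hq0 hp0
  have hrq : ‖q - y‖ = r * ‖p - y‖ := by rw [hr]; field_simp
  have hQP : Q = r * P := by
    rw [hP, hQ, hrq] at hcos
    field_simp at hcos
    linarith
  have hK : t' * Real.sqrt D' = r * (t * Real.sqrt D) := by
    have h1 : (t' * Real.sqrt D') ^ 2 = (r * (t * Real.sqrt D)) ^ 2 := by
      rw [mul_pow, mul_pow, mul_pow, Real.sq_sqrt hD'.le, Real.sq_sqrt hD.le]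
      have h2 : t' ^ 2 * D' = N * ‖q - y‖ ^ 2 - Q ^ 2 := by rw [nQ]; ring
      have h3 : t ^ 2 * D = N * ‖p - y‖ ^ 2 - P ^ 2 := by rw [nP]; ring
      rw [h2, h3, hQP, hrq]
      ring
    exact (pow_left_inj₀ (by positivity) (by positivity) two_ne_zero).1 h1
  have hlin : (a + lam * (b - a) : ℂ) = b + ((1 - lam : ℝ) : ℂ) * (a - b) := by push_cast; ring
  rw [T_sub I d]
  rw [hlin, T_sub I (I.inv d) b a s' t' (1 - lam)]
  have hNN : ((nN I (I.inv d) : ℤ) : ℂ) = ((nN I d : ℤ) : ℂ) := by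
    have := inv_N I d
    exact_mod_cast this
  rw [inv_N, hNN]
  rw [← hQdef, ← hPdef, hK, hQP]
  push_cast
  ring

/-- the third corner is placed off the line of the edge -/
private theorem third_ne (I : IPoly) (g : I.D) (p q : ℂ) (h : p ≠ q) :
    q ≠ TT I g p q 0 1 ∧ TT I g p q 0 1 ≠ p := by
  have him := rho_im I g
  have e : TT I g p q 0 1 = p + (q - p) * rho I g := by unfold TT; push_cast; ring
  have hpq : q - p ≠ 0 := sub_ne_zero.2 h.symm
  rw [e]
  constructor
  · intro h1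
    have h2 : (q - p) * (rho I g - 1) = 0 := by linear_combination -h1
    rcases mul_eq_zero.1 h2 with h3 | h3
    · exact hpq h3
    · have : rho I g = 1 := by linear_combination h3
      rw [this] at him
      simp at him
  · intro h1
    have h2 : (q - p) * rho I g = 0 := by linear_combination h1
    rcases mul_eq_zero.1 h2 with h3 | h3
    · exact hpq h3
    · rw [h3] at him
      simp at him

/-- the face of `g` is placed with the ends of `g` at `p`, `q`; the same placement for another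
half-edge `d'` of the face -/
private theorem next (I : IPoly) (g d' : I.D) (hg : d' = I.nxt g ∨ d' = I.nxt (I.nxt g)) (p q : ℂ)
    (hp : p ∈ I.fld) (hq : q ∈ I.fld) (hne : p ≠ q) (s' t' μ lam' : ℝ) (h0 : 0 < μ) (h1 : μ < 1)
    (hX : XX I g s' t' = XX I d' lam' 0) : ∃ (a' b' : ℂ) (s t : ℝ), a' ∈ I.fld ∧ b' ∈ I.fld ∧
      a' ≠ b' ∧ 0 < t ∧ XX I g μ 0 = XX I d' s t ∧
      a' + (lam' : ℂ) * (b' - a') = TT I g p q s' t' ∧ TT I d' a' b' s t = p + μ * (q - p) := by
  have hc := third_fld I g p q hp hq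
  obtain ⟨hn1, hn2⟩ := third_ne I g p q hne
  have hT : ∀ (d : I.D) (a b : ℂ) (l : ℝ), TT I d a b l 0 = a + (l : ℂ) * (b - a) := by
    intro d a b l
    unfold TT
    push_cast
    ring
  rcases hg with rfl | rfl
  · have e1 := XX_nxt I g s' t'
    rw [hX] at e1
    obtain ⟨e2, e3⟩ := XX_inj I _ e1
    refine ⟨q, TT I g p q 0 1, 0, 1 - μ, hq, hc, hn1, by linarith, ?_, ?_, ?_⟩
    · rw [← XX_nxt I g μ 0, sub_zero]
    · rw [← hT (I.nxt g), ← TT_nxt I g p q s' t', e3, e2]
    · have := TT_nxt I g p q μ 0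
      rw [sub_zero] at this
      rw [this, hT]
  · have e0 : XX I g s' t' = XX I (I.nxt (I.nxt g)) (1 - s' - t') s' := by
      rw [← XX_nxt I g s' t', ← XX_nxt I (I.nxt g) t' (1 - s' - t')]
      congr 1
      ring
    rw [e0] at hX
    obtain ⟨e2, e3⟩ := XX_inj I _ hX
    have hthird : TT I (I.nxt g) q (TT I g p q 0 1) 0 1 = p := by
      have := TT_nxt I g p q 0 0
      rw [sub_zero, sub_zero, hT] at this
      rw [this]
      push_cast
      ring
    have hgen : ∀ s t : ℝ, TT I (I.nxt (I.nxt g)) (TT I g p q 0 1) p (1 - s - t) s =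
        TT I g p q s t := by
      intro s t
      rw [← TT_nxt I g p q s t, ← TT_nxt I (I.nxt g) q (TT I g p q 0 1) t (1 - s - t), hthird]
      congr 1
      ring
    refine ⟨TT I g p q 0 1, p, 1 - μ, μ, hc, hp, hn2, h0, ?_, ?_, ?_⟩
    · rw [← XX_nxt I g μ 0, ← XX_nxt I (I.nxt g) 0 (1 - μ - 0)]
      congr 1 <;> ring
    · rw [← hT (I.nxt (I.nxt g)), ← hgen s' t', e2, e3]
    · have := hgen μ 0
      rw [sub_zero] at this
      rw [this, hT]

/-- the state of the development at the crossing `j` -/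
private def St (I : IPoly) (x : ℕ → E3) (d : ℕ → I.D) (lam : ℕ → ℝ) (z0 w : ℂ) (j : ℕ) (a b : ℂ) :
    Prop :=
  a ∈ I.fld ∧ b ∈ I.fld ∧ a ≠ b ∧ ∃ ρ σ s t : ℝ, 0 < ρ ∧ 0 < σ ∧ 0 < t ∧
    x (j - 1) = XX I (d j) s t ∧ a + (lam j : ℂ) * (b - a) = z0 + ρ * w ∧
    TT I (d j) a b s t = z0 + ρ * w - σ * w

private theorem lam_bd (I : IPoly) (d : I.D) (lam : ℝ) {y : E3} (h : y ∈ I.poly.oseg d)
    (hy : y = XX I d lam 0) : 0 < lam ∧ lam < 1 := by
  obtain ⟨α, β, hα, hβ, hαβ, h2⟩ := h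
  rw [hy] at h2
  have h3 : XX I d lam 0 = XX I d β 0 := by
    rw [← h2, ← line_X, AffineMap.lineMap_apply_module]
    rw [show (1 : ℝ) - β = α by linarith]
  have h4 := (XX_inj I d h3).1
  constructor <;> linarith

private theorem step (I : IPoly) (x : ℕ → E3) (d : ℕ → I.D) (lam : ℕ → ℝ) (z0 w : ℂ) (j : ℕ)
    (h1 : I.poly.CrossAt (x (j - 1)) (x j) (x (j + 1)) (d j)) (hx : x j = XX I (d j) (lam j) 0)
    (h2 : I.poly.CrossAt (x j) (x (j + 1)) (x (j + 2)) (d (j + 1)))
    (hx' : x (j + 1) = XX I (d (j + 1)) (lam (j + 1)) 0) (a b : ℂ) (hS : St I x d lam z0 w j a b) :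
    ∃ a' b', St I x d lam z0 w (j + 1) a' b' := by
  obtain ⟨ha, hb, hab, ρ, σ, s, t, hρ, hσ, ht, hp, hz, hT⟩ := hS
  obtain ⟨hl0, hl1⟩ := lam_bd I (d j) (lam j) h1.1 hx
  have hseg : I.poly.seg (I.inv (d j)) = I.poly.seg (d j) := Poly.seg_inv I.poly (d j)
  have hq1 : x (j + 1) ∈ I.poly.tri (I.inv (d j)) := h1.2.2.1
  have hq2 : x (j + 1) ∉ I.poly.seg (I.inv (d j)) := by
    rw [hseg]; exact h1.2.2.2.2.1
  obtain ⟨s', t', ht', hq⟩ := coordX I (I.inv (d j)) hq1 hq2
  obtain ⟨r, hr, hc⟩ := cross_line I (d j) a b s t s' t' (lam j) h1 hx hp ht hq ht'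
  have hxj : x j ∈ I.poly.tri (I.inv (d j)) := by
    apply Poly.seg_sub_tri
    rw [hseg]
    exact openSegment_subset_segment ℝ _ _ h1.1
  have hface := h2.face hxj hq1
  have hg : d (j + 1) = I.nxt (I.inv (d j)) ∨ d (j + 1) = I.nxt (I.nxt (I.inv (d j))) := by
    rcases hface with hf | hf | hf
    · exfalso
      apply hq2
      rw [← hf]
      exact openSegment_subset_segment ℝ _ _ h2.1
    · exact Or.inl hf
    · exact Or.inr hf
  obtain ⟨a', b', s₁, t₁, ha', hb', hab', ht₁, hX₁, hz₁, hT₁⟩ := next I (I.inv (d j)) (d (j + 1)) hg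
    b a hb ha hab.symm s' t' (1 - lam j) (lam (j + 1)) (by linarith) (by linarith)
    (by rw [← hq, hx'])
  have hval : TT I (I.inv (d j)) b a s' t' = z0 + ((ρ + r * σ : ℝ) : ℂ) * w := by
    have h5 : TT I (I.inv (d j)) b a s' t' = (a + (lam j : ℂ) * (b - a)) +
        -(r : ℂ) * (TT I (d j) a b s t - (a + (lam j : ℂ) * (b - a))) := by
      rw [← hc]; ring
    rw [h5, hT, hz]
    push_cast
    ring
  refine ⟨a', b', ha', hb', hab', ρ + r * σ, r * σ, s₁, t₁, by positivity, by positivity, ht₁, ?_,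
    ?_, ?_⟩
  · rw [show j + 1 - 1 = j by omega, hx, ← inv_X, hX₁]
  · rw [hz₁, hval]
  · rw [hT₁]
    have h6 : (b : ℂ) + ((1 - lam j : ℝ) : ℂ) * (a - b) = a + (lam j : ℂ) * (b - a) := by
      push_cast; ring
    rw [h6, hz]
    push_cast
    ring

/-- [DG-Y2c] DEVELOPMENT OF AN ARC. Nodes `x 0, ..., x n` (`n ≥ 1`), `x 0` and `x n` vertices, the
nodes in between crossings of the half-edges `d j` (`CrossAt`), all segments in faces. Then there are
placements of the edges `d j` (`0 < j < n`): complex numbers `a j, b j ∈ fld` of the ends of `d j`, and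
`z 0, z n ∈ fld` of `x 0`, `x n`, and the placed points `a j + lam j (b j - a j)` all lie on the line
from `z 0` to `z n`, and `a j, b j` are not both on this line. -/
theorem IPoly.develop (I : IPoly) (n : ℕ) (hn : 2 ≤ n) (x : ℕ → E3) (d : ℕ → I.D) (lam : ℕ → ℝ)
    (h0 : ∃ v, x 0 = I.poly.pos v) (h1 : ∃ v, x n = I.poly.pos v)
    (hc : ∀ j, 0 < j → j < n → I.poly.CrossAt (x (j - 1)) (x j) (x (j + 1)) (d j) ∧
      x j = AffineMap.lineMap (I.poly.A (d j)) (I.poly.B (d j)) (lam j)) :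
    ∃ (a b : ℕ → ℂ) (z0 z1 : ℂ), z0 ∈ I.fld ∧ z1 ∈ I.fld ∧ z0 ≠ z1 ∧
      ∀ j, 0 < j → j < n → a j ∈ I.fld ∧ b j ∈ I.fld ∧
        (conj (z1 - z0) * (a j + (lam j : ℂ) * (b j - a j) - z0)).im = 0 ∧
        (conj (z1 - z0) * (b j - a j)).im ≠ 0 := by
  have hX : ∀ j, 0 < j → j < n → x j = XX I (d j) (lam j) 0 := fun j h2 h3 => by
    rw [← line_X]; exact (hc j h2 h3).2
  obtain ⟨v0, hv0⟩ := h0
  obtain ⟨v1, hv1⟩ := h1
  -- the start
  have hc1 := (hc 1 one_pos (by omega)).1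
  have hx0 : x 0 = XX I (d 1) 0 1 := vert_coord I (d 1) v0 hv0 hc1.2.1 hc1.2.2.2.1
  have hz0 := third_fld I (d 1) 0 1 (zero_mem _) (one_mem _)
  set z0 : ℂ := TT I (d 1) 0 1 0 1 with hz0def
  set w : ℂ := (lam 1 : ℂ) - z0 with hw
  have hstart : St I x d lam z0 w 1 0 1 := by
    refine ⟨zero_mem _, one_mem _, zero_ne_one, 1, 1, 0, 1, one_pos, one_pos, one_pos, ?_, ?_, ?_⟩
    · exact hx0
    · rw [hw]; push_cast; ring
    · rw [← hz0def]; push_cast; ring
  have hall : ∀ j, j + 1 < n → ∃ a b, St I x d lam z0 w (j + 1) a b := by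
    intro j
    induction j with
    | zero => intro _; exact ⟨0, 1, hstart⟩
    | succ j ih =>
      intro hj
      obtain ⟨a, b, hS⟩ := ih (by omega)
      exact step I x d lam z0 w (j + 1) (hc (j + 1) (by omega) (by omega)).1
        (hX (j + 1) (by omega) (by omega)) (hc (j + 2) (by omega) hj).1
        (hX (j + 2) (by omega) hj) a b hS
  -- the end
  obtain ⟨a, b, ha, hb, hab, ρ, σ, s, t, hρ, hσ, ht, hp, hz, hT⟩ := hall (n - 2) (by omega)
  have hn1 : n - 2 + 1 = n - 1 := by omega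
  rw [hn1] at hp hz hT
  have hcn := (hc (n - 1) (by omega) (by omega)).1
  rw [show n - 1 + 1 = n by omega] at hcn
  have hq2 : x n ∉ I.poly.seg (I.inv (d (n - 1))) := by
    have hseg : I.poly.seg (I.inv (d (n - 1))) = I.poly.seg (d (n - 1)) :=
      Poly.seg_inv I.poly (d (n - 1))
    rw [hseg]; exact hcn.2.2.2.2.1
  have hxn : x n = XX I (I.inv (d (n - 1))) 0 1 :=
    vert_coord I (I.inv (d (n - 1))) v1 hv1 hcn.2.2.1 hq2
  obtain ⟨r, hr, hcr⟩ := cross_line I (d (n - 1)) a b s t 0 1 (lam (n - 1)) hcn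
    (hX (n - 1) (by omega) (by omega)) hp ht hxn one_pos
  have hval : TT I (I.inv (d (n - 1))) b a 0 1 = z0 + ((ρ + r * σ : ℝ) : ℂ) * w := by
    have h5 : TT I (I.inv (d (n - 1))) b a 0 1 = (a + (lam (n - 1) : ℂ) * (b - a)) +
        -(r : ℂ) * (TT I (d (n - 1)) a b s t - (a + (lam (n - 1) : ℂ) * (b - a))) := by
      rw [← hcr]; ring
    rw [h5, hT, hz]
    push_cast
    ring
  have hR : 0 < ρ + r * σ := by positivity
  -- consequences of the state
  have key : ∀ j a b, St I x d lam z0 w j a b → (conj w * (b - a)).im ≠ 0 := by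
    rintro j a b ⟨-, -, hab, ρ, σ, s, t, hρ, hσ, ht, -, hz, hT⟩
    have hN := N_pos I (d j)
    have hD := D_pos I (d j)
    have h6 := T_sub I (d j) a b s t (lam j)
    rw [hT, hz] at h6
    have hNc : ((nN I (d j) : ℤ) : ℂ) ≠ 0 := by exact_mod_cast hN.ne'
    have h7 : (σ : ℂ) * w = -((b - a) / ((nN I (d j) : ℤ) : ℂ) *
      ((((s - lam j) * ((nN I (d j) : ℤ) : ℝ) + t * ((nM I (d j) : ℤ) : ℝ) : ℝ) : ℂ) +
        ((t * Real.sqrt ((nD I (d j) : ℤ) : ℝ) : ℝ) : ℂ) * Complex.I)) := by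
      rw [← h6]; ring
    set U : ℝ := (s - lam j) * ((nN I (d j) : ℤ) : ℝ) + t * ((nM I (d j) : ℤ) : ℝ)
    set H : ℝ := t * Real.sqrt ((nD I (d j) : ℤ) : ℝ)
    have hH : 0 < H := mul_pos ht (Real.sqrt_pos.2 hD)
    have h8 : ((σ * ((nN I (d j) : ℤ) : ℝ) : ℝ) : ℂ) * (conj w * (b - a)) =
        ((Complex.normSq (b - a) * -U : ℝ) : ℂ) + ((Complex.normSq (b - a) * H : ℝ) : ℂ) * Complex.I := by
      have h9 : (σ : ℂ) * conj w = -(conj (b - a) / ((nN I (d j) : ℤ) : ℂ) *
          ((U : ℂ) - (H : ℂ) * Complex.I)) := by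
        have h10 := congrArg conj h7
        simp only [map_mul, map_neg, map_div₀, map_add, Complex.conj_ofReal, Complex.conj_I,
          map_intCast] at h10
        rw [h10]
        ring
      have h11 : ((Complex.normSq (b - a) : ℝ) : ℂ) = (b - a) * conj (b - a) :=
        (Complex.mul_conj (b - a)).symm
      push_cast
      rw [h11]
      have h12 : (σ : ℂ) * ((nN I (d j) : ℤ) : ℂ) * (conj w * (b - a)) =
          ((σ : ℂ) * conj w) * ((nN I (d j) : ℤ) : ℂ) * (b - a) := by ring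
      rw [h12, h9]
      field_simp
      ring
    have h13 := congrArg Complex.im h8
    rw [Complex.im_ofReal_mul] at h13
    simp only [Complex.add_im, Complex.ofReal_im, Complex.mul_im, Complex.ofReal_re, Complex.I_im,
      Complex.I_re, mul_one, mul_zero, zero_add, add_zero] at h13
    intro h14
    rw [Complex.mul_im] at h14
    rw [h14, mul_zero] at h13
    have h15 : 0 < Complex.normSq (b - a) * H :=
      mul_pos (Complex.normSq_pos.2 (sub_ne_zero.2 hab.symm)) hH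
    linarith
  have hwne : w ≠ 0 := by
    intro h
    have := key 1 0 1 hstart
    rw [h] at this
    simp at this
  choose! A B hAB using hall
  refine ⟨fun j => A (j - 1), fun j => B (j - 1), z0, TT I (I.inv (d (n - 1))) b a 0 1, hz0,
    third_fld I _ b a hb ha, ?_, ?_⟩
  · rw [hval]
    intro h
    have h2 : ((ρ + r * σ : ℝ) : ℂ) * w = 0 := by linear_combination -h
    rcases mul_eq_zero.1 h2 with h3 | h3
    · exact hR.ne' (by exact_mod_cast h3)
    · exact hwne h3
  · intro j hj hjn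
    have hS := hAB (j - 1) (by omega)
    rw [show j - 1 + 1 = j by omega] at hS
    have hk := key j _ _ hS
    obtain ⟨ha', hb', -, ρ', σ', s', t', -, -, -, -, hz', -⟩ := hS
    have e1 : TT I (I.inv (d (n - 1))) b a 0 1 - z0 = ((ρ + r * σ : ℝ) : ℂ) * w := by
      rw [hval]; ring
    refine ⟨ha', hb', ?_, ?_⟩
    · rw [e1, hz']
      have e2 : conj (((ρ + r * σ : ℝ) : ℂ) * w) * (z0 + (ρ' : ℂ) * w - z0) =
          (((ρ + r * σ) * ρ' * Complex.normSq w : ℝ) : ℂ) := by
        rw [map_mul, Complex.conj_ofReal]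
        push_cast
        rw [← Complex.mul_conj]
        ring
      rw [e2, Complex.ofReal_im]
    · rw [e1, map_mul, Complex.conj_ofReal, mul_assoc, Complex.im_ofReal_mul]
      exact mul_ne_zero hR.ne' hk

end

end QGd
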