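import Pool.Agent.Lib_MP_6b5565_dg.Y2b

/-! [DG-Y2c] development of an arc between two vertices -/

namespace QGd

open EuclideanGeometry Polynomial ComplexConjugate

noncomputable section

/-- [DG-Y2d] so the parameters are in `fld` -/
theorem IPoly.lam_mem (I : IPoly) (n : ℕ) (hn : 2 ≤ n) (x : ℕ → E3) (d : ℕ → I.D) (lam : ℕ → ℝ)
    (h0 : ∃ v, x 0 = I.poly.pos v) (h1 : ∃ v, x n = I.poly.pos v)
    (hc : ∀ j, 0 < j → j < n → I.poly.CrossAt (x (j - 1)) (x j) (x (j + 1)) (d j) ∧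
      x j = AffineMap.lineMap (I.poly.A (d j)) (I.poly.B (d j)) (lam j)) (j : ℕ) (hj : 0 < j)
    (hj' : j < n) : ((lam j : ℝ) : ℂ) ∈ I.fld := by
  obtain ⟨a, b, z0, z1, hz0, hz1, -, h⟩ := I.develop n hn x d lam h0 h1 hc
  obtain ⟨ha, hb, e1, e2⟩ := h j hj hj'
  have hc' : conj (z1 - z0) ∈ I.fld := I.fld_conj _ (sub_mem hz1 hz0)
  obtain ⟨u, hu⟩ : ∃ u, u = conj (z1 - z0) * (b j - a j) := ⟨_, rfl⟩
  obtain ⟨w, hw⟩ : ∃ w, w = conj (z1 - z0) * (a j - z0) := ⟨_, rfl⟩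
  have huf : u ∈ I.fld := by rw [hu]; exact mul_mem hc' (sub_mem hb ha)
  have hwf : w ∈ I.fld := by rw [hw]; exact mul_mem hc' (sub_mem ha hz0)
  rw [← hu] at e2
  have e3 : conj (z1 - z0) * (a j + (lam j : ℂ) * (b j - a j) - z0) = w + (lam j : ℂ) * u := by
    rw [hu, hw]
    ring
  rw [e3, Complex.add_im, Complex.im_ofReal_mul] at e1
  have e4 : ((lam j : ℝ) : ℂ) = -(w - conj w) / (u - conj u) := by
    rw [Complex.sub_conj, Complex.sub_conj]
    have h2 : (u.im : ℂ) ≠ 0 := by exact_mod_cast e2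
    have h3 : (w.im : ℂ) + (lam j : ℂ) * (u.im : ℂ) = 0 := by exact_mod_cast e1
    have hI := Complex.I_ne_zero
    push_cast
    rw [eq_div_iff (mul_ne_zero (mul_ne_zero two_ne_zero h2) hI)]
    linear_combination (2 * Complex.I) * h3
  rw [e4]
  exact div_mem (neg_mem (sub_mem hwf (I.fld_conj _ hwf))) (sub_mem huf (I.fld_conj _ huf))

end

end QGd
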