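import Pool.Agent.Lib_MP_6b5565_dg.K4c
import Pool.Agent.Lib_MP_6b5565_dg.Q2c
import Pool.Agent.Lib_MP_6b5565_dg.R4b

/-! [DG-Z1] the degree form of the theorem -/

namespace QGd

open EuclideanGeometry Vx Dx Polynomial

noncomputable section

private theorem odd_count (a n : ℕ) :
    n / 2 ≤ ((Finset.range n).filter (fun j => (a + j) % 2 = 1)).card := by
  induction n using Nat.strong_induction_on with
  | _ n ih =>
    rcases n with _ | _ | n
    · simp
    · simp
    · have h1 := ih n (by omega)
      have h2 : ((Finset.range n).filter (fun j => (a + j) % 2 = 1)).card + 1 ≤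
          ((Finset.range (n + 2)).filter (fun j => (a + j) % 2 = 1)).card := by
        rcases Nat.mod_two_eq_zero_or_one (a + n) with h | h
        · have h3 : insert (n + 1) ((Finset.range n).filter (fun j => (a + j) % 2 = 1)) ⊆
              (Finset.range (n + 2)).filter (fun j => (a + j) % 2 = 1) := by
            intro j hj
            rw [Finset.mem_insert, Finset.mem_filter, Finset.mem_range] at hj
            rw [Finset.mem_filter, Finset.mem_range]
            rcases hj with rfl | ⟨hj1, hj2⟩
            · constructor <;> omega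
            · exact ⟨by omega, hj2⟩
          have h4 := Finset.card_le_card h3
          rwa [Finset.card_insert_of_notMem (by simp)] at h4
        · have h3 : insert n ((Finset.range n).filter (fun j => (a + j) % 2 = 1)) ⊆
              (Finset.range (n + 2)).filter (fun j => (a + j) % 2 = 1) := by
            intro j hj
            rw [Finset.mem_insert, Finset.mem_filter, Finset.mem_range] at hj
            rw [Finset.mem_filter, Finset.mem_range]
            rcases hj with rfl | ⟨hj1, hj2⟩
            · constructor <;> omega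
            · exact ⟨by omega, hj2⟩
          have h4 := Finset.card_le_card h3
          rwa [Finset.card_insert_of_notMem (by simp)] at h4
      change (n + 2) / 2 ≤ ((Finset.range (n + 2)).filter (fun j => (a + j) % 2 = 1)).card
      omega

/-- degree of `1 - x` -/
private theorem deg_one_sub {x : ℝ} (h : IsAlgebraic ℚ (1 - x)) :
    IsAlgebraic ℚ x ∧ (minpoly ℚ x).natDegree = (minpoly ℚ (1 - x)).natDegree := by
  have h1 : IsAlgebraic ℚ x := by
    have h2 : x = 1 - (1 - x) := by ring
    rw [h2]
    exact isAlgebraic_one.sub h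
  refine ⟨h1, ?_⟩
  have i1 : IsIntegral ℚ x := h1.isIntegral
  have i2 : IsIntegral ℚ (1 - x) := h.isIntegral
  rw [← IntermediateField.adjoin.finrank i1, ← IntermediateField.adjoin.finrank i2]
  have e : (IntermediateField.adjoin ℚ {x} : IntermediateField ℚ ℝ) =
      IntermediateField.adjoin ℚ {1 - x} := by
    apply le_antisymm
    · rw [IntermediateField.adjoin_simple_le_iff]
      have h2 : x = 1 - (1 - x) := by ring
      have h3 : (1 : ℝ) - (1 - x) ∈ (IntermediateField.adjoin ℚ {1 - x} : IntermediateField ℚ ℝ) :=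
        sub_mem (one_mem _) (IntermediateField.mem_adjoin_simple_self ℚ (1 - x))
      rwa [← h2] at h3
    · rw [IntermediateField.adjoin_simple_le_iff]
      exact sub_mem (one_mem _) (IntermediateField.mem_adjoin_simple_self ℚ x)
  rw [e]

/-- [DG-Z1a] A run of an SCQ as input of `run_degree` (`h = M.c hub`, `Y j = M.c (Y (a + j))`,
`x j = γ.x (k + j)`, `n = b - a`, `J = {j | j < n, (a + j) odd}`): one of the nodes of the run has a
parameter (on the spoke, from the hub) which is transcendental or of large degree. -/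
theorem run_hard {K : ℕ} (M : Msh K) (hM : ∀ (T : Fin 6) (e : Fin 3) (side : Bool)
    (i : ℕ), i % 2 = 1 → i ≤ K → ∃ ℓ : ℕ, ℓ.Prime ∧
      Odd (padicValInt ℓ (DD (M.c (hub K T e side)) (M.c (Y K T e i)) (M.c (Y K T e (i + 1))))) ∧
      IP (M.c (hub K T e side)) (M.c (Y K T e i)) (M.c (Y K T e (i + 1))) ≠ 0 ∧
      ∀ j, 1 ≤ j → j ≤ K → j ≠ i →
        ¬ (ℓ : ℤ) ∣ DD (M.c (hub K T e side)) (M.c (Y K T e j)) (M.c (Y K T e (j + 1))))
    (hK : 10 ≤ K) {N : ℕ} [NeZero N] (γ : SCQ M.P N) {T : Fin 6} {e : Fin 3} {side : Bool}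
    {k : ZMod N} {a b : ℕ} (hab : K ≤ 2 * (b - a) + 2) (h : Run γ T e side k a b) :
    ∃ (i : ZMod N) (d : Dx K) (lam : ℝ), M.P.CrossAt (γ.x (i - 1)) (γ.x i) (γ.x (i + 1)) d ∧
      γ.x i = AffineMap.lineMap (M.pos (tl d)) (M.pos (tl (nx d))) lam ∧
      (IsAlgebraic ℚ lam → 2 ^ ((K - 10) / 4) ≤ 4 * (minpoly ℚ lam).natDegree ^ 3) := by
  obtain ⟨ha, hab', hb, hrun⟩ := h
  have hcross := fun j hj hj' => Run.cross (γ := γ) (T := T) (e := e) (side := side) (k := k)
    (a := a) (b := b) ⟨ha, hab', hb, hrun⟩ j hj hj'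
  obtain ⟨n, hn⟩ : ∃ n, n = b - a := ⟨_, rfl⟩
  have hn4 : 4 ≤ n := by omega
  -- parameters
  have hl : ∀ j : ℕ, ∃ t : ℝ, 0 < t ∧ (j ≤ n → γ.x (k + (j : ZMod N)) =
      pt (M.c (hub K T e side)) +
        t • (pt (M.c (Y K T e (a + j))) - pt (M.c (hub K T e side)))) := by
    intro j
    by_cases hj : j ≤ n
    · have h1 := hrun (a + j) (by omega) (by omega)
      rw [Nat.add_sub_cancel_left] at h1
      obtain ⟨u, v, hu, hv, huv, h2⟩ := h1
      refine ⟨v, hv, fun _ => ?_⟩
      rw [← h2]
      change u • pt (M.c (hub K T e side)) + v • pt (M.c (Y K T e (a + j))) = _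
      have hu' : u = 1 - v := by linarith
      rw [hu', smul_sub, sub_smul, one_smul]
      abel
    · exact ⟨1, one_pos, fun hh => absurd hh hj⟩
  choose lam hlam0 hlam using hl
  have hDne : ∀ j, 1 ≤ j → j ≤ K →
      DD (M.c (hub K T e side)) (M.c (Y K T e j)) (M.c (Y K T e (j + 1))) ≠ 0 := by
    intro j hj1 hj2 h0
    obtain ⟨i, hi, hiK, hij⟩ : ∃ i, i % 2 = 1 ∧ i ≤ K ∧ j ≠ i := by
      by_cases hj : j = 1
      · exact ⟨3, rfl, by omega, by omega⟩
      · exact ⟨1, rfl, by omega, hj⟩
    obtain ⟨ℓ, -, -, -, h4⟩ := hM T e side i hi hiK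
    apply h4 j hj1 hj2 hij
    rw [h0]
    exact dvd_zero _
  obtain ⟨j, hj, hdeg⟩ := run_degree n (by omega) (M.c (hub K T e side))
    (fun j => M.c (Y K T e (a + j))) (fun j => γ.x (k + (j : ZMod N))) lam
    (fun j _ => hlam0 j) (fun j hj => hlam j hj)
    (fun j hj => hDne (a + j) (by omega) (by omega))
    (by
      intro j hj1 hjn
      obtain ⟨d, hd1, hd2, hd3⟩ := hcross (a + j) (by omega) (by omega)
      rw [Nat.add_sub_cancel_left] at hd3
      have e1 : k + (j : ZMod N) - 1 = k + ((j - 1 : ℕ) : ZMod N) := by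
        obtain ⟨m, rfl⟩ : ∃ m, j = m + 1 := ⟨j - 1, by omega⟩
        push_cast
        ring
      have e2 : k + (j : ZMod N) + 1 = k + ((j + 1 : ℕ) : ZMod N) := by
        push_cast
        ring
      rw [e1, e2] at hd3
      rcases hd3 with hd3 | hd3
      · have h5 := hd3.straight.2
        have h6 : M.P.A d = pt (M.c (hub K T e side)) := by
          rw [← hd1]
          rfl
        rw [h6] at h5
        exact h5
      · have h5 := hd3.straight.1
        have h6 : M.P.B (iv d) = pt (M.c (hub K T e side)) := by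
          rw [← hd1]
          change pt (M.c (tl (iv (iv d)))) = _
          rw [iv_iv]
        rw [h6] at h5
        exact h5)
    ((Finset.range n).filter (fun j => (a + j) % 2 = 1))
    (fun j hj => by
      rw [Finset.mem_filter, Finset.mem_range] at hj
      exact hj.1)
    (fun j hj => by
      rw [Finset.mem_filter, Finset.mem_range] at hj
      obtain ⟨ℓ, -, -, h3, -⟩ := hM T e side (a + j) hj.2 (by omega)
      exact h3)
    (fun j hj => by
      rw [Finset.mem_filter, Finset.mem_range] at hj
      obtain ⟨ℓ, h1, h2, -, h4⟩ := hM T e side (a + j) hj.2 (by omega)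
      exact ⟨ℓ, h1, h2, fun i hi hij => h4 (a + i) (by omega) (by omega) (by omega)⟩)
  have hcard := odd_count a n
  have hpow : 2 ^ ((K - 10) / 4) ≤
      2 ^ ((Finset.range n).filter (fun j => (a + j) % 2 = 1)).card :=
    Nat.pow_le_pow_right (by norm_num) (by omega)
  have hjn : j ≤ n := by omega
  obtain ⟨d, hd1, hd2, hd3⟩ := hcross (a + j) (by omega) (by omega)
  rw [Nat.add_sub_cancel_left] at hd3
  have hx := hlam j hjn
  rcases hd3 with hd3 | hd3
  · refine ⟨k + (j : ZMod N), d, lam j, hd3, ?_, fun hh => hpow.trans (hdeg hh)⟩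
    rw [hx, AffineMap.lineMap_apply, hd1, hd2, vsub_eq_sub, vadd_eq_add, add_comm]
    rfl
  · refine ⟨k + (j : ZMod N), iv d, 1 - lam j, hd3, ?_, fun hh => ?_⟩
    · have h7 : tl (iv d) = Y K T e (a + j) := by
        rw [tl_iv, hd2]
      have h8 : tl (nx (iv d)) = hub K T e side := by
        rw [← tl_iv, iv_iv, hd1]
      rw [h7, h8, AffineMap.lineMap_apply_one_sub, hx, AffineMap.lineMap_apply, vsub_eq_sub,
        vadd_eq_add, add_comm]
      rfl
    · obtain ⟨h9, h10⟩ := deg_one_sub hh
      rw [← h10]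
      exact hpow.trans (hdeg h9)

end

end QGd
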