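import Pool.Agent.Lib_MP_6b5565_dg.Z1

/-! [DG-Z1b] the degree form of the theorem -/

namespace QGd

open EuclideanGeometry Vx Dx Polynomial

noncomputable section

/-- [DG-Z1b] growth -/
theorem growth (k : ℕ) : ∃ K, 10 ≤ K ∧
    4 * (2 * (10 ^ 6 * (K + 20) ^ 3) ^ k + 2) ^ 3 < 2 ^ ((K - 10) / 4) := by
  -- take `K = 10 + 4 m`
  have h := tendsto_pow_const_div_const_pow_of_one_lt (9 * k) (r := (2 : ℝ)) (by norm_num)
  have h2 : ∀ᶠ m : ℕ in Filter.atTop,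
      ((m : ℝ) ^ (9 * k) / 2 ^ m) < 1 / (4 * (4 * (10 ^ 6 * 34 ^ 3) ^ k) ^ 3) := by
    have h3 := h.eventually (gt_mem_nhds (show (0 : ℝ) < 1 / (4 * (4 * (10 ^ 6 * 34 ^ 3) ^ k) ^ 3) by positivity))
    exact h3
  obtain ⟨m, hm, hm1⟩ := (h2.and (Filter.eventually_ge_atTop 1)).exists
  refine ⟨10 + 4 * m, by omega, ?_⟩
  have e1 : (10 + 4 * m - 10) / 4 = m := by omega
  rw [e1]
  have h5 : (10 + 4 * m + 20) ≤ 34 * m := by omega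
  have h6 : 2 * (10 ^ 6 * (10 + 4 * m + 20) ^ 3) ^ k + 2 ≤ 4 * ((10 ^ 6 * 34 ^ 3) ^ k * m ^ (3 * k)) := by
    have h7 : (10 ^ 6 * (10 + 4 * m + 20) ^ 3) ^ k ≤ (10 ^ 6 * 34 ^ 3) ^ k * m ^ (3 * k) := by
      rw [pow_mul, ← mul_pow]
      refine Nat.pow_le_pow_left ?_ k
      calc 10 ^ 6 * (10 + 4 * m + 20) ^ 3 ≤ 10 ^ 6 * (34 * m) ^ 3 :=
            Nat.mul_le_mul_left _ (Nat.pow_le_pow_left h5 3)
        _ = _ := by ring
    have h8 : 1 ≤ (10 ^ 6 * 34 ^ 3) ^ k * m ^ (3 * k) := Nat.one_le_iff_ne_zero.2 (by positivity)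
    omega
  have h9 : 4 * (2 * (10 ^ 6 * (10 + 4 * m + 20) ^ 3) ^ k + 2) ^ 3 ≤
      4 * (4 * (10 ^ 6 * 34 ^ 3) ^ k) ^ 3 * m ^ (9 * k) := by
    calc 4 * (2 * (10 ^ 6 * (10 + 4 * m + 20) ^ 3) ^ k + 2) ^ 3
        ≤ 4 * (4 * ((10 ^ 6 * 34 ^ 3) ^ k * m ^ (3 * k))) ^ 3 :=
          Nat.mul_le_mul_left _ (Nat.pow_le_pow_left h6 3)
      _ = _ := by
          have : m ^ (9 * k) = (m ^ (3 * k)) ^ 3 := by
            rw [← pow_mul]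
            congr 1
            ring
          rw [this]
          ring
  refine lt_of_le_of_lt h9 ?_
  have h10 : ((4 * (4 * (10 ^ 6 * 34 ^ 3) ^ k) ^ 3 * m ^ (9 * k) : ℕ) : ℝ) < ((2 ^ m : ℕ) : ℝ) := by
    push_cast
    rw [lt_div_iff₀ (by positivity), div_mul_eq_mul_div, div_lt_one (by positivity)] at hm
    have h11 : (10 : ℝ) ^ 6 * 34 ^ 3 = 39304000000 := by norm_num
    rw [h11] at hm
    rw [mul_comm]
    exact hm
  exact_mod_cast h10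

end

end QGd
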