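import Pool.Agent.Lib_MP_6b5565_dg.Z1b

/-! [DG-Z1c] the degree form of the theorem -/

namespace QGd

open EuclideanGeometry Vx Dx Polynomial

noncomputable section

/-- [DG-Z1c] degree of the parameters -/
theorem main_S (k : ℕ) : ∃ (K : ℕ) (M : Msh K), M.I.HardS (2 * M.I.bits ^ k + 1) := by
  obtain ⟨K, hK, hg⟩ := growth k
  obtain ⟨M, hS, hM⟩ := exists_msh K
  refine ⟨K, M, ?_⟩
  intro N _ γ
  obtain ⟨T, e, side, k', a, b, hab, hrun⟩ := exists_run (M := M) (by omega) γ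
  obtain ⟨i, d, lam, h1, h2, h3⟩ := run_hard M hM hK γ hab hrun
  refine ⟨i, d, lam, h1, h2, fun hh => ?_⟩
  have h4 := h3 hh
  have h5 := bits_le K M hS
  by_contra hc
  push Not at hc
  have h6 : (minpoly ℚ lam).natDegree ≤ 2 * (10 ^ 6 * (K + 20) ^ 3) ^ k + 2 := by
    have h7 : M.I.bits ^ k ≤ (10 ^ 6 * (K + 20) ^ 3) ^ k := Nat.pow_le_pow_left h5 k
    omega
  have h8 : (minpoly ℚ lam).natDegree ^ 3 ≤ (2 * (10 ^ 6 * (K + 20) ^ 3) ^ k + 2) ^ 3 :=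
    Nat.pow_le_pow_left h6 3
  omega

end

end QGd
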