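import Pool.Agent.Lib_MP_6b5565_dg.Z1
import Pool.Agent.Lib_MP_6b5565_dg.V3

/-! [DG-Z3] exponential form of the theorem -/

namespace QGd

open EuclideanGeometry Vx Dx Polynomial

/-- the degree form, exponential -/
theorem hardS_exp (n : ℕ) (M : Msh (12 * n + 40))
    (hM : ∀ (T : Fin 6) (e : Fin 3) (side : Bool)
      (i : ℕ), i % 2 = 1 → i ≤ 12 * n + 40 → ∃ ℓ : ℕ, ℓ.Prime ∧
      Odd (padicValInt ℓ (DD (M.c (hub (12 * n + 40) T e side)) (M.c (Y (12 * n + 40) T e i))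
        (M.c (Y (12 * n + 40) T e (i + 1))))) ∧
      IP (M.c (hub (12 * n + 40) T e side)) (M.c (Y (12 * n + 40) T e i))
        (M.c (Y (12 * n + 40) T e (i + 1))) ≠ 0 ∧
      ∀ j, 1 ≤ j → j ≤ 12 * n + 40 → j ≠ i →
        ¬ (ℓ : ℤ) ∣ DD (M.c (hub (12 * n + 40) T e side)) (M.c (Y (12 * n + 40) T e j))
          (M.c (Y (12 * n + 40) T e (j + 1)))) :
    M.I.HardS (2 * 2 ^ n + 1) := by
  intro N _ γ
  obtain ⟨T, e, side, k, a, b, hab, h⟩ := exists_run (by omega) γ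
  obtain ⟨i, d, lam, h1, h2, h3⟩ := run_hard M hM (by omega) γ hab h
  refine ⟨i, d, lam, h1, h2, fun ha => ?_⟩
  have h4 := h3 ha
  have h5 : (12 * n + 40 - 10) / 4 = 3 * n + 7 := by omega
  rw [h5] at h4
  by_contra hlt
  have h6 : (minpoly ℚ lam).natDegree ≤ 2 * 2 ^ n := by omega
  have h7 : 4 * (minpoly ℚ lam).natDegree ^ 3 ≤ 4 * (2 * 2 ^ n) ^ 3 :=
    Nat.mul_le_mul_left _ (Nat.pow_le_pow_left h6 3)
  have h8 : 4 * (2 * 2 ^ n) ^ 3 = 2 ^ (3 * n + 5) := by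
    rw [mul_pow, ← pow_mul, pow_add, mul_comm n 3]; ring
  have h9 : 2 ^ (3 * n + 5) < 2 ^ (3 * n + 7) := Nat.pow_lt_pow_right (by norm_num) (by omega)
  omega

/-- EXPONENTIAL FORM -/
theorem main_exp (n : ℕ) : ∃ I : IPoly, I.bits ≤ 10 ^ 6 * (12 * n + 60) ^ 3 ∧ I.Hard (2 ^ n) := by
  obtain ⟨M, hS, hM⟩ := exists_msh (12 * n + 40)
  refine ⟨M.I, ?_, ?_⟩
  · exact bits_le (12 * n + 40) M hS
  · refine hard_of_hardS M.I (2 ^ n) (hardS_exp n M hM) ?_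
    intro N _ γ
    obtain ⟨i, b, h⟩ := visits_base γ
    exact ⟨i, base b, h⟩

/-- monotonicity -/
theorem IPoly.Hard.mono {I : IPoly} {b b' : ℕ} (h : I.Hard b) (hb : b' ≤ b) : I.Hard b' := by
  intro N _ γ
  obtain ⟨i, j, h1⟩ := h N γ
  exact ⟨i, j, fun r s hs F hF h2 => lt_of_le_of_lt hb (h1 r s hs F hF h2)⟩

end QGd
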